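import Mathlib

set_option autoImplicit false

namespace Pool.Agent.Helper605

open Matrix Polynomial Finset

/-- Lower Hessenberg matrix with ones above the diagonal. -/
def hess (a : ℕ → ℕ → ℝ) (n : ℕ) : Matrix (Fin n) (Fin n) ℝ :=
  Matrix.of fun i j => if (j : ℕ) = (i : ℕ) + 1 then 1 else if (j : ℕ) ≤ (i : ℕ) then a i j else 0

theorem hess_charpoly (a : ℕ → ℕ → ℝ) (n : ℕ) (χ : ℕ → ℝ[X]) (h0 : χ 0 = 1)
    (hχ : ∀ k < n, χ (k + 1) = X * χ k - ∑ j ∈ range (k + 1), C (a k j) * χ j) :
    (hess a n).charpoly = χ n := by
  rcases n with _ | m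
  · simp [Matrix.charpoly, h0]
  · set B := charmatrix (hess a (m + 1)) with hB
    set v : Fin (m + 1) → ℝ[X] := fun j => χ j with hv
    set b : Fin (m + 1) → ℝ[X] := fun i => if i = Fin.last m then χ (m + 1) else 0 with hb
    have hBe : ∀ i j, B i j = (if i = j then X else 0) - C (hess a (m + 1) i j) := by
      intro i j
      rw [hB, charmatrix_apply]
      simp [Matrix.diagonal_apply]
    have hmul : B *ᵥ v = b := by
      funext i
      rw [Matrix.mulVec, dotProduct]
      have h1 : ∀ j : Fin (m + 1), B i j * v j =
          (if i = j then X * χ j else 0) - C (hess a (m + 1) i j) * χ j := by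
        intro j
        rw [hBe, hv]
        split_ifs <;> ring
      simp_rw [h1]
      rw [Finset.sum_sub_distrib, Finset.sum_ite_eq]
      simp only [Finset.mem_univ, if_true]
      have h2 : ∑ j : Fin (m + 1), C (hess a (m + 1) i j) * χ j =
          ∑ j ∈ range (m + 1), (if j = (i : ℕ) + 1 then χ j else if j ≤ (i : ℕ) then C (a i j) * χ j else 0) := by
        rw [Finset.sum_range]
        apply Finset.sum_congr rfl
        intro j _
        simp only [hess, Matrix.of_apply]
        split_ifs <;> simp
      rw [h2]
      have hk := hχ i i.2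
      by_cases hi : i = Fin.last m
      · subst hi
        simp only [hb, if_true]
        simp only [Fin.val_last] at hk ⊢
        rw [hk]
        congr 1
        apply Finset.sum_congr rfl
        intro j hj
        rw [Finset.mem_range] at hj
        rw [if_neg (by omega), if_pos (by omega)]
      · simp only [hb, hi, if_false]
        have hi' : (i : ℕ) < m := by
          have := i.2
          have h3 : (i : ℕ) ≠ m := fun h => hi (Fin.ext (by simp [h]))
          omega
        have h4 : ∑ j ∈ range (m + 1), (if j = (i : ℕ) + 1 then χ j else if j ≤ (i : ℕ) then C (a i j) * χ j else 0)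
            = ∑ j ∈ range ((i : ℕ) + 2), (if j = (i : ℕ) + 1 then χ j else if j ≤ (i : ℕ) then C (a i j) * χ j else 0) := by
          symm
          apply Finset.sum_subset
          · intro j hj
            rw [Finset.mem_range] at *
            omega
          · intro j hj hj'
            rw [Finset.mem_range] at *
            rw [if_neg (by omega), if_neg (by omega)]
        rw [h4, Finset.sum_range_succ, if_pos rfl, hk]
        have h5 : ∑ j ∈ range ((i : ℕ) + 1), (if j = (i : ℕ) + 1 then χ j else if j ≤ (i : ℕ) then C (a i j) * χ j else 0)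
            = ∑ j ∈ range ((i : ℕ) + 1), C (a i j) * χ j := by
          apply Finset.sum_congr rfl
          intro j hj
          rw [Finset.mem_range] at hj
          rw [if_neg (by omega), if_pos (by omega)]
        rw [h5]
        ring
    have hcr : (B.updateCol 0 b).det = B.det := by
      rw [← Matrix.cramer_apply, ← hmul, Matrix.cramer_eq_adjugate_mulVec, Matrix.mulVec_mulVec,
        Matrix.adjugate_mul]
      simp [Matrix.smul_mulVec, hv, h0]
    have hdet : (B.updateCol 0 b).det = χ (m + 1) := by
      rw [Matrix.det_succ_column_zero]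
      rw [Finset.sum_eq_single (Fin.last m)]
      · have hlow : (((B.updateCol 0 b).submatrix (Fin.last m).succAbove Fin.succ)).det = (-1) ^ m := by
          rw [Matrix.det_of_isLowerTriangular]
          · have : ∀ i : Fin m, ((B.updateCol 0 b).submatrix (Fin.last m).succAbove Fin.succ) i i = -1 := by
              intro i
              rw [Matrix.submatrix_apply, Matrix.updateCol_ne (Fin.succ_ne_zero i), hBe]
              have hne : ¬ ((Fin.last m).succAbove i = i.succ) := by
                rw [Fin.succAbove_last]
                intro h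
                have := congrArg Fin.val h
                simp at this
              rw [if_neg hne]
              simp [hess]
            rw [Finset.prod_congr rfl (fun i _ => this i)]
            simp
          · intro i j hij
            have hij' : i < j := hij
            rw [Matrix.submatrix_apply, Matrix.updateCol_ne (Fin.succ_ne_zero j), hBe]
            have hlt : (i : ℕ) < (j : ℕ) := hij'
            have hne : ¬ ((Fin.last m).succAbove i = j.succ) := by
              rw [Fin.succAbove_last]
              intro h
              have := congrArg Fin.val h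
              simp at this
              omega
            rw [if_neg hne]
            simp only [hess, Matrix.of_apply, Fin.succAbove_last, Fin.val_castSucc, Fin.val_succ]
            rw [if_neg (by omega), if_neg (by omega)]
            simp
        rw [hlow]
        simp only [Matrix.updateCol_self, hb, if_true, Fin.val_last]
        have : ((-1 : ℝ[X]) ^ m) * ((-1 : ℝ[X]) ^ m) = 1 := by
          rw [← mul_pow]; simp
        calc (-1 : ℝ[X]) ^ m * χ (m + 1) * (-1) ^ m = χ (m + 1) * (((-1 : ℝ[X]) ^ m) * ((-1 : ℝ[X]) ^ m)) := by ring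
          _ = χ (m + 1) := by rw [this, mul_one]
      · intro i _ hi
        simp [Matrix.updateCol_self, hb, hi]
      · simp
    rw [Matrix.charpoly, ← hB, ← hcr, hdet]


theorem hess_nonneg (a : ℕ → ℕ → ℝ) (n : ℕ) (ha : ∀ i j, 0 ≤ a i j) (i j : Fin n) :
    0 ≤ hess a n i j := by
  simp only [hess, Matrix.of_apply]
  split_ifs
  · norm_num
  · exact ha _ _
  · norm_num

theorem pow_nonneg_entries {n : ℕ} (A : Matrix (Fin n) (Fin n) ℝ) (hA : ∀ i j, 0 ≤ A i j) (k : ℕ) :
    ∀ i j, 0 ≤ (A ^ k) i j := by
  induction k with
  | zero =>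
    intro i j
    simp only [pow_zero, Matrix.one_apply]
    split_ifs <;> norm_num
  | succ k ih =>
    intro i j
    rw [pow_succ, Matrix.mul_apply]
    exact Finset.sum_nonneg fun l _ => mul_nonneg (ih i l) (hA l j)

theorem pow_add_pos {n : ℕ} (A : Matrix (Fin n) (Fin n) ℝ) (hA : ∀ i j, 0 ≤ A i j) {k l : ℕ}
    {i j r : Fin n} (h1 : 0 < (A ^ k) i r) (h2 : 0 < (A ^ l) r j) : 0 < (A ^ (k + l)) i j := by
  rw [pow_add, Matrix.mul_apply]
  apply Finset.sum_pos'
  · intro s _
    exact mul_nonneg (pow_nonneg_entries A hA k i s) (pow_nonneg_entries A hA l s j)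
  · exact ⟨r, Finset.mem_univ _, mul_pos h1 h2⟩

/-- A Hessenberg matrix whose last two rows reach the first column is primitive. -/
theorem hess_primitive (a : ℕ → ℕ → ℝ) (n : ℕ) (ha : ∀ i j, 0 ≤ a i j)
    (h1 : 0 < a (n + 1) 0) (h2 : 0 < a n 0) :
    (hess a (n + 2)).IsPrimitive := by
  set A := hess a (n + 2) with hA
  have hnn : ∀ i j, 0 ≤ A i j := hess_nonneg a (n + 2) ha
  -- forward walks
  have hfwd : ∀ d : ℕ, ∀ i j : Fin (n + 2), (j : ℕ) = i + d → 0 < (A ^ d) i j := by
    intro d
    induction d with
    | zero =>
      intro i j hij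
      have : i = j := Fin.ext (by omega)
      subst this
      simp
    | succ d ih =>
      intro i j hij
      have hlt : (i : ℕ) + d < n + 2 := by have := j.2; omega
      have h3 := ih i ⟨i + d, hlt⟩ rfl
      refine pow_add_pos A hnn h3 ?_
      rw [pow_one, hA]
      simp only [hess, Matrix.of_apply]
      rw [if_pos (by omega)]
      norm_num
  have hc1 : 0 < (A ^ ((n + 1) + 1)) 0 0 := by
    have h3 := hfwd (n + 1) 0 (Fin.last (n + 1)) (by simp)
    refine pow_add_pos A hnn h3 ?_
    rw [pow_one, hA]
    simp only [hess, Matrix.of_apply]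
    simpa using h1
  have hc2 : 0 < (A ^ (n + 1)) 0 0 := by
    have h3 := hfwd n 0 ⟨n, by omega⟩ (by simp)
    refine pow_add_pos A hnn h3 ?_
    rw [pow_one, hA]
    simp only [hess, Matrix.of_apply]
    simpa using h2
  have hm1 : ∀ e : ℕ, 0 < (A ^ ((n + 2) * e)) 0 0 := by
    intro e
    induction e with
    | zero => simp
    | succ e ih => exact pow_add_pos A hnn ih hc1
  have hm2 : ∀ e : ℕ, 0 < (A ^ ((n + 1) * e)) 0 0 := by
    intro e
    induction e with
    | zero => simp
    | succ e ih => exact pow_add_pos A hnn ih hc2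
  have hloop : ∀ k : ℕ, (n + 1) * (n + 1) ≤ k → 0 < (A ^ k) 0 0 := by
    intro k hk
    have hmod := Nat.mod_lt k (show 0 < n + 1 by omega)
    have hdiv := Nat.div_add_mod k (n + 1)
    have hge : n + 1 ≤ k / (n + 1) := by
      rw [Nat.le_div_iff_mul_le (by omega)]
      exact hk
    have hk' : k = (n + 2) * (k % (n + 1)) + (n + 1) * (k / (n + 1) - k % (n + 1)) := by
      rw [Nat.mul_sub]
      have : (n + 1) * (k % (n + 1)) ≤ (n + 1) * (k / (n + 1)) := Nat.mul_le_mul_left _ (by omega)
      have h4 : (n + 2) * (k % (n + 1)) = (n + 1) * (k % (n + 1)) + k % (n + 1) := by ring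
      omega
    rw [hk']
    exact pow_add_pos A hnn (hm1 _) (hm2 _)
  have hback : ∀ i : Fin (n + 2), 0 < (A ^ (n + 2 - (i : ℕ))) i 0 := by
    intro i
    have h3 := hfwd (n + 1 - i) i (Fin.last (n + 1)) (by have := i.2; simp; omega)
    have h4 : n + 2 - (i : ℕ) = (n + 1 - i) + 1 := by have := i.2; omega
    rw [h4]
    refine pow_add_pos A hnn h3 ?_
    rw [pow_one, hA]
    simp only [hess, Matrix.of_apply]
    simpa using h1
  refine ⟨hnn, (n + 2) * (n + 2) + (n + 2), by positivity, ?_⟩
  intro i j
  have hi := i.2
  have hj := j.2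
  have hsplit : (n + 2) * (n + 2) + (n + 2) =
      (n + 2 - (i : ℕ)) + (((n + 2) * (n + 2) + (n + 2) - (n + 2 - (i : ℕ)) - j) + j) := by
    have : n + 2 ≤ (n + 2) * (n + 2) := by nlinarith
    omega
  rw [hsplit]
  refine pow_add_pos A hnn (hback i) (pow_add_pos A hnn (hloop _ ?_) (hfwd j 0 j (by simp)))
  have : (n + 1) * (n + 1) + (n + 1) + (n + 2) = (n + 2) * (n + 2) := by ring
  omega

end Pool.Agent.Helper605
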