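import Mathlib
import Pool.Agent.Helper605.Hess

set_option autoImplicit false

namespace Pool.Agent.Helper605

open Matrix Polynomial Finset

/-- Recursive data describing a lower Hessenberg matrix with reversed characteristic polynomial. -/
structure HData (S : Subring ℝ) (n : ℕ) (E : ℝ[X]) (a : ℕ → ℕ → ℝ) (D : ℕ → ℝ[X]) : Prop where
  memS : ∀ i j, a i j ∈ S
  nonneg : ∀ i j, 0 ≤ a i j
  zero : D 0 = 1
  step : ∀ k < n, D (k + 1) = D k - ∑ j ∈ range (k + 1), C (a k j) * X ^ (k + 1 - j) * D j
  last : D n = E

theorem HData.natDegree_le {S : Subring ℝ} {n : ℕ} {E : ℝ[X]} {a : ℕ → ℕ → ℝ} {D : ℕ → ℝ[X]}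
    (h : HData S n E a D) : ∀ k ≤ n, (D k).natDegree ≤ k := by
  intro k
  induction k using Nat.strong_induction_on with
  | _ k ih =>
    intro hk
    rcases k with _ | k
    · rw [h.zero]; simp
    · rw [h.step k (by omega)]
      refine (natDegree_sub_le _ _).trans (max_le ((ih k (by omega) (by omega)).trans (by omega)) ?_)
      refine natDegree_sum_le_of_forall_le _ _ ?_
      intro j hj
      rw [Finset.mem_range] at hj
      have h1 := ih j (by omega) (by omega)
      have h2 : (C (a k j) * X ^ (k + 1 - j) : ℝ[X]).natDegree ≤ k + 1 - j := natDegree_C_mul_X_pow_le _ _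
      calc (C (a k j) * X ^ (k + 1 - j) * D j).natDegree
          ≤ (C (a k j) * X ^ (k + 1 - j) : ℝ[X]).natDegree + (D j).natDegree := natDegree_mul_le
        _ ≤ (k + 1 - j) + j := by omega
        _ = k + 1 := by omega

theorem HData.charpoly {S : Subring ℝ} {n : ℕ} {E : ℝ[X]} {a : ℕ → ℕ → ℝ} {D : ℕ → ℝ[X]}
    (h : HData S n E a D) : (hess a n).charpoly = reflect n E := by
  have key := hess_charpoly a n (fun k => reflect k (D k)) (by simp [h.zero]) ?_
  · rw [key, h.last]
  · intro k hk
    rw [h.step k hk, reflect_sub]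
    congr 1
    · have := reflect_mul (1 : ℝ[X]) (D k) (F := 1) (G := k) (by simp) (h.natDegree_le k hk.le)
      rw [one_mul, add_comm 1 k] at this
      rw [this, reflect_one, pow_one]
    · have hsum : ∀ s : Finset ℕ, reflect (k + 1) (∑ j ∈ s, C (a k j) * X ^ (k + 1 - j) * D j)
          = ∑ j ∈ s, reflect (k + 1) (C (a k j) * X ^ (k + 1 - j) * D j) := by
        intro s
        induction s using Finset.induction_on with
        | empty => simp
        | insert x s hx ih => rw [Finset.sum_insert hx, Finset.sum_insert hx, reflect_add, ih]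
      rw [hsum]
      apply Finset.sum_congr rfl
      intro j hj
      rw [Finset.mem_range] at hj
      rw [mul_assoc, reflect_C_mul]
      have := reflect_mul (X ^ (k + 1 - j) : ℝ[X]) (D j) (F := k + 1 - j) (G := j)
        (natDegree_X_pow_le _) (h.natDegree_le j (by omega))
      rw [show k + 1 - j + j = k + 1 by omega] at this
      rw [this, reflect_monomial]
      simp

/-- Starting data: a power series with constant coefficient one and nonpositive other coefficients. -/
theorem hdata_base (S : Subring ℝ) (E : PowerSeries ℝ) (hS : ∀ k, PowerSeries.coeff k E ∈ S)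
    (h0 : PowerSeries.coeff 0 E = 1) (hneg : ∀ k, 1 ≤ k → PowerSeries.coeff k E ≤ 0) (n : ℕ) :
    ∃ a D, HData S n (PowerSeries.trunc (n + 1) E) a D := by
  refine ⟨fun k j => if j = 0 then - PowerSeries.coeff (k + 1) E else 0,
    fun k => PowerSeries.trunc (k + 1) E, ?_, ?_, ?_, ?_, rfl⟩
  · intro i j
    split_ifs
    · exact S.neg_mem (hS _)
    · exact S.zero_mem
  · intro i j
    split_ifs
    · have := hneg (i + 1) (by omega)
      linarith
    · exact le_rfl
  · ext i
    rw [PowerSeries.coeff_trunc, Polynomial.coeff_one]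
    by_cases hi : i = 0
    · subst hi; simp [h0]
    · rw [if_neg (by omega), if_neg hi]
  · intro k _
    rw [PowerSeries.trunc_succ]
    rw [Finset.sum_eq_single 0]
    · have h1 : PowerSeries.trunc (0 + 1) E = 1 := by
        ext i
        rw [PowerSeries.coeff_trunc, Polynomial.coeff_one]
        by_cases hi : i = 0
        · subst hi; simp [h0]
        · rw [if_neg (by omega), if_neg hi]
      rw [h1]
      simp only [if_true, Nat.sub_zero, mul_one]
      rw [← Polynomial.C_mul_X_pow_eq_monomial]
      simp
    · intro j _ hj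
      simp [hj]
    · simp

/-- Extension of the data when the series is multiplied by `1 - q`. -/
theorem hdata_extend (S : Subring ℝ) (n L n0 : ℕ) (E E' : PowerSeries ℝ) (q : ℝ[X])
    (hE : ∀ k, PowerSeries.coeff k E ∈ S) (hE' : ∀ k, PowerSeries.coeff k E' ∈ S)
    (hqS : ∀ k, q.coeff k ∈ S) (hq : ∀ k, 0 ≤ q.coeff k) (hq0 : q.coeff 0 = 0)
    (hqL : q.natDegree ≤ L) (hmul : E' = (1 - (q : PowerSeries ℝ)) * E) (hn : n0 + L ≤ n)
    (hneg : ∀ k, n0 ≤ k → PowerSeries.coeff k E ≤ 0)
    (hneg' : ∀ k, n0 ≤ k → PowerSeries.coeff k E' ≤ 0)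
    (h : ∃ a D, HData S n (PowerSeries.trunc (n + 1) E) a D) :
    ∃ a D, HData S (n + L) (PowerSeries.trunc (n + L + 1) E') a D ∧
      ((∀ k, n0 ≤ k → PowerSeries.coeff k E < 0) → 0 < q.coeff L →
        ∀ i, n ≤ i → i < n + L → 0 < a i 0) := by
  obtain ⟨a, D, hD⟩ := h
  set T : ℝ[X] := PowerSeries.trunc (n + 1) E with hT
  set P : ℝ[X] := (1 - q) * T with hP
  -- the correction terms
  set g : ℕ → ℝ := fun i => P.coeff i - PowerSeries.coeff i E' with hg
  have hPcoeff : ∀ i, n < i → P.coeff i = - ∑ x ∈ antidiagonal i, q.coeff x.1 * T.coeff x.2 := by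
    intro i hi
    rw [hP, sub_mul, one_mul, Polynomial.coeff_sub, Polynomial.coeff_mul, hT, PowerSeries.coeff_trunc,
      if_neg (by omega)]
    ring
  have hterm : ∀ i, n < i → ∀ x ∈ antidiagonal i, q.coeff x.1 * T.coeff x.2 ≤ 0 := by
    intro i hi x hx
    rw [Finset.HasAntidiagonal.mem_antidiagonal] at hx
    by_cases hxL : x.1 ≤ L
    · rw [hT, PowerSeries.coeff_trunc]
      split_ifs
      · exact mul_nonpos_of_nonneg_of_nonpos (hq _) (hneg _ (by omega))
      · simp
    · rw [Polynomial.coeff_eq_zero_of_natDegree_lt (by omega)]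
      simp
  have hgnn : ∀ i, n < i → 0 ≤ g i := by
    intro i hi
    rw [hg]
    simp only
    rw [hPcoeff i hi]
    have h1 : ∑ x ∈ antidiagonal i, q.coeff x.1 * T.coeff x.2 ≤ 0 :=
      Finset.sum_nonpos (hterm i hi)
    have h2 := hneg' i (by omega)
    linarith
  have hgpos : (∀ k, n0 ≤ k → PowerSeries.coeff k E < 0) → 0 < q.coeff L →
      ∀ i, n < i → i ≤ n + L → 0 < g i := by
    intro hs hqLpos i hi hi2
    rw [hg]
    simp only
    rw [hPcoeff i hi]
    have h1 : ∑ x ∈ antidiagonal i, q.coeff x.1 * T.coeff x.2 < 0 := by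
      apply Finset.sum_neg' (hterm i hi)
      refine ⟨(L, i - L), by rw [Finset.HasAntidiagonal.mem_antidiagonal]; simp only; omega, ?_⟩
      simp only
      rw [hT, PowerSeries.coeff_trunc, if_pos (by omega)]
      exact mul_neg_of_pos_of_neg hqLpos (hs _ (by omega))
    have h2 := hneg' i (by omega)
    linarith
  have hTS : ∀ i, T.coeff i ∈ S := by
    intro i
    rw [hT, PowerSeries.coeff_trunc]
    split_ifs
    · exact hE _
    · exact S.zero_mem
  have hPS : ∀ i, P.coeff i ∈ S := by
    intro i
    rw [hP, sub_mul, one_mul, Polynomial.coeff_sub, Polynomial.coeff_mul]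
    exact S.sub_mem (hTS i) (S.sum_mem fun x _ => S.mul_mem (hqS _) (hTS _))
  have hgS : ∀ i, g i ∈ S := fun i => S.sub_mem (hPS i) (hE' i)
  set a' : ℕ → ℕ → ℝ := fun k j => if k < n then a k j else
    if k < n + L then (if j = n then q.coeff (k + 1 - n) else 0) + (if j = 0 then g (k + 1) else 0) else 0 with ha'
  set D' : ℕ → ℝ[X] := fun k => if k ≤ n then D k else
    D n - ∑ i ∈ range (k - n), C (q.coeff (i + 1)) * X ^ (i + 1) * D n
      - ∑ i ∈ range (k - n), C (g (n + i + 1)) * X ^ (n + i + 1) with hD'
  have hqsum : ∑ i ∈ range L, C (q.coeff (i + 1)) * X ^ (i + 1) = q := by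
    have h1 := q.as_sum_range_C_mul_X_pow' (n := L + 1) (by omega)
    rw [Finset.sum_range_succ'] at h1
    rw [hq0] at h1
    simpa using h1.symm
  refine ⟨a', D', ⟨?_, ?_, ?_, ?_, ?_⟩, ?_⟩
  · intro i j
    simp only [ha']
    split_ifs <;> first | exact hD.memS _ _ | exact S.zero_mem | skip
    · exact S.add_mem (hqS _) (hgS _)
    · exact S.add_mem (hqS _) S.zero_mem
    · exact S.add_mem S.zero_mem (hgS _)
    · exact S.add_mem S.zero_mem S.zero_mem
  · intro i j
    simp only [ha']
    split_ifs with c1 c2 c3 c4 c5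
    · exact hD.nonneg _ _
    · exact add_nonneg (hq _) (hgnn _ (by omega))
    · exact add_nonneg (hq _) le_rfl
    · exact add_nonneg le_rfl (hgnn _ (by omega))
    · simp
    · exact le_rfl
  · simp only [hD']
    rw [if_pos (Nat.zero_le _), hD.zero]
  · intro k hk
    by_cases hkn : k < n
    · simp only [hD']
      rw [if_pos (by omega), if_pos (by omega), hD.step k hkn]
      congr 1
      apply Finset.sum_congr rfl
      intro j hj
      rw [Finset.mem_range] at hj
      simp only [ha']
      rw [if_pos hkn, if_pos (by omega)]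
    · have hkn' : n ≤ k := by omega
      have hDk : D' k = D n - ∑ i ∈ range (k - n), C (q.coeff (i + 1)) * X ^ (i + 1) * D n
          - ∑ i ∈ range (k - n), C (g (n + i + 1)) * X ^ (n + i + 1) := by
        simp only [hD']
        by_cases hkk : k ≤ n
        · have : k = n := by omega
          subst this
          simp
        · rw [if_neg hkk]
      have hDk1 : D' (k + 1) = D n - ∑ i ∈ range (k + 1 - n), C (q.coeff (i + 1)) * X ^ (i + 1) * D n
          - ∑ i ∈ range (k + 1 - n), C (g (n + i + 1)) * X ^ (n + i + 1) := by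
        simp only [hD']
        rw [if_neg (by omega)]
      rw [hDk1, hDk, show k + 1 - n = (k - n) + 1 by omega, Finset.sum_range_succ, Finset.sum_range_succ]
      have hsum : ∑ j ∈ range (k + 1), C (a' k j) * X ^ (k + 1 - j) * D' j =
          C (q.coeff (k - n + 1)) * X ^ (k - n + 1) * D n + C (g (n + (k - n) + 1)) * X ^ (n + (k - n) + 1) := by
        have h1 : ∀ j ∈ range (k + 1), C (a' k j) * X ^ (k + 1 - j) * D' j =
            (if j = n then C (q.coeff (k + 1 - n)) * X ^ (k + 1 - j) * D' j else 0) +
            (if j = 0 then C (g (k + 1)) * X ^ (k + 1 - j) * D' j else 0) := by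
          intro j _
          simp only [ha']
          rw [if_neg hkn, if_pos hk]
          split_ifs <;> simp [add_mul]
        rw [Finset.sum_congr rfl h1, Finset.sum_add_distrib, Finset.sum_ite_eq', Finset.sum_ite_eq']
        rw [if_pos (by rw [Finset.mem_range]; omega), if_pos (by rw [Finset.mem_range]; omega)]
        have h2 : D' n = D n := by simp only [hD']; rw [if_pos le_rfl]
        have h3 : D' 0 = 1 := by simp only [hD']; rw [if_pos (Nat.zero_le _), hD.zero]
        rw [h2, h3, mul_one]
        rw [show k + 1 - n = k - n + 1 by omega, show n + (k - n) + 1 = k + 1 by omega, Nat.sub_zero]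
      rw [hsum]
      ring
  · have hDL : D' (n + L) = D n - ∑ i ∈ range L, C (q.coeff (i + 1)) * X ^ (i + 1) * D n
          - ∑ i ∈ range L, C (g (n + i + 1)) * X ^ (n + i + 1) := by
      simp only [hD']
      by_cases hL : L = 0
      · subst hL; simp
      · rw [if_neg (by omega), show n + L - n = L by omega]
    rw [hDL, ← Finset.sum_mul, hqsum, hD.last]
    have hPe : T - q * T = P := by rw [hP]; ring
    rw [hPe]
    ext i
    rw [Polynomial.coeff_sub, Polynomial.finsetSum_coeff, PowerSeries.coeff_trunc]
    have h1 : ∀ j ∈ range L, (C (g (n + j + 1)) * X ^ (n + j + 1) : ℝ[X]).coeff i =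
        if j = i - (n + 1) ∧ n < i then g i else 0 := by
      intro j _
      rw [Polynomial.coeff_C_mul, Polynomial.coeff_X_pow]
      by_cases hji : i = n + j + 1
      · rw [if_pos hji, if_pos (by omega), hji, mul_one]
      · rw [if_neg hji, if_neg (by omega), mul_zero]
    rw [Finset.sum_congr rfl h1]
    by_cases hin : n < i
    · simp only [hin, and_true]
      rw [Finset.sum_ite_eq']
      by_cases hiL : i < n + L + 1
      · rw [if_pos (by rw [Finset.mem_range]; omega), if_pos hiL]
        simp only [hg]
        ring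
      · rw [if_neg (by rw [Finset.mem_range]; omega), if_neg hiL, sub_zero]
        apply Polynomial.coeff_eq_zero_of_natDegree_lt
        have hTd : T.natDegree ≤ n := by
          have := PowerSeries.natDegree_trunc_lt E n
          rw [hT]; omega
        have hqd : (1 - q : ℝ[X]).natDegree ≤ L := by
          refine (natDegree_sub_le _ _).trans ?_
          simp [hqL]
        have : P.natDegree ≤ L + n := by
          rw [hP]
          exact natDegree_mul_le_of_le hqd hTd
        omega
    · simp only [hin, and_false, if_false, Finset.sum_const_zero, sub_zero]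
      rw [if_pos (by omega)]
      have h2 : P.coeff i = PowerSeries.coeff i ((P : ℝ[X]) : PowerSeries ℝ) := by simp
      rw [h2, hP, hmul, Polynomial.coe_mul, PowerSeries.coeff_mul, PowerSeries.coeff_mul]
      apply Finset.sum_congr rfl
      intro x hx
      rw [Finset.HasAntidiagonal.mem_antidiagonal] at hx
      congr 1
      · simp
      · rw [Polynomial.coeff_coe, hT, PowerSeries.coeff_trunc, if_pos (by omega)]
  · intro hs hqLpos i hi hi2
    simp only [ha']
    rw [if_neg (by omega), if_pos hi2, if_true]
    have h1 := hgpos hs hqLpos (i + 1) (by omega) (by omega)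
    have h2 : 0 ≤ (if 0 = n then q.coeff (i + 1 - n) else 0) := by
      split_ifs
      · exact hq _
      · exact le_rfl
    linarith

end Pool.Agent.Helper605
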