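import Mathlib

set_option autoImplicit false

namespace Pool.Agent.Helper605

open PowerSeries Finset

variable {K : Type*} [Field K]

/-- `l` is the negated logarithmic derivative of `f`: `X f' = - l f`. -/
def IsLD (f l : PowerSeries K) : Prop := X * PowerSeries.derivative K f = -(l * f)

theorem IsLD.mul {f g a b : PowerSeries K} (hf : IsLD f a) (hg : IsLD g b) :
    IsLD (f * g) (a + b) := by
  unfold IsLD at *
  rw [Derivation.leibniz, smul_eq_mul, smul_eq_mul]
  linear_combination g * hf + f * hg

theorem IsLD.one : IsLD (1 : PowerSeries K) 0 := by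
  unfold IsLD
  simp

theorem IsLD.ld_unique {f a b : PowerSeries K} (hf : IsLD f a) (hg : IsLD f b) (h0 : f ≠ 0) :
    a = b := by
  unfold IsLD at *
  have : a * f = b * f := by
    have := hf.symm.trans hg
    simpa using this
  exact mul_right_cancel₀ h0 this

theorem IsLD.cancel {f g a b : PowerSeries K} (hf : IsLD f a) (hfg : IsLD (f * g) b)
    (h0 : f ≠ 0) : IsLD g (b - a) := by
  unfold IsLD at *
  rw [Derivation.leibniz, smul_eq_mul, smul_eq_mul] at hfg
  apply mul_left_cancel₀ h0
  linear_combination hfg - g * hf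

theorem IsLD.coeff_eq {f l : PowerSeries K} (h : IsLD f l) (k : ℕ) :
    (k : K) * coeff k f = - ∑ x ∈ antidiagonal k, coeff x.1 l * coeff x.2 f := by
  unfold IsLD at h
  have := congrArg (coeff k) h
  rw [map_neg, coeff_mul (φ := l)] at this
  rw [← this]
  rcases k with _ | k
  · simp
  · rw [coeff_succ_X_mul, coeff_derivative]
    push_cast
    ring

theorem isLD_of_coeff {f l : PowerSeries K}
    (h : ∀ k : ℕ, (k : K) * coeff k f = - ∑ x ∈ antidiagonal k, coeff x.1 l * coeff x.2 f) :
    IsLD f l := by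
  unfold IsLD
  ext k
  rw [map_neg, coeff_mul (φ := l), ← h k]
  rcases k with _ | k
  · simp
  · rw [coeff_succ_X_mul, coeff_derivative]
    push_cast
    ring

theorem sum_anti (l f : ℕ → K) (hl : l 0 = 0) (k : ℕ) :
    ∑ x ∈ antidiagonal k, l x.1 * f x.2 = ∑ j ∈ range k, l (k - j) * f j := by
  rw [← Finset.Nat.sum_antidiagonal_swap, Finset.Nat.sum_antidiagonal_eq_sum_range_succ_mk,
    Finset.sum_range_succ]
  simp [hl]

/-- recursion in range form -/
theorem IsLD.coeff_range {f l : PowerSeries K} (h : IsLD f l) (hl : coeff 0 l = 0) (k : ℕ) :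
    (k : K) * coeff k f = - ∑ j ∈ range k, coeff (k - j) l * coeff j f := by
  rw [h.coeff_eq k, sum_anti (fun j => coeff j l) (fun j => coeff j f) hl]

theorem isLD_of_coeff_range {f l : PowerSeries K} (hl : coeff 0 l = 0)
    (h : ∀ k : ℕ, (k : K) * coeff k f = - ∑ j ∈ range k, coeff (k - j) l * coeff j f) :
    IsLD f l := by
  apply isLD_of_coeff
  intro k
  rw [h k, sum_anti (fun j => coeff j l) (fun j => coeff j f) hl]

theorem IsLD.unique [CharZero K] {f g l : PowerSeries K} (hf : IsLD f l) (hg : IsLD g l)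
    (hl : coeff 0 l = 0) (h0 : coeff 0 f = coeff 0 g) : f = g := by
  ext k
  induction k using Nat.strong_induction_on with
  | _ k ih =>
    rcases k with _ | k
    · exact h0
    · have h1 := hf.coeff_range hl (k + 1)
      have h2 := hg.coeff_range hl (k + 1)
      have h3 : ∑ j ∈ range (k + 1), coeff (k + 1 - j) l * coeff j f =
          ∑ j ∈ range (k + 1), coeff (k + 1 - j) l * coeff j g := by
        apply Finset.sum_congr rfl
        intro j hj
        rw [Finset.mem_range] at hj
        rw [ih j hj]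
      rw [h3, ← h2] at h1
      have h4 : ((k + 1 : ℕ) : K) ≠ 0 := Nat.cast_ne_zero.mpr (by omega)
      exact mul_left_cancel₀ h4 h1

/-- Recursive solution of the differential equation. -/
noncomputable def ldSol (l : ℕ → K) : ℕ → K
  | 0 => 1
  | (k + 1) => -(((k : K) + 1)⁻¹) * ∑ j : Fin (k + 1), l (k + 1 - j) * ldSol l j
decreasing_by exact j.2

theorem ldSol_succ (l : ℕ → K) (k : ℕ) :
    ldSol l (k + 1) = -(((k : K) + 1)⁻¹) * ∑ j ∈ range (k + 1), l (k + 1 - j) * ldSol l j := by
  rw [ldSol, Finset.sum_range (fun j => l (k + 1 - j) * ldSol l j)]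

theorem exists_isLD [CharZero K] (l : PowerSeries K) (hl : coeff 0 l = 0) :
    ∃ f : PowerSeries K, coeff 0 f = 1 ∧ IsLD f l := by
  refine ⟨PowerSeries.mk (ldSol (fun k => coeff k l)), ?_, ?_⟩
  · rw [coeff_mk, ldSol]
  · apply isLD_of_coeff_range hl
    intro k
    rcases k with _ | k
    · simp
    · have h4 : ((k : K) + 1) ≠ 0 := by
        have : ((k + 1 : ℕ) : K) ≠ 0 := Nat.cast_ne_zero.mpr (by omega)
        push_cast at this
        exact this
      rw [coeff_mk, ldSol_succ]
      simp only [coeff_mk]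
      push_cast
      field_simp

theorem isLD_one_sub_monomial (k : ℕ) (hk : 1 ≤ k) (w : K) :
    IsLD (1 - C w * X ^ k) (PowerSeries.mk fun m => if m ≠ 0 ∧ k ∣ m then (k : K) * w ^ (m / k) else 0) := by
  unfold IsLD
  have hd : PowerSeries.derivative K (1 - C w * X ^ k : PowerSeries K) = - (C w * (C (k : K) * X ^ (k - 1))) := by
    ext m
    rw [coeff_derivative, map_neg, map_sub, coeff_C_mul, coeff_C_mul, coeff_C_mul, coeff_X_pow, coeff_X_pow, coeff_one]
    rw [if_neg (by omega : ¬ m + 1 = 0)]
    by_cases hm : m + 1 = k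
    · rw [if_pos hm, if_pos (by omega)]
      rw [← hm]; push_cast; ring
    · rw [if_neg hm, if_neg (by omega)]
      ring
  rw [hd]
  ext m
  have h1 : X * -(C w * (C (k : K) * X ^ (k - 1))) = - (C ((k : K) * w) * X ^ k) := by
    have : (X : PowerSeries K) ^ k = X * X ^ (k - 1) := by
      rw [← pow_succ']; congr 1; omega
    rw [this]
    simp only [map_mul]
    ring
  rw [h1]
  have h2 : -((PowerSeries.mk fun m => if m ≠ 0 ∧ k ∣ m then (k : K) * w ^ (m / k) else 0) * (1 - C w * X ^ k))
      = - (PowerSeries.mk fun m => if m ≠ 0 ∧ k ∣ m then (k : K) * w ^ (m / k) else 0)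
        + C w * ((PowerSeries.mk fun m => if m ≠ 0 ∧ k ∣ m then (k : K) * w ^ (m / k) else 0) * X ^ k) := by ring
  rw [h2, map_neg, map_add, map_neg, coeff_C_mul, coeff_C_mul, coeff_X_pow, coeff_mul_X_pow', coeff_mk]
  by_cases hmk : m = k
  · subst hmk
    have : m ≠ 0 := by omega
    simp [this, Nat.div_self (show 0 < m by omega)]
  · rw [if_neg hmk]
    by_cases hkm : k ≤ m
    · rw [if_pos hkm, coeff_mk]
      have hm0 : m ≠ 0 := by omega
      have hmk0 : m - k ≠ 0 := by omega
      by_cases hdiv : k ∣ m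
      · have hdiv' : k ∣ m - k := Nat.dvd_sub hdiv dvd_rfl
        rw [if_pos ⟨hm0, hdiv⟩, if_pos ⟨hmk0, hdiv'⟩]
        have : m / k = (m - k) / k + 1 := by
          obtain ⟨c, rfl⟩ := hdiv
          rw [Nat.mul_div_cancel_left _ (by omega)]
          rcases c with _ | c
          · simp at hm0
          · rw [show k * (c + 1) - k = k * c by rw [Nat.mul_add]; omega, Nat.mul_div_cancel_left _ (by omega)]
        rw [this, pow_succ]
        ring
      · have hdiv' : ¬ k ∣ m - k := by
          intro h
          apply hdiv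
          have := Nat.dvd_add h (dvd_refl k)
          rwa [Nat.sub_add_cancel hkm] at this
        rw [if_neg (fun h => hdiv h.2), if_neg (fun h => hdiv' h.2)]
        ring
    · rw [if_neg hkm]
      have : ¬ (m ≠ 0 ∧ k ∣ m) := by
        rintro ⟨h0, hd⟩
        exact hkm (Nat.le_of_dvd (by omega) hd)
      rw [if_neg this]
      ring

end Pool.Agent.Helper605
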