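import Mathlib
import Pool.Agent.Helper605.LD

set_option autoImplicit false

namespace Pool.Agent.Helper605

open PowerSeries Finset

theorem subring_dense (S : Subring ℝ) (hS : S ≠ ⊥) : Dense (S : Set ℝ) := by
  rcases AddSubgroup.dense_or_cyclic S.toAddSubgroup with h | ⟨a, ha⟩
  · exact h
  · exfalso
    apply hS
    have hmem : ∀ x : ℝ, x ∈ S ↔ ∃ n : ℤ, n • a = x := by
      intro x
      have : x ∈ S ↔ x ∈ S.toAddSubgroup := Iff.rfl
      rw [this, ha, ← AddSubgroup.zmultiples_eq_closure, AddSubgroup.mem_zmultiples_iff]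
    have haS : a ∈ S := (hmem a).mpr ⟨1, by simp⟩
    obtain ⟨m, hm⟩ := (hmem (a * a)).mp (S.mul_mem haS haS)
    obtain ⟨n, hn⟩ := (hmem 1).mp S.one_mem
    have ha0 : a ≠ 0 := by
      rintro rfl
      simp at hn
    have ham : a = (m : ℝ) := by
      rw [zsmul_eq_mul] at hm
      exact (mul_right_cancel₀ ha0 hm).symm
    rw [eq_bot_iff]
    intro x hx
    obtain ⟨k, hk⟩ := (hmem x).mp hx
    rw [Subring.mem_bot]
    refine ⟨k * m, ?_⟩
    rw [← hk, zsmul_eq_mul, ham]
    push_cast
    ring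

theorem subring_between (S : Subring ℝ) (hS : S ≠ ⊥) (a b : ℝ) (hab : a < b) :
    ∃ s ∈ S, a < s ∧ s < b := by
  obtain ⟨s, hs, h1, h2⟩ := (subring_dense S hS).exists_between hab
  exact ⟨s, hs, h1, h2⟩

/-- All coefficients lie in `S`. -/
def InS (S : Subring ℝ) (E : PowerSeries ℝ) : Prop := ∀ k, coeff k E ∈ S

theorem InS.mul {S : Subring ℝ} {E G : PowerSeries ℝ} (hE : InS S E) (hG : InS S G) : InS S (E * G) := by
  intro k
  rw [coeff_mul]
  exact S.sum_mem fun x _ => S.mul_mem (hE _) (hG _)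

theorem InS.one {S : Subring ℝ} : InS S 1 := by
  intro k
  rw [coeff_one]
  split_ifs
  · exact S.one_mem
  · exact S.zero_mem

theorem InS.sub {S : Subring ℝ} {E G : PowerSeries ℝ} (hE : InS S E) (hG : InS S G) : InS S (E - G) := by
  intro k
  rw [map_sub]
  exact S.sub_mem (hE _) (hG _)

theorem InS.inv {S : Subring ℝ} {E : PowerSeries ℝ} (hE : InS S E) (h1 : coeff 0 E = 1) : InS S E⁻¹ := by
  have hc : constantCoeff E = 1 := by rw [← coeff_zero_eq_constantCoeff_apply]; exact h1
  have hmul : E * E⁻¹ = 1 := PowerSeries.mul_inv_cancel _ (by rw [hc]; exact one_ne_zero)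
  intro k
  induction k using Nat.strong_induction_on with
  | _ k ih =>
    have h2 := congrArg (coeff k) hmul
    rw [coeff_mul, Finset.Nat.sum_antidiagonal_eq_sum_range_succ_mk, Finset.sum_range_succ'] at h2
    simp only [Nat.sub_zero, h1, one_mul] at h2
    have h3 : coeff k E⁻¹ = coeff k (1 : PowerSeries ℝ) - ∑ j ∈ range k, coeff (j + 1) E * coeff (k - (j + 1)) E⁻¹ := by
      rw [← h2]; ring
    rw [h3]
    apply S.sub_mem (InS.one k)
    apply S.sum_mem
    intro j hj
    rw [Finset.mem_range] at hj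
    exact S.mul_mem (hE _) (ih _ (by omega))

theorem InS.monomial {S : Subring ℝ} (w : ℝ) (hw : w ∈ S) (k : ℕ) : InS S (1 - C w * X ^ k) := by
  apply InS.one.sub
  intro j
  rw [coeff_C_mul, coeff_X_pow]
  split_ifs
  · simpa using hw
  · simpa using S.zero_mem

/-- Product of the factors `1 - w t^k`. -/
noncomputable def Jprod (l : List (ℕ × ℝ)) : PowerSeries ℝ := (l.map fun p => 1 - C p.2 * X ^ p.1).prod

/-- Traces of the product. -/
noncomputable def jterm (p : ℕ × ℝ) (k : ℕ) : ℝ := if k ≠ 0 ∧ p.1 ∣ k then (p.1 : ℝ) * p.2 ^ (k / p.1) else 0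

noncomputable def jsum (l : List (ℕ × ℝ)) (k : ℕ) : ℝ := (l.map fun p => jterm p k).sum

theorem Jprod_isLD (l : List (ℕ × ℝ)) (hl : ∀ p ∈ l, 1 ≤ p.1) : IsLD (Jprod l) (PowerSeries.mk (jsum l)) := by
  induction l with
  | nil =>
    have : (PowerSeries.mk (jsum []) : PowerSeries ℝ) = 0 := by
      ext k; simp [jsum]
    rw [this, Jprod]
    simpa using IsLD.one
  | cons p l ih =>
    have h1 := isLD_one_sub_monomial p.1 (hl p (by simp)) p.2
    have h2 := ih (fun p' hp' => hl p' (by simp [hp']))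
    have h3 := h1.mul h2
    have h4 : Jprod (p :: l) = (1 - C p.2 * X ^ p.1) * Jprod l := by simp [Jprod]
    rw [h4]
    convert h3 using 1
    ext k
    simp [jsum, jterm]

theorem Jprod_coeff_zero (l : List (ℕ × ℝ)) (hl : ∀ p ∈ l, 1 ≤ p.1) : coeff 0 (Jprod l) = 1 := by
  induction l with
  | nil => simp [Jprod]
  | cons p l ih =>
    have h4 : Jprod (p :: l) = (1 - C p.2 * X ^ p.1) * Jprod l := by simp [Jprod]
    rw [h4, coeff_mul, Finset.Nat.antidiagonal_zero, Finset.sum_singleton, ih (fun p' hp' => hl p' (by simp [hp']))]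
    have : p.1 ≠ 0 := by have := hl p (by simp); omega
    rw [mul_one, map_sub, coeff_C_mul, coeff_X_pow, if_neg (Ne.symm this)]
    simp

theorem Jprod_inS (S : Subring ℝ) (l : List (ℕ × ℝ)) (hl : ∀ p ∈ l, p.2 ∈ S) : InS S (Jprod l) := by
  induction l with
  | nil => simpa [Jprod] using InS.one
  | cons p l ih =>
    have h4 : Jprod (p :: l) = (1 - C p.2 * X ^ p.1) * Jprod l := by simp [Jprod]
    rw [h4]
    exact (InS.monomial p.2 (hl p (by simp)) p.1).mul (ih (fun p' hp' => hl p' (by simp [hp'])))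

theorem jterm_nonneg (p : ℕ × ℝ) (hp : 0 ≤ p.2) (k : ℕ) : 0 ≤ jterm p k := by
  rw [jterm]; split_ifs <;> positivity

theorem jsum_nonneg (l : List (ℕ × ℝ)) (hl : ∀ p ∈ l, 0 ≤ p.2) (k : ℕ) : 0 ≤ jsum l k := by
  apply List.sum_nonneg
  intro x hx
  rw [List.mem_map] at hx
  obtain ⟨p, hp, rfl⟩ := hx
  exact jterm_nonneg p (hl p hp) k

theorem wsum_le (n : ℕ) (l : List (ℕ × ℝ)) (hl : ∀ p ∈ l, 1 ≤ p.1 ∧ p.1 ≤ n ∧ 0 ≤ p.2) :
    (l.map fun p => (p.1 : ℝ) * p.2).sum ≤ ∑ k ∈ Icc 1 n, jsum l k := by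
  induction l with
  | nil => simp [jsum]
  | cons p l ih =>
    have h1 := ih (fun p' hp' => hl p' (by simp [hp']))
    obtain ⟨hp1, hp2, hp3⟩ := hl p (by simp)
    have h2 : ∀ k, jsum (p :: l) k = jterm p k + jsum l k := by intro k; simp [jsum]
    simp_rw [h2]
    rw [Finset.sum_add_distrib, List.map_cons, List.sum_cons]
    have h3 : (p.1 : ℝ) * p.2 ≤ ∑ k ∈ Icc 1 n, jterm p k := by
      have h4 : (p.1 : ℝ) * p.2 = jterm p p.1 := by
        rw [jterm, if_pos ⟨by omega, dvd_rfl⟩, Nat.div_self (by omega), pow_one]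
      rw [h4]
      exact Finset.single_le_sum (f := fun k => jterm p k) (fun k _ => jterm_nonneg p hp3 k)
        (by rw [Finset.mem_Icc]; omega)
    linarith

theorem jsum_le (n k : ℕ) (hk : n < k) (ω : ℝ) (hω0 : 0 < ω) (hω1 : ω ≤ 1) (l : List (ℕ × ℝ))
    (hl : ∀ p ∈ l, 1 ≤ p.1 ∧ p.1 ≤ n ∧ 0 ≤ p.2 ∧ p.2 ≤ ω ^ p.1) :
    jsum l k ≤ ω ^ (k - n) * (l.map fun p => (p.1 : ℝ) * p.2).sum := by
  induction l with
  | nil => simp [jsum]
  | cons p l ih =>
    have h1 := ih (fun p' hp' => hl p' (by simp [hp']))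
    obtain ⟨hp1, hp2, hp3, hp4⟩ := hl p (by simp)
    have h2 : jsum (p :: l) k = jterm p k + jsum l k := by simp [jsum]
    rw [h2, List.map_cons, List.sum_cons, mul_add]
    have h3 : jterm p k ≤ ω ^ (k - n) * ((p.1 : ℝ) * p.2) := by
      rw [jterm]
      split_ifs with h
      · obtain ⟨_, c, hc⟩ := h
        have hc2 : 2 ≤ c := by
          by_contra hcon
          have : c = 0 ∨ c = 1 := by omega
          rcases this with h | h <;> subst h <;> omega
        have hdiv : k / p.1 = c := by rw [hc]; exact Nat.mul_div_cancel_left _ (by omega)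
        rw [hdiv]
        have h5 : p.2 ^ c = p.2 * p.2 ^ (c - 1) := by rw [← pow_succ']; congr 1; omega
        have h6 : p.2 ^ (c - 1) ≤ ω ^ (k - n) := by
          calc p.2 ^ (c - 1) ≤ (ω ^ p.1) ^ (c - 1) := pow_le_pow_left₀ hp3 hp4 _
            _ = ω ^ (p.1 * (c - 1)) := by rw [← pow_mul]
            _ ≤ ω ^ (k - n) := by
                apply pow_le_pow_of_le_one hω0.le hω1
                rw [Nat.mul_sub, ← hc]
                omega
        rw [h5]
        have h7 : 0 ≤ (p.1 : ℝ) * p.2 := by positivity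
        calc (p.1 : ℝ) * (p.2 * p.2 ^ (c - 1)) = p.2 ^ (c - 1) * ((p.1 : ℝ) * p.2) := by ring
          _ ≤ ω ^ (k - n) * ((p.1 : ℝ) * p.2) := mul_le_mul_of_nonneg_right h6 h7
      · positivity
    linarith

theorem kill (S : Subring ℝ) (hS : S ≠ ⊥) (F : PowerSeries ℝ) (hFS : InS S F) (hF0 : coeff 0 F = 1)
    (τ : PowerSeries ℝ) (hτ : IsLD F τ) (hτ0 : coeff 0 τ = 0)
    (hnn : ∀ k, 0 ≤ coeff k τ)
    (hmul : ∀ k, 1 ≤ k → 0 < coeff k τ → ∀ n, 1 ≤ n → 0 < coeff (n * k) τ)
    (M : ℕ) (ω : ℝ) (hω0 : 0 < ω) (hω1 : ω ≤ 1)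
    (hω : ∀ k, k ≤ M → 0 < coeff k τ → ω * ∑ i ∈ Icc 1 M, coeff i τ < coeff k τ) :
    ∀ n, n ≤ M → ∃ l : List (ℕ × ℝ),
      (∀ p ∈ l, 1 ≤ p.1 ∧ p.1 ≤ n ∧ p.2 ∈ S ∧ 0 ≤ p.2 ∧ p.2 ≤ ω ^ p.1 ∧ 0 < coeff p.1 τ) ∧
      ∀ k, 1 ≤ k → k ≤ n → jsum l k = coeff k τ := by
  intro n
  induction n with
  | zero =>
    intro _
    exact ⟨[], by simp, fun k h1 h2 => by omega⟩
  | succ n ih =>
    intro hnM
    obtain ⟨l, hl, hlk⟩ := ih (by omega)
    have hnn' := hnn (n + 1)
    rcases eq_or_lt_of_le hnn' with h0 | hpos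
    · refine ⟨l, fun p hp => ?_, fun k h1 h2 => ?_⟩
      · obtain ⟨a1, a2, a3⟩ := hl p hp
        exact ⟨a1, by omega, a3⟩
      · by_cases hk : k ≤ n
        · exact hlk k h1 hk
        · have hk' : k = n + 1 := by omega
          subst hk'
          rw [← h0]
          apply List.sum_eq_zero
          intro y hy
          rw [List.mem_map] at hy
          obtain ⟨p, hp, rfl⟩ := hy
          rw [jterm, if_neg]
          rintro ⟨_, c, hc⟩
          obtain ⟨a1, a2, a3, a4, a5, a6⟩ := hl p hp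
          have := hmul p.1 a1 a6 c (by
            rcases Nat.eq_zero_or_pos c with h | h
            · subst h; omega
            · exact h)
          rw [mul_comm c, ← hc, ← h0] at this
          exact lt_irrefl _ this
    · -- compute the defect
      have hl1 : ∀ p ∈ l, 1 ≤ p.1 := fun p hp => (hl p hp).1
      have hJ := Jprod_isLD l hl1
      have hJ0 := Jprod_coeff_zero l hl1
      have hJc : constantCoeff (Jprod l) ≠ 0 := by
        rw [← coeff_zero_eq_constantCoeff_apply, hJ0]; exact one_ne_zero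
      have hJS := Jprod_inS S l (fun p hp => (hl p hp).2.2.1)
      set G := F * (Jprod l)⁻¹ with hG
      have hGS : InS S G := hFS.mul (hJS.inv hJ0)
      have hJG : Jprod l * G = F := by
        rw [hG, mul_comm F, ← mul_assoc, PowerSeries.mul_inv_cancel _ hJc, one_mul]
      have hJne : Jprod l ≠ 0 := by
        intro h
        rw [h] at hJ0
        simp at hJ0
      have hGLD : IsLD G (τ - PowerSeries.mk (jsum l)) := by
        apply hJ.cancel _ hJne
        rw [hJG]; exact hτ
      have hG0 : coeff 0 G = 1 := by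
        have h1 := congrArg (coeff 0) hJG
        rw [coeff_mul, Finset.Nat.antidiagonal_zero, Finset.sum_singleton, hJ0, one_mul, hF0] at h1
        exact h1
      have hj0 : jsum l 0 = 0 := by
        apply List.sum_eq_zero
        intro y hy
        rw [List.mem_map] at hy
        obtain ⟨p, hp, rfl⟩ := hy
        rw [jterm, if_neg (by simp)]
      have hl0 : coeff 0 (τ - PowerSeries.mk (jsum l)) = 0 := by
        rw [map_sub, coeff_mk, hτ0, hj0, sub_zero]
      have hGn : (((n + 1 : ℕ)) : ℝ) * coeff (n + 1) G = -(coeff (n + 1) τ - jsum l (n + 1)) := by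
        rw [hGLD.coeff_range hl0 (n + 1), Finset.sum_range_succ', Finset.sum_eq_zero]
        · rw [hG0, map_sub, coeff_mk, Nat.sub_zero]; ring
        · intro j hj
          rw [Finset.mem_range] at hj
          rw [map_sub, coeff_mk, hlk (n + 1 - (j + 1)) (by omega) (by omega), sub_self, zero_mul]
      set e := - coeff (n + 1) G with he
      have heS : e ∈ S := S.neg_mem (hGS _)
      have hn1 : (0 : ℝ) < ((n + 1 : ℕ) : ℝ) := by positivity
      have he1 : ((n + 1 : ℕ) : ℝ) * e = coeff (n + 1) τ - jsum l (n + 1) := by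
        rw [he]; linarith
      have hepos : 0 < e := by
        have h1 := jsum_le n (n + 1) (by omega) ω hω0 hω1 l
          (fun p hp => ⟨(hl p hp).1, (hl p hp).2.1, (hl p hp).2.2.2.1, (hl p hp).2.2.2.2.1⟩)
        have h2 := wsum_le n l (fun p hp => ⟨(hl p hp).1, (hl p hp).2.1, (hl p hp).2.2.2.1⟩)
        have h3 : ∑ k ∈ Icc 1 n, jsum l k = ∑ k ∈ Icc 1 n, coeff k τ := by
          apply Finset.sum_congr rfl
          intro k hk
          rw [Finset.mem_Icc] at hk
          exact hlk k hk.1 hk.2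
        have h4 : ∑ k ∈ Icc 1 n, coeff k τ ≤ ∑ k ∈ Icc 1 M, coeff k τ := by
          apply Finset.sum_le_sum_of_subset_of_nonneg
          · apply Finset.Icc_subset_Icc le_rfl (by omega)
          · intro k _ _; exact hnn k
        rw [show n + 1 - n = 1 by omega, pow_one] at h1
        have h5 := hω (n + 1) hnM hpos
        have h6 : ω * (l.map fun p => (p.1 : ℝ) * p.2).sum ≤ ω * ∑ k ∈ Icc 1 M, coeff k τ := by
          apply mul_le_mul_of_nonneg_left _ hω0.le
          linarith
        have h7 : 0 < ((n + 1 : ℕ) : ℝ) * e := by rw [he1]; linarith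
        exact (mul_pos_iff_of_pos_left hn1).mp h7
      obtain ⟨w, hwS, hw0, hw1⟩ := subring_between S hS 0 (ω ^ (n + 1)) (by positivity)
      set a := ⌊e / w⌋₊ with ha
      set w' := e - a * w with hw'
      have hw'0 : 0 ≤ w' := by
        have := Nat.floor_le (show 0 ≤ e / w by positivity)
        rw [← ha, le_div_iff₀ hw0] at this
        linarith
      have hw'1 : w' < w := by
        have := Nat.lt_floor_add_one (e / w)
        rw [← ha, div_lt_iff₀ hw0] at this
        linarith
      have hw'S : w' ∈ S := by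
        apply S.sub_mem heS
        apply S.mul_mem _ hwS
        exact natCast_mem S a
      refine ⟨List.replicate a (n + 1, w) ++ (n + 1, w') :: l, ?_, ?_⟩
      · intro p hp
        rw [List.mem_append, List.mem_cons] at hp
        rcases hp with hp | hp | hp
        · have := List.eq_of_mem_replicate hp
          subst this
          exact ⟨by simp, le_rfl, hwS, hw0.le, hw1.le, hpos⟩
        · subst hp
          exact ⟨by simp, le_rfl, hw'S, hw'0, (hw'1.trans hw1).le, hpos⟩
        · obtain ⟨a1, a2, a3⟩ := hl p hp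
          exact ⟨a1, by omega, a3⟩
      · intro k hk1 hk2
        have h1 : jsum (List.replicate a (n + 1, w) ++ (n + 1, w') :: l) k =
            a * jterm (n + 1, w) k + (jterm (n + 1, w') k + jsum l k) := by
          simp [jsum, List.map_append, List.sum_append, List.map_replicate, List.sum_replicate]
        rw [h1]
        by_cases hk : k ≤ n
        · have h2 : ∀ v : ℝ, jterm (n + 1, v) k = 0 := by
            intro v
            rw [jterm, if_neg]
            rintro ⟨h3, h4⟩
            have := Nat.le_of_dvd (by omega) h4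
            simp only at this
            omega
          rw [h2, h2, hlk k hk1 hk]
          ring
        · have hk' : k = n + 1 := by omega
          subst hk'
          have h2 : ∀ v : ℝ, jterm (n + 1, v) (n + 1) = ((n + 1 : ℕ) : ℝ) * v := by
            intro v
            rw [jterm, if_pos ⟨by omega, dvd_rfl⟩]
            simp only
            rw [Nat.div_self (by omega), pow_one]
          rw [h2, h2]
          have h3 : (a : ℝ) * (((n + 1 : ℕ) : ℝ) * w) + (((n + 1 : ℕ) : ℝ) * w' + jsum l (n + 1)) =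
              ((n + 1 : ℕ) : ℝ) * e + jsum l (n + 1) := by rw [hw']; ring
          rw [h3, he1]
          ring

end Pool.Agent.Helper605
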