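import Mathlib

set_option autoImplicit false

namespace Pool.Agent.Helper605

open Finset Filter Topology

/-- A renewal sequence with increments in `[M+1, 2M+1]`. -/
structure Renew (M : ℕ) (δ : ℝ) (p u : ℕ → ℝ) : Prop where
  hM : 1 ≤ M
  δpos : 0 < δ
  pge : ∀ j, M + 1 ≤ j → j ≤ 2 * M + 1 → δ ≤ p j
  psum : ∑ j ∈ Icc (M + 1) (2 * M + 1), p j = 1
  u0 : u 0 = 1
  urec : ∀ k, 1 ≤ k → u k = ∑ j ∈ Icc (M + 1) (2 * M + 1), if j ≤ k then p j * u (k - j) else 0

variable {M : ℕ} {δ : ℝ} {p u : ℕ → ℝ}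

theorem Renew.ppos (h : Renew M δ p u) {j : ℕ} (hj : j ∈ Icc (M + 1) (2 * M + 1)) : 0 < p j := by
  rw [Finset.mem_Icc] at hj
  exact lt_of_lt_of_le h.δpos (h.pge j hj.1 hj.2)

theorem Renew.nonneg (h : Renew M δ p u) (k : ℕ) : 0 ≤ u k := by
  induction k using Nat.strong_induction_on with
  | _ k ih =>
    by_cases hk : k = 0
    · subst hk; rw [h.u0]; norm_num
    · rw [h.urec k (by omega)]
      apply Finset.sum_nonneg
      intro j hj
      have hj' := Finset.mem_Icc.mp hj
      split_ifs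
      · exact mul_nonneg (h.ppos hj).le (ih _ (by omega))
      · exact le_rfl

theorem Renew.le_one (h : Renew M δ p u) (k : ℕ) : u k ≤ 1 := by
  induction k using Nat.strong_induction_on with
  | _ k ih =>
    by_cases hk : k = 0
    · subst hk; rw [h.u0]
    · rw [h.urec k (by omega), ← h.psum]
      apply Finset.sum_le_sum
      intro j hj
      have hj' := Finset.mem_Icc.mp hj
      split_ifs
      · calc p j * u (k - j) ≤ p j * 1 := mul_le_mul_of_nonneg_left (ih _ (by omega)) (h.ppos hj).le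
          _ = p j := mul_one _
      · exact (h.ppos hj).le

theorem Renew.single_le (h : Renew M δ p u) (k j : ℕ) (hj : j ∈ Icc (M + 1) (2 * M + 1)) (hjk : j ≤ k) :
    p j * u (k - j) ≤ u k := by
  have hj' := Finset.mem_Icc.mp hj
  rw [h.urec k (by omega)]
  have h1 : p j * u (k - j) = if j ≤ k then p j * u (k - j) else 0 := by rw [if_pos hjk]
  rw [h1]
  apply Finset.single_le_sum (f := fun j => if j ≤ k then p j * u (k - j) else 0) _ hj
  intro i hi
  split_ifs
  · exact mul_nonneg (h.ppos hi).le (h.nonneg _)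
  · exact le_rfl

theorem Renew.δ_le_one (h : Renew M δ p u) : δ ≤ 1 := by
  have h1 : M + 1 ∈ Icc (M + 1) (2 * M + 1) := by rw [Finset.mem_Icc]; omega
  have h2 := h.pge (M + 1) le_rfl (by omega)
  have h3 : p (M + 1) ≤ 1 := by
    rw [← h.psum]
    exact Finset.single_le_sum (fun i hi => (h.ppos hi).le) h1
  linarith

theorem Renew.full (h : Renew M δ p u) (k : ℕ) (hk : 2 * M + 1 ≤ k) :
    u k = ∑ j ∈ Icc (M + 1) (2 * M + 1), p j * u (k - j) := by
  rw [h.urec k (by omega)]
  apply Finset.sum_congr rfl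
  intro j hj
  have hj' := Finset.mem_Icc.mp hj
  rw [if_pos (by omega)]

theorem Renew.lower (h : Renew M δ p u) (k : ℕ) (hk : M + 1 ≤ k) : δ ^ 2 ≤ u k := by
  have hδ1 := h.δ_le_one
  have hδ := h.δpos
  induction k using Nat.strong_induction_on with
  | _ k ih =>
    have h1 : ∀ k, M + 1 ≤ k → k ≤ 2 * M + 1 → δ ≤ u k := by
      intro k hk1 hk2
      have h2 := h.single_le k k (by rw [Finset.mem_Icc]; omega) le_rfl
      rw [Nat.sub_self, h.u0, mul_one] at h2
      exact (h.pge k hk1 hk2).trans h2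
    by_cases hk2 : k ≤ 2 * M + 1
    · have := h1 k hk hk2
      nlinarith
    · by_cases hk3 : k ≤ 3 * M + 1
      · have h2 := h.single_le k (M + 1) (by rw [Finset.mem_Icc]; omega) (by omega)
        have h3 := h1 (k - (M + 1)) (by omega) (by omega)
        have h4 := h.pge (M + 1) le_rfl (by omega)
        nlinarith
      · rw [h.full k (by omega)]
        calc δ ^ 2 = ∑ j ∈ Icc (M + 1) (2 * M + 1), p j * δ ^ 2 := by
              rw [← Finset.sum_mul, h.psum, one_mul]
          _ ≤ ∑ j ∈ Icc (M + 1) (2 * M + 1), p j * u (k - j) := by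
              apply Finset.sum_le_sum
              intro j hj
              have hj' := Finset.mem_Icc.mp hj
              exact mul_le_mul_of_nonneg_left (ih (k - j) (by omega) (by omega)) (h.ppos hj).le

theorem Renew.tendsto (h : Renew M δ p u) : ∃ l : ℝ, δ ^ 2 ≤ l ∧ Tendsto u atTop (𝓝 l) := by
  have hδ1 := h.δ_le_one
  have hδ := h.δpos
  have hbelow : ∀ k, BddBelow (Set.range fun i => u (k + i)) := by
    intro k
    refine ⟨0, ?_⟩
    rintro _ ⟨i, rfl⟩
    exact h.nonneg _
  have habove : ∀ k, BddAbove (Set.range fun i => u (k + i)) := by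
    intro k
    refine ⟨1, ?_⟩
    rintro _ ⟨i, rfl⟩
    exact h.le_one _
  set a : ℕ → ℝ := fun k => ⨅ i, u (k + i) with ha
  set b : ℕ → ℝ := fun k => ⨆ i, u (k + i) with hb
  have hau : ∀ k n, k ≤ n → a k ≤ u n := by
    intro k n hkn
    have := ciInf_le (hbelow k) (n - k)
    rwa [show k + (n - k) = n by omega] at this
  have hub : ∀ k n, k ≤ n → u n ≤ b k := by
    intro k n hkn
    have := le_ciSup (habove k) (n - k)
    rwa [show k + (n - k) = n by omega] at this
  have hamono : Monotone a := by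
    intro k l hkl
    apply le_ciInf
    intro i
    exact hau k (l + i) (by omega)
  have hbanti : Antitone b := by
    intro k l hkl
    apply ciSup_le
    intro i
    exact hub k (l + i) (by omega)
  have ha1 : ∀ k, a k ≤ 1 := fun k => (hau k k le_rfl).trans (h.le_one k)
  have hb0 : ∀ k, 0 ≤ b k := fun k => (h.nonneg k).trans (hub k k le_rfl)
  obtain ⟨A, hA⟩ : ∃ A, Tendsto a atTop (𝓝 A) :=
    ⟨_, tendsto_atTop_ciSup hamono ⟨1, by rintro _ ⟨k, rfl⟩; exact ha1 k⟩⟩
  obtain ⟨B, hB⟩ : ∃ B, Tendsto b atTop (𝓝 B) :=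
    ⟨_, tendsto_atTop_ciInf hbanti ⟨0, by rintro _ ⟨k, rfl⟩; exact hb0 k⟩⟩
  have hBb : ∀ k, B ≤ b k := fun k => hbanti.le_of_tendsto hB k
  -- the maximum over a window dominates the tail
  have hwin : ∀ k, ∃ i, k ≤ i ∧ i ≤ k + 2 * M ∧ b k ≤ u i := by
    intro k
    obtain ⟨i, hi, hmax⟩ := Finset.exists_max_image (Icc k (k + 2 * M)) u ⟨k, by rw [Finset.mem_Icc]; omega⟩
    rw [Finset.mem_Icc] at hi
    refine ⟨i, hi.1, hi.2, ?_⟩
    apply ciSup_le
    intro n
    have : ∀ n, k ≤ n → u n ≤ u i := by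
      intro n
      induction n using Nat.strong_induction_on with
      | _ n ih =>
        intro hn
        by_cases hn2 : n ≤ k + 2 * M
        · exact hmax n (by rw [Finset.mem_Icc]; omega)
        · rw [h.full n (by omega)]
          calc ∑ j ∈ Icc (M + 1) (2 * M + 1), p j * u (n - j)
              ≤ ∑ j ∈ Icc (M + 1) (2 * M + 1), p j * u i := by
                apply Finset.sum_le_sum
                intro j hj
                have hj' := Finset.mem_Icc.mp hj
                exact mul_le_mul_of_nonneg_left (ih (n - j) (by omega) (by omega)) (h.ppos hj).le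
            _ = u i := by rw [← Finset.sum_mul, h.psum, one_mul]
    exact this (k + n) (by omega)
  have hkey : ∀ k, δ ^ 2 * B + (1 - δ ^ 2) * a k ≤ a (k + (4 * M + 2)) := by
    intro k
    apply le_ciInf
    intro t
    set n := k + (4 * M + 2) + t with hn
    obtain ⟨i, hi1, hi2, hi3⟩ := hwin (n - (4 * M + 2))
    have hBi : B ≤ u i := (hBb _).trans hi3
    -- choose j0 and l0
    obtain ⟨j0, l0, hj0, hl0, hsum⟩ : ∃ j0 l0, j0 ∈ Icc (M + 1) (2 * M + 1) ∧ l0 ∈ Icc (M + 1) (2 * M + 1) ∧
        j0 + l0 = n - i := by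
      by_cases hc : n - i ≤ 3 * M + 2
      · refine ⟨n - i - (M + 1), M + 1, ?_, ?_, ?_⟩
        · rw [Finset.mem_Icc]; omega
        · rw [Finset.mem_Icc]; omega
        · omega
      · refine ⟨2 * M + 1, n - i - (2 * M + 1), ?_, ?_, ?_⟩
        · rw [Finset.mem_Icc]; omega
        · rw [Finset.mem_Icc]; omega
        · omega
    have hj0' := Finset.mem_Icc.mp hj0
    have hl0' := Finset.mem_Icc.mp hl0
    have hstep : ∀ n' j, j ∈ Icc (M + 1) (2 * M + 1) → k + (2 * M + 1) ≤ n' →
        p j * (u (n' - j) - a k) ≤ u n' - a k := by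
      intro n' j hj hn'
      rw [h.full n' (by omega)]
      have h1 : ∑ j ∈ Icc (M + 1) (2 * M + 1), p j * u (n' - j) - a k =
          ∑ j ∈ Icc (M + 1) (2 * M + 1), p j * (u (n' - j) - a k) := by
        simp_rw [mul_sub]
        rw [Finset.sum_sub_distrib, ← Finset.sum_mul, h.psum, one_mul]
      rw [h1]
      apply Finset.single_le_sum (f := fun j => p j * (u (n' - j) - a k)) _ hj
      intro j' hj'
      have hj'' := Finset.mem_Icc.mp hj'
      have := hau k (n' - j') (by omega)
      exact mul_nonneg (h.ppos hj').le (by linarith)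
    have h1 := hstep n j0 hj0 (by omega)
    have h2 := hstep (n - j0) l0 hl0 (by omega)
    rw [show n - j0 - l0 = i by omega] at h2
    have h3 : 0 ≤ u i - a k := by
      have := hau k i (by omega)
      linarith
    have hp1 := h.pge j0 hj0'.1 hj0'.2
    have hp2 := h.pge l0 hl0'.1 hl0'.2
    have h4 : δ * (u i - a k) ≤ u (n - j0) - a k :=
      (mul_le_mul_of_nonneg_right hp2 h3).trans h2
    have h5 : δ * (δ * (u i - a k)) ≤ u n - a k := by
      calc δ * (δ * (u i - a k)) ≤ δ * (u (n - j0) - a k) := mul_le_mul_of_nonneg_left h4 hδ.le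
        _ ≤ p j0 * (u (n - j0) - a k) := by
            apply mul_le_mul_of_nonneg_right hp1
            have : 0 ≤ δ * (u i - a k) := mul_nonneg hδ.le h3
            linarith
        _ ≤ u n - a k := h1
    have h6 : δ ^ 2 * B ≤ δ ^ 2 * u i := mul_le_mul_of_nonneg_left hBi (by positivity)
    have h7 : u (k + (4 * M + 2) + t) = u n := rfl
    nlinarith
  have hlim : δ ^ 2 * B + (1 - δ ^ 2) * A ≤ A := by
    have t1 : Tendsto (fun k => δ ^ 2 * B + (1 - δ ^ 2) * a k) atTop (𝓝 (δ ^ 2 * B + (1 - δ ^ 2) * A)) :=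
      tendsto_const_nhds.add (tendsto_const_nhds.mul hA)
    have t2 : Tendsto (fun k => a (k + (4 * M + 2))) atTop (𝓝 A) :=
      hA.comp (tendsto_add_atTop_nat (4 * M + 2))
    exact le_of_tendsto_of_tendsto' t1 t2 hkey
  have hBA : B ≤ A := by
    have hδ2 : 0 < δ ^ 2 := by positivity
    have : δ ^ 2 * B ≤ δ ^ 2 * A := by linarith
    exact le_of_mul_le_mul_left this hδ2
  have hAB : A ≤ B := le_of_tendsto_of_tendsto' hA hB fun k => (hau k k le_rfl).trans (hub k k le_rfl)
  have hABeq : A = B := le_antisymm hAB hBA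
  refine ⟨A, ?_, ?_⟩
  · apply ge_of_tendsto hA
    filter_upwards [eventually_ge_atTop (M + 1)] with k hk
    apply le_ciInf
    intro i
    exact h.lower (k + i) (by omega)
  · refine tendsto_of_tendsto_of_tendsto_of_le_of_le hA (hABeq ▸ hB) ?_ ?_
    · intro k; exact hau k k le_rfl
    · intro k; exact hub k k le_rfl

/-- Convolution of a finitely supported sequence with a negative mass against a renewal sequence. -/
theorem Renew.eventually_neg (h : Renew M δ p u) (g : ℕ → ℝ) (d : ℕ) (hg : ∑ j ∈ range d, g j < 0) :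
    ∃ R : ℝ, 0 < R ∧ ∀ᶠ k in atTop, ∑ j ∈ range d, g j * u (k - j) ≤ -R := by
  obtain ⟨l, hl, hlt⟩ := h.tendsto
  have hl0 : 0 < l := lt_of_lt_of_le (by have := h.δpos; positivity) hl
  have ht : Tendsto (fun k => ∑ j ∈ range d, g j * u (k - j)) atTop (𝓝 (∑ j ∈ range d, g j * l)) := by
    apply tendsto_finsetSum
    intro j _
    apply tendsto_const_nhds.mul
    exact hlt.comp (tendsto_sub_atTop_nat j)
  rw [← Finset.sum_mul] at ht
  have hneg : (∑ j ∈ range d, g j) * l < 0 := mul_neg_of_neg_of_pos hg hl0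
  refine ⟨-((∑ j ∈ range d, g j) * l) / 2, by linarith, ?_⟩
  have := ht.eventually (gt_mem_nhds (show (∑ j ∈ range d, g j) * l < (∑ j ∈ range d, g j) * l / 2 by linarith))
  filter_upwards [this] with k hk
  linarith

end Pool.Agent.Helper605
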