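import Mathlib
import Pool.Agent.Helper605.LD

set_option autoImplicit false

namespace Pool.Agent.Helper605

open PowerSeries Finset

/-- coefficients of `exp (sum_{j ≤ M} t^j / j)` -/
noncomputable def hh (M : ℕ) : ℕ → ℝ := ldSol (fun j => if 1 ≤ j ∧ j ≤ M then (-1 : ℝ) else 0)

theorem hh_zero (M : ℕ) : hh M 0 = 1 := by
  rw [hh, ldSol]

theorem hh_rec (M k : ℕ) : (k : ℝ) * hh M k = ∑ j ∈ Ico (k - M) k, hh M j := by
  rcases k with _ | k
  · simp
  · rw [hh, ldSol_succ]
    have h1 : ∑ j ∈ range (k + 1), (if 1 ≤ k + 1 - j ∧ k + 1 - j ≤ M then (-1 : ℝ) else 0) *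
        ldSol (fun j => if 1 ≤ j ∧ j ≤ M then (-1 : ℝ) else 0) j =
        - ∑ j ∈ Ico (k + 1 - M) (k + 1), ldSol (fun j => if 1 ≤ j ∧ j ≤ M then (-1 : ℝ) else 0) j := by
      rw [← Finset.sum_neg_distrib]
      symm
      apply Finset.sum_subset_zero_on_sdiff
      · intro j hj
        rw [Finset.mem_Ico] at hj
        rw [Finset.mem_range]
        omega
      · intro j hj
        rw [Finset.mem_sdiff, Finset.mem_range, Finset.mem_Ico] at hj
        rw [if_neg (by omega), zero_mul]
      · intro j hj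
        rw [Finset.mem_Ico] at hj
        rw [if_pos (by omega)]
        ring
    rw [h1]
    have h2 : ((k : ℝ) + 1) ≠ 0 := by positivity
    push_cast
    field_simp

theorem hh_one (M k : ℕ) (hk : k ≤ M) : hh M k = 1 := by
  induction k using Nat.strong_induction_on with
  | _ k ih =>
    rcases k with _ | k
    · exact hh_zero M
    · have h1 := hh_rec M (k + 1)
      rw [show k + 1 - M = 0 by omega] at h1
      have h2 : ∑ j ∈ Ico 0 (k + 1), hh M j = ((k + 1 : ℕ) : ℝ) := by
        rw [Finset.sum_congr rfl (g := fun _ => (1 : ℝ))]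
        · simp
        · intro j hj
          rw [Finset.mem_Ico] at hj
          exact ih j (by omega) (by omega)
      rw [h2] at h1
      have h3 : ((k + 1 : ℕ) : ℝ) ≠ 0 := by positivity
      have h4 : ((k + 1 : ℕ) : ℝ) * hh M (k + 1) = ((k + 1 : ℕ) : ℝ) * 1 := by rw [h1, mul_one]
      exact mul_left_cancel₀ h3 h4

theorem hh_pos (M : ℕ) (hM : 1 ≤ M) (k : ℕ) : 0 < hh M k := by
  induction k using Nat.strong_induction_on with
  | _ k ih =>
    rcases k with _ | k
    · rw [hh_zero]; norm_num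
    · have h1 := hh_rec M (k + 1)
      have h2 : 0 < ∑ j ∈ Ico (k + 1 - M) (k + 1), hh M j := by
        apply Finset.sum_pos
        · intro j hj
          rw [Finset.mem_Ico] at hj
          exact ih j (by omega)
        · exact ⟨k, by rw [Finset.mem_Ico]; omega⟩
      rw [← h1] at h2
      have h3 : (0 : ℝ) < ((k + 1 : ℕ) : ℝ) := by positivity
      exact (mul_pos_iff_of_pos_left h3).mp h2

theorem hh_diff (M k : ℕ) (hM : 1 ≤ M) (hk : M ≤ k) :
    ((k : ℝ) + 1) * (hh M k - hh M (k + 1)) = hh M (k - M) := by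
  have h1 := hh_rec M (k + 1)
  have h2 := hh_rec M k
  have h3 : ∑ j ∈ Ico (k - M) (k + 1), hh M j = ∑ j ∈ Ico (k - M) k, hh M j + hh M k :=
    Finset.sum_Ico_succ_top (by omega) _
  have h4 : ∑ j ∈ Ico (k - M) (k + 1), hh M j = hh M (k - M) + ∑ j ∈ Ico (k + 1 - M) (k + 1), hh M j := by
    rw [Finset.sum_eq_sum_Ico_succ_bot (by omega : k - M < k + 1)]
    rw [show k - M + 1 = k + 1 - M by omega]
  push_cast at h1
  linarith

theorem hh_antitone (M : ℕ) (hM : 1 ≤ M) (k : ℕ) : hh M (k + 1) ≤ hh M k := by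
  by_cases hk : M ≤ k
  · have h1 := hh_diff M k hM hk
    have h2 := hh_pos M hM (k - M)
    have h3 : (0 : ℝ) < (k : ℝ) + 1 := by positivity
    rw [← h1] at h2
    have := (mul_pos_iff_of_pos_left h3).mp h2
    linarith
  · rw [hh_one M k (by omega), hh_one M (k + 1) (by omega)]

theorem hh_le_one (M : ℕ) (hM : 1 ≤ M) (k : ℕ) : hh M k ≤ 1 := by
  induction k with
  | zero => rw [hh_zero]
  | succ k ih => exact (hh_antitone M hM k).trans ih

theorem hh_sum_bound (M : ℕ) (hM : 1 ≤ M) (x : ℝ) (hx : 1 ≤ x) (hx8 : x ^ M ≤ 8) (K : ℕ) :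
    ∑ k ∈ range K, hh M k * x ^ k ≤ 2 * (16 * M + 1) * 8 ^ 16 := by
  have hx0 : 0 < x := by linarith
  set v : ℕ → ℝ := fun k => hh M k * x ^ k with hv
  have hvpos : ∀ k, 0 ≤ v k := fun k => mul_nonneg (hh_pos M hM k).le (by positivity)
  have hvx : ∀ k, v k ≤ x ^ k := by
    intro k
    have h1 := hh_le_one M hM k
    have h2 : 0 ≤ x ^ k := by positivity
    calc v k = hh M k * x ^ k := rfl
      _ ≤ 1 * x ^ k := mul_le_mul_of_nonneg_right h1 h2
      _ = x ^ k := one_mul _
  -- initial segment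
  have hinit : ∀ K' ≤ 16 * M + 1, ∑ k ∈ range K', v k ≤ (16 * M + 1) * 8 ^ 16 := by
    intro K' hK'
    have h1 : ∀ k ∈ range K', v k ≤ 8 ^ 16 := by
      intro k hk
      rw [Finset.mem_range] at hk
      calc v k ≤ x ^ k := hvx k
        _ ≤ x ^ (16 * M) := pow_le_pow_right₀ hx (by omega)
        _ = (x ^ M) ^ 16 := by rw [← pow_mul, mul_comm]
        _ ≤ 8 ^ 16 := pow_le_pow_left₀ (by positivity) hx8 16
    calc ∑ k ∈ range K', v k ≤ ∑ k ∈ range K', (8 : ℝ) ^ 16 := Finset.sum_le_sum h1
      _ = K' * 8 ^ 16 := by rw [Finset.sum_const, Finset.card_range, nsmul_eq_mul]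
      _ ≤ (16 * M + 1) * 8 ^ 16 := by
          apply mul_le_mul_of_nonneg_right _ (by positivity)
          exact_mod_cast hK'
  by_cases hK : K ≤ 16 * M + 1
  · have := hinit K hK
    have h2 : (0 : ℝ) ≤ (16 * M + 1) * 8 ^ 16 := by positivity
    calc ∑ k ∈ range K, v k ≤ (16 * M + 1) * 8 ^ 16 := this
      _ ≤ 2 * (16 * M + 1) * 8 ^ 16 := by nlinarith
  · push Not at hK
    -- weighted sum
    have hkv : ∀ k : ℕ, (k : ℝ) * v k ≤ 8 * ∑ j ∈ Ico (k - M) k, v j := by
      intro k
      have h1 : (k : ℝ) * v k = ∑ j ∈ Ico (k - M) k, hh M j * x ^ k := by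
        rw [hv, ← Finset.sum_mul, ← hh_rec M k]; ring
      rw [h1, Finset.mul_sum]
      apply Finset.sum_le_sum
      intro j hj
      rw [Finset.mem_Ico] at hj
      have h2 : x ^ k = x ^ (k - j) * x ^ j := by rw [← pow_add]; congr 1; omega
      have h3 : x ^ (k - j) ≤ 8 := (pow_le_pow_right₀ hx (by omega)).trans hx8
      rw [h2, hv]
      have h4 : 0 ≤ hh M j * x ^ j := hvpos j
      calc hh M j * (x ^ (k - j) * x ^ j) = x ^ (k - j) * (hh M j * x ^ j) := by ring
        _ ≤ 8 * (hh M j * x ^ j) := mul_le_mul_of_nonneg_right h3 h4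
    have hsum1 : ∑ k ∈ range K, (k : ℝ) * v k ≤ 8 * (M * ∑ j ∈ range K, v j) := by
      calc ∑ k ∈ range K, (k : ℝ) * v k ≤ ∑ k ∈ range K, 8 * ∑ j ∈ Ico (k - M) k, v j :=
            Finset.sum_le_sum fun k _ => hkv k
        _ = 8 * ∑ k ∈ range K, ∑ j ∈ Ico (k - M) k, v j := by rw [Finset.mul_sum]
        _ = 8 * ∑ k ∈ range K, ∑ j ∈ range K, if k - M ≤ j ∧ j < k then v j else 0 := by
            congr 1
            apply Finset.sum_congr rfl
            intro k hk
            rw [Finset.mem_range] at hk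
            rw [← Finset.sum_filter]
            apply Finset.sum_congr _ (fun _ _ => rfl)
            ext j
            rw [Finset.mem_Ico, Finset.mem_filter, Finset.mem_range]
            omega
        _ = 8 * ∑ j ∈ range K, ∑ k ∈ range K, if k - M ≤ j ∧ j < k then v j else 0 := by
            rw [Finset.sum_comm]
        _ ≤ 8 * ∑ j ∈ range K, M * v j := by
            apply mul_le_mul_of_nonneg_left _ (by norm_num)
            apply Finset.sum_le_sum
            intro j _
            rw [← Finset.sum_filter, Finset.sum_const, nsmul_eq_mul]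
            apply mul_le_mul_of_nonneg_right _ (hvpos j)
            have : ((range K).filter fun k => k - M ≤ j ∧ j < k) ⊆ Ioc j (j + M) := by
              intro k hk
              rw [Finset.mem_filter] at hk
              rw [Finset.mem_Ioc]
              omega
            have h5 := Finset.card_le_card this
            rw [Nat.card_Ioc] at h5
            have h6 : j + M - j = M := by omega
            rw [h6] at h5
            exact_mod_cast h5
        _ = 8 * (M * ∑ j ∈ range K, v j) := by rw [← Finset.mul_sum]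
    have hsum2 : (16 * M : ℝ) * (∑ k ∈ range K, v k - ∑ k ∈ range (16 * M + 1), v k) ≤
        ∑ k ∈ range K, (k : ℝ) * v k := by
      have h1 : ∑ k ∈ range K, v k - ∑ k ∈ range (16 * M + 1), v k = ∑ k ∈ Ico (16 * M + 1) K, v k := by
        rw [Finset.sum_Ico_eq_sub _ hK.le]
      rw [h1, Finset.mul_sum]
      calc ∑ k ∈ Ico (16 * M + 1) K, (16 * M : ℝ) * v k ≤ ∑ k ∈ Ico (16 * M + 1) K, (k : ℝ) * v k := by
            apply Finset.sum_le_sum
            intro k hk
            rw [Finset.mem_Ico] at hk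
            apply mul_le_mul_of_nonneg_right _ (hvpos k)
            have : 16 * M ≤ k := by omega
            exact_mod_cast this
        _ ≤ ∑ k ∈ range K, (k : ℝ) * v k := by
            apply Finset.sum_le_sum_of_subset_of_nonneg
            · intro k hk
              rw [Finset.mem_Ico] at hk
              rw [Finset.mem_range]
              omega
            · intro k _ _
              exact mul_nonneg (by positivity) (hvpos k)
    have h3 := hinit (16 * M + 1) le_rfl
    have hMpos : (0 : ℝ) < M := by exact_mod_cast hM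
    have h4 : (16 * M : ℝ) * (∑ k ∈ range K, v k - ∑ k ∈ range (16 * M + 1), v k) ≤
        8 * (M * ∑ j ∈ range K, v j) := hsum2.trans hsum1
    have h5 : ∑ k ∈ range K, v k ≤ 2 * ∑ k ∈ range (16 * M + 1), v k := by
      have h6 : M * (∑ k ∈ range K, v k) ≤ M * (2 * ∑ k ∈ range (16 * M + 1), v k) := by nlinarith
      exact le_of_mul_le_mul_left h6 hMpos
    calc ∑ k ∈ range K, v k ≤ 2 * ∑ k ∈ range (16 * M + 1), v k := h5
      _ ≤ 2 * ((16 * M + 1) * 8 ^ 16) := by linarith
      _ = 2 * (16 * M + 1) * 8 ^ 16 := by ring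

/-- the ideal series -/
noncomputable def Fst (M : ℕ) : PowerSeries ℝ := (1 - X) * PowerSeries.mk (hh M)

theorem Fst_coeff_zero (M : ℕ) : coeff 0 (Fst M) = 1 := by
  rw [Fst, sub_mul, one_mul, map_sub, coeff_mk, hh_zero, coeff_zero_X_mul, sub_zero]

theorem Fst_coeff_succ (M k : ℕ) : coeff (k + 1) (Fst M) = hh M (k + 1) - hh M k := by
  rw [Fst, sub_mul, one_mul, map_sub, coeff_mk, coeff_succ_X_mul, coeff_mk]

theorem Fst_isLD (M : ℕ) : IsLD (Fst M) (PowerSeries.mk fun j => if M < j then (1 : ℝ) else 0) := by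
  have h1 : IsLD (PowerSeries.mk (hh M)) (PowerSeries.mk (fun j => if 1 ≤ j ∧ j ≤ M then (-1 : ℝ) else 0)) := by
    apply isLD_of_coeff_range
    · rw [coeff_mk]; simp
    · intro k
      rcases k with _ | k
      · simp
      · simp only [coeff_mk]
        rw [hh, ldSol_succ]
        have h2 : ((k : ℝ) + 1) ≠ 0 := by positivity
        push_cast
        field_simp
  have h2 := isLD_one_sub_monomial 1 le_rfl (1 : ℝ)
  have h3 : (1 - C (1 : ℝ) * X ^ 1 : PowerSeries ℝ) = 1 - X := by simp
  rw [h3] at h2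
  have h4 := h2.mul h1
  rw [Fst]
  convert h4 using 1
  ext j
  rw [map_add, coeff_mk, coeff_mk, coeff_mk]
  by_cases hj : j = 0
  · subst hj; simp
  · by_cases hjM : j ≤ M
    · rw [if_neg (by omega), if_pos ⟨hj, one_dvd j⟩, if_pos (by omega)]
      simp
    · rw [if_pos (by omega), if_pos ⟨hj, one_dvd j⟩, if_neg (by omega)]
      simp

theorem Fst_sum_bound (M : ℕ) (hM : 1 ≤ M) (x : ℝ) (hx : 1 ≤ x) (hx2 : x ≤ 2) (hx8 : x ^ M ≤ 8) (K : ℕ) :
    ∑ k ∈ range K, |coeff k (Fst M)| * x ^ k ≤ 6 * (16 * M + 1) * 8 ^ 16 := by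
  have hb := hh_sum_bound M hM x hx hx8
  have hx0 : 0 < x := by linarith
  rcases K with _ | K
  · simp; positivity
  · rw [Finset.sum_range_succ', Fst_coeff_zero]
    have h1 : ∀ k ∈ range K, |coeff (k + 1) (Fst M)| * x ^ (k + 1) ≤
        hh M (k + 1) * x ^ (k + 1) + x * (hh M k * x ^ k) := by
      intro k _
      rw [Fst_coeff_succ]
      have h2 := hh_pos M hM k
      have h3 := hh_pos M hM (k + 1)
      have h4 : |hh M (k + 1) - hh M k| ≤ hh M (k + 1) + hh M k := by
        rw [abs_le]; constructor <;> linarith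
      calc |hh M (k + 1) - hh M k| * x ^ (k + 1) ≤ (hh M (k + 1) + hh M k) * x ^ (k + 1) :=
            mul_le_mul_of_nonneg_right h4 (by positivity)
        _ = hh M (k + 1) * x ^ (k + 1) + x * (hh M k * x ^ k) := by ring
    have h5 := Finset.sum_le_sum h1
    rw [Finset.sum_add_distrib, ← Finset.mul_sum] at h5
    have h6 := hb (K + 1)
    rw [Finset.sum_range_succ', hh_zero] at h6
    have h7 := hb K
    have h8 : x * ∑ k ∈ range K, hh M k * x ^ k ≤ 2 * (2 * (16 * M + 1) * 8 ^ 16) := by
      apply mul_le_mul hx2 h7 _ (by norm_num)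
      exact Finset.sum_nonneg fun k _ => mul_nonneg (hh_pos M hM k).le (by positivity)
    have h9 : |(1 : ℝ)| = 1 := abs_one
    rw [h9]
    linarith

end Pool.Agent.Helper605
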