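import Mathlib
import Pool.Agent.Helper605.Ideal

set_option autoImplicit false

namespace Pool.Agent.Helper605

open PowerSeries Finset

theorem zbound (M : ℕ) (C θ θ1 : ℝ) (hC : 0 ≤ C) (hθ : 0 < θ) (hθ1 : θ < θ1)
    (κ Z : PowerSeries ℝ) (hκ0 : coeff 0 κ = 0) (hκ1 : ∀ j, j ≤ M → coeff j κ = 0)
    (hκ2 : ∀ j, M < j → |coeff j κ| ≤ C * θ ^ j) (hZ0 : coeff 0 Z = 1) (hZ : IsLD Z κ)
    (hsmall : 2 * C * (θ / θ1) ^ (M + 1) ≤ 1 - θ / θ1) (k : ℕ) (hk : 1 ≤ k) :
    |coeff k Z| ≤ 2 * C * (θ / θ1) ^ (M + 1) * θ1 ^ k := by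
  have hθ1p : 0 < θ1 := hθ.trans hθ1
  set σ := θ / θ1 with hσ
  have hσ0 : 0 < σ := div_pos hθ hθ1p
  have hσ1 : σ < 1 := (div_lt_one hθ1p).mpr hθ1
  have hθσ : θ = σ * θ1 := by rw [hσ]; field_simp
  set ε := 2 * C * σ ^ (M + 1) with hε
  have hε0 : 0 ≤ ε := by positivity
  have hκ3 : ∀ j, |coeff j κ| ≤ if M < j then C * σ ^ j * θ1 ^ j else 0 := by
    intro j
    split_ifs with hj
    · have := hκ2 j hj
      rw [hθσ, mul_pow] at this
      linarith
    · rw [hκ1 j (by omega), abs_zero]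
  induction k using Nat.strong_induction_on with
  | _ k ih =>
    have hrec := hZ.coeff_range hκ0 k
    have hkpos : (0 : ℝ) < k := by exact_mod_cast hk
    have hk1 : (1 : ℝ) ≤ k := by exact_mod_cast hk
    have h1 : (k : ℝ) * |coeff k Z| ≤ ∑ j ∈ range k, |coeff (k - j) κ| * |coeff j Z| := by
      calc (k : ℝ) * |coeff k Z| = |(k : ℝ) * coeff k Z| := by rw [abs_mul, abs_of_pos hkpos]
        _ = |∑ j ∈ range k, coeff (k - j) κ * coeff j Z| := by rw [hrec, abs_neg]
        _ ≤ ∑ j ∈ range k, |coeff (k - j) κ * coeff j Z| := Finset.abs_sum_le_sum_abs _ _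
        _ = ∑ j ∈ range k, |coeff (k - j) κ| * |coeff j Z| := by
            apply Finset.sum_congr rfl; intro j _; rw [abs_mul]
    obtain ⟨k', rfl⟩ : ∃ k', k = k' + 1 := ⟨k - 1, by omega⟩
    rw [Finset.sum_range_succ'] at h1
    rw [hZ0, abs_one, mul_one, Nat.sub_zero] at h1
    have h2 : |coeff (k' + 1) κ| ≤ C * σ ^ (M + 1) * θ1 ^ (k' + 1) := by
      refine (hκ3 (k' + 1)).trans ?_
      split_ifs with hj
      · apply mul_le_mul_of_nonneg_right _ (by positivity)
        apply mul_le_mul_of_nonneg_left _ hC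
        exact pow_le_pow_of_le_one hσ0.le hσ1.le (by omega)
      · positivity
    have h3 : ∑ j ∈ range k', |coeff (k' + 1 - (j + 1)) κ| * |coeff (j + 1) Z| ≤
        C * ε * θ1 ^ (k' + 1) * (σ ^ (M + 1) / (1 - σ)) := by
      have h4 : ∀ j ∈ range k', |coeff (k' + 1 - (j + 1)) κ| * |coeff (j + 1) Z| ≤
          C * ε * θ1 ^ (k' + 1) * (if M < k' - j then σ ^ (k' - j) else 0) := by
        intro j hj
        rw [Finset.mem_range] at hj
        have h5 := ih (j + 1) (by omega) (by omega)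
        rw [show k' + 1 - (j + 1) = k' - j by omega]
        have h6 := hκ3 (k' - j)
        split_ifs with hM
        · rw [if_pos hM] at h6
          calc |coeff (k' - j) κ| * |coeff (j + 1) Z| ≤ (C * σ ^ (k' - j) * θ1 ^ (k' - j)) * (ε * θ1 ^ (j + 1)) :=
                mul_le_mul h6 h5 (abs_nonneg _) (by positivity)
            _ = C * ε * (θ1 ^ (k' - j) * θ1 ^ (j + 1)) * σ ^ (k' - j) := by ring
            _ = C * ε * θ1 ^ (k' + 1) * σ ^ (k' - j) := by
                rw [← pow_add, show k' - j + (j + 1) = k' + 1 by omega]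
        · rw [if_neg hM] at h6
          have h7 : |coeff (k' - j) κ| = 0 := le_antisymm h6 (abs_nonneg _)
          rw [h7]; simp
      refine (Finset.sum_le_sum h4).trans ?_
      rw [← Finset.mul_sum]
      apply mul_le_mul_of_nonneg_left _ (by positivity)
      have h5 : ∑ j ∈ range k', (if M < k' - j then σ ^ (k' - j) else 0) ≤ ∑ i ∈ Ico (M + 1) (k' + 1), σ ^ i := by
        rw [← Finset.sum_filter]
        rw [← Finset.sum_image (f := fun i => σ ^ i) (g := fun j => k' - j)
          (s := (range k').filter fun j => M < k' - j)]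
        · apply Finset.sum_le_sum_of_subset_of_nonneg
          · intro i hi
            rw [Finset.mem_image] at hi
            obtain ⟨j, hj, rfl⟩ := hi
            rw [Finset.mem_filter, Finset.mem_range] at hj
            rw [Finset.mem_Ico]
            omega
          · intro i _ _
            positivity
        · intro i hi j hj hij
          simp only [Finset.coe_filter, Finset.mem_range, Set.mem_setOf_eq] at hi hj hij
          omega
      exact h5.trans (geom_sum_Ico_le_of_lt_one hσ0.le hσ1)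
    have h1σ : 0 < 1 - σ := by linarith
    have h6 : ε / (1 - σ) ≤ 1 := (div_le_one h1σ).mpr hsmall
    have h7 : ((k' + 1 : ℕ) : ℝ) * |coeff (k' + 1) Z| ≤ ε * θ1 ^ (k' + 1) := by
      calc ((k' + 1 : ℕ) : ℝ) * |coeff (k' + 1) Z| ≤
          C * ε * θ1 ^ (k' + 1) * (σ ^ (M + 1) / (1 - σ)) + C * σ ^ (M + 1) * θ1 ^ (k' + 1) := by
            linarith
        _ = C * σ ^ (M + 1) * θ1 ^ (k' + 1) * (ε / (1 - σ) + 1) := by ring
        _ ≤ C * σ ^ (M + 1) * θ1 ^ (k' + 1) * (1 + 1) := by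
            apply mul_le_mul_of_nonneg_left _ (by positivity)
            linarith
        _ = ε * θ1 ^ (k' + 1) := by rw [hε]; ring
    have h8 : |coeff (k' + 1) Z| ≤ ((k' + 1 : ℕ) : ℝ) * |coeff (k' + 1) Z| :=
      le_mul_of_one_le_left (abs_nonneg _) hk1
    linarith

theorem sum_conv_le (a b : ℕ → ℝ) (ha : ∀ i, 0 ≤ a i) (hb : ∀ i, 0 ≤ b i) (K : ℕ) :
    ∑ k ∈ range K, ∑ x ∈ antidiagonal k, a x.1 * b x.2 ≤ (∑ i ∈ range K, a i) * ∑ j ∈ range K, b j := by
  rw [Finset.sum_mul_sum, ← Finset.sum_product']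
  have h1 : ∑ k ∈ range K, ∑ x ∈ antidiagonal k, a x.1 * b x.2 =
      ∑ k ∈ range K, ∑ x ∈ ((range K ×ˢ range K).filter fun x => x.1 + x.2 < K).filter (fun x => x.1 + x.2 = k),
        a x.1 * b x.2 := by
    apply Finset.sum_congr rfl
    intro k hk
    rw [Finset.mem_range] at hk
    apply Finset.sum_congr _ (fun _ _ => rfl)
    ext x
    simp only [Finset.HasAntidiagonal.mem_antidiagonal, Finset.mem_filter, Finset.mem_product, Finset.mem_range]
    omega
  rw [h1, Finset.sum_fiberwise_of_maps_to]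
  · apply Finset.sum_le_sum_of_subset_of_nonneg
    · exact Finset.filter_subset _ _
    · intro x _ _
      exact mul_nonneg (ha _) (hb _)
  · intro x hx
    rw [Finset.mem_filter] at hx
    rw [Finset.mem_range]
    exact hx.2

end Pool.Agent.Helper605
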