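import Mathlib
import Pool.Agent.Helper605.Zbound
import Pool.Agent.Helper605.Renewal

set_option autoImplicit false

namespace Pool.Agent.Helper605

open PowerSeries Finset Filter Topology

/-- Admissible `q` on `[M+1, 2M+1]`. -/
structure QAdm (M : ℕ) (q : PowerSeries ℝ) : Prop where
  supp : ∀ j, (j < M + 1 ∨ 2 * M + 1 < j) → coeff j q = 0
  lo : ∀ j, M + 1 ≤ j → j ≤ 2 * M + 1 → 1 / (4 * (j : ℝ)) ≤ coeff j q
  hi : ∀ j, M + 1 ≤ j → j ≤ 2 * M + 1 → coeff j q ≤ 1 / (2 * (j : ℝ))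

theorem QAdm.nonneg {M : ℕ} {q : PowerSeries ℝ} (hq : QAdm M q) (j : ℕ) : 0 ≤ coeff j q := by
  by_cases h : M + 1 ≤ j ∧ j ≤ 2 * M + 1
  · exact le_trans (by positivity) (hq.lo j h.1 h.2)
  · rw [hq.supp j (by omega)]

theorem QAdm.root {M : ℕ} {q : PowerSeries ℝ} (hq : QAdm M q) (hM : 2 ≤ M) :
    ∃ x : ℝ, 1 < x ∧ x ≤ 2 ∧ x ^ (M + 1) ≤ 8 ∧ ∑ j ∈ Icc (M + 1) (2 * M + 1), coeff j q * x ^ j = 1 := by
  set f : ℝ → ℝ := fun x => ∑ j ∈ Icc (M + 1) (2 * M + 1), coeff j q * x ^ j with hf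
  have hcont : Continuous f := by
    apply continuous_finsetSum
    intro j _
    exact continuous_const.mul (continuous_pow j)
  have hcard : (Icc (M + 1) (2 * M + 1)).card = M + 1 := by rw [Nat.card_Icc]; omega
  have hMr : (2 : ℝ) ≤ M := by exact_mod_cast hM
  have hlow : ∀ x : ℝ, 1 ≤ x → ((M : ℝ) + 1) * (x ^ (M + 1) / (4 * (2 * M + 1))) ≤ f x := by
    intro x hx
    have h1 : ∑ j ∈ Icc (M + 1) (2 * M + 1), x ^ (M + 1) / (4 * (2 * (M : ℝ) + 1)) ≤ f x := by
      apply Finset.sum_le_sum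
      intro j hj
      rw [Finset.mem_Icc] at hj
      have h2 := hq.lo j hj.1 hj.2
      have hj0 : (0 : ℝ) < j := by exact_mod_cast (by omega : 0 < j)
      have hj1 : (j : ℝ) ≤ 2 * M + 1 := by exact_mod_cast hj.2
      have h3 : 1 / (4 * (2 * (M : ℝ) + 1)) ≤ 1 / (4 * (j : ℝ)) := by
        apply one_div_le_one_div_of_le (by positivity)
        linarith
      have h4 : x ^ (M + 1) ≤ x ^ j := pow_le_pow_right₀ hx hj.1
      calc x ^ (M + 1) / (4 * (2 * (M : ℝ) + 1)) = 1 / (4 * (2 * (M : ℝ) + 1)) * x ^ (M + 1) := by ring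
        _ ≤ coeff j q * x ^ j := mul_le_mul (h3.trans h2) h4 (by positivity) (hq.nonneg j)
    rw [Finset.sum_const, hcard, nsmul_eq_mul] at h1
    push_cast at h1
    exact h1
  have hf1 : f 1 ≤ 1 / 2 := by
    have h1 : f 1 ≤ ∑ j ∈ Icc (M + 1) (2 * M + 1), 1 / (2 * ((M : ℝ) + 1)) := by
      apply Finset.sum_le_sum
      intro j hj
      rw [Finset.mem_Icc] at hj
      have h2 := hq.hi j hj.1 hj.2
      have hj1 : (M : ℝ) + 1 ≤ j := by exact_mod_cast hj.1
      rw [one_pow, mul_one]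
      refine h2.trans ?_
      apply one_div_le_one_div_of_le (by positivity)
      linarith
    rw [Finset.sum_const, hcard, nsmul_eq_mul] at h1
    push_cast at h1
    have h3 : ((M : ℝ) + 1) * (1 / (2 * ((M : ℝ) + 1))) = 1 / 2 := by
      have : (M : ℝ) + 1 ≠ 0 := by positivity
      field_simp
    rw [h3] at h1
    exact h1
  have hf2 : 1 ≤ f 2 := by
    have h1 := hlow 2 (by norm_num)
    have h2 : (8 : ℝ) ≤ 2 ^ (M + 1) := by
      calc (8 : ℝ) = 2 ^ 3 := by norm_num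
        _ ≤ 2 ^ (M + 1) := pow_le_pow_right₀ (by norm_num) (by omega)
    refine le_trans ?_ h1
    rw [← mul_div_assoc, le_div_iff₀ (by positivity)]
    nlinarith
  obtain ⟨x, hx, hfx⟩ := intermediate_value_Icc (show (1 : ℝ) ≤ 2 by norm_num) hcont.continuousOn
    (show (1 : ℝ) ∈ Set.Icc (f 1) (f 2) from ⟨by linarith, hf2⟩)
  refine ⟨x, ?_, hx.2, ?_, hfx⟩
  · rcases eq_or_lt_of_le hx.1 with h | h
    · exfalso
      rw [← h] at hfx
      linarith
    · exact h
  · have h1 := hlow x hx.1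
    rw [hfx, ← mul_div_assoc, div_le_iff₀ (by positivity)] at h1
    have h2 : 0 ≤ x ^ (M + 1) := by have := hx.1; positivity
    nlinarith

theorem one_sub_ne {M : ℕ} {q : PowerSeries ℝ} (hq : QAdm M q) : constantCoeff (1 - q) ≠ 0 := by
  rw [map_sub, ← coeff_zero_eq_constantCoeff_apply, ← coeff_zero_eq_constantCoeff_apply,
    hq.supp 0 (by omega)]
  simp

theorem QAdm.renew {M : ℕ} {q : PowerSeries ℝ} (hq : QAdm M q) (hM : 1 ≤ M) (x : ℝ) (hx : 1 ≤ x)
    (hsum : ∑ j ∈ Icc (M + 1) (2 * M + 1), coeff j q * x ^ j = 1) :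
    Renew M (1 / (4 * (2 * (M : ℝ) + 1))) (fun j => coeff j q * x ^ j)
      (fun k => coeff k (1 - q)⁻¹ * x ^ k) := by
  have hc : (1 - q) * (1 - q)⁻¹ = 1 := PowerSeries.mul_inv_cancel _ (one_sub_ne hq)
  refine ⟨hM, by positivity, ?_, hsum, ?_, ?_⟩
  · intro j hj1 hj2
    have h2 := hq.lo j hj1 hj2
    have hj0 : (0 : ℝ) < j := by exact_mod_cast (by omega : 0 < j)
    have hj1 : (j : ℝ) ≤ 2 * M + 1 := by exact_mod_cast hj2
    have h3 : 1 / (4 * (2 * (M : ℝ) + 1)) ≤ 1 / (4 * (j : ℝ)) := by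
      apply one_div_le_one_div_of_le (by positivity)
      linarith
    have h4 : 1 ≤ x ^ j := one_le_pow₀ hx
    calc 1 / (4 * (2 * (M : ℝ) + 1)) ≤ coeff j q := h3.trans h2
      _ = coeff j q * 1 := (mul_one _).symm
      _ ≤ coeff j q * x ^ j := mul_le_mul_of_nonneg_left h4 (hq.nonneg j)
  · have h1 := congrArg (coeff 0) hc
    rw [coeff_mul] at h1
    rw [Finset.Nat.antidiagonal_zero, Finset.sum_singleton] at h1
    rw [map_sub, hq.supp 0 (by omega)] at h1
    simp at h1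
    simp [h1]
  · intro k hk
    have h1 := congrArg (coeff k) hc
    rw [sub_mul, one_mul, map_sub, coeff_one, if_neg (by omega), coeff_mul,
      Finset.Nat.sum_antidiagonal_eq_sum_range_succ_mk, sub_eq_zero] at h1
    rw [h1, Finset.sum_mul]
    have h2 : ∑ i ∈ range k.succ, coeff i q * coeff (k - i) (1 - q)⁻¹ * x ^ k =
        ∑ i ∈ (Icc (M + 1) (2 * M + 1)).filter (fun j => j ≤ k), coeff i q * coeff (k - i) (1 - q)⁻¹ * x ^ k := by
      symm
      apply Finset.sum_subset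
      · intro j hj
        rw [Finset.mem_filter] at hj
        rw [Finset.mem_range]
        omega
      · intro j hj hj'
        rw [Finset.mem_range] at hj
        rw [Finset.mem_filter, Finset.mem_Icc] at hj'
        rw [hq.supp j (by omega)]
        ring
    rw [h2, Finset.sum_filter]
    apply Finset.sum_congr rfl
    intro j _
    split_ifs with hjk
    · have : x ^ k = x ^ j * x ^ (k - j) := by rw [← pow_add]; congr 1; omega
      rw [this]
      ring
    · rfl

theorem fst_neg_coeff (M i : ℕ) (hM : 1 ≤ M) (hi : M + 1 ≤ i) :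
    - coeff i (Fst M) = hh M (i - 1 - M) / i := by
  obtain ⟨k, rfl⟩ : ∃ k, i = k + 1 := ⟨i - 1, by omega⟩
  rw [Fst_coeff_succ]
  have h1 := hh_diff M k hM (by omega)
  have h2 : ((k : ℝ) + 1) ≠ 0 := by positivity
  rw [show k + 1 - 1 - M = k - M by omega, ← h1]
  push_cast
  field_simp
  ring

theorem delta_bound (M : ℕ) (hM : 2 ≤ M) (C θ θ1 θ2 : ℝ) (hC : 0 ≤ C) (hθ : 0 < θ) (hθ1 : θ < θ1)
    (hθ2 : θ2 < 1) (hsmall : 2 * C * (θ / θ1) ^ (M + 1) ≤ 1 - θ / θ1)
    (F1 l : PowerSeries ℝ) (hF0 : coeff 0 F1 = 1) (hF : IsLD F1 l) (hl1 : ∀ j, j ≤ M → coeff j l = 0)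
    (hl2 : ∀ j, M < j → |coeff j l - 1| ≤ C * θ ^ j) (x : ℝ) (hx1 : 1 ≤ x) (hx2 : x ≤ 2)
    (hx8 : x ^ (M + 1) ≤ 8) (hxθ : θ1 * x ≤ θ2) (K : ℕ) :
    ∑ i ∈ range K, |coeff i (Fst M) - coeff i F1| * x ^ i ≤
      (6 * (16 * M + 1) * 8 ^ 16) * (2 * C * (θ / θ1) ^ (M + 1) / (1 - θ2)) := by
  have hθ1p : 0 < θ1 := hθ.trans hθ1
  have hx0 : 0 < x := by linarith
  set κ : PowerSeries ℝ := l - PowerSeries.mk (fun j => if M < j then (1 : ℝ) else 0) with hκ
  have hκ1 : ∀ j, j ≤ M → coeff j κ = 0 := by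
    intro j hj
    rw [hκ, map_sub, coeff_mk, hl1 j hj, if_neg (by omega), sub_zero]
  have hκ2 : ∀ j, M < j → |coeff j κ| ≤ C * θ ^ j := by
    intro j hj
    rw [hκ, map_sub, coeff_mk, if_pos hj]
    exact hl2 j hj
  obtain ⟨Z, hZ0, hZ⟩ := exists_isLD κ (hκ1 0 (by omega))
  have hFZ : F1 = Fst M * Z := by
    have h1 := (Fst_isLD M).mul hZ
    have h2 : PowerSeries.mk (fun j => if M < j then (1 : ℝ) else 0) + κ = l := by rw [hκ]; ring
    rw [h2] at h1
    apply hF.unique h1 (hl1 0 (by omega))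
    rw [hF0, coeff_mul]
    simp [Fst_coeff_zero, hZ0]
  have hzb := zbound M C θ θ1 hC hθ hθ1 κ Z (hκ1 0 (by omega)) hκ1 hκ2 hZ0 hZ hsmall
  set ε := 2 * C * (θ / θ1) ^ (M + 1) with hε
  have hε0 : 0 ≤ ε := by positivity
  set W : PowerSeries ℝ := Z - 1 with hW
  have hdiff : ∀ i, coeff i (Fst M) - coeff i F1 = - coeff i (Fst M * W) := by
    intro i
    rw [hFZ, hW, mul_sub, mul_one, map_sub]
    ring
  have hWb : ∀ j, |coeff j W| * x ^ j ≤ ε * θ2 ^ j := by
    intro j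
    have hθ2p : 0 < θ2 := lt_of_lt_of_le (mul_pos hθ1p hx0) hxθ
    rcases Nat.eq_zero_or_pos j with hj | hj
    · subst hj
      rw [hW, map_sub, hZ0, coeff_one, if_pos rfl]
      simp
      exact hε0
    · rw [hW, map_sub, coeff_one, if_neg (by omega), sub_zero]
      calc |coeff j Z| * x ^ j ≤ (ε * θ1 ^ j) * x ^ j :=
            mul_le_mul_of_nonneg_right (hzb j hj) (by positivity)
        _ = ε * (θ1 * x) ^ j := by rw [mul_pow]; ring
        _ ≤ ε * θ2 ^ j := by
            apply mul_le_mul_of_nonneg_left _ hε0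
            exact pow_le_pow_left₀ (by positivity) hxθ j
  have hθ2p : 0 < θ2 := lt_of_lt_of_le (mul_pos hθ1p hx0) hxθ
  calc ∑ i ∈ range K, |coeff i (Fst M) - coeff i F1| * x ^ i
      ≤ ∑ k ∈ range K, ∑ y ∈ antidiagonal k, (|coeff y.1 (Fst M)| * x ^ y.1) * (|coeff y.2 W| * x ^ y.2) := by
        apply Finset.sum_le_sum
        intro k _
        rw [hdiff, abs_neg, coeff_mul]
        calc |∑ y ∈ antidiagonal k, coeff y.1 (Fst M) * coeff y.2 W| * x ^ k
            ≤ (∑ y ∈ antidiagonal k, |coeff y.1 (Fst M) * coeff y.2 W|) * x ^ k :=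
              mul_le_mul_of_nonneg_right (Finset.abs_sum_le_sum_abs _ _) (by positivity)
          _ = ∑ y ∈ antidiagonal k, (|coeff y.1 (Fst M)| * x ^ y.1) * (|coeff y.2 W| * x ^ y.2) := by
              rw [Finset.sum_mul]
              apply Finset.sum_congr rfl
              intro y hy
              rw [Finset.HasAntidiagonal.mem_antidiagonal] at hy
              rw [abs_mul, ← hy, pow_add]
              ring
    _ ≤ (∑ i ∈ range K, |coeff i (Fst M)| * x ^ i) * ∑ j ∈ range K, |coeff j W| * x ^ j :=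
        sum_conv_le (fun i => |coeff i (Fst M)| * x ^ i) (fun j => |coeff j W| * x ^ j)
          (fun i => by positivity) (fun j => by positivity) K
    _ ≤ (6 * (16 * M + 1) * 8 ^ 16) * (ε / (1 - θ2)) := by
        apply mul_le_mul
        · apply Fst_sum_bound M (by omega) x hx1 hx2
          exact (pow_le_pow_right₀ hx1 (by omega)).trans hx8
        · calc ∑ j ∈ range K, |coeff j W| * x ^ j ≤ ∑ j ∈ range K, ε * θ2 ^ j :=
                Finset.sum_le_sum fun j _ => hWb j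
            _ = ε * ∑ j ∈ Ico 0 K, θ2 ^ j := by rw [← Finset.mul_sum, Finset.range_eq_Ico]
            _ ≤ ε * (θ2 ^ 0 / (1 - θ2)) :=
                mul_le_mul_of_nonneg_left (geom_sum_Ico_le_of_lt_one hθ2p.le hθ2) hε0
            _ = ε / (1 - θ2) := by rw [pow_zero]; ring
        · positivity
        · positivity

/-- Positivity for a fixed large `M`. -/
theorem neg_coeffs (M : ℕ) (hM : 2 ≤ M) (C θ θ1 θ2 : ℝ) (hC : 0 ≤ C) (hθ : 0 < θ) (hθ1 : θ < θ1)
    (hθ2p : 0 < θ2) (hθ2 : θ2 < 1) (hsmall : 2 * C * (θ / θ1) ^ (M + 1) ≤ 1 - θ / θ1)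
    (hθ12 : 8 < (θ2 / θ1) ^ (M + 1)) (hfinal : (6 * (16 * M + 1) * 8 ^ 16) * (2 * C * (θ / θ1) ^ (M + 1) / (1 - θ2))
      ≤ (1 / (4 * (2 * (M : ℝ) + 1))) ^ 3)
    (F1 l : PowerSeries ℝ) (hF0 : coeff 0 F1 = 1) (hF : IsLD F1 l) (hl1 : ∀ j, j ≤ M → coeff j l = 0)
    (hl2 : ∀ j, M < j → |coeff j l - 1| ≤ C * θ ^ j) (q : PowerSeries ℝ) (hq : QAdm M q) (k : ℕ) (hk : 1 ≤ k) :
    coeff k (F1 * (1 - q)⁻¹) ≤ 0 := by
  have hθ1p : 0 < θ1 := hθ.trans hθ1
  obtain ⟨x, hx1, hx2, hx8, hroot⟩ := hq.root hM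
  have hx0 : 0 < x := by linarith
  have hxθ : θ1 * x ≤ θ2 := by
    by_contra hcon
    push Not at hcon
    have h1 : θ2 / θ1 < x := by rwa [div_lt_iff₀ hθ1p, mul_comm]
    have h2 : 0 ≤ θ2 / θ1 := div_nonneg hθ2p.le hθ1p.le
    have h3 : (θ2 / θ1) ^ (M + 1) ≤ x ^ (M + 1) := pow_le_pow_left₀ h2 h1.le _
    linarith
  have hren := hq.renew (by omega) x hx1.le hroot
  set δ : ℝ := 1 / (4 * (2 * (M : ℝ) + 1)) with hδ
  have hδ0 : 0 < δ := by positivity
  have hδ1 : δ ≤ 1 := hren.δ_le_one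
  set c := (1 - q)⁻¹ with hc
  set u : ℕ → ℝ := fun k => coeff k c * x ^ k with hu
  have hcc : (1 - q) * c = 1 := PowerSeries.mul_inv_cancel _ (one_sub_ne hq)
  set Δ : ℕ → ℝ := fun i => coeff i (Fst M) - coeff i F1 with hΔ
  have hT : ∀ K, ∑ i ∈ range K, |Δ i| * x ^ i ≤ δ ^ 3 := fun K =>
    (delta_bound M hM C θ θ1 θ2 hC hθ hθ1 hθ2 hsmall F1 l hF0 hF hl1 hl2 x hx1.le hx2 hx8 hxθ K).trans hfinal
  have hΔi : ∀ i, |Δ i| ≤ δ ^ 3 := by
    intro i
    have h1 := hT (i + 1)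
    have h2 : |Δ i| * x ^ i ≤ ∑ i ∈ range (i + 1), |Δ i| * x ^ i :=
      Finset.single_le_sum (f := fun i => |Δ i| * x ^ i) (fun j _ => by positivity) (Finset.self_mem_range_succ i)
    have h3 : |Δ i| ≤ |Δ i| * x ^ i := le_mul_of_one_le_right (abs_nonneg _) (one_le_pow₀ hx1.le)
    linarith
  set d : PowerSeries ℝ := 1 - q - F1 with hd
  have hE : F1 * c = 1 - d * c := by
    have : F1 = (1 - q) - d := by rw [hd]; ring
    rw [this, sub_mul, hcc]
  -- coefficients of d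
  have hd0 : coeff 0 d = 0 := by
    rw [hd, map_sub, map_sub, hF0, hq.supp 0 (by omega), coeff_one, if_pos rfl]; ring
  have hd1 : ∀ i, 1 ≤ i → coeff i d = - coeff i (Fst M) + Δ i - coeff i q := by
    intro i hi
    rw [hd, map_sub, map_sub, coeff_one, if_neg (by omega), hΔ]
    ring
  have hF1z : ∀ i, 1 ≤ i → i ≤ M → coeff i F1 = 0 := by
    intro i hi1 hi2
    have h1 := hF.coeff_range (hl1 0 (by omega)) i
    have h2 : ∑ j ∈ range i, coeff (i - j) l * coeff j F1 = 0 := by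
      apply Finset.sum_eq_zero
      intro j hj
      rw [Finset.mem_range] at hj
      rw [hl1 (i - j) (by omega), zero_mul]
    rw [h2, neg_zero] at h1
    have h3 : (i : ℝ) ≠ 0 := by exact_mod_cast (by omega : i ≠ 0)
    exact (mul_eq_zero.mp h1).resolve_left h3
  have hdlow : ∀ i, i ≤ M → coeff i d = 0 := by
    intro i hi
    rcases Nat.eq_zero_or_pos i with h | h
    · rw [h, hd0]
    · rw [hd, map_sub, map_sub, coeff_one, if_neg (by omega), hF1z i h hi, hq.supp i (by omega)]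
      ring
  have hdmid : ∀ i, M + 1 ≤ i → i ≤ 2 * M + 1 → δ ≤ coeff i d := by
    intro i hi1 hi2
    rw [hd1 i (by omega), fst_neg_coeff M i (by omega) hi1, hh_one M _ (by omega)]
    have h1 := hq.hi i hi1 hi2
    have h2 := (abs_le.mp (hΔi i)).1
    have hi0 : (0 : ℝ) < i := by exact_mod_cast (by omega : 0 < i)
    have hi3 : (i : ℝ) ≤ 2 * M + 1 := by exact_mod_cast hi2
    have h3 : 2 * δ ≤ 1 / (2 * (i : ℝ)) := by
      rw [hδ]
      rw [show 2 * (1 / (4 * (2 * (M : ℝ) + 1))) = 1 / (2 * (2 * (M : ℝ) + 1)) by field_simp; norm_num]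
      apply one_div_le_one_div_of_le (by positivity)
      linarith
    have h4 : δ ^ 3 ≤ δ := by
      calc δ ^ 3 ≤ δ ^ 1 := pow_le_pow_of_le_one hδ0.le hδ1 (by norm_num)
        _ = δ := pow_one _
    have h5 : (1 : ℝ) / i = 1 / (2 * (i : ℝ)) + 1 / (2 * (i : ℝ)) := by field_simp; norm_num
    linarith
  have hdhigh : ∀ i, 2 * M + 1 < i → -|Δ i| ≤ coeff i d := by
    intro i hi
    rw [hd1 i (by omega), fst_neg_coeff M i (by omega) (by omega), hq.supp i (by omega)]
    have h1 : 0 ≤ hh M (i - 1 - M) / i := div_nonneg (hh_pos M (by omega) _).le (by positivity)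
    have h2 := neg_abs_le (Δ i)
    linarith
  have hcoef : coeff k (F1 * c) = - ∑ y ∈ antidiagonal k, coeff y.1 d * coeff y.2 c := by
    rw [hE, map_sub, coeff_one, if_neg (by omega), coeff_mul]; ring
  rw [hcoef, neg_nonpos]
  have hxk : 0 < x ^ k := by positivity
  have hsumk : (∑ y ∈ antidiagonal k, coeff y.1 d * coeff y.2 c) * x ^ k =
      ∑ i ∈ range (k + 1), (coeff i d * x ^ i) * u (k - i) := by
    rw [Finset.Nat.sum_antidiagonal_eq_sum_range_succ_mk, Finset.sum_mul]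
    apply Finset.sum_congr rfl
    intro i hi
    rw [Finset.mem_range] at hi
    have : x ^ k = x ^ i * x ^ (k - i) := by rw [← pow_add]; congr 1; omega
    rw [this, hu]
    ring
  have hgoal : 0 ≤ (∑ y ∈ antidiagonal k, coeff y.1 d * coeff y.2 c) * x ^ k := by
    rw [hsumk]
    by_cases hk2 : k ≤ 2 * M + 1
    · apply Finset.sum_nonneg
      intro i hi
      rw [Finset.mem_range] at hi
      have hdi : 0 ≤ coeff i d := by
        by_cases h : i ≤ M
        · rw [hdlow i h]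
        · exact hδ0.le.trans (hdmid i (by omega) (by omega))
      exact mul_nonneg (mul_nonneg hdi (by positivity)) (hren.nonneg _)
    · have hterm : ∀ i ∈ range (k + 1), (if i = M + 1 then δ ^ 3 else 0) - |Δ i| * x ^ i ≤
          (coeff i d * x ^ i) * u (k - i) := by
        intro i hi
        rw [Finset.mem_range] at hi
        have hunn := hren.nonneg (k - i)
        have hu1 := hren.le_one (k - i)
        have hxi : 0 < x ^ i := by positivity
        have hΔx : 0 ≤ |Δ i| * x ^ i := by positivity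
        by_cases hiM : i = M + 1
        · rw [if_pos hiM]
          have h1 := hdmid i (by omega) (by omega)
          have h2 := hren.lower (k - i) (by omega)
          have h3 : δ ≤ coeff i d * x ^ i := by
            calc δ ≤ coeff i d := h1
              _ ≤ coeff i d * x ^ i := le_mul_of_one_le_right (hδ0.le.trans h1) (one_le_pow₀ hx1.le)
          have h4 : δ * δ ^ 2 ≤ (coeff i d * x ^ i) * u (k - i) :=
            mul_le_mul h3 h2 (by positivity) (hδ0.le.trans h3)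
          have h5 : δ ^ 3 = δ * δ ^ 2 := by ring
          linarith
        · rw [if_neg hiM]
          by_cases hi2 : i ≤ 2 * M + 1
          · have hdi : 0 ≤ coeff i d := by
              by_cases h : i ≤ M
              · rw [hdlow i h]
              · exact hδ0.le.trans (hdmid i (by omega) (by omega))
            have : 0 ≤ (coeff i d * x ^ i) * u (k - i) := mul_nonneg (mul_nonneg hdi hxi.le) hunn
            linarith
          · have h1 := hdhigh i (by omega)
            have h2 : -(|Δ i| * x ^ i) ≤ coeff i d * x ^ i := by nlinarith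
            have h3 : -(|Δ i| * x ^ i) ≤ -(|Δ i| * x ^ i) * u (k - i) := by nlinarith
            have h4 : -(|Δ i| * x ^ i) * u (k - i) ≤ coeff i d * x ^ i * u (k - i) :=
              mul_le_mul_of_nonneg_right h2 hunn
            linarith
      have hsum := Finset.sum_le_sum hterm
      rw [Finset.sum_sub_distrib, Finset.sum_ite_eq', if_pos (by rw [Finset.mem_range]; omega)] at hsum
      have := hT (k + 1)
      linarith
  exact nonneg_of_mul_nonneg_left hgoal hxk

end Pool.Agent.Helper605
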