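import Mathlib
import Pool.Agent.Helper605.MainA

set_option autoImplicit false

namespace Pool.Agent.Helper605

open PowerSeries Finset Filter Topology

theorem params (C θ : ℝ) (hθ : 0 < θ) (hθ' : θ < 1) :
    ∃ θ1 θ2 : ℝ, θ < θ1 ∧ 0 < θ2 ∧ θ2 < 1 ∧ ∀ᶠ M : ℕ in atTop,
      2 * C * (θ / θ1) ^ (M + 1) ≤ 1 - θ / θ1 ∧ 8 < (θ2 / θ1) ^ (M + 1) ∧
      (6 * (16 * (M : ℝ) + 1) * 8 ^ 16) * (2 * C * (θ / θ1) ^ (M + 1) / (1 - θ2))
      ≤ (1 / (4 * (2 * (M : ℝ) + 1))) ^ 3 := by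
  set θ1 := (1 + θ) / 2 with h1
  set θ2 := (1 + θ1) / 2 with h2
  have hθ1 : θ < θ1 := by rw [h1]; linarith
  have hθ1' : θ1 < 1 := by rw [h1]; linarith
  have hθ12 : θ1 < θ2 := by rw [h2]; linarith
  have hθ2' : θ2 < 1 := by rw [h2]; linarith
  have hθ1p : 0 < θ1 := hθ.trans hθ1
  have hθ2p : 0 < θ2 := hθ1p.trans hθ12
  refine ⟨θ1, θ2, hθ1, hθ2p, hθ2', ?_⟩
  set σ := θ / θ1 with hσ
  have hσ0 : 0 < σ := div_pos hθ hθ1p
  have hσ1 : σ < 1 := (div_lt_one hθ1p).mpr hθ1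
  have t0 : Tendsto (fun M : ℕ => M + 1) atTop atTop := tendsto_add_atTop_nat 1
  have t1 : Tendsto (fun M : ℕ => 2 * C * σ ^ (M + 1)) atTop (𝓝 (2 * C * 0)) :=
    tendsto_const_nhds.mul ((tendsto_pow_atTop_nhds_zero_of_lt_one hσ0.le hσ1).comp t0)
  have t2 : Tendsto (fun M : ℕ => (θ2 / θ1) ^ (M + 1)) atTop atTop :=
    (tendsto_pow_atTop_atTop_of_one_lt ((one_lt_div hθ1p).mpr hθ12)).comp t0
  have t3' := (tendsto_pow_const_mul_const_pow_of_abs_lt_one 4
    (show |σ| < 1 by rw [abs_of_pos hσ0]; exact hσ1)).comp t0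
  have t3 : Tendsto (fun M : ℕ => (6 * 8 ^ 16 * (2 * |C|) / (1 - θ2) * (17 * 512)) *
      (((M + 1 : ℕ) : ℝ) ^ 4 * σ ^ (M + 1))) atTop (𝓝 ((6 * 8 ^ 16 * (2 * |C|) / (1 - θ2) * (17 * 512)) * 0)) :=
    tendsto_const_nhds.mul t3'
  rw [mul_zero] at t1 t3
  filter_upwards [t1.eventually (gt_mem_nhds (show (0 : ℝ) < 1 - σ by linarith)),
    t2.eventually (eventually_gt_atTop 8),
    t3.eventually (gt_mem_nhds (show (0 : ℝ) < 1 by norm_num))] with M e1 e2 e3
  refine ⟨e1.le, e2, ?_⟩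
  have hMp : (0 : ℝ) ≤ M := by positivity
  have h12 : 0 < 1 - θ2 := by linarith
  rw [show (1 / (4 * (2 * (M : ℝ) + 1))) ^ 3 = 1 / (4 * (2 * (M : ℝ) + 1)) ^ 3 by rw [div_pow, one_pow],
    le_div_iff₀ (by positivity)]
  have hC : C ≤ |C| := le_abs_self C
  have e4 : (16 * (M : ℝ) + 1) * (4 * (2 * (M : ℝ) + 1)) ^ 3 ≤ (17 * 512) * ((M : ℝ) + 1) ^ 4 := by
    have a1 : 16 * (M : ℝ) + 1 ≤ 17 * (M + 1) := by linarith
    have a2 : 4 * (2 * (M : ℝ) + 1) ≤ 8 * (M + 1) := by linarith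
    have a3 : (4 * (2 * (M : ℝ) + 1)) ^ 3 ≤ (8 * (M + 1)) ^ 3 := pow_le_pow_left₀ (by positivity) a2 3
    calc (16 * (M : ℝ) + 1) * (4 * (2 * (M : ℝ) + 1)) ^ 3 ≤ (17 * (M + 1)) * (8 * (M + 1)) ^ 3 :=
          mul_le_mul a1 a3 (by positivity) (by positivity)
      _ = (17 * 512) * ((M : ℝ) + 1) ^ 4 := by ring
  have e5 : 0 ≤ 6 * 8 ^ 16 * (2 * |C|) / (1 - θ2) * σ ^ (M + 1) := by positivity
  calc (6 * (16 * (M : ℝ) + 1) * 8 ^ 16) * (2 * C * σ ^ (M + 1) / (1 - θ2)) * (4 * (2 * (M : ℝ) + 1)) ^ 3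
      = (6 * 8 ^ 16 * (2 * C) / (1 - θ2) * σ ^ (M + 1)) * ((16 * (M : ℝ) + 1) * (4 * (2 * (M : ℝ) + 1)) ^ 3) := by ring
    _ ≤ (6 * 8 ^ 16 * (2 * |C|) / (1 - θ2) * σ ^ (M + 1)) * ((16 * (M : ℝ) + 1) * (4 * (2 * (M : ℝ) + 1)) ^ 3) := by
        apply mul_le_mul_of_nonneg_right _ (by positivity)
        apply mul_le_mul_of_nonneg_right _ (by positivity)
        apply div_le_div_of_nonneg_right _ h12.le
        linarith
    _ ≤ (6 * 8 ^ 16 * (2 * |C|) / (1 - θ2) * σ ^ (M + 1)) * ((17 * 512) * ((M : ℝ) + 1) ^ 4) :=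
        mul_le_mul_of_nonneg_left e4 e5
    _ = (6 * 8 ^ 16 * (2 * |C|) / (1 - θ2) * (17 * 512)) * (((M + 1 : ℕ) : ℝ) ^ 4 * σ ^ (M + 1)) := by
        push_cast; ring
    _ ≤ 1 := e3.le

/-- Normalised eventual negativity. -/
def EvNeg (x : ℝ) (E : PowerSeries ℝ) : Prop :=
  ∃ R : ℝ, 0 < R ∧ ∀ᶠ k in atTop, coeff k E * x ^ k ≤ -R

theorem EvNeg.neg {x : ℝ} {E : PowerSeries ℝ} (hx : 0 < x) (h : EvNeg x E) :
    ∀ᶠ k in atTop, coeff k E < 0 := by
  obtain ⟨R, hR, h⟩ := h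
  filter_upwards [h] with k hk
  by_contra hcon
  push Not at hcon
  have : 0 ≤ coeff k E * x ^ k := mul_nonneg hcon (by positivity)
  linarith

theorem eventual_neg (M : ℕ) (hM : 2 ≤ M) (q : PowerSeries ℝ) (hq : QAdm M q) (F : Polynomial ℝ)
    (η : ℝ) (hη : 0 < η) (hF : ∀ x : ℝ, 1 < x → x < 1 + η → F.eval x < 0) (hηM : 8 < (1 + η) ^ (M + 1)) :
    ∃ x : ℝ, 1 < x ∧ x ≤ 2 ∧ EvNeg x ((F : PowerSeries ℝ) * (1 - q)⁻¹) := by
  obtain ⟨x, hx1, hx2, hx8, hroot⟩ := hq.root hM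
  refine ⟨x, hx1, hx2, ?_⟩
  have hxη : x < 1 + η := by
    by_contra hcon
    push Not at hcon
    have : (1 + η) ^ (M + 1) ≤ x ^ (M + 1) := pow_le_pow_left₀ (by positivity) hcon _
    linarith
  have hren := hq.renew (by omega) x hx1.le hroot
  have hFx := hF x hx1 hxη
  rw [Polynomial.eval_eq_sum_range] at hFx
  obtain ⟨R, hR, hev⟩ := hren.eventually_neg (fun i => F.coeff i * x ^ i) (F.natDegree + 1) hFx
  refine ⟨R, hR, ?_⟩
  filter_upwards [hev, eventually_ge_atTop F.natDegree] with k hk hkd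
  have h1 : coeff k ((F : PowerSeries ℝ) * (1 - q)⁻¹) * x ^ k =
      ∑ i ∈ range (F.natDegree + 1), F.coeff i * x ^ i * (coeff (k - i) (1 - q)⁻¹ * x ^ (k - i)) := by
    rw [coeff_mul, Finset.Nat.sum_antidiagonal_eq_sum_range_succ_mk, Finset.sum_mul]
    symm
    rw [Finset.sum_congr rfl (g := fun i => coeff i (F : PowerSeries ℝ) * coeff (k - i) (1 - q)⁻¹ * x ^ k)]
    · apply Finset.sum_subset
      · intro i hi
        rw [Finset.mem_range] at *
        omega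
      · intro i hi hi'
        rw [Finset.mem_range] at *
        rw [Polynomial.coeff_coe, Polynomial.coeff_eq_zero_of_natDegree_lt (by omega)]
        ring
    · intro i hi
      rw [Finset.mem_range] at hi
      rw [Polynomial.coeff_coe]
      have : x ^ k = x ^ i * x ^ (k - i) := by rw [← pow_add]; congr 1; omega
      rw [this]
      ring
  rw [h1]
  exact hk

theorem div_mono (E : PowerSeries ℝ) (x : ℝ) (hx : 0 < x) (l : ℕ) (hl : 1 ≤ l) (w : ℝ) (hw : 0 ≤ w)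
    (hwx : w * x ^ l < 1) (h : EvNeg x E) : EvNeg x (E * (1 - C w * X ^ l)⁻¹) := by
  obtain ⟨R, hR, hev⟩ := h
  obtain ⟨k0', hk0'⟩ := eventually_atTop.mp hev
  set k0 := max k0' l with hk0
  set E' := E * (1 - C w * X ^ l)⁻¹ with hE'
  have hinv : (1 - C w * X ^ l : PowerSeries ℝ)⁻¹ * (1 - C w * X ^ l) = 1 := by
    apply PowerSeries.inv_mul_cancel
    rw [map_sub, map_mul, map_pow, constantCoeff_X, zero_pow (by omega), mul_zero, map_one, sub_zero]
    exact one_ne_zero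
  have hmul : E' * (1 - C w * X ^ l) = E := by
    rw [hE', mul_assoc, hinv, mul_one]
  set a : ℕ → ℝ := fun k => coeff k E' * x ^ k with ha
  set β := w * x ^ l with hβ
  have hβ0 : 0 ≤ β := by positivity
  have hrec : ∀ k, k0 ≤ k → a k ≤ -R + β * a (k - l) := by
    intro k hk
    have hlk : l ≤ k := (le_max_right _ _).trans hk
    have h1 := congrArg (coeff k) hmul
    rw [mul_sub, mul_one, map_sub, show E' * (C w * X ^ l) = C w * (E' * X ^ l) by ring, coeff_C_mul,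
      coeff_mul_X_pow', if_pos hlk] at h1
    have h2 := hk0' k ((le_max_left _ _).trans hk)
    rw [← h1] at h2
    have h3 : x ^ k = x ^ l * x ^ (k - l) := by rw [← pow_add]; congr 1; omega
    have h4 : β * a (k - l) = w * coeff (k - l) E' * x ^ k := by rw [hβ, ha, h3]; ring
    rw [h4, ha]
    have h5 : (coeff k E' - w * coeff (k - l) E') * x ^ k = coeff k E' * x ^ k - w * coeff (k - l) E' * x ^ k := by ring
    rw [h5] at h2
    simp only
    linarith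
  obtain ⟨B, hB0, hB⟩ : ∃ B : ℝ, 0 ≤ B ∧ ∀ i, i < k0 → a i ≤ B := by
    refine ⟨∑ i ∈ range k0, |a i|, Finset.sum_nonneg fun i _ => abs_nonneg _, ?_⟩
    intro i hi
    exact (le_abs_self _).trans
      (Finset.single_le_sum (f := fun i => |a i|) (fun j _ => abs_nonneg _) (Finset.mem_range.mpr hi))
  have hall : ∀ i, a i ≤ B := by
    intro i
    induction i using Nat.strong_induction_on with
    | _ i ih =>
      by_cases hi : i < k0
      · exact hB i hi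
      · have h1 := hrec i (by omega)
        have hlk : l ≤ k0 := le_max_right _ _
        have h2 := ih (i - l) (by omega)
        have h3 : β * a (i - l) ≤ β * B := mul_le_mul_of_nonneg_left h2 hβ0
        nlinarith
  have hP : ∀ n, ∀ k, k0 + n * l ≤ k → a k ≤ β ^ n * B := by
    intro n
    induction n with
    | zero => intro k _; simpa using hall k
    | succ n ih =>
      intro k hk
      have hk' : k0 + n * l + l ≤ k := by rw [Nat.add_mul, one_mul] at hk; omega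
      have h1 := hrec k (by omega)
      have h2 := ih (k - l) (by omega)
      have h3 : β * a (k - l) ≤ β * (β ^ n * B) := mul_le_mul_of_nonneg_left h2 hβ0
      rw [pow_succ]
      nlinarith
  have hlim : Tendsto (fun n => β ^ n * B) atTop (𝓝 (0 * B)) :=
    (tendsto_pow_atTop_nhds_zero_of_lt_one hβ0 hwx).mul tendsto_const_nhds
  rw [zero_mul] at hlim
  obtain ⟨n, hn⟩ := (hlim.eventually (gt_mem_nhds (show 0 < R / 2 by linarith))).exists
  refine ⟨R / 2, by linarith, ?_⟩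
  filter_upwards [eventually_ge_atTop (k0 + (n + 1) * l)] with k hk
  have hk' : k0 + n * l + l ≤ k := by rw [Nat.add_mul, one_mul] at hk; omega
  have h1 := hrec k (by omega)
  have h2 := hP n (k - l) (by omega)
  have h3 : β * a (k - l) ≤ β * (β ^ n * B) := mul_le_mul_of_nonneg_left h2 hβ0
  have h4 : 0 ≤ β ^ n * B := by positivity
  have h5 : β * (β ^ n * B) ≤ β ^ n * B := by nlinarith
  have h6 : coeff k E' * x ^ k = a k := rfl
  rw [h6]
  linarith

end Pool.Agent.Helper605
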