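import Mathlib
import Pool.Agent.Helper605.HD
import Pool.Agent.Helper605.MainB
import Pool.Agent.Helper605.Kill

set_option autoImplicit false

namespace Pool.Agent.Helper605

open Finset Filter Topology

/-- Data exist for all large truncation orders. -/
def Good (S : Subring ℝ) (E : PowerSeries ℝ) : Prop :=
  ∃ n1 : ℕ, ∀ n, n1 ≤ n → ∃ a D, HData S n (PowerSeries.trunc (n + 1) E) a D

theorem Good.step {S : Subring ℝ} {E E' : PowerSeries ℝ} (q : Polynomial ℝ) (L : ℕ)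
    (hE : InS S E) (hE' : InS S E') (hqS : ∀ k, q.coeff k ∈ S) (hq : ∀ k, 0 ≤ q.coeff k)
    (hq0 : q.coeff 0 = 0) (hqL : q.natDegree ≤ L) (hmul : E' = (1 - (q : PowerSeries ℝ)) * E)
    (h1 : ∀ᶠ k in atTop, PowerSeries.coeff k E < 0) (h2 : ∀ᶠ k in atTop, PowerSeries.coeff k E' < 0)
    (h : Good S E) : Good S E' := by
  obtain ⟨n1, hn1⟩ := h
  obtain ⟨a1, ha1⟩ := eventually_atTop.mp h1
  obtain ⟨a2, ha2⟩ := eventually_atTop.mp h2
  refine ⟨max (max a1 a2 + L + L) (n1 + L), fun n hn => ?_⟩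
  have b1 : max a1 a2 + L + L ≤ n := (le_max_left _ _).trans hn
  have b2 : n1 + L ≤ n := (le_max_right _ _).trans hn
  obtain ⟨a, D, hD, _⟩ := hdata_extend S (n - L) L (max a1 a2) E E' q hE hE' hqS hq hq0 hqL hmul (by omega)
    (fun k hk => (ha1 k ((le_max_left _ _).trans hk)).le) (fun k hk => (ha2 k ((le_max_right _ _).trans hk)).le)
    (hn1 (n - L) (by omega))
  rw [show n - L + L = n by omega] at hD
  exact ⟨a, D, hD⟩

theorem evNeg_list (E : PowerSeries ℝ) (y : ℝ) (hy : 0 < y) (h : EvNeg y E) (l : List (ℕ × ℝ))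
    (hl : ∀ p ∈ l, 1 ≤ p.1 ∧ 0 ≤ p.2 ∧ p.2 * y ^ p.1 < 1) : EvNeg y (E * (Jprod l)⁻¹) := by
  induction l with
  | nil => simpa [Jprod] using h
  | cons p l ih =>
    have h1 := ih (fun p' hp' => hl p' (by simp [hp']))
    obtain ⟨a1, a2, a3⟩ := hl p (by simp)
    have h2 := div_mono _ y hy p.1 a1 p.2 a2 a3 h1
    have h4 : Jprod (p :: l) = (1 - PowerSeries.C p.2 * PowerSeries.X ^ p.1) * Jprod l := by simp [Jprod]
    rw [h4, PowerSeries.mul_inv_rev, ← mul_assoc]
    exact h2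

theorem good_list (S : Subring ℝ) (E : PowerSeries ℝ) (hES : InS S E) (y : ℝ) (hy : 0 < y) (h : EvNeg y E)
    (l : List (ℕ × ℝ)) (hl : ∀ p ∈ l, 1 ≤ p.1 ∧ p.2 ∈ S ∧ 0 ≤ p.2 ∧ p.2 * y ^ p.1 < 1)
    (hg : Good S (E * (Jprod l)⁻¹)) : Good S E := by
  induction l with
  | nil => simpa [Jprod] using hg
  | cons p l ih =>
    apply ih (fun p' hp' => hl p' (by simp [hp']))
    have hl1 : ∀ p' ∈ l, 1 ≤ p'.1 := fun p' hp' => (hl p' (by simp [hp'])).1
    have hl1' : ∀ p' ∈ p :: l, 1 ≤ p'.1 := fun p' hp' => (hl p' hp').1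
    obtain ⟨a1, a2, a3, a4⟩ := hl p (by simp)
    have hE1 := evNeg_list E y hy h l (fun p' hp' => by
      obtain ⟨b1, b2, b3, b4⟩ := hl p' (by simp [hp']); exact ⟨b1, b3, b4⟩)
    have hE2 := evNeg_list E y hy h (p :: l) (fun p' hp' => by
      obtain ⟨b1, b2, b3, b4⟩ := hl p' hp'; exact ⟨b1, b3, b4⟩)
    have hS1 : InS S (E * (Jprod l)⁻¹) :=
      hES.mul ((Jprod_inS S l (fun p' hp' => (hl p' (by simp [hp'])).2.1)).inv (Jprod_coeff_zero l hl1))
    have hS2 : InS S (E * (Jprod (p :: l))⁻¹) :=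
      hES.mul ((Jprod_inS S (p :: l) (fun p' hp' => (hl p' hp').2.1)).inv (Jprod_coeff_zero (p :: l) hl1'))
    refine Good.step (Polynomial.C p.2 * Polynomial.X ^ p.1) p.1 hS2 hS1 ?_ ?_ ?_ ?_ ?_ (hE2.neg hy) (hE1.neg hy) hg
    · intro k
      rw [Polynomial.coeff_C_mul, Polynomial.coeff_X_pow]
      split_ifs
      · simpa using a2
      · simpa using S.zero_mem
    · intro k
      rw [Polynomial.coeff_C_mul, Polynomial.coeff_X_pow]
      split_ifs
      · simpa using a3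
      · simp
    · rw [Polynomial.coeff_C_mul, Polynomial.coeff_X_pow, if_neg (by omega), mul_zero]
    · exact Polynomial.natDegree_C_mul_X_pow_le _ _
    · have h4 : Jprod (p :: l) = (1 - PowerSeries.C p.2 * PowerSeries.X ^ p.1) * Jprod l := by simp [Jprod]
      have hinv : (1 - PowerSeries.C p.2 * PowerSeries.X ^ p.1 : PowerSeries ℝ)⁻¹ *
          (1 - PowerSeries.C p.2 * PowerSeries.X ^ p.1) = 1 := by
        apply PowerSeries.inv_mul_cancel
        rw [map_sub, map_mul, map_pow, PowerSeries.constantCoeff_X, zero_pow (by omega), mul_zero, map_one, sub_zero]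
        exact one_ne_zero
      rw [h4, PowerSeries.mul_inv_rev]
      have h5 : (((Polynomial.C p.2 * Polynomial.X ^ p.1 : Polynomial ℝ)) : PowerSeries ℝ) =
          PowerSeries.C p.2 * PowerSeries.X ^ p.1 := by simp
      rw [h5]
      calc E * (Jprod l)⁻¹ = E * (Jprod l)⁻¹ * ((1 - PowerSeries.C p.2 * PowerSeries.X ^ p.1 : PowerSeries ℝ)⁻¹ *
          (1 - PowerSeries.C p.2 * PowerSeries.X ^ p.1)) := by rw [hinv, mul_one]
        _ = _ := by ring

/-- The algebraic reduction: from a factorisation to a primitive matrix. -/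
theorem reduction (S : Subring ℝ) (F : Polynomial ℝ) (hFS : ∀ k, F.coeff k ∈ S) (hF0 : F.coeff 0 = 1)
    (q : Polynomial ℝ) (L : ℕ) (hL : 2 ≤ L) (hqS : ∀ k, q.coeff k ∈ S) (hq : ∀ k, 0 ≤ q.coeff k)
    (hq0 : q.coeff 0 = 0) (hqL : q.natDegree ≤ L) (hqpos : 0 < q.coeff L)
    (l : List (ℕ × ℝ)) (y : ℝ) (hy : 0 < y)
    (hl : ∀ p ∈ l, 1 ≤ p.1 ∧ p.2 ∈ S ∧ 0 ≤ p.2 ∧ p.2 * y ^ p.1 < 1)
    (hev : EvNeg y ((F : PowerSeries ℝ) * (1 - (q : PowerSeries ℝ))⁻¹))
    (hneg : ∀ k, 1 ≤ k → PowerSeries.coeff k ((F : PowerSeries ℝ) * (1 - (q : PowerSeries ℝ))⁻¹ * (Jprod l)⁻¹) ≤ 0) :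
    ∃ (n : ℕ) (A : Matrix (Fin n) (Fin n) ℝ), (∀ i j, A i j ∈ S) ∧ A.IsPrimitive ∧
      A.charpoly = Polynomial.reflect n F ∧ F.natDegree ≤ n := by
  have hq1 : PowerSeries.coeff 0 (1 - (q : PowerSeries ℝ)) = 1 := by
    rw [map_sub, Polynomial.coeff_coe, hq0]; simp
  have hqc : PowerSeries.constantCoeff (1 - (q : PowerSeries ℝ)) ≠ 0 := by
    rw [← PowerSeries.coeff_zero_eq_constantCoeff_apply, hq1]; exact one_ne_zero
  have hqIn : InS S (1 - (q : PowerSeries ℝ)) := by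
    apply InS.one.sub
    intro k
    rw [Polynomial.coeff_coe]; exact hqS k
  have hFIn : InS S (F : PowerSeries ℝ) := by
    intro k
    rw [Polynomial.coeff_coe]; exact hFS k
  set E := (F : PowerSeries ℝ) * (1 - (q : PowerSeries ℝ))⁻¹ with hE
  have hES : InS S E := hFIn.mul (hqIn.inv hq1)
  have hl1 : ∀ p ∈ l, 1 ≤ p.1 := fun p hp => (hl p hp).1
  have hbase : Good S (E * (Jprod l)⁻¹) := by
    have hS1 : InS S (E * (Jprod l)⁻¹) :=
      hES.mul ((Jprod_inS S l (fun p' hp' => (hl p' hp').2.1)).inv (Jprod_coeff_zero l hl1))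
    have h0 : PowerSeries.coeff 0 (E * (Jprod l)⁻¹) = 1 := by
      have hinv : ∀ G : PowerSeries ℝ, PowerSeries.coeff 0 G = 1 → PowerSeries.coeff 0 G⁻¹ = 1 := by
        intro G hG
        rw [PowerSeries.coeff_zero_eq_constantCoeff_apply] at *
        rw [PowerSeries.constantCoeff_inv, hG, inv_one]
      rw [PowerSeries.coeff_mul, Finset.Nat.antidiagonal_zero, Finset.sum_singleton, hinv _ (Jprod_coeff_zero l hl1),
        mul_one, hE, PowerSeries.coeff_mul, Finset.Nat.antidiagonal_zero, Finset.sum_singleton, hinv _ hq1,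
        Polynomial.coeff_coe, hF0, mul_one]
    exact ⟨0, fun n _ => hdata_base S _ hS1 h0 hneg n⟩
  have hgood : Good S E := good_list S E hES y hy hev l hl hbase
  obtain ⟨n1, hn1⟩ := hgood
  obtain ⟨a1, ha1⟩ := eventually_atTop.mp (hev.neg hy)
  set n0 := max a1 (F.natDegree + 1) with hn0
  set n := max n1 (n0 + L) with hn
  have hFE : (F : PowerSeries ℝ) = (1 - (q : PowerSeries ℝ)) * E := by
    rw [hE, mul_comm (F : PowerSeries ℝ), ← mul_assoc, PowerSeries.mul_inv_cancel _ hqc, one_mul]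
  obtain ⟨a, D, hD, hpos⟩ := hdata_extend S n L n0 E F q hES hFIn hqS hq hq0 hqL hFE (le_max_right _ _)
    (fun k hk => (ha1 k ((le_max_left _ _).trans hk)).le)
    (fun k hk => by
      rw [Polynomial.coeff_coe, Polynomial.coeff_eq_zero_of_natDegree_lt]
      have := (le_max_right a1 (F.natDegree + 1)).trans hk
      omega)
    (hn1 n (le_max_left _ _))
  have hpos' := hpos (fun k hk => ha1 k ((le_max_left _ _).trans hk)) hqpos
  have hnd : F.natDegree < n := by
    have h1 : n0 + L ≤ n := le_max_right _ _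
    have h2 : F.natDegree + 1 ≤ n0 := le_max_right _ _
    omega
  rw [PowerSeries.trunc_coe_eq_self (by omega)] at hD
  have hchar := hD.charpoly
  obtain ⟨m, hm⟩ : ∃ m, n + L = m + 2 := ⟨n + L - 2, by omega⟩
  have hprim := hess_primitive a m hD.nonneg (hpos' (m + 1) (by omega) (by omega)) (hpos' m (by omega) (by omega))
  rw [hm] at hchar
  refine ⟨m + 2, hess a (m + 2), ?_, hprim, hchar, by omega⟩
  intro i j
  simp only [hess, Matrix.of_apply]
  split_ifs
  · exact S.one_mem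
  · exact hD.memS _ _
  · exact S.zero_mem

end Pool.Agent.Helper605
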