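import Mathlib
import Pool.Agent.Helper605.Red

set_option autoImplicit false

namespace Pool.Agent.Helper605

open Finset Filter Topology

theorem exists_theta (s : Multiset ℂ) (r : ℝ) (hr : 0 < r) (h : ∀ z ∈ s, ‖z‖ < r) :
    ∃ θ : ℝ, 0 < θ ∧ θ < 1 ∧ ∀ z ∈ s, ‖z‖ ≤ θ * r := by
  induction s using Multiset.induction_on with
  | empty => exact ⟨1 / 2, by norm_num, by norm_num, by simp⟩
  | cons a s ih =>
    obtain ⟨θ, h0, h1, h2⟩ := ih (fun z hz => h z (Multiset.mem_cons_of_mem hz))
    have ha := h a (Multiset.mem_cons_self a s)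
    refine ⟨max θ (‖a‖ / r), lt_max_of_lt_left h0, max_lt h1 ((div_lt_one hr).mpr ha), ?_⟩
    intro z hz
    rcases Multiset.mem_cons.mp hz with rfl | hz
    · calc ‖z‖ = ‖z‖ / r * r := by field_simp
        _ ≤ max θ (‖z‖ / r) * r := mul_le_mul_of_nonneg_right (le_max_right _ _) hr.le
    · exact (h2 z hz).trans (mul_le_mul_of_nonneg_right (le_max_left _ _) hr.le)

theorem isLD_multiset (s : Multiset ℂ) :
    IsLD ((s.map fun z => (1 - PowerSeries.C z * PowerSeries.X : PowerSeries ℂ)).prod)
      (PowerSeries.mk fun k => if k = 0 then 0 else (s.map fun z => z ^ k).sum) := by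
  induction s using Multiset.induction_on with
  | empty =>
    have : (PowerSeries.mk fun k => if k = 0 then 0 else ((0 : Multiset ℂ).map fun z => z ^ k).sum) =
        (0 : PowerSeries ℂ) := by
      ext k; simp
    rw [this]
    simpa using IsLD.one
  | cons a s ih =>
    have h1 := isLD_one_sub_monomial 1 le_rfl a
    have h2 := h1.mul ih
    rw [Multiset.map_cons, Multiset.prod_cons]
    convert h2 using 1
    · rw [pow_one]
    · ext k
      rw [map_add, PowerSeries.coeff_mk, PowerSeries.coeff_mk, PowerSeries.coeff_mk]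
      by_cases hk : k = 0
      · subst hk; simp
      · rw [if_neg hk, if_neg hk, if_pos ⟨hk, one_dvd k⟩]
        simp

theorem reflect_multiset (s : Multiset ℂ) :
    Polynomial.reflect (Multiset.card s) ((s.map fun z => (Polynomial.X - Polynomial.C z : Polynomial ℂ)).prod) =
      (s.map fun z => (1 - Polynomial.C z * Polynomial.X : Polynomial ℂ)).prod := by
  induction s using Multiset.induction_on with
  | empty => simp
  | cons a s ih =>
    rw [Multiset.map_cons, Multiset.prod_cons, Multiset.map_cons, Multiset.prod_cons, Multiset.card_cons,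
      add_comm (Multiset.card s) 1, Polynomial.reflect_mul _ _ (F := 1) (G := Multiset.card s), ih]
    · congr 1
      rw [Polynomial.reflect_sub, Polynomial.reflect_one_X, Polynomial.reflect_C, pow_one]
    · exact Polynomial.natDegree_X_sub_C_le a
    · rw [Polynomial.natDegree_multiset_prod_X_sub_C_eq_card]

theorem IsLD.map_complex {f l : PowerSeries ℝ} (h : IsLD f l) :
    IsLD (PowerSeries.map (algebraMap ℝ ℂ) f) (PowerSeries.map (algebraMap ℝ ℂ) l) := by
  apply isLD_of_coeff
  intro k
  have h1 := congrArg (algebraMap ℝ ℂ) (h.coeff_eq k)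
  rw [map_mul, map_natCast, map_neg, map_sum] at h1
  simp only [PowerSeries.coeff_map]
  rw [h1]
  simp only [map_mul]

theorem IsLD.rescale {f l : PowerSeries ℝ} (h : IsLD f l) (a : ℝ) :
    IsLD (PowerSeries.rescale a f) (PowerSeries.rescale a l) := by
  apply isLD_of_coeff
  intro k
  have h1 := h.coeff_eq k
  rw [PowerSeries.coeff_rescale]
  calc (k : ℝ) * (a ^ k * PowerSeries.coeff k f) = a ^ k * ((k : ℝ) * PowerSeries.coeff k f) := by ring
    _ = - ∑ x ∈ antidiagonal k, a ^ k * (PowerSeries.coeff x.1 l * PowerSeries.coeff x.2 f) := by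
        rw [h1, ← Finset.mul_sum]; ring
    _ = _ := by
        congr 1
        apply Finset.sum_congr rfl
        intro x hx
        rw [Finset.HasAntidiagonal.mem_antidiagonal] at hx
        rw [PowerSeries.coeff_rescale, PowerSeries.coeff_rescale, ← hx, pow_add]
        ring

theorem rescale_inv (a : ℝ) (f : PowerSeries ℝ) (hf : PowerSeries.constantCoeff f ≠ 0) :
    PowerSeries.rescale a f⁻¹ = (PowerSeries.rescale a f)⁻¹ := by
  have hf' : PowerSeries.constantCoeff (PowerSeries.rescale a f) ≠ 0 := by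
    rw [← PowerSeries.coeff_zero_eq_constantCoeff_apply, PowerSeries.coeff_rescale, pow_zero, one_mul,
      PowerSeries.coeff_zero_eq_constantCoeff_apply]
    exact hf
  rw [PowerSeries.eq_inv_iff_mul_eq_one hf', ← map_mul, PowerSeries.inv_mul_cancel _ hf, map_one]

/-- Negativity of the reversed polynomial just after its first zero. -/
theorem eval_neg (s : Multiset ℂ) (r θ : ℝ) (hr : 0 < r) (hθ0 : 0 < θ) (hs : ∀ z ∈ s, ‖z‖ ≤ θ * r)
    (F : Polynomial ℝ)
    (hF : F.map (algebraMap ℝ ℂ) = (((r : ℂ) ::ₘ s).map fun z => (1 - Polynomial.C z * Polynomial.X : Polynomial ℂ)).prod)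
    (y : ℝ) (hy1 : 1 / r < y) (hy2 : y < 1 / (θ * r)) : F.eval y < 0 := by
  have hinj : Function.Injective (algebraMap ℝ ℂ) := (algebraMap ℝ ℂ).injective
  set H := (s.map fun z => (1 - Polynomial.C z * Polynomial.X : Polynomial ℂ)).prod with hH
  rw [Multiset.map_cons, Multiset.prod_cons, ← hH] at hF
  have hroot : F.eval (1 / r) = 0 := by
    have h1 : (F.map (algebraMap ℝ ℂ)).eval ((1 / r : ℝ) : ℂ) = 0 := by
      rw [hF, Polynomial.eval_mul]
      have hr' : (r : ℂ) ≠ 0 := by exact_mod_cast hr.ne'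
      have : (1 - Polynomial.C (r : ℂ) * Polynomial.X : Polynomial ℂ).eval ((1 / r : ℝ) : ℂ) = 0 := by
        rw [Polynomial.eval_sub, Polynomial.eval_one, Polynomial.eval_mul, Polynomial.eval_C, Polynomial.eval_X]
        push_cast
        rw [mul_one_div_cancel hr', sub_self]
      rw [this, zero_mul]
    have h2 : (F.map (algebraMap ℝ ℂ)).eval ((1 / r : ℝ) : ℂ) = ((F.eval (1 / r) : ℝ) : ℂ) := by
      rw [Polynomial.eval_map]
      exact Polynomial.eval₂_at_apply (algebraMap ℝ ℂ) (1 / r)
    rw [h2] at h1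
    exact_mod_cast h1
  obtain ⟨G, hG⟩ := Polynomial.dvd_iff_isRoot.mpr hroot
  have hGC : G.map (algebraMap ℝ ℂ) = Polynomial.C (-(r : ℂ)) * H := by
    have h1 := congrArg (Polynomial.map (algebraMap ℝ ℂ)) hG
    rw [hF, Polynomial.map_mul, Polynomial.map_sub, Polynomial.map_X, Polynomial.map_C] at h1
    have hne : (Polynomial.X - Polynomial.C ((algebraMap ℝ ℂ) (1 / r)) : Polynomial ℂ) ≠ 0 :=
      Polynomial.X_sub_C_ne_zero _
    apply mul_left_cancel₀ hne
    rw [← h1]
    have h3 : (1 - Polynomial.C (r : ℂ) * Polynomial.X : Polynomial ℂ) =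
        (Polynomial.X - Polynomial.C ((algebraMap ℝ ℂ) (1 / r))) * Polynomial.C (-(r : ℂ)) := by
      have h4 : (Polynomial.C ((algebraMap ℝ ℂ) (1 / r)) * Polynomial.C (-(r : ℂ)) : Polynomial ℂ) = -1 := by
        rw [← Polynomial.C_mul]
        have : (algebraMap ℝ ℂ) (1 / r) * -(r : ℂ) = -1 := by
          have hr' : (r : ℂ) ≠ 0 := by exact_mod_cast hr.ne'
          simp
          field_simp
        rw [this]; simp
      rw [sub_mul, h4, Polynomial.C_neg]
      ring
    rw [h3]
    ring
  have hGeval : ∀ t : ℝ, ((G.eval t : ℝ) : ℂ) = -(r : ℂ) * H.eval (t : ℂ) := by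
    intro t
    have h2 : (G.map (algebraMap ℝ ℂ)).eval (t : ℂ) = ((G.eval t : ℝ) : ℂ) := by
      rw [Polynomial.eval_map]
      exact Polynomial.eval₂_at_apply (algebraMap ℝ ℂ) t
    rw [← h2, hGC, Polynomial.eval_mul, Polynomial.eval_C]
  have hHne : ∀ t : ℝ, 0 ≤ t → t < 1 / (θ * r) → H.eval (t : ℂ) ≠ 0 := by
    intro t ht0 ht1
    rw [hH, Polynomial.eval_multiset_prod, Multiset.map_map]
    apply Multiset.prod_ne_zero
    intro h0
    rw [Multiset.mem_map] at h0
    obtain ⟨z, hz, hz0⟩ := h0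
    simp only [Function.comp, Polynomial.eval_sub, Polynomial.eval_one, Polynomial.eval_mul, Polynomial.eval_C,
      Polynomial.eval_X] at hz0
    have h1 : z * (t : ℂ) = 1 := (sub_eq_zero.mp hz0).symm
    have h2 : ‖z * (t : ℂ)‖ < 1 := by
      rw [norm_mul, Complex.norm_real, Real.norm_of_nonneg ht0]
      have h3 := hs z hz
      calc ‖z‖ * t ≤ θ * r * t := mul_le_mul_of_nonneg_right h3 ht0
        _ < 1 := by rwa [lt_div_iff₀ (by positivity), mul_comm] at ht1
    rw [h1, norm_one] at h2
    exact lt_irrefl _ h2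
  have hGne : ∀ t : ℝ, 0 ≤ t → t < 1 / (θ * r) → G.eval t ≠ 0 := by
    intro t ht0 ht1 h0
    have h1 := hGeval t
    rw [h0] at h1
    have h2 : -(r : ℂ) * H.eval (t : ℂ) ≠ 0 :=
      mul_ne_zero (by simpa using hr.ne') (hHne t ht0 ht1)
    exact h2 (by rw [← h1]; simp)
  have hG0 : G.eval 0 < 0 := by
    have h1 := hGeval 0
    have h2 : H.eval ((0 : ℝ) : ℂ) = 1 := by
      rw [hH, Polynomial.eval_multiset_prod, Multiset.map_map]
      apply Multiset.prod_eq_one
      intro x hx
      rw [Multiset.mem_map] at hx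
      obtain ⟨z, _, rfl⟩ := hx
      simp
    rw [h2, mul_one] at h1
    have h3 : G.eval 0 = -r := by exact_mod_cast h1
    rw [h3]; linarith
  have hGy : G.eval y < 0 := by
    by_contra hcon
    push Not at hcon
    have hy0 : 0 ≤ y := by
      have : 0 < 1 / r := by positivity
      linarith
    have hcont : ContinuousOn (fun t : ℝ => G.eval t) (Set.Icc 0 y) := G.continuous.continuousOn
    obtain ⟨t, ht, ht0⟩ := intermediate_value_Icc hy0 hcont (show (0 : ℝ) ∈ Set.Icc (G.eval 0) (G.eval y) from ⟨hG0.le, hcon⟩)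
    exact hGne t ht.1 (lt_of_le_of_lt ht.2 hy2) ht0
  rw [hG, Polynomial.eval_mul, Polynomial.eval_sub, Polynomial.eval_X, Polynomial.eval_C]
  exact mul_neg_of_pos_of_neg (by linarith) hGy

end Pool.Agent.Helper605
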