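import Mathlib
import Pool.Agent.Helper605.Kill

set_option autoImplicit false
set_option linter.all false

namespace Pool.Agent.Helper605

open PowerSeries Finset Filter Topology

/-- Net traces. -/
noncomputable def net (τ : PowerSeries ℝ) (m : ℕ) : ℝ :=
  ∑ k ∈ m.divisors, ((ArithmeticFunction.moebius (m / k) : ℤ) : ℝ) * coeff k τ

theorem sum_net (τ : PowerSeries ℝ) (k : ℕ) (hk : 0 < k) : ∑ j ∈ k.divisors, net τ j = coeff k τ := by
  have h := (ArithmeticFunction.sum_eq_iff_sum_mul_moebius_eq (f := net τ) (g := fun k => coeff k τ)).mpr (by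
    intro n hn
    rw [net, ← Nat.sum_divisorsAntidiagonal' (fun i j => ((ArithmeticFunction.moebius i : ℤ) : ℝ) * coeff j τ)])
  exact h k hk

theorem jsum_zero (l : List (ℕ × ℝ)) : jsum l 0 = 0 := by
  apply List.sum_eq_zero
  intro y hy
  rw [List.mem_map] at hy
  obtain ⟨p, hp, rfl⟩ := hy
  rw [jterm, if_neg (by simp)]

theorem killZ (F : PowerSeries ℝ) (hFS : InS ⊥ F) (hF0 : coeff 0 F = 1)
    (τ : PowerSeries ℝ) (hτ : IsLD F τ) (hτ0 : coeff 0 τ = 0) (hnet : ∀ m, 0 < m → 0 ≤ net τ m) :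
    ∀ n, ∃ l : List (ℕ × ℝ),
      (∀ p ∈ l, 1 ≤ p.1 ∧ p.1 ≤ n ∧ p.2 = 1) ∧
      ∀ k, 1 ≤ k → jsum l k = ∑ j ∈ k.divisors.filter (· ≤ n), net τ j := by
  intro n
  induction n with
  | zero =>
    refine ⟨[], by simp, fun k h1 => ?_⟩
    have : k.divisors.filter (· ≤ 0) = ∅ := by
      rw [Finset.filter_eq_empty_iff]
      intro j hj
      have := Nat.pos_of_mem_divisors hj
      omega
    rw [this]
    simp [jsum]
  | succ n ih =>
    obtain ⟨l, hl, hlk⟩ := ih
    have hlk' : ∀ k, 1 ≤ k → k ≤ n → jsum l k = coeff k τ := by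
      intro k h1 h2
      rw [hlk k h1, Finset.filter_true_of_mem, sum_net τ k h1]
      intro j hj
      exact (Nat.divisor_le hj).trans h2
    have hlk1 : jsum l (n + 1) = coeff (n + 1) τ - net τ (n + 1) := by
      rw [hlk (n + 1) (by omega), ← sum_net τ (n + 1) (by omega)]
      have : (n + 1).divisors = insert (n + 1) ((n + 1).divisors.filter (· ≤ n)) := by
        ext j
        rw [Finset.mem_insert, Finset.mem_filter]
        constructor
        · intro hj
          have := Nat.divisor_le hj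
          by_cases h : j = n + 1
          · left; exact h
          · right; exact ⟨hj, by omega⟩
        · rintro (h | h)
          · rw [h]; exact Nat.mem_divisors_self _ (by omega)
          · exact h.1
      conv_rhs => rw [this]
      rw [Finset.sum_insert (by simp)]
      ring
    have hl1 : ∀ p ∈ l, 1 ≤ p.1 := fun p hp => (hl p hp).1
    have hJ := Jprod_isLD l hl1
    have hJ0 := Jprod_coeff_zero l hl1
    have hJc : constantCoeff (Jprod l) ≠ 0 := by
      rw [← coeff_zero_eq_constantCoeff_apply, hJ0]; exact one_ne_zero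
    have hJS := Jprod_inS ⊥ l (fun p hp => by rw [(hl p hp).2.2]; exact Subring.one_mem _)
    set G := F * (Jprod l)⁻¹ with hG
    have hGS : InS ⊥ G := hFS.mul (hJS.inv hJ0)
    have hJG : Jprod l * G = F := by
      rw [hG, mul_comm F, ← mul_assoc, PowerSeries.mul_inv_cancel _ hJc, one_mul]
    have hJne : Jprod l ≠ 0 := by
      intro h
      rw [h] at hJ0
      simp at hJ0
    have hGLD : IsLD G (τ - PowerSeries.mk (jsum l)) := by
      apply hJ.cancel _ hJne
      rw [hJG]; exact hτ
    have hG0 : coeff 0 G = 1 := by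
      have h1 := congrArg (coeff 0) hJG
      rw [coeff_mul, Finset.Nat.antidiagonal_zero, Finset.sum_singleton, hJ0, one_mul, hF0] at h1
      exact h1
    have hl0 : coeff 0 (τ - PowerSeries.mk (jsum l)) = 0 := by
      rw [map_sub, coeff_mk, hτ0, jsum_zero, sub_zero]
    have hGn : (((n + 1 : ℕ)) : ℝ) * coeff (n + 1) G = - net τ (n + 1) := by
      rw [hGLD.coeff_range hl0 (n + 1), Finset.sum_range_succ', Finset.sum_eq_zero]
      · rw [hG0, map_sub, coeff_mk, Nat.sub_zero, hlk1]; ring
      · intro j hj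
        rw [Finset.mem_range] at hj
        rw [map_sub, coeff_mk, hlk' (n + 1 - (j + 1)) (by omega) (by omega), sub_self, zero_mul]
    obtain ⟨e, he⟩ := Subring.mem_bot.mp ((⊥ : Subring ℝ).neg_mem (hGS (n + 1)))
    have hn1 : (0 : ℝ) < ((n + 1 : ℕ) : ℝ) := by positivity
    have he1 : ((n + 1 : ℕ) : ℝ) * (e : ℝ) = net τ (n + 1) := by
      have : (e : ℝ) = - coeff (n + 1) G := he
      rw [this]; linarith
    have he0 : 0 ≤ e := by
      have h1 := hnet (n + 1) (by omega)
      rw [← he1] at h1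
      have h2 : 0 ≤ (e : ℝ) := nonneg_of_mul_nonneg_right h1 hn1
      exact_mod_cast h2
    obtain ⟨a, rfl⟩ := Int.eq_ofNat_of_zero_le he0
    rw [Int.cast_natCast] at he1
    refine ⟨List.replicate a (n + 1, 1) ++ l, ?_, ?_⟩
    · intro p hp
      rw [List.mem_append] at hp
      rcases hp with hp | hp
      · have := List.eq_of_mem_replicate hp
        subst this
        exact ⟨by simp, le_rfl, rfl⟩
      · obtain ⟨a1, a2, a3⟩ := hl p hp
        exact ⟨a1, by omega, a3⟩
    · intro k hk1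
      have h1 : jsum (List.replicate a (n + 1, 1) ++ l) k = a * jterm (n + 1, 1) k + jsum l k := by
        simp [jsum, List.map_append, List.sum_append, List.map_replicate, List.sum_replicate]
      rw [h1, hlk k hk1, jterm]
      by_cases hdiv : (n + 1) ∣ k
      · rw [if_pos ⟨by omega, hdiv⟩, one_pow, mul_one, mul_comm (a : ℝ), he1]
        have : k.divisors.filter (· ≤ n + 1) = insert (n + 1) (k.divisors.filter (· ≤ n)) := by
          ext j
          rw [Finset.mem_insert, Finset.mem_filter, Finset.mem_filter]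
          constructor
          · rintro ⟨hj, hj'⟩
            by_cases h : j = n + 1
            · left; exact h
            · right; exact ⟨hj, by omega⟩
          · rintro (h | h)
            · rw [h]; exact ⟨Nat.mem_divisors.mpr ⟨hdiv, by omega⟩, le_rfl⟩
            · exact ⟨h.1, by omega⟩
        rw [this, Finset.sum_insert (by simp)]
      · rw [if_neg (fun h => hdiv h.2), mul_zero, zero_add]
        apply Finset.sum_congr _ (fun _ _ => rfl)
        ext j
        rw [Finset.mem_filter, Finset.mem_filter]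
        constructor
        · rintro ⟨hj, hj'⟩; exact ⟨hj, by omega⟩
        · rintro ⟨hj, hj'⟩
          refine ⟨hj, ?_⟩
          by_contra hcon
          have : j = n + 1 := by omega
          subst this
          exact hdiv (Nat.dvd_of_mem_divisors hj)

/-- The list to kill the low traces together with uniform tail estimates. -/
theorem kill_all (S : Subring ℝ) (r : ℝ) (hr : 0 < r) (hr1 : S = ⊥ → 1 < r) (F : PowerSeries ℝ) (hFS : InS S F)
    (hF0 : coeff 0 F = 1) (τ : PowerSeries ℝ) (hτ : IsLD F τ) (hτ0 : coeff 0 τ = 0)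
    (c θ0 : ℝ) (hc : 0 ≤ c) (hθ0 : 0 < θ0) (hθ01 : θ0 < 1)
    (hτb : ∀ k, 1 ≤ k → |coeff k τ - r ^ k| ≤ c * (θ0 * r) ^ k)
    (hbot : S = ⊥ → ∀ m, 0 < m → 0 ≤ net τ m)
    (hdense : S ≠ ⊥ → ∀ m, 0 < m → 0 ≤ coeff m τ ∧ ∀ k, 0 < k → 0 < coeff m τ → 0 < coeff (m * k) τ)
    (ρ : ℝ) (hρ : 0 < ρ) (hρ1 : S = ⊥ → ρ < 1) :
    ∃ C θ : ℝ, 0 ≤ C ∧ 0 < θ ∧ θ < 1 ∧ ∀ M : ℕ, ∃ l : List (ℕ × ℝ),
      (∀ p ∈ l, 1 ≤ p.1 ∧ p.2 ∈ S ∧ 0 ≤ p.2 ∧ p.2 * ρ ^ p.1 < 1) ∧
      (∀ k, 1 ≤ k → k ≤ M → jsum l k = coeff k τ) ∧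
      (∀ k, M < k → |coeff k τ - jsum l k - r ^ k| ≤ C * (θ * r) ^ k) := by
  by_cases hS : S = ⊥
  · -- the integral case
    subst hS
    have hr1' := hr1 rfl
    have hρ1' := hρ1 rfl
    have hnet := hbot rfl
    have hsq : 1 < Real.sqrt r := by rw [Real.lt_sqrt (by norm_num)]; linarith
    have hsq0 : 0 < Real.sqrt r := by linarith
    have hsqr : Real.sqrt r * Real.sqrt r = r := Real.mul_self_sqrt hr.le
    set θ1 : ℝ := (1 + 1 / Real.sqrt r) / 2 with hθ1
    have hsi : 1 / Real.sqrt r < 1 := by rw [div_lt_one hsq0]; exact hsq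
    have hsi0 : 0 < 1 / Real.sqrt r := by positivity
    have hθ1a : 1 / Real.sqrt r < θ1 := by rw [hθ1]; linarith
    have hθ1b : θ1 < 1 := by rw [hθ1]; linarith
    have hθ1p : 0 < θ1 := hsi0.trans hθ1a
    set σ : ℝ := 1 / Real.sqrt r / θ1 with hσ
    have hσ0 : 0 < σ := by positivity
    have hσ1 : σ < 1 := (div_lt_one hθ1p).mpr hθ1a
    obtain ⟨B, hB⟩ : ∃ B : ℝ, ∀ k : ℕ, (k : ℝ) ^ 1 * σ ^ k ≤ B := by
      have h1 := tendsto_pow_const_mul_const_pow_of_abs_lt_one 1 (show |σ| < 1 by rw [abs_of_pos hσ0]; exact hσ1)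
      obtain ⟨B, hB⟩ := h1.bddAbove_range
      exact ⟨B, fun k => hB ⟨k, rfl⟩⟩
    have hB0 : 0 ≤ B := by have := hB 0; simpa using this
    have hτle : ∀ k, 1 ≤ k → coeff k τ ≤ (1 + c) * r ^ k := by
      intro k hk
      have h1 := (abs_le.mp (hτb k hk)).2
      have h2 : (θ0 * r) ^ k ≤ r ^ k := by
        apply pow_le_pow_left₀ (by positivity)
        nlinarith
      nlinarith
    have hnetle : ∀ j, 1 ≤ j → net τ j ≤ (1 + c) * r ^ j := by
      intro j hj
      refine le_trans ?_ (hτle j hj)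
      rw [← sum_net τ j hj]
      exact Finset.single_le_sum (f := fun j => net τ j) (fun i hi => hnet i (Nat.pos_of_mem_divisors hi))
        (Nat.mem_divisors_self j (by omega))
    refine ⟨c + (1 + c) * B, max θ0 θ1, by positivity, lt_max_of_lt_left hθ0, max_lt hθ01 hθ1b, ?_⟩
    intro M
    obtain ⟨l, hl, hlk⟩ := killZ F hFS hF0 τ hτ hτ0 hnet M
    refine ⟨l, ?_, ?_, ?_⟩
    · intro p hp
      obtain ⟨h1, h2, h3⟩ := hl p hp
      refine ⟨h1, ?_, ?_, ?_⟩
      · rw [h3]; exact Subring.one_mem _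
      · rw [h3]; norm_num
      · rw [h3, one_mul]
        exact pow_lt_one₀ hρ.le hρ1' (by omega)
    · intro k hk1 hk2
      rw [hlk k hk1, Finset.filter_true_of_mem, sum_net τ k hk1]
      intro j hj
      exact (Nat.divisor_le hj).trans hk2
    · intro k hk
      have hk1 : 1 ≤ k := by omega
      have h1 := hτb k hk1
      have h2 : 0 ≤ jsum l k := jsum_nonneg l (fun p hp => by rw [(hl p hp).2.2]; norm_num) k
      have h3 : jsum l k ≤ k * ((1 + c) * Real.sqrt r ^ k) := by
        rw [hlk k hk1]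
        have h4 : ∀ j ∈ k.divisors.filter (· ≤ M), net τ j ≤ (1 + c) * Real.sqrt r ^ k := by
          intro j hj
          rw [Finset.mem_filter] at hj
          have hj1 : 1 ≤ j := Nat.pos_of_mem_divisors hj.1
          refine (hnetle j hj1).trans ?_
          have h5 : 2 * j ≤ k := by
            obtain ⟨d, hd⟩ := Nat.dvd_of_mem_divisors hj.1
            have hd2 : 2 ≤ d := by
              by_contra hcon
              have : d = 0 ∨ d = 1 := by omega
              rcases this with h | h <;> subst h <;> omega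
            rw [hd, mul_comm 2]
            exact Nat.mul_le_mul_left j hd2
          have h6 : r ^ j ≤ Real.sqrt r ^ k := by
            calc r ^ j = Real.sqrt r ^ (2 * j) := by rw [pow_mul, sq, hsqr]
              _ ≤ Real.sqrt r ^ k := pow_le_pow_right₀ hsq.le h5
          exact mul_le_mul_of_nonneg_left h6 (by positivity)
        refine (Finset.sum_le_sum h4).trans ?_
        rw [Finset.sum_const, nsmul_eq_mul]
        apply mul_le_mul_of_nonneg_right _ (by positivity)
        have h7 : (k.divisors.filter (· ≤ M)).card ≤ k :=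
          (Finset.card_filter_le _ _).trans (Nat.card_divisors_le_self k)
        exact_mod_cast h7
      have h8 : (k : ℝ) * ((1 + c) * Real.sqrt r ^ k) ≤ (1 + c) * B * (θ1 * r) ^ k := by
        have h9 : Real.sqrt r ^ k = σ ^ k * (θ1 * r) ^ k := by
          rw [← mul_pow]
          congr 1
          rw [hσ]
          field_simp
          nlinarith
        rw [h9]
        have h10 := hB k
        rw [pow_one] at h10
        calc (k : ℝ) * ((1 + c) * (σ ^ k * (θ1 * r) ^ k)) = (1 + c) * ((k : ℝ) * σ ^ k) * (θ1 * r) ^ k := by ring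
          _ ≤ (1 + c) * B * (θ1 * r) ^ k := by
            apply mul_le_mul_of_nonneg_right _ (by positivity)
            exact mul_le_mul_of_nonneg_left h10 (by positivity)
      have h11 : (θ0 * r) ^ k ≤ (max θ0 θ1 * r) ^ k :=
        pow_le_pow_left₀ (by positivity) (mul_le_mul_of_nonneg_right (le_max_left _ _) hr.le) k
      have h12 : (θ1 * r) ^ k ≤ (max θ0 θ1 * r) ^ k :=
        pow_le_pow_left₀ (by positivity) (mul_le_mul_of_nonneg_right (le_max_right _ _) hr.le) k
      calc |coeff k τ - jsum l k - r ^ k| = |(coeff k τ - r ^ k) - jsum l k| := by ring_nf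
        _ ≤ |coeff k τ - r ^ k| + |jsum l k| := abs_sub _ _
        _ ≤ c * (θ0 * r) ^ k + (1 + c) * B * (θ1 * r) ^ k := by
            rw [abs_of_nonneg h2]
            linarith
        _ ≤ c * (max θ0 θ1 * r) ^ k + (1 + c) * B * (max θ0 θ1 * r) ^ k := by
            apply add_le_add
            · exact mul_le_mul_of_nonneg_left h11 hc
            · exact mul_le_mul_of_nonneg_left h12 (by positivity)
        _ = _ := by ring
  · -- the dense case
    have hd := hdense hS
    have hτnn : ∀ k, 0 ≤ coeff k τ := by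
      intro k
      rcases Nat.eq_zero_or_pos k with h | h
      · rw [h, hτ0]
      · exact (hd k h).1
    have hτmul : ∀ k, 1 ≤ k → 0 < coeff k τ → ∀ n, 1 ≤ n → 0 < coeff (n * k) τ := by
      intro k hk hpos n hn
      rw [mul_comm]
      exact (hd k hk).2 n hn hpos
    refine ⟨c + 1, θ0, by positivity, hθ0, hθ01, ?_⟩
    intro M
    set T := ∑ i ∈ Icc 1 M, coeff i τ with hT
    have hθr : 0 < θ0 * r := by positivity
    have hlin : ∀ b c' : ℝ, 0 < c' → ∀ᶠ ω in 𝓝[>] (0 : ℝ), ω * b < c' := by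
      intro b c' hc'
      have h1 : Tendsto (fun ω : ℝ => ω * b) (𝓝[>] (0 : ℝ)) (𝓝 (0 * b)) :=
        ((continuous_id.mul continuous_const).tendsto 0).mono_left nhdsWithin_le_nhds
      rw [zero_mul] at h1
      exact h1.eventually (gt_mem_nhds hc')
    have hfin : ∀ᶠ ω in 𝓝[>] (0 : ℝ), ∀ k ∈ range (M + 1), 0 < coeff k τ → ω * T < coeff k τ := by
      rw [Filter.eventually_all_finset]
      intro k _
      by_cases h : 0 < coeff k τ
      · filter_upwards [hlin T _ h] with ω hω _
        exact hω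
      · exact Filter.Eventually.of_forall fun ω h' => absurd h' h
    obtain ⟨ω, ⟨⟨⟨⟨⟨hω1, hω2⟩, hω3⟩, hω4⟩, hω5⟩, hω0⟩⟩ :=
      (((((hlin 1 1 one_pos).and hfin).and (hlin 1 (θ0 * r) hθr)).and
        (hlin T ((θ0 * r) ^ (M + 1)) (by positivity))).and (hlin ρ 1 one_pos)).and
        self_mem_nhdsWithin |>.exists
    rw [mul_one] at hω1 hω3
    have hω0' : 0 < ω := hω0
    obtain ⟨l, hl, hlk⟩ := kill S hS F hFS hF0 τ hτ hτ0 hτnn hτmul M ω hω0' hω1.le
      (fun k hk hpos => hω2 k (Finset.mem_range.mpr (by omega)) hpos) M le_rfl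
    have hl1 : ∀ p ∈ l, 1 ≤ p.1 := fun p hp => (hl p hp).1
    have hjbound : ∀ k, M < k → jsum l k ≤ (θ0 * r) ^ k := by
      intro k hk
      have h1 := jsum_le M k hk ω hω0' hω1.le l
        (fun p hp => ⟨(hl p hp).1, (hl p hp).2.1, (hl p hp).2.2.2.1, (hl p hp).2.2.2.2.1⟩)
      have h2 := wsum_le M l (fun p hp => ⟨(hl p hp).1, (hl p hp).2.1, (hl p hp).2.2.2.1⟩)
      have h3 : ∑ k ∈ Icc 1 M, jsum l k = T := by
        apply Finset.sum_congr rfl
        intro k hk
        rw [Finset.mem_Icc] at hk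
        exact hlk k hk.1 hk.2
      rw [h3] at h2
      calc jsum l k ≤ ω ^ (k - M) * (l.map fun p => (p.1 : ℝ) * p.2).sum := h1
        _ ≤ ω ^ (k - M) * T := mul_le_mul_of_nonneg_left h2 (by positivity)
        _ = ω ^ (k - M - 1) * (ω * T) := by
            rw [← mul_assoc, ← pow_succ]
            congr 2
            omega
        _ ≤ (θ0 * r) ^ (k - M - 1) * (θ0 * r) ^ (M + 1) := by
            apply mul_le_mul (pow_le_pow_left₀ hω0'.le hω3.le _) hω4.le _ (by positivity)
            apply mul_nonneg hω0'.le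
            exact Finset.sum_nonneg fun i _ => hτnn i
        _ = (θ0 * r) ^ k := by rw [← pow_add]; congr 1; omega
    have hjnn : ∀ k, 0 ≤ jsum l k := jsum_nonneg l (fun p hp => (hl p hp).2.2.2.1)
    refine ⟨l, ?_, hlk, ?_⟩
    · intro p hp
      obtain ⟨a1, a2, a3, a4, a5, a6⟩ := hl p hp
      refine ⟨a1, a3, a4, ?_⟩
      calc p.2 * ρ ^ p.1 ≤ ω ^ p.1 * ρ ^ p.1 := mul_le_mul_of_nonneg_right a5 (by positivity)
        _ = (ω * ρ) ^ p.1 := by rw [mul_pow]
        _ < 1 := pow_lt_one₀ (by positivity) hω5 (by omega)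
    · intro k hk
      have h1 := hτb k (by omega)
      have h2 := hjbound k hk
      have h3 := hjnn k
      calc |coeff k τ - jsum l k - r ^ k| = |(coeff k τ - r ^ k) - jsum l k| := by ring_nf
        _ ≤ |coeff k τ - r ^ k| + |jsum l k| := abs_sub _ _
        _ ≤ c * (θ0 * r) ^ k + (θ0 * r) ^ k := by
            rw [abs_of_nonneg h3]; linarith
        _ = (c + 1) * (θ0 * r) ^ k := by ring

end Pool.Agent.Helper605
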