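import Mathlib
import Pool.Agent.Helper605.MainB

set_option autoImplicit false
set_option linter.all false

namespace Pool.Agent.Helper605

open PowerSeries Finset Filter Topology

/-- Quantitative positivity for a fixed large `M`. -/
theorem neg_strong (M : ℕ) (hM : 2 ≤ M) (C θ θ1 θ2 : ℝ) (hC : 0 ≤ C) (hθ : 0 < θ) (hθ1 : θ < θ1)
    (hθ2p : 0 < θ2) (hθ2 : θ2 < 1) (hsmall : 2 * C * (θ / θ1) ^ (M + 1) ≤ 1 - θ / θ1)
    (hθ12 : 8 < (θ2 / θ1) ^ (M + 1)) (hfinal : (6 * (16 * M + 1) * 8 ^ 16) * (2 * C * (θ / θ1) ^ (M + 1) / (1 - θ2))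
      ≤ (1 / (4 * (2 * (M : ℝ) + 1))) ^ 3 / 2)
    (F1 l : PowerSeries ℝ) (hF0 : coeff 0 F1 = 1) (hF : IsLD F1 l) (hl1 : ∀ j, j ≤ M → coeff j l = 0)
    (hl2 : ∀ j, M < j → |coeff j l - 1| ≤ C * θ ^ j) (q : PowerSeries ℝ) (hq : QAdm M q) (x : ℝ) (hx1 : 1 < x) (hx2 : x ≤ 2)
    (hx8 : x ^ (M + 1) ≤ 8) (hroot : ∑ j ∈ Icc (M + 1) (2 * M + 1), coeff j q * x ^ j = 1) (k : ℕ) (hk : 1 ≤ k) :
    coeff k (F1 * (1 - q)⁻¹) ≤ 0 ∧ (M + 1 ≤ k → coeff k (F1 * (1 - q)⁻¹) * x ^ k ≤ -((1 / (4 * (2 * (M : ℝ) + 1))) ^ 3 / 2)) := by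
  have hθ1p : 0 < θ1 := hθ.trans hθ1
  have hx0 : 0 < x := by linarith
  have hxθ : θ1 * x ≤ θ2 := by
    by_contra hcon
    push Not at hcon
    have h1 : θ2 / θ1 < x := by rwa [div_lt_iff₀ hθ1p, mul_comm]
    have h2 : 0 ≤ θ2 / θ1 := div_nonneg hθ2p.le hθ1p.le
    have h3 : (θ2 / θ1) ^ (M + 1) ≤ x ^ (M + 1) := pow_le_pow_left₀ h2 h1.le _
    linarith
  have hren := hq.renew (by omega) x hx1.le hroot
  set δ : ℝ := 1 / (4 * (2 * (M : ℝ) + 1)) with hδ
  have hδ0 : 0 < δ := by positivity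
  have hδ1 : δ ≤ 1 := hren.δ_le_one
  set c := (1 - q)⁻¹ with hc
  set u : ℕ → ℝ := fun k => coeff k c * x ^ k with hu
  have hcc : (1 - q) * c = 1 := PowerSeries.mul_inv_cancel _ (one_sub_ne hq)
  set Δ : ℕ → ℝ := fun i => coeff i (Fst M) - coeff i F1 with hΔ
  have hT' : ∀ K, ∑ i ∈ range K, |Δ i| * x ^ i ≤ δ ^ 3 / 2 := fun K =>
    (delta_bound M hM C θ θ1 θ2 hC hθ hθ1 hθ2 hsmall F1 l hF0 hF hl1 hl2 x hx1.le hx2 hx8 hxθ K).trans hfinal
  have hδ3 : 0 < δ ^ 3 := by positivity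
  have hT : ∀ K, ∑ i ∈ range K, |Δ i| * x ^ i ≤ δ ^ 3 := fun K => (hT' K).trans (by linarith)
  have hΔi : ∀ i, |Δ i| ≤ δ ^ 3 := by
    intro i
    have h1 := hT (i + 1)
    have h2 : |Δ i| * x ^ i ≤ ∑ i ∈ range (i + 1), |Δ i| * x ^ i :=
      Finset.single_le_sum (f := fun i => |Δ i| * x ^ i) (fun j _ => by positivity) (Finset.self_mem_range_succ i)
    have h3 : |Δ i| ≤ |Δ i| * x ^ i := le_mul_of_one_le_right (abs_nonneg _) (one_le_pow₀ hx1.le)
    linarith
  set d : PowerSeries ℝ := 1 - q - F1 with hd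
  have hE : F1 * c = 1 - d * c := by
    have : F1 = (1 - q) - d := by rw [hd]; ring
    rw [this, sub_mul, hcc]
  -- coefficients of d
  have hd0 : coeff 0 d = 0 := by
    rw [hd, map_sub, map_sub, hF0, hq.supp 0 (by omega), coeff_one, if_pos rfl]; ring
  have hd1 : ∀ i, 1 ≤ i → coeff i d = - coeff i (Fst M) + Δ i - coeff i q := by
    intro i hi
    rw [hd, map_sub, map_sub, coeff_one, if_neg (by omega), hΔ]
    ring
  have hF1z : ∀ i, 1 ≤ i → i ≤ M → coeff i F1 = 0 := by
    intro i hi1 hi2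
    have h1 := hF.coeff_range (hl1 0 (by omega)) i
    have h2 : ∑ j ∈ range i, coeff (i - j) l * coeff j F1 = 0 := by
      apply Finset.sum_eq_zero
      intro j hj
      rw [Finset.mem_range] at hj
      rw [hl1 (i - j) (by omega), zero_mul]
    rw [h2, neg_zero] at h1
    have h3 : (i : ℝ) ≠ 0 := by exact_mod_cast (by omega : i ≠ 0)
    exact (mul_eq_zero.mp h1).resolve_left h3
  have hdlow : ∀ i, i ≤ M → coeff i d = 0 := by
    intro i hi
    rcases Nat.eq_zero_or_pos i with h | h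
    · rw [h, hd0]
    · rw [hd, map_sub, map_sub, coeff_one, if_neg (by omega), hF1z i h hi, hq.supp i (by omega)]
      ring
  have hdmid : ∀ i, M + 1 ≤ i → i ≤ 2 * M + 1 → δ ≤ coeff i d := by
    intro i hi1 hi2
    rw [hd1 i (by omega), fst_neg_coeff M i (by omega) hi1, hh_one M _ (by omega)]
    have h1 := hq.hi i hi1 hi2
    have h2 := (abs_le.mp (hΔi i)).1
    have hi0 : (0 : ℝ) < i := by exact_mod_cast (by omega : 0 < i)
    have hi3 : (i : ℝ) ≤ 2 * M + 1 := by exact_mod_cast hi2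
    have h3 : 2 * δ ≤ 1 / (2 * (i : ℝ)) := by
      rw [hδ]
      rw [show 2 * (1 / (4 * (2 * (M : ℝ) + 1))) = 1 / (2 * (2 * (M : ℝ) + 1)) by field_simp; norm_num]
      apply one_div_le_one_div_of_le (by positivity)
      linarith
    have h4 : δ ^ 3 ≤ δ := by
      calc δ ^ 3 ≤ δ ^ 1 := pow_le_pow_of_le_one hδ0.le hδ1 (by norm_num)
        _ = δ := pow_one _
    have h5 : (1 : ℝ) / i = 1 / (2 * (i : ℝ)) + 1 / (2 * (i : ℝ)) := by field_simp; norm_num
    linarith
  have hdhigh : ∀ i, 2 * M + 1 < i → -|Δ i| ≤ coeff i d := by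
    intro i hi
    rw [hd1 i (by omega), fst_neg_coeff M i (by omega) (by omega), hq.supp i (by omega)]
    have h1 : 0 ≤ hh M (i - 1 - M) / i := div_nonneg (hh_pos M (by omega) _).le (by positivity)
    have h2 := neg_abs_le (Δ i)
    linarith
  have hcoef : coeff k (F1 * c) = - ∑ y ∈ antidiagonal k, coeff y.1 d * coeff y.2 c := by
    rw [hE, map_sub, coeff_one, if_neg (by omega), coeff_mul]; ring
  rw [hcoef]
  have hxk : 0 < x ^ k := by positivity
  have hsumk : (∑ y ∈ antidiagonal k, coeff y.1 d * coeff y.2 c) * x ^ k =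
      ∑ i ∈ range (k + 1), (coeff i d * x ^ i) * u (k - i) := by
    rw [Finset.Nat.sum_antidiagonal_eq_sum_range_succ_mk, Finset.sum_mul]
    apply Finset.sum_congr rfl
    intro i hi
    rw [Finset.mem_range] at hi
    have : x ^ k = x ^ i * x ^ (k - i) := by rw [← pow_add]; congr 1; omega
    rw [this, hu]
    ring
  have hlow : k ≤ 2 * M + 1 → ∀ i ∈ range (k + 1), 0 ≤ (coeff i d * x ^ i) * u (k - i) := by
    intro hk2 i hi
    rw [Finset.mem_range] at hi
    have hdi : 0 ≤ coeff i d := by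
      by_cases h : i ≤ M
      · rw [hdlow i h]
      · exact hδ0.le.trans (hdmid i (by omega) (by omega))
    exact mul_nonneg (mul_nonneg hdi (by positivity)) (hren.nonneg _)
  have hgoal2 : M + 1 ≤ k → δ ^ 3 / 2 ≤ (∑ y ∈ antidiagonal k, coeff y.1 d * coeff y.2 c) * x ^ k := by
    intro hkM
    rw [hsumk]
    by_cases hk2 : k ≤ 2 * M + 1
    · have h1 : (coeff k d * x ^ k) * u (k - k) ≤ ∑ i ∈ range (k + 1), (coeff i d * x ^ i) * u (k - i) :=
        Finset.single_le_sum (f := fun i => (coeff i d * x ^ i) * u (k - i)) (hlow hk2) (Finset.self_mem_range_succ k)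
      have h2 : u (k - k) = 1 := by rw [Nat.sub_self]; exact hren.u0
      rw [h2, mul_one] at h1
      have h3 := hdmid k hkM hk2
      have h4 : coeff k d ≤ coeff k d * x ^ k := le_mul_of_one_le_right (hδ0.le.trans h3) (one_le_pow₀ hx1.le)
      have h5 : δ ^ 3 ≤ δ := by
        calc δ ^ 3 ≤ δ ^ 1 := pow_le_pow_of_le_one hδ0.le hδ1 (by norm_num)
          _ = δ := pow_one _
      linarith
    · have hterm : ∀ i ∈ range (k + 1), (if i = M + 1 then δ ^ 3 else 0) - |Δ i| * x ^ i ≤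
          (coeff i d * x ^ i) * u (k - i) := by
        intro i hi
        rw [Finset.mem_range] at hi
        have hunn := hren.nonneg (k - i)
        have hu1 := hren.le_one (k - i)
        have hxi : 0 < x ^ i := by positivity
        have hΔx : 0 ≤ |Δ i| * x ^ i := by positivity
        by_cases hiM : i = M + 1
        · rw [if_pos hiM]
          have h1 := hdmid i (by omega) (by omega)
          have h2 := hren.lower (k - i) (by omega)
          have h3 : δ ≤ coeff i d * x ^ i := by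
            calc δ ≤ coeff i d := h1
              _ ≤ coeff i d * x ^ i := le_mul_of_one_le_right (hδ0.le.trans h1) (one_le_pow₀ hx1.le)
          have h4 : δ * δ ^ 2 ≤ (coeff i d * x ^ i) * u (k - i) :=
            mul_le_mul h3 h2 (by positivity) (hδ0.le.trans h3)
          have h5 : δ ^ 3 = δ * δ ^ 2 := by ring
          linarith
        · rw [if_neg hiM]
          by_cases hi2 : i ≤ 2 * M + 1
          · have hdi : 0 ≤ coeff i d := by
              by_cases h : i ≤ M
              · rw [hdlow i h]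
              · exact hδ0.le.trans (hdmid i (by omega) (by omega))
            have : 0 ≤ (coeff i d * x ^ i) * u (k - i) := mul_nonneg (mul_nonneg hdi hxi.le) hunn
            linarith
          · have h1 := hdhigh i (by omega)
            have h2 : -(|Δ i| * x ^ i) ≤ coeff i d * x ^ i := by nlinarith
            have h3 : -(|Δ i| * x ^ i) ≤ -(|Δ i| * x ^ i) * u (k - i) := by nlinarith
            have h4 : -(|Δ i| * x ^ i) * u (k - i) ≤ coeff i d * x ^ i * u (k - i) :=
              mul_le_mul_of_nonneg_right h2 hunn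
            linarith
      have hsum := Finset.sum_le_sum hterm
      rw [Finset.sum_sub_distrib, Finset.sum_ite_eq', if_pos (by rw [Finset.mem_range]; omega)] at hsum
      have := hT' (k + 1)
      linarith
  constructor
  · rw [neg_nonpos]
    apply nonneg_of_mul_nonneg_left _ hxk
    by_cases hkM : M + 1 ≤ k
    · exact (by positivity : (0 : ℝ) ≤ δ ^ 3 / 2).trans (hgoal2 hkM)
    · rw [hsumk]
      exact Finset.sum_nonneg (hlow (by omega))
  · intro hkM
    have := hgoal2 hkM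
    rw [neg_mul]
    linarith

end Pool.Agent.Helper605
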