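import Mathlib
import Pool.Agent.Helper605.KillZ
import Pool.Agent.Helper605.MainC
import Pool.Agent.Helper605.Final

set_option autoImplicit false
set_option linter.all false

namespace Pool.Agent.Helper605

open Finset Filter Topology

theorem exists_v (S : Subring ℝ) (r : ℝ) (hr : 0 < r) (hr1 : S = ⊥ → 1 < r) :
    ∀ᶠ j : ℕ in atTop, ∃ v ∈ S, r ^ j / (4 * (j : ℝ)) ≤ v ∧ v ≤ r ^ j / (2 * (j : ℝ)) := by
  by_cases hS : S = ⊥
  · have hr1' := hr1 hS
    have h1 : Tendsto (fun j : ℕ => (j : ℝ) ^ 1 * (1 / r) ^ j) atTop (𝓝 0) :=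
      tendsto_pow_const_mul_const_pow_of_abs_lt_one 1 (by
        rw [abs_of_pos (by positivity), div_lt_one hr]; exact hr1')
    filter_upwards [h1.eventually (gt_mem_nhds (show (0 : ℝ) < 1 / 4 by norm_num)), eventually_ge_atTop 1] with j hj hj1
    have hj0 : (0 : ℝ) < j := by exact_mod_cast hj1
    have hrj : 0 < r ^ j := by positivity
    have h2 : 1 < r ^ j / (4 * (j : ℝ)) := by
      rw [lt_div_iff₀ (by positivity), one_mul]
      rw [pow_one, one_div, inv_pow, ← div_eq_mul_inv, div_lt_iff₀ hrj] at hj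
      linarith
    refine ⟨(⌈r ^ j / (4 * (j : ℝ))⌉₊ : ℝ), natCast_mem S _, Nat.le_ceil _, ?_⟩
    have h3 := Nat.ceil_lt_add_one (a := r ^ j / (4 * (j : ℝ))) (by positivity)
    have h4 : r ^ j / (2 * (j : ℝ)) = r ^ j / (4 * (j : ℝ)) + r ^ j / (4 * (j : ℝ)) := by field_simp; norm_num
    linarith
  · filter_upwards [eventually_ge_atTop 1] with j hj1
    have hj0 : (0 : ℝ) < j := by exact_mod_cast hj1
    have h1 : r ^ j / (4 * (j : ℝ)) < r ^ j / (2 * (j : ℝ)) := by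
      apply div_lt_div_of_pos_left (by positivity) (by positivity)
      linarith
    obtain ⟨v, hv, h2, h3⟩ := subring_between S hS _ _ h1
    exact ⟨v, hv, h2.le, h3.le⟩

theorem eventual_neg' (M : ℕ) (hM : 2 ≤ M) (q : PowerSeries ℝ) (hq : QAdm M q) (F : Polynomial ℝ)
    (x : ℝ) (hx1 : 1 < x) (hroot : ∑ j ∈ Icc (M + 1) (2 * M + 1), PowerSeries.coeff j q * x ^ j = 1)
    (hFx : F.eval x < 0) : EvNeg x ((F : PowerSeries ℝ) * (1 - q)⁻¹) := by
  have hren := hq.renew (by omega) x hx1.le hroot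
  rw [Polynomial.eval_eq_sum_range] at hFx
  obtain ⟨R, hR, hev⟩ := hren.eventually_neg (fun i => F.coeff i * x ^ i) (F.natDegree + 1) hFx
  refine ⟨R, hR, ?_⟩
  filter_upwards [hev, eventually_ge_atTop F.natDegree] with k hk hkd
  have h1 : PowerSeries.coeff k ((F : PowerSeries ℝ) * (1 - q)⁻¹) * x ^ k =
      ∑ i ∈ range (F.natDegree + 1), F.coeff i * x ^ i * (PowerSeries.coeff (k - i) (1 - q)⁻¹ * x ^ (k - i)) := by
    rw [PowerSeries.coeff_mul, Finset.Nat.sum_antidiagonal_eq_sum_range_succ_mk, Finset.sum_mul]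
    symm
    rw [Finset.sum_congr rfl (g := fun i => PowerSeries.coeff i (F : PowerSeries ℝ) * PowerSeries.coeff (k - i) (1 - q)⁻¹ * x ^ k)]
    · apply Finset.sum_subset
      · intro i hi
        rw [Finset.mem_range] at *
        omega
      · intro i hi hi'
        rw [Finset.mem_range] at *
        rw [Polynomial.coeff_coe, Polynomial.coeff_eq_zero_of_natDegree_lt (by omega)]
        ring
    · intro i hi
      rw [Finset.mem_range] at hi
      rw [Polynomial.coeff_coe]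
      have : x ^ k = x ^ i * x ^ (k - i) := by rw [← pow_add]; congr 1; omega
      rw [this]
      ring
  rw [h1]
  exact hk

theorem analytic (S : Subring ℝ) (r : ℝ) (hr : 0 < r) (hr1 : S = ⊥ → 1 < r) (s : Multiset ℂ) (hsr : ∀ z ∈ s, ‖z‖ < r)
    (F : Polynomial ℝ) (hFS : ∀ k, F.coeff k ∈ S) (hF0 : F.coeff 0 = 1)
    (hFC : F.map (algebraMap ℝ ℂ) = (((r : ℂ) ::ₘ s).map fun z => (1 - Polynomial.C z * Polynomial.X : Polynomial ℂ)).prod)
    (t : ℕ → ℝ) (ht : ∀ k, 1 ≤ k → ((t k : ℝ) : ℂ) = (((r : ℂ) ::ₘ s).map fun z => z ^ k).sum)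
    (hbot : S = ⊥ → ∀ m, 0 < m → 0 ≤ ∑ k ∈ m.divisors, ((ArithmeticFunction.moebius (m / k) : ℤ) : ℝ) * t k)
    (hdense : S ≠ ⊥ → ∀ m, 0 < m → 0 ≤ t m ∧ ∀ k, 0 < k → 0 < t m → 0 < t (m * k)) :
    ∃ ρ : ℝ, 0 < ρ ∧ 1 < r * ρ ∧ (∀ z ∈ s, ‖z‖ * ρ < 1) ∧ (S = ⊥ → ρ < 1) ∧
      ∃ (q : Polynomial ℝ) (m0 : ℕ) (y δ κ : ℝ) (l : List (ℕ × ℝ)),
        (∀ k, q.coeff k ∈ S) ∧ 0 < y ∧ y ≤ ρ ∧ 0 < κ ∧
        (∀ k, k ≤ m0 ∨ 2 * m0 + 1 < k → q.coeff k = 0) ∧ (∀ k, m0 + 1 ≤ k → k ≤ 2 * m0 + 1 → 0 < q.coeff k) ∧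
        (Renew m0 δ (fun j => q.coeff j * y ^ j) (fun k => PowerSeries.coeff k (1 - (q : PowerSeries ℝ))⁻¹ * y ^ k)) ∧
        (EvNeg y ((F : PowerSeries ℝ) * (1 - (q : PowerSeries ℝ))⁻¹)) ∧
        (∀ p ∈ l, 1 ≤ p.1 ∧ p.2 ∈ S ∧ 0 ≤ p.2 ∧ p.2 * y ^ p.1 < 1) ∧
        (∀ k, 1 ≤ k → PowerSeries.coeff k ((F : PowerSeries ℝ) * (1 - (q : PowerSeries ℝ))⁻¹ * (Jprod l)⁻¹) ≤ 0) ∧
        (∀ k, m0 + 1 ≤ k → PowerSeries.coeff k ((F : PowerSeries ℝ) * (1 - (q : PowerSeries ℝ))⁻¹ * (Jprod l)⁻¹) * y ^ k ≤ -κ) ∧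
        (∀ ε : ℝ, 0 < ε → ∃ s ∈ S, ∃ m : ℕ, 1 ≤ m ∧ 0 < s ∧ s * y ^ m < ε) := by
  obtain ⟨θ0, hθ00, hθ01, hθs⟩ := exists_theta s r hr hsr
  set FF : PowerSeries ℝ := (F : PowerSeries ℝ) with hFF
  have hFF0 : PowerSeries.coeff 0 FF = 1 := by rw [hFF, Polynomial.coeff_coe, hF0]
  have hFFc : PowerSeries.constantCoeff FF ≠ 0 := by
    rw [← PowerSeries.coeff_zero_eq_constantCoeff_apply, hFF0]; exact one_ne_zero
  have hFFS : InS S FF := by intro k; rw [hFF, Polynomial.coeff_coe]; exact hFS k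
  set τ : PowerSeries ℝ := -(PowerSeries.X * PowerSeries.derivative ℝ FF) * FF⁻¹ with hτdef
  have hτ : IsLD FF τ := by
    unfold IsLD
    rw [hτdef]
    have h1 : FF⁻¹ * FF = 1 := PowerSeries.inv_mul_cancel _ hFFc
    calc PowerSeries.X * PowerSeries.derivative ℝ FF
        = (PowerSeries.X * PowerSeries.derivative ℝ FF) * (FF⁻¹ * FF) := by rw [h1, mul_one]
      _ = _ := by ring
  have hτ0 : PowerSeries.coeff 0 τ = 0 := by
    rw [hτdef, PowerSeries.coeff_mul, Finset.Nat.antidiagonal_zero, Finset.sum_singleton, map_neg,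
      PowerSeries.coeff_zero_X_mul]
    simp
  set Λ := (r : ℂ) ::ₘ s with hΛ
  have hmapF : PowerSeries.map (algebraMap ℝ ℂ) FF =
      (Λ.map fun z => (1 - PowerSeries.C z * PowerSeries.X : PowerSeries ℂ)).prod := by
    have h1 : PowerSeries.map (algebraMap ℝ ℂ) FF = ((F.map (algebraMap ℝ ℂ) : Polynomial ℂ) : PowerSeries ℂ) := by
      ext k
      rw [PowerSeries.coeff_map, hFF, Polynomial.coeff_coe, Polynomial.coeff_coe, Polynomial.coeff_map]
    rw [h1, hFC]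
    have h2 : ∀ t : Multiset ℂ,
        (((t.map fun z => (1 - Polynomial.C z * Polynomial.X : Polynomial ℂ)).prod : Polynomial ℂ) : PowerSeries ℂ) =
        (t.map fun z => (1 - PowerSeries.C z * PowerSeries.X : PowerSeries ℂ)).prod := by
      intro t
      induction t using Multiset.induction_on with
      | empty => simp
      | cons a t ih =>
        rw [Multiset.map_cons, Multiset.prod_cons, Multiset.map_cons, Multiset.prod_cons, Polynomial.coe_mul, ih]
        simp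
    exact h2 Λ
  have hτk : ∀ k, 1 ≤ k → ((PowerSeries.coeff k τ : ℝ) : ℂ) = (Λ.map fun z => z ^ k).sum := by
    intro k hk
    have h1 := hτ.map_complex
    have h2 := isLD_multiset Λ
    rw [← hmapF] at h2
    have hne : PowerSeries.map (algebraMap ℝ ℂ) FF ≠ 0 := by
      intro h
      have h3 := congrArg (PowerSeries.coeff 0) h
      rw [PowerSeries.coeff_map, hFF0] at h3
      simp at h3
    have h3 := congrArg (PowerSeries.coeff k) (h1.ld_unique h2 hne)
    rw [PowerSeries.coeff_map, PowerSeries.coeff_mk, if_neg (by omega)] at h3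
    exact h3
  have hτt : ∀ k, 1 ≤ k → PowerSeries.coeff k τ = t k := by
    intro k hk
    have := (hτk k hk).trans (ht k hk).symm
    exact_mod_cast this
  set c : ℝ := (Multiset.card s : ℝ) with hc
  have hc0 : 0 ≤ c := by positivity
  have hτbound : ∀ k, 1 ≤ k → |PowerSeries.coeff k τ - r ^ k| ≤ c * (θ0 * r) ^ k := by
    intro k hk
    have h1 : ((PowerSeries.coeff k τ - r ^ k : ℝ) : ℂ) = (s.map fun z => z ^ k).sum := by
      push_cast
      rw [hτk k hk, hΛ, Multiset.map_cons, Multiset.sum_cons]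
      ring
    have h2 : |PowerSeries.coeff k τ - r ^ k| = ‖(s.map fun z => z ^ k).sum‖ := by
      rw [← h1, Complex.norm_real, Real.norm_eq_abs]
    rw [h2]
    have h3 : ∀ t : Multiset ℂ, (∀ z ∈ t, ‖z‖ ≤ θ0 * r) →
        ‖(t.map fun z => z ^ k).sum‖ ≤ (Multiset.card t : ℝ) * (θ0 * r) ^ k := by
      intro t
      induction t using Multiset.induction_on with
      | empty => intro _; simp
      | cons a t ih =>
        intro ht
        rw [Multiset.map_cons, Multiset.sum_cons, Multiset.card_cons]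
        have h4 := ih (fun z hz => ht z (Multiset.mem_cons_of_mem hz))
        have h5 : ‖a ^ k‖ ≤ (θ0 * r) ^ k := by
          rw [norm_pow]
          exact pow_le_pow_left₀ (norm_nonneg _) (ht a (Multiset.mem_cons_self a t)) k
        refine (norm_add_le _ _).trans ?_
        push_cast
        linarith
    exact h3 s hθs
  -- choice of `ρ`
  obtain ⟨ρ, hρ1, hρ2, hρ3⟩ : ∃ ρ : ℝ, 1 / r < ρ ∧ ρ < 1 / (θ0 * r) ∧ (S = ⊥ → ρ < 1) := by
    have h1 : 1 / r < 1 / (θ0 * r) := by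
      apply one_div_lt_one_div_of_lt (by positivity)
      nlinarith
    by_cases hS : S = ⊥
    · have h2 : 1 / r < 1 := by rw [div_lt_one hr]; exact hr1 hS
      obtain ⟨ρ, h3, h4⟩ := exists_between (lt_min h1 h2)
      exact ⟨ρ, h3, h4.trans_le (min_le_left _ _), fun _ => h4.trans_le (min_le_right _ _)⟩
    · obtain ⟨ρ, h3, h4⟩ := exists_between h1
      exact ⟨ρ, h3, h4, fun h => absurd h hS⟩
  have hρ0 : 0 < ρ := lt_trans (by positivity) hρ1
  have hrρ : 1 < r * ρ := by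
    rw [div_lt_iff₀ hr] at hρ1
    linarith
  have hθrρ : θ0 * (r * ρ) < 1 := by
    rw [lt_div_iff₀ (by positivity)] at hρ2
    linarith
  obtain ⟨C, θ, hC0, hθ0, hθ1, hkill⟩ := kill_all S r hr hr1 FF hFFS hFF0 τ hτ hτ0 c θ0 hc0 hθ00 hθ01 hτbound
    (by
      intro hS m hm
      rw [net, Finset.sum_congr rfl (g := fun k => ((ArithmeticFunction.moebius (m / k) : ℤ) : ℝ) * t k)]
      · exact hbot hS m hm
      · intro k hk
        rw [hτt k (Nat.pos_of_mem_divisors hk)])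
    (by
      intro hS m hm
      rw [hτt m hm]
      refine ⟨(hdense hS m hm).1, fun k hk h => ?_⟩
      rw [hτt (m * k) (Nat.mul_pos hm hk)]
      exact (hdense hS m hm).2 k hk h)
    ρ hρ0 hρ3
  -- choice of `M`
  obtain ⟨θ1, θ2, hθθ1, hθ2p, hθ21, hpar⟩ := params (2 * C) θ hθ0 hθ1
  have t2 : Tendsto (fun M : ℕ => (r * ρ) ^ (M + 1)) atTop atTop :=
    (tendsto_pow_atTop_atTop_of_one_lt hrρ).comp (tendsto_add_atTop_nat 1)
  obtain ⟨J0, hJ0v⟩ := eventually_atTop.mp (exists_v S r hr hr1)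
  obtain ⟨M, ⟨⟨⟨hM1, hM2, hM3⟩, hM4⟩, hM5⟩, hM6⟩ :=
    (((hpar.and (t2.eventually (eventually_gt_atTop 8))).and (eventually_ge_atTop 2)).and (eventually_ge_atTop J0)).exists
  have hθ1p : 0 < θ1 := hθ0.trans hθθ1
  obtain ⟨l, hl, hlk, hlt⟩ := hkill M
  have hl1 : ∀ p ∈ l, 1 ≤ p.1 := fun p hp => (hl p hp).1
  have hJ := Jprod_isLD l hl1
  have hJ0 := Jprod_coeff_zero l hl1
  have hJc : PowerSeries.constantCoeff (Jprod l) ≠ 0 := by
    rw [← PowerSeries.coeff_zero_eq_constantCoeff_apply, hJ0]; exact one_ne_zero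
  have hJne : Jprod l ≠ 0 := by
    intro h
    rw [h] at hJ0
    simp at hJ0
  set F1 := FF * (Jprod l)⁻¹ with hF1
  have hJF1 : Jprod l * F1 = FF := by
    rw [hF1, mul_comm FF, ← mul_assoc, PowerSeries.mul_inv_cancel _ hJc, one_mul]
  have hF1LD : IsLD F1 (τ - PowerSeries.mk (jsum l)) := by
    apply hJ.cancel _ hJne
    rw [hJF1]; exact hτ
  have hF10 : PowerSeries.coeff 0 F1 = 1 := by
    have h1 := congrArg (PowerSeries.coeff 0) hJF1
    rw [PowerSeries.coeff_mul, Finset.Nat.antidiagonal_zero, Finset.sum_singleton, hJ0, one_mul, hFF0] at h1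
    exact h1
  have hrinv : 0 < r⁻¹ := by positivity
  set F1h := PowerSeries.rescale r⁻¹ F1 with hF1h
  have hF1hLD := hF1LD.rescale r⁻¹
  have hF1h0 : PowerSeries.coeff 0 F1h = 1 := by
    rw [hF1h, PowerSeries.coeff_rescale, hF10]; simp
  -- choice of `q`
  have hex : ∀ j : ℕ, ∃ v ∈ S, (M + 1 ≤ j → r ^ j / (4 * j) ≤ v ∧ v ≤ r ^ j / (2 * j)) := by
    intro j
    by_cases hj : M + 1 ≤ j
    · obtain ⟨v, hv, h2, h3⟩ := hJ0v j (by omega)
      exact ⟨v, hv, fun _ => ⟨h2, h3⟩⟩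
    · exact ⟨0, S.zero_mem, fun h => absurd h hj⟩
  choose v hvS hv using hex
  set q : Polynomial ℝ := ∑ j ∈ Icc (M + 1) (2 * M + 1), Polynomial.C (v j) * Polynomial.X ^ j with hq
  have hqcoeff : ∀ k, q.coeff k = if k ∈ Icc (M + 1) (2 * M + 1) then v k else 0 := by
    intro k
    rw [hq, Polynomial.finsetSum_coeff]
    simp only [Polynomial.coeff_C_mul, Polynomial.coeff_X_pow, mul_ite, mul_one, mul_zero]
    rw [Finset.sum_ite_eq]
  have hvpos : ∀ j, M + 1 ≤ j → 0 < v j := by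
    intro j hj
    have hj0 : (0 : ℝ) < j := by exact_mod_cast (by omega : 0 < j)
    have := (hv j hj).1
    have h2 : 0 < r ^ j / (4 * (j : ℝ)) := by positivity
    linarith
  have hqS : ∀ k, q.coeff k ∈ S := by
    intro k
    rw [hqcoeff]
    split_ifs
    · exact hvS k
    · exact S.zero_mem
  have hqsupp : ∀ k, k ≤ M ∨ 2 * M + 1 < k → q.coeff k = 0 := by
    intro k hk
    rw [hqcoeff, if_neg (by rw [Finset.mem_Icc]; omega)]
  have hqpos : ∀ k, M + 1 ≤ k → k ≤ 2 * M + 1 → 0 < q.coeff k := by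
    intro k h1 h2
    rw [hqcoeff, if_pos (by rw [Finset.mem_Icc]; omega)]
    exact hvpos k h1
  set qs : PowerSeries ℝ := (q : PowerSeries ℝ) with hqs
  set qh := PowerSeries.rescale r⁻¹ qs with hqh
  have hqhc : ∀ j, PowerSeries.coeff j qh = r⁻¹ ^ j * q.coeff j := by
    intro j
    rw [hqh, PowerSeries.coeff_rescale, hqs, Polynomial.coeff_coe]
  have hrj : ∀ j : ℕ, r⁻¹ ^ j * r ^ j = 1 := by
    intro j
    rw [← mul_pow, inv_mul_cancel₀ hr.ne', one_pow]
  have hqadm : QAdm M qh := by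
    refine ⟨?_, ?_, ?_⟩
    · intro j hj
      rw [hqhc, hqcoeff, if_neg (by rw [Finset.mem_Icc]; omega), mul_zero]
    · intro j hj1 hj2
      rw [hqhc, hqcoeff, if_pos (by rw [Finset.mem_Icc]; omega)]
      have h1 := (hv j hj1).1
      calc 1 / (4 * (j : ℝ)) = r⁻¹ ^ j * (r ^ j / (4 * (j : ℝ))) := by
            rw [← mul_div_assoc, hrj]
        _ ≤ r⁻¹ ^ j * v j := mul_le_mul_of_nonneg_left h1 (by positivity)
    · intro j hj1 hj2
      rw [hqhc, hqcoeff, if_pos (by rw [Finset.mem_Icc]; omega)]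
      have h1 := (hv j hj1).2
      calc r⁻¹ ^ j * v j ≤ r⁻¹ ^ j * (r ^ j / (2 * (j : ℝ))) := mul_le_mul_of_nonneg_left h1 (by positivity)
        _ = 1 / (2 * (j : ℝ)) := by rw [← mul_div_assoc, hrj]
  have hq1c : PowerSeries.constantCoeff (1 - qs) ≠ 0 := by
    rw [map_sub, ← PowerSeries.coeff_zero_eq_constantCoeff_apply, ← PowerSeries.coeff_zero_eq_constantCoeff_apply,
      hqs, Polynomial.coeff_coe, hqsupp 0 (by omega)]
    simp
  have hresq : (1 - qh)⁻¹ = PowerSeries.rescale r⁻¹ (1 - qs)⁻¹ := by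
    rw [rescale_inv _ _ hq1c, map_sub, map_one]
  obtain ⟨x, hx1, hx2, hx8, hroot⟩ := hqadm.root hM5
  have hx0 : 0 < x := by linarith
  have hxρ : x ≤ r * ρ := by
    by_contra hcon
    push Not at hcon
    have : (r * ρ) ^ (M + 1) ≤ x ^ (M + 1) := pow_le_pow_left₀ (by positivity) hcon.le _
    linarith
  have hxr : ∀ k : ℕ, r⁻¹ ^ k * x ^ k = (x / r) ^ k := by
    intro k
    rw [← mul_pow]
    congr 1
    rw [inv_mul_eq_div]
  -- the analytic facts
  have hneg := neg_strong M hM5 C θ θ1 θ2 hC0 hθ0 hθθ1 hθ2p hθ21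
    (by
      have h1 : 0 ≤ C * (θ / θ1) ^ (M + 1) := by positivity
      have h2 : 2 * (2 * C) * (θ / θ1) ^ (M + 1) = 2 * C * (θ / θ1) ^ (M + 1) + 2 * (C * (θ / θ1) ^ (M + 1)) := by ring
      linarith)
    hM2
    (by
      have h1 : (6 * (16 * (M : ℝ) + 1) * 8 ^ 16) * (2 * (2 * C) * (θ / θ1) ^ (M + 1) / (1 - θ2)) =
        2 * ((6 * (16 * (M : ℝ) + 1) * 8 ^ 16) * (2 * C * (θ / θ1) ^ (M + 1) / (1 - θ2))) := by ring
      linarith)
    F1h _ hF1h0 hF1hLD
    (by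
      intro j hj
      rw [PowerSeries.coeff_rescale, map_sub, PowerSeries.coeff_mk]
      rcases Nat.eq_zero_or_pos j with h | h
      · rw [h, hτ0, jsum_zero]; ring
      · rw [hlk j h hj]; ring)
    (by
      intro j hj
      rw [PowerSeries.coeff_rescale, map_sub, PowerSeries.coeff_mk]
      have h1 := hlt j hj
      have h4 : r⁻¹ ^ j * (PowerSeries.coeff j τ - jsum l j) - 1 =
          r⁻¹ ^ j * (PowerSeries.coeff j τ - jsum l j - r ^ j) := by
        rw [mul_sub, mul_sub, mul_sub, hrj]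
      rw [h4, abs_mul, abs_of_pos (show 0 < r⁻¹ ^ j by positivity)]
      calc r⁻¹ ^ j * |PowerSeries.coeff j τ - jsum l j - r ^ j| ≤ r⁻¹ ^ j * (C * (θ * r) ^ j) :=
            mul_le_mul_of_nonneg_left h1 (by positivity)
        _ = C * θ ^ j * (r⁻¹ ^ j * r ^ j) := by rw [mul_pow]; ring
        _ = C * θ ^ j := by rw [hrj, mul_one])
    qh hqadm x hx1 hx2 hx8 hroot
  set Fh : Polynomial ℝ := F.comp (Polynomial.C r⁻¹ * Polynomial.X) with hFh
  have hFhs : (Fh : PowerSeries ℝ) = PowerSeries.rescale r⁻¹ FF := by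
    ext k
    rw [Polynomial.coeff_coe, hFh, Polynomial.comp_C_mul_X_coeff, PowerSeries.coeff_rescale, hFF, Polynomial.coeff_coe]
    ring
  have hevx := eventual_neg' M hM5 qh hqadm Fh x hx1 hroot
    (by
      rw [hFh, Polynomial.eval_comp, Polynomial.eval_mul, Polynomial.eval_C, Polynomial.eval_X]
      apply eval_neg s r θ0 hr hθ00 hθs F
      · rw [hFC]
      · rw [one_div]
        nlinarith
      · have h1 : x < 1 / θ0 := by
          rw [lt_div_iff₀ hθ00]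
          nlinarith
        calc r⁻¹ * x < r⁻¹ * (1 / θ0) := mul_lt_mul_of_pos_left h1 hrinv
          _ = 1 / (θ0 * r) := by field_simp)
  have hev : EvNeg (x / r) (FF * (1 - qs)⁻¹) := by
    obtain ⟨R, hR, h⟩ := hevx
    refine ⟨R, hR, ?_⟩
    filter_upwards [h] with k hk
    rw [hFhs, hresq, ← map_mul, PowerSeries.coeff_rescale] at hk
    calc PowerSeries.coeff k (FF * (1 - qs)⁻¹) * (x / r) ^ k
        = r⁻¹ ^ k * PowerSeries.coeff k (FF * (1 - qs)⁻¹) * x ^ k := by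
          rw [← hxr]; ring
      _ ≤ -R := hk
  have hren := hqadm.renew (by omega) x hx1.le hroot
  have hyρ : x / r ≤ ρ := by rw [div_le_iff₀ hr]; linarith
  have hy0 : 0 < x / r := by positivity
  have hG : FF * (1 - qs)⁻¹ * (Jprod l)⁻¹ = F1 * (1 - qs)⁻¹ := by rw [hF1]; ring
  refine ⟨ρ, hρ0, hrρ, ?_, hρ3, q, M, x / r, 1 / (4 * (2 * (M : ℝ) + 1)), (1 / (4 * (2 * (M : ℝ) + 1))) ^ 3 / 2, l, hqS, hy0, hyρ,
    by positivity, hqsupp, hqpos, ?_, hev, ?_, ?_, ?_, ?_⟩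
  · intro z hz
    calc ‖z‖ * ρ ≤ θ0 * r * ρ := mul_le_mul_of_nonneg_right (hθs z hz) hρ0.le
      _ < 1 := by linarith
  · convert hren using 1
    · funext j
      rw [hqhc, ← hxr]; ring
    · funext k
      rw [hresq, PowerSeries.coeff_rescale, ← hxr]; ring
  · intro p hp
    obtain ⟨a1, a2, a3, a4⟩ := hl p hp
    refine ⟨a1, a2, a3, lt_of_le_of_lt ?_ a4⟩
    exact mul_le_mul_of_nonneg_left (pow_le_pow_left₀ hy0.le hyρ _) a3
  · intro k hk
    have h1 := (hneg k hk).1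
    rw [hF1h, hresq, ← map_mul, PowerSeries.coeff_rescale] at h1
    rw [hG]
    have h4 : 0 < r⁻¹ ^ k := by positivity
    by_contra hcon
    push Not at hcon
    have := mul_pos h4 hcon
    linarith
  · intro k hk
    have h1 := (hneg k (by omega)).2 hk
    rw [hF1h, hresq, ← map_mul, PowerSeries.coeff_rescale] at h1
    rw [hG, ← hxr]
    linarith
  · intro ε hε
    by_cases hS : S = ⊥
    · have hy1 : x / r < 1 := hyρ.trans_lt (hρ3 hS)
      obtain ⟨m, hm⟩ := (((tendsto_pow_atTop_nhds_zero_of_lt_one hy0.le hy1).eventually (gt_mem_nhds hε)).and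
        (eventually_ge_atTop 1)).exists
      exact ⟨1, S.one_mem, m, hm.2, one_pos, by rw [one_mul]; exact hm.1⟩
    · obtain ⟨w, hw, hw0, hw1⟩ := subring_between S hS 0 (ε / (x / r)) (by positivity)
      refine ⟨w, hw, 1, le_rfl, hw0, ?_⟩
      rw [pow_one]
      rwa [lt_div_iff₀ hy0] at hw1

end Pool.Agent.Helper605
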