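import Mathlib

set_option autoImplicit false
set_option linter.all false

namespace Pool.Agent.Helper605

open Matrix Finset

variable {A B : Type*} [CommRing A] [CommRing B]

/-- Products of transvections with coefficients in `T`. -/
def EL (T : Subring A) (ι : Type*) [Fintype ι] [DecidableEq ι] : Submonoid (Matrix ι ι A) :=
  Submonoid.closure {M | ∃ i j, i ≠ j ∧ ∃ c ∈ T, M = Matrix.transvection i j c}

section basic
variable {ι : Type*} [Fintype ι] [DecidableEq ι] {T : Subring A}

theorem EL.transv (i j : ι) (h : i ≠ j) (c : A) (hc : c ∈ T) : Matrix.transvection i j c ∈ EL T ι :=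
  Submonoid.subset_closure ⟨i, j, h, c, hc, rfl⟩

theorem EL.inv {P : Matrix ι ι A} (hP : P ∈ EL T ι) : ∃ P' ∈ EL T ι, P * P' = 1 ∧ P' * P = 1 := by
  induction hP using Submonoid.closure_induction with
  | mem x hx =>
    obtain ⟨i, j, h, c, hc, rfl⟩ := hx
    refine ⟨transvection i j (-c), EL.transv i j h _ (T.neg_mem hc), ?_, ?_⟩
    · rw [transvection_mul_transvection_same i j h]; simp
    · rw [transvection_mul_transvection_same i j h]; simp
  | one => exact ⟨1, Submonoid.one_mem _, by simp, by simp⟩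
  | mul x y _ _ hx hy =>
    obtain ⟨x', hx', h1, h2⟩ := hx
    obtain ⟨y', hy', h3, h4⟩ := hy
    refine ⟨y' * x', Submonoid.mul_mem _ hy' hx', ?_, ?_⟩
    · rw [mul_assoc, ← mul_assoc y, h3, one_mul, h1]
    · rw [mul_assoc, ← mul_assoc x', h2, one_mul, h4]

theorem EL.det {P : Matrix ι ι A} (hP : P ∈ EL T ι) : P.det = 1 := by
  induction hP using Submonoid.closure_induction with
  | mem x hx =>
    obtain ⟨i, j, h, c, hc, rfl⟩ := hx
    exact det_transvection_of_ne i j h c
  | one => simp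
  | mul x y _ _ hx hy => rw [Matrix.det_mul, hx, hy, one_mul]

theorem EL.entries {P : Matrix ι ι A} (hP : P ∈ EL T ι) : ∀ i j, P i j ∈ T := by
  induction hP using Submonoid.closure_induction with
  | mem x hx =>
    obtain ⟨i, j, h, c, hc, rfl⟩ := hx
    intro a b
    simp only [transvection, Matrix.add_apply, Matrix.one_apply, Matrix.single_apply]
    apply T.add_mem
    · split_ifs
      · exact T.one_mem
      · exact T.zero_mem
    · split_ifs
      · exact hc
      · exact T.zero_mem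
  | one =>
    intro a b
    rw [Matrix.one_apply]
    split_ifs
    · exact T.one_mem
    · exact T.zero_mem
  | mul x y _ _ hx hy =>
    intro a b
    rw [Matrix.mul_apply]
    exact T.sum_mem fun k _ => T.mul_mem (hx _ _) (hy _ _)

theorem EL.map (φ : A →+* B) {T' : Subring B} (h : ∀ a ∈ T, φ a ∈ T') {P : Matrix ι ι A} (hP : P ∈ EL T ι) :
    P.map φ ∈ EL T' ι := by
  induction hP using Submonoid.closure_induction with
  | mem x hx =>
    obtain ⟨i, j, hij, c, hc, rfl⟩ := hx
    have : (transvection i j c).map φ = transvection i j (φ c) := by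
      ext a b
      simp only [transvection, Matrix.map_apply, Matrix.add_apply, Matrix.one_apply, Matrix.single_apply, map_add]
      split_ifs <;> simp
    rw [this]
    exact EL.transv i j hij _ (h c hc)
  | one =>
    rw [Matrix.map_one φ (map_zero φ) (map_one φ)]
    exact Submonoid.one_mem _
  | mul x y _ _ hx hy =>
    rw [Matrix.map_mul]
    exact Submonoid.mul_mem _ hx hy

theorem EL.mono {T T' : Subring A} (h : T ≤ T') {P : Matrix ι ι A} (hP : P ∈ EL T ι) : P ∈ EL T' ι := by
  have := EL.map (RingHom.id A) (T' := T') (fun a ha => h ha) hP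
  simpa using this

/-- Lift from the range of an injective ring homomorphism. -/
theorem EL.lift (φ : A →+* B) {T' : Subring B} (h : ∀ b ∈ T', ∃ a, φ a = b) {P : Matrix ι ι B} (hP : P ∈ EL T' ι) :
    ∃ P0 ∈ EL (⊤ : Subring A) ι, P0.map φ = P := by
  induction hP using Submonoid.closure_induction with
  | mem x hx =>
    obtain ⟨i, j, hij, c, hc, rfl⟩ := hx
    obtain ⟨a, rfl⟩ := h c hc
    refine ⟨transvection i j a, EL.transv i j hij _ trivial, ?_⟩
    ext a b
    simp only [transvection, Matrix.map_apply, Matrix.add_apply, Matrix.one_apply, Matrix.single_apply, map_add]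
    split_ifs <;> simp
  | one =>
    exact ⟨1, Submonoid.one_mem _, Matrix.map_one φ (map_zero φ) (map_one φ)⟩
  | mul x y _ _ hx hy =>
    obtain ⟨x', hx', rfl⟩ := hx
    obtain ⟨y', hy', rfl⟩ := hy
    exact ⟨x' * y', Submonoid.mul_mem _ hx' hy', Matrix.map_mul⟩

end basic

/-- Bordered matrix. -/
def bx {n : ℕ} (f : A) (r y : Fin n → A) (M : Matrix (Fin n) (Fin n) A) :
    Matrix (Fin (n + 1)) (Fin (n + 1)) A :=
  Matrix.of (Fin.cons (Fin.cons f r) fun i => Fin.cons (y i) (M i))

section border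
variable {n : ℕ} {T : Subring A}

@[simp] theorem bx_00 (f : A) (r y : Fin n → A) (M : Matrix (Fin n) (Fin n) A) : bx f r y M 0 0 = f := rfl
@[simp] theorem bx_0s (f : A) (r y : Fin n → A) (M : Matrix (Fin n) (Fin n) A) (j : Fin n) :
    bx f r y M 0 j.succ = r j := rfl
@[simp] theorem bx_s0 (f : A) (r y : Fin n → A) (M : Matrix (Fin n) (Fin n) A) (i : Fin n) :
    bx f r y M i.succ 0 = y i := rfl
@[simp] theorem bx_ss (f : A) (r y : Fin n → A) (M : Matrix (Fin n) (Fin n) A) (i j : Fin n) :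
    bx f r y M i.succ j.succ = M i j := rfl

theorem bx_ext {M M' : Matrix (Fin (n + 1)) (Fin (n + 1)) A} (h00 : M 0 0 = M' 0 0)
    (h0s : ∀ j : Fin n, M 0 j.succ = M' 0 j.succ) (hs0 : ∀ i : Fin n, M i.succ 0 = M' i.succ 0)
    (hss : ∀ i j : Fin n, M i.succ j.succ = M' i.succ j.succ) : M = M' := by
  ext i j
  refine Fin.cases ?_ (fun i => ?_) i
  · refine Fin.cases h00 (fun j => h0s j) j
  · refine Fin.cases (hs0 i) (fun j => hss i j) j

theorem bx_eta (M : Matrix (Fin (n + 1)) (Fin (n + 1)) A) :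
    M = bx (M 0 0) (fun j => M 0 j.succ) (fun i => M i.succ 0) (Matrix.of fun i j => M i.succ j.succ) :=
  bx_ext rfl (fun _ => rfl) (fun _ => rfl) (fun _ _ => rfl)

theorem bx_mul (f f' : A) (r y r' y' : Fin n → A) (M M' : Matrix (Fin n) (Fin n) A) :
    bx f r y M * bx f' r' y' M' = bx (f * f' + r ⬝ᵥ y') (fun j => f * r' j + (r ᵥ* M') j)
      (fun i => y i * f' + (M *ᵥ y') i) (Matrix.vecMulVec y r' + M * M') := by
  apply bx_ext
  · rw [Matrix.mul_apply, Fin.sum_univ_succ]; simp [dotProduct]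
  · intro j; rw [Matrix.mul_apply, Fin.sum_univ_succ]; simp [vecMul, dotProduct]
  · intro i; rw [Matrix.mul_apply, Fin.sum_univ_succ]; simp [mulVec, dotProduct]
  · intro i j; rw [Matrix.mul_apply, Fin.sum_univ_succ]; simp [vecMulVec_apply, Matrix.mul_apply]

theorem bx_one : (bx 1 0 0 1 : Matrix (Fin (n + 1)) (Fin (n + 1)) A) = 1 := by
  apply bx_ext
  · simp
  · intro j; simp [(Fin.succ_ne_zero j).symm]
  · intro i; simp [Fin.succ_ne_zero i]
  · intro i j; simp [Matrix.one_apply]

theorem bx_transv (i j : Fin n) (c : A) :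
    bx 1 0 0 (transvection i j c) = transvection i.succ j.succ c := by
  apply bx_ext
  · simp [transvection]
  · intro j; simp [transvection, (Fin.succ_ne_zero j).symm]
  · intro i; simp [transvection, Fin.succ_ne_zero i]
  · intro a b
    simp [transvection, Matrix.one_apply, Matrix.single_apply]

theorem bx_mem {P : Matrix (Fin n) (Fin n) A} (hP : P ∈ EL T (Fin n)) : bx 1 0 0 P ∈ EL T (Fin (n + 1)) := by
  induction hP using Submonoid.closure_induction with
  | mem x hx =>
    obtain ⟨i, j, hij, c, hc, rfl⟩ := hx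
    rw [bx_transv]
    exact EL.transv _ _ (fun h => hij (Fin.succ_injective _ h)) _ hc
  | one => rw [bx_one]; exact Submonoid.one_mem _
  | mul x y _ _ hx hy =>
    have : bx 1 0 0 (x * y) = bx 1 0 0 x * bx 1 0 0 y := by
      rw [bx_mul]
      apply bx_ext <;> intros <;> simp [vecMulVec_apply]
    rw [this]
    exact Submonoid.mul_mem _ hx hy

theorem bx_row_add (r r' : Fin n → A) : bx 1 (r + r') 0 1 = bx 1 r 0 1 * bx 1 r' 0 1 := by
  rw [bx_mul]
  apply bx_ext <;> intros <;> simp [vecMulVec_apply, add_comm]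

theorem bx_col_add (y y' : Fin n → A) : bx 1 0 (y + y') 1 = bx 1 0 y 1 * bx 1 0 y' 1 := by
  rw [bx_mul]
  apply bx_ext <;> intros <;> simp [vecMulVec_apply]

theorem bx_row (r : Fin n → A) (hr : ∀ j, r j ∈ T) : bx 1 r 0 1 ∈ EL T (Fin (n + 1)) := by
  have key : ∀ s : Finset (Fin n), bx 1 (∑ j ∈ s, Pi.single j (r j)) 0 1 ∈ EL T (Fin (n + 1)) := by
    intro s
    induction s using Finset.induction_on with
    | empty => rw [Finset.sum_empty, bx_one]; exact Submonoid.one_mem _
    | insert a s ha ih =>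
      rw [Finset.sum_insert ha, bx_row_add]
      refine Submonoid.mul_mem _ ?_ ih
      have : bx 1 (Pi.single a (r a)) 0 1 = transvection (0 : Fin (n + 1)) a.succ (r a) := by
        apply bx_ext
        · simp [transvection]
        · intro j
          simp only [bx_0s, transvection, Matrix.add_apply, Matrix.one_apply, Matrix.single_apply,
            Pi.single_apply, (Fin.succ_ne_zero j).symm, if_false, zero_add, true_and, Fin.succ_inj]
          by_cases h : j = a
          · subst h; simp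
          · rw [if_neg h, if_neg (Ne.symm h)]
        · intro i; simp [transvection, Fin.succ_ne_zero i, (Fin.succ_ne_zero i).symm]
        · intro i j; simp [transvection, Matrix.one_apply, (Fin.succ_ne_zero i).symm]
      rw [this]
      exact EL.transv _ _ (Fin.succ_ne_zero a).symm _ (hr a)
  have := key Finset.univ
  rwa [Finset.univ_sum_single] at this

theorem bx_col (y : Fin n → A) (hy : ∀ j, y j ∈ T) : bx 1 0 y 1 ∈ EL T (Fin (n + 1)) := by
  have key : ∀ s : Finset (Fin n), bx 1 0 (∑ j ∈ s, Pi.single j (y j)) 1 ∈ EL T (Fin (n + 1)) := by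
    intro s
    induction s using Finset.induction_on with
    | empty => rw [Finset.sum_empty, bx_one]; exact Submonoid.one_mem _
    | insert a s ha ih =>
      rw [Finset.sum_insert ha, bx_col_add]
      refine Submonoid.mul_mem _ ?_ ih
      have : bx 1 0 (Pi.single a (y a)) 1 = transvection a.succ (0 : Fin (n + 1)) (y a) := by
        apply bx_ext
        · simp [transvection, Fin.succ_ne_zero a]
        · intro j; simp [transvection, (Fin.succ_ne_zero j).symm, Fin.succ_ne_zero a]
        · intro i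
          simp only [bx_s0, transvection, Matrix.add_apply, Matrix.one_apply, Matrix.single_apply,
            Pi.single_apply, Fin.succ_ne_zero i, if_false, zero_add, and_true, Fin.succ_inj]
          by_cases h : i = a
          · subst h; simp
          · rw [if_neg h, if_neg (Ne.symm h)]
        · intro i j; simp [transvection, Matrix.one_apply, (Fin.succ_ne_zero j).symm]
      rw [this]
      exact EL.transv _ _ (Fin.succ_ne_zero a) _ (hy a)
  have := key Finset.univ
  rwa [Finset.univ_sum_single] at this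

theorem bx_det_row (f : A) (y : Fin n → A) (M : Matrix (Fin n) (Fin n) A) :
    (bx f 0 y M).det = f * M.det := by
  rw [Matrix.det_succ_row_zero, Fin.sum_univ_succ]
  have h1 : ∀ j : Fin n, bx f 0 y M 0 j.succ = 0 := fun j => rfl
  have h2 : (bx f 0 y M).submatrix Fin.succ Fin.succ = M := by
    ext i j; simp
  simp [h1, h2]

/-- `diag (x, 1, ..., 1)`. -/
def Dg (n : ℕ) (x : A) : Matrix (Fin (n + 1)) (Fin (n + 1)) A := bx x 0 0 1

theorem Dg_det (x : A) : (Dg n x).det = x := by rw [Dg, bx_det_row]; simp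

theorem Dg_mul (x y : A) : Dg n x * Dg n y = Dg n (x * y) := by
  rw [Dg, Dg, Dg, bx_mul]
  apply bx_ext <;> intros <;> simp [vecMulVec_apply]

theorem Dg_one : (Dg n 1 : Matrix (Fin (n + 1)) (Fin (n + 1)) A) = 1 := bx_one

/-- Embedding of `2 × 2` matrices. -/
def E2 (n : ℕ) (m : Matrix (Fin 2) (Fin 2) A) : Matrix (Fin (n + 2)) (Fin (n + 2)) A :=
  bx (m 0 0) (Fin.cons (m 0 1) 0) (Fin.cons (m 1 0) 0) (bx (m 1 1) 0 0 1)

theorem E2_mul (m m' : Matrix (Fin 2) (Fin 2) A) : E2 n (m * m') = E2 n m * E2 n m' := by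
  rw [E2, E2, E2, bx_mul]
  apply bx_ext
  · simp [Matrix.mul_apply, Fin.sum_univ_two, dotProduct, Fin.sum_univ_succ]
  · intro j
    rw [bx_0s, bx_0s]
    refine Fin.cases ?_ (fun j => ?_) j
    · simp [Matrix.mul_apply, vecMul, dotProduct, Fin.sum_univ_succ]
    · simp [vecMul, dotProduct, Fin.sum_univ_succ]
  · intro j
    rw [bx_s0, bx_s0]
    refine Fin.cases ?_ (fun j => ?_) j
    · simp [Matrix.mul_apply, mulVec, dotProduct, Fin.sum_univ_succ]
    · simp [mulVec, dotProduct, Fin.sum_univ_succ]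
  · intro i j
    simp only [bx_ss, Matrix.add_apply, bx_mul]
    refine Fin.cases ?_ (fun i => ?_) i <;> refine Fin.cases ?_ (fun j => ?_) j <;>
      simp [Matrix.mul_apply, Fin.sum_univ_two, vecMulVec_apply]

theorem E2_row (a : A) (ha : a ∈ T) : E2 n !![1, a; 0, 1] ∈ EL T (Fin (n + 2)) := by
  have : E2 n !![1, a; 0, 1] = bx 1 (Fin.cons a 0) 0 1 := by
    rw [E2]
    have h1 : (bx ((!![1, a; 0, 1] : Matrix (Fin 2) (Fin 2) A) 1 1) 0 0 1 : Matrix (Fin (n + 1)) (Fin (n + 1)) A) = 1 := by
      simpa using bx_one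
    rw [h1]
    apply bx_ext <;> intros <;> simp
    rename_i i
    refine Fin.cases ?_ (fun i => ?_) i <;> simp
  rw [this]
  apply bx_row
  intro j
  refine Fin.cases ?_ (fun j => ?_) j
  · simpa using ha
  · simpa using T.zero_mem

theorem E2_col (a : A) (ha : a ∈ T) : E2 n !![1, 0; a, 1] ∈ EL T (Fin (n + 2)) := by
  have : E2 n !![1, 0; a, 1] = bx 1 0 (Fin.cons a 0) 1 := by
    rw [E2]
    have h1 : (bx ((!![1, 0; a, 1] : Matrix (Fin 2) (Fin 2) A) 1 1) 0 0 1 : Matrix (Fin (n + 1)) (Fin (n + 1)) A) = 1 := by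
      simpa using bx_one
    rw [h1]
    apply bx_ext <;> intros <;> simp
    rename_i i
    refine Fin.cases ?_ (fun i => ?_) i <;> simp
  rw [this]
  apply bx_col
  intro j
  refine Fin.cases ?_ (fun j => ?_) j
  · simpa using ha
  · simpa using T.zero_mem

/-- Elementary equivalence. -/
def EEq (T : Subring A) {ι : Type*} [Fintype ι] [DecidableEq ι] (M M' : Matrix ι ι A) : Prop :=
  ∃ P ∈ EL T ι, ∃ Q ∈ EL T ι, P * M * Q = M'

theorem EEq.refl {ι : Type*} [Fintype ι] [DecidableEq ι] (M : Matrix ι ι A) : EEq T M M :=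
  ⟨1, Submonoid.one_mem _, 1, Submonoid.one_mem _, by simp⟩

theorem EEq.trans {ι : Type*} [Fintype ι] [DecidableEq ι] {M M' M'' : Matrix ι ι A} (h : EEq T M M')
    (h' : EEq T M' M'') : EEq T M M'' := by
  obtain ⟨P, hP, Q, hQ, rfl⟩ := h
  obtain ⟨P', hP', Q', hQ', rfl⟩ := h'
  exact ⟨P' * P, Submonoid.mul_mem _ hP' hP, Q * Q', Submonoid.mul_mem _ hQ hQ', by simp only [mul_assoc]⟩

theorem EEq.det {ι : Type*} [Fintype ι] [DecidableEq ι] {M M' : Matrix ι ι A} (h : EEq T M M') :
    M'.det = M.det := by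
  obtain ⟨P, hP, Q, hQ, rfl⟩ := h
  rw [Matrix.det_mul, Matrix.det_mul, EL.det hP, EL.det hQ]; ring

theorem EEq.left {ι : Type*} [Fintype ι] [DecidableEq ι] {P : Matrix ι ι A} (hP : P ∈ EL T ι) (M : Matrix ι ι A) :
    EEq T M (P * M) := ⟨P, hP, 1, Submonoid.one_mem _, by simp⟩

theorem EEq.right {ι : Type*} [Fintype ι] [DecidableEq ι] {P : Matrix ι ι A} (hP : P ∈ EL T ι) (M : Matrix ι ι A) :
    EEq T M (M * P) := ⟨1, Submonoid.one_mem _, P, hP, by simp⟩

theorem whitehead2 (u v w : A) (hu : u ∈ T) (hv : v ∈ T) (hw : w ∈ T) (h : u * w = 1 ∨ v * w = 1) :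
    EEq T (bx u 0 0 (Dg n v)) (Dg (n + 1) (u * v)) := by
  have e1 : bx u 0 0 (Dg n v) = E2 n !![u, 0; 0, v] := by
    rw [E2, Dg]
    apply bx_ext <;> intros <;> simp
    all_goals
      rename_i i
      refine Fin.cases ?_ (fun i => ?_) i <;> simp
  have e2 : Dg (n + 1) (u * v) = E2 n !![u * v, 0; 0, 1] := by
    rw [E2, Dg]
    have h1 : (bx ((!![u * v, 0; 0, 1] : Matrix (Fin 2) (Fin 2) A) 1 1) 0 0 1 : Matrix (Fin (n + 1)) (Fin (n + 1)) A) = 1 := by
      simpa using bx_one
    rw [h1]
    apply bx_ext <;> intros <;> simp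
    all_goals
      rename_i i
      refine Fin.cases ?_ (fun i => ?_) i <;> simp
  rw [e1, e2]
  have hswap : E2 n !![(0 : A), 1; -1, 0] ∈ EL T (Fin (n + 2)) := by
    have : (!![(0 : A), 1; -1, 0] : Matrix (Fin 2) (Fin 2) A) =
        !![1, 1; 0, 1] * !![1, 0; -1, 1] * !![1, 1; 0, 1] := by
      ext i j; fin_cases i <;> fin_cases j <;> simp [Matrix.mul_apply, Fin.sum_univ_two]
    rw [this, E2_mul, E2_mul]
    exact Submonoid.mul_mem _ (Submonoid.mul_mem _ (E2_row 1 T.one_mem) (E2_col _ (T.neg_mem T.one_mem)))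
      (E2_row 1 T.one_mem)
  have hswap' : E2 n !![(0 : A), -1; 1, 0] ∈ EL T (Fin (n + 2)) := by
    have : (!![(0 : A), -1; 1, 0] : Matrix (Fin 2) (Fin 2) A) =
        !![1, -1; 0, 1] * !![1, 0; 1, 1] * !![1, -1; 0, 1] := by
      ext i j; fin_cases i <;> fin_cases j <;> simp [Matrix.mul_apply, Fin.sum_univ_two]
    rw [this, E2_mul, E2_mul]
    exact Submonoid.mul_mem _ (Submonoid.mul_mem _ (E2_row _ (T.neg_mem T.one_mem)) (E2_col _ T.one_mem))
      (E2_row _ (T.neg_mem T.one_mem))
  rcases h with h | h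
  · refine ⟨E2 n !![1, -u; 0, 1] * E2 n !![1, 0; w, 1],
      Submonoid.mul_mem _ (E2_row _ (T.neg_mem hu)) (E2_col _ hw),
      E2 n !![1, -v; 0, 1] * E2 n !![(0 : A), 1; -1, 0],
      Submonoid.mul_mem _ (E2_row _ (T.neg_mem hv)) hswap, ?_⟩
    rw [← E2_mul, ← E2_mul, ← E2_mul, ← E2_mul]
    congr 1
    ext i j; fin_cases i <;> fin_cases j <;> simp [Matrix.mul_apply, Fin.sum_univ_two] <;>
      first | linear_combination (-(u * v)) * h | linear_combination (-u) * h | linear_combination v * h | linear_combination h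
  · refine ⟨E2 n !![(0 : A), -1; 1, 0] * E2 n !![1, 0; -v, 1] * E2 n !![1, w; 0, 1],
      Submonoid.mul_mem _ (Submonoid.mul_mem _ hswap' (E2_col _ (T.neg_mem hv))) (E2_row _ hw),
      E2 n !![1, 0; -u, 1], E2_col _ (T.neg_mem hu), ?_⟩
    rw [← E2_mul, ← E2_mul, ← E2_mul, ← E2_mul]
    congr 1
    ext i j; fin_cases i <;> fin_cases j <;> simp [Matrix.mul_apply, Fin.sum_univ_two] <;>
      first | linear_combination (-(u * v)) * h | linear_combination v * h | linear_combination (-u) * h | linear_combination h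

end border

end Pool.Agent.Helper605
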