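import Mathlib
import Pool.Agent.Helper605.EL

set_option autoImplicit false
set_option linter.all false

namespace Pool.Agent.Helper605

open Matrix Finset

theorem vecMul_E2 {A : Type*} [CommRing A] (n : ℕ) (a b : A) (m : Matrix (Fin 2) (Fin 2) A) :
    (Fin.cons a (Fin.cons b 0) : Fin (n + 2) → A) ᵥ* E2 n m =
      Fin.cons (a * m 0 0 + b * m 1 0) (Fin.cons (a * m 0 1 + b * m 1 1) 0) := by
  funext j
  refine Fin.cases ?_ (fun j => ?_) j
  · rw [Fin.cons_zero, vecMul, dotProduct, Fin.sum_univ_succ, Fin.sum_univ_succ]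
    simp only [E2, Fin.cons_zero, Fin.cons_succ, bx_00, bx_s0, Pi.zero_apply, zero_mul, Finset.sum_const_zero, add_zero]
  · rw [Fin.cons_succ, vecMul, dotProduct, Fin.sum_univ_succ, Fin.sum_univ_succ]
    simp only [E2, Fin.cons_zero, Fin.cons_succ, bx_0s, bx_ss, Pi.zero_apply, zero_mul, Finset.sum_const_zero, add_zero]
    refine Fin.cases ?_ (fun j => ?_) j
    · simp
    · simp

theorem bez2 {R : Type*} [EuclideanDomain R] (a b : R) : ∀ s t : R, s * s = 1 → t * t = 1 → ∀ n : ℕ,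
    ∃ Q ∈ EL (⊤ : Subring R) (Fin (n + 2)), ∀ j, j ≠ 0 → ((Fin.cons (s * a) (Fin.cons (t * b) 0) : Fin (n + 2) → R) ᵥ* Q) j = 0 := by
  classical
  refine EuclideanDomain.GCD.induction (P := fun a b => ∀ s t : R, s * s = 1 → t * t = 1 → ∀ n : ℕ,
    ∃ Q ∈ EL (⊤ : Subring R) (Fin (n + 2)), ∀ j, j ≠ 0 → ((Fin.cons (s * a) (Fin.cons (t * b) 0) : Fin (n + 2) → R) ᵥ* Q) j = 0)
    a b ?_ ?_
  · intro x s t hs ht n
    refine ⟨E2 n !![1, -1; 0, 1] * E2 n !![1, 0; 1, 1] * E2 n !![1, -1; 0, 1],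
      Submonoid.mul_mem _ (Submonoid.mul_mem _ (E2_row _ trivial) (E2_col _ trivial)) (E2_row _ trivial), ?_⟩
    intro j hj
    rw [← E2_mul, ← E2_mul, vecMul_E2]
    obtain ⟨j, rfl⟩ := Fin.exists_succ_eq.mpr hj
    rw [Fin.cons_succ]
    refine Fin.cases ?_ (fun j => ?_) j
    · simp [Matrix.mul_apply, Fin.sum_univ_two]
    · simp
  · intro a b ha ih s t hs ht n
    obtain ⟨Q, hQ, h⟩ := ih (-t) s (by rw [neg_mul_neg, ht]) hs n
    refine ⟨E2 n !![1, -(s * t * (b / a)); 0, 1] * (E2 n !![1, 1; 0, 1] * E2 n !![1, 0; -1, 1] * E2 n !![1, 1; 0, 1]) * Q,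
      Submonoid.mul_mem _ (Submonoid.mul_mem _ (E2_row _ trivial) (Submonoid.mul_mem _ (Submonoid.mul_mem _ (E2_row _ trivial)
        (E2_col _ trivial)) (E2_row _ trivial))) hQ, ?_⟩
    intro j hj
    rw [← E2_mul, ← E2_mul, ← E2_mul, ← Matrix.vecMul_vecMul, vecMul_E2]
    have hmod := EuclideanDomain.div_add_mod b a
    refine Eq.trans ?_ (h j hj)
    congr 3
    · simp [Matrix.mul_apply, Fin.sum_univ_two]
      linear_combination t * hmod + t * (b / a) * a * hs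
    · congr 1
      simp [Matrix.mul_apply, Fin.sum_univ_two]
      try ring

theorem bez {R : Type*} [EuclideanDomain R] : ∀ (n : ℕ) (r : Fin (n + 1) → R),
    ∃ Q ∈ EL (⊤ : Subring R) (Fin (n + 1)), ∀ j, j ≠ 0 → (r ᵥ* Q) j = 0 := by
  intro n
  induction n with
  | zero =>
    intro r
    refine ⟨1, Submonoid.one_mem _, fun j hj => ?_⟩
    exact absurd (Fin.fin_one_eq_zero j) hj
  | succ n ih =>
    intro r
    obtain ⟨Q, hQ, h⟩ := ih (fun j => r j.succ)
    obtain ⟨Q2, hQ2, h2⟩ := bez2 (r 0) (((fun j => r j.succ) ᵥ* Q) 0) 1 1 (by simp) (by simp) n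
    refine ⟨bx 1 0 0 Q * Q2, Submonoid.mul_mem _ (bx_mem hQ) hQ2, ?_⟩
    intro j hj
    rw [← Matrix.vecMul_vecMul]
    have h3 : r ᵥ* bx 1 0 0 Q = Fin.cons (1 * r 0) (Fin.cons (1 * ((fun j => r j.succ) ᵥ* Q) 0) 0) := by
      funext i
      refine Fin.cases ?_ (fun i => ?_) i
      · rw [Fin.cons_zero, vecMul, dotProduct, Fin.sum_univ_succ]
        simp
      · have h4 : (r ᵥ* bx 1 0 0 Q) i.succ = ((fun j => r j.succ) ᵥ* Q) i := by
          rw [vecMul, dotProduct, Fin.sum_univ_succ, vecMul, dotProduct]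
          simp
        rw [h4, Fin.cons_succ]
        refine Fin.cases ?_ (fun i => ?_) i
        · simp
        · rw [Fin.cons_succ, h i.succ (Fin.succ_ne_zero i)]; rfl
    rw [h3]
    exact h2 j hj

/-- Unimodular reduction of rows over `E`. -/
def BezP (E : Subring ℝ) : Prop := ∀ (n : ℕ) (r : Fin (n + 1) → ℝ), (∀ j, r j ∈ E) →
  ∃ Q ∈ EL E (Fin (n + 1)), ∀ j, j ≠ 0 → (r ᵥ* Q) j = 0

theorem bezP_top : BezP ⊤ := fun n r _ => bez n r

theorem bezP_bot : BezP ⊥ := by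
  intro n r hr
  have : ∀ j, ∃ k : ℤ, (k : ℝ) = r j := by
    intro j
    exact Subring.mem_bot.mp (hr j)
  choose r' hr' using this
  obtain ⟨Q, hQ, h⟩ := bez n r'
  refine ⟨Q.map (Int.castRingHom ℝ), EL.map (Int.castRingHom ℝ) (fun a _ => ?_) hQ, ?_⟩
  · exact Subring.mem_bot.mpr ⟨a, by simp⟩
  · intro j hj
    have h1 := congrArg (Int.castRingHom ℝ) (h j hj)
    rw [RingHom.map_vecMul, map_zero] at h1
    rw [← h1]
    have h2 : (Int.castRingHom ℝ) ∘ r' = r := by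
      funext j; simp [hr' j]
    rw [h2]

end Pool.Agent.Helper605
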