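import Mathlib
import Pool.Agent.Helper605.Zbound
import Pool.Agent.Helper605.Kill

set_option autoImplicit false
set_option linter.all false

namespace Pool.Agent.Helper605

open PowerSeries Finset Filter Topology

variable {𝕜 : Type*} [NormedField 𝕜]

/-- The weighted `ℓ¹` norm of `f` is at most `c`. -/
def Bd (ρ : ℝ) (f : PowerSeries 𝕜) (c : ℝ) : Prop := ∀ K, ∑ k ∈ range K, ‖coeff k f‖ * ρ ^ k ≤ c

theorem Bd.nonneg {ρ : ℝ} {f : PowerSeries 𝕜} {c : ℝ} (h : Bd ρ f c) : 0 ≤ c := by simpa using h 0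

theorem Bd.le {ρ : ℝ} {f : PowerSeries 𝕜} {c c' : ℝ} (h : Bd ρ f c) (hc : c ≤ c') : Bd ρ f c' :=
  fun K => (h K).trans hc

theorem Bd.mono {ρ ρ' : ℝ} {f : PowerSeries 𝕜} {c : ℝ} (h : Bd ρ f c) (h0 : 0 ≤ ρ') (h1 : ρ' ≤ ρ) : Bd ρ' f c := by
  intro K
  refine le_trans ?_ (h K)
  apply Finset.sum_le_sum
  intro k _
  exact mul_le_mul_of_nonneg_left (pow_le_pow_left₀ h0 h1 k) (norm_nonneg _)

theorem Bd.add {ρ : ℝ} (hρ : 0 ≤ ρ) {f g : PowerSeries 𝕜} {c d : ℝ} (hf : Bd ρ f c) (hg : Bd ρ g d) :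
    Bd ρ (f + g) (c + d) := by
  intro K
  calc ∑ k ∈ range K, ‖coeff k (f + g)‖ * ρ ^ k ≤ ∑ k ∈ range K, (‖coeff k f‖ * ρ ^ k + ‖coeff k g‖ * ρ ^ k) := by
        apply Finset.sum_le_sum
        intro k _
        rw [map_add, ← add_mul]
        exact mul_le_mul_of_nonneg_right (norm_add_le _ _) (by positivity)
    _ ≤ c + d := by rw [Finset.sum_add_distrib]; exact add_le_add (hf K) (hg K)

theorem Bd.neg {ρ : ℝ} {f : PowerSeries 𝕜} {c : ℝ} (hf : Bd ρ f c) : Bd ρ (-f) c := by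
  intro K
  refine le_trans (le_of_eq ?_) (hf K)
  apply Finset.sum_congr rfl
  intro k _
  rw [map_neg, norm_neg]

theorem Bd.sub {ρ : ℝ} (hρ : 0 ≤ ρ) {f g : PowerSeries 𝕜} {c d : ℝ} (hf : Bd ρ f c) (hg : Bd ρ g d) :
    Bd ρ (f - g) (c + d) := by
  rw [sub_eq_add_neg]
  exact hf.add hρ hg.neg

theorem Bd.mul {ρ : ℝ} (hρ : 0 ≤ ρ) {f g : PowerSeries 𝕜} {c d : ℝ} (hf : Bd ρ f c) (hg : Bd ρ g d) :
    Bd ρ (f * g) (c * d) := by
  intro K
  calc ∑ k ∈ range K, ‖coeff k (f * g)‖ * ρ ^ k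
      ≤ ∑ k ∈ range K, ∑ y ∈ antidiagonal k, (‖coeff y.1 f‖ * ρ ^ y.1) * (‖coeff y.2 g‖ * ρ ^ y.2) := by
        apply Finset.sum_le_sum
        intro k _
        rw [coeff_mul]
        calc ‖∑ y ∈ antidiagonal k, coeff y.1 f * coeff y.2 g‖ * ρ ^ k
            ≤ (∑ y ∈ antidiagonal k, ‖coeff y.1 f * coeff y.2 g‖) * ρ ^ k :=
              mul_le_mul_of_nonneg_right (norm_sum_le _ _) (by positivity)
          _ = _ := by
            rw [Finset.sum_mul]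
            apply Finset.sum_congr rfl
            intro y hy
            rw [Finset.HasAntidiagonal.mem_antidiagonal] at hy
            rw [norm_mul, ← hy, pow_add]
            ring
    _ ≤ (∑ i ∈ range K, ‖coeff i f‖ * ρ ^ i) * ∑ j ∈ range K, ‖coeff j g‖ * ρ ^ j :=
        sum_conv_le (fun i => ‖coeff i f‖ * ρ ^ i) (fun j => ‖coeff j g‖ * ρ ^ j)
          (fun i => by positivity) (fun j => by positivity) K
    _ ≤ c * d := mul_le_mul (hf K) (hg K) (Finset.sum_nonneg fun j _ => by positivity) hf.nonneg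

theorem Bd.zero {ρ : ℝ} : Bd ρ (0 : PowerSeries 𝕜) 0 := by
  intro K; simp

theorem Bd.C_mul_X_pow {ρ : ℝ} (hρ : 0 ≤ ρ) (a : 𝕜) (n : ℕ) : Bd ρ (C a * X ^ n : PowerSeries 𝕜) (‖a‖ * ρ ^ n) := by
  intro K
  have h1 : ∀ k ∈ range K, ‖coeff k (C a * X ^ n : PowerSeries 𝕜)‖ * ρ ^ k = if k = n then ‖a‖ * ρ ^ n else 0 := by
    intro k _
    rw [coeff_C_mul, coeff_X_pow]
    split_ifs with h
    · rw [h, mul_one]
    · simp
  rw [Finset.sum_congr rfl h1, Finset.sum_ite_eq']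
  split_ifs
  · exact le_rfl
  · positivity

theorem Bd.C {ρ : ℝ} (hρ : 0 ≤ ρ) (a : 𝕜) : Bd ρ (C a : PowerSeries 𝕜) ‖a‖ := by
  have := Bd.C_mul_X_pow hρ a 0
  simpa using this

theorem Bd.one {ρ : ℝ} (hρ : 0 ≤ ρ) : Bd ρ (1 : PowerSeries 𝕜) 1 := by
  have := Bd.C hρ (1 : 𝕜)
  simpa using this

theorem Bd.coeff {ρ : ℝ} (hρ : 0 ≤ ρ) {f : PowerSeries 𝕜} {c : ℝ} (hf : Bd ρ f c) (k : ℕ) :
    ‖coeff k f‖ * ρ ^ k ≤ c := by
  refine le_trans ?_ (hf (k + 1))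
  exact Finset.single_le_sum (f := fun i => ‖PowerSeries.coeff i f‖ * ρ ^ i) (fun j _ => by positivity)
    (Finset.self_mem_range_succ k)

theorem Bd.sum {ρ : ℝ} (hρ : 0 ≤ ρ) {ι : Type*} (s : Finset ι) (f : ι → PowerSeries 𝕜) (c : ι → ℝ)
    (h : ∀ i ∈ s, Bd ρ (f i) (c i)) : Bd ρ (∑ i ∈ s, f i) (∑ i ∈ s, c i) := by
  classical
  induction s using Finset.induction_on with
  | empty => simpa using Bd.zero
  | insert a s ha ih =>
    rw [Finset.sum_insert ha, Finset.sum_insert ha]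
    exact (h a (Finset.mem_insert_self a s)).add hρ (ih fun i hi => h i (Finset.mem_insert_of_mem hi))

theorem Bd.poly {ρ : ℝ} (hρ : 0 ≤ ρ) (p : Polynomial 𝕜) : ∃ c, Bd ρ (p : PowerSeries 𝕜) c := by
  induction p using Polynomial.induction_on' with
  | add p q hp hq =>
    obtain ⟨c, hc⟩ := hp
    obtain ⟨d, hd⟩ := hq
    exact ⟨c + d, by rw [Polynomial.coe_add]; exact hc.add hρ hd⟩
  | monomial n a =>
    refine ⟨‖a‖ * ρ ^ n, ?_⟩
    rw [← Polynomial.C_mul_X_pow_eq_monomial]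
    simpa using Bd.C_mul_X_pow hρ a n

theorem Bd.inv {ρ : ℝ} (hρ : 0 ≤ ρ) {f : PowerSeries 𝕜} {c : ℝ} (h0 : PowerSeries.coeff 0 f = 1) (hf : Bd ρ (1 - f) c)
    (hc : c < 1) : Bd ρ f⁻¹ (1 / (1 - c)) := by
  have hcc : constantCoeff f ≠ 0 := by
    rw [← coeff_zero_eq_constantCoeff_apply, h0]; exact one_ne_zero
  set g := f⁻¹ with hg
  have hfg : f * g = 1 := PowerSeries.mul_inv_cancel _ hcc
  have hgg : g = 1 + (1 - f) * g := by rw [sub_mul, one_mul, hfg]; ring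
  have h1c : 0 < 1 - c := by linarith
  intro K
  rw [le_div_iff₀ h1c]
  set s := ∑ k ∈ range K, ‖PowerSeries.coeff k g‖ * ρ ^ k with hs
  have h1 : s ≤ ∑ k ∈ range K, ‖PowerSeries.coeff k (1 : PowerSeries 𝕜)‖ * ρ ^ k +
      ∑ k ∈ range K, ∑ y ∈ antidiagonal k, (‖PowerSeries.coeff y.1 (1 - f)‖ * ρ ^ y.1) * (‖PowerSeries.coeff y.2 g‖ * ρ ^ y.2) := by
    rw [← Finset.sum_add_distrib, hs]
    apply Finset.sum_le_sum
    intro k _
    have h2 : PowerSeries.coeff k g = PowerSeries.coeff k (1 : PowerSeries 𝕜) + PowerSeries.coeff k ((1 - f) * g) := by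
      conv_lhs => rw [hgg]
      rw [map_add]
    rw [h2, coeff_mul]
    calc ‖PowerSeries.coeff k (1 : PowerSeries 𝕜) + ∑ y ∈ antidiagonal k, PowerSeries.coeff y.1 (1 - f) * PowerSeries.coeff y.2 g‖ * ρ ^ k
        ≤ (‖PowerSeries.coeff k (1 : PowerSeries 𝕜)‖ + ∑ y ∈ antidiagonal k, ‖PowerSeries.coeff y.1 (1 - f) * PowerSeries.coeff y.2 g‖) * ρ ^ k :=
          mul_le_mul_of_nonneg_right ((norm_add_le _ _).trans (add_le_add le_rfl (norm_sum_le _ _))) (by positivity)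
      _ = _ := by
        rw [add_mul]
        congr 1
        rw [Finset.sum_mul]
        apply Finset.sum_congr rfl
        intro y hy
        rw [Finset.HasAntidiagonal.mem_antidiagonal] at hy
        rw [norm_mul, ← hy, pow_add]
        ring
  have h2 := sum_conv_le (fun i => ‖PowerSeries.coeff i (1 - f)‖ * ρ ^ i) (fun j => ‖PowerSeries.coeff j g‖ * ρ ^ j)
          (fun i => by positivity) (fun j => by positivity) K
  have h3 : (∑ i ∈ range K, ‖PowerSeries.coeff i (1 - f)‖ * ρ ^ i) * s ≤ c * s :=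
    mul_le_mul_of_nonneg_right (hf K) (Finset.sum_nonneg fun j _ => by positivity)
  have h4 := Bd.one (𝕜 := 𝕜) hρ K
  nlinarith

theorem Bd.summable {ρ : ℝ} (hρ : 0 ≤ ρ) {f : PowerSeries 𝕜} {c : ℝ} (hf : Bd ρ f c) :
    Summable fun k => ‖PowerSeries.coeff k f‖ * ρ ^ k :=
  summable_of_sum_range_le (fun k => by positivity) hf

theorem Bd.tail {ρ : ℝ} (hρ : 0 ≤ ρ) {f : PowerSeries 𝕜} {c : ℝ} (hf : Bd ρ f c) (ε : ℝ) (hε : 0 < ε) :
    ∀ᶠ K in atTop, Bd ρ (f - (PowerSeries.trunc K f : PowerSeries 𝕜)) ε := by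
  have h1 := hf.summable hρ
  have h2 := h1.hasSum.tendsto_sum_nat
  have h3 : ∀ᶠ K in atTop, ∑' k, ‖PowerSeries.coeff k f‖ * ρ ^ k - ε < ∑ k ∈ range K, ‖PowerSeries.coeff k f‖ * ρ ^ k :=
    h2.eventually (lt_mem_nhds (by linarith))
  filter_upwards [h3] with K hK
  intro K'
  have hterm : ∀ k, ‖PowerSeries.coeff k (f - (PowerSeries.trunc K f : PowerSeries 𝕜))‖ * ρ ^ k =
      if k < K then 0 else ‖PowerSeries.coeff k f‖ * ρ ^ k := by
    intro k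
    rw [map_sub, Polynomial.coeff_coe, PowerSeries.coeff_trunc]
    split_ifs <;> simp
  have h4 : ∑ k ∈ range K, ‖PowerSeries.coeff k f‖ * ρ ^ k + ∑ k ∈ range K', ‖PowerSeries.coeff k (f - (PowerSeries.trunc K f : PowerSeries 𝕜))‖ * ρ ^ k
      ≤ ∑ k ∈ range (max K K'), ‖PowerSeries.coeff k f‖ * ρ ^ k := by
    rw [Finset.sum_congr rfl (fun k _ => hterm k)]
    have h5 : ∑ k ∈ range K, ‖PowerSeries.coeff k f‖ * ρ ^ k ≤
        ∑ k ∈ range (max K K'), if k < K then ‖PowerSeries.coeff k f‖ * ρ ^ k else 0 := by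
      rw [← Finset.sum_filter]
      apply Finset.sum_le_sum_of_subset_of_nonneg
      · intro k hk
        rw [Finset.mem_range] at hk
        rw [Finset.mem_filter, Finset.mem_range]
        exact ⟨lt_of_lt_of_le hk (le_max_left _ _), hk⟩
      · intro k _ _; positivity
    have h6 : ∑ k ∈ range K', (if k < K then 0 else ‖PowerSeries.coeff k f‖ * ρ ^ k) ≤
        ∑ k ∈ range (max K K'), if k < K then 0 else ‖PowerSeries.coeff k f‖ * ρ ^ k := by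
      apply Finset.sum_le_sum_of_subset_of_nonneg
      · apply Finset.range_mono (le_max_right _ _)
      · intro k _ _; split_ifs <;> positivity
    refine (add_le_add h5 h6).trans (le_of_eq ?_)
    rw [← Finset.sum_add_distrib]
    apply Finset.sum_congr rfl
    intro k _
    split_ifs <;> simp
  have h7 : ∑ k ∈ range (max K K'), ‖PowerSeries.coeff k f‖ * ρ ^ k ≤ ∑' k, ‖PowerSeries.coeff k f‖ * ρ ^ k :=
    h1.sum_le_tsum _ (fun k _ => by positivity)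
  linarith

theorem Bd.eval {ρ : ℝ} {p : Polynomial ℝ} {c : ℝ} (hρ : 0 ≤ ρ) (h : Bd ρ (p : PowerSeries ℝ) c) : |p.eval ρ| ≤ c := by
  rw [Polynomial.eval_eq_sum_range]
  refine (Finset.abs_sum_le_sum_abs _ _).trans (le_trans (le_of_eq ?_) (h (p.natDegree + 1)))
  apply Finset.sum_congr rfl
  intro k _
  rw [abs_mul, abs_of_nonneg (pow_nonneg hρ k), Polynomial.coeff_coe, Real.norm_eq_abs]

/-- The ring of series over `S` with finite weighted norm. -/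
def RR (ρ : ℝ) (hρ : 0 ≤ ρ) (S : Subring ℝ) : Subring (PowerSeries ℝ) where
  carrier := {f | InS S f ∧ ∃ c, Bd ρ f c}
  mul_mem' := by
    rintro f g ⟨hf, c, hc⟩ ⟨hg, d, hd⟩
    exact ⟨hf.mul hg, c * d, hc.mul hρ hd⟩
  one_mem' := ⟨InS.one, 1, Bd.one hρ⟩
  add_mem' := by
    rintro f g ⟨hf, c, hc⟩ ⟨hg, d, hd⟩
    exact ⟨fun k => by rw [map_add]; exact S.add_mem (hf k) (hg k), c + d, hc.add hρ hd⟩
  zero_mem' := ⟨fun k => by simpa using S.zero_mem, 0, Bd.zero⟩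
  neg_mem' := by
    rintro f ⟨hf, c, hc⟩
    exact ⟨fun k => by rw [map_neg]; exact S.neg_mem (hf k), c, hc.neg⟩

variable {ρ : ℝ} {hρ : 0 ≤ ρ} {S : Subring ℝ}

theorem RR.mem_iff {f : PowerSeries ℝ} : f ∈ RR ρ hρ S ↔ InS S f ∧ ∃ c, Bd ρ f c := Iff.rfl

theorem RR.inv_mem {f : PowerSeries ℝ} (hf : f ∈ RR ρ hρ S) (h0 : PowerSeries.coeff 0 f = 1)
    (h : ∃ c, Bd ρ f⁻¹ c) : f⁻¹ ∈ RR ρ hρ S := ⟨hf.1.inv h0, h⟩

theorem RR.mono {S' : Subring ℝ} (h : S ≤ S') : RR ρ hρ S ≤ RR ρ hρ S' :=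
  fun _ hf => ⟨fun k => h (hf.1 k), hf.2⟩

theorem RR.C_mul_X_pow (a : ℝ) (ha : a ∈ S) (n : ℕ) : (PowerSeries.C a * PowerSeries.X ^ n) ∈ RR ρ hρ S := by
  refine ⟨fun k => ?_, _, Bd.C_mul_X_pow hρ a n⟩
  rw [coeff_C_mul, coeff_X_pow]
  split_ifs
  · simpa using ha
  · simpa using S.zero_mem

theorem RR.C (a : ℝ) (ha : a ∈ S) : (PowerSeries.C a) ∈ RR ρ hρ S := by
  simpa using RR.C_mul_X_pow (ρ := ρ) (hρ := hρ) a ha 0

theorem RR.poly (p : Polynomial ℝ) (hp : ∀ k, p.coeff k ∈ S) : (p : PowerSeries ℝ) ∈ RR ρ hρ S :=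
  ⟨fun k => by rw [Polynomial.coeff_coe]; exact hp k, Bd.poly hρ p⟩

end Pool.Agent.Helper605
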