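import Mathlib
import Pool.Agent.Helper605.BdN

set_option autoImplicit false
set_option linter.all false

namespace Pool.Agent.Helper605

open PowerSeries Finset Filter Topology

/-- Invertible series with constant coefficient one in the weighted `ℓ¹` algebra. -/
def IsU (ρ : ℝ) (u : PowerSeries ℝ) : Prop := coeff 0 u = 1 ∧ (∃ b, Bd ρ u b) ∧ ∃ b, Bd ρ u⁻¹ b

theorem coeff0_inv {f : PowerSeries ℝ} (h : coeff 0 f = 1) : coeff 0 f⁻¹ = 1 := by
  rw [coeff_zero_eq_constantCoeff_apply] at *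
  rw [PowerSeries.constantCoeff_inv, h, inv_one]

theorem coeff0_mul {f g : PowerSeries ℝ} (h : coeff 0 f = 1) (h' : coeff 0 g = 1) : coeff 0 (f * g) = 1 := by
  rw [coeff_zero_eq_constantCoeff_apply] at *
  rw [map_mul, h, h', one_mul]

theorem mul_inv1 {f : PowerSeries ℝ} (h : coeff 0 f = 1) : f * f⁻¹ = 1 :=
  PowerSeries.mul_inv_cancel _ (by rw [← coeff_zero_eq_constantCoeff_apply, h]; exact one_ne_zero)

theorem inv_mul1 {f : PowerSeries ℝ} (h : coeff 0 f = 1) : f⁻¹ * f = 1 :=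
  PowerSeries.inv_mul_cancel _ (by rw [← coeff_zero_eq_constantCoeff_apply, h]; exact one_ne_zero)

theorem inv_eq_of {f g : PowerSeries ℝ} (h : coeff 0 f = 1) (hfg : f * g = 1) : f⁻¹ = g := by
  calc f⁻¹ = f⁻¹ * (f * g) := by rw [hfg, mul_one]
    _ = g := by rw [← mul_assoc, inv_mul1 h, one_mul]

theorem IsU.mul {ρ : ℝ} (hρ : 0 ≤ ρ) {u v : PowerSeries ℝ} (hu : IsU ρ u) (hv : IsU ρ v) : IsU ρ (u * v) := by
  obtain ⟨u0, ⟨a, ha⟩, b, hb⟩ := hu
  obtain ⟨v0, ⟨c, hc⟩, d, hd⟩ := hv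
  refine ⟨coeff0_mul u0 v0, ⟨_, ha.mul hρ hc⟩, b * d, ?_⟩
  rw [inv_eq_of (coeff0_mul u0 v0) (g := u⁻¹ * v⁻¹)]
  · exact hb.mul hρ hd
  · calc u * v * (u⁻¹ * v⁻¹) = (u * u⁻¹) * (v * v⁻¹) := by ring
      _ = 1 := by rw [mul_inv1 u0, mul_inv1 v0, one_mul]

theorem IsU.inv {ρ : ℝ} {u : PowerSeries ℝ} (hu : IsU ρ u) : IsU ρ u⁻¹ := by
  obtain ⟨u0, ⟨a, ha⟩, b, hb⟩ := hu
  refine ⟨coeff0_inv u0, ⟨b, hb⟩, a, ?_⟩
  rw [inv_eq_of (coeff0_inv u0) (inv_mul1 u0)]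
  exact ha

theorem IsU.one {ρ : ℝ} (hρ : 0 ≤ ρ) : IsU ρ 1 := by
  refine ⟨by simp, ⟨1, Bd.one hρ⟩, 1, ?_⟩
  rw [inv_eq_of (by simp) (one_mul 1)]
  exact Bd.one hρ

/-- Division property for the coefficient ring `E`. -/
def DivP (ρ : ℝ) (hρ : 0 ≤ ρ) (E : Subring ℝ) : Prop :=
  ∀ c ∈ E, c ≠ 0 → ∀ f ∈ RR ρ hρ E, coeff 0 f = 1 →
    ∃ u α, u ∈ RR ρ hρ E ∧ IsU ρ u ∧ α ∈ RR ρ hρ E ∧ f = u + C c * X * α

theorem Bd.shift {ρ : ℝ} (hρ : 0 < ρ) {f : PowerSeries ℝ} {c : ℝ} (hf : Bd ρ f c) :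
    Bd ρ (PowerSeries.mk fun k => PowerSeries.coeff (k + 1) f) (c / ρ) := by
  intro K
  rw [le_div_iff₀ hρ]
  refine le_trans ?_ (hf (K + 1))
  rw [Finset.sum_range_succ', Finset.sum_mul]
  have : ∑ i ∈ range K, ‖PowerSeries.coeff i (PowerSeries.mk fun k => PowerSeries.coeff (k + 1) f)‖ * ρ ^ i * ρ =
      ∑ k ∈ range K, ‖PowerSeries.coeff (k + 1) f‖ * ρ ^ (k + 1) := by
    apply Finset.sum_congr rfl
    intro k _
    rw [coeff_mk, pow_succ]; ring
  rw [this]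
  have h2 : 0 ≤ ‖PowerSeries.coeff 0 f‖ * ρ ^ 0 := by positivity
  linarith

theorem divP_top {ρ : ℝ} (hρ : 0 < ρ) : DivP ρ hρ.le ⊤ := by
  intro c _ hc f hf hf0
  obtain ⟨_, b, hb⟩ := hf
  refine ⟨1, C c⁻¹ * PowerSeries.mk fun k => coeff (k + 1) f, ⟨fun _ => trivial, 1, Bd.one hρ.le⟩, IsU.one hρ.le,
    ⟨fun _ => trivial, _, (Bd.C hρ.le c⁻¹).mul hρ.le (hb.shift hρ)⟩, ?_⟩
  have h1 : (C c * X * (C c⁻¹ * PowerSeries.mk fun k => coeff (k + 1) f) : PowerSeries ℝ) =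
      X * PowerSeries.mk fun k => coeff (k + 1) f := by
    have h2 : (C c * C c⁻¹ : PowerSeries ℝ) = 1 := by rw [← map_mul, mul_inv_cancel₀ hc, map_one]
    calc (C c * X * (C c⁻¹ * PowerSeries.mk fun k => coeff (k + 1) f) : PowerSeries ℝ)
        = (C c * C c⁻¹) * (X * PowerSeries.mk fun k => coeff (k + 1) f) := by ring
      _ = _ := by rw [h2, one_mul]
  rw [h1]
  ext k
  rcases k with _ | k
  · rw [map_add, coeff_zero_X_mul, hf0]; simp
  · rw [map_add, coeff_succ_X_mul, coeff_mk, coeff_one, if_neg (by omega), zero_add]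

/-- `w = 1 + g t^N + ...` -/
def OneMod (N : ℕ) (w : PowerSeries ℝ) (g : ℝ) : Prop :=
  coeff 0 w = 1 ∧ (∀ k, 1 ≤ k → k < N → coeff k w = 0) ∧ coeff N w = g

theorem OneMod.mul {N : ℕ} (hN : 1 ≤ N) {w w' : PowerSeries ℝ} {g g' : ℝ} (h : OneMod N w g) (h' : OneMod N w' g') :
    OneMod N (w * w') (g + g') := by
  obtain ⟨a1, a2, a3⟩ := h
  obtain ⟨b1, b2, b3⟩ := h'
  refine ⟨coeff0_mul a1 b1, ?_, ?_⟩
  · intro k hk1 hk2
    rw [coeff_mul]
    apply Finset.sum_eq_zero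
    intro x hx
    rw [Finset.HasAntidiagonal.mem_antidiagonal] at hx
    by_cases h1 : x.1 = 0
    · rw [b2 x.2 (by omega) (by omega), mul_zero]
    · rw [a2 x.1 (by omega) (by omega), zero_mul]
  · rw [coeff_mul]
    have h1 : ∑ x ∈ antidiagonal N, coeff x.1 w * coeff x.2 w' = ∑ x ∈ ({(0, N), (N, 0)} : Finset (ℕ × ℕ)), coeff x.1 w * coeff x.2 w' := by
      symm
      apply Finset.sum_subset
      · intro x hx
        rw [Finset.mem_insert, Finset.mem_singleton] at hx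
        rw [Finset.HasAntidiagonal.mem_antidiagonal]
        rcases hx with rfl | rfl <;> simp
      · intro x hx hx'
        rw [Finset.HasAntidiagonal.mem_antidiagonal] at hx
        rw [Finset.mem_insert, Finset.mem_singleton] at hx'
        push Not at hx'
        have hx1 : x.1 ≠ 0 := by
          intro h
          apply hx'.1
          ext <;> simp <;> omega
        have hx2 : x.1 ≠ N := by
          intro h
          apply hx'.2
          ext <;> simp <;> omega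
        rw [a2 x.1 (by omega) (by omega), zero_mul]
    rw [h1, Finset.sum_pair]
    · rw [a1, b1, a3, b3]; ring
    · intro h
      have := congrArg Prod.fst h
      simp at this
      omega

theorem OneMod.one {N : ℕ} (hN : 1 ≤ N) : OneMod N 1 0 := by
  refine ⟨by simp, ?_, ?_⟩
  · intro k hk _
    rw [coeff_one, if_neg (by omega)]
  · rw [coeff_one, if_neg (by omega)]

theorem OneMod.monomial {N : ℕ} (hN : 1 ≤ N) : OneMod N (1 - X ^ N) (-1) := by
  refine ⟨?_, ?_, ?_⟩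
  · rw [map_sub, coeff_one, if_pos rfl, coeff_X_pow, if_neg (by omega), sub_zero]
  · intro k hk1 hk2
    rw [map_sub, coeff_one, if_neg (by omega), coeff_X_pow, if_neg (by omega), sub_zero]
  · rw [map_sub, coeff_one, if_neg (by omega), coeff_X_pow, if_pos rfl, zero_sub]

theorem OneMod.inv {N : ℕ} (hN : 1 ≤ N) {w : PowerSeries ℝ} {g : ℝ} (h : OneMod N w g) : OneMod N w⁻¹ (-g) := by
  have h0 := h.1
  have hmul := mul_inv1 h0
  have h0' := coeff0_inv h0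
  have hz : ∀ k, 1 ≤ k → k < N → coeff k w⁻¹ = 0 := by
    intro k
    induction k using Nat.strong_induction_on with
    | _ k ih =>
      intro hk1 hk2
      have h2 := congrArg (coeff k) hmul
      rw [coeff_mul, Finset.Nat.sum_antidiagonal_eq_sum_range_succ_mk, Finset.sum_range_succ', coeff_one,
        if_neg (by omega)] at h2
      simp only [Nat.sub_zero, h0, one_mul] at h2
      rw [Finset.sum_eq_zero, zero_add] at h2
      · exact h2
      · intro j hj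
        rw [Finset.mem_range] at hj
        rw [h.2.1 (j + 1) (by omega) (by omega), zero_mul]
  refine ⟨h0', hz, ?_⟩
  have h2 := congrArg (coeff N) hmul
  rw [coeff_mul, Finset.Nat.sum_antidiagonal_eq_sum_range_succ_mk, Finset.sum_range_succ', coeff_one,
    if_neg (by omega)] at h2
  simp only [Nat.sub_zero, h0, one_mul] at h2
  obtain ⟨N', rfl⟩ : ∃ N', N = N' + 1 := ⟨N - 1, by omega⟩
  rw [Finset.sum_range_succ, Finset.sum_eq_zero, zero_add, h.2.2, Nat.sub_self, h0', mul_one] at h2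
  · linarith
  · intro j hj
    rw [Finset.mem_range] at hj
    rw [h.2.1 (j + 1) (by omega) (by omega), zero_mul]

theorem inS_bot_iff {f : PowerSeries ℝ} : InS ⊥ f ↔ ∀ k, ∃ m : ℤ, (m : ℝ) = coeff k f :=
  ⟨fun h k => Subring.mem_bot.mp (h k), fun h k => Subring.mem_bot.mpr (h k)⟩

theorem exists_unit_oneMod {ρ : ℝ} (hρ : 0 < ρ) (hρ1 : ρ < 1) {N : ℕ} (hN : 1 ≤ N) (g : ℤ) :
    ∃ w ∈ RR ρ hρ.le ⊥, IsU ρ w ∧ OneMod N w g := by
  have hm : (1 - X ^ N : PowerSeries ℝ) ∈ RR ρ hρ.le ⊥ := by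
    apply Subring.sub_mem _ (Subring.one_mem _)
    simpa using RR.C_mul_X_pow (ρ := ρ) (hρ := hρ.le) (S := ⊥) 1 (Subring.one_mem _) N
  have hO := OneMod.monomial hN
  have hU : IsU ρ (1 - X ^ N : PowerSeries ℝ) := by
    refine ⟨hO.1, hm.2, _, Bd.inv hρ.le hO.1 (c := ρ ^ N) ?_ (pow_lt_one₀ hρ.le hρ1 (by omega))⟩
    have := Bd.C_mul_X_pow hρ.le (1 : ℝ) N
    simpa using this
  have hi : (1 - X ^ N : PowerSeries ℝ)⁻¹ ∈ RR ρ hρ.le ⊥ := RR.inv_mem hm hO.1 hU.2.2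
  induction g using Int.induction_on with
  | zero => exact ⟨1, Subring.one_mem _, IsU.one hρ.le, by simpa using OneMod.one hN⟩
  | succ i ih =>
    obtain ⟨w, h1, h2, h3⟩ := ih
    refine ⟨w * (1 - X ^ N : PowerSeries ℝ)⁻¹, Subring.mul_mem _ h1 hi, h2.mul hρ.le hU.inv, ?_⟩
    have := h3.mul hN (OneMod.inv hN hO)
    push_cast
    simpa using this
  | pred i ih =>
    obtain ⟨w, h1, h2, h3⟩ := ih
    refine ⟨w * (1 - X ^ N : PowerSeries ℝ), Subring.mul_mem _ h1 hm, h2.mul hρ.le hU, ?_⟩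
    have := h3.mul hN hO
    have e : (((-(i : ℤ) - 1 : ℤ)) : ℝ) = ((-(i : ℤ) : ℤ) : ℝ) + -1 := by push_cast; ring
    rw [e]
    exact this

theorem split_unit {ρ : ℝ} (hρ : 0 < ρ) (hρ1 : ρ < 1) (f : PowerSeries ℝ) (hf : f ∈ RR ρ hρ.le ⊥) (hf0 : coeff 0 f = 1)
    (K : ℕ) : ∃ v ∈ RR ρ hρ.le ⊥, IsU ρ v ∧ ∃ h ∈ RR ρ hρ.le ⊥, coeff 0 h = 1 ∧ (∀ k, 1 ≤ k → k ≤ K → coeff k h = 0) ∧
      f = v * h := by
  induction K with
  | zero => exact ⟨1, Subring.one_mem _, IsU.one hρ.le, f, hf, hf0, fun k h1 h2 => by omega, by rw [one_mul]⟩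
  | succ K ih =>
    obtain ⟨v, hv, hvU, h, hh, hh0, hhz, hfe⟩ := ih
    obtain ⟨m, hm⟩ := inS_bot_iff.mp hh.1 (K + 1)
    obtain ⟨w, hw, hwU, hwO⟩ := exists_unit_oneMod hρ hρ1 (N := K + 1) (by omega) m
    have hwi := OneMod.inv (by omega) hwO
    have hho : OneMod (K + 1) h (m : ℝ) := ⟨hh0, fun k h1 h2 => hhz k h1 (by omega), hm.symm⟩
    have hprod := hho.mul (by omega) hwi
    refine ⟨v * w, Subring.mul_mem _ hv hw, hvU.mul hρ.le hwU, h * w⁻¹, Subring.mul_mem _ hh (RR.inv_mem hw hwU.1 hwU.2.2),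
      hprod.1, ?_, ?_⟩
    · intro k h1 h2
      by_cases hk : k < K + 1
      · exact hprod.2.1 k h1 hk
      · have : k = K + 1 := by omega
        subst this
        rw [hprod.2.2]; ring
    · calc f = v * h := hfe
        _ = v * h * (w * w⁻¹) := by rw [mul_inv1 hwU.1, mul_one]
        _ = _ := by ring

theorem divP_bot {ρ : ℝ} (hρ : 0 < ρ) (hρ1 : ρ < 1) : DivP ρ hρ.le ⊥ := by
  intro c hc hc0 f hf hf0
  obtain ⟨m, hm⟩ := Subring.mem_bot.mp hc
  have hm0 : m ≠ 0 := by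
    rintro rfl
    apply hc0
    rw [← hm]; simp
  obtain ⟨K, hK⟩ : ∃ K : ℕ, |(m : ℝ)| * (ρ ^ (K + 1) / (1 - ρ)) < 1 := by
    have t1 : Tendsto (fun K : ℕ => |(m : ℝ)| * (ρ ^ (K + 1) / (1 - ρ))) atTop (𝓝 (|(m : ℝ)| * (0 / (1 - ρ)))) :=
      (((tendsto_pow_atTop_nhds_zero_of_lt_one hρ.le hρ1).comp (tendsto_add_atTop_nat 1)).div_const _).const_mul _
    rw [zero_div, mul_zero] at t1
    exact (t1.eventually (gt_mem_nhds one_pos)).exists
  obtain ⟨v, hv, hvU, h, hh, hh0, hhz, hfe⟩ := split_unit hρ hρ1 f hf hf0 K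
  choose hz hhz' using inS_bot_iff.mp hh.1
  set h' : PowerSeries ℝ := PowerSeries.mk fun k => if k = 0 then 1 else ((hz k % m : ℤ) : ℝ) with hh'
  have hz0 : ∀ k, 1 ≤ k → k ≤ K → hz k = 0 := by
    intro k h1 h2
    have := hhz' k
    rw [hhz k h1 h2] at this
    exact_mod_cast this
  have hh'c : ∀ k, 1 ≤ k → coeff k h' = ((hz k % m : ℤ) : ℝ) := by
    intro k hk
    rw [hh', coeff_mk, if_neg (by omega)]
  have hh'0 : coeff 0 h' = 1 := by rw [hh', coeff_mk, if_pos rfl]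
  have hbound : Bd ρ (1 - h') (|(m : ℝ)| * (ρ ^ (K + 1) / (1 - ρ))) := by
    intro K'
    have hterm : ∀ k ∈ range K', ‖coeff k (1 - h')‖ * ρ ^ k ≤ if K + 1 ≤ k then |(m : ℝ)| * ρ ^ k else 0 := by
      intro k _
      rcases Nat.eq_zero_or_pos k with h0 | hpos
      · subst h0
        rw [map_sub, hh'0, coeff_one, if_pos rfl, sub_self, norm_zero, zero_mul, if_neg (by omega)]
      · rw [map_sub, hh'c k hpos, coeff_one, if_neg (by omega), zero_sub, norm_neg]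
        split_ifs with hk
        · apply mul_le_mul_of_nonneg_right _ (by positivity)
          rw [Real.norm_eq_abs]
          have h1 := Int.emod_nonneg (hz k) hm0
          have h2 := Int.emod_lt_abs (hz k) hm0
          rw [abs_of_nonneg (by exact_mod_cast h1)]
          have : ((hz k % m : ℤ) : ℝ) ≤ ((|m| : ℤ) : ℝ) := by exact_mod_cast h2.le
          rwa [Int.cast_abs] at this
        · rw [hz0 k hpos (by omega)]; simp
    refine (Finset.sum_le_sum hterm).trans ?_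
    rw [← Finset.sum_filter, ← Finset.mul_sum]
    apply mul_le_mul_of_nonneg_left _ (abs_nonneg _)
    have h3 : (range K').filter (fun k => K + 1 ≤ k) = Ico (K + 1) K' := by
      ext k
      rw [Finset.mem_filter, Finset.mem_range, Finset.mem_Ico]
      omega
    rw [h3]
    exact geom_sum_Ico_le_of_lt_one hρ.le hρ1
  have hh'Bd : ∃ b, Bd ρ h' b := by
    refine ⟨1 + |(m : ℝ)| * (ρ ^ (K + 1) / (1 - ρ)), ?_⟩
    have : h' = 1 - (1 - h') := by ring
    rw [this]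
    exact (Bd.one hρ.le).sub hρ.le hbound
  have hh'U : IsU ρ h' := ⟨hh'0, hh'Bd, _, Bd.inv hρ.le hh'0 hbound hK⟩
  have hh'S : InS ⊥ h' := by
    rw [inS_bot_iff]
    intro k
    rcases Nat.eq_zero_or_pos k with h0 | hpos
    · subst h0; exact ⟨1, by rw [hh'0]; simp⟩
    · exact ⟨_, (hh'c k hpos).symm⟩
  set β : PowerSeries ℝ := PowerSeries.mk fun k => ((hz (k + 1) / m : ℤ) : ℝ) with hβ
  have hmR : (m : ℝ) ≠ 0 := by exact_mod_cast hm0
  have hdiff : h - h' = C (m : ℝ) * X * β := by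
    ext k
    rw [mul_assoc, coeff_C_mul]
    rcases k with _ | k
    · rw [map_sub, hh0, hh'0, coeff_zero_X_mul]; ring
    · rw [map_sub, hh'c (k + 1) (by omega), coeff_succ_X_mul, hβ, coeff_mk, ← hhz' (k + 1)]
      have := Int.mul_ediv_add_emod (hz (k + 1)) m
      have h2 : ((m * (hz (k + 1) / m) + hz (k + 1) % m : ℤ) : ℝ) = (hz (k + 1) : ℝ) := by rw [this]
      push_cast at h2
      linarith
  have hβBd : ∃ b, Bd ρ β b := by
    obtain ⟨b1, hb1⟩ := hh.2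
    obtain ⟨b2, hb2⟩ := hh'Bd
    have h1 := (hb1.sub hρ.le hb2).shift hρ
    refine ⟨_, (?_ : Bd ρ β (‖((m : ℝ))⁻¹‖ * ((b1 + b2) / ρ)))⟩
    have h2 : β = C ((m : ℝ))⁻¹ * PowerSeries.mk fun k => coeff (k + 1) (h - h') := by
      ext k
      rw [coeff_C_mul, coeff_mk, coeff_mk, hdiff, mul_assoc, coeff_C_mul, coeff_succ_X_mul, hβ, coeff_mk]
      field_simp
    rw [h2]
    exact (Bd.C hρ.le _).mul hρ.le h1
  refine ⟨v * h', v * β, Subring.mul_mem _ hv ⟨hh'S, hh'Bd⟩, hvU.mul hρ.le hh'U,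
    Subring.mul_mem _ hv ⟨inS_bot_iff.mpr fun k => ⟨_, (by rw [hβ, coeff_mk])⟩, hβBd⟩, ?_⟩
  have h3 : h = h' + C (m : ℝ) * X * β := by rw [← hdiff]; ring
  rw [hfe, h3, hm]
  ring

end Pool.Agent.Helper605
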