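import Mathlib
import Pool.Agent.Helper605.Bez
import Pool.Agent.Helper605.DPz

set_option autoImplicit false
set_option linter.all false

namespace Pool.Agent.Helper605

open Matrix Finset

theorem det_mem {A : Type*} [CommRing A] (T : Subring A) {n : ℕ} (M : Matrix (Fin n) (Fin n) A) (h : ∀ i j, M i j ∈ T) :
    M.det ∈ T := by
  rw [Matrix.det_apply]
  apply T.sum_mem
  intro σ _
  have h1 : ∏ i, M (σ i) i ∈ T := T.prod_mem fun i _ => h _ _
  rcases Int.units_eq_one_or (Equiv.Perm.sign σ) with h2 | h2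
  · rw [h2, one_smul]; exact h1
  · rw [h2, Units.neg_smul, one_smul]; exact T.neg_mem h1

theorem coeff0_det {n : ℕ} (M : Matrix (Fin n) (Fin n) (PowerSeries ℝ))
    (h : ∀ i j, PowerSeries.coeff 0 (M i j) = if i = j then 1 else 0) : PowerSeries.coeff 0 M.det = 1 := by
  rw [PowerSeries.coeff_zero_eq_constantCoeff_apply, RingHom.map_det]
  have : (PowerSeries.constantCoeff (R := ℝ)).mapMatrix M = 1 := by
    ext i j
    rw [RingHom.mapMatrix_apply, Matrix.map_apply, ← PowerSeries.coeff_zero_eq_constantCoeff_apply, h, Matrix.one_apply]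
  rw [this, Matrix.det_one]

/-- Every factorisation has a unit factor. -/
def Irr (ρ : ℝ) (hρ : 0 ≤ ρ) (E : Subring ℝ) (F : PowerSeries ℝ) : Prop :=
  ∀ G H, G ∈ RR ρ hρ E → H ∈ RR ρ hρ E → PowerSeries.coeff 0 G = 1 → PowerSeries.coeff 0 H = 1 → G * H = F →
    IsU ρ G ∨ IsU ρ H

theorem Irr.of_mul {ρ : ℝ} {hρ : 0 ≤ ρ} {E : Subring ℝ} {G0 F : PowerSeries ℝ} (h : Irr ρ hρ E (G0 * F))
    (hG : G0 ∈ RR ρ hρ E) (hG0 : PowerSeries.coeff 0 G0 = 1) : Irr ρ hρ E F := by
  intro G H hG1 hH1 h1 h2 h3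
  rcases h (G0 * G) H (Subring.mul_mem _ hG hG1) hH1 (coeff0_mul hG0 h1) h2 (by rw [mul_assoc, h3]) with h4 | h4
  · left
    refine ⟨h1, hG1.2, ?_⟩
    obtain ⟨b, hb⟩ := h4.2.2
    obtain ⟨b', hb'⟩ := hG.2
    refine ⟨_, (?_ : Bd ρ G⁻¹ (b' * b))⟩
    rw [inv_eq_of h1 (g := G0 * (G0 * G)⁻¹)]
    · exact hb'.mul hρ hb
    · calc G * (G0 * (G0 * G)⁻¹) = (G0 * G) * (G0 * G)⁻¹ := by ring
        _ = 1 := mul_inv1 (coeff0_mul hG0 h1)
  · right; exact h4

section steps
variable {A : Type*} [CommRing A] {T : Subring A} {n : ℕ}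

theorem mulVec_mem {P : Matrix (Fin n) (Fin n) A} {y : Fin n → A} (hP : ∀ i j, P i j ∈ T) (hy : ∀ i, y i ∈ T) (i : Fin n) :
    (P *ᵥ y) i ∈ T := by
  rw [mulVec, dotProduct]
  exact T.sum_mem fun j _ => T.mul_mem (hP _ _) (hy _)

theorem EEq.bxcol {M M' : Matrix (Fin n) (Fin n) A} (h : EEq T M M') (f : A) (y : Fin n → A) (hy : ∀ i, y i ∈ T) :
    ∃ y' : Fin n → A, (∀ i, y' i ∈ T) ∧ (y = 0 → y' = 0) ∧ EEq T (bx f 0 y M) (bx f 0 y' M') := by
  obtain ⟨P, hP, Q, hQ, rfl⟩ := h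
  refine ⟨P *ᵥ y, mulVec_mem (EL.entries hP) hy, fun h => by rw [h, Matrix.mulVec_zero],
    bx 1 0 0 P, bx_mem hP, bx 1 0 0 Q, bx_mem hQ, ?_⟩
  rw [bx_mul, bx_mul]
  apply bx_ext
  · simp
  · intro j; simp; exact congrFun (Matrix.zero_vecMul Q) j
  · intro i; simp
  · intro i j; simp

theorem clear_left (u w : A) (r y : Fin n → A) (M : Matrix (Fin n) (Fin n) A) (hw : w ∈ T) (h : u * w = 1)
    (hy : ∀ i, y i ∈ T) : EEq T (bx u r y M) (bx u r 0 (M - Matrix.vecMulVec (fun i => w * y i) r)) := by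
  refine ⟨bx 1 0 (fun i => -(w * y i)) 1, bx_col _ (fun i => T.neg_mem (T.mul_mem hw (hy i))), 1, Submonoid.one_mem _, ?_⟩
  rw [mul_one, bx_mul]
  apply bx_ext
  · simp
  · intro j; simp
  · intro i
    simp only [bx_s0, Matrix.one_mulVec, Pi.zero_apply]
    linear_combination (-(y i)) * h
  · intro i j
    simp [vecMulVec_apply]
    ring

theorem clear_right (u w : A) (r : Fin n → A) (M : Matrix (Fin n) (Fin n) A) (hw : w ∈ T) (h : u * w = 1)
    (hr : ∀ i, r i ∈ T) : EEq T (bx u r 0 M) (bx u 0 0 M) := by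
  refine ⟨1, Submonoid.one_mem _, bx 1 (fun j => -(w * r j)) 0 1, bx_row _ (fun i => T.neg_mem (T.mul_mem hw (hr i))), ?_⟩
  rw [one_mul, bx_mul]
  apply bx_ext
  · simp
  · intro j
    simp only [bx_0s, Matrix.vecMul_one, Pi.zero_apply]
    linear_combination (-(r j)) * h
  · intro i; simp
  · intro i j
    simp [vecMulVec_apply]

theorem clear_col_D (f d w : A) (y : Fin (n + 1) → A) (hw : w ∈ T) (h : d * w = 1) (hy : ∀ i, y i ∈ T) :
    EEq T (bx f 0 y (Dg n d)) (bx f 0 0 (Dg n d)) := by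
  have hDw : ∀ i j, Dg n w i j ∈ T := by
    intro i j
    refine Fin.cases ?_ (fun i => ?_) i <;> refine Fin.cases ?_ (fun j => ?_) j
    · exact hw
    · exact T.zero_mem
    · exact T.zero_mem
    · simp only [Dg, bx_ss, Matrix.one_apply]
      split_ifs
      · exact T.one_mem
      · exact T.zero_mem
  refine ⟨1, Submonoid.one_mem _, bx 1 0 (-(Dg n w *ᵥ y)) 1, bx_col _ (fun i => T.neg_mem (mulVec_mem hDw hy i)), ?_⟩
  rw [one_mul, bx_mul]
  have h1 : Dg n d *ᵥ (-(Dg n w *ᵥ y)) = -y := by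
    rw [Matrix.mulVec_neg, Matrix.mulVec_mulVec, Dg_mul, h, Dg_one, Matrix.one_mulVec]
  apply bx_ext
  · simp
  · intro j; simp
  · intro i
    rw [bx_s0, h1]
    simp
  · intro i j
    simp [vecMulVec_apply]

end steps

theorem core_step {ρ : ℝ} {hρ : 0 ≤ ρ} {E : Subring ℝ} (hD : DivP ρ hρ E) (n : ℕ)
    (ih : ∀ M : Matrix (Fin (n + 1)) (Fin (n + 1)) (PowerSeries ℝ), (∀ i j, M i j ∈ RR ρ hρ E) →
      (∀ i j, PowerSeries.coeff 0 (M i j) = if i = j then 1 else 0) →
      (∃ a : Fin (n + 1) → Fin (n + 1) → ℝ, (∀ i j, a i j ∈ E) ∧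
        ∀ i j, j ≠ 0 → M i j = (if i = j then 1 else 0) - PowerSeries.X * PowerSeries.C (a i j)) →
      Irr ρ hρ E M.det → EEq (RR ρ hρ E) M (Dg n M.det))
    (f : PowerSeries ℝ) (hf : f ∈ RR ρ hρ E) (hf0 : PowerSeries.coeff 0 f = 1) (c : ℝ) (hc : c ∈ E)
    (y : Fin (n + 1) → PowerSeries ℝ) (hy : ∀ i, y i ∈ RR ρ hρ E) (hy0 : ∀ i, PowerSeries.coeff 0 (y i) = 0)
    (a : Fin (n + 1) → Fin (n + 1) → ℝ) (ha : ∀ i j, a i j ∈ E)
    (M1 : Matrix (Fin (n + 1)) (Fin (n + 1)) (PowerSeries ℝ))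
    (hM1 : ∀ i j, M1 i j = (if i = j then 1 else 0) - PowerSeries.X * PowerSeries.C (a i j))
    (hIrr : Irr ρ hρ E (bx f (Fin.cons (-(PowerSeries.X * PowerSeries.C c)) 0) y M1).det) :
    EEq (RR ρ hρ E) (bx f (Fin.cons (-(PowerSeries.X * PowerSeries.C c)) 0) y M1)
      (Dg (n + 1) (bx f (Fin.cons (-(PowerSeries.X * PowerSeries.C c)) 0) y M1).det) := by
  set R := RR ρ hρ E with hR
  have hXC : ∀ b ∈ E, PowerSeries.X * PowerSeries.C b ∈ R := by
    intro b hb
    have := RR.C_mul_X_pow (ρ := ρ) (hρ := hρ) b hb 1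
    rw [pow_one, mul_comm] at this
    exact this
  have hM1R : ∀ i j, M1 i j ∈ R := by
    intro i j
    rw [hM1]
    apply R.sub_mem _ (hXC _ (ha i j))
    split_ifs
    · exact R.one_mem
    · exact R.zero_mem
  have hM10 : ∀ i j, PowerSeries.coeff 0 (M1 i j) = if i = j then 1 else 0 := by
    intro i j
    rw [hM1, map_sub, PowerSeries.coeff_zero_X_mul, sub_zero]
    split_ifs <;> simp
  by_cases hc0 : c = 0
  · -- split case
    have hr : (Fin.cons (-(PowerSeries.X * PowerSeries.C c)) 0 : Fin (n + 1) → PowerSeries ℝ) = 0 := by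
      rw [hc0]
      funext j
      refine Fin.cases ?_ (fun j => ?_) j
      · simp
      · simp
    rw [hr] at hIrr ⊢
    rw [bx_det_row] at hIrr ⊢
    have hdet := det_mem R M1 hM1R
    have hdet0 := coeff0_det M1 hM10
    have hI := ih M1 hM1R hM10 ⟨a, ha, fun i j _ => hM1 i j⟩ (hIrr.of_mul hf hf0)
    obtain ⟨y', hy', _, h1⟩ := hI.bxcol f y hy
    rcases hIrr f M1.det hf hdet hf0 hdet0 rfl with h2 | h2
    · have hw := RR.inv_mem hf hf0 h2.2.2
      have h3 := clear_left (T := R) f f⁻¹ 0 y' (Dg n M1.det) hw (mul_inv1 hf0) hy'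
      have h4 : Dg n M1.det - Matrix.vecMulVec (fun i => f⁻¹ * y' i) 0 = Dg n M1.det := by
        ext i j; simp [vecMulVec_apply]
      rw [h4] at h3
      exact (h1.trans h3).trans (whitehead2 f M1.det f⁻¹ hf hdet hw (Or.inl (mul_inv1 hf0)))
    · have hw := RR.inv_mem hdet hdet0 h2.2.2
      have h3 := clear_col_D (T := R) f M1.det M1.det⁻¹ y' hw (mul_inv1 hdet0) hy'
      exact (h1.trans h3).trans (whitehead2 f M1.det M1.det⁻¹ hf hdet hw (Or.inr (mul_inv1 hdet0)))
  · obtain ⟨u, α, hu, huU, hα, hfe⟩ := hD c hc hc0 f hf hf0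
    set r : Fin (n + 1) → PowerSeries ℝ := Fin.cons (-(PowerSeries.X * PowerSeries.C c)) 0 with hr
    have hrR : ∀ j, r j ∈ R := by
      intro j
      refine Fin.cases ?_ (fun j => ?_) j
      · exact R.neg_mem (hXC c hc)
      · exact R.zero_mem
    set y1 : Fin (n + 1) → PowerSeries ℝ := fun i => y i + (M1 *ᵥ (Fin.cons α 0)) i with hy1
    have hcons : ∀ i, (Fin.cons α 0 : Fin (n + 1) → PowerSeries ℝ) i ∈ R := by
      intro j
      refine Fin.cases ?_ (fun j => ?_) j
      · exact hα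
      · exact R.zero_mem
    have hy1R : ∀ i, y1 i ∈ R := fun i => R.add_mem (hy i) (mulVec_mem hM1R hcons i)
    have e1 : EEq R (bx f r y M1) (bx u r y1 M1) := by
      refine ⟨1, Submonoid.one_mem _, bx 1 0 (Fin.cons α 0) 1, bx_col _ hcons, ?_⟩
      rw [one_mul, bx_mul]
      apply bx_ext
      · rw [bx_00, bx_00, dotProduct, Fin.sum_univ_succ, hfe]
        simp [hr]
        ring
      · intro j; simp
      · intro i; simp [hy1]
      · intro i j; simp [vecMulVec_apply]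
    have huw := mul_inv1 huU.1
    have hw := RR.inv_mem hu huU.1 huU.2.2
    have e2 := clear_left (T := R) u u⁻¹ r y1 M1 hw huw hy1R
    set M2 := M1 - Matrix.vecMulVec (fun i => u⁻¹ * y1 i) r with hM2
    have e3 := clear_right (T := R) u u⁻¹ r M2 hw huw hrR
    have e4 := (e1.trans e2).trans e3
    have hdet : (bx f r y M1).det = u * M2.det := by
      rw [← e4.det, bx_det_row]
    have hM2R : ∀ i j, M2 i j ∈ R := by
      intro i j
      rw [hM2, Matrix.sub_apply, vecMulVec_apply]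
      exact R.sub_mem (hM1R i j) (R.mul_mem (R.mul_mem hw (hy1R i)) (hrR j))
    have hM20 : ∀ i j, PowerSeries.coeff 0 (M2 i j) = if i = j then 1 else 0 := by
      intro i j
      rw [hM2, Matrix.sub_apply, vecMulVec_apply, map_sub, hM10]
      have : PowerSeries.coeff 0 (u⁻¹ * y1 i * r j) = 0 := by
        rw [PowerSeries.coeff_zero_eq_constantCoeff_apply, map_mul]
        have : PowerSeries.constantCoeff (r j) = 0 := by
          refine Fin.cases ?_ (fun j => ?_) j
          · simp [hr]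
          · simp [hr]
        rw [this, mul_zero]
      rw [this, sub_zero]
    rw [hdet] at hIrr ⊢
    have hI := ih M2 hM2R hM20 ⟨a, ha, fun i j hj => by
      rw [hM2, Matrix.sub_apply, vecMulVec_apply, hM1]
      have : r j = 0 := by
        obtain ⟨j', rfl⟩ := Fin.exists_succ_eq.mpr hj
        simp [hr]
      rw [this, mul_zero, sub_zero]⟩ (hIrr.of_mul hu huU.1)
    obtain ⟨y', hy', hy'0, h1⟩ := hI.bxcol u 0 (fun _ => R.zero_mem)
    rw [hy'0 rfl] at h1
    exact (e4.trans h1).trans (whitehead2 u M2.det u⁻¹ hu (det_mem R M2 hM2R) hw (Or.inl huw))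

theorem core {ρ : ℝ} {hρ : 0 ≤ ρ} {E : Subring ℝ} (hB : BezP E) (hD : DivP ρ hρ E) : ∀ n : ℕ,
    ∀ M : Matrix (Fin (n + 1)) (Fin (n + 1)) (PowerSeries ℝ), (∀ i j, M i j ∈ RR ρ hρ E) →
      (∀ i j, PowerSeries.coeff 0 (M i j) = if i = j then 1 else 0) →
      (∃ a : Fin (n + 1) → Fin (n + 1) → ℝ, (∀ i j, a i j ∈ E) ∧
        ∀ i j, j ≠ 0 → M i j = (if i = j then 1 else 0) - PowerSeries.X * PowerSeries.C (a i j)) →
      Irr ρ hρ E M.det → EEq (RR ρ hρ E) M (Dg n M.det) := by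
  intro n
  induction n with
  | zero =>
    intro M _ _ _ _
    have : Dg 0 M.det = M := by
      rw [Matrix.det_fin_one]
      apply bx_ext
      · rfl
      · intro j; exact j.elim0
      · intro j; exact j.elim0
      · intro j; exact j.elim0
    rw [this]
    exact EEq.refl M
  | succ n ih =>
    intro M hM hM0 ⟨a, ha, hMa⟩ hIrr
    set R := RR ρ hρ E with hR
    obtain ⟨Q0, hQ0, hQ0z⟩ := hB n (fun j => a 0 j.succ) (fun j => ha _ _)
    obtain ⟨Q0', hQ0', hQ1, hQ2⟩ := EL.inv hQ0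
    set CC : ℝ →+* PowerSeries ℝ := PowerSeries.C with hCC
    have hQ : Q0.map CC ∈ EL R (Fin (n + 1)) := EL.map CC (fun b hb => RR.C b hb) hQ0
    have hQ' : Q0'.map CC ∈ EL R (Fin (n + 1)) := EL.map CC (fun b hb => RR.C b hb) hQ0'
    have hQQ : Q0'.map CC * Q0.map CC = 1 := by
      rw [← Matrix.map_mul, hQ2]
      exact Matrix.map_one CC (map_zero CC) (map_one CC)
    set A1 : Matrix (Fin (n + 1)) (Fin (n + 1)) ℝ := Matrix.of fun i j => a i.succ j.succ with hA1
    set A2 := Q0' * A1 * Q0 with hA2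
    set M1 : Matrix (Fin (n + 1)) (Fin (n + 1)) (PowerSeries ℝ) := Matrix.of fun i j => M i.succ j.succ with hM1
    have hM1e : M1 = 1 - (PowerSeries.X : PowerSeries ℝ) • A1.map CC := by
      ext1 i j
      rw [hM1, Matrix.of_apply, hMa _ _ (Fin.succ_ne_zero j), Matrix.sub_apply, Matrix.smul_apply, Matrix.map_apply,
        Matrix.one_apply, smul_eq_mul]
      simp only [Fin.succ_inj]
      rfl
    have hM2e : Q0'.map CC * M1 * Q0.map CC = 1 - (PowerSeries.X : PowerSeries ℝ) • A2.map CC := by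
      rw [hM1e, mul_sub, sub_mul, mul_one, hQQ, Matrix.mul_smul, Matrix.smul_mul, hA2, Matrix.map_mul, Matrix.map_mul]
    set y : Fin (n + 1) → PowerSeries ℝ := Q0'.map CC *ᵥ (fun i => M i.succ 0) with hy
    set c := ((fun j => a 0 j.succ) ᵥ* Q0) 0 with hc
    have e1 : EEq R M (bx (M 0 0) (Fin.cons (-(PowerSeries.X * PowerSeries.C c)) 0) y (Q0'.map CC * M1 * Q0.map CC)) := by
      refine ⟨bx 1 0 0 (Q0'.map CC), bx_mem hQ', bx 1 0 0 (Q0.map CC), bx_mem hQ, ?_⟩
      conv_lhs => rw [bx_eta M]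
      rw [bx_mul, bx_mul]
      apply bx_ext
      · simp
      · intro j
        have h1 : (fun j : Fin (n + 1) => M 0 j.succ) = fun j => -(PowerSeries.X * PowerSeries.C (a 0 j.succ)) := by
          funext j
          rw [hMa 0 j.succ (Fin.succ_ne_zero j), if_neg (Fin.succ_ne_zero j).symm, zero_sub]
        have h2 : (fun j : Fin (n + 1) => M 0 j.succ) ᵥ* Q0.map CC =
            fun j => -(PowerSeries.X * PowerSeries.C (((fun j => a 0 j.succ) ᵥ* Q0) j)) := by
          funext j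
          rw [h1, vecMul, dotProduct, vecMul, dotProduct, map_sum, Finset.mul_sum, ← Finset.sum_neg_distrib]
          apply Finset.sum_congr rfl
          intro i _
          rw [map_mul, Matrix.map_apply]
          ring
        have h3 : (fun j : Fin (n + 1) => (1 : PowerSeries ℝ) * M 0 j.succ + ((0 : Fin (n + 1) → PowerSeries ℝ) ᵥ*
            (Matrix.of fun i j => M i.succ j.succ : Matrix (Fin (n + 1)) (Fin (n + 1)) (PowerSeries ℝ))) j) = fun j => M 0 j.succ := by
          funext j; simp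
        simp only [bx_0s]
        rw [h3, h2]
        simp only [Pi.zero_apply, mul_zero, zero_add]
        refine Fin.cases ?_ (fun j => ?_) j
        · simp [hc]
        · rw [hQ0z _ (Fin.succ_ne_zero j)]; simp
      · intro i
        simp [hy]
      · intro i j
        simp [hM1, Matrix.mul_assoc]
    have hyR : ∀ i, y i ∈ R := mulVec_mem (EL.entries hQ') (fun i => hM _ _)
    have hy0 : ∀ i, PowerSeries.coeff 0 (y i) = 0 := by
      intro i
      rw [hy, mulVec, dotProduct, map_sum]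
      apply Finset.sum_eq_zero
      intro j _
      have h1 := hM0 j.succ 0
      rw [if_neg (Fin.succ_ne_zero j)] at h1
      rw [PowerSeries.coeff_zero_eq_constantCoeff_apply] at h1 ⊢
      rw [map_mul, h1, mul_zero]
    have hcE : c ∈ E := by
      rw [hc, vecMul, dotProduct]
      exact E.sum_mem fun i _ => E.mul_mem (ha _ _) (EL.entries hQ0 _ _)
    have hA2E : ∀ i j, A2 i j ∈ E := by
      intro i j
      rw [hA2, Matrix.mul_apply]
      apply E.sum_mem
      intro k _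
      apply E.mul_mem _ (EL.entries hQ0 _ _)
      rw [Matrix.mul_apply]
      apply E.sum_mem
      intro l _
      exact E.mul_mem (EL.entries hQ0' _ _) (ha _ _)
    have hdet := e1.det
    rw [← hdet] at hIrr
    have key := core_step hD n ih (M 0 0) (hM 0 0) (by simpa using hM0 0 0) c hcE y hyR hy0 A2 hA2E
      (Q0'.map CC * M1 * Q0.map CC) (fun i j => by
        rw [hM2e, Matrix.sub_apply, Matrix.smul_apply, Matrix.map_apply, Matrix.one_apply, smul_eq_mul]) hIrr
    rw [hdet] at key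
    exact e1.trans key

end Pool.Agent.Helper605
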