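import Mathlib
import Pool.Agent.Helper605.Core
import Pool.Agent.Helper605.Final

set_option autoImplicit false
set_option linter.all false

namespace Pool.Agent.Helper605

open PowerSeries Finset Filter Topology

theorem lin_coeff (l : ℝ) (G : PowerSeries ℝ) :
    (∀ k, coeff (k + 1) (G * (1 - C l * X)⁻¹) = coeff (k + 1) G + l * coeff k (G * (1 - C l * X)⁻¹)) ∧
    coeff 0 (G * (1 - C l * X)⁻¹) = coeff 0 G := by
  have h0 : coeff 0 (1 - C l * X : PowerSeries ℝ) = 1 := by simp
  have hmul : (1 - C l * X) * (G * (1 - C l * X)⁻¹) = G := by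
    calc (1 - C l * X) * (G * (1 - C l * X)⁻¹) = G * ((1 - C l * X) * (1 - C l * X)⁻¹) := by ring
      _ = G := by rw [mul_inv1 h0, mul_one]
  constructor
  · intro k
    have h1 := congrArg (coeff (k + 1)) hmul
    rw [sub_mul, one_mul, map_sub, mul_assoc, coeff_C_mul, coeff_succ_X_mul] at h1
    linarith
  · have h1 := congrArg (coeff 0) hmul
    rw [sub_mul, one_mul, map_sub, mul_assoc, coeff_C_mul, coeff_zero_X_mul] at h1
    linarith

theorem div_lin {ρ l : ℝ} (hρ : 0 < ρ) (hl : 0 < l) (hlρ : 1 < l * ρ) {G : PowerSeries ℝ} {c : ℝ} (hG : Bd ρ G c)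
    (hev : ∑' k, coeff k G * (l⁻¹) ^ k = 0) : ∃ b, Bd ρ (G * (1 - C l * X)⁻¹) b := by
  obtain ⟨hrec, h0⟩ := lin_coeff l G
  set s : ℕ → ℝ := fun k => coeff k (G * (1 - C l * X)⁻¹) with hs
  set z := l⁻¹ with hz
  have hz0 : 0 < z := by positivity
  have hlz : l * z = 1 := mul_inv_cancel₀ hl.ne'
  have hzρ : z < ρ := by
    by_contra hcon
    push Not at hcon
    have := mul_le_mul_of_nonneg_left hcon hl.le
    linarith
  set a := z / ρ with ha
  have ha0 : 0 < a := by positivity
  have ha1 : a < 1 := (div_lt_one hρ).mpr hzρ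
  have hT : ∀ k, s k * z ^ k = ∑ j ∈ range (k + 1), coeff j G * z ^ j := by
    intro k
    induction k with
    | zero => simp [hs, h0]
    | succ k ih =>
      rw [Finset.sum_range_succ, ← ih, hs]
      simp only
      rw [hrec k, pow_succ]
      calc (coeff (k + 1) G + l * coeff k (G * (1 - C l * X)⁻¹)) * (z ^ k * z)
          = (l * z) * (coeff k (G * (1 - C l * X)⁻¹) * z ^ k) + coeff (k + 1) G * (z ^ k * z) := by ring
        _ = _ := by rw [hlz, one_mul]
  have hsum : Summable fun k => coeff k G * z ^ k := by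
    have h1 := (hG.mono hz0.le hzρ.le).summable hz0.le
    apply Summable.of_norm
    refine h1.congr fun k => ?_
    rw [norm_mul, norm_pow, Real.norm_of_nonneg hz0.le]
  have hTlim : Tendsto (fun k => s k * z ^ k) atTop (𝓝 0) := by
    have h1 := hsum.hasSum.tendsto_sum_nat
    rw [hev] at h1
    have h2 := h1.comp (tendsto_add_atTop_nat 1)
    refine h2.congr fun k => ?_
    rw [hT k]; rfl
  set x : ℕ → ℝ := fun k => |s k| * ρ ^ k with hx
  set g : ℕ → ℝ := fun k => |coeff k G| * ρ ^ k with hg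
  have hgnn : ∀ k, 0 ≤ g k := fun k => by positivity
  have hxnn : ∀ k, 0 ≤ x k := fun k => by positivity
  have hstep : ∀ k, x k ≤ a * (x (k + 1) + g (k + 1)) := by
    intro k
    have h1 : s k = z * (s (k + 1) - coeff (k + 1) G) := by
      have := hrec k
      simp only [hs]
      rw [this]
      calc coeff k (G * (1 - C l * X)⁻¹) = (l * z) * coeff k (G * (1 - C l * X)⁻¹) := by rw [hlz, one_mul]
        _ = _ := by ring
    have h2 : |s k| ≤ z * (|s (k + 1)| + |coeff (k + 1) G|) := by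
      rw [h1, abs_mul, abs_of_pos hz0]
      exact mul_le_mul_of_nonneg_left (abs_sub _ _) hz0.le
    calc x k = |s k| * ρ ^ k := rfl
      _ ≤ (z * (|s (k + 1)| + |coeff (k + 1) G|)) * ρ ^ k := mul_le_mul_of_nonneg_right h2 (by positivity)
      _ = a * (x (k + 1) + g (k + 1)) := by
        simp only [hx, hg, ha]
        rw [pow_succ]
        field_simp
  have hgsum : ∀ K, ∑ k ∈ range K, g k ≤ c := by
    intro K
    exact hG K
  have hxb : ∀ k, x k ≤ c := by
    intro k
    have h1 : ∀ n, x k ≤ ∑ i ∈ Ico (k + 1) (k + n + 1), g i + a ^ n * x (k + n) := by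
      intro n
      induction n with
      | zero => simp
      | succ n ih =>
        have h2 := hstep (k + n)
        have h3 : a ^ n * x (k + n) ≤ a ^ (n + 1) * x (k + n + 1) + g (k + n + 1) := by
          have h4 : a ^ n * x (k + n) ≤ a ^ n * (a * (x (k + n + 1) + g (k + n + 1))) :=
            mul_le_mul_of_nonneg_left h2 (by positivity)
          have h5 : a ^ n * (a * (x (k + n + 1) + g (k + n + 1))) = a ^ (n + 1) * x (k + n + 1) + a ^ (n + 1) * g (k + n + 1) := by
            ring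
          have h6 : a ^ (n + 1) * g (k + n + 1) ≤ 1 * g (k + n + 1) :=
            mul_le_mul_of_nonneg_right (pow_le_one₀ ha0.le ha1.le) (hgnn _)
          linarith
        rw [show k + (n + 1) + 1 = (k + n + 1) + 1 by ring, Finset.sum_Ico_succ_top (by omega)]
        rw [show k + (n + 1) = k + n + 1 by ring]
        linarith
    have h2 : ∀ n, x k ≤ c + a ^ n * x (k + n) := by
      intro n
      refine (h1 n).trans (add_le_add ?_ le_rfl)
      refine le_trans ?_ (hgsum (k + n + 1))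
      apply Finset.sum_le_sum_of_subset_of_nonneg
      · intro i hi
        rw [Finset.mem_Ico] at hi
        rw [Finset.mem_range]
        exact hi.2
      · intro i _ _; exact hgnn i
    have h3 : Tendsto (fun n => c + a ^ n * x (k + n)) atTop (𝓝 (c + 0)) := by
      apply Tendsto.const_add
      have h4 : ∀ n, a ^ n * x (k + n) = |s (n + k) * z ^ (n + k)| * (ρ / z) ^ k := by
        intro n
        simp only [hx, ha]
        rw [abs_mul, abs_of_pos (pow_pos hz0 _), add_comm k n, pow_add, pow_add, div_pow, div_pow]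
        field_simp
      have h5 : Tendsto (fun n => |s (n + k) * z ^ (n + k)| * (ρ / z) ^ k) atTop (𝓝 (|(0 : ℝ)| * (ρ / z) ^ k)) :=
        ((hTlim.comp (tendsto_add_atTop_nat k)).abs).mul_const _
      rw [abs_zero, zero_mul] at h5
      exact h5.congr fun n => (h4 n).symm
    rw [add_zero] at h3
    exact ge_of_tendsto' h3 h2
  refine ⟨2 * c / (1 - a), fun K => ?_⟩
  have h1a : 0 < 1 - a := by linarith
  rw [le_div_iff₀ h1a]
  have h1 : ∑ k ∈ range K, x k ≤ a * (∑ k ∈ range K, x (k + 1) + ∑ k ∈ range K, g (k + 1)) := by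
    rw [← Finset.sum_add_distrib, Finset.mul_sum]
    exact Finset.sum_le_sum fun k _ => hstep k
  have h2 : ∑ k ∈ range K, x (k + 1) ≤ ∑ k ∈ range K, x k + x K := by
    have h3 := Finset.sum_range_succ' x K
    have h4 := Finset.sum_range_succ x K
    have h5 := hxnn 0
    linarith
  have h3 : ∑ k ∈ range K, g (k + 1) ≤ c := by
    have h3 := Finset.sum_range_succ' g K
    have h5 := hgnn 0
    have h6 := hgsum (K + 1)
    linarith
  have h4 := hxb K
  have hc0 := hG.nonneg
  have h5 : a * (∑ k ∈ range K, x (k + 1) + ∑ k ∈ range K, g (k + 1)) ≤ a * (∑ k ∈ range K, x k + c + c) := by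
    apply mul_le_mul_of_nonneg_left _ ha0.le
    linarith
  have h6 : ∑ k ∈ range K, ‖coeff k (G * (1 - C l * X)⁻¹)‖ * ρ ^ k = ∑ k ∈ range K, x k := rfl
  rw [h6]
  nlinarith

theorem irr_of_factor {ρ l : ℝ} (hρ : 0 < ρ) (hl : 0 < l) (hlρ : 1 < l * ρ) (E : Subring ℝ) (F P : PowerSeries ℝ)
    (hP : IsU ρ P) (hF : F = (1 - C l * X) * P) : Irr ρ hρ.le E F := by
  have main : ∀ G H : PowerSeries ℝ, (∃ b, Bd ρ G b) → (∃ b, Bd ρ H b) → coeff 0 G = 1 → coeff 0 H = 1 → G * H = F →
      ∑' k, coeff k G * (l⁻¹) ^ k = 0 → IsU ρ H := by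
    intro G H ⟨b, hb⟩ hH hG0 hH0 hGH hev
    obtain ⟨b1, hb1⟩ := div_lin hρ hl hlρ hb hev
    have h0 : coeff 0 (1 - C l * X : PowerSeries ℝ) = 1 := by simp
    refine ⟨hH0, hH, ?_⟩
    obtain ⟨b2, hb2⟩ := hP.2.2
    refine ⟨_, (?_ : Bd ρ H⁻¹ (b1 * b2))⟩
    rw [inv_eq_of hH0 (g := (G * (1 - C l * X)⁻¹) * P⁻¹)]
    · exact hb1.mul hρ.le hb2
    · calc H * ((G * (1 - C l * X)⁻¹) * P⁻¹) = (G * H) * (1 - C l * X)⁻¹ * P⁻¹ := by ring
        _ = ((1 - C l * X) * (1 - C l * X)⁻¹) * (P * P⁻¹) := by rw [hGH, hF]; ring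
        _ = 1 := by rw [mul_inv1 h0, mul_inv1 hP.1, one_mul]
  intro G H hG hH hG0 hH0 hGH
  set z := l⁻¹ with hz
  have hz0 : 0 < z := by positivity
  have hlz : l * z = 1 := mul_inv_cancel₀ hl.ne'
  have hzρ : z < ρ := by
    by_contra hcon
    push Not at hcon
    have := mul_le_mul_of_nonneg_left hcon hl.le
    linarith
  have hsum : ∀ f : PowerSeries ℝ, (∃ b, Bd ρ f b) → Summable fun k => ‖coeff k f * z ^ k‖ := by
    intro f ⟨b, hb⟩
    refine ((hb.mono hz0.le hzρ.le).summable hz0.le).congr fun k => ?_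
    rw [norm_mul, norm_pow, Real.norm_of_nonneg hz0.le]
  have hevmul : ∀ f g : PowerSeries ℝ, (∃ b, Bd ρ f b) → (∃ b, Bd ρ g b) →
      (∑' k, coeff k f * z ^ k) * (∑' k, coeff k g * z ^ k) = ∑' k, coeff k (f * g) * z ^ k := by
    intro f g hf hg
    rw [tsum_mul_tsum_eq_tsum_sum_antidiagonal_of_summable_norm (hsum f hf) (hsum g hg)]
    congr 1
    funext k
    rw [coeff_mul, Finset.sum_mul]
    apply Finset.sum_congr rfl
    intro x hx
    rw [Finset.HasAntidiagonal.mem_antidiagonal] at hx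
    rw [← hx, pow_add]
    ring
  have hlin : ∑' k, coeff k (1 - C l * X : PowerSeries ℝ) * z ^ k = 0 := by
    rw [tsum_eq_sum (s := range 2)]
    · rw [Finset.sum_range_succ, Finset.sum_range_one]
      simp [coeff_one_X]
      rw [hlz]; ring
    · intro k hk
      rw [Finset.mem_range] at hk
      rw [map_sub, coeff_one, if_neg (by omega), coeff_C_mul, coeff_X, if_neg (by omega)]
      ring
  have hlinB : ∃ b, Bd ρ (1 - C l * X : PowerSeries ℝ) b := by
    have h1 := Bd.C_mul_X_pow hρ.le l 1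
    rw [pow_one] at h1
    exact ⟨_, (Bd.one hρ.le).sub hρ.le h1⟩
  have hprod : (∑' k, coeff k G * z ^ k) * (∑' k, coeff k H * z ^ k) = 0 := by
    rw [hevmul G H hG.2 hH.2, hGH, hF, ← hevmul _ _ hlinB hP.2.1, hlin, zero_mul]
  rcases mul_eq_zero.mp hprod with h | h
  · right; exact main G H hG.2 hH.2 hG0 hH0 hGH h
  · left; exact main H G hH.2 hG.2 hH0 hG0 (by rw [mul_comm]; exact hGH) h

theorem factor (s : Multiset ℂ) (r : ℝ) (hr : 0 < r) (F : Polynomial ℝ)
    (hF : F.map (algebraMap ℝ ℂ) = (((r : ℂ) ::ₘ s).map fun z => (1 - Polynomial.C z * Polynomial.X : Polynomial ℂ)).prod) :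
    ∃ P : Polynomial ℝ, F = (1 - Polynomial.C r * Polynomial.X) * P ∧
      P.map (algebraMap ℝ ℂ) = (s.map fun z => (1 - Polynomial.C z * Polynomial.X : Polynomial ℂ)).prod := by
  set H := (s.map fun z => (1 - Polynomial.C z * Polynomial.X : Polynomial ℂ)).prod with hH
  rw [Multiset.map_cons, Multiset.prod_cons, ← hH] at hF
  have hr' : (r : ℂ) ≠ 0 := by exact_mod_cast hr.ne'
  have hroot : F.eval (1 / r) = 0 := by
    have h1 : (F.map (algebraMap ℝ ℂ)).eval ((1 / r : ℝ) : ℂ) = 0 := by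
      rw [hF, Polynomial.eval_mul]
      have : (1 - Polynomial.C (r : ℂ) * Polynomial.X : Polynomial ℂ).eval ((1 / r : ℝ) : ℂ) = 0 := by
        rw [Polynomial.eval_sub, Polynomial.eval_one, Polynomial.eval_mul, Polynomial.eval_C, Polynomial.eval_X]
        push_cast
        rw [mul_one_div_cancel hr', sub_self]
      rw [this, zero_mul]
    have h2 : (F.map (algebraMap ℝ ℂ)).eval ((1 / r : ℝ) : ℂ) = ((F.eval (1 / r) : ℝ) : ℂ) := by
      rw [Polynomial.eval_map]
      exact Polynomial.eval₂_at_apply (algebraMap ℝ ℂ) (1 / r)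
    rw [h2] at h1
    exact_mod_cast h1
  obtain ⟨G, hG⟩ := Polynomial.dvd_iff_isRoot.mpr hroot
  have hfac : (1 - Polynomial.C r * Polynomial.X : Polynomial ℝ) * Polynomial.C (-(1 / r)) = Polynomial.X - Polynomial.C (1 / r) := by
    have h4 : (Polynomial.C r * Polynomial.C (-(1 / r)) : Polynomial ℝ) = -1 := by
      rw [← Polynomial.C_mul]
      have : r * -(1 / r) = -1 := by field_simp
      rw [this]; simp
    calc (1 - Polynomial.C r * Polynomial.X : Polynomial ℝ) * Polynomial.C (-(1 / r))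
        = Polynomial.C (-(1 / r)) - (Polynomial.C r * Polynomial.C (-(1 / r))) * Polynomial.X := by ring
      _ = _ := by rw [h4, Polynomial.C_neg]; ring
  refine ⟨Polynomial.C (-(1 / r)) * G, ?_, ?_⟩
  · rw [← mul_assoc, hfac, hG]
  · have hne : (1 - Polynomial.C (r : ℂ) * Polynomial.X : Polynomial ℂ) ≠ 0 := by
      intro h
      have := congrArg (fun p => Polynomial.coeff p 0) h
      simp at this
    apply mul_left_cancel₀ hne
    rw [← hF, hG, ← hfac]
    simp only [Polynomial.map_mul, Polynomial.map_sub, Polynomial.map_one, Polynomial.map_C, Polynomial.map_X]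
    simp only [Complex.coe_algebraMap]
    ring

theorem map_inv_complex (P : PowerSeries ℝ) (h0 : coeff 0 P = 1) :
    PowerSeries.map (algebraMap ℝ ℂ) P⁻¹ = (PowerSeries.map (algebraMap ℝ ℂ) P)⁻¹ := by
  have hc : constantCoeff (PowerSeries.map (algebraMap ℝ ℂ) P) ≠ 0 := by
    rw [← coeff_zero_eq_constantCoeff_apply, coeff_map, h0]; simp
  rw [PowerSeries.eq_inv_iff_mul_eq_one hc, ← map_mul, inv_mul1 h0, map_one]

theorem isU_of_roots {ρ : ℝ} (hρ : 0 ≤ ρ) (s : Multiset ℂ) (hs : ∀ z ∈ s, ‖z‖ * ρ < 1) (P : Polynomial ℝ)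
    (hP : P.map (algebraMap ℝ ℂ) = (s.map fun z => (1 - Polynomial.C z * Polynomial.X : Polynomial ℂ)).prod)
    (hP0 : P.coeff 0 = 1) : IsU ρ (P : PowerSeries ℝ) := by
  have h0 : coeff 0 (P : PowerSeries ℝ) = 1 := by rw [Polynomial.coeff_coe]; exact hP0
  refine ⟨h0, Bd.poly hρ P, ?_⟩
  have key : ∀ t : Multiset ℂ, (∀ z ∈ t, ‖z‖ * ρ < 1) →
      ∃ b, Bd ρ ((t.map fun z => (1 - C z * X : PowerSeries ℂ)).prod)⁻¹ b := by
    intro t
    induction t using Multiset.induction_on with
    | empty =>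
      intro _
      refine ⟨1, ?_⟩
      rw [Multiset.map_zero, Multiset.prod_zero]
      have : (1 : PowerSeries ℂ)⁻¹ = 1 := by
        rw [PowerSeries.inv_eq_iff_mul_eq_one (by simp)]; simp
      rw [this]
      exact Bd.one hρ
    | cons a t ih =>
      intro ht
      obtain ⟨b, hb⟩ := ih (fun z hz => ht z (Multiset.mem_cons_of_mem hz))
      rw [Multiset.map_cons, Multiset.prod_cons, PowerSeries.mul_inv_rev]
      have h1 : Bd ρ (1 - C a * X : PowerSeries ℂ)⁻¹ (1 / (1 - ‖a‖ * ρ)) := by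
        apply Bd.inv hρ (by simp) _ (ht a (Multiset.mem_cons_self a t))
        have := Bd.C_mul_X_pow hρ a 1
        rw [pow_one, pow_one] at this
        simpa using this
      exact ⟨_, hb.mul hρ h1⟩
  obtain ⟨b, hb⟩ := key s hs
  refine ⟨b, ?_⟩
  have h1 : PowerSeries.map (algebraMap ℝ ℂ) (P : PowerSeries ℝ) = (s.map fun z => (1 - C z * X : PowerSeries ℂ)).prod := by
    have h2 : PowerSeries.map (algebraMap ℝ ℂ) (P : PowerSeries ℝ) = ((P.map (algebraMap ℝ ℂ) : Polynomial ℂ) : PowerSeries ℂ) := by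
      ext k; simp
    rw [h2, hP]
    have h3 : ∀ t : Multiset ℂ, (((t.map fun z => (1 - Polynomial.C z * Polynomial.X : Polynomial ℂ)).prod : Polynomial ℂ) : PowerSeries ℂ) =
        (t.map fun z => (1 - C z * X : PowerSeries ℂ)).prod := by
      intro t
      induction t using Multiset.induction_on with
      | empty => simp
      | cons a t ih =>
        rw [Multiset.map_cons, Multiset.prod_cons, Multiset.map_cons, Multiset.prod_cons, Polynomial.coe_mul, ih]
        simp
    exact h3 s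
  rw [← h1, ← map_inv_complex _ h0] at hb
  intro K
  refine le_trans (le_of_eq ?_) (hb K)
  apply Finset.sum_congr rfl
  intro k _
  rw [coeff_map]
  simp

end Pool.Agent.Helper605
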