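import Mathlib
import Pool.Agent.Helper605.Prime

set_option autoImplicit false
set_option linter.all false

namespace Pool.Agent.Helper605

open Matrix Finset Filter Topology

/-- Closeness of series: small weighted norm of the difference, which is divisible by `X ^ K`. -/
def Cl (ρ : ℝ) (K : ℕ) (ε : ℝ) (f g : PowerSeries ℝ) : Prop := Bd ρ (f - g) ε ∧ PowerSeries.X ^ K ∣ (f - g)

def MCl (ρ : ℝ) (K : ℕ) (ε : ℝ) {n : ℕ} (M N : Matrix (Fin n) (Fin n) (PowerSeries ℝ)) : Prop :=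
  ∀ i j, Cl ρ K ε (M i j) (N i j)

theorem MCl.mul {ρ : ℝ} (hρ : 0 ≤ ρ) {K n : ℕ} (x y : Matrix (Fin n) (Fin n) (PowerSeries ℝ))
    (hx : ∀ i j, ∃ b, Bd ρ (x i j) b) (hy : ∀ i j, ∃ b, Bd ρ (y i j) b) (ε : ℝ) (hε : 0 < ε) :
    ∃ δ : ℝ, 0 < δ ∧ ∀ x' y', MCl ρ K δ x x' → MCl ρ K δ y y' → MCl ρ K ε (x * y) (x' * y') := by
  choose bx hbx using hx
  choose b_y hby using hy
  set B : ℝ := ∑ i, ∑ j, bx i j + ∑ i, ∑ j, b_y i j with hB
  have hbxn : ∀ i j, 0 ≤ bx i j := fun i j => (hbx i j).nonneg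
  have hbyn : ∀ i j, 0 ≤ b_y i j := fun i j => (hby i j).nonneg
  have hxB : ∀ i j, Bd ρ (x i j) B := by
    intro i j
    apply (hbx i j).le
    have h1 : bx i j ≤ ∑ j, bx i j := Finset.single_le_sum (f := fun j => bx i j) (fun j _ => hbxn i j) (Finset.mem_univ j)
    have h2 : ∑ j, bx i j ≤ ∑ i, ∑ j, bx i j := Finset.single_le_sum (f := fun i => ∑ j, bx i j)
      (fun i _ => Finset.sum_nonneg fun j _ => hbxn i j) (Finset.mem_univ i)
    have h3 : 0 ≤ ∑ i, ∑ j, b_y i j := Finset.sum_nonneg fun i _ => Finset.sum_nonneg fun j _ => hbyn i j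
    linarith
  have hyB : ∀ i j, Bd ρ (y i j) B := by
    intro i j
    apply (hby i j).le
    have h1 : b_y i j ≤ ∑ j, b_y i j := Finset.single_le_sum (f := fun j => b_y i j) (fun j _ => hbyn i j) (Finset.mem_univ j)
    have h2 : ∑ j, b_y i j ≤ ∑ i, ∑ j, b_y i j := Finset.single_le_sum (f := fun i => ∑ j, b_y i j)
      (fun i _ => Finset.sum_nonneg fun j _ => hbyn i j) (Finset.mem_univ i)
    have h3 : 0 ≤ ∑ i, ∑ j, bx i j := Finset.sum_nonneg fun i _ => Finset.sum_nonneg fun j _ => hbxn i j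
    linarith
  have hB0 : 0 ≤ B := by
    have h3 : 0 ≤ ∑ i, ∑ j, bx i j := Finset.sum_nonneg fun i _ => Finset.sum_nonneg fun j _ => hbxn i j
    have h4 : 0 ≤ ∑ i, ∑ j, b_y i j := Finset.sum_nonneg fun i _ => Finset.sum_nonneg fun j _ => hbyn i j
    linarith
  set δ := min 1 (ε / ((n + 1) * (2 * B + 1))) with hδ
  have hpos : 0 < ε / (((n : ℝ) + 1) * (2 * B + 1)) := by positivity
  have hδ0 : 0 < δ := lt_min one_pos hpos
  have hδ1 : δ ≤ 1 := min_le_left _ _
  have hδ2 : δ ≤ ε / ((n + 1) * (2 * B + 1)) := min_le_right _ _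
  refine ⟨δ, hδ0, fun x' y' hx' hy' i j => ?_⟩
  have hy'B : ∀ i j, Bd ρ (y' i j) (B + 1) := by
    intro i j
    have h1 := (hyB i j).sub hρ (hy' i j).1
    have h2 : y i j - (y i j - y' i j) = y' i j := by ring
    rw [h2] at h1
    exact h1.le (by linarith)
  have hexp : (x * y) i j - (x' * y') i j = ∑ k, (x i k * (y k j - y' k j) + (x i k - x' i k) * y' k j) := by
    rw [Matrix.mul_apply, Matrix.mul_apply, ← Finset.sum_sub_distrib]
    apply Finset.sum_congr rfl
    intro k _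
    ring
  constructor
  · rw [hexp]
    have h1 := Bd.sum hρ Finset.univ (fun k => x i k * (y k j - y' k j) + (x i k - x' i k) * y' k j)
      (fun _ => B * δ + δ * (B + 1)) (fun k _ => ((hxB i k).mul hρ (hy' k j).1).add hρ ((hx' i k).1.mul hρ (hy'B k j)))
    apply h1.le
    rw [Finset.sum_const, Finset.card_univ, Fintype.card_fin, nsmul_eq_mul]
    have h2 : 0 < ((n : ℝ) + 1) * (2 * B + 1) := by positivity
    rw [le_div_iff₀ h2] at hδ2
    have h3 : (n : ℝ) * (B * δ + δ * (B + 1)) = δ * (n * (2 * B + 1)) := by ring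
    rw [h3]
    refine le_trans ?_ hδ2
    apply mul_le_mul_of_nonneg_left _ hδ0.le
    apply mul_le_mul_of_nonneg_right _ (by positivity)
    linarith
  · rw [hexp]
    apply Finset.dvd_sum
    intro k _
    exact dvd_add (Dvd.dvd.mul_left (hy' k j).2 _) (Dvd.dvd.mul_right (hx' i k).2 _)

theorem EL.approx {ρ : ℝ} (hρ : 0 ≤ ρ) {K n : ℕ} (T T' : Subring (PowerSeries ℝ)) (hT : ∀ f ∈ T, ∃ b, Bd ρ f b)
    (h : ∀ f ∈ T, ∀ ε : ℝ, 0 < ε → ∃ g ∈ T', Cl ρ K ε f g)
    {P : Matrix (Fin n) (Fin n) (PowerSeries ℝ)} (hP : P ∈ EL T (Fin n)) :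
    ∀ ε : ℝ, 0 < ε → ∃ P' ∈ EL T' (Fin n), MCl ρ K ε P P' := by
  induction hP using Submonoid.closure_induction with
  | mem x hx =>
    intro ε hε
    obtain ⟨i, j, hij, c, hc, rfl⟩ := hx
    obtain ⟨g, hg, hcl⟩ := h c hc ε hε
    refine ⟨transvection i j g, EL.transv i j hij g hg, ?_⟩
    intro a b
    have h1 : transvection i j c a b - transvection i j g a b = if i = a ∧ j = b then c - g else 0 := by
      simp only [transvection, Matrix.add_apply, Matrix.single_apply]
      split_ifs <;> ring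
    rw [Cl, h1]
    split_ifs
    · exact hcl
    · exact ⟨Bd.zero.le hε.le, dvd_zero _⟩
  | one =>
    intro ε hε
    refine ⟨1, Submonoid.one_mem _, fun i j => ?_⟩
    rw [Cl, sub_self]
    exact ⟨Bd.zero.le hε.le, dvd_zero _⟩
  | mul x y hx hy ihx ihy =>
    intro ε hε
    have hx' : x ∈ EL T (Fin n) := hx
    have hy' : y ∈ EL T (Fin n) := hy
    obtain ⟨δ, hδ, hmul⟩ := MCl.mul (K := K) hρ x y (fun i j => hT _ (EL.entries hx' i j))
      (fun i j => hT _ (EL.entries hy' i j)) ε hε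
    obtain ⟨x', h1, h2⟩ := ihx δ hδ
    obtain ⟨y', h3, h4⟩ := ihy δ hδ
    exact ⟨x' * y', Submonoid.mul_mem _ h1 h3, hmul x' y' h2 h4⟩

/-- Embedding of polynomials over `S`. -/
noncomputable def phi (S : Subring ℝ) : Polynomial S →+* PowerSeries ℝ :=
  (Polynomial.coeToPowerSeries.ringHom (R := ℝ)).comp (Polynomial.mapRingHom S.subtype)

theorem phi_apply (S : Subring ℝ) (p : Polynomial S) : phi S p = ((p.map S.subtype : Polynomial ℝ) : PowerSeries ℝ) := rfl

theorem phi_inj (S : Subring ℝ) : Function.Injective (phi S) := by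
  intro p q h
  rw [phi_apply, phi_apply, Polynomial.coe_inj] at h
  exact Polynomial.map_injective _ (Subtype.val_injective) h

theorem mem_range_phi (S : Subring ℝ) (p : Polynomial ℝ) (hp : ∀ k, p.coeff k ∈ S) : (p : PowerSeries ℝ) ∈ (phi S).range := by
  have h1 : p ∈ Polynomial.lifts S.subtype := by
    rw [Polynomial.lifts_iff_coeff_lifts]
    intro k
    exact ⟨⟨p.coeff k, hp k⟩, rfl⟩
  rw [Polynomial.mem_lifts] at h1
  obtain ⟨q, hq⟩ := h1
  exact ⟨q, by rw [phi_apply, hq]⟩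

theorem range_phi_le (ρ : ℝ) (hρ : 0 ≤ ρ) (S : Subring ℝ) : (phi S).range ≤ RR ρ hρ S := by
  rintro f ⟨q, rfl⟩
  rw [phi_apply]
  apply RR.poly
  intro k
  rw [Polynomial.coeff_map]
  exact (q.coeff k).2

theorem approx_trunc {ρ : ℝ} (hρ : 0 ≤ ρ) (S : Subring ℝ) (K : ℕ) (f : PowerSeries ℝ) (hf : f ∈ RR ρ hρ S) (ε : ℝ) (hε : 0 < ε) :
    ∃ g ∈ (phi S).range, Cl ρ K ε f g := by
  obtain ⟨hS, c, hc⟩ := hf
  obtain ⟨K', h1, h2⟩ := ((hc.tail hρ ε hε).and (eventually_ge_atTop K)).exists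
  refine ⟨_, mem_range_phi S (PowerSeries.trunc K' f) ?_, h1, ?_⟩
  · intro k
    rw [PowerSeries.coeff_trunc]
    split_ifs
    · exact hS k
    · exact S.zero_mem
  · rw [PowerSeries.X_pow_dvd_iff]
    intro m hm
    rw [map_sub, Polynomial.coeff_coe, PowerSeries.coeff_trunc, if_pos (by omega), sub_self]

theorem approx_dense {ρ : ℝ} (hρ : 0 ≤ ρ) (S : Subring ℝ) (hS : S ≠ ⊥) (f : PowerSeries ℝ) (hf : ∃ b, Bd ρ f b) (ε : ℝ) (hε : 0 < ε) :
    ∃ g ∈ (phi S).range, Cl ρ 0 ε f g := by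
  obtain ⟨c, hc⟩ := hf
  obtain ⟨K', h1⟩ := (hc.tail hρ (ε / 2) (by linarith)).exists
  have hδ : ∀ k : ℕ, ∃ s ∈ S, |PowerSeries.coeff k f - s| < ε / (2 * (K' + 1) * (ρ ^ k + 1)) := by
    intro k
    have hpos : 0 < ε / (2 * ((K' : ℝ) + 1) * (ρ ^ k + 1)) := by positivity
    obtain ⟨s, hs, h2, h3⟩ := subring_between S hS (PowerSeries.coeff k f - ε / (2 * (K' + 1) * (ρ ^ k + 1)))
      (PowerSeries.coeff k f + ε / (2 * (K' + 1) * (ρ ^ k + 1))) (by linarith)
    exact ⟨s, hs, by rw [abs_lt]; constructor <;> linarith⟩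
  choose s hs hsb using hδ
  set p : Polynomial ℝ := ∑ k ∈ range K', Polynomial.C (s k) * Polynomial.X ^ k with hp
  have hpc : ∀ k, p.coeff k = if k < K' then s k else 0 := by
    intro k
    rw [hp, Polynomial.finsetSum_coeff]
    simp only [Polynomial.coeff_C_mul, Polynomial.coeff_X_pow, mul_ite, mul_one, mul_zero]
    rw [Finset.sum_ite_eq]
    simp
  refine ⟨p, mem_range_phi S p ?_, ?_, by simp⟩
  · intro k
    rw [hpc]
    split_ifs
    · exact hs k
    · exact S.zero_mem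
  · have h2 : Bd ρ ((PowerSeries.trunc K' f : PowerSeries ℝ) - (p : PowerSeries ℝ)) (ε / 2) := by
      intro K
      have h3 : ∀ k ∈ range K, ‖PowerSeries.coeff k ((PowerSeries.trunc K' f : PowerSeries ℝ) - (p : PowerSeries ℝ))‖ * ρ ^ k ≤
          if k ∈ range K' then ε / (2 * (K' + 1)) else 0 := by
        intro k _
        rw [map_sub, Polynomial.coeff_coe, Polynomial.coeff_coe, PowerSeries.coeff_trunc, hpc]
        by_cases hk : k < K'
        · rw [if_pos hk, if_pos hk, if_pos (Finset.mem_range.mpr hk), Real.norm_eq_abs]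
          have h4 := (hsb k).le
          have h5 : 0 ≤ ρ ^ k := by positivity
          calc |PowerSeries.coeff k f - s k| * ρ ^ k ≤ ε / (2 * (K' + 1) * (ρ ^ k + 1)) * (ρ ^ k + 1) := by
                apply mul_le_mul h4 (by linarith) h5 (by positivity)
            _ = ε / (2 * (K' + 1)) := by
                field_simp
        · rw [if_neg hk, if_neg hk, if_neg (by rw [Finset.mem_range]; exact hk)]
          simp
      refine (Finset.sum_le_sum h3).trans ?_
      rw [← Finset.sum_filter, Finset.sum_const, nsmul_eq_mul]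
      have h6 : ((range K).filter fun k => k ∈ range K').card ≤ K' := by
        refine (Finset.card_le_card (t := range K') ?_).trans (by simp)
        intro k hk
        rw [Finset.mem_filter] at hk
        exact hk.2
      have h7 : (((range K).filter fun k => k ∈ range K').card : ℝ) ≤ K' := by exact_mod_cast h6
      calc (((range K).filter fun k => k ∈ range K').card : ℝ) * (ε / (2 * (K' + 1))) ≤ (K' + 1) * (ε / (2 * (K' + 1))) := by
            apply mul_le_mul_of_nonneg_right (by linarith) (by positivity)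
        _ = ε / 2 := by field_simp
    have h8 := h1.add hρ h2
    have h9 : f - (PowerSeries.trunc K' f : PowerSeries ℝ) + ((PowerSeries.trunc K' f : PowerSeries ℝ) - (p : PowerSeries ℝ)) =
        f - (p : PowerSeries ℝ) := by ring
    rw [h9] at h8
    exact h8.le (by linarith)

end Pool.Agent.Helper605
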