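import Mathlib

namespace Pool.Agent.Helper605.CP

open Finset Filter Topology

/-- One step of one trajectory of the accelerated map: the pair `(a, p)` stands for `3^a N + p`
with `N` a 2-adic integer, and `b` is the next binary digit of `N`. -/
def st1 (b : ℕ) (s : ℕ × ℕ) : ℕ × ℕ :=
  if (3 ^ s.1 * b + s.2) % 2 = 0 then (s.1, (3 ^ s.1 * b + s.2) / 2)
  else (s.1 + 1, (3 * (3 ^ s.1 * b + s.2) + 1) / 2)

abbrev St := (ℕ × ℕ) × (ℕ × ℕ)

def stp (b : ℕ) (t : St) : St := (st1 b t.1, st1 b t.2)

/-- number of odd iterates and the iterate itself, after `m` accelerated steps from `n` -/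
def orb (m n : ℕ) : ℕ × ℕ := (st1 0)^[m] (0, n)

lemma orb_zero (n : ℕ) : orb 0 n = (0, n) := rfl

lemma orb_succ (m n : ℕ) : orb (m + 1) n = st1 0 (orb m n) :=
  Function.iterate_succ_apply' _ _ _

lemma orb_add (m : ℕ) : ∀ n b, orb m (n + 2 ^ m * b) =
    ((orb m n).1, (orb m n).2 + 3 ^ (orb m n).1 * b) := by
  induction m with
  | zero => intro n b; simp [orb]
  | succ m ih =>
    intro n b
    rw [orb_succ, orb_succ, show 2 ^ (m + 1) * b = 2 ^ m * (2 * b) by ring, ih]
    generalize orb m n = s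
    obtain ⟨o, x⟩ := s
    simp only [st1, mul_zero, zero_add]
    obtain ⟨k, hk⟩ : ∃ k, k = 3 ^ o * b := ⟨_, rfl⟩
    have h2 : 3 ^ o * (2 * b) = 2 * k := by rw [hk]; ring
    have h3 : 3 ^ (o + 1) * b = 3 * k := by rw [hk]; ring
    rw [h2]
    by_cases hx : x % 2 = 0
    · have h4 : (x + 2 * k) % 2 = 0 := by omega
      simp only [h4, hx, if_true]
      rw [← hk]
      ext <;> simp <;> omega
    · have h4 : ¬ (x + 2 * k) % 2 = 0 := by omega
      simp only [h4, hx, if_false]
      rw [h3]
      ext <;> simp <;> omega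

lemma orb_step (m n b : ℕ) : orb (m + 1) (n + 2 ^ m * b) = st1 b (orb m n) := by
  rw [orb_succ, orb_add]
  generalize orb m n = s
  obtain ⟨o, x⟩ := s
  simp only [st1, mul_zero, zero_add, add_comm x]

/-- The probability that a pair has not coalesced after `n` accelerated steps. -/
noncomputable def u : ℕ → St → ℝ
  | 0, t => if t.1 = t.2 then 0 else 1
  | n + 1, t => (u n (stp 0 t) + u n (stp 1 t)) / 2

lemma sum_u (m : ℕ) : ∀ c, ∑ n ∈ range (2 ^ m), u c (orb m n, orb m (n + 1)) =
    2 ^ m * u (m + c) ((0, 0), (0, 1)) := by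
  induction m with
  | zero => intro c; simp [orb]
  | succ m ih =>
    intro c
    rw [pow_succ, mul_two, Finset.sum_range_add, ← Finset.sum_add_distrib]
    have key : ∀ n, u c (orb (m + 1) n, orb (m + 1) (n + 1)) +
        u c (orb (m + 1) (2 ^ m + n), orb (m + 1) (2 ^ m + n + 1)) =
        2 * u (c + 1) (orb m n, orb m (n + 1)) := by
      intro n
      have e0 := orb_step m n 0
      have e0' := orb_step m (n + 1) 0
      have e1 := orb_step m n 1
      have e1' := orb_step m (n + 1) 1
      rw [mul_zero, add_zero] at e0 e0'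
      rw [mul_one] at e1 e1'
      rw [show 2 ^ m + n + 1 = n + 1 + 2 ^ m by ring, show 2 ^ m + n = n + 2 ^ m by ring,
        e0, e0', e1, e1']
      simp only [u, stp]
      ring
    rw [Finset.sum_congr rfl (fun n _ => key n), ← Finset.mul_sum, ih]
    rw [show m + (c + 1) = m + 1 + c by ring]
    ring

/-- The Collatz function. -/
def C (n : ℕ) : ℕ := if n % 2 = 1 then 3 * n + 1 else n / 2

lemma orb_fst_le (m n : ℕ) : (orb m n).1 ≤ m := by
  induction m with
  | zero => simp [orb]
  | succ m ih =>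
    rw [orb_succ]
    simp only [st1]
    split_ifs <;> simp <;> omega

lemma C_iter (m n : ℕ) : C^[m + (orb m n).1] n = (orb m n).2 := by
  induction m with
  | zero => simp [orb]
  | succ m ih =>
    rw [orb_succ]
    revert ih
    generalize orb m n = s
    obtain ⟨o, x⟩ := s
    intro ih
    simp only at ih
    simp only [st1, mul_zero, zero_add]
    by_cases hx : x % 2 = 0
    · simp only [hx, if_true]
      rw [show m + 1 + o = (m + o) + 1 by ring, Function.iterate_succ_apply', ih]
      simp [C, hx]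
    · simp only [hx, if_false]
      rw [show m + 1 + (o + 1) = ((m + o) + 1) + 1 by ring, Function.iterate_succ_apply',
        Function.iterate_succ_apply', ih]
      have h1 : x % 2 = 1 := by omega
      have h2 : C x = 3 * x + 1 := by simp [C, h1]
      rw [h2]
      have h3 : ¬ (3 * x + 1) % 2 = 1 := by omega
      simp [C, h3]

/-- If the orbits of `n` and `n + 1` meet after `m` accelerated steps (with the same number of odd
steps), the Collatz iterates agree at a time between `m` and `2 m`. -/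
lemma coal_C {m n : ℕ} (h : orb m n = orb m (n + 1)) :
    ∃ k, m ≤ k ∧ k ≤ 2 * m ∧ C^[k] n = C^[k] (n + 1) := by
  refine ⟨m + (orb m n).1, by omega, ?_, ?_⟩
  · have := orb_fst_le m n
    omega
  · rw [C_iter]
    conv_rhs => rw [h]
    rw [C_iter, h]

lemma orb_periodic (m n : ℕ) : (orb m (n + 2 ^ m) = orb m (n + 2 ^ m + 1)) ↔
    (orb m n = orb m (n + 1)) := by
  have e1 := orb_add m n 1
  have e2 := orb_add m (n + 1) 1
  rw [mul_one] at e1 e2
  rw [show n + 2 ^ m + 1 = n + 1 + 2 ^ m by ring, e1, e2]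
  generalize orb m n = s
  generalize orb m (n + 1) = s'
  obtain ⟨o, x⟩ := s
  obtain ⟨o', x'⟩ := s'
  simp only [Prod.mk.injEq, mul_one]
  constructor
  · rintro ⟨h1, h2⟩
    subst h1
    exact ⟨rfl, by omega⟩
  · rintro ⟨h1, h2⟩
    subst h1; subst h2
    exact ⟨rfl, rfl⟩

/-- the count of bad residues in blocks -/
lemma count_bad (m : ℕ) (j : ℕ) :
    ∑ n ∈ range (j * 2 ^ m), u 0 (orb m n, orb m (n + 1)) =
      j * (2 ^ m * u m ((0, 0), (0, 1))) := by
  induction j with
  | zero => simp
  | succ j ih =>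
    rw [add_mul, one_mul, Finset.sum_range_add, ih]
    have h : ∀ n, u 0 (orb m (j * 2 ^ m + n), orb m (j * 2 ^ m + n + 1)) =
        u 0 (orb m n, orb m (n + 1)) := by
      intro n
      clear ih
      induction j with
      | zero => simp
      | succ j ih2 =>
        rw [← ih2, show (j + 1) * 2 ^ m + n = (j * 2 ^ m + n) + 2 ^ m by ring]
        simp only [u]
        exact if_congr (orb_periodic m (j * 2 ^ m + n)) rfl rfl
    rw [Finset.sum_congr rfl (fun n _ => h n), sum_u m 0]
    push_cast
    rw [add_zero, add_mul, one_mul]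

theorem density_of_uinf (hu : ∀ ε > 0, ∃ m, 1 ≤ m ∧ u m ((0, 0), (0, 1)) < ε)
    (A : Set ℕ) (hA : ∀ m, 1 ≤ m → ∃ L, ∀ n, L ≤ n → orb m n = orb m (n + 1) → n ∈ A) :
    Tendsto (fun N : ℕ => ((A ∩ Set.Icc 1 N).ncard : ℝ) / N) atTop (𝓝 1) := by
  classical
  rw [Metric.tendsto_atTop]
  intro ε hε
  obtain ⟨m, hm, hum⟩ := hu (ε / 2) (by positivity)
  obtain ⟨L, hL⟩ := hA m hm
  have hu0 : 0 ≤ u m ((0, 0), (0, 1)) := by
    have := sum_u m 0
    have h0 : 0 ≤ ∑ n ∈ range (2 ^ m), u 0 (orb m n, orb m (n + 1)) :=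
      Finset.sum_nonneg (fun n _ => by simp only [u]; split_ifs <;> norm_num)
    rw [this, add_zero] at h0
    exact nonneg_of_mul_nonneg_right h0 (by positivity)
  -- bound on bad
  set K : ℝ := L + 2 ^ m * u m ((0, 0), (0, 1)) + 1 with hK
  have hKpos : 0 < K := by positivity
  obtain ⟨N0, hN0⟩ := exists_nat_gt (K / (ε / 2))
  refine ⟨N0 + 1, fun N hN => ?_⟩
  have hNpos : (0 : ℝ) < N := by
    have : 0 < N := by omega
    exact_mod_cast this
  have hNK : K < ε / 2 * N := by
    rw [div_lt_iff₀ (by positivity)] at hN0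
    have : (N0 : ℝ) ≤ N := by exact_mod_cast (by omega : N0 ≤ N)
    nlinarith
  -- upper bound
  have hle : ((A ∩ Set.Icc 1 N).ncard : ℝ) ≤ N := by
    have : (A ∩ Set.Icc 1 N).ncard ≤ (Set.Icc 1 N).ncard :=
      Set.ncard_le_ncard Set.inter_subset_right (Set.finite_Icc 1 N)
    have h2 : (Set.Icc 1 N).ncard = N := by
      rw [← Finset.coe_Icc, Set.ncard_coe_finset, Nat.card_Icc]; omega
    rw [h2] at this
    exact_mod_cast this
  -- lower bound
  have hge : (N : ℝ) ≤ (A ∩ Set.Icc 1 N).ncard + (K + u m ((0, 0), (0, 1)) * N) := by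
    have hfin : (A ∩ Set.Icc 1 N).ncard = ((Finset.Icc 1 N).filter (· ∈ A)).card := by
      rw [← Set.ncard_coe_finset]
      congr 1
      ext x
      simp only [Set.mem_inter_iff, Set.mem_Icc, Finset.coe_filter, Finset.mem_Icc,
        Set.mem_setOf_eq]
      tauto
    rw [hfin]
    have hsplit : ((Finset.Icc 1 N).filter (· ∈ A)).card +
        ((Finset.Icc 1 N).filter (fun n => ¬ n ∈ A)).card = N := by
      rw [Finset.card_filter_add_card_filter_not]
      simp
    have hbad : (((Finset.Icc 1 N).filter (fun n => ¬ n ∈ A)).card : ℝ) ≤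
        K + u m ((0, 0), (0, 1)) * N := by
      have hsub : (Finset.Icc 1 N).filter (fun n => ¬ n ∈ A) ⊆
          range L ∪ (range ((N / 2 ^ m + 1) * 2 ^ m)).filter
            (fun n => ¬ orb m n = orb m (n + 1)) := by
        intro n hn
        rw [Finset.mem_filter, Finset.mem_Icc] at hn
        rw [Finset.mem_union, Finset.mem_range, Finset.mem_filter, Finset.mem_range]
        by_cases h : n < L
        · exact Or.inl h
        · refine Or.inr ⟨?_, fun h2 => hn.2 (hL n (by omega) h2)⟩
          have h3 := Nat.lt_div_mul_add (a := N) (b := 2 ^ m) (by positivity)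
          calc n ≤ N := hn.1.2
            _ < N / 2 ^ m * 2 ^ m + 2 ^ m := h3
            _ = (N / 2 ^ m + 1) * 2 ^ m := by ring
      have h1 := Finset.card_le_card hsub
      have h2 := le_trans h1 (Finset.card_union_le _ _)
      rw [Finset.card_range] at h2
      have h3 : (((range ((N / 2 ^ m + 1) * 2 ^ m)).filter
            (fun n => ¬ orb m n = orb m (n + 1))).card : ℝ) =
            ((N / 2 ^ m + 1 : ℕ) : ℝ) * (2 ^ m * u m ((0, 0), (0, 1))) := by
        rw [← count_bad]
        rw [Finset.card_filter]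
        push_cast
        refine Finset.sum_congr rfl (fun n _ => ?_)
        simp only [u]
        by_cases h : orb m n = orb m (n + 1) <;> simp [h]
      have h4 : (((Finset.Icc 1 N).filter (fun n => ¬ n ∈ A)).card : ℝ) ≤ L +
          ((N / 2 ^ m + 1 : ℕ) : ℝ) * (2 ^ m * u m ((0, 0), (0, 1))) := by
        rw [← h3]
        exact_mod_cast h2
      refine le_trans h4 ?_
      have h5 : ((N / 2 ^ m : ℕ) : ℝ) * 2 ^ m ≤ N := by
        exact_mod_cast Nat.div_mul_le_self N (2 ^ m)
      push_cast at h5 ⊢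
      rw [hK]
      nlinarith
    have hs : (((Finset.Icc 1 N).filter (· ∈ A)).card : ℝ) +
        ((Finset.Icc 1 N).filter (fun n => ¬ n ∈ A)).card = N := by exact_mod_cast hsplit
    linarith
  rw [Real.dist_eq, abs_lt]
  constructor
  · rw [lt_sub_iff_add_lt, lt_div_iff₀ hNpos]
    nlinarith
  · have : ((A ∩ Set.Icc 1 N).ncard : ℝ) / N ≤ 1 := by
      rw [div_le_one hNpos]; exact hle
    linarith

end Pool.Agent.Helper605.CP
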