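import Pool.Agent.Helper605.CPa

namespace Pool.Agent.Helper605.CP

open Finset Filter Topology

lemma three_pow_mod (a b p : ℕ) : (3 ^ a * b + p) % 2 = (b + p) % 2 := by
  have h : 3 ^ a % 2 = 1 := by
    rw [Nat.pow_mod]; simp
  rw [Nat.add_mod, Nat.mul_mod, h, one_mul, Nat.mod_mod, ← Nat.add_mod]

lemma st1_even {b : ℕ} {s : ℕ × ℕ} (h : (b + s.2) % 2 = 0) :
    st1 b s = (s.1, (3 ^ s.1 * b + s.2) / 2) := by
  simp only [st1, three_pow_mod, h, if_true]

lemma st1_odd {b : ℕ} {s : ℕ × ℕ} (h : ¬ (b + s.2) % 2 = 0) :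
    st1 b s = (s.1 + 1, (3 * (3 ^ s.1 * b + s.2) + 1) / 2) := by
  simp only [st1, three_pow_mod, h, if_false]

/-- the averaging operator -/
noncomputable def PP (f : St → ℝ) (t : St) : ℝ := (f (stp 0 t) + f (stp 1 t)) / 2

lemma u_succ (n : ℕ) (t : St) : u (n + 1) t = PP (u n) t := rfl

lemma PP_mono {f g : St → ℝ} {t : St} (h : ∀ b, f (stp b t) ≤ g (stp b t)) :
    PP f t ≤ PP g t := by
  unfold PP
  have := h 0
  have := h 1
  linarith

/-- absolute difference of the number of odd steps -/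
def sd (t : St) : ℕ := (t.1.1 - t.2.1) + (t.2.1 - t.1.1)

/-- difference of the constant terms -/
def dl (t : St) : ℤ := (t.1.2 : ℤ) - t.2.2

lemma sd_lazy {t : St} (h : (t.1.2 + t.2.2) % 2 = 0) (b : ℕ) : sd (stp b t) = sd t := by
  obtain ⟨⟨a, p⟩, ⟨c, q⟩⟩ := t
  simp only [stp] at *
  by_cases h1 : (b + p) % 2 = 0
  · have h2 : (b + q) % 2 = 0 := by omega
    rw [st1_even h1, st1_even h2]; simp [sd]
  · have h2 : ¬ (b + q) % 2 = 0 := by omega
    rw [st1_odd h1, st1_odd h2]; simp [sd]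

lemma sd_move {t : St} (h : ¬ (t.1.2 + t.2.2) % 2 = 0) (hs : sd t ≠ 0) (φ : ℕ → ℝ) :
    φ (sd (stp 0 t)) + φ (sd (stp 1 t)) = φ (sd t + 1) + φ (sd t - 1) := by
  obtain ⟨⟨a, p⟩, ⟨c, q⟩⟩ := t
  simp only [stp, sd] at *
  by_cases h1 : p % 2 = 0
  · have h2 : ¬ (0 + q) % 2 = 0 := by omega
    have h3 : (0 + p) % 2 = 0 := by omega
    have h4 : (1 + q) % 2 = 0 := by omega
    have h5 : ¬ (1 + p) % 2 = 0 := by omega
    rw [st1_even (b := 0) (s := (a, p)) h3, st1_odd (b := 0) (s := (c, q)) h2,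
      st1_odd (b := 1) (s := (a, p)) h5, st1_even (b := 1) (s := (c, q)) h4]
    simp only
    rcases lt_or_gt_of_ne (show a ≠ c by omega) with hac | hac
    · rw [show a - (c + 1) + (c + 1 - a) = a - c + (c - a) + 1 by omega,
        show a + 1 - c + (c - (a + 1)) = a - c + (c - a) - 1 by omega]
    · rw [show a - (c + 1) + (c + 1 - a) = a - c + (c - a) - 1 by omega,
        show a + 1 - c + (c - (a + 1)) = a - c + (c - a) + 1 by omega]
      ring
  · have h2 : (0 + q) % 2 = 0 := by omega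
    have h3 : ¬ (0 + p) % 2 = 0 := by omega
    have h4 : ¬ (1 + q) % 2 = 0 := by omega
    have h5 : (1 + p) % 2 = 0 := by omega
    rw [st1_odd (b := 0) (s := (a, p)) h3, st1_even (b := 0) (s := (c, q)) h2,
      st1_even (b := 1) (s := (a, p)) h5, st1_odd (b := 1) (s := (c, q)) h4]
    simp only
    rcases lt_or_gt_of_ne (show a ≠ c by omega) with hac | hac
    · rw [show a - (c + 1) + (c + 1 - a) = a - c + (c - a) + 1 by omega,
        show a + 1 - c + (c - (a + 1)) = a - c + (c - a) - 1 by omega]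
      ring
    · rw [show a - (c + 1) + (c + 1 - a) = a - c + (c - a) - 1 by omega,
        show a + 1 - c + (c - (a + 1)) = a - c + (c - a) + 1 by omega]

/-- truncated 2-adic valuation -/
def hh : ℕ → ℤ → ℕ
  | 0, _ => 1
  | e + 1, d => if d % 2 = 0 then 1 + hh e (d / 2) else 0

lemma hh_le (e : ℕ) : ∀ d, hh e d ≤ e + 1 := by
  induction e with
  | zero => intro d; simp [hh]
  | succ e ih =>
    intro d
    simp only [hh]
    have := ih (d / 2)
    split_ifs <;> omega

lemma hh_three (e : ℕ) : ∀ d, hh e (3 * d) = hh e d := by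
  induction e with
  | zero => intro d; simp [hh]
  | succ e ih =>
    intro d
    simp only [hh]
    by_cases h : d % 2 = 0
    · have h2 : (3 * d) % 2 = 0 := by omega
      rw [if_pos h, if_pos h2, show 3 * d / 2 = 3 * (d / 2) by omega, ih]
    · have h2 : ¬ (3 * d) % 2 = 0 := by omega
      rw [if_neg h, if_neg h2]

lemma hh_sum (f : ℕ) : ∀ (r d : ℤ), r % 2 = 1 →
    hh (f + 1) d + hh (f + 1) (d + 2 ^ f * r) = 2 * hh f d := by
  induction f with
  | zero =>
    intro r d hr
    simp only [hh, pow_zero, one_mul]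
    by_cases h : d % 2 = 0
    · rw [if_pos h, if_neg (by omega)]
    · rw [if_neg h, if_pos (by omega)]
  | succ f ih =>
    intro r d hr
    obtain ⟨x, hx⟩ : ∃ x, x = 2 ^ f * r := ⟨_, rfl⟩
    have h1 : 2 ^ (f + 1) * r = 2 * x := by rw [hx]; ring
    have ih' := ih r (d / 2) hr
    rw [← hx] at ih'
    rw [h1]
    by_cases h : d % 2 = 0
    · have h2 : (d + 2 * x) % 2 = 0 := by omega
      have e1 : hh (f + 1 + 1) d = 1 + hh (f + 1) (d / 2) := by
        rw [hh, if_pos h]
      have e2 : hh (f + 1 + 1) (d + 2 * x) = 1 + hh (f + 1) (d / 2 + x) := by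
        rw [hh, if_pos h2, show (d + 2 * x) / 2 = d / 2 + x by omega]
      have e3 : hh (f + 1) d = 1 + hh f (d / 2) := by
        rw [hh, if_pos h]
      rw [e1, e2, e3]
      omega
    · have h2 : ¬ (d + 2 * x) % 2 = 0 := by omega
      have e1 : hh (f + 1 + 1) d = 0 := by rw [hh, if_neg h]
      have e2 : hh (f + 1 + 1) (d + 2 * x) = 0 := by rw [hh, if_neg h2]
      have e3 : hh (f + 1) d = 0 := by rw [hh, if_neg h]
      rw [e1, e2, e3]

/-- 2-adic valuation of `3^k - 1` -/
def ev (k : ℕ) : ℕ := padicValNat 2 (3 ^ k - 1)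

lemma ev_spec {k : ℕ} (hk : k ≠ 0) :
    ∃ f r : ℕ, ev k = f + 1 ∧ r % 2 = 1 ∧ 3 ^ k = 2 ^ (f + 1) * r + 1 ∧ f + 2 ≤ 2 * k := by
  have h3 : 3 ≤ 3 ^ k := by
    calc 3 = 3 ^ 1 := by norm_num
      _ ≤ 3 ^ k := Nat.pow_le_pow_right (by norm_num) (by omega)
  have hne : 3 ^ k - 1 ≠ 0 := by omega
  obtain ⟨e, r, hr, h⟩ := Nat.exists_eq_two_pow_mul_odd hne
  have hr2 : r % 2 = 1 := Nat.odd_iff.mp hr
  have hev : ev k = e := by
    unfold ev
    rw [h, padicValNat.mul (by positivity) (by omega), padicValNat.prime_pow,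
      padicValNat.eq_zero_of_not_dvd (by omega)]
    simp
  have he : e ≠ 0 := by
    rintro rfl
    have h4 : 3 ^ k % 2 = 1 := by rw [Nat.pow_mod]; simp
    omega
  obtain ⟨f, rfl⟩ := Nat.exists_eq_succ_of_ne_zero he
  refine ⟨f, r, hev, hr2, by rw [Nat.succ_eq_add_one] at h; omega, ?_⟩
  have hb : ∀ k : ℕ, k ≠ 0 → 2 * 3 ^ k ≤ 4 ^ k + 2 := by
    intro k
    induction k with
    | zero => intro h; exact absurd rfl h
    | succ k ih =>
      intro _
      by_cases hk0 : k = 0
      · subst hk0; norm_num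
      · have := ih hk0
        have h4 : 4 ≤ 4 ^ k := by
          calc 4 = 4 ^ 1 := by norm_num
            _ ≤ 4 ^ k := Nat.pow_le_pow_right (by norm_num) (by omega)
        rw [pow_succ, pow_succ]
        omega
  have hb' := hb k hk
  have h5 : 2 ^ (f + 2) ≤ 2 ^ (2 * k) := by
    have h6 : 2 ^ (f + 1) ≤ 2 ^ (f + 1) * r := Nat.le_mul_of_pos_right _ (by omega)
    have h7 : 2 ^ (2 * k) = 4 ^ k := by rw [pow_mul]; norm_num
    rw [h7, show f + 2 = (f + 1) + 1 by ring, pow_succ]
    rw [Nat.succ_eq_add_one] at h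
    omega
  exact (Nat.pow_le_pow_iff_right (by norm_num)).mp h5

lemma E_spec {a c : ℕ} (hs : (a - c) + (c - a) ≠ 0) :
    ∃ (f : ℕ) (r : ℤ), ev ((a - c) + (c - a)) = f + 1 ∧ r % 2 = 1 ∧
      (3 : ℤ) ^ a - 3 ^ c = 2 ^ (f + 1) * r := by
  obtain ⟨f, r, h1, h2, h3, -⟩ := ev_spec hs
  have h3' : (3 : ℤ) ^ ((a - c) + (c - a)) = 2 ^ (f + 1) * r + 1 := by exact_mod_cast h3
  have hodd : ∀ n : ℕ, (3 : ℤ) ^ n % 2 = 1 := by
    intro n
    have : 3 ^ n % 2 = 1 := by rw [Nat.pow_mod]; simp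
    exact_mod_cast (by exact_mod_cast this : ((3 ^ n % 2 : ℕ) : ℤ) = 1)
  rcases lt_or_gt_of_ne (show a ≠ c by omega) with hac | hac
  · refine ⟨f, -(3 ^ a * r), h1, ?_, ?_⟩
    · have := hodd a
      have h4 : (3 ^ a * (r : ℤ)) % 2 = 1 := by
        rw [Int.mul_emod, this]
        omega
      omega
    · obtain ⟨k, rfl⟩ := Nat.exists_eq_add_of_lt hac
      rw [show a - (a + k + 1) + (a + k + 1 - a) = k + 1 by omega] at h3'
      rw [show a + k + 1 = a + (k + 1) by ring, pow_add, h3']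
      ring
  · refine ⟨f, (3 ^ c * r), h1, ?_, ?_⟩
    · have := hodd c
      rw [Int.mul_emod, this]
      omega
    · obtain ⟨k, rfl⟩ := Nat.exists_eq_add_of_lt hac
      rw [show c + k + 1 - c + (c - (c + k + 1)) = k + 1 by omega] at h3'
      rw [show c + k + 1 = c + (k + 1) by ring, pow_add, h3']
      ring

/-- The potential controlling the occupation time of small values of `sd`. -/
noncomputable def F (t : St) : ℝ :=
  if sd t = 0 then 0
  else 17280 * (1 - (19 / 20) ^ sd t) + 2 / 5 * (9 / 10) ^ sd t * hh (ev (sd t)) (dl t)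

noncomputable def G (s : ℕ) : ℝ :=
  17280 * (1 - (19 / 20) ^ s) + 2 / 5 * (9 / 10) ^ s * (2 * s)

lemma hh_ev_le {s : ℕ} (hs : s ≠ 0) (d : ℤ) : (hh (ev s) d : ℝ) ≤ 2 * s := by
  obtain ⟨f, r, h1, -, -, h4⟩ := ev_spec hs
  have := hh_le (ev s) d
  rw [h1] at this ⊢
  exact_mod_cast (by omega : hh (f + 1) d ≤ 2 * s)

lemma F_le_G (t : St) : F t ≤ G (sd t) := by
  unfold F G
  split_ifs with h
  · simp [h]
  · have := hh_ev_le h (dl t)
    have h2 : (0 : ℝ) ≤ 2 / 5 * (9 / 10) ^ sd t := by positivity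
    nlinarith

lemma F_nonneg (t : St) : 0 ≤ F t := by
  unfold F
  split_ifs with h
  · exact le_refl _
  · have h1 : ((19 : ℝ) / 20) ^ sd t ≤ 1 := pow_le_one₀ (by norm_num) (by norm_num)
    have h2 : (0 : ℝ) ≤ 2 / 5 * (9 / 10) ^ sd t * hh (ev (sd t)) (dl t) := by positivity
    linarith

lemma dl_lazy {t : St} (h : (t.1.2 + t.2.2) % 2 = 0) (b : ℕ) (e : ℕ) :
    hh e (dl (stp b t)) = hh e ((dl t + b * (3 ^ t.1.1 - 3 ^ t.2.1)) / 2) := by
  obtain ⟨⟨a, p⟩, ⟨c, q⟩⟩ := t
  simp only [stp] at *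
  have ha : (3 ^ a * b + p) % 2 = (b + p) % 2 := three_pow_mod a b p
  have hc : (3 ^ c * b + q) % 2 = (b + q) % 2 := three_pow_mod c b q
  obtain ⟨x, hx⟩ : ∃ x, x = 3 ^ a * b := ⟨_, rfl⟩
  obtain ⟨y, hy⟩ : ∃ y, y = 3 ^ c * b := ⟨_, rfl⟩
  have hxy : (b : ℤ) * (3 ^ a - 3 ^ c) = x - y := by
    rw [hx, hy]; push_cast; ring
  by_cases h1 : (b + p) % 2 = 0
  · have h2 : (b + q) % 2 = 0 := by omega
    rw [st1_even h1, st1_even h2]
    simp only [dl]
    rw [hxy, ← hx, ← hy]
    rw [← hx] at ha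
    rw [← hy] at hc
    congr 1
    push_cast
    omega
  · have h2 : ¬ (b + q) % 2 = 0 := by omega
    rw [st1_odd h1, st1_odd h2]
    simp only [dl]
    rw [hxy, ← hx, ← hy]
    rw [← hx] at ha
    rw [← hy] at hc
    rw [← hh_three e (_ / 2)]
    congr 1
    push_cast
    omega

lemma G_conv (k : ℕ) : (G (k + 2) + G k) / 2 ≤
    17280 * (1 - (19 / 20) ^ (k + 1)) - 2 / 5 * (9 / 10) ^ (k + 1) := by
  unfold G
  have hB : (1 : ℝ) + k * (1 / 18) ≤ (1 + 1 / 18) ^ k :=
    one_add_mul_le_pow (by norm_num) k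
  have hX : (9 / 10 : ℝ) ^ k * (1 + k * (1 / 18)) ≤ (19 / 20) ^ k := by
    calc (9 / 10 : ℝ) ^ k * (1 + k * (1 / 18)) ≤ (9 / 10 : ℝ) ^ k * (1 + 1 / 18) ^ k :=
          mul_le_mul_of_nonneg_left hB (by positivity)
      _ = (19 / 20) ^ k := by rw [← mul_pow]; norm_num
  have hY : (0 : ℝ) < (9 / 10) ^ k := by positivity
  have hk : (0 : ℝ) ≤ (9 / 10) ^ k * k := by positivity
  set X : ℝ := (19 / 20) ^ k
  set Y : ℝ := (9 / 10) ^ k
  have e1 : ((19 : ℝ) / 20) ^ (k + 2) = 361 / 400 * X := by rw [pow_add]; ring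
  have e2 : ((9 : ℝ) / 10) ^ (k + 2) = 81 / 100 * Y := by rw [pow_add]; ring
  have e3 : ((19 : ℝ) / 20) ^ (k + 1) = 19 / 20 * X := by rw [pow_add]; ring
  have e4 : ((9 : ℝ) / 10) ^ (k + 1) = 9 / 10 * Y := by rw [pow_add]; ring
  rw [e1, e2, e3, e4]
  push_cast
  nlinarith

lemma PF {t : St} (hs : sd t ≠ 0) : PP F t ≤ F t - 2 / 5 * (9 / 10) ^ sd t := by
  by_cases hpar : (t.1.2 + t.2.2) % 2 = 0
  · -- lazy
    have h0 := sd_lazy hpar 0
    have h1 := sd_lazy hpar 1
    have d0 := dl_lazy hpar 0 (ev (sd t))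
    have d1 := dl_lazy hpar 1 (ev (sd t))
    obtain ⟨f, r, e1, e2, e3⟩ := E_spec (a := t.1.1) (c := t.2.1) hs
    have e1' : ev (sd t) = f + 1 := e1
    have hdl : dl t % 2 = 0 := by unfold dl; omega
    have hsum : hh (ev (sd t)) (dl (stp 0 t)) + hh (ev (sd t)) (dl (stp 1 t)) + 2 =
        2 * hh (ev (sd t)) (dl t) := by
      rw [d0, d1, e3, e1']
      have k1 : (dl t + ((0 : ℕ) : ℤ) * (2 ^ (f + 1) * r)) / 2 = dl t / 2 := by simp
      have k2 : (dl t + ((1 : ℕ) : ℤ) * (2 ^ (f + 1) * r)) / 2 = dl t / 2 + 2 ^ f * r := by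
        obtain ⟨x, hx⟩ : ∃ x, x = 2 ^ f * r := ⟨_, rfl⟩
        have : 2 ^ (f + 1) * r = 2 * x := by rw [hx]; ring
        rw [this, ← hx]
        push_cast
        omega
      rw [k1, k2, hh_sum f r (dl t / 2) e2]
      have k3 : hh (f + 1) (dl t) = 1 + hh f (dl t / 2) := by rw [hh, if_pos hdl]
      rw [k3]
      ring
    have hsum' : (hh (ev (sd t)) (dl (stp 0 t)) : ℝ) + hh (ev (sd t)) (dl (stp 1 t)) + 2 =
        2 * hh (ev (sd t)) (dl t) := by exact_mod_cast hsum
    unfold PP F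
    rw [h0, h1, if_neg hs, if_neg hs, if_neg hs]
    apply le_of_eq
    linear_combination (1 / 5 * (9 / 10 : ℝ) ^ sd t) * hsum'
  · -- move
    have hm := sd_move hpar hs G
    obtain ⟨k, hk⟩ := Nat.exists_eq_succ_of_ne_zero hs
    have hF : F t = 17280 * (1 - (19 / 20) ^ sd t) := by
      obtain ⟨f, r, e1, -⟩ := ev_spec hs
      unfold F
      rw [if_neg hs, e1]
      have hdl : ¬ dl t % 2 = 0 := by unfold dl; omega
      have : hh (f + 1) (dl t) = 0 := by rw [hh, if_neg hdl]
      rw [this]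
      simp
    have h1 : PP F t ≤ (G (sd t + 1) + G (sd t - 1)) / 2 := by
      rw [← hm]
      unfold PP
      have := F_le_G (stp 0 t)
      have := F_le_G (stp 1 t)
      linarith
    refine le_trans h1 ?_
    rw [hF, hk]
    have := G_conv k
    simpa using this

lemma F_lower {t : St} (hs : sd t ≠ 0) : 2 / 5 * (9 / 10) ^ sd t ≤ F t := by
  have := PF hs
  have h0 := F_nonneg (stp 0 t)
  have h1 := F_nonneg (stp 1 t)
  unfold PP at this
  linarith

lemma F_upper (t : St) : F t ≤ 17288 := by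
  refine le_trans (F_le_G t) ?_
  unfold G
  generalize sd t = s
  have hB : (1 : ℝ) + s * (1 / 9) ≤ (1 + 1 / 9) ^ s := one_add_mul_le_pow (by norm_num) s
  have hX : (9 / 10 : ℝ) ^ s * (1 + s * (1 / 9)) ≤ 1 := by
    calc (9 / 10 : ℝ) ^ s * (1 + s * (1 / 9)) ≤ (9 / 10 : ℝ) ^ s * (1 + 1 / 9) ^ s :=
          mul_le_mul_of_nonneg_left hB (by positivity)
      _ = 1 := by rw [← mul_pow]; norm_num
  have hY : (0 : ℝ) < (9 / 10) ^ s := by positivity
  have hZ : (0 : ℝ) < (19 / 20) ^ s := by positivity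
  nlinarith

/-- probability that `sd` is nonzero at times `0..n` -/
noncomputable def w : ℕ → St → ℝ
  | 0, t => if sd t = 0 then 0 else 1
  | n + 1, t => if sd t = 0 then 0 else PP (w n) t

noncomputable def stay (R : ℕ) : ℕ → St → ℝ
  | 0, t => if sd t ≠ 0 ∧ sd t < R then 1 else 0
  | n + 1, t => if sd t ≠ 0 ∧ sd t < R then PP (stay R n) t else 0

lemma stay_le (R n : ℕ) : ∀ t, (n + 1) * stay R n t ≤ F t / (2 / 5 * (9 / 10) ^ R) := by
  have hpos : (0 : ℝ) < 2 / 5 * (9 / 10) ^ R := by positivity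
  have hlt : ∀ t, sd t < R → (2 : ℝ) / 5 * (9 / 10) ^ R ≤ 2 / 5 * (9 / 10) ^ sd t := by
    intro t ht
    have : (9 / 10 : ℝ) ^ R ≤ (9 / 10) ^ sd t :=
      pow_le_pow_of_le_one (by norm_num) (by norm_num) ht.le
    linarith
  induction n with
  | zero =>
    intro t
    simp only [stay]
    split_ifs with h
    · rw [le_div_iff₀ hpos]
      have := F_lower h.1
      have := hlt t h.2
      norm_num
      linarith
    · have := F_nonneg t
      have : 0 ≤ F t / (2 / 5 * (9 / 10) ^ R) := by positivity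
      simpa using this
  | succ n ih =>
    intro t
    simp only [stay]
    split_ifs with h
    · have h0 := ih (stp 0 t)
      have h1 := ih (stp 1 t)
      have h2 := PF h.1
      have h3 := hlt t h.2
      -- (n+1) * PP stay ≤ PP F / c
      have h4 : (n + 1) * PP (stay R n) t ≤ PP F t / (2 / 5 * (9 / 10) ^ R) := by
        unfold PP
        have : (F (stp 0 t) + F (stp 1 t)) / 2 / (2 / 5 * (9 / 10) ^ R) =
          (F (stp 0 t) / (2 / 5 * (9 / 10) ^ R) + F (stp 1 t) / (2 / 5 * (9 / 10) ^ R)) / 2 := by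
          ring
        rw [this]
        linarith
      have h5 : PP F t / (2 / 5 * (9 / 10) ^ R) ≤ F t / (2 / 5 * (9 / 10) ^ R) - 1 := by
        rw [div_sub_one hpos.ne', div_le_div_iff_of_pos_right hpos]
        linarith
      have hstay1 : ∀ n t, stay R n t ≤ 1 := by
        intro n
        induction n with
        | zero => intro t; simp only [stay]; split_ifs <;> norm_num
        | succ n ih =>
          intro t
          simp only [stay]
          split_ifs
          · unfold PP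
            have := ih (stp 0 t)
            have := ih (stp 1 t)
            linarith
          · norm_num
      have h6 : PP (stay R n) t ≤ 1 := by
        unfold PP
        have := hstay1 n (stp 0 t)
        have := hstay1 n (stp 1 t)
        linarith
      push_cast
      nlinarith
    · have := F_nonneg t
      have : 0 ≤ F t / (2 / 5 * (9 / 10) ^ R) := by positivity
      simpa using this

lemma PP_sd {t : St} (hs : sd t ≠ 0) : PP (fun t => (sd t : ℝ)) t = sd t := by
  unfold PP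
  by_cases hpar : (t.1.2 + t.2.2) % 2 = 0
  · simp only
    rw [sd_lazy hpar 0, sd_lazy hpar 1]; ring
  · have := sd_move hpar hs (fun n => (n : ℝ))
    simp only at this ⊢
    rw [this]
    obtain ⟨k, hk⟩ := Nat.exists_eq_succ_of_ne_zero hs
    rw [hk]
    simp only [Nat.succ_eq_add_one, Nat.add_sub_cancel]
    push_cast
    ring

lemma w_le_one (n : ℕ) : ∀ t, w n t ≤ 1 := by
  induction n with
  | zero => intro t; simp only [w]; split_ifs <;> norm_num
  | succ n ih =>
    intro t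
    simp only [w]
    split_ifs
    · norm_num
    · unfold PP
      have := ih (stp 0 t)
      have := ih (stp 1 t)
      linarith

lemma stay_nonneg (R n : ℕ) : ∀ t, 0 ≤ stay R n t := by
  induction n with
  | zero => intro t; simp only [stay]; split_ifs <;> norm_num
  | succ n ih =>
    intro t
    simp only [stay]
    split_ifs
    · unfold PP
      have := ih (stp 0 t)
      have := ih (stp 1 t)
      linarith
    · norm_num

lemma w_nonneg (n : ℕ) : ∀ t, 0 ≤ w n t := by
  induction n with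
  | zero => intro t; simp only [w]; split_ifs <;> norm_num
  | succ n ih =>
    intro t
    simp only [w]
    split_ifs
    · norm_num
    · unfold PP
      have := ih (stp 0 t)
      have := ih (stp 1 t)
      linarith

lemma w_le (R : ℕ) (hR : 0 < R) (n : ℕ) : ∀ t, w n t ≤ sd t / R + stay R n t := by
  have hR' : (0 : ℝ) < R := by exact_mod_cast hR
  have hbig : ∀ t, ¬ sd t < R → (1 : ℝ) ≤ sd t / R := by
    intro t ht
    rw [le_div_iff₀ hR', one_mul]
    exact_mod_cast (by omega : R ≤ sd t)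
  have hsn : ∀ t, (0 : ℝ) ≤ sd t / R := fun t => by positivity
  induction n with
  | zero =>
    intro t
    by_cases h : sd t = 0
    · simp only [w, if_pos h]
      have := stay_nonneg R 0 t
      have := hsn t
      linarith
    · by_cases h2 : sd t < R
      · simp only [w, if_neg h, stay, if_pos (And.intro h h2)]
        have := hsn t
        linarith
      · have := hbig t h2
        have := w_le_one 0 t
        have := stay_nonneg R 0 t
        linarith
  | succ n ih =>
    intro t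
    by_cases h : sd t = 0
    · have := stay_nonneg R (n + 1) t
      have := hsn t
      simp only [w, if_pos h]
      linarith
    · by_cases h2 : sd t < R
      · simp only [w, if_neg h, stay, if_pos (And.intro h h2)]
        have h3 := PP_sd h
        unfold PP at h3 ⊢
        have := ih (stp 0 t)
        have := ih (stp 1 t)
        have e : (sd t : ℝ) / R = (sd (stp 0 t) / R + sd (stp 1 t) / R) / 2 := by
          rw [← h3]; ring
        rw [e]
        linarith
      · have := hbig t h2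
        have := w_le_one (n + 1) t
        have := stay_nonneg R (n + 1) t
        linarith

/-- `sd` reaches 0 almost surely. -/
lemma w_small (t : St) {ε : ℝ} (hε : 0 < ε) : ∃ N, ∀ n ≥ N, w n t < ε := by
  obtain ⟨R, hR⟩ := exists_nat_gt ((sd t : ℝ) / (ε / 2))
  have hR0 : (0 : ℝ) < R := lt_of_le_of_lt (by positivity) hR
  have hR1 : 0 < R := by exact_mod_cast hR0
  have h1 : (sd t : ℝ) / R < ε / 2 := by
    rw [div_lt_iff₀ (by positivity)] at hR
    rw [div_lt_iff₀ hR0]
    linarith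
  obtain ⟨N, hN⟩ := exists_nat_gt (F t / (2 / 5 * (9 / 10) ^ R) / (ε / 2))
  refine ⟨N, fun n hn => ?_⟩
  have h2 := w_le R hR1 n t
  have h3 := stay_le R n t
  have h4 : stay R n t < ε / 2 := by
    rw [div_lt_iff₀ (by positivity)] at hN
    have hn' : (N : ℝ) ≤ n := by exact_mod_cast hn
    by_contra hcon
    push Not at hcon
    have : (N : ℝ) * (ε / 2) ≤ (n + 1) * stay R n t := by
      have : (0 : ℝ) ≤ N := by positivity
      nlinarith
    linarith
  linarith

end Pool.Agent.Helper605.CP
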