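import Mathlib
import Pool.Agent.Helper605.Approx

set_option autoImplicit false
set_option linter.all false

namespace Pool.Agent.Helper605

open Matrix Finset Filter Topology

theorem Dg_entries {A : Type*} [CommRing A] (T : Subring A) (n : ℕ) (w : A) (hw : w ∈ T) : ∀ i j, Dg n w i j ∈ T := by
  intro i j
  refine Fin.cases ?_ (fun i => ?_) i <;> refine Fin.cases ?_ (fun j => ?_) j
  · exact hw
  · exact T.zero_mem
  · exact T.zero_mem
  · simp only [Dg, bx_ss, Matrix.one_apply]
    split_ifs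
    · exact T.one_mem
    · exact T.zero_mem

/-- Matrices close to the identity. -/
theorem near_one {ρ : ℝ} {hρ : 0 ≤ ρ} {S : Subring ℝ} : ∀ (n : ℕ) (M : Matrix (Fin (n + 1)) (Fin (n + 1)) (PowerSeries ℝ)),
    (∀ i j, M i j ∈ RR ρ hρ S) → (∀ i j, PowerSeries.coeff 0 (M i j) = if i = j then 1 else 0) →
    (∀ i j, Bd ρ ((1 - M) i j) ((1 / 4) ^ (n + 1))) → EEq (RR ρ hρ S) M (Dg n M.det) ∧ IsU ρ M.det := by
  intro n
  induction n with
  | zero =>
    intro M hM hM0 hb
    have h1 : Dg 0 M.det = M := by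
      rw [Matrix.det_fin_one]
      apply bx_ext
      · rfl
      · intro j; exact j.elim0
      · intro j; exact j.elim0
      · intro j; exact j.elim0
    constructor
    · rw [h1]; exact EEq.refl M
    · rw [Matrix.det_fin_one]
      have h2 := hb 0 0
      rw [Matrix.sub_apply, Matrix.one_apply_eq] at h2
      exact ⟨by simpa using hM0 0 0, (hM 0 0).2, _, Bd.inv hρ (by simpa using hM0 0 0) h2 (by norm_num)⟩
  | succ n ih =>
    intro M hM hM0 hb
    set R := RR ρ hρ S with hR
    set ε : ℝ := (1 / 4) ^ (n + 1 + 1) with hε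
    have hε0 : 0 < ε := by positivity
    have hε4 : ε ≤ 1 / 4 := by
      rw [hε]
      calc (1 / 4 : ℝ) ^ (n + 1 + 1) ≤ (1 / 4) ^ 1 := pow_le_pow_of_le_one (by norm_num) (by norm_num) (by omega)
        _ = 1 / 4 := pow_one _
    set u := M 0 0 with hu
    set r : Fin (n + 1) → PowerSeries ℝ := fun j => M 0 j.succ with hr
    set y : Fin (n + 1) → PowerSeries ℝ := fun i => M i.succ 0 with hy
    set N : Matrix (Fin (n + 1)) (Fin (n + 1)) (PowerSeries ℝ) := Matrix.of fun i j => M i.succ j.succ with hN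
    have hMe : M = bx u r y N := bx_eta M
    have hu0 : PowerSeries.coeff 0 u = 1 := by simpa using hM0 0 0
    have hub : Bd ρ (1 - u) ε := by
      have := hb 0 0
      rwa [Matrix.sub_apply, Matrix.one_apply_eq] at this
    have hui := Bd.inv hρ hu0 hub (by linarith)
    have huU : IsU ρ u := ⟨hu0, (hM 0 0).2, _, hui⟩
    have hw := RR.inv_mem (hM 0 0) hu0 huU.2.2
    have huw := mul_inv1 hu0
    have e1 := clear_left (T := R) u u⁻¹ r y N hw huw (fun i => hM _ _)
    set N2 := N - Matrix.vecMulVec (fun i => u⁻¹ * y i) r with hN2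
    have e2 := clear_right (T := R) u u⁻¹ r N2 hw huw (fun i => hM _ _)
    have hrb : ∀ j, Bd ρ (r j) ε := by
      intro j
      have := hb 0 j.succ
      rw [Matrix.sub_apply, Matrix.one_apply_ne (Fin.succ_ne_zero j).symm, zero_sub] at this
      simpa using this.neg
    have hyb : ∀ j, Bd ρ (y j) ε := by
      intro j
      have := hb j.succ 0
      rw [Matrix.sub_apply, Matrix.one_apply_ne (Fin.succ_ne_zero j), zero_sub] at this
      simpa using this.neg
    have hN2R : ∀ i j, N2 i j ∈ R := by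
      intro i j
      rw [hN2, Matrix.sub_apply, vecMulVec_apply]
      exact R.sub_mem (hM _ _) (R.mul_mem (R.mul_mem hw (hM _ _)) (hM _ _))
    have hr0 : ∀ j, PowerSeries.coeff 0 (r j) = 0 := by
      intro j
      have := hM0 0 j.succ
      rwa [if_neg (Fin.succ_ne_zero j).symm] at this
    have hN20 : ∀ i j, PowerSeries.coeff 0 (N2 i j) = if i = j then 1 else 0 := by
      intro i j
      rw [hN2, Matrix.sub_apply, vecMulVec_apply, map_sub]
      have h1 : PowerSeries.coeff 0 (N i j) = if i = j then 1 else 0 := by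
        have := hM0 i.succ j.succ
        simp only [Fin.succ_inj] at this
        exact this
      have h2 : PowerSeries.coeff 0 (u⁻¹ * y i * r j) = 0 := by
        have := hr0 j
        rw [PowerSeries.coeff_zero_eq_constantCoeff_apply] at this ⊢
        rw [map_mul, this, mul_zero]
      rw [h1, h2, sub_zero]
    have hN2b : ∀ i j, Bd ρ ((1 - N2) i j) ((1 / 4) ^ (n + 1)) := by
      intro i j
      have h1 : (1 - N2) i j = (1 - M) i.succ j.succ + u⁻¹ * y i * r j := by
        rw [hN2, Matrix.sub_apply, Matrix.sub_apply, Matrix.sub_apply, vecMulVec_apply, Matrix.one_apply, Matrix.one_apply]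
        simp only [Fin.succ_inj]
        rw [hN, Matrix.of_apply]
        ring
      rw [h1]
      have h2 := (hb i.succ j.succ).add hρ (((hui.mul hρ (hyb i)).mul hρ (hrb j)))
      apply h2.le
      have h3 : 1 / (1 - ε) ≤ 4 / 3 := by
        rw [div_le_div_iff₀ (by linarith) (by norm_num)]
        linarith
      have h4 : (1 / 4 : ℝ) ^ (n + 1) = 4 * ε := by rw [hε, pow_succ _ (n + 1)]; ring
      rw [h4]
      have h5 : 1 / (1 - ε) * ε * ε ≤ 4 / 3 * ε * (1 / 4) := by
        apply mul_le_mul _ hε4 hε0.le (by positivity)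
        exact mul_le_mul_of_nonneg_right h3 hε0.le
      linarith
    obtain ⟨hI, hU⟩ := ih N2 hN2R hN20 hN2b
    obtain ⟨y', hy', hy'0, h1⟩ := hI.bxcol u 0 (fun _ => R.zero_mem)
    rw [hy'0 rfl] at h1
    have e3 : EEq R M (Dg (n + 1) (u * N2.det)) := by
      rw [hMe]
      exact ((e1.trans e2).trans h1).trans (whitehead2 u N2.det u⁻¹ (hM 0 0) (det_mem R N2 hN2R) hw (Or.inl huw))
    have hdet : M.det = u * N2.det := by rw [← e3.det, Dg_det]
    rw [hdet]
    exact ⟨e3, huU.mul hρ hU⟩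

/-- Matrices close to `diag (F, 1, ..., 1)`. -/
theorem near_Dg {ρ : ℝ} {hρ : 0 ≤ ρ} {S : Subring ℝ} (n : ℕ) (F : PowerSeries ℝ)
    (M : Matrix (Fin (n + 1)) (Fin (n + 1)) (PowerSeries ℝ))
    (hM : ∀ i j, M i j ∈ RR ρ hρ S) (hM0 : ∀ i j, PowerSeries.coeff 0 (M i j) = if i = j then 1 else 0)
    (hb : ∀ i j, Bd ρ ((Dg n F - M) i j) ((1 / 4) ^ (n + 1))) : EEq (RR ρ hρ S) M (Dg n M.det) := by
  rcases n with _ | n
  · have h1 : Dg 0 M.det = M := by
      rw [Matrix.det_fin_one]
      apply bx_ext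
      · rfl
      · intro j; exact j.elim0
      · intro j; exact j.elim0
      · intro j; exact j.elim0
    rw [h1]; exact EEq.refl M
  · set R := RR ρ hρ S with hR
    set u := M 0 0 with hu
    set r : Fin (n + 1) → PowerSeries ℝ := fun j => M 0 j.succ with hr
    set y : Fin (n + 1) → PowerSeries ℝ := fun i => M i.succ 0 with hy
    set N : Matrix (Fin (n + 1)) (Fin (n + 1)) (PowerSeries ℝ) := Matrix.of fun i j => M i.succ j.succ with hN
    have hMe : M = bx u r y N := bx_eta M
    have hrR : ∀ j, r j ∈ R := fun j => hM _ _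
    have hyR : ∀ j, y j ∈ R := fun j => hM _ _
    have hNR : ∀ i j, N i j ∈ R := fun i j => hM _ _
    have hN0 : ∀ i j, PowerSeries.coeff 0 (N i j) = if i = j then 1 else 0 := by
      intro i j
      have := hM0 i.succ j.succ
      simp only [Fin.succ_inj] at this
      exact this
    have hNb : ∀ i j, Bd ρ ((1 - N) i j) ((1 / 4) ^ (n + 1)) := by
      intro i j
      have h1 := hb i.succ j.succ
      have h2 : (Dg (n + 1) F - M) i.succ j.succ = (1 - N) i j := by
        rw [Matrix.sub_apply, Matrix.sub_apply, Dg, bx_ss]; rfl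
      rw [h2] at h1
      apply h1.le
      exact pow_le_pow_of_le_one (by norm_num) (by norm_num) (by omega)
    obtain ⟨⟨P, hP, Q, hQ, hPQ⟩, hdU⟩ := near_one n N hNR hN0 hNb
    set d := N.det with hd
    have hdR : d ∈ R := det_mem R N hNR
    have hw := RR.inv_mem hdR hdU.1 hdU.2.2
    have hdw := mul_inv1 hdU.1
    set r' := r ᵥ* Q with hr'
    set y' := P *ᵥ y with hy'
    have hr'R : ∀ j, r' j ∈ R := by
      intro j
      rw [hr', vecMul, dotProduct]
      exact R.sum_mem fun i _ => R.mul_mem (hrR i) (EL.entries hQ _ _)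
    have hy'R : ∀ j, y' j ∈ R := mulVec_mem (EL.entries hP) hyR
    have e1 : EEq R M (bx u r' y' (Dg n d)) := by
      refine ⟨bx 1 0 0 P, bx_mem hP, bx 1 0 0 Q, bx_mem hQ, ?_⟩
      rw [hMe, bx_mul, bx_mul, ← hPQ]
      apply bx_ext
      · simp
      · intro j
        simp only [bx_0s, Matrix.zero_vecMul, Pi.zero_apply, one_mul, add_zero, mul_zero, zero_add]
        rfl
      · intro i; simp [hy']
      · intro i j; simp
    have hDw := Dg_entries R n d⁻¹ hw
    have e2 : EEq R (bx u r' y' (Dg n d)) (bx (u + r' ⬝ᵥ (-(Dg n d⁻¹ *ᵥ y'))) r' 0 (Dg n d)) := by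
      refine ⟨1, Submonoid.one_mem _, bx 1 0 (-(Dg n d⁻¹ *ᵥ y')) 1,
        bx_col _ (fun i => R.neg_mem (mulVec_mem hDw hy'R i)), ?_⟩
      rw [one_mul, bx_mul]
      have h1 : Dg n d *ᵥ (-(Dg n d⁻¹ *ᵥ y')) = -y' := by
        rw [Matrix.mulVec_neg, Matrix.mulVec_mulVec, Dg_mul, hdw, Dg_one, Matrix.one_mulVec]
      apply bx_ext
      · simp
      · intro j; simp
      · intro i
        rw [bx_s0, h1]
        simp
      · intro i j
        simp [vecMulVec_apply]
    set u' := u + r' ⬝ᵥ (-(Dg n d⁻¹ *ᵥ y')) with hu'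
    have hu'R : u' ∈ R := by
      apply R.add_mem (hM _ _)
      rw [dotProduct]
      exact R.sum_mem fun i _ => R.mul_mem (hr'R i) (R.neg_mem (mulVec_mem hDw hy'R i))
    have e3 : EEq R (bx u' r' 0 (Dg n d)) (bx u' 0 0 (Dg n d)) := by
      refine ⟨bx 1 (-(r' ᵥ* Dg n d⁻¹)) 0 1, bx_row _ (fun i => R.neg_mem ?_), 1, Submonoid.one_mem _, ?_⟩
      · rw [vecMul, dotProduct]
        exact R.sum_mem fun j _ => R.mul_mem (hr'R j) (hDw _ _)
      · rw [mul_one, bx_mul]
        have h1 : (-(r' ᵥ* Dg n d⁻¹)) ᵥ* Dg n d = -r' := by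
          rw [Matrix.neg_vecMul, Matrix.vecMul_vecMul, Dg_mul, mul_comm, hdw, Dg_one, Matrix.vecMul_one]
        apply bx_ext
        · simp
        · intro j
          rw [bx_0s, h1]
          simp
        · intro i; simp
        · intro i j
          simp [vecMulVec_apply]
    have e4 := whitehead2 (T := R) (n := n) u' d d⁻¹ hu'R hdR hw (Or.inr hdw)
    have e5 := ((e1.trans e2).trans e3).trans e4
    have hdet : M.det = u' * d := by rw [← e5.det, Dg_det]
    rw [hdet]
    exact e5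

/-- Structure theorem over `RR ρ S`. -/
theorem structure_thm {ρ l : ℝ} (hρ : 0 < ρ) (hl : 0 < l) (hlρ : 1 < l * ρ) (S : Subring ℝ) (hρ1 : S = ⊥ → ρ < 1)
    (n : ℕ) (a : Matrix (Fin (n + 1)) (Fin (n + 1)) ℝ) (ha : ∀ i j, a i j ∈ S)
    (M : Matrix (Fin (n + 1)) (Fin (n + 1)) (PowerSeries ℝ))
    (hM : ∀ i j, M i j = (if i = j then 1 else 0) - PowerSeries.X * PowerSeries.C (a i j))
    (P : PowerSeries ℝ) (hP : IsU ρ P) (hF : M.det = (1 - PowerSeries.C l * PowerSeries.X) * P) :
    EEq (RR ρ hρ.le S) M (Dg n M.det) := by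
  have hXC : ∀ (E : Subring ℝ) (b : ℝ), b ∈ E → PowerSeries.X * PowerSeries.C b ∈ RR ρ hρ.le E := by
    intro E b hb
    have := RR.C_mul_X_pow (ρ := ρ) (hρ := hρ.le) b hb 1
    rw [pow_one, mul_comm] at this
    exact this
  have hMR : ∀ (E : Subring ℝ), (∀ i j, a i j ∈ E) → ∀ i j, M i j ∈ RR ρ hρ.le E := by
    intro E hE i j
    rw [hM]
    apply Subring.sub_mem _ _ (hXC _ _ (hE i j))
    split_ifs
    · exact Subring.one_mem _
    · exact Subring.zero_mem _
  have hM0 : ∀ i j, PowerSeries.coeff 0 (M i j) = if i = j then 1 else 0 := by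
    intro i j
    rw [hM, map_sub, PowerSeries.coeff_zero_X_mul, sub_zero]
    split_ifs <;> simp
  by_cases hS : S = ⊥
  · subst hS
    exact core bezP_bot (divP_bot hρ (hρ1 rfl)) n M (hMR _ ha) hM0 ⟨a, ha, fun i j _ => hM i j⟩
      (irr_of_factor hρ hl hlρ ⊥ _ P hP hF)
  · obtain ⟨P1, hP1, Q1, hQ1, hPQ⟩ := core (hρ := hρ.le) bezP_top (divP_top hρ) n M (hMR ⊤ (fun _ _ => trivial)) hM0
      ⟨a, fun _ _ => trivial, fun i j _ => hM i j⟩ (irr_of_factor hρ hl hlρ ⊤ _ P hP hF)
    set F := M.det with hFdef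
    set R := RR ρ hρ.le S with hR
    have hMb : ∀ i j, ∃ b, Bd ρ (M i j) b := fun i j => (hMR ⊤ (fun _ _ => trivial) i j).2
    obtain ⟨bF, hbF⟩ : ∃ b, Bd ρ F b := (det_mem (RR ρ hρ.le ⊤) M (hMR ⊤ (fun _ _ => trivial))).2
    have hbF0 := hbF.nonneg
    -- closeness parameter
    set N : ℝ := (n : ℝ) + 1 with hN
    have hN1 : 1 ≤ N := by rw [hN]; have : (0 : ℝ) ≤ n := by positivity
                           linarith
    set ε : ℝ := (1 / 4) ^ (n + 1) / (2 * N * (1 + N * (bF + 1))) with hε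
    have hε0 : 0 < ε := by positivity
    have hεN : ε * N ≤ 1 / 2 := by
      rw [hε, div_mul_eq_mul_div, div_le_iff₀ (by positivity)]
      have h1 : (1 / 4 : ℝ) ^ (n + 1) ≤ 1 := pow_le_one₀ (by norm_num) (by norm_num)
      have h2 : 1 ≤ 1 + N * (bF + 1) := by nlinarith
      nlinarith
    obtain ⟨δ1, hδ1, hm1⟩ := MCl.mul (K := 0) hρ.le (P1 * M) Q1
      (fun i j => by
        have : P1 * M = P1 * M := rfl
        rw [Matrix.mul_apply]
        exact ((RR ρ hρ.le ⊤).sum_mem fun k _ => (RR ρ hρ.le ⊤).mul_mem (EL.entries hP1 _ _) (hMR ⊤ (fun _ _ => trivial) _ _)).2)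
      (fun i j => (EL.entries hQ1 i j).2) ε hε0
    obtain ⟨δ2, hδ2, hm2⟩ := MCl.mul (K := 0) hρ.le P1 M (fun i j => (EL.entries hP1 i j).2) hMb δ1 hδ1
    obtain ⟨P2, hP2, hP2c⟩ := EL.approx (K := 0) hρ.le (RR ρ hρ.le ⊤) (phi S).range (fun f hf => hf.2)
      (fun f hf ε hε => approx_dense hρ.le S hS f hf.2 ε hε) hP1 δ2 hδ2
    obtain ⟨Q2, hQ2, hQ2c⟩ := EL.approx (K := 0) hρ.le (RR ρ hρ.le ⊤) (phi S).range (fun f hf => hf.2)
      (fun f hf ε hε => approx_dense hρ.le S hS f hf.2 ε hε) hQ1 δ1 hδ1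
    have hMM : MCl ρ 0 δ2 M M := fun i j => by
      rw [Cl, sub_self]; exact ⟨Bd.zero.le hδ2.le, dvd_zero _⟩
    have hcl := hm1 _ _ (hm2 _ _ hP2c hMM) hQ2c
    rw [hPQ] at hcl
    set N1 := P2 * M * Q2 with hN1def
    have hP2R := EL.mono (range_phi_le ρ hρ.le S) hP2
    have hQ2R := EL.mono (range_phi_le ρ hρ.le S) hQ2
    have e1 : EEq R M N1 := ⟨P2, hP2R, Q2, hQ2R, rfl⟩
    have hN1R : ∀ i j, N1 i j ∈ R := by
      intro i j
      rw [hN1def, Matrix.mul_apply]
      apply R.sum_mem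
      intro k _
      apply R.mul_mem _ (EL.entries hQ2R _ _)
      rw [Matrix.mul_apply]
      apply R.sum_mem
      intro l _
      exact R.mul_mem (EL.entries hP2R _ _) (hMR S ha _ _)
    -- constant terms
    set cc : PowerSeries ℝ →+* ℝ := PowerSeries.constantCoeff with hcc
    have hccM : M.map cc = 1 := by
      ext i j
      rw [Matrix.map_apply, hcc, ← PowerSeries.coeff_zero_eq_constantCoeff_apply, hM0, Matrix.one_apply]
    set C0 := N1.map cc with hC0
    have hccS : ∀ f ∈ (phi S).range, cc f ∈ S := by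
      rintro f ⟨q, rfl⟩
      rw [phi_apply, hcc, ← PowerSeries.coeff_zero_eq_constantCoeff_apply, Polynomial.coeff_coe, Polynomial.coeff_map]
      exact (q.coeff 0).2
    have hC0e : C0 = P2.map cc * Q2.map cc := by
      rw [hC0, hN1def, Matrix.map_mul, Matrix.map_mul, hccM, mul_one]
    have hC0EL : C0 ∈ EL S (Fin (n + 1)) := by
      rw [hC0e]
      exact Submonoid.mul_mem _ (EL.map cc hccS hP2) (EL.map cc hccS hQ2)
    obtain ⟨C1, hC1, hCC1, hCC2⟩ := EL.inv hC0EL
    set CC : ℝ →+* PowerSeries ℝ := PowerSeries.C with hCC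
    have hC1R : C1.map CC ∈ EL R (Fin (n + 1)) := EL.map CC (fun b hb => RR.C b hb) hC1
    set N2 := N1 * C1.map CC with hN2
    have e2 : EEq R M N2 := e1.trans (EEq.right hC1R N1)
    have hC0b : ∀ i j, |(1 - C0) i j| ≤ ε := by
      intro i j
      have h1 := (hcl i j).1.coeff hρ.le 0
      rw [pow_zero, mul_one, Real.norm_eq_abs, map_sub] at h1
      have h2 : PowerSeries.coeff 0 (Dg n F i j) = (1 : Matrix (Fin (n + 1)) (Fin (n + 1)) ℝ) i j := by
        have hF0 : PowerSeries.coeff 0 F = 1 := coeff0_det M hM0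
        refine Fin.cases ?_ (fun i => ?_) i <;> refine Fin.cases ?_ (fun j => ?_) j
        · simpa [Dg] using hF0
        · simp [Dg, (Fin.succ_ne_zero j).symm]
        · simp [Dg, Fin.succ_ne_zero i]
        · simp only [Dg, bx_ss, Matrix.one_apply, Fin.succ_inj]
          split_ifs <;> simp
      rw [h2] at h1
      rw [Matrix.sub_apply, hC0, Matrix.map_apply, hcc, ← PowerSeries.coeff_zero_eq_constantCoeff_apply]
      exact h1
    have hC1b : ∀ i j, |C1 i j| ≤ 2 := by
      -- maximal entry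
      obtain ⟨⟨i0, j0⟩, _, hmax⟩ := Finset.exists_max_image (Finset.univ : Finset (Fin (n + 1) × Fin (n + 1)))
        (fun p => |C1 p.1 p.2|) ⟨(0, 0), Finset.mem_univ _⟩
      have hmax' : ∀ i j, |C1 i j| ≤ |C1 i0 j0| := fun i j => hmax (i, j) (Finset.mem_univ _)
      have h1 : C1 = 1 + (1 - C0) * C1 := by rw [sub_mul, one_mul, hCC1]; simp
      have h2 : |C1 i0 j0| ≤ 1 + N * (ε * |C1 i0 j0|) := by
        conv_lhs => rw [h1]
        rw [Matrix.add_apply, Matrix.mul_apply]
        refine (abs_add_le _ _).trans (add_le_add ?_ ?_)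
        · rw [Matrix.one_apply]; split_ifs <;> simp
        · refine (Finset.abs_sum_le_sum_abs _ _).trans ?_
          have h3 : ∀ k ∈ (Finset.univ : Finset (Fin (n + 1))), |(1 - C0) i0 k * C1 k j0| ≤ ε * |C1 i0 j0| := by
            intro k _
            rw [abs_mul]
            exact mul_le_mul (hC0b _ _) (hmax' _ _) (abs_nonneg _) hε0.le
          refine (Finset.sum_le_sum h3).trans ?_
          rw [Finset.sum_const, Finset.card_univ, Fintype.card_fin, nsmul_eq_mul, hN]
          push_cast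
          exact le_rfl
      have h4 : |C1 i0 j0| ≤ 2 := by
        have h5 := abs_nonneg (C1 i0 j0)
        nlinarith
      exact fun i j => (hmax' i j).trans h4
    have hN2R : ∀ i j, N2 i j ∈ R := by
      intro i j
      rw [hN2, Matrix.mul_apply]
      exact R.sum_mem fun k _ => R.mul_mem (hN1R _ _) (EL.entries hC1R _ _)
    have hN20 : ∀ i j, PowerSeries.coeff 0 (N2 i j) = if i = j then 1 else 0 := by
      have h1 : N2.map cc = 1 := by
        rw [hN2, Matrix.map_mul, ← hC0]
        have : (C1.map CC).map cc = C1 := by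
          ext i j; simp [hcc, hCC]
        rw [this, hCC1]
      intro i j
      have h2 := congrFun (congrFun h1 i) j
      rw [Matrix.map_apply, hcc, ← PowerSeries.coeff_zero_eq_constantCoeff_apply, Matrix.one_apply] at h2
      exact h2
    have hDb : ∀ i j, Bd ρ (Dg n F i j) (bF + 1) := by
      intro i j
      refine Fin.cases ?_ (fun i => ?_) i <;> refine Fin.cases ?_ (fun j => ?_) j
      · exact hbF.le (by linarith)
      · exact Bd.zero.le (by linarith)
      · exact Bd.zero.le (by linarith)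
      · simp only [Dg, bx_ss, Matrix.one_apply]
        split_ifs
        · exact (Bd.one hρ.le).le (by linarith)
        · exact Bd.zero.le (by linarith)
    have hN2b : ∀ i j, Bd ρ ((Dg n F - N2) i j) ((1 / 4) ^ (n + 1)) := by
      intro i j
      have h1 : Dg n F - N2 = ((Dg n F - N1) - Dg n F * (1 - C0).map CC) * C1.map CC := by
        have h2 : (1 - C0).map CC = 1 - C0.map CC := by
          ext1 a b
          rw [Matrix.map_apply, Matrix.sub_apply, Matrix.sub_apply, Matrix.map_apply, map_sub, Matrix.one_apply,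
            Matrix.one_apply]
          split_ifs <;> simp
        have h3 : C0.map CC * C1.map CC = 1 := by
          rw [← Matrix.map_mul, hCC1]
          exact Matrix.map_one CC (map_zero CC) (map_one CC)
        rw [h2, hN2, mul_sub, mul_one]
        have : Dg n F - N1 - (Dg n F - Dg n F * C0.map CC) = Dg n F * C0.map CC - N1 := by abel
        rw [this, sub_mul, mul_assoc (Dg n F), h3, mul_one]
      rw [h1, Matrix.mul_apply]
      have h4 : ∀ k ∈ (Finset.univ : Finset (Fin (n + 1))),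
          Bd ρ ((Dg n F - N1 - Dg n F * (1 - C0).map CC) i k * C1.map CC k j) ((ε + N * ((bF + 1) * ε)) * 2) := by
        intro k _
        apply Bd.mul hρ.le
        · rw [Matrix.sub_apply]
          apply Bd.sub hρ.le
          · rw [Matrix.sub_apply]; exact (hcl i k).1
          · rw [Matrix.mul_apply]
            have h5 := Bd.sum hρ.le (Finset.univ : Finset (Fin (n + 1))) (fun l => Dg n F i l * (1 - C0).map CC l k)
              (fun _ => (bF + 1) * ε) (fun l _ => (hDb i l).mul hρ.le ((Bd.C hρ.le _).le (hC0b l k)))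
            rw [Finset.sum_const, Finset.card_univ, Fintype.card_fin, nsmul_eq_mul] at h5
            rw [hN]
            push_cast at h5
            exact h5
        · exact (Bd.C hρ.le _).le (hC1b k j)
      have h6 := Bd.sum hρ.le _ _ _ h4
      rw [Finset.sum_const, Finset.card_univ, Fintype.card_fin, nsmul_eq_mul] at h6
      apply h6.le
      push_cast
      rw [← hN]
      have h7 : N * ((ε + N * ((bF + 1) * ε)) * 2) = ε * (2 * N * (1 + N * (bF + 1))) := by ring
      rw [h7, hε, div_mul_cancel₀]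
      positivity
    have e3 := near_Dg n F N2 hN2R hN20 hN2b
    rw [e2.det] at e3
    exact e2.trans e3

/-- Polynomial approximation of the structure theorem. -/
theorem structure_poly {ρ l : ℝ} (hρ : 0 < ρ) (hl : 0 < l) (hlρ : 1 < l * ρ) (S : Subring ℝ) (hρ1 : S = ⊥ → ρ < 1)
    (n : ℕ) (a : Matrix (Fin (n + 1)) (Fin (n + 1)) ℝ) (ha : ∀ i j, a i j ∈ S)
    (M : Matrix (Fin (n + 1)) (Fin (n + 1)) (PowerSeries ℝ))
    (hM : ∀ i j, M i j = (if i = j then 1 else 0) - PowerSeries.X * PowerSeries.C (a i j))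
    (P : PowerSeries ℝ) (hP : IsU ρ P) (hF : M.det = (1 - PowerSeries.C l * PowerSeries.X) * P)
    (K : ℕ) (ε : ℝ) (hε : 0 < ε) :
    ∃ P1 ∈ EL (phi S).range (Fin (n + 1)), ∃ Q1 ∈ EL (phi S).range (Fin (n + 1)),
      MCl ρ K ε (Dg n M.det) (P1 * M * Q1) := by
  obtain ⟨P1, hP1, Q1, hQ1, hPQ⟩ := structure_thm hρ hl hlρ S hρ1 n a ha M hM P hP hF
  have hMb : ∀ i j, ∃ b, Bd ρ (M i j) b := by
    intro i j
    rw [hM]
    have h1 := Bd.C_mul_X_pow hρ.le (a i j) 1
    rw [pow_one, mul_comm] at h1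
    split_ifs
    · exact ⟨_, (Bd.one hρ.le).sub hρ.le h1⟩
    · exact ⟨_, Bd.zero.sub hρ.le h1⟩
  obtain ⟨δ1, hδ1, hm1⟩ := MCl.mul (K := K) hρ.le (P1 * M) Q1
    (fun i j => by
      rw [Matrix.mul_apply]
      choose b hb using hMb
      choose c hc using fun i j => (EL.entries hP1 i j).2
      exact ⟨_, Bd.sum hρ.le _ _ (fun k => c i k * b k j) (fun k _ => (hc i k).mul hρ.le (hb k j))⟩)
    (fun i j => (EL.entries hQ1 i j).2) ε hε
  obtain ⟨δ2, hδ2, hm2⟩ := MCl.mul (K := K) hρ.le P1 M (fun i j => (EL.entries hP1 i j).2) hMb δ1 hδ1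
  obtain ⟨P2, hP2, hP2c⟩ := EL.approx (K := K) hρ.le (RR ρ hρ.le S) (phi S).range (fun f hf => hf.2)
    (fun f hf ε hε => approx_trunc hρ.le S K f hf ε hε) hP1 δ2 hδ2
  obtain ⟨Q2, hQ2, hQ2c⟩ := EL.approx (K := K) hρ.le (RR ρ hρ.le S) (phi S).range (fun f hf => hf.2)
    (fun f hf ε hε => approx_trunc hρ.le S K f hf ε hε) hQ1 δ1 hδ1
  have hMM : MCl ρ K δ2 M M := fun i j => by
    rw [Cl, sub_self]; exact ⟨Bd.zero.le hδ2.le, dvd_zero _⟩
  have hcl := hm1 _ _ (hm2 _ _ hP2c hMM) hQ2c
  rw [hPQ] at hcl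
  exact ⟨P2, hP2, Q2, hQ2, hcl⟩

end Pool.Agent.Helper605
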