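import Mathlib

set_option autoImplicit false
set_option linter.all false

namespace Pool.Agent.Helper605

open Matrix Polynomial

variable {R : Type} [CommRing R]

/-- Elementary strong shift equivalence over `R`. -/
def ESSE (X Y : Σ d : ℕ, Matrix (Fin d) (Fin d) R) : Prop :=
  ∃ (P : Matrix (Fin X.1) (Fin Y.1) R) (Q : Matrix (Fin Y.1) (Fin X.1) R), X.2 = P * Q ∧ Y.2 = Q * P

/-- Strong shift equivalence over `R`. -/
def SSE (X Y : Σ d : ℕ, Matrix (Fin d) (Fin d) R) : Prop := Relation.ReflTransGen ESSE X Y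

theorem ESSE.symm {X Y : Σ d : ℕ, Matrix (Fin d) (Fin d) R} (h : ESSE X Y) : ESSE Y X := by
  obtain ⟨P, Q, h1, h2⟩ := h
  exact ⟨Q, P, h2, h1⟩

theorem SSE.symm {X Y : Σ d : ℕ, Matrix (Fin d) (Fin d) R} (h : SSE X Y) : SSE Y X := by
  unfold SSE at *
  induction h with
  | refl => exact Relation.ReflTransGen.refl
  | tail _ h1 ih => exact Relation.ReflTransGen.head h1.symm ih

theorem SSE.trans {X Y Z : Σ d : ℕ, Matrix (Fin d) (Fin d) R} (h : SSE X Y) (h' : SSE Y Z) : SSE X Z :=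
  Relation.ReflTransGen.trans h h'

section reps
variable {V W U : Type} [AddCommGroup V] [Module R V] [AddCommGroup W] [Module R W] [AddCommGroup U] [Module R U]

/-- The matrix `X` represents `β` in some basis. -/
def Rep (β : V →ₗ[R] V) (X : Σ d : ℕ, Matrix (Fin d) (Fin d) R) : Prop :=
  ∃ b : Module.Basis (Fin X.1) R V, LinearMap.toMatrix b b β = X.2

theorem Rep.esse {u : V →ₗ[R] W} {v : W →ₗ[R] V} {X Y : Σ d : ℕ, Matrix (Fin d) (Fin d) R}
    (hX : Rep (v ∘ₗ u) X) (hY : Rep (u ∘ₗ v) Y) : ESSE X Y := by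
  obtain ⟨b, hb⟩ := hX
  obtain ⟨c, hc⟩ := hY
  refine ⟨LinearMap.toMatrix c b v, LinearMap.toMatrix b c u, ?_, ?_⟩
  · rw [← hb, LinearMap.toMatrix_comp b c b]
  · rw [← hc, LinearMap.toMatrix_comp c b c]

theorem Rep.exists [Nontrivial R] [Module.Free R V] [Module.Finite R V] (β : V →ₗ[R] V) : ∃ X, Rep β X :=
  ⟨⟨Module.finrank R V, LinearMap.toMatrix (Module.finBasis R V) (Module.finBasis R V) β⟩, Module.finBasis R V, rfl⟩

/-- Two endomorphisms have strong shift equivalent matrices. -/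
def VEq (β : V →ₗ[R] V) (γ : W →ₗ[R] W) : Prop := ∃ X Y, Rep β X ∧ Rep γ Y ∧ SSE X Y

theorem Rep.unique {β : V →ₗ[R] V} {X Y : Σ d : ℕ, Matrix (Fin d) (Fin d) R} (hX : Rep β X) (hY : Rep β Y) : SSE X Y := by
  apply Relation.ReflTransGen.single
  exact Rep.esse (u := LinearMap.id) (v := β) (by simpa using hX) (by simpa using hY)

theorem VEq.sse {β : V →ₗ[R] V} {γ : W →ₗ[R] W} (h : VEq β γ) {X Y : Σ d : ℕ, Matrix (Fin d) (Fin d) R}
    (hX : Rep β X) (hY : Rep γ Y) : SSE X Y := by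
  obtain ⟨X', Y', h1, h2, h3⟩ := h
  exact ((hX.unique h1).trans h3).trans (h2.unique hY)

theorem VEq.trans {β : V →ₗ[R] V} {γ : W →ₗ[R] W} {δ : U →ₗ[R] U} (h : VEq β γ) (h' : VEq γ δ) : VEq β δ := by
  obtain ⟨X, Y, h1, h2, h3⟩ := h
  obtain ⟨X', Y', h4, h5, h6⟩ := h'
  exact ⟨X, Y', h1, h5, (h3.trans (h2.unique h4)).trans h6⟩

theorem VEq.symm {β : V →ₗ[R] V} {γ : W →ₗ[R] W} (h : VEq β γ) : VEq γ β := by
  obtain ⟨X, Y, h1, h2, h3⟩ := h
  exact ⟨Y, X, h2, h1, h3.symm⟩

theorem VEq.refl' [Nontrivial R] [Module.Free R V] [Module.Finite R V] (β : V →ₗ[R] V) : VEq β β := by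
  obtain ⟨X, hX⟩ := Rep.exists β
  exact ⟨X, X, hX, hX, Relation.ReflTransGen.refl⟩

theorem VEq.factor [Nontrivial R] [Module.Free R V] [Module.Finite R V] [Module.Free R W] [Module.Finite R W]
    (u : V →ₗ[R] W) (v : W →ₗ[R] V) : VEq (v ∘ₗ u) (u ∘ₗ v) := by
  obtain ⟨X, hX⟩ := Rep.exists (v ∘ₗ u)
  obtain ⟨Y, hY⟩ := Rep.exists (u ∘ₗ v)
  exact ⟨X, Y, hX, hY, Relation.ReflTransGen.single (Rep.esse hX hY)⟩

theorem VEq.iso [Nontrivial R] [Module.Free R V] [Module.Finite R V] (e : V ≃ₗ[R] W) (β : V →ₗ[R] V) (γ : W →ₗ[R] W)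
    (h : ∀ x, e (β x) = γ (e x)) : VEq β γ := by
  have hW1 : Module.Free R W := Module.Free.of_equiv e
  have hW2 : Module.Finite R W := Module.Finite.equiv e
  have h1 : β = (e.symm : W →ₗ[R] V) ∘ₗ (γ ∘ₗ (e : V →ₗ[R] W)) := by
    ext x
    simp only [LinearMap.comp_apply, LinearEquiv.coe_coe]
    rw [← h x, LinearEquiv.symm_apply_apply]
  have h2 : γ = (γ ∘ₗ (e : V →ₗ[R] W)) ∘ₗ (e.symm : W →ₗ[R] V) := by
    ext x
    simp
  have h3 := VEq.factor (R := R) (γ ∘ₗ (e : V →ₗ[R] W)) (e.symm : W →ₗ[R] V)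
  rw [← h1, ← h2] at h3
  exact h3

/-- Transfer of a representation along an isomorphism. -/
theorem Rep.iso (e : V ≃ₗ[R] W) (β : V →ₗ[R] V) (γ : W →ₗ[R] W)
    (h : ∀ x, e (β x) = γ (e x)) {X : Σ d : ℕ, Matrix (Fin d) (Fin d) R} (hX : Rep β X) : Rep γ X := by
  obtain ⟨b, hb⟩ := hX
  refine ⟨b.map e, ?_⟩
  rw [← hb]
  ext i j
  rw [LinearMap.toMatrix_apply, LinearMap.toMatrix_apply, Module.Basis.map_apply, Module.Basis.map_repr, ← h]
  simp

end reps

section Z
variable {V : Type} [AddCommGroup V] [Module R V]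

/-- Feed a linear functional into a shift register of length `k`, one step of input. -/
def sin (β : V →ₗ[R] V) (c : V →ₗ[R] R) (k : ℕ) : (V × (Fin k → R)) →ₗ[R] (V × (Fin (k + 1) → R)) where
  toFun x := (β x.1, Fin.cons (c x.1) x.2)
  map_add' x y := by
    ext1
    · simp
    · funext a
      refine Fin.cases ?_ (fun a => ?_) a <;> simp
  map_smul' r x := by
    ext1
    · simp
    · funext a
      refine Fin.cases ?_ (fun a => ?_) a <;> simp

/-- Forget the last register. -/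
def pr (k : ℕ) : (V × (Fin (k + 1) → R)) →ₗ[R] (V × (Fin k → R)) where
  toFun x := (x.1, fun a => x.2 a.castSucc)
  map_add' x y := by ext1 <;> simp <;> rfl
  map_smul' r x := by ext1 <;> simp <;> rfl

/-- The extended endomorphism. -/
def exr (β : V →ₗ[R] V) (c : V →ₗ[R] R) (k : ℕ) : (V × (Fin k → R)) →ₗ[R] (V × (Fin k → R)) := pr k ∘ₗ sin β c k

theorem sin_pr (β : V →ₗ[R] V) (c : V →ₗ[R] R) (k : ℕ) : sin β c k ∘ₗ pr k = exr β c (k + 1) := by
  apply LinearMap.ext
  intro x
  ext1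
  · rfl
  · funext a
    refine Fin.cases ?_ (fun a => ?_) a
    · rfl
    · simp only [exr, pr, sin, LinearMap.comp_apply, LinearMap.coe_mk, AddHom.coe_mk, Fin.cons_succ, Fin.castSucc_succ]

theorem exr_veq [Nontrivial R] [Module.Free R V] [Module.Finite R V] (β : V →ₗ[R] V) (c : V →ₗ[R] R) (k : ℕ) :
    VEq β (exr β c k) := by
  induction k with
  | zero =>
    let e : V ≃ₗ[R] (V × (Fin 0 → R)) :=
      { toFun := fun x => (x, 0)
        map_add' := fun x y => by ext1 <;> simp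
        map_smul' := fun r x => by ext1 <;> simp
        invFun := fun x => x.1
        left_inv := fun x => rfl
        right_inv := fun x => by ext1 <;> simp; funext a; exact a.elim0 }
    apply VEq.iso e
    intro x
    ext1
    · rfl
    · funext a; exact a.elim0
  | succ k ih =>
    refine ih.trans ?_
    have := VEq.factor (R := R) (sin β c k) (pr k)
    rw [sin_pr] at this
    exact this

theorem lemmaZ [Nontrivial R] [Module.Free R V] [Module.Finite R V] (β β' : V →ₗ[R] V) (c : V →ₗ[R] R) (z : V) (k : ℕ)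
    (hk : (β ^ k) z = 0) (hc : ∀ j, c ((β ^ j) z) = 0) (hβ' : ∀ x, β' x = β x + c x • z) : VEq β β' := by
  refine (exr_veq β c k).trans (VEq.trans ?_ (exr_veq β' c k).symm)
  let Φ : (Fin k → R) →ₗ[R] V :=
    { toFun := fun y => ∑ a : Fin k, y a • (β ^ (a : ℕ)) z
      map_add' := fun x y => by simp [add_smul, Finset.sum_add_distrib]
      map_smul' := fun r x => by simp [Finset.smul_sum, smul_smul] }
  let e : (V × (Fin k → R)) ≃ₗ[R] (V × (Fin k → R)) :=
    { toFun := fun x => (x.1 + Φ x.2, x.2)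
      map_add' := fun x y => by
        ext1
        · simp only [Prod.fst_add, Prod.snd_add, map_add]; abel
        · rfl
      map_smul' := fun r x => by
        ext1
        · simp only [Prod.smul_fst, Prod.smul_snd, map_smul, RingHom.id_apply, smul_add]
        · rfl
      invFun := fun x => (x.1 - Φ x.2, x.2)
      left_inv := fun x => by
        ext1
        · simp
        · rfl
      right_inv := fun x => by
        ext1
        · simp
        · rfl }
  apply VEq.iso e
  rintro ⟨f, y⟩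
  have hcΦ : c (Φ y) = 0 := by
    change c (∑ a : Fin k, y a • (β ^ (a : ℕ)) z) = 0
    rw [map_sum]
    apply Finset.sum_eq_zero
    intro a _
    rw [map_smul, hc, smul_zero]
  rcases k with _ | k
  · have hz : z = 0 := by simpa using hk
    ext1
    · change β f + Φ _ = β' (f + Φ _)
      have h1 : ∀ w : Fin 0 → R, Φ w = 0 := fun w => by
        change ∑ a : Fin 0, w a • (β ^ (a : ℕ)) z = 0
        simp
      rw [h1, h1, add_zero, add_zero, hβ', hz, smul_zero, add_zero]
    · funext a; exact a.elim0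
  · ext1
    · change β f + Φ (fun a : Fin (k + 1) => (Fin.cons (c f) y : Fin (k + 2) → R) a.castSucc) = β' (f + Φ y)
      rw [hβ', map_add, map_add c, hcΦ, add_zero]
      have h1 : Φ (fun a : Fin (k + 1) => (Fin.cons (c f) y : Fin (k + 2) → R) a.castSucc) =
          c f • z + ∑ a : Fin k, y a.castSucc • (β ^ ((a : ℕ) + 1)) z := by
        change ∑ a : Fin (k + 1), (Fin.cons (c f) y : Fin (k + 2) → R) a.castSucc • (β ^ (a : ℕ)) z = _
        rw [Fin.sum_univ_succ]
        congr 1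
      have h2 : β (Φ y) = ∑ a : Fin k, y a.castSucc • (β ^ ((a : ℕ) + 1)) z := by
        change β (∑ a : Fin (k + 1), y a • (β ^ (a : ℕ)) z) = _
        rw [map_sum, Fin.sum_univ_castSucc]
        rw [map_smul]
        have h3 : β ((β ^ ((Fin.last k : Fin (k + 1)) : ℕ)) z) = (β ^ (k + 1)) z := by
          rw [pow_succ', Fin.val_last]; rfl
        rw [h3, hk, smul_zero, add_zero]
        apply Finset.sum_congr rfl
        intro a _
        rw [map_smul, pow_succ']; rfl
      rw [h1, h2]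
      abel
    · funext a
      change (Fin.cons (c f) y : Fin (k + 2) → R) a.castSucc = (Fin.cons (c (f + Φ y)) y : Fin (k + 2) → R) a.castSucc
      rw [map_add c, hcΦ, add_zero]

end Z

end Pool.Agent.Helper605
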