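import Mathlib
import Pool.Agent.Helper605.SSEa
import Pool.Agent.Helper605.EL

set_option autoImplicit false
set_option linter.all false

namespace Pool.Agent.Helper605

open Matrix Polynomial

variable {R : Type} [CommRing R] {N : ℕ}

/-- Vectors of polynomials of bounded degree. -/
def Ud (R : Type) [CommRing R] {N : ℕ} (d : Fin N → ℕ) : Submodule R (Fin N → R[X]) where
  carrier := {f | ∀ i k, d i ≤ k → (f i).coeff k = 0}
  add_mem' := by
    intro f g hf hg i k hk
    rw [Pi.add_apply, coeff_add, hf i k hk, hg i k hk, add_zero]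
  zero_mem' := by intro i k _; simp
  smul_mem' := by
    intro r f hf i k hk
    rw [Pi.smul_apply, coeff_smul, hf i k hk, smul_zero]

theorem mem_Ud {d : Fin N → ℕ} {f : Fin N → R[X]} : f ∈ Ud R d ↔ ∀ i k, d i ≤ k → (f i).coeff k = 0 := Iff.rfl

open Classical in
noncomputable def UdEquiv (R : Type) [CommRing R] {N : ℕ} (d : Fin N → ℕ) : Ud R d ≃ₗ[R] ((i : Fin N) → (Fin (d i) → R)) where
  toFun f := fun i k => (f.1 i).coeff k
  map_add' f g := by funext i k; simp
  map_smul' r f := by funext i k; simp
  invFun g := ⟨fun i => ofFn (d i) (g i), by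
    intro i k hk
    exact ofFn_coeff_eq_zero_of_ge _ hk⟩
  left_inv f := by
    apply Subtype.ext
    funext i
    ext k
    by_cases hk : k < d i
    · simp only
      rw [ofFn_coeff_eq_val_of_lt _ hk]
    · have hk' : d i ≤ k := by omega
      simp only
      rw [ofFn_coeff_eq_zero_of_ge _ hk', f.2 i k hk']
  right_inv g := by
    funext i k
    simp only
    rw [ofFn_coeff_eq_val_of_lt _ k.2]

noncomputable instance (d : Fin N → ℕ) : Module.Free R (Ud R d) := Module.Free.of_equiv (UdEquiv R d).symm
noncomputable instance (d : Fin N → ℕ) : Module.Finite R (Ud R d) := Module.Finite.equiv (UdEquiv R d).symm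

/-- The endomorphism `f ↦ (f - M f(0)) / X`. -/
noncomputable def bt (M : Matrix (Fin N) (Fin N) R[X]) : (Fin N → R[X]) →ₗ[R] (Fin N → R[X]) where
  toFun f := fun i => divX (f i - ∑ j, C ((f j).coeff 0) * M i j)
  map_add' f g := by
    funext i
    ext k
    simp only [Pi.add_apply, coeff_divX, coeff_sub, coeff_add, finset_sum_coeff, coeff_C_mul, add_mul, Finset.sum_add_distrib]
    ring
  map_smul' r f := by
    funext i
    ext k
    simp only [Pi.smul_apply, coeff_divX, coeff_sub, coeff_smul, finset_sum_coeff, coeff_C_mul, smul_eq_mul, RingHom.id_apply,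
      mul_assoc, ← Finset.mul_sum]
    ring

theorem bt_apply (M : Matrix (Fin N) (Fin N) R[X]) (f : Fin N → R[X]) (i : Fin N) :
    bt M f i = divX (f i - ∑ j, C ((f j).coeff 0) * M i j) := rfl

theorem bt_coeff (M : Matrix (Fin N) (Fin N) R[X]) (f : Fin N → R[X]) (i : Fin N) (k : ℕ) :
    (bt M f i).coeff k = (f i).coeff (k + 1) - ∑ j, (f j).coeff 0 * (M i j).coeff (k + 1) := by
  rw [bt_apply, coeff_divX, coeff_sub, finset_sum_coeff]
  simp only [coeff_C_mul]

/-- The matrix has constant term the identity. -/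
def One0 (M : Matrix (Fin N) (Fin N) R[X]) : Prop := ∀ i j, (M i j).coeff 0 = if i = j then 1 else 0

theorem divX_mul_X' (p : R[X]) (h : p.coeff 0 = 0) : X * divX p = p := by
  have := divX_mul_X_add p
  rw [h, C_0, add_zero] at this
  rw [mul_comm]; exact this

theorem X_mul_bt {M : Matrix (Fin N) (Fin N) R[X]} (hM : One0 M) (f : Fin N → R[X]) (i : Fin N) :
    X * bt M f i = f i - ∑ j, C ((f j).coeff 0) * M i j := by
  rw [bt_apply, divX_mul_X']
  rw [coeff_sub, finset_sum_coeff]
  simp only [coeff_C_mul, hM i, mul_ite, mul_one, mul_zero]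
  simp

theorem divX_X_mul (p : R[X]) : divX (X * p) = p := by
  ext k; rw [coeff_divX, coeff_X_mul]

/-- Degree bound making `Ud d` invariant. -/
def DegB (M : Matrix (Fin N) (Fin N) R[X]) (d : Fin N → ℕ) : Prop := ∀ i j k, d i < k → (M i j).coeff k = 0

theorem bt_mem {M : Matrix (Fin N) (Fin N) R[X]} {d d' : Fin N → ℕ} (h : DegB M d) (hd : ∀ i, d' i ≤ d i + 1)
    {f : Fin N → R[X]} (hf : f ∈ Ud R d') : bt M f ∈ Ud R d := by
  intro i k hk
  rw [bt_coeff, hf i (k + 1) (by have := hd i; omega), Finset.sum_eq_zero, sub_zero]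
  intro j _
  rw [h i j (k + 1) (by omega), mul_zero]

noncomputable def btr (M : Matrix (Fin N) (Fin N) R[X]) {d d' : Fin N → ℕ} (h : DegB M d) (hd : ∀ i, d' i ≤ d i + 1) :
    Ud R d' →ₗ[R] Ud R d where
  toFun f := ⟨bt M f.1, bt_mem h hd f.2⟩
  map_add' f g := by apply Subtype.ext; simp
  map_smul' r f := by apply Subtype.ext; simp

theorem btr_val (M : Matrix (Fin N) (Fin N) R[X]) {d d' : Fin N → ℕ} (h : DegB M d) (hd : ∀ i, d' i ≤ d i + 1) (f : Ud R d') :
    (btr M h hd f).1 = bt M f.1 := rfl

noncomputable def btd (M : Matrix (Fin N) (Fin N) R[X]) {d : Fin N → ℕ} (h : DegB M d) : Ud R d →ₗ[R] Ud R d :=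
  btr M h (fun i => Nat.le_succ _)

theorem btd_val (M : Matrix (Fin N) (Fin N) R[X]) {d : Fin N → ℕ} (h : DegB M d) (f : Ud R d) :
    (btd M h f).1 = bt M f.1 := rfl

def incl {d d' : Fin N → ℕ} (h : ∀ i, d i ≤ d' i) : Ud R d →ₗ[R] Ud R d' where
  toFun f := ⟨f.1, fun i k hk => f.2 i k ((h i).trans hk)⟩
  map_add' f g := by apply Subtype.ext; simp
  map_smul' r f := by apply Subtype.ext; simp

theorem DegB.mono {M : Matrix (Fin N) (Fin N) R[X]} {d d' : Fin N → ℕ} (h : DegB M d) (hd : ∀ i, d i ≤ d' i) : DegB M d' :=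
  fun i j k hk => h i j k (lt_of_le_of_lt (hd i) hk)

variable [Nontrivial R]

theorem chain_step (M : Matrix (Fin N) (Fin N) R[X]) {d d' : Fin N → ℕ} (h : DegB M d) (h' : DegB M d')
    (h1 : ∀ i, d i ≤ d' i) (h2 : ∀ i, d' i ≤ d i + 1) : VEq (btd M h) (btd M h') := by
  have h3 := VEq.factor (R := R) (incl (R := R) h1) (btr M h h2)
  have e1 : btr M h h2 ∘ₗ incl h1 = btd M h := by
    apply LinearMap.ext; intro f; apply Subtype.ext; rfl
  have e2 : incl h1 ∘ₗ btr M h h2 = btd M h' := by
    apply LinearMap.ext; intro f; apply Subtype.ext; rfl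
  rw [e1, e2] at h3
  exact h3

theorem chain_le (M : Matrix (Fin N) (Fin N) R[X]) {d d' : Fin N → ℕ} (h : DegB M d) (h' : DegB M d')
    (h1 : ∀ i, d i ≤ d' i) : VEq (btd M h) (btd M h') := by
  have key : ∀ k : ℕ, ∀ d'' : Fin N → ℕ, (∀ i, d'' i = min (d' i) (d i + k)) → ∀ h'' : DegB M d'', VEq (btd M h) (btd M h'') := by
    intro k
    induction k with
    | zero =>
      intro d'' hd'' h''
      have : d'' = d := by
        funext i
        rw [hd'' i]
        have := h1 i
        simp [this]
      subst this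
      exact VEq.refl' _
    | succ k ih =>
      intro d'' hd'' h''
      set d3 : Fin N → ℕ := fun i => min (d' i) (d i + k) with hd3
      have h3 : DegB M d3 := h.mono (fun i => by simp only [hd3]; have := h1 i; omega)
      refine (ih d3 (fun i => rfl) h3).trans ?_
      apply chain_step M h3 h''
      · intro i; rw [hd'' i]; simp only [hd3]; omega
      · intro i; rw [hd'' i]; simp only [hd3]; omega
  apply key (∑ i, d' i) d'
  intro i
  have : d' i ≤ ∑ i, d' i := Finset.single_le_sum (f := fun i => d' i) (fun _ _ => Nat.zero_le _) (Finset.mem_univ i)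
  omega

theorem chain_all (M : Matrix (Fin N) (Fin N) R[X]) {d d' : Fin N → ℕ} (h : DegB M d) (h' : DegB M d') :
    VEq (btd M h) (btd M h') := by
  have h3 : DegB M (fun i => max (d i) (d' i)) := h.mono (fun i => le_max_left _ _)
  exact (chain_le M h h3 (fun i => le_max_left _ _)).trans (chain_le M h' h3 (fun i => le_max_right _ _)).symm

theorem exists_deg (M : Matrix (Fin N) (Fin N) R[X]) : ∃ D : ℕ, ∀ D', D ≤ D' → DegB M (fun _ => D') := by
  refine ⟨∑ i, ∑ j, (M i j).natDegree, fun D' hD' i j k hk => ?_⟩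
  have hk' : D' < k := hk
  apply coeff_eq_zero_of_natDegree_lt
  have h1 : (M i j).natDegree ≤ ∑ j, (M i j).natDegree :=
    Finset.single_le_sum (f := fun j => (M i j).natDegree) (fun _ _ => Nat.zero_le _) (Finset.mem_univ j)
  have h2 : ∑ j, (M i j).natDegree ≤ ∑ i, ∑ j, (M i j).natDegree :=
    Finset.single_le_sum (f := fun i => ∑ j, (M i j).natDegree) (fun _ _ => Nat.zero_le _) (Finset.mem_univ i)
  omega

/-- Linearisations of `M` and `M'` are strong shift equivalent. -/
def LEq (M M' : Matrix (Fin N) (Fin N) R[X]) : Prop :=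
  ∀ (d d' : Fin N → ℕ) (h : DegB M d) (h' : DegB M' d'), VEq (btd M h) (btd M' h')

theorem LEq.intro {M M' : Matrix (Fin N) (Fin N) R[X]} {d d' : Fin N → ℕ} (h : DegB M d) (h' : DegB M' d')
    (hv : VEq (btd M h) (btd M' h')) : LEq M M' :=
  fun _ _ h1 h2 => ((chain_all M h1 h).trans hv).trans (chain_all M' h' h2)

theorem LEq.refl (M : Matrix (Fin N) (Fin N) R[X]) : LEq M M := fun _ _ h h' => chain_all M h h'

theorem LEq.symm {M M' : Matrix (Fin N) (Fin N) R[X]} (h : LEq M M') : LEq M' M := fun _ _ h1 h2 => (h _ _ h2 h1).symm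

theorem LEq.trans {M M' M'' : Matrix (Fin N) (Fin N) R[X]} (h : LEq M M') (h' : LEq M' M'') : LEq M M'' := by
  intro d d' h1 h2
  obtain ⟨D, hD⟩ := exists_deg M'
  exact (h _ _ h1 (hD D le_rfl)).trans (h' _ _ (hD D le_rfl) h2)

/-- General intertwining criterion. -/
theorem LEq.of_iso {M M' : Matrix (Fin N) (Fin N) R[X]} {d : Fin N → ℕ} (h : DegB M d) (h' : DegB M' d)
    (τ σ : (Fin N → R[X]) →ₗ[R] (Fin N → R[X])) (hτ : ∀ f ∈ Ud R d, τ f ∈ Ud R d) (hσ : ∀ f ∈ Ud R d, σ f ∈ Ud R d)
    (h1 : ∀ f, τ (σ f) = f) (h2 : ∀ f, σ (τ f) = f) (hint : ∀ f, τ (bt M f) = bt M' (τ f)) : LEq M M' := by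
  apply LEq.intro h h'
  let e : Ud R d ≃ₗ[R] Ud R d :=
    { toFun := fun f => ⟨τ f.1, hτ _ f.2⟩
      map_add' := fun f g => by apply Subtype.ext; simp
      map_smul' := fun r f => by apply Subtype.ext; simp
      invFun := fun f => ⟨σ f.1, hσ _ f.2⟩
      left_inv := fun f => by apply Subtype.ext; exact h2 _
      right_inv := fun f => by apply Subtype.ext; exact h1 _ }
  apply VEq.iso e
  intro f
  apply Subtype.ext
  exact hint f.1

/-- Multiplication by a polynomial matrix as a linear map. -/
noncomputable def mulL (T : Matrix (Fin N) (Fin N) R[X]) : (Fin N → R[X]) →ₗ[R] (Fin N → R[X]) where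
  toFun f := T *ᵥ f
  map_add' f g := Matrix.mulVec_add _ _ _
  map_smul' r f := by
    rw [RingHom.id_apply, Matrix.mulVec_smul]

theorem mulL_apply (T : Matrix (Fin N) (Fin N) R[X]) (f : Fin N → R[X]) : mulL T f = T *ᵥ f := rfl

/-- `bt` commutes with multiplication. -/
theorem bt_intertwine {M M' T Tc : Matrix (Fin N) (Fin N) R[X]} (hM : One0 M)
    (hMT : T * M = M' * Tc) (hTc : ∀ f : Fin N → R[X], ∀ i, C (((T *ᵥ f) i).coeff 0) = ∑ j, Tc i j * C ((f j).coeff 0)) (f : Fin N → R[X]) :
    T *ᵥ (bt M f) = bt M' (T *ᵥ f) := by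
  funext i
  rw [bt_apply, ← divX_X_mul ((T *ᵥ bt M f) i)]
  congr 1
  have h1 : X * (T *ᵥ bt M f) i = (T *ᵥ (fun j => X * bt M f j)) i := by
    simp only [mulVec, dotProduct, Finset.mul_sum]
    apply Finset.sum_congr rfl
    intro j _
    ring
  rw [h1]
  have h2 : (fun j => X * bt M f j) = f - M *ᵥ (fun j => C ((f j).coeff 0)) := by
    funext j
    rw [X_mul_bt hM, Pi.sub_apply, mulVec, dotProduct]
    congr 1
    apply Finset.sum_congr rfl
    intro k _
    ring
  rw [h2, Matrix.mulVec_sub, Matrix.mulVec_mulVec, hMT, ← Matrix.mulVec_mulVec, Pi.sub_apply]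
  congr 1
  rw [mulVec, dotProduct]
  apply Finset.sum_congr rfl
  intro j _
  rw [mul_comm, hTc f j]
  rfl

/-- Conjugation by a constant matrix. -/
theorem LEq.conj (M : Matrix (Fin N) (Fin N) R[X]) (hM : One0 M) (c c' : Matrix (Fin N) (Fin N) R) (h1 : c * c' = 1)
    (h2 : c' * c = 1) : LEq M (c.map C * M * c'.map C) := by
  obtain ⟨D, hD⟩ := exists_deg M
  obtain ⟨D', hD'⟩ := exists_deg (c.map C * M * c'.map C)
  have h1' : c.map C * c'.map C = (1 : Matrix (Fin N) (Fin N) R[X]) := by
    rw [← Matrix.map_mul, h1]; exact Matrix.map_one C (map_zero C) (map_one C)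
  have h2' : c'.map C * c.map C = (1 : Matrix (Fin N) (Fin N) R[X]) := by
    rw [← Matrix.map_mul, h2]; exact Matrix.map_one C (map_zero C) (map_one C)
  have hmem : ∀ e : Matrix (Fin N) (Fin N) R, ∀ f ∈ Ud R (fun _ : Fin N => max D D'), mulL (e.map C) f ∈ Ud R (fun _ : Fin N => max D D') := by
    intro e f hf i k hk
    rw [mulL_apply, mulVec, dotProduct, finset_sum_coeff]
    apply Finset.sum_eq_zero
    intro j _
    rw [Matrix.map_apply, coeff_C_mul, hf j k hk, mul_zero]
  apply LEq.of_iso (hD _ (le_max_left D D')) (hD' _ (le_max_right D D')) (mulL (c.map C)) (mulL (c'.map C)) (hmem c) (hmem c')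
  · intro f; rw [mulL_apply, mulL_apply, Matrix.mulVec_mulVec, h1', Matrix.one_mulVec]
  · intro f; rw [mulL_apply, mulL_apply, Matrix.mulVec_mulVec, h2', Matrix.one_mulVec]
  · intro f
    rw [mulL_apply, mulL_apply]
    apply bt_intertwine (Tc := c.map C) hM
    · rw [mul_assoc (c.map C * M), h2', mul_one]
    · intro f i
      rw [mulVec, dotProduct, finset_sum_coeff, map_sum]
      apply Finset.sum_congr rfl
      intro j _
      rw [Matrix.map_apply, coeff_C_mul, C_mul]

/-- Left multiplication by a transvection with zero constant term. -/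
theorem LEq.left (M : Matrix (Fin N) (Fin N) R[X]) (hM : One0 M) (p q : Fin N) (hpq : p ≠ q) (g : R[X]) (hg : g.coeff 0 = 0) :
    LEq M (transvection p q g * M) := by
  obtain ⟨D, hD⟩ := exists_deg M
  set d : Fin N → ℕ := fun i => if i = p then D + g.natDegree else D with hd
  have hMd : DegB M d := (hD D le_rfl).mono (fun i => by simp only [hd]; split_ifs <;> omega)
  have hMb := hD D le_rfl
  have hM'd : DegB (transvection p q g * M) d := by
    intro i j k hk
    by_cases hi : i = p
    · subst hi
      rw [transvection_mul_apply_same]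
      simp only [hd, if_true] at hk
      rw [coeff_add, hMb i j k (show D < k by omega), zero_add]
      apply coeff_eq_zero_of_natDegree_lt
      have h1 : (M q j).natDegree ≤ D := by
        rw [natDegree_le_iff_coeff_eq_zero]
        intro k hk
        exact hMb q j k hk
      have h2 := natDegree_mul_le (p := g) (q := M q j)
      omega
    · rw [transvection_mul_apply_of_ne _ _ _ _ hi]
      exact hMd i j k hk
  have hmem : ∀ g' : R[X], g'.natDegree ≤ g.natDegree → ∀ f ∈ Ud R d, mulL (transvection p q g') f ∈ Ud R d := by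
    intro g' hg' f hf i k hk
    rw [mulL_apply, transvection, Matrix.add_mulVec, Matrix.one_mulVec, Pi.add_apply, coeff_add, hf i k hk, zero_add,
      Matrix.mulVec, dotProduct]
    by_cases hi : i = p
    · subst hi
      simp only [hd, if_true] at hk
      rw [Finset.sum_eq_single q]
      · rw [Matrix.single_apply_same]
        by_cases hf0 : f q = 0
        · rw [hf0, mul_zero, coeff_zero]
        · apply coeff_eq_zero_of_natDegree_lt
          have h1 : (f q).natDegree < D := by
            by_contra hcon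
            push Not at hcon
            have h3 := hf q (f q).natDegree (by simp only [hd]; rw [if_neg (Ne.symm hpq)]; exact hcon)
            exact hf0 (leadingCoeff_eq_zero.mp h3)
          have h2 := natDegree_mul_le (p := g') (q := f q)
          omega
      · intro j _ hj
        rw [Matrix.single_apply_of_col_ne]
        · simp
        · exact Ne.symm hj
      · simp
    · rw [Finset.sum_eq_zero, coeff_zero]
      intro j _
      rw [Matrix.single_apply_of_row_ne (Ne.symm hi)]
      simp
  apply LEq.of_iso hMd hM'd (mulL (transvection p q g)) (mulL (transvection p q (-g))) (hmem g le_rfl)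
    (hmem (-g) (by rw [natDegree_neg]))
  · intro f
    rw [mulL_apply, mulL_apply, Matrix.mulVec_mulVec, transvection_mul_transvection_same _ _ hpq]
    simp
  · intro f
    rw [mulL_apply, mulL_apply, Matrix.mulVec_mulVec, transvection_mul_transvection_same _ _ hpq]
    simp
  · intro f
    rw [mulL_apply, mulL_apply]
    apply bt_intertwine (Tc := 1) hM
    · rw [mul_one]
    · intro f i
      rw [transvection, Matrix.add_mulVec, Matrix.one_mulVec, Pi.add_apply, coeff_add]
      have h1 : ((Matrix.single p q g *ᵥ f) i).coeff 0 = 0 := by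
        rw [Matrix.mulVec, dotProduct, finset_sum_coeff]
        apply Finset.sum_eq_zero
        intro j _
        rw [Matrix.single_apply]
        split_ifs
        · rw [mul_coeff_zero, hg, zero_mul]
        · simp
      rw [h1, add_zero]
      simp [Matrix.one_apply]

/-- Right multiplication by a transvection with zero constant term. -/
theorem LEq.right (M : Matrix (Fin N) (Fin N) R[X]) (hM : One0 M) (p q : Fin N) (hpq : p ≠ q) (g : R[X]) (hg : g.coeff 0 = 0) :
    LEq M (M * transvection p q g) := by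
  set M' := M * transvection p q g with hM'
  obtain ⟨D1, hD1⟩ := exists_deg M
  obtain ⟨D2, hD2⟩ := exists_deg M'
  set D := max D1 D2 with hD
  have hMd := hD1 D (le_max_left _ _)
  have hM'd := hD2 D (le_max_right _ _)
  set h := divX g with hh
  have hgh : X * h = g := divX_mul_X' g hg
  have hM'e : ∀ i j, M' i j = M i j + if j = q then g * M i p else 0 := by
    intro i j
    by_cases hj : j = q
    · subst hj
      rw [hM', mul_transvection_apply_same, if_pos rfl]
    · rw [hM', mul_transvection_apply_of_ne _ _ _ _ hj, if_neg hj, add_zero]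
  -- iterates
  have hiter : ∀ (w : R[X]), bt M (fun i => w * M i p) = fun i => divX w * M i p := by
    intro w
    funext i
    rw [bt_apply]
    have h1 : ∑ j, C ((w * M j p).coeff 0) * M i j = C (w.coeff 0) * M i p := by
      rw [Finset.sum_eq_single p]
      · rw [mul_coeff_zero, hM p p, if_pos rfl, mul_one]
      · intro j _ hj
        rw [mul_coeff_zero, hM j p, if_neg hj]
        simp
      · simp
    rw [h1]
    have h2 : w * M i p - C (w.coeff 0) * M i p = X * (divX w * M i p) := by
      have h3 := divX_mul_X_add w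
      have h4 : w * M i p = (divX w * X + C (w.coeff 0)) * M i p := by rw [h3]
      rw [h4]
      ring
    rw [h2, divX_X_mul]
  have hgM : ∀ i k, D < k → (g * M i p).coeff k = 0 := by
    intro i k hk
    have h1 := hM'd i q k hk
    rw [hM'e, if_pos rfl, coeff_add, hMd i q k hk, zero_add] at h1
    exact h1
  have hzmem : (fun i => h * M i p) ∈ Ud R (fun _ : Fin N => D) := by
    intro i k hk
    have hk' : D ≤ k := hk
    have h1 := hgM i (k + 1) (by omega)
    rw [← hgh, mul_assoc, coeff_X_mul] at h1
    exact h1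
  set z : Ud R (fun _ : Fin N => D) := ⟨fun i => -(h * M i p), by
    have := (Ud R (fun _ : Fin N => D)).neg_mem hzmem
    exact this⟩ with hz
  let c : Ud R (fun _ : Fin N => D) →ₗ[R] R :=
    { toFun := fun f => (f.1 q).coeff 0
      map_add' := fun f g => by simp
      map_smul' := fun r f => by simp }
  have hpow : ∀ j : ℕ, (((btd M hMd) ^ j) z).1 = fun i => -((divX^[j] h) * M i p) := by
    intro j
    induction j with
    | zero => rfl
    | succ j ih =>
      have h1 : ((btd M hMd) ^ (j + 1)) z = btd M hMd (((btd M hMd) ^ j) z) := by rw [pow_succ']; rfl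
      rw [h1, btd_val, ih]
      have h2 : (fun i => -((divX^[j] h) * M i p)) = -(fun i => (divX^[j] h) * M i p) := rfl
      rw [h2, map_neg, hiter, Function.iterate_succ_apply']
      rfl
  have hcoef : ∀ (j k : ℕ) (w : R[X]), (divX^[j] w).coeff k = w.coeff (k + j) := by
    intro j
    induction j with
    | zero => intro k w; rfl
    | succ j ih => intro k w; rw [Function.iterate_succ_apply', coeff_divX, ih]; congr 1; omega
  apply LEq.intro hMd hM'd
  apply lemmaZ (btd M hMd) (btd M' hM'd) c z (h.natDegree + 1)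
  · apply Subtype.ext
    rw [hpow]
    have h1 : divX^[h.natDegree + 1] h = 0 := by
      ext k
      rw [hcoef, coeff_zero]
      exact coeff_eq_zero_of_natDegree_lt (by omega)
    rw [h1]
    funext i
    simp
  · intro j
    change ((((btd M hMd) ^ j) z).1 q).coeff 0 = 0
    rw [hpow]
    change (-((divX^[j] h) * M q p)).coeff 0 = 0
    rw [coeff_neg, mul_coeff_zero, hM q p, if_neg (Ne.symm hpq), mul_zero, neg_zero]
  · intro f
    apply Subtype.ext
    funext i
    change bt M' f.1 i = bt M f.1 i + (f.1 q).coeff 0 • (-(h * M i p))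
    rw [bt_apply, bt_apply]
    have h1 : ∑ j, C ((f.1 j).coeff 0) * M' i j = ∑ j, C ((f.1 j).coeff 0) * M i j + X * (C ((f.1 q).coeff 0) * (h * M i p)) := by
      simp only [hM'e, mul_add, Finset.sum_add_distrib, mul_ite, mul_zero, Finset.sum_ite_eq', Finset.mem_univ, if_true]
      rw [← hgh]
      ring
    rw [h1, ← sub_sub]
    have h2 : ∀ a b : R[X], divX (a - X * b) = divX a - b := by
      intro a b
      ext k
      rw [coeff_divX, coeff_sub, coeff_sub, coeff_divX, coeff_X_mul]
    rw [h2, smul_neg, smul_eq_C_mul]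
    ring

end Pool.Agent.Helper605
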