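import Mathlib
import Pool.Agent.Helper605.SSEb

set_option autoImplicit false
set_option linter.all false

namespace Pool.Agent.Helper605

open Matrix Polynomial

variable {R : Type} [CommRing R] {N : ℕ}

theorem one0_iff {M : Matrix (Fin N) (Fin N) R[X]} : One0 M ↔ M.map (constantCoeff : R[X] →+* R) = 1 := by
  constructor
  · intro h
    ext i j
    rw [Matrix.map_apply, constantCoeff_apply, h, Matrix.one_apply]
  · intro h i j
    have := congrFun (congrFun h i) j
    rw [Matrix.map_apply, constantCoeff_apply, Matrix.one_apply] at this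
    exact this

theorem map_C_cc (c : Matrix (Fin N) (Fin N) R) : (c.map C).map (constantCoeff : R[X] →+* R) = c := by
  ext i j; simp

theorem map_C_mul_one {c c' : Matrix (Fin N) (Fin N) R} (h : c * c' = 1) : c.map C * c'.map C = (1 : Matrix (Fin N) (Fin N) R[X]) := by
  rw [← Matrix.map_mul, h]; exact Matrix.map_one C (map_zero C) (map_one C)

theorem transv_split (p q : Fin N) (hpq : p ≠ q) (g : R[X]) :
    transvection p q g = transvection p q (g - C (g.coeff 0)) * (transvection p q (g.coeff 0)).map C := by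
  have h1 : (transvection p q (g.coeff 0)).map C = transvection p q (C (g.coeff 0)) := by
    ext1 a b
    simp only [transvection, Matrix.map_apply, Matrix.add_apply, Matrix.one_apply, Matrix.single_apply, map_add]
    split_ifs <;> simp
  rw [h1, transvection_mul_transvection_same _ _ hpq]
  congr 1
  ring

theorem transv_split' (p q : Fin N) (hpq : p ≠ q) (g : R[X]) :
    transvection p q g = (transvection p q (g.coeff 0)).map C * transvection p q (g - C (g.coeff 0)) := by
  have h1 : (transvection p q (g.coeff 0)).map C = transvection p q (C (g.coeff 0)) := by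
    ext1 a b
    simp only [transvection, Matrix.map_apply, Matrix.add_apply, Matrix.one_apply, Matrix.single_apply, map_add]
    split_ifs <;> simp
  rw [h1, transvection_mul_transvection_same _ _ hpq]
  congr 1
  ring

theorem transv_cc (p q : Fin N) (g : R[X]) :
    (transvection p q g).map (constantCoeff : R[X] →+* R) = transvection p q (g.coeff 0) := by
  ext1 a b
  simp only [transvection, Matrix.map_apply, Matrix.add_apply, Matrix.one_apply, Matrix.single_apply, map_add]
  split_ifs <;> simp

variable [Nontrivial R]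

theorem left_EL {P : Matrix (Fin N) (Fin N) R[X]} (hP : P ∈ EL (⊤ : Subring R[X]) (Fin N)) :
    ∀ M : Matrix (Fin N) (Fin N) R[X], One0 M → ∀ c' : Matrix (Fin N) (Fin N) R,
      P.map (constantCoeff : R[X] →+* R) * c' = 1 → c' * P.map (constantCoeff : R[X] →+* R) = 1 → LEq M (P * M * c'.map C) := by
  induction hP using Submonoid.closure_induction with
  | mem x hx =>
    obtain ⟨p, q, hpq, g, _, rfl⟩ := hx
    intro M hM c' h1 h2
    rw [transv_cc] at h1 h2
    have e1 := LEq.conj M hM (transvection p q (g.coeff 0)) c' h1 h2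
    have hM1 : One0 ((transvection p q (g.coeff 0)).map C * M * c'.map C) := by
      rw [one0_iff, Matrix.map_mul, Matrix.map_mul, map_C_cc, map_C_cc, one0_iff.mp hM, mul_one, h1]
    have e2 := LEq.left _ hM1 p q hpq (g - C (g.coeff 0)) (by simp)
    have h3 : transvection p q (g - C (g.coeff 0)) * ((transvection p q (g.coeff 0)).map C * M * c'.map C) =
        transvection p q g * M * c'.map C := by
      rw [transv_split p q hpq g]
      simp only [mul_assoc]
    rw [h3] at e2
    exact e1.trans e2
  | one =>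
    intro M hM c' h1 h2
    have : c' = 1 := by
      rw [Matrix.map_one _ (map_zero _) (map_one _), one_mul] at h1
      exact h1
    subst this
    rw [Matrix.map_one _ (map_zero _) (map_one _), one_mul, mul_one]
    exact LEq.refl M
  | mul x y hx hy ihx ihy =>
    intro M hM c' h1 h2
    obtain ⟨x', _, hx1, hx2⟩ := EL.inv (show x ∈ EL (⊤ : Subring R[X]) (Fin N) from hx)
    obtain ⟨y', _, hy1, hy2⟩ := EL.inv (show y ∈ EL (⊤ : Subring R[X]) (Fin N) from hy)
    set cc : R[X] →+* R := constantCoeff with hcc
    have a1 : x.map cc * x'.map cc = 1 := by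
      rw [← Matrix.map_mul, hx1]; exact Matrix.map_one _ (map_zero _) (map_one _)
    have a2 : x'.map cc * x.map cc = 1 := by
      rw [← Matrix.map_mul, hx2]; exact Matrix.map_one _ (map_zero _) (map_one _)
    have b1 : y.map cc * y'.map cc = 1 := by
      rw [← Matrix.map_mul, hy1]; exact Matrix.map_one _ (map_zero _) (map_one _)
    have b2 : y'.map cc * y.map cc = 1 := by
      rw [← Matrix.map_mul, hy2]; exact Matrix.map_one _ (map_zero _) (map_one _)
    have hc' : c' = y'.map cc * x'.map cc := by
      rw [Matrix.map_mul] at h1 h2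
      calc c' = (y'.map cc * (x'.map cc * x.map cc) * y.map cc) * c' := by rw [a2, mul_one, b2, one_mul]
        _ = (y'.map cc * x'.map cc) * (x.map cc * y.map cc * c') := by simp only [mul_assoc]
        _ = _ := by rw [h1, mul_one]
    have e1 := ihy M hM (y'.map cc) b1 b2
    have hM1 : One0 (y * M * (y'.map cc).map C) := by
      rw [one0_iff, Matrix.map_mul, Matrix.map_mul, map_C_cc, one0_iff.mp hM, mul_one, b1]
    have e2 := ihx _ hM1 (x'.map cc) a1 a2
    have h3 : x * (y * M * (y'.map cc).map C) * (x'.map cc).map C = x * y * M * c'.map C := by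
      rw [hc', Matrix.map_mul (f := C)]
      simp only [mul_assoc]
    rw [h3] at e2
    exact e1.trans e2

theorem right_EL {P : Matrix (Fin N) (Fin N) R[X]} (hP : P ∈ EL (⊤ : Subring R[X]) (Fin N)) :
    ∀ M : Matrix (Fin N) (Fin N) R[X], One0 M → ∀ c' : Matrix (Fin N) (Fin N) R,
      P.map (constantCoeff : R[X] →+* R) * c' = 1 → c' * P.map (constantCoeff : R[X] →+* R) = 1 → LEq M (M * P * c'.map C) := by
  induction hP using Submonoid.closure_induction with
  | mem x hx =>
    obtain ⟨p, q, hpq, g, _, rfl⟩ := hx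
    intro M hM c' h1 h2
    rw [transv_cc] at h1 h2
    have e2 := LEq.right M hM p q hpq (g - C (g.coeff 0)) (by simp)
    have h3 : M * transvection p q g * c'.map C = M * transvection p q (g - C (g.coeff 0)) := by
      rw [transv_split p q hpq g, mul_assoc, mul_assoc, map_C_mul_one h1, mul_one]
    rw [h3]
    exact e2
  | one =>
    intro M hM c' h1 h2
    have : c' = 1 := by
      rw [Matrix.map_one _ (map_zero _) (map_one _), one_mul] at h1
      exact h1
    subst this
    rw [Matrix.map_one _ (map_zero _) (map_one _), mul_one, mul_one]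
    exact LEq.refl M
  | mul x y hx hy ihx ihy =>
    intro M hM c' h1 h2
    obtain ⟨x', _, hx1, hx2⟩ := EL.inv (show x ∈ EL (⊤ : Subring R[X]) (Fin N) from hx)
    obtain ⟨y', _, hy1, hy2⟩ := EL.inv (show y ∈ EL (⊤ : Subring R[X]) (Fin N) from hy)
    set cc : R[X] →+* R := constantCoeff with hcc
    have a1 : x.map cc * x'.map cc = 1 := by
      rw [← Matrix.map_mul, hx1]; exact Matrix.map_one _ (map_zero _) (map_one _)
    have a2 : x'.map cc * x.map cc = 1 := by
      rw [← Matrix.map_mul, hx2]; exact Matrix.map_one _ (map_zero _) (map_one _)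
    have b1 : y.map cc * y'.map cc = 1 := by
      rw [← Matrix.map_mul, hy1]; exact Matrix.map_one _ (map_zero _) (map_one _)
    have b2 : y'.map cc * y.map cc = 1 := by
      rw [← Matrix.map_mul, hy2]; exact Matrix.map_one _ (map_zero _) (map_one _)
    have hc' : c' = y'.map cc * x'.map cc := by
      rw [Matrix.map_mul] at h1 h2
      calc c' = (y'.map cc * (x'.map cc * x.map cc) * y.map cc) * c' := by rw [a2, mul_one, b2, one_mul]
        _ = (y'.map cc * x'.map cc) * (x.map cc * y.map cc * c') := by simp only [mul_assoc]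
        _ = _ := by rw [h1, mul_one]
    have a1' := map_C_mul_one a1
    have a2' := map_C_mul_one a2
    set M1 := M * x * (x'.map cc).map C with hM1
    have e1 : LEq M M1 := ihx M hM (x'.map cc) a1 a2
    have hM10 : One0 M1 := by
      rw [one0_iff, hM1, Matrix.map_mul, Matrix.map_mul, map_C_cc, one0_iff.mp hM, one_mul, a1]
    set M2 := (x'.map cc).map C * M1 * (x.map cc).map C with hM2
    have e2 : LEq M1 M2 := LEq.conj M1 hM10 (x'.map cc) (x.map cc) a2 a1
    have hM20 : One0 M2 := by
      rw [one0_iff, hM2, Matrix.map_mul, Matrix.map_mul, map_C_cc, map_C_cc, one0_iff.mp hM10, mul_one, a2]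
    set M3 := M2 * y * (y'.map cc).map C with hM3
    have e3 : LEq M2 M3 := ihy M2 hM20 (y'.map cc) b1 b2
    have hM30 : One0 M3 := by
      rw [one0_iff, hM3, Matrix.map_mul, Matrix.map_mul, map_C_cc, one0_iff.mp hM20, one_mul, b1]
    have e4 := LEq.conj M3 hM30 (x.map cc) (x'.map cc) a1 a2
    have h3 : (x.map cc).map C * M3 * (x'.map cc).map C = M * (x * y) * c'.map C := by
      rw [hc', hM3, hM2, hM1, Matrix.map_mul (f := C)]
      calc (x.map cc).map C * ((x'.map cc).map C * (M * x * (x'.map cc).map C) * (x.map cc).map C * y * (y'.map cc).map C) * (x'.map cc).map C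
          = ((x.map cc).map C * (x'.map cc).map C) * (M * x) * ((x'.map cc).map C * (x.map cc).map C) * y * (y'.map cc).map C * (x'.map cc).map C := by
            simp only [mul_assoc]
        _ = _ := by rw [a1', a2', one_mul, mul_one]; simp only [mul_assoc]
    rw [h3] at e4
    exact ((e1.trans e2).trans e3).trans e4

theorem EL_LEq (M P Q : Matrix (Fin N) (Fin N) R[X]) (hP : P ∈ EL (⊤ : Subring R[X]) (Fin N))
    (hQ : Q ∈ EL (⊤ : Subring R[X]) (Fin N)) (hM : One0 M) (h : One0 (P * M * Q)) : LEq M (P * M * Q) := by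
  obtain ⟨P', _, h1, h2⟩ := EL.inv hP
  set cc : R[X] →+* R := constantCoeff with hcc
  have a1 : P.map cc * P'.map cc = 1 := by
    rw [← Matrix.map_mul, h1]; exact Matrix.map_one _ (map_zero _) (map_one _)
  have a2 : P'.map cc * P.map cc = 1 := by
    rw [← Matrix.map_mul, h2]; exact Matrix.map_one _ (map_zero _) (map_one _)
  have e1 := left_EL hP M hM (P'.map cc) a1 a2
  set M1 := P * M * (P'.map cc).map C with hM1
  have hM10 : One0 M1 := by
    rw [one0_iff, hM1, Matrix.map_mul, Matrix.map_mul, map_C_cc, one0_iff.mp hM, mul_one, a1]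
  have hP0 : (P.map cc).map C ∈ EL (⊤ : Subring R[X]) (Fin N) :=
    EL.map (C : R →+* R[X]) (T' := ⊤) (fun _ _ => trivial) (EL.map cc (T' := ⊤) (fun _ _ => trivial) hP)
  have h3 : (P.map cc * Q.map cc) = 1 := by
    have := one0_iff.mp h
    rw [Matrix.map_mul, Matrix.map_mul, one0_iff.mp hM, mul_one] at this
    exact this
  have h4 : ((P.map cc).map C * Q).map cc = 1 := by
    rw [Matrix.map_mul, map_C_cc, h3]
  have e2 := right_EL (Submonoid.mul_mem _ hP0 hQ) M1 hM10 1 (by rw [mul_one]; exact h4) (by rw [one_mul]; exact h4)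
  have h5 : M1 * ((P.map cc).map C * Q) * (1 : Matrix (Fin N) (Fin N) R).map C = P * M * Q := by
    rw [Matrix.map_one _ (map_zero _) (map_one _), mul_one, hM1, ← mul_assoc, mul_assoc (P * M), map_C_mul_one a2, mul_one]
  rw [h5] at e2
  exact e1.trans e2

/-- The matrix `1 - X A`. -/
noncomputable def lin1 (A : Matrix (Fin N) (Fin N) R) : Matrix (Fin N) (Fin N) R[X] := 1 - (X : R[X]) • A.map C

theorem lin1_apply (A : Matrix (Fin N) (Fin N) R) (i j : Fin N) : lin1 A i j = (if i = j then 1 else 0) - X * C (A i j) := by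
  rw [lin1, Matrix.sub_apply, Matrix.smul_apply, Matrix.map_apply, Matrix.one_apply, smul_eq_mul]

theorem lin1_one0 (A : Matrix (Fin N) (Fin N) R) : One0 (lin1 A) := by
  intro i j
  rw [lin1_apply, coeff_sub, coeff_X_mul_zero, sub_zero]
  split_ifs <;> simp

theorem lin1_coeff (A : Matrix (Fin N) (Fin N) R) (i j : Fin N) (k : ℕ) :
    (lin1 A i j).coeff (k + 1) = if k = 0 then - A i j else 0 := by
  rw [lin1_apply, coeff_sub, coeff_X_mul, coeff_C]
  have h1 : ((if i = j then 1 else 0 : R[X])).coeff (k + 1) = 0 := by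
    split_ifs
    · rw [coeff_one, if_neg (by omega)]
    · simp
  rw [h1]
  split_ifs <;> simp

theorem lin1_degB (A : Matrix (Fin N) (Fin N) R) : DegB (lin1 A) (fun _ => 1) := by
  intro i j k hk
  have hk1 : 1 < k := hk
  obtain ⟨k, rfl⟩ : ∃ k', k = k' + 1 := ⟨k - 1, by omega⟩
  rw [lin1_coeff, if_neg (by omega)]

theorem rep_toLin' {n : ℕ} (A : Matrix (Fin n) (Fin n) R) : Rep (Matrix.toLin' A) ⟨n, A⟩ := by
  refine ⟨Pi.basisFun R (Fin n), ?_⟩
  rw [LinearMap.toMatrix_eq_toMatrix', LinearMap.toMatrix'_toLin']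

theorem lin1_rep (A : Matrix (Fin N) (Fin N) R) : Rep (btd (lin1 A) (lin1_degB A)) ⟨N, A⟩ := by
  let e : (Fin N → R) ≃ₗ[R] Ud R (fun _ : Fin N => 1) :=
    { toFun := fun v => ⟨fun i => C (v i), by
        intro i k hk
        have hk' : 1 ≤ k := hk
        rw [coeff_C, if_neg (by omega)]⟩
      map_add' := fun v w => by apply Subtype.ext; funext i; simp
      map_smul' := fun r v => by apply Subtype.ext; funext i; simp [smul_eq_C_mul]
      invFun := fun f => fun i => (f.1 i).coeff 0
      left_inv := fun v => by funext i; simp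
      right_inv := fun f => by
        apply Subtype.ext; funext i; ext k
        rcases k with _ | k
        · simp
        · simp only
          rw [coeff_C, if_neg (by omega), f.2 i (k + 1) (Nat.le_add_left 1 k)] }
  apply Rep.iso e _ _ _ (rep_toLin' A)
  intro v
  apply Subtype.ext
  funext i
  ext k
  change (C ((Matrix.toLin' A v) i)).coeff k = (bt (lin1 A) (fun i => C (v i)) i).coeff k
  rw [bt_coeff, coeff_C, coeff_C, if_neg (by omega : ¬ k + 1 = 0), zero_sub]
  simp only [lin1_coeff, coeff_C_zero]
  split_ifs with h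
  · rw [Matrix.toLin'_apply, mulVec, dotProduct, ← Finset.sum_neg_distrib]
    apply Finset.sum_congr rfl
    intro j _
    ring
  · simp

/-- The main tool: a linearisation of `P (1 - X A) Q` is strong shift equivalent to `A`. -/
theorem sse_of_EL (A : Matrix (Fin N) (Fin N) R) (P Q : Matrix (Fin N) (Fin N) R[X])
    (hP : P ∈ EL (⊤ : Subring R[X]) (Fin N)) (hQ : Q ∈ EL (⊤ : Subring R[X]) (Fin N))
    (h : One0 (P * lin1 A * Q)) {d : Fin N → ℕ} (hd : DegB (P * lin1 A * Q) d)
    {Y : Σ d : ℕ, Matrix (Fin d) (Fin d) R} (hY : Rep (btd (P * lin1 A * Q) hd) Y) : SSE ⟨N, A⟩ Y :=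
  (EL_LEq (lin1 A) P Q hP hQ (lin1_one0 A) h _ _ (lin1_degB A) hd).sse (lin1_rep A) hY

end Pool.Agent.Helper605
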