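import Mathlib
import Pool.Agent.Helper605.SSEc

set_option autoImplicit false
set_option linter.all false

namespace Pool.Agent.Helper605

open Matrix Polynomial Finset

variable {R : Type} [CommRing R] {N : ℕ}

/-- The recursive polynomial matrices attached to the blocks `a k j`. -/
noncomputable def Dr (a : ℕ → ℕ → Matrix (Fin N) (Fin N) R) : ℕ → Matrix (Fin N) (Fin N) R[X]
  | 0 => 1
  | (k + 1) => Dr a k - ∑ j : Fin (k + 1), (X : R[X]) ^ (k + 1 - (j : ℕ)) • (Dr a j * (a k j).map C)
decreasing_by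
  · omega
  · have := j.2; omega

theorem Dr_zero (a : ℕ → ℕ → Matrix (Fin N) (Fin N) R) : Dr a 0 = 1 := by rw [Dr]

theorem Dr_succ (a : ℕ → ℕ → Matrix (Fin N) (Fin N) R) (k : ℕ) :
    Dr a (k + 1) = Dr a k - ∑ j ∈ range (k + 1), (X : R[X]) ^ (k + 1 - j) • (Dr a j * (a k j).map C) := by
  rw [Dr, Finset.sum_range (fun j => (X : R[X]) ^ (k + 1 - j) • (Dr a j * (a k j).map C))]

theorem Dr_one0 (a : ℕ → ℕ → Matrix (Fin N) (Fin N) R) (k : ℕ) : One0 (Dr a k) := by
  induction k with
  | zero =>
    intro i j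
    rw [Dr_zero, Matrix.one_apply]
    split_ifs <;> simp
  | succ k ih =>
    intro i j
    rw [Dr_succ, Matrix.sub_apply, coeff_sub, ih i j, Matrix.sum_apply, finset_sum_coeff, Finset.sum_eq_zero, sub_zero]
    intro l hl
    rw [Finset.mem_range] at hl
    rw [Matrix.smul_apply, smul_eq_mul, mul_coeff_zero, coeff_X_pow, if_neg (by omega), zero_mul]

theorem Dr_coeff (a : ℕ → ℕ → Matrix (Fin N) (Fin N) R) (k : ℕ) : ∀ i j m, k < m → (Dr a k i j).coeff m = 0 := by
  induction k using Nat.strong_induction_on with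
  | _ k ih =>
    intro i j m hm
    rcases k with _ | k
    · rw [Dr_zero, Matrix.one_apply]
      split_ifs
      · rw [coeff_one, if_neg (by omega)]
      · simp
    · rw [Dr_succ, Matrix.sub_apply, coeff_sub, ih k (by omega) i j m (by omega), zero_sub, neg_eq_zero, Matrix.sum_apply,
        finset_sum_coeff]
      apply Finset.sum_eq_zero
      intro l hl
      rw [Finset.mem_range] at hl
      rw [Matrix.smul_apply, smul_eq_mul, coeff_X_pow_mul']
      split_ifs with h
      · rw [Matrix.mul_apply, finset_sum_coeff]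
        apply Finset.sum_eq_zero
        intro p _
        rw [Matrix.map_apply, coeff_mul_C, ih l (by omega) i p _ (by omega), zero_mul]
      · rfl

/-- `E j v = X^(n-1-j) D_j v`. -/
noncomputable def Ev (a : ℕ → ℕ → Matrix (Fin N) (Fin N) R) (n j : ℕ) : (Fin N → R) →ₗ[R] (Fin N → R[X]) where
  toFun v := fun i => X ^ (n - 1 - j) * ∑ l, Dr a j i l * C (v l)
  map_add' v w := by
    funext i
    simp only [Pi.add_apply, map_add, mul_add, Finset.sum_add_distrib]
  map_smul' r v := by
    funext i
    simp only [Pi.smul_apply, smul_eq_mul, C_mul, RingHom.id_apply, smul_eq_C_mul, Finset.mul_sum]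
    apply Finset.sum_congr rfl
    intro l _
    ring

theorem Ev_apply (a : ℕ → ℕ → Matrix (Fin N) (Fin N) R) (n j : ℕ) (v : Fin N → R) (i : Fin N) :
    Ev a n j v i = X ^ (n - 1 - j) * ∑ l, Dr a j i l * C (v l) := rfl

theorem Ev_mem (a : ℕ → ℕ → Matrix (Fin N) (Fin N) R) (n j : ℕ) (hj : j < n) (v : Fin N → R) : Ev a n j v ∈ Ud R (fun _ : Fin N => n) := by
  intro i k hk
  have hk' : n ≤ k := hk
  rw [Ev_apply, coeff_X_pow_mul']
  split_ifs
  · rw [finset_sum_coeff]
    apply Finset.sum_eq_zero
    intro l _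
    rw [coeff_mul_C, Dr_coeff a j i l _ (by omega), zero_mul]
  · rfl

theorem Ev_coeff0 (a : ℕ → ℕ → Matrix (Fin N) (Fin N) R) (n j : ℕ) (v : Fin N → R) (i : Fin N) :
    (Ev a n j v i).coeff (n - 1 - j) = v i := by
  rw [Ev_apply, coeff_X_pow_mul', if_pos le_rfl, Nat.sub_self, finset_sum_coeff]
  simp only [coeff_mul_C, Dr_one0 a j i, ite_mul, one_mul, zero_mul]
  simp

theorem bt_Ev (a : ℕ → ℕ → Matrix (Fin N) (Fin N) R) (n k : ℕ) (hk : k < n) (v : Fin N → R) :
    bt (Dr a n) (Ev a n k v) = (if k + 1 < n then Ev a n (k + 1) v else 0) + ∑ j ∈ range (k + 1), Ev a n j (a k j *ᵥ v) := by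
  funext i
  rw [bt_apply]
  have hstep : Ev a n k v i = X ^ (n - 1 - k) * ∑ l, Dr a (k + 1) i l * C (v l) +
      X * (∑ j ∈ range (k + 1), Ev a n j (a k j *ᵥ v)) i := by
    rw [Ev_apply]
    have h1 : ∀ l, Dr a k i l = Dr a (k + 1) i l + ∑ j ∈ range (k + 1), X ^ (k + 1 - j) * (Dr a j * (a k j).map C) i l := by
      intro l
      rw [Dr_succ, Matrix.sub_apply, Matrix.sum_apply]
      simp only [Matrix.smul_apply, smul_eq_mul]
      ring
    simp_rw [h1]
    simp only [add_mul, Finset.sum_add_distrib, mul_add]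
    congr 1
    rw [Finset.sum_apply, Finset.mul_sum, Finset.mul_sum]
    have h2 : ∀ l, X ^ (n - 1 - k) * ((∑ j ∈ range (k + 1), X ^ (k + 1 - j) * (Dr a j * (a k j).map C) i l) * C (v l)) =
        ∑ j ∈ range (k + 1), X ^ (n - j) * ((Dr a j * (a k j).map C) i l * C (v l)) := by
      intro l
      rw [Finset.sum_mul, Finset.mul_sum]
      apply Finset.sum_congr rfl
      intro j hj
      rw [Finset.mem_range] at hj
      have : (X : R[X]) ^ (n - j) = X ^ (n - 1 - k) * X ^ (k + 1 - j) := by rw [← pow_add]; congr 1; omega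
      rw [this]; ring
    simp_rw [h2]
    rw [Finset.sum_comm]
    apply Finset.sum_congr rfl
    intro j hj
    rw [Finset.mem_range] at hj
    rw [Ev_apply, ← Finset.mul_sum, ← mul_assoc, ← pow_succ']
    rw [show n - 1 - j + 1 = n - j by omega]
    congr 1
    simp only [Matrix.mul_apply, Matrix.map_apply, mulVec, dotProduct, map_sum, C_mul, Finset.mul_sum, Finset.sum_mul]
    rw [Finset.sum_comm]
    apply Finset.sum_congr rfl
    intro p _
    apply Finset.sum_congr rfl
    intro l _
    ring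
  by_cases hkn : k + 1 < n
  · rw [if_pos hkn]
    have h0 : ∑ j, C ((Ev a n k v j).coeff 0) * Dr a n i j = 0 := by
      apply Finset.sum_eq_zero
      intro j _
      rw [Ev_apply, mul_coeff_zero, coeff_X_pow, if_neg (by omega)]
      simp
    rw [h0, sub_zero, hstep]
    have h1 : X ^ (n - 1 - k) * ∑ l, Dr a (k + 1) i l * C (v l) = X * Ev a n (k + 1) v i := by
      rw [Ev_apply, ← mul_assoc, ← pow_succ']
      congr 2
      omega
    rw [h1, ← mul_add, divX_X_mul]
    rfl
  · rw [if_neg hkn, zero_add]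
    have hn : n = k + 1 := by omega
    have h0 : ∑ j, C ((Ev a n k v j).coeff 0) * Dr a n i j = ∑ l, Dr a (k + 1) i l * C (v l) := by
      apply Finset.sum_congr rfl
      intro j _
      have := Ev_coeff0 a n k v j
      rw [show n - 1 - k = 0 by omega] at this
      rw [this, hn]; ring
    rw [h0, hstep]
    have h1 : n - 1 - k = 0 := by omega
    rw [h1, pow_zero, one_mul, add_sub_cancel_left, divX_X_mul]

/-- The block Hessenberg matrix. -/
def bh (a : ℕ → ℕ → Matrix (Fin N) (Fin N) R) (n : ℕ) : Matrix (Fin n × Fin N) (Fin n × Fin N) R :=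
  Matrix.of fun p q => (if (p.1 : ℕ) ≤ (q.1 : ℕ) then a q.1 p.1 p.2 q.2 else 0) +
    (if (p.1 : ℕ) = (q.1 : ℕ) + 1 ∧ p.2 = q.2 then 1 else 0)

/-- The coordinate map. -/
noncomputable def Phi (a : ℕ → ℕ → Matrix (Fin N) (Fin N) R) (n : ℕ) : (Fin n × Fin N → R) →ₗ[R] Ud R (fun _ : Fin N => n) where
  toFun y := ⟨∑ k : Fin n, Ev a n k (fun i => y (k, i)), Submodule.sum_mem _ fun k _ => Ev_mem a n k k.2 _⟩
  map_add' y z := by
    apply Subtype.ext
    simp only [Submodule.coe_add]
    rw [← Finset.sum_add_distrib]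
    apply Finset.sum_congr rfl
    intro k _
    rw [← map_add]; rfl
  map_smul' r y := by
    apply Subtype.ext
    simp only [Submodule.coe_smul, RingHom.id_apply]
    rw [Finset.smul_sum]
    apply Finset.sum_congr rfl
    intro k _
    rw [← map_smul]; rfl

theorem Phi_val (a : ℕ → ℕ → Matrix (Fin N) (Fin N) R) (n : ℕ) (y : Fin n × Fin N → R) :
    (Phi a n y).1 = ∑ k : Fin n, Ev a n k (fun i => y (k, i)) := rfl

theorem Phi_surj (a : ℕ → ℕ → Matrix (Fin N) (Fin N) R) (n : ℕ) : Function.Surjective (Phi a n) := by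
  have key : ∀ s : ℕ, s ≤ n → ∀ f : Fin N → R[X], (∀ i k, k < n - s → (f i).coeff k = 0) → (∀ i k, n ≤ k → (f i).coeff k = 0) →
      ∃ y, (Phi a n y).1 = f := by
    intro s
    induction s with
    | zero =>
      intro _ f h1 h2
      refine ⟨0, ?_⟩
      rw [map_zero]
      funext i
      ext k
      by_cases hk : k < n
      · rw [h1 i k (by omega)]; simp
      · rw [h2 i k (by omega)]; simp
    | succ s ih =>
      intro hs f h1 h2
      set v : Fin N → R := fun i => (f i).coeff (n - 1 - s) with hv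
      obtain ⟨y, hy⟩ := ih (by omega) (f - Ev a n s v) (by
        intro i k hk
        rw [Pi.sub_apply, coeff_sub]
        by_cases hks : k < n - (s + 1)
        · rw [h1 i k hks, Ev_apply, coeff_X_pow_mul', if_neg (by omega), sub_zero]
        · have : k = n - 1 - s := by omega
          subst this
          rw [Ev_coeff0, hv, sub_self]) (by
        intro i k hk
        rw [Pi.sub_apply, coeff_sub, h2 i k hk, (Ev_mem a n s (by omega) v) i k hk, sub_zero])
      refine ⟨y + fun p => if (p.1 : ℕ) = s then v p.2 else 0, ?_⟩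
      rw [map_add, Submodule.coe_add, hy, Phi_val, Finset.sum_eq_single ⟨s, by omega⟩]
      · simp
      · intro k _ hk
        have : (k : ℕ) ≠ s := fun h => hk (Fin.ext h)
        simp only [this, if_false]
        exact map_zero (Ev a n k)
      · simp
  intro f
  obtain ⟨y, hy⟩ := key n le_rfl f.1 (by intro i k hk; omega) (fun i k hk => f.2 i k hk)
  exact ⟨y, Subtype.ext hy⟩

theorem Phi_bij (a : ℕ → ℕ → Matrix (Fin N) (Fin N) R) (n : ℕ) : Function.Bijective (Phi a n) := by
  refine ⟨?_, Phi_surj a n⟩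
  let e : Ud R (fun _ : Fin N => n) ≃ₗ[R] (Fin n × Fin N → R) :=
    { toFun := fun f => fun p => (f.1 p.2).coeff p.1
      map_add' := fun f g => by funext p; simp
      map_smul' := fun r f => by funext p; simp
      invFun := fun y => (UdEquiv R (fun _ : Fin N => n)).symm (fun i k => y (k, i))
      left_inv := fun f => by
        rw [LinearEquiv.symm_apply_eq]
        rfl
      right_inv := fun y => by
        funext p
        have h1 := congrFun (congrFun ((UdEquiv R (fun _ : Fin N => n)).apply_symm_apply (fun i k => y (k, i))) p.2) p.1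
        exact h1 }
  have h1 : Function.Injective (e.toLinearMap ∘ₗ Phi a n) := by
    apply OrzechProperty.injective_of_surjective_endomorphism
    rw [LinearMap.coe_comp]
    exact e.surjective.comp (Phi_surj a n)
  intro x y hxy
  apply h1
  rw [LinearMap.comp_apply, LinearMap.comp_apply, hxy]

theorem Phi_intertwine (a : ℕ → ℕ → Matrix (Fin N) (Fin N) R) (n : ℕ) (h : DegB (Dr a n) (fun _ => n)) (y : Fin n × Fin N → R) :
    Phi a n (bh a n *ᵥ y) = btd (Dr a n) h (Phi a n y) := by
  apply Subtype.ext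
  rw [btd_val, Phi_val, Phi_val, map_sum]
  have h1 : ∀ k : Fin n, bt (Dr a n) (Ev a n k (fun i => y (k, i))) =
      ∑ j : Fin n, Ev a n j ((if (j : ℕ) ≤ (k : ℕ) then a k j *ᵥ (fun i => y (k, i)) else 0) +
        (if (j : ℕ) = (k : ℕ) + 1 then (fun i => y (k, i)) else 0)) := by
    intro k
    rw [bt_Ev a n k k.2]
    simp only [map_add, Finset.sum_add_distrib]
    rw [add_comm]
    congr 1
    · have h2 : ∑ j : Fin n, Ev a n j (if (j : ℕ) ≤ (k : ℕ) then a k j *ᵥ (fun i => y (k, i)) else 0) =
          ∑ j ∈ range n, if j ≤ (k : ℕ) then Ev a n j (a k j *ᵥ (fun i => y (k, i))) else 0 := by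
        rw [Finset.sum_range]
        apply Finset.sum_congr rfl
        intro j _
        split_ifs
        · rfl
        · exact map_zero _
      rw [h2, ← Finset.sum_filter]
      apply Finset.sum_congr _ (fun _ _ => rfl)
      ext j
      have := k.2
      rw [Finset.mem_filter, Finset.mem_range, Finset.mem_range]
      omega
    · by_cases hk : (k : ℕ) + 1 < n
      · rw [if_pos hk, Finset.sum_eq_single ⟨(k : ℕ) + 1, hk⟩]
        · simp
        · intro j _ hj
          have : (j : ℕ) ≠ (k : ℕ) + 1 := fun h => hj (Fin.ext h)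
          rw [if_neg this, map_zero]
        · simp
      · rw [if_neg hk, Finset.sum_eq_zero]
        intro j _
        have := j.2
        rw [if_neg (by omega), map_zero]
  rw [Finset.sum_congr rfl (fun k _ => h1 k), Finset.sum_comm]
  apply Finset.sum_congr rfl
  intro j _
  rw [← map_sum]
  congr 1
  funext i
  rw [Finset.sum_apply, mulVec, dotProduct, Fintype.sum_prod_type]
  apply Finset.sum_congr rfl
  intro k _
  simp only [bh, Matrix.of_apply, add_mul, Finset.sum_add_distrib, Pi.add_apply]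
  congr 1
  · split_ifs
    · rw [mulVec, dotProduct]
    · simp
  · by_cases hjk : (j : ℕ) = (k : ℕ) + 1
    · simp [hjk]
    · simp [hjk]

theorem Dr_degB (a : ℕ → ℕ → Matrix (Fin N) (Fin N) R) (n : ℕ) : DegB (Dr a n) (fun _ => n) := fun i j k hk => Dr_coeff a n i j k hk

theorem bh_rep (a : ℕ → ℕ → Matrix (Fin N) (Fin N) R) (n : ℕ) :
    Rep (btd (Dr a n) (Dr_degB a n)) ⟨n * N, Matrix.reindex finProdFinEquiv finProdFinEquiv (bh a n)⟩ := by
  have h1 : Rep (Matrix.toLin' (bh a n)) ⟨n * N, Matrix.reindex finProdFinEquiv finProdFinEquiv (bh a n)⟩ := by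
    refine ⟨(Pi.basisFun R (Fin n × Fin N)).reindex finProdFinEquiv, ?_⟩
    ext i j
    rw [LinearMap.toMatrix_apply, Module.Basis.reindex_apply, Module.Basis.repr_reindex_apply]
    change _ = bh a n (finProdFinEquiv.symm i) (finProdFinEquiv.symm j)
    simp
  exact Rep.iso (LinearEquiv.ofBijective (Phi a n) (Phi_bij a n)) _ _ (fun y => by
    rw [LinearEquiv.ofBijective_apply, LinearEquiv.ofBijective_apply, Matrix.toLin'_apply, Phi_intertwine]) h1

end Pool.Agent.Helper605
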