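import Mathlib
import Pool.Agent.Helper605.LinB

set_option autoImplicit false
set_option linter.all false

namespace Pool.Agent.Helper605

open Matrix Finset

variable {N : ℕ}

abbrev MN (N : ℕ) := Matrix (Fin N) (Fin N) ℝ

/-- Recursive data for block Hessenberg matrices, in coefficient form. -/
structure HDM (S : Subring ℝ) (n : ℕ) (E : ℕ → MN N) (a : ℕ → ℕ → MN N) (D : ℕ → ℕ → MN N) : Prop where
  memS : ∀ k j i i', a k j i i' ∈ S
  nonneg : ∀ k j i i', 0 ≤ a k j i i'
  zero : ∀ m, D 0 m = if m = 0 then 1 else 0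
  step : ∀ k < n, ∀ m, D (k + 1) m = D k m - ∑ j ∈ range (k + 1), if k + 1 - j ≤ m then D j (m - (k + 1 - j)) * a k j else 0
  last : ∀ m, D n m = if m < n + 1 then E m else 0

theorem HDM.dr {S : Subring ℝ} {n : ℕ} {E : ℕ → MN N} {a : ℕ → ℕ → MN N} {D : ℕ → ℕ → MN N} (h : HDM S n E a D) :
    ∀ k ≤ n, ∀ m i j, (Dr a k i j).coeff m = D k m i j := by
  intro k
  induction k using Nat.strong_induction_on with
  | _ k ih =>
    intro hk m i j
    rcases k with _ | k
    · rw [Dr_zero, h.zero, Matrix.one_apply]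
      by_cases hm : m = 0
      · subst hm
        rw [if_pos rfl, Matrix.one_apply]
        split_ifs <;> simp
      · rw [if_neg hm]
        split_ifs
        · rw [Polynomial.coeff_one, if_neg hm]; rfl
        · simp
    · rw [Dr_succ, Matrix.sub_apply, Polynomial.coeff_sub, ih k (by omega) (by omega), h.step k (by omega), Matrix.sub_apply,
        Matrix.sum_apply, Polynomial.finsetSum_coeff, Matrix.sum_apply]
      congr 1
      apply Finset.sum_congr rfl
      intro l hl
      rw [Finset.mem_range] at hl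
      rw [Matrix.smul_apply, smul_eq_mul, Polynomial.coeff_X_pow_mul']
      split_ifs with hc
      · rw [Matrix.mul_apply, Polynomial.finsetSum_coeff, Matrix.mul_apply]
        apply Finset.sum_congr rfl
        intro p _
        rw [Matrix.map_apply, Polynomial.coeff_mul_C, ih l (by omega) (by omega)]
      · rfl

theorem hdm_base (S : Subring ℝ) (E : ℕ → MN N) (hS : ∀ k i j, E k i j ∈ S) (h0 : E 0 = 1)
    (hneg : ∀ k, 1 ≤ k → ∀ i j, E k i j ≤ 0) (n : ℕ) : ∃ a D, HDM S n E a D := by
  refine ⟨fun k j => if j = 0 then - E (k + 1) else 0, fun k m => if m < k + 1 then E m else 0, ?_, ?_, ?_, ?_, fun _ => rfl⟩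
  · intro k j i i'
    split_ifs
    · exact S.neg_mem (hS _ _ _)
    · exact S.zero_mem
  · intro k j i i'
    split_ifs
    · have := hneg (k + 1) (by omega) i i'
      rw [Matrix.neg_apply]; linarith
    · exact le_rfl
  · intro m
    by_cases hm : m = 0
    · subst hm; simp [h0]
    · rw [if_neg (by omega), if_neg hm]
  · intro k _ m
    rw [Finset.sum_eq_single 0]
    · simp only [Nat.sub_zero, if_true]
      by_cases hm : m = k + 1
      · subst hm
        simp [h0]
      · by_cases hmk : m < k + 1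
        · rw [if_pos (by omega), if_pos hmk, if_neg (by omega), sub_zero]
        · rw [if_neg (by omega), if_neg hmk, if_pos (by omega), if_neg (by omega)]
          simp
    · intro j _ hj
      rw [if_neg hj]
      simp
    · simp

/-- Extension of the data when the series is multiplied on the right by `1 - Q`. -/
theorem hdm_extend (S : Subring ℝ) (n L n0 : ℕ) (E E' Q : ℕ → MN N)
    (hE : ∀ k i j, E k i j ∈ S) (hE' : ∀ k i j, E' k i j ∈ S) (hQS : ∀ k i j, Q k i j ∈ S) (hQ : ∀ k i j, 0 ≤ Q k i j)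
    (hmul : ∀ m, E' m = E m - ∑ i ∈ Icc 1 L, if i ≤ m then E (m - i) * Q i else 0) (hn : n0 + L ≤ n)
    (hneg : ∀ k, n0 ≤ k → ∀ i j, E k i j ≤ 0)
    (hneg' : ∀ k, n0 ≤ k → ∀ i j, E' k i j ≤ 0)
    (h : ∃ a D, HDM S n E a D) :
    ∃ a D, HDM S (n + L) E' a D ∧
      ((∃ p, (∀ k, n0 ≤ k → ∀ i, E k i p < 0) ∧ ∀ j, 0 < Q L p j) → 1 ≤ L →
        ∀ i, n ≤ i → i < n + L → ∀ p q, 0 < a i 0 p q) := by
  obtain ⟨a, D, hD⟩ := h
  set T : ℕ → MN N := fun m => D n m with hT
  have hTe : ∀ m, T m = if m < n + 1 then E m else 0 := hD.last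
  set P : ℕ → MN N := fun m => T m - ∑ i ∈ Icc 1 L, if i ≤ m then T (m - i) * Q i else 0 with hP
  set g : ℕ → MN N := fun m => P m - E' m with hg
  have hTneg : ∀ k, n0 ≤ k → ∀ i j, T k i j ≤ 0 := by
    intro k hk i j
    rw [hTe]
    split_ifs
    · exact hneg k hk i j
    · exact le_rfl
  have hterm : ∀ m, n < m → ∀ i ∈ Icc 1 L, ∀ p q, (if i ≤ m then T (m - i) * Q i else 0) p q ≤ 0 := by
    intro m hm i hi p q
    rw [Finset.mem_Icc] at hi
    rw [if_pos (by omega), Matrix.mul_apply]
    exact Finset.sum_nonpos fun l _ => mul_nonpos_of_nonpos_of_nonneg (hTneg _ (by omega) _ _) (hQ _ _ _)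
  have hPe : ∀ m, n < m → ∀ p q, P m p q = - ∑ i ∈ Icc 1 L, (if i ≤ m then T (m - i) * Q i else 0) p q := by
    intro m hm p q
    simp only [hP]
    rw [Matrix.sub_apply, hTe m, if_neg (by omega), Matrix.sum_apply]
    simp
  have hgnn : ∀ m, n < m → ∀ p q, 0 ≤ g m p q := by
    intro m hm p q
    simp only [hg]
    rw [Matrix.sub_apply, hPe m hm]
    have h1 : ∑ i ∈ Icc 1 L, (if i ≤ m then T (m - i) * Q i else 0) p q ≤ 0 := Finset.sum_nonpos fun i hi => hterm m hm i hi p q
    have h2 := hneg' m (by omega) p q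
    linarith
  have hgpos : (∃ p, (∀ k, n0 ≤ k → ∀ i, E k i p < 0) ∧ ∀ j, 0 < Q L p j) → 1 ≤ L →
      ∀ m, n < m → m ≤ n + L → ∀ p q, 0 < g m p q := by
    rintro ⟨p0, hp1, hp2⟩ hL m hm hm2 p q
    simp only [hg]
    rw [Matrix.sub_apply, hPe m hm]
    have h1 : ∑ i ∈ Icc 1 L, (if i ≤ m then T (m - i) * Q i else 0) p q < 0 := by
      apply Finset.sum_neg' (fun i hi => hterm m hm i hi p q)
      refine ⟨L, by rw [Finset.mem_Icc]; omega, ?_⟩
      rw [if_pos (by omega), Matrix.mul_apply]
      apply Finset.sum_neg'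
      · intro l _
        exact mul_nonpos_of_nonpos_of_nonneg (hTneg _ (by omega) _ _) (hQ _ _ _)
      · refine ⟨p0, Finset.mem_univ _, ?_⟩
        apply mul_neg_of_neg_of_pos _ (hp2 q)
        rw [hTe, if_pos (by omega)]
        exact hp1 _ (by omega) p
    have h2 := hneg' m (by omega) p q
    linarith
  have hTS : ∀ m i j, T m i j ∈ S := by
    intro m i j
    rw [hTe]
    split_ifs
    · exact hE _ _ _
    · exact S.zero_mem
  have hgS : ∀ m i j, g m i j ∈ S := by
    intro m i j
    simp only [hg, hP]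
    rw [Matrix.sub_apply, Matrix.sub_apply, Matrix.sum_apply]
    apply S.sub_mem _ (hE' _ _ _)
    apply S.sub_mem (hTS _ _ _)
    apply S.sum_mem
    intro l _
    split_ifs
    · rw [Matrix.mul_apply]
      exact S.sum_mem fun x _ => S.mul_mem (hTS _ _ _) (hQS _ _ _)
    · exact S.zero_mem
  set a' : ℕ → ℕ → MN N := fun k j => if k < n then a k j else
    if k < n + L then (if j = n then Q (k + 1 - n) else 0) + (if j = 0 then g (k + 1) else 0) else 0 with ha'
  set D' : ℕ → ℕ → MN N := fun k m => if k ≤ n then D k m else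
    D n m - ∑ i ∈ Icc 1 (k - n), (if i ≤ m then D n (m - i) * Q i else 0)
      - ∑ i ∈ Icc 1 (k - n), (if m = n + i then g (n + i) else 0) with hD'
  refine ⟨a', D', ⟨?_, ?_, ?_, ?_, ?_⟩, ?_⟩
  · intro k j i i'
    simp only [ha']
    split_ifs <;> first | exact hD.memS _ _ _ _ | exact S.zero_mem | skip
    · exact S.add_mem (hQS _ _ _) (hgS _ _ _)
    · exact S.add_mem (hQS _ _ _) S.zero_mem
    · exact S.add_mem S.zero_mem (hgS _ _ _)
    · exact S.add_mem S.zero_mem S.zero_mem
  · intro k j i i'
    simp only [ha']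
    split_ifs with c1 c2 c3 c4 c5
    · exact hD.nonneg _ _ _ _
    · exact add_nonneg (hQ _ _ _) (hgnn _ (by omega) _ _)
    · exact add_nonneg (hQ _ _ _) le_rfl
    · exact add_nonneg le_rfl (hgnn _ (by omega) _ _)
    · exact add_nonneg le_rfl le_rfl
    · exact le_rfl
  · intro m
    simp only [hD']
    rw [if_pos (Nat.zero_le _), hD.zero]
  · intro k hk m
    by_cases hkn : k < n
    · simp only [hD']
      rw [if_pos (by omega), if_pos (by omega), hD.step k hkn]
      congr 1
      apply Finset.sum_congr rfl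
      intro j hj
      rw [Finset.mem_range] at hj
      have hjn : j ≤ n := by omega
      simp only [ha', if_pos hkn, if_pos hjn]
    · have hkn' : n ≤ k := by omega
      have hDk : D' k m = D n m - ∑ i ∈ Icc 1 (k - n), (if i ≤ m then D n (m - i) * Q i else 0)
          - ∑ i ∈ Icc 1 (k - n), (if m = n + i then g (n + i) else 0) := by
        simp only [hD']
        by_cases hkk : k ≤ n
        · have : k = n := by omega
          subst this
          simp
        · rw [if_neg hkk]
      have hDk1 : D' (k + 1) m = D n m - ∑ i ∈ Icc 1 (k - n + 1), (if i ≤ m then D n (m - i) * Q i else 0)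
          - ∑ i ∈ Icc 1 (k - n + 1), (if m = n + i then g (n + i) else 0) := by
        simp only [hD']
        rw [if_neg (by omega), show k + 1 - n = k - n + 1 by omega]
      rw [hDk1, hDk, Finset.sum_Icc_succ_top (by omega), Finset.sum_Icc_succ_top (by omega)]
      have hsum : (∑ j ∈ range (k + 1), if k + 1 - j ≤ m then D' j (m - (k + 1 - j)) * a' k j else 0) =
          (if k - n + 1 ≤ m then D n (m - (k - n + 1)) * Q (k - n + 1) else 0) +
            (if m = n + (k - n + 1) then g (n + (k - n + 1)) else 0) := by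
        have h1 : ∀ j ∈ range (k + 1), (if k + 1 - j ≤ m then D' j (m - (k + 1 - j)) * a' k j else 0) =
            (if j = n then (if k + 1 - j ≤ m then D' j (m - (k + 1 - j)) * Q (k + 1 - n) else 0) else 0) +
            (if j = 0 then (if k + 1 - j ≤ m then D' j (m - (k + 1 - j)) * g (k + 1) else 0) else 0) := by
          intro j _
          simp only [ha']
          rw [if_neg hkn, if_pos hk]
          split_ifs <;> simp [mul_add]
        rw [Finset.sum_congr rfl h1, Finset.sum_add_distrib, Finset.sum_ite_eq', Finset.sum_ite_eq']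
        have hm1 : n ∈ range (k + 1) := by rw [Finset.mem_range]; omega
        have hm2 : 0 ∈ range (k + 1) := by rw [Finset.mem_range]; omega
        rw [if_pos hm1, if_pos hm2]
        have h2 : ∀ m, D' n m = D n m := fun m => by simp only [hD']; rw [if_pos le_rfl]
        have h3 : ∀ m, D' 0 m = if m = 0 then 1 else 0 := fun m => by simp only [hD']; rw [if_pos (Nat.zero_le _), hD.zero]
        rw [h2, h3, show k + 1 - n = k - n + 1 by omega, Nat.sub_zero, show n + (k - n + 1) = k + 1 by omega]
        congr 1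
        by_cases hm : m = k + 1
        · subst hm; simp
        · by_cases hm2 : k + 1 ≤ m
          · rw [if_pos hm2, if_neg (by omega), if_neg hm]; simp
          · rw [if_neg hm2, if_neg hm]
      rw [hsum]
      abel
  · intro m
    have hDL : D' (n + L) m = P m - ∑ i ∈ Icc 1 L, (if m = n + i then g (n + i) else 0) := by
      simp only [hD', hP, hT]
      by_cases hL : L = 0
      · subst hL; simp
      · rw [if_neg (by omega), show n + L - n = L by omega]
    rw [hDL]
    have h1 : ∑ i ∈ Icc 1 L, (if m = n + i then g (n + i) else 0) = if n < m ∧ m ≤ n + L then g m else 0 := by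
      by_cases hm : n < m ∧ m ≤ n + L
      · rw [if_pos hm, Finset.sum_eq_single (m - n)]
        · rw [if_pos (by omega), show n + (m - n) = m by omega]
        · intro i _ hi
          rw [if_neg (by omega)]
        · intro hi
          exfalso
          apply hi
          rw [Finset.mem_Icc]; omega
      · rw [if_neg hm, Finset.sum_eq_zero]
        intro i hi
        rw [Finset.mem_Icc] at hi
        rw [if_neg (by omega)]
    rw [h1]
    by_cases hm1 : m ≤ n
    · rw [if_neg (by omega), if_pos (by omega), sub_zero, hmul m]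
      simp only [hP]
      rw [hTe m, if_pos (by omega)]
      congr 1
      apply Finset.sum_congr rfl
      intro i _
      split_ifs
      · rw [hTe, if_pos (by omega)]
      · rfl
    · by_cases hm2 : m ≤ n + L
      · rw [if_pos ⟨by omega, hm2⟩, if_pos (by omega)]
        simp only [hg]
        abel
      · rw [if_neg (by omega), if_neg (by omega), sub_zero]
        simp only [hP]
        rw [hTe m, if_neg (by omega), Finset.sum_eq_zero, sub_zero]
        intro i hi
        rw [Finset.mem_Icc] at hi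
        rw [if_pos (by omega), hTe, if_neg (by omega), zero_mul]
  · intro hs hL i hi hi2 p q
    simp only [ha']
    rw [if_neg (by omega), if_pos hi2, if_true, Matrix.add_apply]
    have h1 := hgpos hs hL (i + 1) (by omega) (by omega) p q
    have h2 : 0 ≤ (if 0 = n then Q (i + 1 - n) else 0 : MN N) p q := by
      split_ifs
      · exact hQ _ _ _
      · exact le_rfl
    linarith

section prim
variable {ι : Type*} [Fintype ι] [DecidableEq ι]

theorem pow_nn (A : Matrix ι ι ℝ) (hA : ∀ i j, 0 ≤ A i j) (k : ℕ) : ∀ i j, 0 ≤ (A ^ k) i j := by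
  induction k with
  | zero =>
    intro i j
    simp only [pow_zero, Matrix.one_apply]
    split_ifs <;> norm_num
  | succ k ih =>
    intro i j
    rw [pow_succ, Matrix.mul_apply]
    exact Finset.sum_nonneg fun l _ => mul_nonneg (ih i l) (hA l j)

theorem pow_add_p (A : Matrix ι ι ℝ) (hA : ∀ i j, 0 ≤ A i j) {k l : ℕ}
    {i j r : ι} (h1 : 0 < (A ^ k) i r) (h2 : 0 < (A ^ l) r j) : 0 < (A ^ (k + l)) i j := by
  rw [pow_add, Matrix.mul_apply]
  apply Finset.sum_pos'
  · intro s _
    exact mul_nonneg (pow_nn A hA k i s) (pow_nn A hA l s j)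
  · exact ⟨r, Finset.mem_univ _, mul_pos h1 h2⟩

end prim

theorem bh_nonneg (a : ℕ → ℕ → MN N) (n : ℕ) (ha : ∀ k j i i', 0 ≤ a k j i i') (p q : Fin n × Fin N) : 0 ≤ bh a n p q := by
  simp only [bh, Matrix.of_apply]
  apply add_nonneg
  · split_ifs
    · exact ha _ _ _ _
    · exact le_rfl
  · split_ifs <;> norm_num

/-- The block Hessenberg matrix is primitive when the last two block rows are positive. -/
theorem bh_primitive (a : ℕ → ℕ → MN N) (m : ℕ) (ha : ∀ k j i i', 0 ≤ a k j i i')
    (h1 : ∀ i i', 0 < a (m + 1) 0 i i') (h2 : ∀ i i', 0 < a m 0 i i') :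
    ∃ K : ℕ, 0 < K ∧ ∀ p q, 0 < ((bh a (m + 2)) ^ K) p q := by
  set B := bh a (m + 2) with hB
  have hnn : ∀ p q, 0 ≤ B p q := bh_nonneg a (m + 2) ha
  have hfwd : ∀ d : ℕ, ∀ (j k : Fin (m + 2)) (i : Fin N), (j : ℕ) = k + d → 0 < (B ^ d) (j, i) (k, i) := by
    intro d
    induction d with
    | zero =>
      intro j k i hjk
      have : j = k := Fin.ext (by omega)
      subst this
      simp
    | succ d ih =>
      intro j k i hjk
      have hlt : (k : ℕ) + d < m + 2 := by have := j.2; omega
      have h3 := ih ⟨k + d, hlt⟩ k i rfl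
      rw [add_comm d 1]
      refine pow_add_p B hnn ?_ h3
      rw [pow_one, hB]
      simp only [bh, Matrix.of_apply]
      rw [if_neg (by omega), if_pos ⟨by omega, trivial⟩]
      norm_num
  have hc1 : ∀ i i' : Fin N, 0 < (B ^ (m + 2)) (0, i') (0, i) := by
    intro i i'
    have h3 := hfwd (m + 1) (Fin.last (m + 1)) 0 i (by simp)
    have h4 : 0 < (B ^ (1 + (m + 1))) (0, i') (0, i) := by
      refine pow_add_p B hnn ?_ h3
      rw [pow_one, hB]
      simp only [bh, Matrix.of_apply]
      simpa using h1 i' i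
    rwa [show 1 + (m + 1) = m + 2 by ring] at h4
  have hc2 : ∀ i i' : Fin N, 0 < (B ^ (m + 1)) (0, i') (0, i) := by
    intro i i'
    have h3 := hfwd m ⟨m, by omega⟩ 0 i (by simp)
    have h4 : 0 < (B ^ (1 + m)) (0, i') (0, i) := by
      refine pow_add_p B hnn ?_ h3
      rw [pow_one, hB]
      have e1 : bh a (m + 2) (0, i') (⟨m, by omega⟩, i) = a m 0 i' i + if 0 = m + 1 ∧ i' = i then 1 else 0 := by
        simp [bh]
      rw [e1]
      have h5 : (0 : ℝ) ≤ (if 0 = m + 1 ∧ i' = i then 1 else 0) := by split_ifs <;> norm_num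
      have h6 := h2 i' i
      linarith
    rwa [show 1 + m = m + 1 by ring] at h4
  have hm1 : ∀ e : ℕ, ∀ i i' : Fin N, 0 < (B ^ ((m + 2) * (e + 1))) (0, i') (0, i) := by
    intro e
    induction e with
    | zero => intro i i'; simpa using hc1 i i'
    | succ e ih => intro i i'; rw [Nat.mul_succ]; exact pow_add_p B hnn (ih i i') (hc1 i i)
  have hm2 : ∀ e : ℕ, ∀ i i' : Fin N, 0 < (B ^ ((m + 1) * (e + 1))) (0, i') (0, i) := by
    intro e
    induction e with
    | zero => intro i i'; simpa using hc2 i i'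
    | succ e ih => intro i i'; rw [Nat.mul_succ]; exact pow_add_p B hnn (ih i i') (hc2 i i)
  have hloop : ∀ k : ℕ, (m + 1) * (m + 2) ≤ k → ∀ i i' : Fin N, 0 < (B ^ k) (0, i') (0, i) := by
    intro k hk i i'
    have hmod := Nat.mod_lt k (show 0 < m + 1 by omega)
    have hdiv := Nat.div_add_mod k (m + 1)
    have hge : m + 2 ≤ k / (m + 1) := by
      rw [Nat.le_div_iff_mul_le (by omega)]
      rw [mul_comm]; exact hk
    obtain ⟨e2, he2⟩ : ∃ e2, k / (m + 1) - k % (m + 1) = e2 + 1 := ⟨k / (m + 1) - k % (m + 1) - 1, by omega⟩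
    have hk' : k = (m + 2) * (k % (m + 1)) + (m + 1) * (k / (m + 1) - k % (m + 1)) := by
      rw [Nat.mul_sub]
      have : (m + 1) * (k % (m + 1)) ≤ (m + 1) * (k / (m + 1)) := Nat.mul_le_mul_left _ (by omega)
      have h4 : (m + 2) * (k % (m + 1)) = (m + 1) * (k % (m + 1)) + k % (m + 1) := by ring
      omega
    rcases Nat.eq_zero_or_pos (k % (m + 1)) with h0 | hpos
    · rw [h0] at he2
      rw [h0, mul_zero, zero_add] at hk'
      rw [hk', he2]
      exact hm2 e2 i i'
    · obtain ⟨e1, he1⟩ : ∃ e1, k % (m + 1) = e1 + 1 := ⟨k % (m + 1) - 1, by omega⟩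
      rw [he2, he1] at hk'
      rw [hk']
      exact pow_add_p B hnn (hm1 e1 i i') (hm2 e2 i i)
  have hback : ∀ (k : Fin (m + 2)) (i i' : Fin N), 0 < (B ^ (m + 2 - (k : ℕ))) (0, i') (k, i) := by
    intro k i i'
    have h3 := hfwd (m + 1 - k) (Fin.last (m + 1)) k i (by have := k.2; simp; omega)
    have h4 : m + 2 - (k : ℕ) = 1 + (m + 1 - k) := by have := k.2; omega
    rw [h4]
    refine pow_add_p B hnn ?_ h3
    rw [pow_one, hB]
    simp only [bh, Matrix.of_apply]
    simpa using h1 i' i
  refine ⟨(m + 1) * (m + 2) + (m + 2) + (m + 2), by positivity, ?_⟩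
  rintro ⟨j, i'⟩ ⟨k, i⟩
  have hj := j.2
  have hk := k.2
  have hsplit : (m + 1) * (m + 2) + (m + 2) + (m + 2) =
      (j : ℕ) + (((m + 1) * (m + 2) + (m + 2) + (m + 2) - j - (m + 2 - (k : ℕ))) + (m + 2 - (k : ℕ))) := by
    omega
  rw [hsplit]
  refine pow_add_p B hnn (hfwd j j 0 i' (by simp)) (pow_add_p B hnn (hloop _ ?_ i' i') (hback k i i'))
  omega

end Pool.Agent.Helper605
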