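import Mathlib
import Pool.Agent.Helper605.HDM
import Pool.Agent.Helper605.Red

set_option autoImplicit false
set_option linter.all false

namespace Pool.Agent.Helper605

open Matrix Finset Filter Topology

variable {n : ℕ}

abbrev MP (n : ℕ) := Matrix (Fin (n + 1)) (Fin (n + 1)) (PowerSeries ℝ)

/-- Coefficient matrices. -/
noncomputable def cs (E : MP n) : ℕ → MN (n + 1) := fun m => Matrix.of fun i j => PowerSeries.coeff m (E i j)

theorem cs_apply (E : MP n) (m : ℕ) (i j : Fin (n + 1)) : cs E m i j = PowerSeries.coeff m (E i j) := rfl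

/-- Data exist for all large truncation orders. -/
def GoodM (S : Subring ℝ) (E : MP n) : Prop := ∃ n1 : ℕ, ∀ m, n1 ≤ m → ∃ a D, HDM S m (cs E) a D

/-- Multiply the first column. -/
noncomputable def colmul (G : MP n) (s : PowerSeries ℝ) : MP n := Matrix.of fun i j => if j = 0 then G i j * s else G i j

theorem colmul_0 (G : MP n) (s : PowerSeries ℝ) (i : Fin (n + 1)) : colmul G s i 0 = G i 0 * s := rfl

theorem colmul_ne (G : MP n) (s : PowerSeries ℝ) (i j : Fin (n + 1)) (hj : j ≠ 0) : colmul G s i j = G i j := by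
  simp [colmul, hj]

theorem colmul_mem {S : Subring ℝ} {G : MP n} {s : PowerSeries ℝ} (hG : ∀ i j, InS S (G i j)) (hs : InS S s) (i j : Fin (n + 1)) :
    InS S (colmul G s i j) := by
  by_cases hj : j = 0
  · subst hj
    rw [colmul_0]
    exact (hG i 0).mul hs
  · rw [colmul_ne _ _ _ _ hj]
    exact hG i j

theorem GoodM.stepmono {S : Subring ℝ} (G : MP n) (t t' : PowerSeries ℝ) (k : ℕ) (w : ℝ) (hk : 1 ≤ k) (hw : w ∈ S) (hw0 : 0 ≤ w)
    (ht : t' = (1 - PowerSeries.C w * PowerSeries.X ^ k) * t)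
    (hE : ∀ i j, InS S (colmul G t i j)) (hE' : ∀ i j, InS S (colmul G t' i j))
    (h1 : ∀ i j, ∀ᶠ m in atTop, PowerSeries.coeff m (colmul G t i j) ≤ 0)
    (h2 : ∀ i j, ∀ᶠ m in atTop, PowerSeries.coeff m (colmul G t' i j) ≤ 0)
    (h : GoodM S (colmul G t)) : GoodM S (colmul G t') := by
  obtain ⟨n1, hn1⟩ := h
  have h1' : ∀ᶠ m in atTop, ∀ i j, PowerSeries.coeff m (colmul G t i j) ≤ 0 := by
    rw [eventually_all]; intro i; rw [eventually_all]; exact h1 i
  have h2' : ∀ᶠ m in atTop, ∀ i j, PowerSeries.coeff m (colmul G t' i j) ≤ 0 := by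
    rw [eventually_all]; intro i; rw [eventually_all]; exact h2 i
  obtain ⟨a1, ha1⟩ := eventually_atTop.mp h1'
  obtain ⟨a2, ha2⟩ := eventually_atTop.mp h2'
  set Q : ℕ → MN (n + 1) := fun i => if i = k then Matrix.single 0 0 w else 0 with hQ
  refine ⟨max (max a1 a2 + k + k) (n1 + k), fun m hm => ?_⟩
  have b1 : max a1 a2 + k + k ≤ m := (le_max_left _ _).trans hm
  have b2 : n1 + k ≤ m := (le_max_right _ _).trans hm
  obtain ⟨a, D, hD, _⟩ := hdm_extend S (m - k) k (max a1 a2) (cs (colmul G t)) (cs (colmul G t')) Q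
    (fun m i j => hE i j m) (fun m i j => hE' i j m)
    (fun i p q => by
      simp only [hQ]
      split_ifs
      · rw [Matrix.single_apply]; split_ifs
        · exact hw
        · exact S.zero_mem
      · exact S.zero_mem)
    (fun i p q => by
      simp only [hQ]
      split_ifs
      · rw [Matrix.single_apply]; split_ifs
        · exact hw0
        · exact le_rfl
      · exact le_rfl)
    (fun m => by
      have hsum : (∑ i ∈ Icc 1 k, if i ≤ m then cs (colmul G t) (m - i) * Q i else 0) =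
          if k ≤ m then cs (colmul G t) (m - k) * Matrix.single 0 0 w else 0 := by
        rw [Finset.sum_eq_single k]
        · simp only [hQ, if_true]
        · intro i _ hi
          simp only [hQ, if_neg hi, mul_zero, ite_self]
        · intro hk'
          exact absurd (Finset.mem_Icc.mpr ⟨hk, le_rfl⟩) hk'
      rw [hsum]
      ext i j
      rw [Matrix.sub_apply, cs_apply, cs_apply]
      by_cases hj : j = 0
      · subst hj
        rw [colmul_0, colmul_0, ht]
        have e1 : G i 0 * ((1 - PowerSeries.C w * PowerSeries.X ^ k) * t) = G i 0 * t - PowerSeries.C w * (G i 0 * t * PowerSeries.X ^ k) := by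
          ring
        rw [e1, map_sub, PowerSeries.coeff_C_mul, PowerSeries.coeff_mul_X_pow']
        congr 1
        split_ifs with hkm
        · rw [Matrix.mul_apply, Finset.sum_eq_single 0]
          · rw [Matrix.single_apply_same, cs_apply, colmul_0]; ring
          · intro p _ hp
            rw [Matrix.single_apply_of_row_ne (Ne.symm hp), mul_zero]
          · simp
        · simp
      · rw [colmul_ne _ _ _ _ hj, colmul_ne _ _ _ _ hj]
        have : (if k ≤ m then cs (colmul G t) (m - k) * Matrix.single 0 0 w else 0 : MN (n + 1)) i j = 0 := by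
          split_ifs
          · rw [Matrix.mul_apply, Finset.sum_eq_zero]
            intro p _
            rw [Matrix.single_apply_of_col_ne]
            · simp
            · exact Ne.symm hj
          · rfl
        rw [this, sub_zero])
    (by omega)
    (fun k hk i j => ha1 k ((le_max_left _ _).trans hk) i j) (fun k hk i j => ha2 k ((le_max_right _ _).trans hk) i j)
    (hn1 (m - k) (by omega))
  rw [show m - k + k = m by omega] at hD
  exact ⟨a, D, hD⟩

theorem evNeg_colmul (G : MP n) (y : ℝ) (hy : 0 < y) (h : ∀ i j, EvNeg y (G i j)) (l : List (ℕ × ℝ))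
    (hl : ∀ p ∈ l, 1 ≤ p.1 ∧ 0 ≤ p.2 ∧ p.2 * y ^ p.1 < 1) (i j : Fin (n + 1)) : EvNeg y (colmul G (Jprod l)⁻¹ i j) := by
  by_cases hj : j = 0
  · subst hj
    rw [colmul_0]
    exact evNeg_list _ y hy (h i 0) l hl
  · rw [colmul_ne _ _ _ _ hj]
    exact h i j

theorem goodM_list (S : Subring ℝ) (G : MP n) (hGS : ∀ i j, InS S (G i j)) (y : ℝ) (hy : 0 < y) (h : ∀ i j, EvNeg y (G i j))
    (l : List (ℕ × ℝ)) (hl : ∀ p ∈ l, 1 ≤ p.1 ∧ p.2 ∈ S ∧ 0 ≤ p.2 ∧ p.2 * y ^ p.1 < 1)
    (hg : GoodM S (colmul G (Jprod l)⁻¹)) : GoodM S G := by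
  induction l with
  | nil =>
    have : colmul G (Jprod [])⁻¹ = G := by
      ext1 i j
      by_cases hj : j = 0
      · subst hj; rw [colmul_0]; simp [Jprod]
      · rw [colmul_ne _ _ _ _ hj]
    rwa [this] at hg
  | cons p l ih =>
    apply ih (fun p' hp' => hl p' (by simp [hp']))
    have hl1 : ∀ p' ∈ l, 1 ≤ p'.1 := fun p' hp' => (hl p' (by simp [hp'])).1
    have hl1' : ∀ p' ∈ p :: l, 1 ≤ p'.1 := fun p' hp' => (hl p' hp').1
    obtain ⟨a1, a2, a3, a4⟩ := hl p (by simp)
    have hE1 := evNeg_colmul G y hy h l (fun p' hp' => by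
      obtain ⟨b1, b2, b3, b4⟩ := hl p' (by simp [hp']); exact ⟨b1, b3, b4⟩)
    have hE2 := evNeg_colmul G y hy h (p :: l) (fun p' hp' => by
      obtain ⟨b1, b2, b3, b4⟩ := hl p' hp'; exact ⟨b1, b3, b4⟩)
    have hS1 := fun i j => colmul_mem hGS ((Jprod_inS S l (fun p' hp' => (hl p' (by simp [hp'])).2.1)).inv (Jprod_coeff_zero l hl1)) i j
    have hS2 := fun i j => colmul_mem hGS ((Jprod_inS S (p :: l) (fun p' hp' => (hl p' hp').2.1)).inv (Jprod_coeff_zero (p :: l) hl1')) i j
    refine GoodM.stepmono G _ _ p.1 p.2 a1 a2 a3 ?_ hS2 hS1 (fun i j => ((hE2 i j).neg hy).mono fun _ h => h.le)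
      (fun i j => ((hE1 i j).neg hy).mono fun _ h => h.le) hg
    have h4 : Jprod (p :: l) = (1 - PowerSeries.C p.2 * PowerSeries.X ^ p.1) * Jprod l := by simp [Jprod]
    have hinv : (1 - PowerSeries.C p.2 * PowerSeries.X ^ p.1 : PowerSeries ℝ)⁻¹ *
        (1 - PowerSeries.C p.2 * PowerSeries.X ^ p.1) = 1 := by
      apply PowerSeries.inv_mul_cancel
      rw [map_sub, map_mul, map_pow, PowerSeries.constantCoeff_X, zero_pow (by omega), mul_zero, map_one, sub_zero]
      exact one_ne_zero
    rw [h4, PowerSeries.mul_inv_rev]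
    calc (Jprod l)⁻¹ = (Jprod l)⁻¹ * ((1 - PowerSeries.C p.2 * PowerSeries.X ^ p.1 : PowerSeries ℝ)⁻¹ *
          (1 - PowerSeries.C p.2 * PowerSeries.X ^ p.1)) := by rw [hinv, mul_one]
      _ = _ := by ring

/-- The matrix `M (1 - Q)⁻¹` where `Q` has first row `q` and other rows zero. -/
noncomputable def divq (M : MP n) (q : PowerSeries ℝ) : MP n := Matrix.of fun i j => M i j + M i 0 * (q * (1 - q)⁻¹)

theorem reductionM (S : Subring ℝ) (M : Matrix (Fin (n + 1)) (Fin (n + 1)) (Polynomial ℝ)) (hMS : ∀ i j k, (M i j).coeff k ∈ S)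
    (hM0 : ∀ i j, (M i j).coeff 0 = if i = j then 1 else 0)
    (q : Polynomial ℝ) (L : ℕ) (hL : 2 ≤ L) (hqS : ∀ k, q.coeff k ∈ S) (hq : ∀ k, 0 ≤ q.coeff k)
    (hq0 : q.coeff 0 = 0) (hqL : q.natDegree ≤ L) (hqpos : 0 < q.coeff L)
    (l : List (ℕ × ℝ)) (y : ℝ) (hy : 0 < y)
    (hl : ∀ p ∈ l, 1 ≤ p.1 ∧ p.2 ∈ S ∧ 0 ≤ p.2 ∧ p.2 * y ^ p.1 < 1)
    (hev : ∀ i j, EvNeg y (divq (Matrix.of fun i j => (M i j : PowerSeries ℝ)) (q : PowerSeries ℝ) i j))
    (hneg : ∀ k, 1 ≤ k → ∀ i j,
      PowerSeries.coeff k (colmul (divq (Matrix.of fun i j => (M i j : PowerSeries ℝ)) (q : PowerSeries ℝ)) (Jprod l)⁻¹ i j) ≤ 0) :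
    ∃ (m : ℕ) (a : ℕ → ℕ → MN (n + 1)), (∀ k j i i', a k j i i' ∈ S) ∧ (∀ k j i i', 0 ≤ a k j i i') ∧
      (∀ i i', 0 < a (m + 1) 0 i i') ∧ (∀ i i', 0 < a m 0 i i') ∧ Dr a (m + 2) = M := by
  set Mp : MP n := Matrix.of fun i j => (M i j : PowerSeries ℝ) with hMp
  set qs : PowerSeries ℝ := (q : PowerSeries ℝ) with hqs
  have hq1 : PowerSeries.coeff 0 (1 - qs) = 1 := by
    rw [map_sub, hqs, Polynomial.coeff_coe, hq0]; simp
  have hqc : PowerSeries.constantCoeff (1 - qs) ≠ 0 := by
    rw [← PowerSeries.coeff_zero_eq_constantCoeff_apply, hq1]; exact one_ne_zero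
  have hqIn0 : InS S qs := by
    intro k
    rw [hqs, Polynomial.coeff_coe]; exact hqS k
  have hqIn : InS S (1 - qs) := InS.one.sub hqIn0
  set G := divq Mp qs with hG
  have hMpS : ∀ i j, InS S (Mp i j) := by
    intro i j k
    rw [hMp, Matrix.of_apply, Polynomial.coeff_coe]
    exact hMS i j k
  have hGS : ∀ i j, InS S (G i j) := by
    intro i j k
    rw [hG, divq, Matrix.of_apply, map_add]
    exact S.add_mem (hMpS i j k) (((hMpS i 0).mul (hqIn0.mul (hqIn.inv hq1))) k)
  have hinvq : (1 - qs) * (1 - qs)⁻¹ = 1 := PowerSeries.mul_inv_cancel _ hqc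
  have hG0 : ∀ i, G i 0 = Mp i 0 * (1 - qs)⁻¹ := by
    intro i
    rw [hG, divq, Matrix.of_apply]
    linear_combination (-(Mp i 0)) * hinvq
  have hl1 : ∀ p ∈ l, 1 ≤ p.1 := fun p hp => (hl p hp).1
  have hJ0 := Jprod_coeff_zero l hl1
  have hinv0 : ∀ F : PowerSeries ℝ, PowerSeries.coeff 0 F = 1 → PowerSeries.coeff 0 F⁻¹ = 1 := by
    intro F hF
    rw [PowerSeries.coeff_zero_eq_constantCoeff_apply] at *
    rw [PowerSeries.constantCoeff_inv, hF, inv_one]
  have hc0mul : ∀ F H : PowerSeries ℝ, PowerSeries.coeff 0 (F * H) = PowerSeries.coeff 0 F * PowerSeries.coeff 0 H := by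
    intro F H
    simp only [PowerSeries.coeff_zero_eq_constantCoeff_apply, map_mul]
  have hMp0 : ∀ i j, PowerSeries.coeff 0 (Mp i j) = if i = j then 1 else 0 := by
    intro i j
    rw [hMp, Matrix.of_apply, Polynomial.coeff_coe]
    exact hM0 i j
  have hq00 : PowerSeries.coeff 0 qs = 0 := by rw [hqs, Polynomial.coeff_coe]; exact hq0
  have hbase : GoodM S (colmul G (Jprod l)⁻¹) := by
    refine ⟨0, fun m _ => hdm_base S _ (fun k i j => colmul_mem hGS
      ((Jprod_inS S l (fun p' hp' => (hl p' hp').2.1)).inv hJ0) i j k) ?_ (fun k hk i j => hneg k hk i j) m⟩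
    ext i j
    change PowerSeries.coeff 0 (colmul G (Jprod l)⁻¹ i j) = (1 : MN (n + 1)) i j
    rw [Matrix.one_apply]
    by_cases hj : j = 0
    · subst hj
      rw [colmul_0, hG0, hc0mul, hc0mul, hinv0 _ hq1, hinv0 _ hJ0, hMp0]
      simp
    · rw [colmul_ne _ _ _ _ hj, hG, divq, Matrix.of_apply, map_add, hMp0, hc0mul, hc0mul, hq00]
      simp
  have hgood : GoodM S G := goodM_list S G hGS y hy hev l hl hbase
  obtain ⟨n1, hn1⟩ := hgood
  have hev' : ∀ᶠ m in atTop, ∀ i j, PowerSeries.coeff m (G i j) < 0 := by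
    rw [eventually_all]; intro i; rw [eventually_all]; intro j
    exact (hev i j).neg hy
  obtain ⟨a1, ha1⟩ := eventually_atTop.mp hev'
  obtain ⟨dM, hdM⟩ : ∃ dM : ℕ, ∀ i j k, dM ≤ k → (M i j).coeff k = 0 := by
    refine ⟨∑ i, ∑ j, (M i j).natDegree + 1, fun i j k hk => ?_⟩
    apply Polynomial.coeff_eq_zero_of_natDegree_lt
    have h1 : (M i j).natDegree ≤ ∑ j, (M i j).natDegree :=
      Finset.single_le_sum (f := fun j => (M i j).natDegree) (fun _ _ => Nat.zero_le _) (Finset.mem_univ j)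
    have h2 : ∑ j, (M i j).natDegree ≤ ∑ i, ∑ j, (M i j).natDegree :=
      Finset.single_le_sum (f := fun i => ∑ j, (M i j).natDegree) (fun _ _ => Nat.zero_le _) (Finset.mem_univ i)
    omega
  set n0 := max a1 dM with hn0
  set m0 := max n1 (n0 + L) with hm0
  set Q : ℕ → MN (n + 1) := fun i => if 1 ≤ i ∧ i ≤ L then Matrix.of fun p _ => if p = 0 then q.coeff i else 0 else 0 with hQ
  obtain ⟨a, D, hD, hpos⟩ := hdm_extend S m0 L n0 (cs G) (cs Mp) Q
    (fun m i j => hGS i j m) (fun m i j => hMpS i j m)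
    (fun i p r => by
      simp only [hQ]
      split_ifs
      · rw [Matrix.of_apply]; split_ifs
        · exact hqS i
        · exact S.zero_mem
      · exact S.zero_mem)
    (fun i p r => by
      simp only [hQ]
      split_ifs
      · rw [Matrix.of_apply]; split_ifs
        · exact hq i
        · exact le_rfl
      · exact le_rfl)
    (fun m => by
      ext i j
      rw [Matrix.sub_apply, cs_apply, cs_apply, Matrix.sum_apply]
      have e1 : Mp i j = G i j - qs * G i 0 := by
        rw [hG0, hG, divq, Matrix.of_apply]; ring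
      have e2 : PowerSeries.coeff m (qs * G i 0) = ∑ k ∈ Icc 1 L, (if k ≤ m then cs G (m - k) * Q k else 0 : MN (n + 1)) i j := by
        rw [PowerSeries.coeff_mul, Finset.Nat.sum_antidiagonal_eq_sum_range_succ_mk]
        have e3 : ∀ k ∈ Icc 1 L, (if k ≤ m then cs G (m - k) * Q k else 0 : MN (n + 1)) i j =
            if k ≤ m then q.coeff k * PowerSeries.coeff (m - k) (G i 0) else 0 := by
          intro k hk
          rw [Finset.mem_Icc] at hk
          split_ifs
          · rw [Matrix.mul_apply, Finset.sum_eq_single 0]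
            · simp only [hQ]
              rw [if_pos hk, Matrix.of_apply, if_pos rfl, cs_apply]; ring
            · intro p _ hp
              simp only [hQ]
              rw [if_pos hk, Matrix.of_apply, if_neg hp, mul_zero]
            · simp
          · rfl
        rw [Finset.sum_congr rfl e3, ← Finset.sum_filter]
        symm
        rw [Finset.sum_congr rfl (g := fun k => PowerSeries.coeff k qs * PowerSeries.coeff (m - k) (G i 0))]
        · apply Finset.sum_subset
          · intro k hk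
            rw [Finset.mem_filter, Finset.mem_Icc] at hk
            rw [Finset.mem_range]; omega
          · intro k hk hk'
            rw [Finset.mem_range] at hk
            rw [Finset.mem_filter, Finset.mem_Icc] at hk'
            rw [hqs, Polynomial.coeff_coe]
            rcases Nat.eq_zero_or_pos k with h0 | hp
            · rw [h0, hq0, zero_mul]
            · rw [Polynomial.coeff_eq_zero_of_natDegree_lt (by omega), zero_mul]
        · intro k _
          rw [hqs, Polynomial.coeff_coe]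
      rw [e1, map_sub, e2])
    (le_max_right _ _)
    (fun k hk i j => (ha1 k ((le_max_left _ _).trans hk) i j).le)
    (fun k hk i j => by
      rw [cs_apply, hMp, Matrix.of_apply, Polynomial.coeff_coe, hdM i j k ((le_max_right _ _).trans hk)])
    (hn1 m0 (le_max_left _ _))
  have hpos' := hpos ⟨0, fun k hk i => ha1 k ((le_max_left _ _).trans hk) i 0, fun j => by
    simp only [hQ]
    rw [if_pos ⟨by omega, le_rfl⟩, Matrix.of_apply, if_pos rfl]
    exact hqpos⟩ (by omega)
  obtain ⟨m, hm⟩ : ∃ m, m0 + L = m + 2 := ⟨m0 + L - 2, by omega⟩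
  have hb1 : n0 + L ≤ m0 := le_max_right _ _
  have hb2 : dM ≤ n0 := le_max_right _ _
  refine ⟨m, a, hD.memS, hD.nonneg, fun i i' => hpos' (m + 1) (by omega) (by omega) i i',
    fun i i' => hpos' m (by omega) (by omega) i i', ?_⟩
  ext i j k
  rw [hm] at hD
  rw [hD.dr (m + 2) le_rfl, hD.last]
  split_ifs with hk
  · rw [cs_apply, hMp, Matrix.of_apply, Polynomial.coeff_coe]
  · rw [hdM i j k (by omega)]; rfl

end Pool.Agent.Helper605
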