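import Mathlib
import Pool.Agent.Helper605.RedM
import Pool.Agent.Helper605.Dense

set_option autoImplicit false
set_option linter.all false

namespace Pool.Agent.Helper605

open Matrix Finset Filter Topology

theorem conv_le {f g : PowerSeries ℝ} {y e : ℝ} (hy : 0 ≤ y) (hf : Bd y f e) (hg : ∀ k, |PowerSeries.coeff k g * y ^ k| ≤ 1) (k : ℕ) :
    |PowerSeries.coeff k (f * g) * y ^ k| ≤ e := by
  rw [PowerSeries.coeff_mul, Finset.Nat.sum_antidiagonal_eq_sum_range_succ_mk, Finset.sum_mul]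
  refine (Finset.abs_sum_le_sum_abs _ _).trans (le_trans ?_ (hf (k + 1)))
  apply Finset.sum_le_sum
  intro i hi
  rw [Finset.mem_range] at hi
  have h1 : y ^ k = y ^ i * y ^ (k - i) := by rw [← pow_add]; congr 1; omega
  rw [h1]
  have h2 : PowerSeries.coeff i f * PowerSeries.coeff (k - i) g * (y ^ i * y ^ (k - i)) =
      (PowerSeries.coeff i f * y ^ i) * (PowerSeries.coeff (k - i) g * y ^ (k - i)) := by ring
  simp only
  rw [h2, abs_mul, abs_mul, abs_of_nonneg (pow_nonneg hy i), Real.norm_eq_abs]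
  calc |PowerSeries.coeff i f| * y ^ i * |PowerSeries.coeff (k - i) g * y ^ (k - i)| ≤ |PowerSeries.coeff i f| * y ^ i * 1 :=
        mul_le_mul_of_nonneg_left (hg _) (by positivity)
    _ = |PowerSeries.coeff i f| * y ^ i := mul_one _

theorem mul_nn {f g : PowerSeries ℝ} (hf : ∀ k, 0 ≤ PowerSeries.coeff k f) (hg : ∀ k, 0 ≤ PowerSeries.coeff k g) (k : ℕ) :
    0 ≤ PowerSeries.coeff k (f * g) := by
  rw [PowerSeries.coeff_mul]
  exact Finset.sum_nonneg fun x _ => mul_nonneg (hf _) (hg _)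

/-- multiplying by a nonnegative series with constant term one only increases nonnegative coefficients -/
theorem mul_ge {f g : PowerSeries ℝ} (hf : ∀ k, 0 ≤ PowerSeries.coeff k f) (hg : ∀ k, 0 ≤ PowerSeries.coeff k g)
    (hg0 : PowerSeries.coeff 0 g = 1) (k : ℕ) : PowerSeries.coeff k f ≤ PowerSeries.coeff k (f * g) := by
  rw [PowerSeries.coeff_mul]
  have h1 : PowerSeries.coeff k f = PowerSeries.coeff (k, 0).1 f * PowerSeries.coeff (k, 0).2 g := by
    simp only; rw [hg0, mul_one]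
  rw [h1]
  apply Finset.single_le_sum (f := fun x : ℕ × ℕ => PowerSeries.coeff x.1 f * PowerSeries.coeff x.2 g)
  · intro x _; exact mul_nonneg (hf _) (hg _)
  · rw [Finset.HasAntidiagonal.mem_antidiagonal]; simp

theorem inv_mono_nn (a : ℝ) (ha : 0 ≤ a) (m : ℕ) (hm : 1 ≤ m) (k : ℕ) :
    0 ≤ PowerSeries.coeff k (1 - PowerSeries.C a * PowerSeries.X ^ m : PowerSeries ℝ)⁻¹ := by
  have h0 : PowerSeries.coeff 0 (1 - PowerSeries.C a * PowerSeries.X ^ m : PowerSeries ℝ) = 1 := by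
    rw [map_sub, PowerSeries.coeff_C_mul, PowerSeries.coeff_X_pow, if_neg (by omega)]; simp
  have hmul := mul_inv1 h0
  set g := (1 - PowerSeries.C a * PowerSeries.X ^ m : PowerSeries ℝ)⁻¹ with hg
  induction k using Nat.strong_induction_on with
  | _ k ih =>
    have h1 := congrArg (PowerSeries.coeff k) hmul
    rw [sub_mul, one_mul, map_sub, mul_assoc, PowerSeries.coeff_C_mul, mul_comm (PowerSeries.X ^ m) g,
      PowerSeries.coeff_mul_X_pow', PowerSeries.coeff_one] at h1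
    have h2 : 0 ≤ a * (if m ≤ k then PowerSeries.coeff (k - m) g else 0) := by
      apply mul_nonneg ha
      split_ifs with h
      · exact ih _ (by omega)
      · exact le_rfl
    have h3 : (0 : ℝ) ≤ if k = 0 then 1 else 0 := by split_ifs <;> norm_num
    linarith

theorem Jinv_props (y : ℝ) (hy : 0 ≤ y) (l : List (ℕ × ℝ)) (hl : ∀ p ∈ l, 1 ≤ p.1 ∧ 0 ≤ p.2 ∧ p.2 * y ^ p.1 < 1) :
    (∀ k, 0 ≤ PowerSeries.coeff k (Jprod l)⁻¹) ∧ ∃ b, Bd y (Jprod l)⁻¹ b := by
  induction l with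
  | nil =>
    have : (Jprod [])⁻¹ = 1 := by
      rw [inv_eq_of (by simp [Jprod]) (g := 1) (by simp [Jprod])]
    rw [this]
    refine ⟨fun k => ?_, 1, Bd.one hy⟩
    rw [PowerSeries.coeff_one]; split_ifs <;> norm_num
  | cons p l ih =>
    obtain ⟨h1, b, hb⟩ := ih (fun p' hp' => hl p' (by simp [hp']))
    obtain ⟨a1, a2, a3⟩ := hl p (by simp)
    have h4 : Jprod (p :: l) = (1 - PowerSeries.C p.2 * PowerSeries.X ^ p.1) * Jprod l := by simp [Jprod]
    rw [h4, PowerSeries.mul_inv_rev]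
    refine ⟨mul_nn h1 (inv_mono_nn p.2 a2 p.1 a1), _, hb.mul hy (Bd.inv hy ?_ ?_ a3)⟩
    · rw [map_sub, PowerSeries.coeff_C_mul, PowerSeries.coeff_X_pow, if_neg (by omega)]; simp
    · have := Bd.C_mul_X_pow hy p.2 p.1
      rw [Real.norm_of_nonneg a2] at this
      simpa using this

/-- The positivity construction. -/
theorem posM {n : ℕ} (S : Subring ℝ) (F q : Polynomial ℝ) (hFS : ∀ k, F.coeff k ∈ S) (hF0 : F.coeff 0 = 1)
    (hqS : ∀ k, q.coeff k ∈ S) (m0 : ℕ) (y ρ δ κ : ℝ) (hy : 0 < y) (hyρ : y ≤ ρ) (hκ : 0 < κ)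
    (hqsupp : ∀ k, k ≤ m0 ∨ 2 * m0 + 1 < k → q.coeff k = 0) (hqpos : ∀ k, m0 + 1 ≤ k → k ≤ 2 * m0 + 1 → 0 < q.coeff k)
    (hren : Renew m0 δ (fun j => q.coeff j * y ^ j) (fun k => PowerSeries.coeff k (1 - (q : PowerSeries ℝ))⁻¹ * y ^ k))
    (hevF : EvNeg y ((F : PowerSeries ℝ) * (1 - (q : PowerSeries ℝ))⁻¹))
    (l : List (ℕ × ℝ)) (hl : ∀ p ∈ l, 1 ≤ p.1 ∧ p.2 ∈ S ∧ 0 ≤ p.2 ∧ p.2 * y ^ p.1 < 1)
    (hbase1 : ∀ k, 1 ≤ k → PowerSeries.coeff k ((F : PowerSeries ℝ) * (1 - (q : PowerSeries ℝ))⁻¹ * (Jprod l)⁻¹) ≤ 0)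
    (hbase2 : ∀ k, m0 + 1 ≤ k → PowerSeries.coeff k ((F : PowerSeries ℝ) * (1 - (q : PowerSeries ℝ))⁻¹ * (Jprod l)⁻¹) * y ^ k ≤ -κ)
    (hsmall : ∀ ε : ℝ, 0 < ε → ∃ s ∈ S, ∃ m : ℕ, 1 ≤ m ∧ 0 < s ∧ s * y ^ m < ε)
    (M : Matrix (Fin (n + 1)) (Fin (n + 1)) (PowerSeries ℝ)) (hM : ∀ i j, M i j ∈ (phi S).range)
    (happ : ∀ (K : ℕ) (ε : ℝ), 0 < ε → ∃ P ∈ EL (phi S).range (Fin (n + 1)), ∃ Q ∈ EL (phi S).range (Fin (n + 1)),
      MCl ρ K ε (Dg n (F : PowerSeries ℝ)) (P * M * Q)) :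
    ∃ P ∈ EL (phi S).range (Fin (n + 1)), ∃ Q ∈ EL (phi S).range (Fin (n + 1)),
      ∃ M2 : Matrix (Fin (n + 1)) (Fin (n + 1)) (Polynomial ℝ), (∀ i j, ((M2 i j : Polynomial ℝ) : PowerSeries ℝ) = (P * M * Q) i j) ∧
      ∃ (m : ℕ) (a : ℕ → ℕ → MN (n + 1)), (∀ k j i i', a k j i i' ∈ S) ∧ (∀ k j i i', 0 ≤ a k j i i') ∧
      (∀ i i', 0 < a (m + 1) 0 i i') ∧ (∀ i i', 0 < a m 0 i i') ∧ Dr a (m + 2) = M2 := by
  have hρ0 : 0 ≤ ρ := hy.le.trans hyρ
  have hM1 : 1 ≤ m0 := hren.hM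
  set Fs : PowerSeries ℝ := (F : PowerSeries ℝ) with hFs
  set qs : PowerSeries ℝ := (q : PowerSeries ℝ) with hqs
  set c : PowerSeries ℝ := (1 - qs)⁻¹ with hc
  have hq00 : PowerSeries.coeff 0 qs = 0 := by rw [hqs, Polynomial.coeff_coe]; exact hqsupp 0 (by omega)
  have hq1 : PowerSeries.coeff 0 (1 - qs) = 1 := by rw [map_sub, hq00]; simp
  have hqc : (1 - qs) * c = 1 := mul_inv1 hq1
  set b : PowerSeries ℝ := qs * c with hb
  have hbc : b = c - 1 := by rw [hb]; linear_combination (-1 : PowerSeries ℝ) * hqc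
  have hunn := hren.nonneg
  have hu1 := hren.le_one
  have hulow := hren.lower
  have hu0 := hren.u0
  have hyk : ∀ k : ℕ, 0 < y ^ k := fun k => pow_pos hy k
  have hcnn : ∀ k, 0 ≤ PowerSeries.coeff k c := by
    intro k
    exact nonneg_of_mul_nonneg_left (hunn k) (hyk k)
  have hcabs : ∀ k, |PowerSeries.coeff k c * y ^ k| ≤ 1 := by
    intro k; rw [abs_of_nonneg (hunn k)]; exact hu1 k
  have hbk : ∀ k, 1 ≤ k → PowerSeries.coeff k b = PowerSeries.coeff k c := by
    intro k hk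
    rw [hbc, map_sub, PowerSeries.coeff_one, if_neg (by omega), sub_zero]
  have hXq : PowerSeries.X ^ (m0 + 1) ∣ qs := by
    rw [PowerSeries.X_pow_dvd_iff]
    intro m hm
    rw [hqs, Polynomial.coeff_coe]; exact hqsupp m (by omega)
  have hXb : PowerSeries.X ^ (m0 + 1) ∣ b := Dvd.dvd.mul_right hXq c
  have hb0 : ∀ k, k ≤ m0 → PowerSeries.coeff k b = 0 := by
    intro k hk
    exact PowerSeries.X_pow_dvd_iff.mp hXb k (by omega)
  have hbnn : ∀ k, 0 ≤ PowerSeries.coeff k b := by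
    intro k
    rcases Nat.eq_zero_or_pos k with h | h
    · rw [h, hb0 0 (by omega)]
    · rw [hbk k h]; exact hcnn k
  have hbabs : ∀ k, |PowerSeries.coeff k b * y ^ k| ≤ 1 := by
    intro k
    rcases Nat.eq_zero_or_pos k with h | h
    · rw [h, hb0 0 (by omega), zero_mul, abs_zero]; norm_num
    · rw [hbk k h]; exact hcabs k
  have hblow : ∀ k, m0 + 1 ≤ k → δ ^ 2 ≤ PowerSeries.coeff k b * y ^ k := by
    intro k hk
    rw [hbk k (by omega)]
    exact hulow k hk
  have hδ : 0 < δ := hren.δpos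
  -- the series `w`
  set w : PowerSeries ℝ := (Jprod l)⁻¹ with hw
  obtain ⟨hwnn, CJ', hCJ'⟩ := Jinv_props y hy.le l (fun p hp => ⟨(hl p hp).1, (hl p hp).2.2.1, (hl p hp).2.2.2⟩)
  have hw0 : PowerSeries.coeff 0 w = 1 := coeff0_inv (Jprod_coeff_zero l (fun p hp => (hl p hp).1))
  set CJ : ℝ := CJ' + 1 with hCJ
  have hCJb : Bd y w CJ := hCJ'.le (by linarith)
  have hCJ1 : 1 ≤ CJ := by have := hCJ'.nonneg; linarith
  -- eventual negativity of `F b`
  obtain ⟨R, hR, hevR⟩ := hevF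
  obtain ⟨k0, hk0⟩ := eventually_atTop.mp hevR
  set k1 := max (max k0 (F.natDegree + 1)) (m0 + 1) with hk1
  have hFb : ∀ k, k1 ≤ k → PowerSeries.coeff k (Fs * b) * y ^ k ≤ -R := by
    intro k hk
    have h1 : Fs * b = Fs * c - Fs := by rw [hbc]; ring
    rw [h1, map_sub]
    have h2 : PowerSeries.coeff k Fs = 0 := by
      rw [hFs, Polynomial.coeff_coe]
      apply Polynomial.coeff_eq_zero_of_natDegree_lt
      have : F.natDegree + 1 ≤ k1 := (le_max_right _ _).trans (le_max_left _ _)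
      omega
    rw [h2, sub_zero]
    exact hk0 k (((le_max_left _ _).trans (le_max_left _ _)).trans hk)
  -- the polynomial `η`
  obtain ⟨B, hB⟩ : ∃ B : ℕ, ∀ k, k ≤ k1 → |PowerSeries.coeff k (Fs * b)| * y ^ k + R ≤ B * y ^ k := by
    obtain ⟨B, hB⟩ := exists_nat_ge (∑ k ∈ range (k1 + 1), (|PowerSeries.coeff k (Fs * b)| + R / y ^ k))
    refine ⟨B, fun k hk => ?_⟩
    have h1 : |PowerSeries.coeff k (Fs * b)| + R / y ^ k ≤ B := by
      refine le_trans ?_ hB
      apply Finset.single_le_sum (f := fun k => |PowerSeries.coeff k (Fs * b)| + R / y ^ k)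
      · intro i _
        have := hyk i
        positivity
      · rw [Finset.mem_range]; omega
    have h2 := mul_le_mul_of_nonneg_right h1 (hyk k).le
    rw [add_mul, div_mul_cancel₀ _ (hyk k).ne'] at h2
    exact h2
  set η : Polynomial ℝ := ∑ k ∈ Icc (m0 + 1) k1, Polynomial.C (B : ℝ) * Polynomial.X ^ k with hη
  have hηc : ∀ k, η.coeff k = if k ∈ Icc (m0 + 1) k1 then (B : ℝ) else 0 := by
    intro k
    rw [hη, Polynomial.finsetSum_coeff]
    simp only [Polynomial.coeff_C_mul, Polynomial.coeff_X_pow, mul_ite, mul_one, mul_zero]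
    rw [Finset.sum_ite_eq]
  have hηS : ∀ k, η.coeff k ∈ S := by
    intro k
    rw [hηc]
    split_ifs
    · exact natCast_mem S B
    · exact S.zero_mem
  set ηs : PowerSeries ℝ := (η : PowerSeries ℝ) with hηs
  have hXη : PowerSeries.X ^ (m0 + 1) ∣ ηs := by
    rw [PowerSeries.X_pow_dvd_iff]
    intro m hm
    rw [hηs, Polynomial.coeff_coe, hηc, if_neg (by rw [Finset.mem_Icc]; omega)]
  obtain ⟨bη', hbη'⟩ := Bd.poly hy.le η
  set bη := bη' + 1 with hbη
  have hηB : Bd y ηs bη := hbη'.le (by linarith)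
  have hbη1 : 1 ≤ bη := by have := hbη'.nonneg; linarith
  -- `Z = F b - η`
  have hZ0 : ∀ k, k ≤ m0 → PowerSeries.coeff k (Fs * b - ηs) = 0 := by
    intro k hk
    exact PowerSeries.X_pow_dvd_iff.mp (dvd_sub (Dvd.dvd.mul_left hXb Fs) hXη) k (by omega)
  have hZ1 : ∀ k, m0 + 1 ≤ k → PowerSeries.coeff k (Fs * b - ηs) * y ^ k ≤ -R := by
    intro k hk
    rw [map_sub, hηs, Polynomial.coeff_coe, hηc, sub_mul]
    by_cases hkk : k ≤ k1
    · rw [if_pos (by rw [Finset.mem_Icc]; omega)]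
      have h1 := hB k hkk
      have h2 : PowerSeries.coeff k (Fs * b) * y ^ k ≤ |PowerSeries.coeff k (Fs * b)| * y ^ k :=
        mul_le_mul_of_nonneg_right (le_abs_self _) (hyk k).le
      linarith
    · rw [if_neg (by rw [Finset.mem_Icc]; omega), zero_mul, sub_zero]
      exact hFb k (by omega)
  -- choice of `σ`
  set N : ℝ := (n : ℝ) + 1 with hN
  have hN1 : 1 ≤ N := by have : (0 : ℝ) ≤ n := by positivity
                         linarith
  obtain ⟨s1, hs1S, m, hm1, hs10, hs1ε⟩ := hsmall (min R κ / (4 * N * bη * CJ)) (by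
    apply div_pos (lt_min hR hκ)
    positivity)
  set σ0 : ℝ := s1 * y ^ m with hσ0
  have hσpos : 0 < σ0 := mul_pos hs10 (hyk m)
  rw [lt_div_iff₀ (by positivity)] at hs1ε
  have hσR : N * bη * σ0 * CJ ≤ R / 4 := by
    have := min_le_left R κ
    nlinarith
  have hσκ : N * bη * σ0 * CJ ≤ κ / 4 := by
    have := min_le_right R κ
    nlinarith
  set σp : Polynomial ℝ := Polynomial.C s1 * Polynomial.X ^ m with hσp
  set σs : PowerSeries ℝ := (σp : PowerSeries ℝ) with hσs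
  have hσse : σs = PowerSeries.C s1 * PowerSeries.X ^ m := by rw [hσs, hσp]; simp
  have hσS : ∀ k, σp.coeff k ∈ S := by
    intro k
    rw [hσp, Polynomial.coeff_C_mul, Polynomial.coeff_X_pow]
    split_ifs
    · simpa using hs1S
    · simpa using S.zero_mem
  have hσB : Bd y σs σ0 := by
    have := Bd.C_mul_X_pow hy.le s1 m
    rw [Real.norm_of_nonneg hs10.le] at this
    rw [hσse]; exact this
  have hσnn : ∀ k, 0 ≤ PowerSeries.coeff k σs := by
    intro k
    rw [hσse, PowerSeries.coeff_C_mul, PowerSeries.coeff_X_pow]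
    split_ifs
    · simpa using hs10.le
    · simp
  -- lower bounds for `σ g`
  have hσlow : ∀ g : PowerSeries ℝ, (∀ k, m0 + 1 ≤ k → δ ^ 2 ≤ PowerSeries.coeff k g * y ^ k) →
      ∀ k, m + m0 + 1 ≤ k → σ0 * δ ^ 2 ≤ PowerSeries.coeff k (σs * g) * y ^ k := by
    intro g hg k hk
    rw [hσse, mul_assoc (PowerSeries.C s1), PowerSeries.coeff_C_mul, mul_comm (PowerSeries.X ^ m) g, PowerSeries.coeff_mul_X_pow', if_pos (by omega)]
    have h1 : y ^ k = y ^ m * y ^ (k - m) := by rw [← pow_add]; congr 1; omega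
    rw [h1]
    have h2 := hg (k - m) (by omega)
    calc σ0 * δ ^ 2 ≤ σ0 * (PowerSeries.coeff (k - m) g * y ^ (k - m)) := mul_le_mul_of_nonneg_left h2 hσpos.le
      _ = s1 * PowerSeries.coeff (k - m) g * (y ^ m * y ^ (k - m)) := by rw [hσ0]; ring
  -- precision
  set ε : ℝ := min (min (R / 8) (κ / (4 * CJ))) (σ0 * δ ^ 2 / (4 * CJ)) with hε
  have hε0 : 0 < ε := by
    rw [hε]
    refine lt_min (lt_min (by positivity) (by positivity)) (by positivity)
  have hεR : ε ≤ R / 8 := (min_le_left _ _).trans (min_le_left _ _)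
  have hεκ : ε * CJ ≤ κ / 4 := by
    have h1 : ε ≤ κ / (4 * CJ) := (min_le_left _ _).trans (min_le_right _ _)
    rw [le_div_iff₀ (by positivity)] at h1
    linarith
  have hεσ : ε * CJ ≤ σ0 * δ ^ 2 / 4 := by
    have h1 : ε ≤ σ0 * δ ^ 2 / (4 * CJ) := min_le_right _ _
    rw [le_div_iff₀ (by positivity)] at h1
    linarith
  have hεσ' : ε ≤ σ0 * δ ^ 2 / 4 := by
    have : ε ≤ ε * CJ := le_mul_of_one_le_right hε0.le hCJ1
    linarith
  set K := m + m0 + 1 with hK
  -- elementary operations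
  set U : Matrix (Fin (n + 1)) (Fin (n + 1)) (PowerSeries ℝ) := bx 1 (fun _ => -ηs) 0 1 with hU
  set V : Matrix (Fin (n + 1)) (Fin (n + 1)) (PowerSeries ℝ) := bx 1 0 (fun _ => -σs) 1 with hV
  have hηr : ηs ∈ (phi S).range := mem_range_phi S η hηS
  have hσr : σs ∈ (phi S).range := mem_range_phi S σp hσS
  have hUE : U ∈ EL (phi S).range (Fin (n + 1)) := bx_row _ (fun _ => Subring.neg_mem _ hηr)
  have hVE : V ∈ EL (phi S).range (Fin (n + 1)) := bx_col _ (fun _ => Subring.neg_mem _ hσr)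
  have hrb : ∀ f ∈ (phi S).range, ∃ b, Bd ρ f b := fun f hf => (range_phi_le ρ hρ0 S hf).2
  have hDgb : ∀ i j, ∃ b, Bd ρ (Dg n Fs i j) b := by
    intro i j
    refine Fin.cases ?_ (fun i => ?_) i <;> refine Fin.cases ?_ (fun j => ?_) j
    · exact Bd.poly hρ0 F
    · exact ⟨0, Bd.zero⟩
    · exact ⟨0, Bd.zero⟩
    · simp only [Dg, bx_ss, Matrix.one_apply]
      split_ifs
      · exact ⟨1, Bd.one hρ0⟩
      · exact ⟨0, Bd.zero⟩
  have hUDb : ∀ i j, ∃ b, Bd ρ ((U * Dg n Fs) i j) b := by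
    intro i j
    rw [Matrix.mul_apply]
    choose b1 hb1 using fun i j => hrb _ (EL.entries hUE i j)
    choose b2 hb2 using hDgb
    exact ⟨_, Bd.sum hρ0 _ _ (fun k => b1 i k * b2 k j) (fun k _ => (hb1 i k).mul hρ0 (hb2 k j))⟩
  obtain ⟨δ1, hδ1, hmu1⟩ := MCl.mul (K := K) hρ0 (U * Dg n Fs) V hUDb (fun i j => hrb _ (EL.entries hVE i j)) ε hε0
  obtain ⟨δ2, hδ2, hmu2⟩ := MCl.mul (K := K) hρ0 U (Dg n Fs) (fun i j => hrb _ (EL.entries hUE i j)) hDgb δ1 hδ1
  have hself : ∀ (X : Matrix (Fin (n + 1)) (Fin (n + 1)) (PowerSeries ℝ)) (e : ℝ), 0 < e → MCl ρ K e X X := by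
    intro X e he i j
    rw [Cl, sub_self]; exact ⟨Bd.zero.le he.le, dvd_zero _⟩
  obtain ⟨P, hP, Q, hQ, hPQ⟩ := happ K δ2 hδ2
  have hcl := hmu1 _ _ (hmu2 _ _ (hself U δ2 hδ2) hPQ) (hself V δ1 hδ1)
  set Mp : MP n := U * (P * M * Q) * V with hMp
  have hMpe : Mp = (U * P) * M * (Q * V) := by rw [hMp]; simp only [mul_assoc]
  have hMpr : ∀ i j, Mp i j ∈ (phi S).range := by
    intro i j
    rw [hMpe, Matrix.mul_apply]
    apply Subring.sum_mem
    intro k _
    apply Subring.mul_mem _ _ (EL.entries (Submonoid.mul_mem _ hQ hVE) _ _)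
    rw [Matrix.mul_apply]
    exact Subring.sum_mem _ fun l _ => Subring.mul_mem _ (EL.entries (Submonoid.mul_mem _ hUE hP) _ _) (hM _ _)
  -- polynomial entries
  have hpoly : ∀ i j, ∃ p : Polynomial ℝ, (∀ k, p.coeff k ∈ S) ∧ (p : PowerSeries ℝ) = Mp i j := by
    intro i j
    obtain ⟨p0, hp0⟩ := hMpr i j
    refine ⟨p0.map S.subtype, fun k => ?_, hp0⟩
    rw [Polynomial.coeff_map]; exact (p0.coeff k).2
  choose M2f hM2S hM2e using hpoly
  set M2 : Matrix (Fin (n + 1)) (Fin (n + 1)) (Polynomial ℝ) := Matrix.of M2f with hM2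
  have hM2Mp : (Matrix.of fun i j => ((M2 i j : Polynomial ℝ) : PowerSeries ℝ) : MP n) = Mp := by
    ext1 i j
    rw [Matrix.of_apply, hM2, Matrix.of_apply, hM2e]
  -- the ideal matrix
  have hM0 : U * Dg n Fs * V = bx (Fs + (n : PowerSeries ℝ) * (ηs * σs)) (fun _ => -ηs) (fun _ => -σs) 1 := by
    rw [hU, hV, Dg, bx_mul, bx_mul]
    apply bx_ext
    · simp [dotProduct]
    · intro j; simp
    · intro i; simp
    · intro i j; simp [vecMulVec_apply]
  rw [hM0] at hcl
  -- differences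
  set M0 : MP n := bx (Fs + (n : PowerSeries ℝ) * (ηs * σs)) (fun _ => -ηs) (fun _ => -σs) 1 with hM0def
  set d : Fin (n + 1) → Fin (n + 1) → PowerSeries ℝ := fun i j => M0 i j - Mp i j with hd
  have hdB : ∀ i j, Bd y (d i j) ε := fun i j => (hcl i j).1.mono hy.le hyρ
  have hdX : ∀ i j, PowerSeries.X ^ K ∣ d i j := fun i j => (hcl i j).2
  have hdc : ∀ i j k, k < K → PowerSeries.coeff k (d i j) = 0 := fun i j k hk => PowerSeries.X_pow_dvd_iff.mp (hdX i j) k hk
  have hMpd : ∀ i j, Mp i j = M0 i j - d i j := by intro i j; simp only [hd]; ring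
  -- abbreviations for the perturbation `n η σ - d`
  have hnB : ∀ i, Bd y ((n : PowerSeries ℝ) * (ηs * σs) - d i i) (N * bη * σ0 + ε) := by
    intro i
    apply Bd.sub hy.le _ (hdB i i)
    have h1 : Bd y (n : PowerSeries ℝ) N := by
      have h2 := Bd.C hy.le (n : ℝ)
      rw [Real.norm_of_nonneg (by positivity)] at h2
      have h3 : (PowerSeries.C (n : ℝ) : PowerSeries ℝ) = (n : PowerSeries ℝ) := by simp
      rw [h3] at h2
      exact h2.le (by linarith)
    have h2 := h1.mul hy.le (hηB.mul hy.le hσB)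
    apply h2.le
    apply le_of_eq; ring
  have hησX : PowerSeries.X ^ (m0 + 1) ∣ (n : PowerSeries ℝ) * (ηs * σs) := Dvd.dvd.mul_left (Dvd.dvd.mul_right hXη _) _
  have hXK : (PowerSeries.X : PowerSeries ℝ) ^ (m0 + 1) ∣ PowerSeries.X ^ K := pow_dvd_pow _ (by omega)
  have hpertX : ∀ i, PowerSeries.X ^ (m0 + 1) ∣ ((n : PowerSeries ℝ) * (ηs * σs) - d i i) := fun i =>
    dvd_sub hησX (hXK.trans (hdX i i))
  -- the entries of `G`
  set G := divq Mp qs with hG
  have hGi0 : ∀ i, G i 0 = Mp i 0 * c := by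
    intro i
    rw [hG, divq, Matrix.of_apply]
    linear_combination (-(Mp i 0)) * hqc
  have hG00 : G 0 0 = (Fs + ((n : PowerSeries ℝ) * (ηs * σs) - d 0 0)) * c := by
    rw [hGi0, hMpd, hM0def, bx_00]; ring
  have hGs0 : ∀ i : Fin n, G i.succ 0 = -((σs + d i.succ 0) * c) := by
    intro i
    rw [hGi0, hMpd, hM0def, bx_s0]; ring
  have hG0s : ∀ j : Fin n, G 0 j.succ = (Fs * b - ηs) + (((n : PowerSeries ℝ) * (ηs * σs) - d 0 0) * b - d 0 j.succ) := by
    intro j
    rw [hG, divq, Matrix.of_apply, hMpd, hMpd, hM0def, bx_0s, bx_00, hb]; ring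
  have hGss : ∀ i j : Fin n, G i.succ j.succ = (1 : Matrix (Fin n) (Fin n) (PowerSeries ℝ)) i j -
      (σs * b + (d i.succ j.succ + d i.succ 0 * b)) := by
    intro i j
    rw [hG, divq, Matrix.of_apply, hMpd, hMpd, hM0def, bx_ss, bx_s0, hb]; ring
  have h1ss : ∀ (i j : Fin n) (k : ℕ), 1 ≤ k → PowerSeries.coeff k ((1 : Matrix (Fin n) (Fin n) (PowerSeries ℝ)) i j) = 0 := by
    intro i j k hk
    rw [Matrix.one_apply]
    split_ifs
    · rw [PowerSeries.coeff_one, if_neg (by omega)]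
    · simp
  -- bounds
  have hlarge00 : ∀ k, |PowerSeries.coeff k (((n : PowerSeries ℝ) * (ηs * σs) - d 0 0) * c) * y ^ k| ≤ R / 2 := by
    intro k
    refine (conv_le hy.le (hnB 0) hcabs k).trans ?_
    have h1 : N * bη * σ0 ≤ N * bη * σ0 * CJ := le_mul_of_one_le_right (by positivity) hCJ1
    linarith
  have hlarge0s : ∀ (j : Fin n) k, |PowerSeries.coeff k (((n : PowerSeries ℝ) * (ηs * σs) - d 0 0) * b - d 0 j.succ) * y ^ k| ≤ R / 2 := by
    intro j k
    rw [map_sub, sub_mul]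
    refine (abs_sub _ _).trans ?_
    have h1 := conv_le hy.le (hnB 0) hbabs k
    have h2 := (hdB 0 j.succ).coeff hy.le k
    rw [Real.norm_eq_abs] at h2
    have h3 : |PowerSeries.coeff k (d 0 j.succ) * y ^ k| = |PowerSeries.coeff k (d 0 j.succ)| * y ^ k := by
      rw [abs_mul, abs_of_pos (hyk k)]
    rw [h3]
    have h4 : N * bη * σ0 ≤ N * bη * σ0 * CJ := le_mul_of_one_le_right (by positivity) hCJ1
    linarith
  have hsσc := hσlow c (fun k hk => hulow k hk)
  have hsσb := hσlow b hblow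
  have hs0 : ∀ (i : Fin n) k, K ≤ k → PowerSeries.coeff k (G i.succ 0) * y ^ k ≤ -(σ0 * δ ^ 2 / 2) := by
    intro i k hk
    rw [hGs0, map_neg, add_mul, map_add]
    have h1 := hsσc k hk
    have h2 := (abs_le.mp (conv_le hy.le (hdB i.succ 0) hcabs k)).1
    have h3 : 0 < σ0 * δ ^ 2 := by positivity
    rw [neg_mul, add_mul]
    linarith only [h1, h2, h3, hεσ']
  have hss : ∀ (i j : Fin n) k, K ≤ k → PowerSeries.coeff k (G i.succ j.succ) * y ^ k ≤ -(σ0 * δ ^ 2 / 2) := by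
    intro i j k hk
    rw [hGss, map_sub, h1ss i j k (by omega), map_add, map_add, zero_sub]
    have h1 := hsσb k hk
    have h2 := (abs_le.mp (conv_le hy.le (hdB i.succ 0) hbabs k)).1
    have h4 := (hdB i.succ j.succ).coeff hy.le k
    rw [Real.norm_eq_abs] at h4
    have h5 : -(|PowerSeries.coeff k (d i.succ j.succ)| * y ^ k) ≤ PowerSeries.coeff k (d i.succ j.succ) * y ^ k := by
      have := mul_le_mul_of_nonneg_right (neg_abs_le (PowerSeries.coeff k (d i.succ j.succ))) (hyk k).le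
      linarith
    have h3 : 0 < σ0 * δ ^ 2 := by positivity
    rw [neg_mul, add_mul, add_mul]
    linarith only [h1, h2, h3, h4, h5, hεσ']
  have hev : ∀ i j, EvNeg y (G i j) := by
    intro i j
    refine Fin.cases ?_ (fun i => ?_) i <;> refine Fin.cases ?_ (fun j => ?_) j
    · refine ⟨R / 2, by linarith, ?_⟩
      filter_upwards [eventually_ge_atTop k0] with k hk
      rw [hG00, add_mul, map_add, add_mul]
      have h1 := hk0 k hk
      have h2 := (abs_le.mp (hlarge00 k)).2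
      linarith
    · refine ⟨R / 2, by linarith, ?_⟩
      filter_upwards [eventually_ge_atTop (m0 + 1)] with k hk
      rw [hG0s, map_add, add_mul]
      have h1 := hZ1 k hk
      have h2 := (abs_le.mp (hlarge0s j k)).2
      linarith
    · refine ⟨σ0 * δ ^ 2 / 2, by positivity, ?_⟩
      filter_upwards [eventually_ge_atTop K] with k hk
      exact hs0 i k hk
    · refine ⟨σ0 * δ ^ 2 / 2, by positivity, ?_⟩
      filter_upwards [eventually_ge_atTop K] with k hk
      exact hss i j k hk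
  have hof : ∀ (f : PowerSeries ℝ) (k : ℕ), PowerSeries.coeff k f * y ^ k ≤ 0 → PowerSeries.coeff k f ≤ 0 := by
    intro f k h
    by_contra hcon
    push Not at hcon
    have := mul_pos hcon (hyk k)
    linarith
  have hof' : ∀ (x : ℝ) (k : ℕ), x * y ^ k ≤ 0 → x ≤ 0 := by
    intro x k h
    by_contra hcon
    push Not at hcon
    have := mul_pos hcon (hyk k)
    linarith only [this, h]
  have hneg : ∀ k, 1 ≤ k → ∀ i j, PowerSeries.coeff k (colmul G w i j) ≤ 0 := by
    intro k hk i j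
    refine Fin.cases ?_ (fun i => ?_) i <;> refine Fin.cases ?_ (fun j => ?_) j
    · rw [colmul_0, hG00, add_mul, add_mul, map_add]
      by_cases hkm : k ≤ m0
      · have h1 : PowerSeries.coeff k (((n : PowerSeries ℝ) * (ηs * σs) - d 0 0) * c * w) = 0 :=
          PowerSeries.X_pow_dvd_iff.mp (Dvd.dvd.mul_right (Dvd.dvd.mul_right (hpertX 0) c) w) k (by omega)
        rw [h1, add_zero]
        exact hbase1 k hk
      · have h1 := hbase2 k (by omega)
        have h2 : |PowerSeries.coeff k (((n : PowerSeries ℝ) * (ηs * σs) - d 0 0) * c * w) * y ^ k| ≤ κ / 2 := by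
          have h3 : ((n : PowerSeries ℝ) * (ηs * σs) - d 0 0) * c * w = (((n : PowerSeries ℝ) * (ηs * σs) - d 0 0) * w) * c := by ring
          rw [h3]
          refine (conv_le hy.le ((hnB 0).mul hy.le hCJb) hcabs k).trans ?_
          rw [add_mul]
          linarith
        refine hof' _ k ?_
        rw [add_mul]
        have h3 := (abs_le.mp h2).2
        linarith only [h1, h3, hκ]
    · rw [colmul_ne _ _ _ _ (Fin.succ_ne_zero j), hG0s]
      by_cases hkm : k ≤ m0
      · rw [map_add, hZ0 k hkm, zero_add]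
        apply le_of_eq
        apply PowerSeries.X_pow_dvd_iff.mp (dvd_sub (Dvd.dvd.mul_left hXb _) (hXK.trans (hdX 0 j.succ))) k
        omega
      · apply hof
        rw [map_add, add_mul]
        have h1 := hZ1 k (by omega)
        have h2 := (abs_le.mp (hlarge0s j k)).2
        linarith
    · rw [colmul_0, hGs0]
      have e1 : -((σs + d i.succ 0) * c) * w = -(σs * (c * w)) - (d i.succ 0 * w) * c := by ring
      rw [e1, map_sub, map_neg]
      have hcw : ∀ k, 0 ≤ PowerSeries.coeff k (c * w) := mul_nn hcnn hwnn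
      by_cases hkK : k < K
      · have h1 : PowerSeries.coeff k (d i.succ 0 * w * c) = 0 :=
          PowerSeries.X_pow_dvd_iff.mp (Dvd.dvd.mul_right (Dvd.dvd.mul_right (hdX i.succ 0) w) c) k hkK
        rw [h1, sub_zero, neg_nonpos]
        exact mul_nn hσnn hcw k
      · refine hof' _ k ?_
        rw [sub_mul, neg_mul]
        have h1 := hσlow (c * w) (fun k hk => by
          have h2 := mul_ge hcnn hwnn hw0 k
          have h3 := hulow k hk
          have h4 := mul_le_mul_of_nonneg_right h2 (hyk k).le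
          linarith) k (by omega)
        have h2 := (abs_le.mp (conv_le hy.le ((hdB i.succ 0).mul hy.le hCJb) hcabs k)).1
        have h3 : 0 < σ0 * δ ^ 2 := by positivity
        linarith only [h1, h2, h3, hεσ]
    · rw [colmul_ne _ _ _ _ (Fin.succ_ne_zero j)]
      by_cases hkK : k < K
      · rw [hGss, map_sub, h1ss i j k hk, zero_sub, neg_nonpos, map_add]
        have h1 : PowerSeries.coeff k (d i.succ j.succ + d i.succ 0 * b) = 0 :=
          PowerSeries.X_pow_dvd_iff.mp (dvd_add (hdX i.succ j.succ) (Dvd.dvd.mul_right (hdX i.succ 0) b)) k hkK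
        rw [h1, add_zero]
        exact mul_nn hσnn hbnn k
      · apply hof
        have h1 := hss i j k (by omega)
        have h3 : 0 < σ0 * δ ^ 2 := by positivity
        linarith
  have hM20 : ∀ i j, (M2 i j).coeff 0 = if i = j then 1 else 0 := by
    intro i j
    have h1 : PowerSeries.coeff 0 (Mp i j) = PowerSeries.coeff 0 (M0 i j) := by
      rw [hMpd, map_sub, hdc i j 0 (by omega), sub_zero]
    have h2 : (M2 i j).coeff 0 = PowerSeries.coeff 0 (Mp i j) := by
      rw [← hM2e i j, Polynomial.coeff_coe]; rfl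
    have hη0 : PowerSeries.coeff 0 ηs = 0 := PowerSeries.X_pow_dvd_iff.mp hXη 0 (by omega)
    have hσ00 : PowerSeries.coeff 0 σs = 0 := by
      rw [hσse, PowerSeries.coeff_C_mul, PowerSeries.coeff_X_pow, if_neg (by omega), mul_zero]
    have hησ0 : PowerSeries.coeff 0 ((n : PowerSeries ℝ) * (ηs * σs)) = 0 := PowerSeries.X_pow_dvd_iff.mp hησX 0 (by omega)
    rw [h2, h1, hM0def]
    refine Fin.cases ?_ (fun i => ?_) i <;> refine Fin.cases ?_ (fun j => ?_) j
    · rw [bx_00, map_add, hησ0, hFs, Polynomial.coeff_coe, hF0]; simp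
    · rw [bx_0s, map_neg, hη0, if_neg (Fin.succ_ne_zero j).symm, neg_zero]
    · rw [bx_s0, map_neg, hσ00, if_neg (Fin.succ_ne_zero i), neg_zero]
    · rw [bx_ss, Matrix.one_apply]
      simp only [Fin.succ_inj]
      split_ifs <;> simp
  have key := reductionM S M2 (fun i j k => hM2S i j k) hM20 q (2 * m0 + 1) (by omega) hqS
    (fun k => by
      by_cases h : m0 + 1 ≤ k ∧ k ≤ 2 * m0 + 1
      · exact (hqpos k h.1 h.2).le
      · rw [hqsupp k (by omega)])
    (hqsupp 0 (by omega))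
    (by
      rw [Polynomial.natDegree_le_iff_coeff_eq_zero]
      intro k hk
      exact hqsupp k (by omega))
    (hqpos _ (by omega) le_rfl) l y hy hl
    (by rw [hM2Mp]; exact hev) (by rw [hM2Mp]; exact hneg)
  refine ⟨U * P, Submonoid.mul_mem _ hUE hP, Q * V, Submonoid.mul_mem _ hQ hVE, M2, ?_, key⟩
  intro i j
  rw [← hMpe, ← hM2e i j]; rfl

end Pool.Agent.Helper605
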