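import Mathlib
import Pool.Agent.Helper605.Bez
import Pool.Agent.Helper605.Final

set_option autoImplicit false
set_option linter.all false

namespace Pool.Agent.Helper605

open Matrix Finset Polynomial

theorem trace_similar {n : ℕ} {K : Type*} [CommRing K] (A P Q : Matrix (Fin n) (Fin n) K) (h : P * Q = 1) (h' : Q * P = 1) (k : ℕ) :
    ((Q * A * P) ^ k).trace = (A ^ k).trace := by
  have h1 : (Q * A * P) ^ k = Q * A ^ k * P := by
    induction k with
    | zero => rw [pow_zero, pow_zero, mul_one, h']
    | succ k ih =>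
      rw [pow_succ, ih, pow_succ]
      calc Q * A ^ k * P * (Q * A * P) = Q * A ^ k * (P * Q) * A * P := by simp only [mul_assoc]
        _ = _ := by rw [h, mul_one]; simp only [mul_assoc]
  rw [h1, Matrix.trace_mul_comm, ← mul_assoc, h, one_mul]

theorem charpoly_similar {n : ℕ} {K : Type*} [CommRing K] (A P Q : Matrix (Fin n) (Fin n) K) (h : P * Q = 1) (h' : Q * P = 1) :
    (Q * A * P).charpoly = A.charpoly := by
  have h1 : charmatrix (Q * A * P) = Q.map C * charmatrix A * P.map C := by
    unfold charmatrix
    rw [mul_sub, sub_mul]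
    congr 1
    · have h2 : Q.map C * P.map C = (1 : Matrix (Fin n) (Fin n) K[X]) := by
        rw [← Matrix.map_mul, h']; exact Matrix.map_one C (map_zero C) (map_one C)
      rw [← (Matrix.scalar_commute (n := Fin n) (X : K[X]) (fun r => mul_comm _ _) (Q.map C)).eq, mul_assoc, h2, mul_one]
    · change (Q * A * P).map C = Q.map C * A.map C * P.map C
      rw [Matrix.map_mul, Matrix.map_mul]
  have h3 : (P.map C).det * (Q.map C : Matrix (Fin n) (Fin n) K[X]).det = 1 := by
    rw [← Matrix.det_mul, ← Matrix.map_mul, h, Matrix.map_one C (map_zero C) (map_one C), Matrix.det_one]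
  rw [Matrix.charpoly, h1, Matrix.det_mul, Matrix.det_mul, Matrix.charpoly]
  calc (Q.map C).det * (charmatrix A).det * (P.map C).det = (charmatrix A).det * ((P.map C).det * (Q.map C).det) := by ring
    _ = _ := by rw [h3, mul_one]

theorem trace_pow_roots : ∀ (n : ℕ) (A : Matrix (Fin n) (Fin n) ℂ) (k : ℕ),
    (A ^ k).trace = (A.charpoly.roots.map fun z => z ^ k).sum := by
  intro n
  induction n with
  | zero =>
    intro A k
    have h1 : A.charpoly = 1 := by simp [Matrix.charpoly]
    rw [h1]
    simp [Matrix.trace]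
  | succ n ih =>
    intro A k
    have hdeg : A.charpoly.natDegree = n + 1 := by simp
    have hne : A.charpoly ≠ 0 := (Matrix.charpoly_monic A).ne_zero
    obtain ⟨μ, hμ⟩ := IsAlgClosed.exists_root A.charpoly (by
      rw [Polynomial.degree_eq_natDegree hne, hdeg]
      exact_mod_cast (by omega : n + 1 ≠ 0))
    have hdet : (Matrix.scalar (Fin (n + 1)) μ - A).det = 0 := by
      rw [← Matrix.eval_charpoly]; exact hμ
    obtain ⟨v, hv0, hv⟩ := Matrix.exists_vecMul_eq_zero_iff.mpr hdet
    have hvA : v ᵥ* A = μ • v := by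
      rw [Matrix.vecMul_sub, sub_eq_zero] at hv
      rw [← hv]
      funext j
      simp [Matrix.vecMul, dotProduct, Matrix.scalar_apply, Matrix.diagonal_apply, mul_comm]
    obtain ⟨Q, hQ, hQz⟩ := bez n v
    obtain ⟨Q', hQ', h1, h2⟩ := EL.inv hQ
    set c := (v ᵥ* Q) 0 with hc
    have hvQ : v ᵥ* Q = Pi.single 0 c := by
      funext j
      by_cases hj : j = 0
      · subst hj; simp [hc]
      · rw [hQz j hj, Pi.single_eq_of_ne hj]
    have hc0 : c ≠ 0 := by
      intro h0
      apply hv0
      rw [h0, Pi.single_zero] at hvQ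
      calc v = v ᵥ* (Q * Q') := by rw [h1, Matrix.vecMul_one]
        _ = 0 := by rw [← Matrix.vecMul_vecMul, hvQ, Matrix.zero_vecMul]
    set B := Q' * A * Q with hB
    have hrow : ∀ j, B 0 j = if j = 0 then μ else 0 := by
      intro j
      have e1 : (Pi.single 0 c : Fin (n + 1) → ℂ) ᵥ* B = μ • Pi.single 0 c := by
        rw [← hvQ, hB, Matrix.vecMul_vecMul, ← mul_assoc, ← mul_assoc, h1, one_mul, ← Matrix.vecMul_vecMul, hvA,
          Matrix.smul_vecMul]
      have e2 := congrFun e1 j
      rw [Matrix.single_vecMul] at e2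
      simp only [Pi.smul_apply, smul_eq_mul] at e2
      have e3 : c * B 0 j = μ * (Pi.single 0 c : Fin (n + 1) → ℂ) j := by simpa using e2
      by_cases hj : j = 0
      · subst hj
        rw [Pi.single_eq_same, mul_comm μ] at e3
        rw [if_pos rfl]
        exact mul_left_cancel₀ hc0 e3
      · rw [Pi.single_eq_of_ne hj, mul_zero] at e3
        rw [if_neg hj]
        exact (mul_eq_zero.mp e3).resolve_left hc0
    set B' : Matrix (Fin n) (Fin n) ℂ := Matrix.of fun i j => B i.succ j.succ with hB'
    have hBe : B = bx μ 0 (fun i => B i.succ 0) B' := by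
      apply bx_ext
      · rw [hrow 0, if_pos rfl]; rfl
      · intro j; rw [hrow, if_neg (Fin.succ_ne_zero j)]; rfl
      · intro i; rfl
      · intro i j; rfl
    have hpow : ∀ k, ∃ y, B ^ k = bx (μ ^ k) 0 y (B' ^ k) := by
      intro k
      induction k with
      | zero => exact ⟨0, by rw [pow_zero, pow_zero, pow_zero, bx_one]⟩
      | succ k ih =>
        obtain ⟨y, hy⟩ := ih
        refine ⟨fun i => y i * μ + ((B' ^ k) *ᵥ (fun i => B i.succ 0)) i, ?_⟩
        rw [pow_succ, hy]
        conv_lhs => rw [hBe]
        rw [bx_mul]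
        apply bx_ext
        · simp [pow_succ]
        · intro j; simp
        · intro i; simp
        · intro i j; simp [vecMulVec_apply, pow_succ]
    have htr : (B ^ k).trace = μ ^ k + (B' ^ k).trace := by
      obtain ⟨y, hy⟩ := hpow k
      rw [hy, Matrix.trace, Fin.sum_univ_succ]
      simp [Matrix.trace]
    have hch : B.charpoly = (X - C μ) * B'.charpoly := by
      have : charmatrix B = bx (X - C μ) 0 (fun i => - C (B i.succ 0)) (charmatrix B') := by
        apply bx_ext
        · rw [charmatrix_apply_eq, hrow 0, if_pos rfl]; rfl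
        · intro j
          rw [charmatrix_apply_ne _ _ _ (Fin.succ_ne_zero j).symm, hrow, if_neg (Fin.succ_ne_zero j)]; simp
        · intro i
          rw [charmatrix_apply_ne _ _ _ (Fin.succ_ne_zero i)]; rfl
        · intro i j
          rw [bx_ss]
          by_cases hij : i = j
          · subst hij
            rw [charmatrix_apply_eq, charmatrix_apply_eq]; rfl
          · rw [charmatrix_apply_ne _ _ _ (fun h => hij (Fin.succ_injective _ h)), charmatrix_apply_ne _ _ _ hij]; rfl
      rw [Matrix.charpoly, this, bx_det_row]; rfl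
    have hsim1 : (B ^ k).trace = (A ^ k).trace := trace_similar A Q Q' h1 h2 k
    have hsim2 : B.charpoly = A.charpoly := charpoly_similar A Q Q' h1 h2
    rw [← hsim1, htr, ih B' k, ← hsim2, hch, Polynomial.roots_mul, Polynomial.roots_X_sub_C, Multiset.singleton_add,
      Multiset.map_cons, Multiset.sum_cons]
    exact mul_ne_zero (Polynomial.X_sub_C_ne_zero μ) (Matrix.charpoly_monic B').ne_zero

/-- The reversed characteristic polynomial as a product. -/
theorem charpolyRev_roots (n : ℕ) (A : Matrix (Fin n) (Fin n) ℂ) :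
    A.charpolyRev = (A.charpoly.roots.map fun z => (1 - C z * X : ℂ[X])).prod := by
  have hsplit : A.charpoly = (A.charpoly.roots.map fun z => (X - C z : ℂ[X])).prod := by
    have h1 := (IsAlgClosed.splits A.charpoly).eq_prod_roots
    rw [(Matrix.charpoly_monic A).leadingCoeff, C_1, one_mul] at h1
    exact h1
  have hcard : Multiset.card A.charpoly.roots = A.charpoly.natDegree := by
    have h1 := (IsAlgClosed.splits A.charpoly).natDegree_eq_card_roots
    exact h1.symm
  rw [← Matrix.reverse_charpoly, Polynomial.reverse, ← hcard]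
  have h2 := reflect_multiset A.charpoly.roots
  rw [← hsplit] at h2
  exact h2

end Pool.Agent.Helper605
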