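import Mathlib
import Pool.Agent.Helper605.Analytic
import Pool.Agent.Helper605.TraceR
import Pool.Agent.Helper605.Dense
import Pool.Agent.Helper605.PosM
import Pool.Agent.Helper605.SSEc
import Pool.Agent.Helper605.LinB

set_option autoImplicit false
set_option linter.all false

namespace Pool.Agent.Helper605

open Matrix Finset Polynomial

theorem rsse_of_sse (S : Subring ℝ) (X Y : Σ d : ℕ, Matrix (Fin d) (Fin d) S) (h : SSE X Y) :
    Relation.ReflTransGen
          (fun X Y : (Σ d : ℕ, Matrix (Fin d) (Fin d) ℝ) =>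
            ∃ (R : Matrix (Fin X.1) (Fin Y.1) ℝ) (T : Matrix (Fin Y.1) (Fin X.1) ℝ),
              (∀ i j, R i j ∈ S) ∧ (∀ i j, T i j ∈ S) ∧ X.2 = R * T ∧ Y.2 = T * R)
          ⟨X.1, X.2.map S.subtype⟩ ⟨Y.1, Y.2.map S.subtype⟩ := by
  refine Relation.ReflTransGen.lift (r := ESSE) (p := (fun X Y : (Σ d : ℕ, Matrix (Fin d) (Fin d) ℝ) =>
            ∃ (R : Matrix (Fin X.1) (Fin Y.1) ℝ) (T : Matrix (Fin Y.1) (Fin X.1) ℝ),
              (∀ i j, R i j ∈ S) ∧ (∀ i j, T i j ∈ S) ∧ X.2 = R * T ∧ Y.2 = T * R)) (fun Z : (Σ d : ℕ, Matrix (Fin d) (Fin d) S) =>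
    (⟨Z.1, Z.2.map S.subtype⟩ : Σ d : ℕ, Matrix (Fin d) (Fin d) ℝ)) ?_ X Y h
  rintro ⟨d, Z⟩ ⟨d', Z'⟩ ⟨P, Q, h1, h2⟩
  refine ⟨P.map S.subtype, Q.map S.subtype, fun i j => (P i j).2, fun i j => (Q i j).2, ?_, ?_⟩
  · change Z.map S.subtype = _
    have h1' : Z = P * Q := h1
    rw [h1', Matrix.map_mul]
  · change Z'.map S.subtype = _
    have h2' : Z' = Q * P := h2
    rw [h2', Matrix.map_mul]

theorem Dr_map {R R' : Type} [CommRing R] [CommRing R'] {N : ℕ} (f : R →+* R') (a : ℕ → ℕ → Matrix (Fin N) (Fin N) R) (k : ℕ) :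
    (Dr a k).map (Polynomial.mapRingHom f) = Dr (fun k j => (a k j).map f) k := by
  induction k using Nat.strong_induction_on with
  | _ k ih =>
    rcases k with _ | k
    · rw [Dr_zero, Dr_zero, Matrix.map_one _ (map_zero _) (map_one _)]
    · rw [Dr_succ, Dr_succ, ← ih k (by omega)]
      ext1 i j
      rw [Matrix.map_apply, Matrix.sub_apply, Matrix.sub_apply, Matrix.map_apply, map_sub, Matrix.sum_apply, Matrix.sum_apply,
        map_sum]
      congr 1
      apply Finset.sum_congr rfl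
      intro l hl
      rw [Finset.mem_range] at hl
      rw [← ih l (by omega), Matrix.smul_apply, Matrix.smul_apply, smul_eq_mul, smul_eq_mul, map_mul, map_pow,
        Matrix.mul_apply, Matrix.mul_apply, map_sum]
      congr 1
      · rw [Polynomial.coe_mapRingHom, Polynomial.map_X]
      · apply Finset.sum_congr rfl
        intro i' _
        rw [map_mul, Matrix.map_apply, Matrix.map_apply, Matrix.map_apply, Matrix.map_apply]
        congr 1
        rw [Polynomial.coe_mapRingHom, Polynomial.map_C]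

theorem lin1_map {R R' : Type} [CommRing R] [CommRing R'] [Nontrivial R] [Nontrivial R'] {N : ℕ} (f : R →+* R') (A : Matrix (Fin N) (Fin N) R) :
    (lin1 A).map (Polynomial.mapRingHom f) = lin1 (A.map f) := by
  ext1 i j
  rw [Matrix.map_apply, lin1_apply, lin1_apply, map_sub, map_mul, Polynomial.coe_mapRingHom, Polynomial.map_X,
    Polynomial.map_C, Matrix.map_apply]
  congr 1
  split_ifs <;> simp

theorem lin1_det {R : Type} [CommRing R] {N : ℕ} (A : Matrix (Fin N) (Fin N) R) : (lin1 A).det = A.charpolyRev := rfl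

theorem charpolyRev_map' {R R' : Type} [CommRing R] [CommRing R'] [Nontrivial R] [Nontrivial R'] {N : ℕ} (f : R →+* R') (A : Matrix (Fin N) (Fin N) R) :
    A.charpolyRev.map f = (A.map f).charpolyRev := by
  rw [← lin1_det, ← lin1_det, ← lin1_map, ← Polynomial.coe_mapRingHom, RingHom.map_det]
  rfl

theorem main_case (S : Subring ℝ) (n : ℕ) (A : Matrix (Fin (n + 1)) (Fin (n + 1)) ℝ) (hA : ∀ i j, A i j ∈ S)
    (r : ℝ) (hr : 0 < r) (hr1 : S = ⊥ → 1 < r)
    (s : Multiset ℂ) (hs : (A.map (algebraMap ℝ ℂ)).charpoly.roots = (r : ℂ) ::ₘ s) (hsr : ∀ z ∈ s, ‖z‖ < r)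
    (hbot : S = ⊥ → ∀ m, 0 < m → 0 ≤ ∑ k ∈ m.divisors, ((ArithmeticFunction.moebius (m / k) : ℤ) : ℝ) * (A ^ k).trace)
    (hdense : S ≠ ⊥ → ∀ m, 0 < m → 0 ≤ (A ^ m).trace ∧ ∀ k, 0 < k → 0 < (A ^ m).trace → 0 < (A ^ (m * k)).trace) :
    ∃ (p : ℕ) (B : Matrix (Fin p) (Fin p) ℝ),
        0 < p ∧ (∀ i j, B i j ∈ S) ∧ (∀ i j, 0 ≤ B i j) ∧
        (∃ k : ℕ, 0 < k ∧ ∀ i j, 0 < (B ^ k) i j) ∧
        Relation.ReflTransGen
          (fun X Y : (Σ d : ℕ, Matrix (Fin d) (Fin d) ℝ) =>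
            ∃ (R : Matrix (Fin X.1) (Fin Y.1) ℝ) (T : Matrix (Fin Y.1) (Fin X.1) ℝ),
              (∀ i j, R i j ∈ S) ∧ (∀ i j, T i j ∈ S) ∧ X.2 = R * T ∧ Y.2 = T * R)
          ⟨n + 1, A⟩ ⟨p, B⟩ := by
  set AS : Matrix (Fin (n + 1)) (Fin (n + 1)) S := Matrix.of fun i j => ⟨A i j, hA i j⟩ with hAS
  have hASA : AS.map S.subtype = A := by ext i j; rfl
  set F : Polynomial ℝ := A.charpolyRev with hF
  have hFmap : AS.charpolyRev.map S.subtype = F := by rw [charpolyRev_map', hASA]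
  have hFS : ∀ k, F.coeff k ∈ S := by
    intro k
    rw [← hFmap, Polynomial.coeff_map]
    exact (AS.charpolyRev.coeff k).2
  have hFC : F.map (algebraMap ℝ ℂ) = (((r : ℂ) ::ₘ s).map fun z => (1 - Polynomial.C z * Polynomial.X : Polynomial ℂ)).prod := by
    rw [hF, charpolyRev_map', charpolyRev_roots, hs]
  have hF0 : F.coeff 0 = 1 := by
    rw [Polynomial.coeff_zero_eq_eval_zero, hF, Matrix.eval_charpolyRev]
  have ht : ∀ k, 1 ≤ k → (((A ^ k).trace : ℝ) : ℂ) = (((r : ℂ) ::ₘ s).map fun z => z ^ k).sum := by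
    intro k hk
    rw [← hs, ← trace_pow_roots]
    have h1 : (A.map (algebraMap ℝ ℂ)) ^ k = (A ^ k).map (algebraMap ℝ ℂ) := by
      have := (map_pow (RingHom.mapMatrix (algebraMap ℝ ℂ)) A k).symm
      exact this
    rw [h1, Matrix.trace, Matrix.trace]
    push_cast
    rfl
  obtain ⟨ρ, hρ0, hrρ, hsρ, hρ1, q, m0, y, δ, κ, l, hqS, hy, hyρ, hκ, hqsupp, hqpos, hren, hevF, hl, hbase1, hbase2, hsmall⟩ :=
    analytic S r hr hr1 s hsr F hFS hF0 hFC (fun k => (A ^ k).trace) ht hbot hdense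
  obtain ⟨P, hFP, hPm⟩ := factor s r hr F hFC
  have hP0 : P.coeff 0 = 1 := by
    have h1 := congrArg (fun p : Polynomial ℝ => p.coeff 0) hFP
    rw [hF0, Polynomial.mul_coeff_zero] at h1
    simpa using h1.symm
  have hPU := isU_of_roots hρ0.le s hsρ P hPm hP0
  set M : Matrix (Fin (n + 1)) (Fin (n + 1)) (PowerSeries ℝ) := (lin1 AS).map (phi S) with hM
  have hMe : ∀ i j, M i j = (if i = j then 1 else 0) - PowerSeries.X * PowerSeries.C (A i j) := by
    intro i j
    rw [hM, Matrix.map_apply, lin1_apply, phi_apply]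
    have h1 : (AS i j : ℝ) = A i j := rfl
    split_ifs
    · simp [h1]; ring
    · simp [h1]; ring
  have hMdet : M.det = (F : PowerSeries ℝ) := by
    have h1 : M.det = phi S (lin1 AS).det := by
      rw [RingHom.map_det]; rfl
    rw [h1, phi_apply, lin1_det, hFmap]
  have hMr : ∀ i j, M i j ∈ (phi S).range := fun i j => ⟨lin1 AS i j, rfl⟩
  have hdet : M.det = (1 - PowerSeries.C r * PowerSeries.X) * (P : PowerSeries ℝ) := by
    rw [hMdet, hFP, Polynomial.coe_mul]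
    simp
  have happ := fun K ε hε => structure_poly hρ0 hr hrρ S hρ1 n A hA M hMe (P : PowerSeries ℝ) hPU hdet K ε hε
  rw [hMdet] at happ
  obtain ⟨P1, hP1, Q1, hQ1, M2, hM2, m, a, haS, ha0, ha1, ha2, hDr⟩ :=
    posM S F q hFS hF0 hqS m0 y ρ δ κ hy hyρ hκ hqsupp hqpos hren hevF l hl hbase1 hbase2 hsmall M hMr happ
  obtain ⟨P0, hP0', hP01⟩ := EL.lift (phi S) (T' := (phi S).range) (fun b hb => hb) hP1
  obtain ⟨Q0, hQ0', hQ01⟩ := EL.lift (phi S) (T' := (phi S).range) (fun b hb => hb) hQ1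
  set aS : ℕ → ℕ → Matrix (Fin (n + 1)) (Fin (n + 1)) S := fun k j => Matrix.of fun i i' => ⟨a k j i i', haS k j i i'⟩ with haSdef
  have haSmap : (fun k j => (aS k j).map S.subtype) = a := by
    funext k j
    ext i i'
    rfl
  have hkey : P0 * lin1 AS * Q0 = Dr aS (m + 2) := by
    ext1 i j
    apply phi_inj S
    have h1 : phi S ((P0 * lin1 AS * Q0) i j) = (P1 * M * Q1) i j := by
      have : (P0 * lin1 AS * Q0).map (phi S) = P1 * M * Q1 := by
        rw [Matrix.map_mul, Matrix.map_mul, hP01, hQ01]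
      rw [← this, Matrix.map_apply]
    rw [h1, ← hM2, phi_apply]
    congr 1
    have h2 := Dr_map S.subtype aS (m + 2)
    rw [haSmap, hDr] at h2
    rw [← h2, Matrix.map_apply]
    rfl
  have hgen : ∀ (D : Matrix (Fin (n + 1)) (Fin (n + 1)) S[X]) (hD : P0 * lin1 AS * Q0 = D) (h : One0 D) {d : Fin (n + 1) → ℕ} (hd : DegB D d)
      {Y : Σ d : ℕ, Matrix (Fin d) (Fin d) S} (hY : Rep (btd D hd) Y), SSE ⟨n + 1, AS⟩ Y := by
    intro D hD
    subst hD
    intro h d hd Y hY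
    exact sse_of_EL AS P0 Q0 hP0' hQ0' h hd hY
  have hsse := hgen (Dr aS (m + 2)) hkey (Dr_one0 aS (m + 2)) (Dr_degB aS (m + 2)) (bh_rep aS (m + 2))
  have hfin := rsse_of_sse S _ _ hsse
  simp only [hASA] at hfin
  have hBeq : ∀ x y, ((Matrix.reindex finProdFinEquiv finProdFinEquiv (bh aS (m + 2))).map S.subtype :
      Matrix (Fin ((m + 2) * (n + 1))) (Fin ((m + 2) * (n + 1))) ℝ) x y =
      bh a (m + 2) (finProdFinEquiv.symm x) (finProdFinEquiv.symm y) := by
    intro x y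
    rw [Matrix.map_apply, Matrix.reindex_apply, Matrix.submatrix_apply]
    simp only [bh, Matrix.of_apply]
    rw [map_add]
    congr 1
    · split_ifs
      · rfl
      · exact map_zero _
    · split_ifs
      · exact map_one _
      · exact map_zero _
  refine ⟨(m + 2) * (n + 1), (Matrix.reindex finProdFinEquiv finProdFinEquiv (bh aS (m + 2))).map S.subtype, by positivity,
    fun i j => (Matrix.reindex finProdFinEquiv finProdFinEquiv (bh aS (m + 2)) i j).2, ?_, ?_, hfin⟩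
  · intro i j
    rw [hBeq]
    exact bh_nonneg a (m + 2) ha0 _ _
  · obtain ⟨K, hK, hKpos⟩ := bh_primitive a m ha0 ha1 ha2
    refine ⟨K, hK, fun i j => ?_⟩
    have h1 : ((Matrix.reindex finProdFinEquiv finProdFinEquiv (bh aS (m + 2))).map S.subtype :
      Matrix (Fin ((m + 2) * (n + 1))) (Fin ((m + 2) * (n + 1))) ℝ) =
      Matrix.reindexAlgEquiv ℝ ℝ finProdFinEquiv (bh a (m + 2)) := by
      ext x y
      rw [hBeq]
      rfl
    rw [h1, ← map_pow]
    exact hKpos _ _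

end Pool.Agent.Helper605
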