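import Mathlib

set_option autoImplicit false
set_option linter.all false

namespace Pool.Agent.Helper605.Sl

open Function

abbrev Pt := ℕ → ℕ
abbrev Fam := ℕ → Pt → Bool
abbrev Rule := ((ℕ → Bool) → ℕ → Bool) → (ℕ → Bool) → Prop

def bump (w : Pt) (ε : ℕ → Bool) : Pt := fun i => w i + (ε i).toNat

def o0 : ℕ → Bool := fun _ => false
def o1 (a : ℕ) : ℕ → Bool := fun k => decide (k = a)
def o2 (a b : ℕ) : ℕ → Bool := fun k => decide (k = a) || decide (k = b)

def Sat (ρ : Rule) (R : Fam) : Prop := ∀ w : Pt, ρ (fun ε j => R j (bump w ε)) (fun i => w i == 0)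

def Loc (D m : ℕ) (ρ : Rule) : Prop := ∀ A A' β β',
  (∀ ε, (∀ i, D ≤ i → ε i = false) → ∀ j, j < m → A ε j = A' ε j) → (∀ i, i < D → β i = β' i) → ρ A β → ρ A' β'

def Dep (D : ℕ) (r : Pt → Bool) : Prop := ∀ w w' : Pt, (∀ i, i < D → w i = w' i) → r w = r w'

structure Good (D m : ℕ) (R : Fam) (ρ : Rule) : Prop where
  loc : Loc D m ρ
  dep : ∀ j, j < m → Dep D (R j)
  sat : Sat ρ R
  uniq : ∀ R' : Fam, (∀ j, j < m → Dep D (R' j)) → Sat ρ R' → ∀ j, j < m → R' j = R j

theorem bump_o0 (w : Pt) : bump w o0 = w := by funext i; simp [bump, o0]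

theorem bump_o1 (w : Pt) (a : ℕ) : bump w (o1 a) = update w a (w a + 1) := by
  funext i
  by_cases h : i = a
  · subst h; simp [bump, o1]
  · simp [bump, o1, h]

theorem bump_o2 (w : Pt) (a b : ℕ) (hab : a ≠ b) : bump w (o2 a b) = update (update w a (w a + 1)) b (w b + 1) := by
  funext i
  by_cases h : i = b
  · subst h; simp [bump, o2]
  · by_cases h' : i = a
    · subst h'; simp [bump, o2, h]
    · simp [bump, o2, h, h']

theorem const_update (r : Pt → Bool) (k : ℕ) (h : ∀ w, r (bump w (o1 k)) = r w) (w : Pt) (a : ℕ) : r (update w k a) = r w := by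
  have h1 : ∀ a, r (update w k a) = r (update w k 0) := by
    intro a
    induction a with
    | zero => rfl
    | succ a ih =>
      rw [← ih, ← h (update w k a), bump_o1]
      simp
  rw [h1 a, ← h1 (w k), update_eq_self]

theorem dep_on (D : ℕ) (r : Pt → Bool) (hd : Dep D r) (S : ℕ → Prop)
    (hc : ∀ i, i < D → ¬ S i → ∀ w, r (bump w (o1 i)) = r w) (w w' : Pt) (h : ∀ i, S i → w i = w' i) : r w = r w' := by
  have key : ∀ k, k ≤ D → ∀ w w' : Pt, (∀ i, S i → w i = w' i) → (∀ i, k ≤ i → i < D → w i = w' i) → r w = r w' := by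
    intro k
    induction k with
    | zero => intro _ w w' _ h2; exact hd w w' fun i hi => h2 i (Nat.zero_le _) hi
    | succ k ih =>
      intro hk w w' h1 h2
      by_cases hS : S k
      · apply ih (by omega) w w' h1
        intro i hi1 hi2
        rcases Nat.eq_or_lt_of_le hi1 with h3 | h3
        · subst h3; exact h1 _ hS
        · exact h2 i h3 hi2
      · rw [← const_update r k (hc k (by omega) hS) w' (w k)]
        apply ih (by omega)
        · intro i hi
          have : i ≠ k := by rintro rfl; exact hS hi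
          rw [update_of_ne this]; exact h1 i hi
        · intro i hi1 hi2
          rcases Nat.eq_or_lt_of_le hi1 with h3 | h3
          · subst h3; simp
          · rw [update_of_ne (by omega)]; exact h2 i h3 hi2
  exact key D le_rfl w w' h fun i h1 h2 => by omega

theorem Good.extend {D m : ℕ} {R : Fam} {ρ : Rule} (h : Good D m R ρ) {D' m' : ℕ} (hD : D ≤ D') (hm : m ≤ m')
    (R1 : Fam) (hR1 : ∀ j, j < m → R1 j = R j) (ν : Rule) (hν : Loc D' m' ν) (hdep : ∀ j, j < m' → Dep D' (R1 j))
    (hsat : Sat ν R1)
    (huniq : ∀ R' : Fam, (∀ j, j < m → R' j = R j) → (∀ j, j < m' → Dep D' (R' j)) → Sat ν R' → ∀ j, j < m' → R' j = R1 j) :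
    ∃ ρ', Good D' m' R1 ρ' := by
  refine ⟨fun A β => ρ A β ∧ (∀ j, j < m → ∀ i, D ≤ i → i < D' → A (o1 i) j = A o0 j) ∧ ν A β, ?_, hdep, ?_, ?_⟩
  · rintro A A' β β' hA hβ ⟨h1, h2, h3⟩
    refine ⟨h.loc A A' β β' ?_ ?_ h1, ?_, hν A A' β β' hA hβ h3⟩
    · intro ε hε j hj
      exact hA ε (fun i hi => hε i (by omega)) j (by omega)
    · intro i hi; exact hβ i (by omega)
    · intro j hj i hi1 hi2
      rw [← hA (o1 i) (fun k hk => by simp [o1]; omega) j (by omega), ← hA o0 (fun k hk => rfl) j (by omega)]
      exact h2 j hj i hi1 hi2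
  · intro w
    refine ⟨?_, ?_, hsat w⟩
    · refine h.loc _ _ _ _ ?_ (fun i _ => rfl) (h.sat w)
      intro ε _ j hj
      simp only [hR1 j hj]
    · intro j hj i hi1 hi2
      simp only
      rw [hR1 j hj]
      apply h.dep j hj
      intro k hk
      rw [bump_o0, bump_o1, update_of_ne (by omega)]
  · intro R' hdep' hsat'
    have h1 : ∀ j, j < m → Dep D (R' j) := by
      intro j hj w w' hw
      apply dep_on D' (R' j) (hdep' j (by omega)) (fun i => i < D)
      · intro i hi1 hi2 w
        have := (hsat' w).2.1 j hj i (by simpa using hi2) hi1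
        simp only [bump_o0] at this
        exact this
      · intro i hi; exact hw i hi
    have h2 := h.uniq R' h1 (fun w => (hsat' w).1)
    exact huniq R' h2 hdep' fun w => (hsat' w).2.2

/-- Extension of the family, containing a given relation. -/
def Ext (P : ℕ → ℕ → Fam → Prop) : Prop := ∀ (D m : ℕ) (R : Fam) (ρ : Rule), Good D m R ρ →
  ∃ (D' m' : ℕ) (R' : Fam) (ρ' : Rule), D ≤ D' ∧ m ≤ m' ∧ (∀ j, j < m → R' j = R j) ∧ Good D' m' R' ρ' ∧ P D' m' R'

def Has (r : Pt → Bool) (D m : ℕ) (R : Fam) : Prop := ∃ j, j < m ∧ R j = r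

theorem upd_lt {R : Fam} {m j : ℕ} {r : Pt → Bool} (hj : j < m) : update R m r j = R j := update_of_ne (by omega) _ _

theorem eq_ext (a b : ℕ) (hab : a ≠ b) :
    Ext fun D' m' R' => a < D' ∧ b < D' ∧ Has (fun w => decide (w a = w b)) D' m' R' := by
  intro D m R ρ h
  set D' := max D (max (a + 1) (b + 1)) with hD'
  have ha : a < D' := by omega
  have hb : b < D' := by omega
  obtain ⟨ρ', hρ'⟩ := h.extend (D' := D') (m' := m + 1) (by omega) (by omega) (update R m fun w => decide (w a = w b))
    (fun j hj => upd_lt hj)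
    (fun A β => (β a = true → β b = true → A o0 m = true) ∧ (β a = true → β b = false → A o0 m = false) ∧
      (β a = false → β b = true → A o0 m = false) ∧ A (o2 a b) m = A o0 m ∧
      (∀ i, i < D' → i ≠ a → i ≠ b → A (o1 i) m = A o0 m))
    (by
      rintro A A' β β' hA hβ ⟨h1, h2, h3, h4, h5⟩
      have e0 := hA o0 (fun k hk => rfl) m (by omega)
      rw [← hβ a ha, ← hβ b hb, ← e0, ← hA (o2 a b) (fun k hk => by simp [o2]; omega) m (by omega)]
      refine ⟨h1, h2, h3, h4, ?_⟩
      intro i hi hia hib
      rw [← hA (o1 i) (fun k hk => by simp [o1]; omega) m (by omega)]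
      exact h5 i hi hia hib)
    (by
      intro j hj
      rcases Nat.lt_succ_iff_lt_or_eq.mp hj with h1 | h1
      · rw [upd_lt h1]
        intro w w' hw
        exact h.dep j h1 w w' fun i hi => hw i (by omega)
      · subst h1
        intro w w' hw
        simp only [update_self]
        rw [hw a ha, hw b hb])
    (by
      intro w
      simp only [update_self, bump_o0, bump_o2 w a b hab]
      refine ⟨?_, ?_, ?_, ?_, ?_⟩
      · intro h1 h2; simp at h1 h2; simp [h1, h2]
      · intro h1 h2; simp at h1 h2; simp [h1]; omega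
      · intro h1 h2; simp at h1 h2; simp [h2]; omega
      · simp [hab, update_of_ne hab]
      · intro i hi hia hib
        rw [bump_o1, update_of_ne (Ne.symm hia), update_of_ne (Ne.symm hib)])
    (by
      intro R' hR' hdep hsat j hj
      rcases Nat.lt_succ_iff_lt_or_eq.mp hj with h1 | h1
      · rw [hR' j h1, upd_lt h1]
      · subst h1
        rw [update_self]
        have key : ∀ k, ∀ w : Pt, w a = k → R' j w = decide (w a = w b) := by
          intro k
          induction k with
          | zero =>
            intro w hw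
            obtain ⟨h1, h2, h3, h4, h5⟩ := hsat w
            simp only [bump_o0] at h1 h2 h3 h4
            by_cases hwb : w b = 0
            · rw [h1 (by simp [hw]) (by simp [hwb])]; simp [hw, hwb]
            · rw [h2 (by simp [hw]) (by simp [hwb])]; simp [hw]; omega
          | succ k ih =>
            intro w hw
            by_cases hwb : w b = 0
            · obtain ⟨h1, h2, h3, h4, h5⟩ := hsat w
              simp only [bump_o0] at h1 h2 h3 h4
              rw [h3 (by simp [hw]) (by simp [hwb])]; simp [hw, hwb]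
            · set w0 : Pt := update (update w a k) b (w b - 1) with hw0
              have e1 : bump w0 (o2 a b) = w := by
                rw [bump_o2 w0 a b hab]
                funext i
                by_cases hi : i = b
                · subst hi; rw [update_self, hw0, update_self]; omega
                · rw [update_of_ne hi]
                  by_cases hi' : i = a
                  · subst hi'; rw [update_self, hw0, update_of_ne hab, update_self]; omega
                  · rw [update_of_ne hi', hw0, update_of_ne hi, update_of_ne hi']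
              obtain ⟨h1, h2, h3, h4, h5⟩ := hsat w0
              simp only [bump_o0, e1] at h4
              rw [h4, ih w0 (by rw [hw0, update_of_ne hab, update_self])]
              rw [hw0, update_of_ne hab, update_self, update_self, hw]
              congr 1
              apply propext
              omega
        funext w
        exact key _ w rfl)
  exact ⟨D', m + 1, _, ρ', by omega, by omega, fun j hj => upd_lt hj, hρ', ha, hb, m, by omega, by simp⟩

theorem add1 {D m : ℕ} {R : Fam} {ρ : Rule} (h : Good D m R ρ) (D' : ℕ) (hD : D ≤ D') (r : Pt → Bool) (hr : Dep D' r)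
    (ν : Rule) (hν : Loc D' (m + 1) ν) (hsat : Sat ν (update R m r))
    (huniq : ∀ r' : Pt → Bool, Dep D' r' → Sat ν (update R m r') → r' = r) :
    ∃ ρ', Good D' (m + 1) (update R m r) ρ' := by
  apply h.extend hD (by omega) _ (fun j hj => upd_lt hj) ν hν
  · intro j hj
    rcases Nat.lt_succ_iff_lt_or_eq.mp hj with h1 | h1
    · rw [upd_lt h1]
      intro w w' hw
      exact h.dep j h1 w w' fun i hi => hw i (by omega)
    · subst h1
      rw [update_self]
      exact hr
  · exact hsat
  · intro R' hR' hdep hs j hj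
    rcases Nat.lt_succ_iff_lt_or_eq.mp hj with h1 | h1
    · rw [hR' j h1, upd_lt h1]
    · subst h1
      rw [update_self]
      apply huniq _ (hdep j (by omega))
      intro w
      refine hν _ _ _ _ ?_ (fun i _ => rfl) (hs w)
      intro ε _ k hk
      rcases Nat.lt_succ_iff_lt_or_eq.mp hk with h2 | h2
      · simp only [upd_lt h2, hR' k h2]
      · subst h2; simp

/-- constancy in all coordinates below `D` outside `S`. -/
def cons1 (D : ℕ) (S : ℕ → Prop) (j : ℕ) : Rule := fun A _ => ∀ i, i < D → ¬ S i → A (o1 i) j = A o0 j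

theorem cons1_loc {D m : ℕ} {S : ℕ → Prop} {j : ℕ} (hj : j < m) : Loc D m (cons1 D S j) := by
  intro A A' β β' hA _ h i hi hS
  rw [← hA (o1 i) (fun k hk => by simp [o1]; omega) j hj, ← hA o0 (fun k hk => rfl) j hj]
  exact h i hi hS

theorem cons1_dep {D j : ℕ} {S : ℕ → Prop} {R : Fam} (h : Sat (cons1 D S j) R) (hd : Dep D (R j)) (w w' : Pt)
    (hw : ∀ i, S i → w i = w' i) : R j w = R j w' := by
  apply dep_on D (R j) hd S _ w w' hw
  intro i hi hS w
  have := h w i hi hS
  simp only [bump_o0] at this
  exact this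

theorem cons1_sat {D j : ℕ} {S : ℕ → Prop} {R : Fam} (h : ∀ w w' : Pt, (∀ i, S i → w i = w' i) → R j w = R j w') :
    Sat (cons1 D S j) R := by
  intro w i hi hS
  simp only
  apply h
  intro k hk
  rw [bump_o0, bump_o1, update_of_ne]
  rintro rfl
  exact hS hk

theorem dep_of {D : ℕ} {S : ℕ → Prop} {r : Pt → Bool} (hS : ∀ i, S i → i < D) (h : ∀ w w' : Pt, (∀ i, S i → w i = w' i) → r w = r w') :
    Dep D r := fun w w' hw => h w w' fun i hi => hw i (hS i hi)

theorem zero_ext (q : ℕ) : Ext fun D' m' R' => q < D' ∧ Has (fun w => decide (w q = 0)) D' m' R' := by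
  intro D m R ρ h
  obtain ⟨ρ', hρ'⟩ := add1 h (max D (q + 1)) (by omega) (fun w => decide (w q = 0))
    (dep_of (S := fun i => i = q) (by rintro i rfl; omega) (by intro w w' hw; rw [hw q rfl]))
    (fun A β => A o0 m = β q)
    (by
      intro A A' β β' hA hβ h1
      rw [← hA o0 (fun k hk => rfl) m (by omega), ← hβ q (by omega)]
      exact h1)
    (by intro w; simp [bump_o0, Bool.beq_eq_decide_eq])
    (by
      intro r' _ hs
      funext w
      have := hs w
      simp only [bump_o0, update_self] at this
      rw [this]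
      simp [Bool.beq_eq_decide_eq])
  exact ⟨_, m + 1, _, ρ', by omega, by omega, fun j hj => upd_lt hj, hρ', by omega, m, by omega, by simp⟩

theorem succ_ext (a b : ℕ) (hab : a ≠ b) :
    Ext fun D' m' R' => a < D' ∧ b < D' ∧ Has (fun w => decide (w b = w a + 1)) D' m' R' := by
  intro D m R ρ h
  obtain ⟨D1, m1, R1, ρ1, hD1, hm1, hR1, hG1, ha, hb, je, hje, hRe⟩ := eq_ext b a (Ne.symm hab) D m R ρ h
  obtain ⟨ρ', hρ'⟩ := add1 hG1 D1 le_rfl (fun w => decide (w b = w a + 1))
    (dep_of (S := fun i => i = a ∨ i = b) (by rintro i (rfl | rfl) <;> assumption)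
      (by intro w w' hw; rw [hw a (Or.inl rfl), hw b (Or.inr rfl)]))
    (fun A β => (β b = true → A o0 m1 = false) ∧ A (o1 b) m1 = A o0 je)
    (by
      rintro A A' β β' hA hβ ⟨h1, h2⟩
      rw [← hA o0 (fun k hk => rfl) m1 (by omega), ← hβ b ha, ← hA (o1 b) (fun k hk => by simp [o1]; omega) m1 (by omega),
        ← hA o0 (fun k hk => rfl) je (by omega)]
      exact ⟨h1, h2⟩)
    (by
      intro w
      simp only [bump_o0, bump_o1, update_self, upd_lt hje, hRe]
      refine ⟨?_, ?_⟩
      · intro h1; simp at h1; simp [h1]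
      · rw [update_of_ne hab]; simp)
    (by
      intro r' _ hs
      funext w
      by_cases hwb : w b = 0
      · have := (hs w).1 (by simp [hwb])
        simp only [bump_o0, update_self] at this
        rw [this]; simp [hwb]
      · have h2 := (hs (update w b (w b - 1))).2
        simp only [bump_o0, bump_o1, update_self, upd_lt hje, hRe] at h2
        have e1 : update (update w b (w b - 1)) b (w b - 1 + 1) = w := by
          rw [update_idem, Nat.sub_add_cancel (by omega), update_eq_self]
        rw [e1] at h2
        rw [h2, update_of_ne hab]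
        congr 1
        apply propext
        omega)
  exact ⟨D1, m1 + 1, _, ρ', hD1, by omega, fun j hj => by rw [upd_lt (by omega)]; exact hR1 j hj, hρ', hb, ha, m1, by omega, by simp⟩

end Pool.Agent.Helper605.Sl
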