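import Mathlib
import Pool.Agent.Helper605.SlComp

set_option autoImplicit false
set_option linter.all false

namespace Pool.Agent.Helper605.Sl

open Function

/-- Coordinates. -/
inductive Co (D : ℕ)
  | x | u | y | z | a | b
  | w (i : Fin D)
  deriving DecidableEq, Fintype

/-- Alphabet. -/
structure Cell (D m : ℕ) where
  U : Bool
  lam : Bool
  gam : Fin 4
  Y : Bool
  P : Bool
  Z : Bool
  f : Bool
  g : Bool
  Dd : Bool
  E : Bool
  N : Bool
  W : Fin D → Bool
  V : Fin D → Bool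
  R : Fin m → Bool

theorem Cell.finite (D m : ℕ) : Finite (Cell D m) := by
  let T := Bool × Bool × Fin 4 × Bool × Bool × Bool × Bool × Bool × Bool × Bool × Bool × (Fin D → Bool) × (Fin D → Bool) × (Fin m → Bool)
  have : Finite T := inferInstance
  refine Finite.of_injective (fun c : Cell D m => ((c.U, c.lam, c.gam, c.Y, c.P, c.Z, c.f, c.g, c.Dd, c.E, c.N, c.W, c.V, c.R) : T)) ?_
  rintro ⟨⟩ ⟨⟩ h
  simp only [Prod.mk.injEq] at h
  simp only [Cell.mk.injEq]
  exact h

def odd4 (g : Fin 4) : Bool := decide (g = 1) || decide (g = 3)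

variable {D m : ℕ}

def z0 : Co D → Bool := fun _ => false
def e1 (i : Co D) : Co D → Bool := fun k => decide (k = i)
def e2 (i j : Co D) : Co D → Bool := fun k => decide (k = i) || decide (k = j)
def ew (ε : ℕ → Bool) : Co D → Bool
  | .w i => ε i
  | _ => false

def off (ε : Co D → Bool) : Co D → ℤ := fun k => if ε k = true then 1 else 0

/-- mark of the first type, between a cell and its right neighbour (carrying label `g'`). -/
def kA (U lam : Bool) (g g' : Fin 4) : Bool := U && (decide (g ≠ g') && (odd4 g == lam))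
def kB (U lam : Bool) (g g' : Fin 4) : Bool := U && (decide (g ≠ g') && (odd4 g != lam))

/-- the main local rule -/
structure Main (ρ : Rule) (jf : Fin m) (i0 i1 i2 : Fin D) (p : (Co D → Bool) → Cell D m) : Prop where
  U_mono : (p z0).U = true → (p (e1 .u)).U = true
  lam : (p (e1 .u)).lam = !(p z0).lam
  gam0 : (p z0).U = false → (p z0).gam = 0
  R1 : (p z0).U = true → (p (e1 .x)).gam = (p z0).gam ∨ (p (e1 .x)).gam = (p z0).gam + 1
  R2 : (p z0).U = true → (odd4 (p (e1 .u)).gam = true ↔ (p z0).gam = 0)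
  Y0 : kA (p z0).U (p z0).lam (p z0).gam (p (e1 .x)).gam = false → (p z0).Y = false ∧ (p z0).P = false
  P1 : kA (p z0).U (p z0).lam (p z0).gam (p (e1 .x)).gam = true → (p (e1 .y)).P = xor (p z0).P (p (e1 .y)).Y
  Yfl : (p z0).U = false → kA (p (e1 .u)).U (p (e1 .u)).lam (p (e1 .u)).gam (p (e2 .u .x)).gam = true → (p (e1 .u)).Y = true
  Yst : (p z0).U = true → kA (p (e1 .u)).U (p (e1 .u)).lam (p (e1 .u)).gam (p (e2 .u .x)).gam = true →
    (p (e1 .u)).Y = if (p z0).f = true then (p z0).Y && (p z0).P else (p z0).Y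
  Z0 : kB (p z0).U (p z0).lam (p z0).gam (p (e1 .x)).gam = false → (p z0).Z = false
  Zm : (p z0).Z = true → (p (e1 .z)).Z = true
  f0 : (p z0).g = false → (p z0).f = false
  g0 : (p z0).U = false → (p z0).g = false
  gm : (p z0).g = true → (p (e1 .u)).g = true
  Dm : (p z0).Dd = true → (p (e1 .a)).Dd = true
  Db : (p (e1 .b)).Dd = true → (p z0).Dd = true
  E0 : (p z0).U = false → (p z0).E = false
  Efl : (p z0).U = false → (p (e1 .u)).U = true → (p (e1 .u)).E = (p (e1 .u)).Dd
  Est : (p z0).U = true → (p z0).g = false → (p (e2 .u .a)).E = (p z0).E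
  Eg : (p z0).g = true → (p z0).E = (p (e1 .b)).Dd
  Ei : (p z0).U = true → (p z0).E = false → (p (e1 .a)).E = true → (p (e1 .b)).Dd = false → (p (e2 .a .b)).Dd = true →
    (p z0).g = true
  N0 : (p z0).U = false → (p z0).N = false
  Nfl : (p z0).U = false → (p (e1 .u)).U = true → (p (e1 .u)).N = (!(p z0).W i0 && (p (e1 (.w i0))).W i0)
  Nst : (p z0).U = true → (p z0).g = false → (p (e2 .u (.w i0))).N = (p z0).N
  Nst' : (p z0).U = true → (p z0).g = true → (p (e1 .u)).N = (p z0).N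
  Wm : ∀ i, (p z0).W i = true → (p (e1 (.w i))).W i = true
  V0 : ∀ i, (p z0).U = false → (p z0).V i = false
  Vfl : ∀ i, (p z0).U = false → (p (e1 .u)).U = true → (p (e1 .u)).V i = (!(p z0).W i && (p (e1 (.w i))).W i)
  Vst : ∀ i, (p z0).U = true → (p (e2 .u (.w i))).V i = ((p (e1 (.w i))).V i || (p z0).V i)
  Rz : ¬ (∀ i, (p z0).V i = true) → ∀ j, (p z0).R j = false
  Rc : (∀ i, (p z0).V i = true) → ∀ j, (p (e1 .u)).R j = (p z0).R j
  Rr : (∀ i, (p z0).V i = true) → (∀ i, (p (e1 (.w i))).V i = true) →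
    ρ (fun ε j => if h : j < m then (p (ew ε)).R ⟨j, h⟩ else false)
      (fun i => if h : i < D then (!(p z0).W ⟨i, h⟩ && (p (e1 (.w ⟨i, h⟩))).W ⟨i, h⟩) else false)
  fr : (p z0).g = true → (p z0).N = true → (∀ i, (p z0).V i = true) → (p (e1 (.w i1))).V i1 = false →
    (p z0).W i2 = false → (p (e1 (.w i2))).W i2 = true → (p z0).f = (p z0).R jf

/-- each layer only depends on its own coordinates -/
structure Const (p : (Co D → Bool) → Cell D m) : Prop where
  U : ∀ k, k ≠ .u → (p (e1 k)).U = (p z0).U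
  lam : ∀ k, k ≠ .u → (p (e1 k)).lam = (p z0).lam
  gam : ∀ k, k ≠ .x → k ≠ .u → (p (e1 k)).gam = (p z0).gam
  Y : ∀ k, k ≠ .x → k ≠ .u → k ≠ .y → (p (e1 k)).Y = (p z0).Y
  P : ∀ k, k ≠ .x → k ≠ .u → k ≠ .y → (p (e1 k)).P = (p z0).P
  Z : ∀ k, k ≠ .x → k ≠ .u → k ≠ .z → (p (e1 k)).Z = (p z0).Z
  f : ∀ k, k ≠ .u → (p (e1 k)).f = (p z0).f
  g : ∀ k, k ≠ .u → (p (e1 k)).g = (p z0).g
  Dd : ∀ k, k ≠ .a → k ≠ .b → (p (e1 k)).Dd = (p z0).Dd
  E : ∀ k, k ≠ .a → k ≠ .b → k ≠ .u → (p (e1 k)).E = (p z0).E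
  N : ∀ i0 : Fin D, ((i0 : ℕ) = 0) → ∀ k, k ≠ .w i0 → k ≠ .u → (p (e1 k)).N = (p z0).N
  W : ∀ i k, k ≠ .w i → (p (e1 k)).W i = (p z0).W i
  V : ∀ i k, k ≠ .w i → k ≠ .u → (p (e1 k)).V i = (p z0).V i
  R : ∀ j k, (∀ i, k ≠ .w i) → k ≠ .u → (p (e1 k)).R j = (p z0).R j

/-- low dimensional description of a configuration -/
structure Lay (D m : ℕ) where
  U : ℤ → Bool
  lam : ℤ → Bool
  gam : ℤ → ℤ → Fin 4
  Y : ℤ → ℤ → ℤ → Bool
  P : ℤ → ℤ → ℤ → Bool
  Z : ℤ → ℤ → ℤ → Bool
  f : ℤ → Bool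
  g : ℤ → Bool
  Dd : ℤ → ℤ → Bool
  E : ℤ → ℤ → ℤ → Bool
  N : ℤ → ℤ → Bool
  W : Fin D → ℤ → Bool
  V : Fin D → ℤ → ℤ → Bool
  R : Fin m → (Fin D → ℤ) → ℤ → Bool

def conf (i0 : Fin D) (A : Lay D m) (z : Co D → ℤ) : Cell D m where
  U := A.U (z .u)
  lam := A.lam (z .u)
  gam := A.gam (z .x) (z .u)
  Y := A.Y (z .x) (z .u) (z .y)
  P := A.P (z .x) (z .u) (z .y)
  Z := A.Z (z .x) (z .u) (z .z)
  f := A.f (z .u)
  g := A.g (z .u)
  Dd := A.Dd (z .a) (z .b)
  E := A.E (z .a) (z .b) (z .u)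
  N := A.N (z (.w i0)) (z .u)
  W := fun i => A.W i (z (.w i))
  V := fun i => A.V i (z (.w i)) (z .u)
  R := fun j => A.R j (fun i => z (.w i)) (z .u)

def isA (A : Lay D m) (x u : ℤ) : Bool := kA (A.U u) (A.lam u) (A.gam x u) (A.gam (x + 1) u)
def isB (A : Lay D m) (x u : ℤ) : Bool := kB (A.U u) (A.lam u) (A.gam x u) (A.gam (x + 1) u)

structure Ok (ρ : Rule) (jf : Fin m) (i0 i1 i2 : Fin D) (A : Lay D m) : Prop where
  U_mono : ∀ u, A.U u = true → A.U (u + 1) = true
  lam : ∀ u, A.lam (u + 1) = !A.lam u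
  gam0 : ∀ x u, A.U u = false → A.gam x u = 0
  R1 : ∀ x u, A.U u = true → A.gam (x + 1) u = A.gam x u ∨ A.gam (x + 1) u = A.gam x u + 1
  R2 : ∀ x u, A.U u = true → (odd4 (A.gam x (u + 1)) = true ↔ A.gam x u = 0)
  Y0 : ∀ x u y, isA A x u = false → A.Y x u y = false ∧ A.P x u y = false
  P1 : ∀ x u y, isA A x u = true → A.P x u (y + 1) = xor (A.P x u y) (A.Y x u (y + 1))
  Yfl : ∀ x u y, A.U u = false → isA A x (u + 1) = true → A.Y x (u + 1) y = true
  Yst : ∀ x u y, A.U u = true → isA A x (u + 1) = true →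
    A.Y x (u + 1) y = if A.f u = true then A.Y x u y && A.P x u y else A.Y x u y
  Z0 : ∀ x u z, isB A x u = false → A.Z x u z = false
  Zm : ∀ x u z, A.Z x u z = true → A.Z x u (z + 1) = true
  f0 : ∀ u, A.g u = false → A.f u = false
  g0 : ∀ u, A.U u = false → A.g u = false
  gm : ∀ u, A.g u = true → A.g (u + 1) = true
  Dm : ∀ a b, A.Dd a b = true → A.Dd (a + 1) b = true
  Db : ∀ a b, A.Dd a (b + 1) = true → A.Dd a b = true
  E0 : ∀ a b u, A.U u = false → A.E a b u = false
  Efl : ∀ a b u, A.U u = false → A.U (u + 1) = true → A.E a b (u + 1) = A.Dd a b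
  Est : ∀ a b u, A.U u = true → A.g u = false → A.E (a + 1) b (u + 1) = A.E a b u
  Eg : ∀ a b u, A.g u = true → A.E a b u = A.Dd a (b + 1)
  Ei : ∀ a b u, A.U u = true → A.E a b u = false → A.E (a + 1) b u = true → A.Dd a (b + 1) = false →
    A.Dd (a + 1) (b + 1) = true → A.g u = true
  N0 : ∀ w u, A.U u = false → A.N w u = false
  Nfl : ∀ w u, A.U u = false → A.U (u + 1) = true → A.N w (u + 1) = (!A.W i0 w && A.W i0 (w + 1))
  Nst : ∀ w u, A.U u = true → A.g u = false → A.N (w + 1) (u + 1) = A.N w u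
  Nst' : ∀ w u, A.U u = true → A.g u = true → A.N w (u + 1) = A.N w u
  Wm : ∀ i w, A.W i w = true → A.W i (w + 1) = true
  V0 : ∀ i w u, A.U u = false → A.V i w u = false
  Vfl : ∀ i w u, A.U u = false → A.U (u + 1) = true → A.V i w (u + 1) = (!A.W i w && A.W i (w + 1))
  Vst : ∀ i w u, A.U u = true → A.V i (w + 1) (u + 1) = (A.V i (w + 1) u || A.V i w u)
  Rz : ∀ (w : Fin D → ℤ) u, ¬ (∀ i, A.V i (w i) u = true) → ∀ j, A.R j w u = false
  Rc : ∀ (w : Fin D → ℤ) u, (∀ i, A.V i (w i) u = true) → ∀ j, A.R j w (u + 1) = A.R j w u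
  Rr : ∀ (w : Fin D → ℤ) u, (∀ i, A.V i (w i) u = true) → (∀ i, A.V i (w i + 1) u = true) →
    ρ (fun ε j => if h : j < m then A.R ⟨j, h⟩ (fun i => w i + if ε i = true then 1 else 0) u else false)
      (fun i => if h : i < D then (!A.W ⟨i, h⟩ (w ⟨i, h⟩) && A.W ⟨i, h⟩ (w ⟨i, h⟩ + 1)) else false)
  fr : ∀ (w : Fin D → ℤ) u, A.g u = true → A.N (w i0) u = true → (∀ i, A.V i (w i) u = true) → A.V i1 (w i1 + 1) u = false →
    A.W i2 (w i2) = false → A.W i2 (w i2 + 1) = true → A.f u = A.R jf w u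

def mk (x u y z a b : ℤ) (w : Fin D → ℤ) : Co D → ℤ
  | .x => x
  | .u => u
  | .y => y
  | .z => z
  | .a => a
  | .b => b
  | .w i => w i

theorem win_z0 (i0 : Fin D) (A : Lay D m) (q : Co D → ℤ) : conf i0 A (q + off z0) = conf i0 A q := by
  have : q + off z0 = q := by funext k; simp [off, z0]
  rw [this]

theorem main_of_ok {ρ : Rule} {jf : Fin m} {i0 i1 i2 : Fin D} {A : Lay D m} (h : Ok ρ jf i0 i1 i2 A) (q : Co D → ℤ) :
    Main ρ jf i0 i1 i2 (fun ε => conf i0 A (q + off ε)) := by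
  constructor
  case U_mono => simpa [conf, off, z0, e1, e2] using h.U_mono (q .u)
  case lam => simpa [conf, off, z0, e1, e2] using h.lam (q .u)
  case gam0 => simpa [conf, off, z0, e1, e2] using h.gam0 (q .x) (q .u)
  case R1 => simpa [conf, off, z0, e1, e2] using h.R1 (q .x) (q .u)
  case R2 => simpa [conf, off, z0, e1, e2] using h.R2 (q .x) (q .u)
  case Y0 => simpa [conf, off, z0, e1, e2, isA] using h.Y0 (q .x) (q .u) (q .y)
  case P1 => simpa [conf, off, z0, e1, e2, isA] using h.P1 (q .x) (q .u) (q .y)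
  case Yfl => simpa [conf, off, z0, e1, e2, isA] using h.Yfl (q .x) (q .u) (q .y)
  case Yst => simpa [conf, off, z0, e1, e2, isA] using h.Yst (q .x) (q .u) (q .y)
  case Z0 => simpa [conf, off, z0, e1, e2, isB] using h.Z0 (q .x) (q .u) (q .z)
  case Zm => simpa [conf, off, z0, e1, e2] using h.Zm (q .x) (q .u) (q .z)
  case f0 => simpa [conf, off, z0, e1, e2] using h.f0 (q .u)
  case g0 => simpa [conf, off, z0, e1, e2] using h.g0 (q .u)
  case gm => simpa [conf, off, z0, e1, e2] using h.gm (q .u)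
  case Dm => simpa [conf, off, z0, e1, e2] using h.Dm (q .a) (q .b)
  case Db => simpa [conf, off, z0, e1, e2] using h.Db (q .a) (q .b)
  case E0 => simpa [conf, off, z0, e1, e2] using h.E0 (q .a) (q .b) (q .u)
  case Efl => simpa [conf, off, z0, e1, e2] using h.Efl (q .a) (q .b) (q .u)
  case Est => simpa [conf, off, z0, e1, e2] using h.Est (q .a) (q .b) (q .u)
  case Eg => simpa [conf, off, z0, e1, e2] using h.Eg (q .a) (q .b) (q .u)
  case Ei => simpa [conf, off, z0, e1, e2] using h.Ei (q .a) (q .b) (q .u)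
  case N0 => simpa [conf, off, z0, e1, e2] using h.N0 (q (.w i0)) (q .u)
  case Nfl => simpa [conf, off, z0, e1, e2] using h.Nfl (q (.w i0)) (q .u)
  case Nst => simpa [conf, off, z0, e1, e2] using h.Nst (q (.w i0)) (q .u)
  case Nst' => simpa [conf, off, z0, e1, e2] using h.Nst' (q (.w i0)) (q .u)
  case Wm => intro i; simpa [conf, off, z0, e1, e2] using h.Wm i (q (.w i))
  case V0 => intro i; simpa [conf, off, z0, e1, e2] using h.V0 i (q (.w i)) (q .u)
  case Vfl => intro i; simpa [conf, off, z0, e1, e2] using h.Vfl i (q (.w i)) (q .u)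
  case Vst => intro i; simpa [conf, off, z0, e1, e2] using h.Vst i (q (.w i)) (q .u)
  case Rz => simpa [conf, off, z0, e1, e2] using h.Rz (fun i => q (.w i)) (q .u)
  case Rc => simpa [conf, off, z0, e1, e2] using h.Rc (fun i => q (.w i)) (q .u)
  case Rr =>
    intro h1 h2
    have h3 := h.Rr (fun i => q (.w i)) (q .u) (by simpa [conf, off, z0] using h1) (by simpa [conf, off, e1] using h2)
    have a1 : (fun (ε : ℕ → Bool) j => if h : j < m then (conf i0 A (q + off (ew ε))).R ⟨j, h⟩ else false) =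
        (fun (ε : ℕ → Bool) j => if h : j < m then A.R ⟨j, h⟩ (fun i => q (.w i) + if ε i = true then 1 else 0) (q .u) else false) := by
      funext ε j
      by_cases hj : j < m
      · rw [dif_pos hj, dif_pos hj]
        show A.R ⟨j, hj⟩ (fun i => q (.w i) + off (ew ε) (.w i)) (q .u + off (ew ε) .u) = _
        have h0 : off (ew ε) (.u : Co D) = 0 := rfl
        rw [h0, add_zero]
        rfl
      · rw [dif_neg hj, dif_neg hj]
    have a2 : (fun i => if h : i < D then (!(conf i0 A (q + off z0)).W ⟨i, h⟩ && (conf i0 A (q + off (e1 (.w ⟨i, h⟩)))).W ⟨i, h⟩) else false) =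
        (fun i => if h : i < D then (!A.W ⟨i, h⟩ (q (.w ⟨i, h⟩)) && A.W ⟨i, h⟩ (q (.w ⟨i, h⟩) + 1)) else false) := by
      funext i
      by_cases hi : i < D
      · rw [dif_pos hi, dif_pos hi]
        simp [conf, off, z0, e1]
      · rw [dif_neg hi, dif_neg hi]
    show ρ (fun (ε : ℕ → Bool) j => if h : j < m then (conf i0 A (q + off (ew ε))).R ⟨j, h⟩ else false)
      (fun i => if h : i < D then (!(conf i0 A (q + off z0)).W ⟨i, h⟩ && (conf i0 A (q + off (e1 (.w ⟨i, h⟩)))).W ⟨i, h⟩) else false)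
    rw [a1, a2]
    exact h3
  case fr => simpa [conf, off, z0, e1, e2] using h.fr (fun i => q (.w i)) (q .u)

theorem const_of_conf {i0 : Fin D} (hi0 : (i0 : ℕ) = 0) (A : Lay D m) (q : Co D → ℤ) : Const (fun ε => conf i0 A (q + off ε)) := by
  have key : ∀ (k k' : Co D), k ≠ k' → (q + off (e1 k)) k' = (q + off (z0 : Co D → Bool)) k' := by
    intro k k' h
    simp [off, e1, z0, Ne.symm h]
  constructor
  case U => intro k h1; simp only [conf, key k _ h1]
  case lam => intro k h1; simp only [conf, key k _ h1]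
  case gam => intro k h1 h2; simp only [conf, key k _ h1, key k _ h2]
  case Y => intro k h1 h2 h3; simp only [conf, key k _ h1, key k _ h2, key k _ h3]
  case P => intro k h1 h2 h3; simp only [conf, key k _ h1, key k _ h2, key k _ h3]
  case Z => intro k h1 h2 h3; simp only [conf, key k _ h1, key k _ h2, key k _ h3]
  case f => intro k h1; simp only [conf, key k _ h1]
  case g => intro k h1; simp only [conf, key k _ h1]
  case Dd => intro k h1 h2; simp only [conf, key k _ h1, key k _ h2]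
  case E => intro k h1 h2 h3; simp only [conf, key k _ h1, key k _ h2, key k _ h3]
  case N =>
    intro i0' hi0' k h1 h2
    have : i0' = i0 := Fin.ext (by omega)
    subst this
    simp only [conf, key k _ h1, key k _ h2]
  case W => intro i k h1; simp only [conf, key k _ h1]
  case V => intro i k h1 h2; simp only [conf, key k _ h1, key k _ h2]
  case R =>
    intro j k h1 h2
    have : (fun i => (q + off (e1 k)) (.w i)) = fun i => (q + off (z0 : Co D → Bool)) (.w i) := by funext i; exact key k _ (h1 i)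
    simp only [conf, this, key k _ h2]

/-- integer version of `dep_on` -/
theorem dep_onZ {α : Type} (r : (Co D → ℤ) → α) (S : Co D → Prop)
    (hc : ∀ k, ¬ S k → ∀ q, r (q + off (e1 k)) = r (q + off z0)) (q q' : Co D → ℤ) (h : ∀ k, S k → q k = q' k) : r q = r q' := by
  classical
  have hz : ∀ q : Co D → ℤ, q + off z0 = q := by intro q; funext k; simp [off, z0]
  have hb : ∀ (q : Co D → ℤ) k, q + off (e1 k) = update q k (q k + 1) := by
    intro q k
    funext k'
    by_cases hk : k' = k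
    · subst hk; simp [off, e1]
    · simp [off, e1, hk]
  have h1 : ∀ k, ¬ S k → ∀ (q : Co D → ℤ) (c : ℤ), r (update q k c) = r q := by
    intro k hk q c
    have h2 : ∀ c : ℤ, r (update q k (c + 1)) = r (update q k c) := by
      intro c
      have := hc k hk (update q k c)
      rw [hz, hb] at this
      simpa using this
    have h3 : ∀ c : ℤ, r (update q k c) = r (update q k 0) := by
      intro c
      induction c using Int.induction_on with
      | zero => rfl
      | succ i ih => rw [h2, ih]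
      | pred i ih =>
        rw [← ih, ← h2 (-(i : ℤ) - 1)]
        congr 2
        ring
    rw [h3 c, ← h3 (q k), update_eq_self]
  have key : ∀ T : Finset (Co D), ∀ q q' : Co D → ℤ, (∀ k, S k → q k = q' k) → (∀ k, k ∉ T → q k = q' k) → r q = r q' := by
    intro T
    induction T using Finset.induction_on with
    | empty =>
      intro q q' _ h2
      have : q = q' := funext fun k => h2 k (Finset.notMem_empty k)
      rw [this]
    | insert a T _ ih =>
      intro q q' hS hT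
      by_cases ha : S a
      · apply ih q q' hS
        intro k hk
        by_cases hka : k = a
        · subst hka; exact hS _ ha
        · exact hT k (by simp [hka, hk])
      · rw [← h1 a ha q' (q a)]
        apply ih
        · intro k hk
          have : k ≠ a := by rintro rfl; exact ha hk
          rw [update_of_ne this]; exact hS k hk
        · intro k hk
          by_cases hka : k = a
          · subst hka; simp
          · rw [update_of_ne hka]; exact hT k (by simp [hka, hk])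
  exact key Finset.univ q q' h fun k hk => absurd (Finset.mem_univ k) hk

theorem exists_lay {i0 : Fin D} (hi0 : (i0 : ℕ) = 0) (x : (Co D → ℤ) → Cell D m) (h : ∀ q, Const (fun ε => x (q + off ε))) :
    ∃ A : Lay D m, x = conf i0 A := by
  refine ⟨{
    U := fun u => (x (mk 0 u 0 0 0 0 0)).U
    lam := fun u => (x (mk 0 u 0 0 0 0 0)).lam
    gam := fun a u => (x (mk a u 0 0 0 0 0)).gam
    Y := fun a u y => (x (mk a u y 0 0 0 0)).Y
    P := fun a u y => (x (mk a u y 0 0 0 0)).P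
    Z := fun a u z => (x (mk a u 0 z 0 0 0)).Z
    f := fun u => (x (mk 0 u 0 0 0 0 0)).f
    g := fun u => (x (mk 0 u 0 0 0 0 0)).g
    Dd := fun a b => (x (mk 0 0 0 0 a b 0)).Dd
    E := fun a b u => (x (mk 0 u 0 0 a b 0)).E
    N := fun w u => (x (mk 0 u 0 0 0 0 fun _ => w)).N
    W := fun i w => (x (mk 0 0 0 0 0 0 fun _ => w)).W i
    V := fun i w u => (x (mk 0 u 0 0 0 0 fun _ => w)).V i
    R := fun j w u => (x (mk 0 u 0 0 0 0 w)).R j }, ?_⟩
  funext q
  have e1 : (x q).U = (x (mk 0 (q .u) 0 0 0 0 0)).U :=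
    dep_onZ (fun q => (x q).U) (fun k => k = .u) (fun k hk q => (h q).U k hk) _ _ (by rintro k rfl; rfl)
  have e2 : (x q).lam = (x (mk 0 (q .u) 0 0 0 0 0)).lam :=
    dep_onZ (fun q => (x q).lam) (fun k => k = .u) (fun k hk q => (h q).lam k hk) _ _ (by rintro k rfl; rfl)
  have e3 : (x q).gam = (x (mk (q .x) (q .u) 0 0 0 0 0)).gam :=
    dep_onZ (fun q => (x q).gam) (fun k => k = .x ∨ k = .u) (fun k hk q => (h q).gam k (fun h => hk (Or.inl h)) (fun h => hk (Or.inr h))) _ _
      (by rintro k (rfl | rfl) <;> rfl)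
  have e4 : (x q).Y = (x (mk (q .x) (q .u) (q .y) 0 0 0 0)).Y :=
    dep_onZ (fun q => (x q).Y) (fun k => k = .x ∨ k = .u ∨ k = .y) (fun k hk q => (h q).Y k (by tauto) (by tauto) (by tauto)) _ _
      (by rintro k (rfl | rfl | rfl) <;> rfl)
  have e5 : (x q).P = (x (mk (q .x) (q .u) (q .y) 0 0 0 0)).P :=
    dep_onZ (fun q => (x q).P) (fun k => k = .x ∨ k = .u ∨ k = .y) (fun k hk q => (h q).P k (by tauto) (by tauto) (by tauto)) _ _
      (by rintro k (rfl | rfl | rfl) <;> rfl)
  have e6 : (x q).Z = (x (mk (q .x) (q .u) 0 (q .z) 0 0 0)).Z :=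
    dep_onZ (fun q => (x q).Z) (fun k => k = .x ∨ k = .u ∨ k = .z) (fun k hk q => (h q).Z k (by tauto) (by tauto) (by tauto)) _ _
      (by rintro k (rfl | rfl | rfl) <;> rfl)
  have e7 : (x q).f = (x (mk 0 (q .u) 0 0 0 0 0)).f :=
    dep_onZ (fun q => (x q).f) (fun k => k = .u) (fun k hk q => (h q).f k hk) _ _ (by rintro k rfl; rfl)
  have e8 : (x q).g = (x (mk 0 (q .u) 0 0 0 0 0)).g :=
    dep_onZ (fun q => (x q).g) (fun k => k = .u) (fun k hk q => (h q).g k hk) _ _ (by rintro k rfl; rfl)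
  have e9 : (x q).Dd = (x (mk 0 0 0 0 (q .a) (q .b) 0)).Dd :=
    dep_onZ (fun q => (x q).Dd) (fun k => k = .a ∨ k = .b) (fun k hk q => (h q).Dd k (by tauto) (by tauto)) _ _
      (by rintro k (rfl | rfl) <;> rfl)
  have e10 : (x q).E = (x (mk 0 (q .u) 0 0 (q .a) (q .b) 0)).E :=
    dep_onZ (fun q => (x q).E) (fun k => k = .a ∨ k = .b ∨ k = .u) (fun k hk q => (h q).E k (by tauto) (by tauto) (by tauto)) _ _
      (by rintro k (rfl | rfl | rfl) <;> rfl)
  have e11 : (x q).N = (x (mk 0 (q .u) 0 0 0 0 fun _ => q (.w i0))).N :=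
    dep_onZ (fun q => (x q).N) (fun k => k = .w i0 ∨ k = .u) (fun k hk q => (h q).N i0 hi0 k (by tauto) (by tauto)) _ _
      (by rintro k (rfl | rfl) <;> rfl)
  have e12 : ∀ i, (x q).W i = (x (mk 0 0 0 0 0 0 fun _ => q (.w i))).W i := fun i =>
    dep_onZ (fun q => (x q).W i) (fun k => k = .w i) (fun k hk q => (h q).W i k hk) _ _ (by rintro k rfl; rfl)
  have e13 : ∀ i, (x q).V i = (x (mk 0 (q .u) 0 0 0 0 fun _ => q (.w i))).V i := fun i =>
    dep_onZ (fun q => (x q).V i) (fun k => k = .w i ∨ k = .u) (fun k hk q => (h q).V i k (by tauto) (by tauto)) _ _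
      (by rintro k (rfl | rfl) <;> rfl)
  have e14 : ∀ j, (x q).R j = (x (mk 0 (q .u) 0 0 0 0 fun i => q (.w i))).R j := fun j =>
    dep_onZ (fun q => (x q).R j) (fun k => (∃ i, k = .w i) ∨ k = .u) (fun k hk q => (h q).R j k (fun i hi => hk (Or.inl ⟨i, hi⟩)) (by tauto)) _ _
      (by rintro k (⟨i, rfl⟩ | rfl) <;> rfl)
  simp only [conf]
  rw [← e1, ← e2, ← e3, ← e4, ← e5, ← e6, ← e7, ← e8, ← e9, ← e10, ← e11]
  have e12' : (fun i => (x (mk 0 0 0 0 0 0 fun _ => q (.w i))).W i) = (x q).W := (funext e12).symm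
  have e13' : (fun i => (x (mk 0 (q .u) 0 0 0 0 fun _ => q (.w i))).V i) = (x q).V := (funext e13).symm
  have e14' : (fun j => (x (mk 0 (q .u) 0 0 0 0 fun i => q (.w i))).R j) = (x q).R := (funext e14).symm
  rw [e12', e13', e14']

theorem ok_of_main {ρ : Rule} {jf : Fin m} {i0 i1 i2 : Fin D} {A : Lay D m}
    (h : ∀ q, Main ρ jf i0 i1 i2 (fun ε => conf i0 A (q + off ε))) : Ok ρ jf i0 i1 i2 A := by
  constructor
  case U_mono => intro u; simpa [conf, off, z0, e1, e2, mk] using (h (mk 0 u 0 0 0 0 0)).U_mono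
  case lam => intro u; simpa [conf, off, z0, e1, e2, mk] using (h (mk 0 u 0 0 0 0 0)).lam
  case gam0 => intro x u; simpa [conf, off, z0, e1, e2, mk] using (h (mk x u 0 0 0 0 0)).gam0
  case R1 => intro x u; simpa [conf, off, z0, e1, e2, mk] using (h (mk x u 0 0 0 0 0)).R1
  case R2 => intro x u; simpa [conf, off, z0, e1, e2, mk] using (h (mk x u 0 0 0 0 0)).R2
  case Y0 => intro x u y; simpa [conf, off, z0, e1, e2, mk, isA] using (h (mk x u y 0 0 0 0)).Y0
  case P1 => intro x u y; simpa [conf, off, z0, e1, e2, mk, isA] using (h (mk x u y 0 0 0 0)).P1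
  case Yfl => intro x u y; simpa [conf, off, z0, e1, e2, mk, isA] using (h (mk x u y 0 0 0 0)).Yfl
  case Yst => intro x u y; simpa [conf, off, z0, e1, e2, mk, isA] using (h (mk x u y 0 0 0 0)).Yst
  case Z0 => intro x u z; simpa [conf, off, z0, e1, e2, mk, isB] using (h (mk x u 0 z 0 0 0)).Z0
  case Zm => intro x u z; simpa [conf, off, z0, e1, e2, mk] using (h (mk x u 0 z 0 0 0)).Zm
  case f0 => intro u; simpa [conf, off, z0, e1, e2, mk] using (h (mk 0 u 0 0 0 0 0)).f0
  case g0 => intro u; simpa [conf, off, z0, e1, e2, mk] using (h (mk 0 u 0 0 0 0 0)).g0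
  case gm => intro u; simpa [conf, off, z0, e1, e2, mk] using (h (mk 0 u 0 0 0 0 0)).gm
  case Dm => intro a b; simpa [conf, off, z0, e1, e2, mk] using (h (mk 0 0 0 0 a b 0)).Dm
  case Db => intro a b; simpa [conf, off, z0, e1, e2, mk] using (h (mk 0 0 0 0 a b 0)).Db
  case E0 => intro a b u; simpa [conf, off, z0, e1, e2, mk] using (h (mk 0 u 0 0 a b 0)).E0
  case Efl => intro a b u; simpa [conf, off, z0, e1, e2, mk] using (h (mk 0 u 0 0 a b 0)).Efl
  case Est => intro a b u; simpa [conf, off, z0, e1, e2, mk] using (h (mk 0 u 0 0 a b 0)).Est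
  case Eg => intro a b u; simpa [conf, off, z0, e1, e2, mk] using (h (mk 0 u 0 0 a b 0)).Eg
  case Ei => intro a b u; simpa [conf, off, z0, e1, e2, mk] using (h (mk 0 u 0 0 a b 0)).Ei
  case N0 => intro w u; simpa [conf, off, z0, e1, e2, mk] using (h (mk 0 u 0 0 0 0 fun _ => w)).N0
  case Nfl => intro w u; simpa [conf, off, z0, e1, e2, mk] using (h (mk 0 u 0 0 0 0 fun _ => w)).Nfl
  case Nst => intro w u; simpa [conf, off, z0, e1, e2, mk] using (h (mk 0 u 0 0 0 0 fun _ => w)).Nst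
  case Nst' => intro w u; simpa [conf, off, z0, e1, e2, mk] using (h (mk 0 u 0 0 0 0 fun _ => w)).Nst'
  case Wm => intro i w; simpa [conf, off, z0, e1, e2, mk] using (h (mk 0 0 0 0 0 0 fun _ => w)).Wm i
  case V0 => intro i w u; simpa [conf, off, z0, e1, e2, mk] using (h (mk 0 u 0 0 0 0 fun _ => w)).V0 i
  case Vfl => intro i w u; simpa [conf, off, z0, e1, e2, mk] using (h (mk 0 u 0 0 0 0 fun _ => w)).Vfl i
  case Vst => intro i w u; simpa [conf, off, z0, e1, e2, mk] using (h (mk 0 u 0 0 0 0 fun _ => w)).Vst i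
  case Rz => intro w u; simpa [conf, off, z0, e1, e2, mk] using (h (mk 0 u 0 0 0 0 w)).Rz
  case Rc => intro w u; simpa [conf, off, z0, e1, e2, mk] using (h (mk 0 u 0 0 0 0 w)).Rc
  case Rr =>
    intro w u h1 h2
    set q : Co D → ℤ := mk 0 u 0 0 0 0 w with hq
    have h3 := (h q).Rr (by simpa [conf, off, z0, mk, hq] using h1) (by simpa [conf, off, e1, mk, hq] using h2)
    have a1 : (fun (ε : ℕ → Bool) j => if h : j < m then (conf i0 A (q + off (ew ε))).R ⟨j, h⟩ else false) =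
        (fun (ε : ℕ → Bool) j => if h : j < m then A.R ⟨j, h⟩ (fun i => w i + if ε i = true then 1 else 0) u else false) := by
      funext ε j
      by_cases hj : j < m
      · rw [dif_pos hj, dif_pos hj]
        show A.R ⟨j, hj⟩ (fun i => q (.w i) + off (ew ε) (.w i)) (q .u + off (ew ε) .u) = _
        have h0 : off (ew ε) (.u : Co D) = 0 := rfl
        rw [h0, add_zero]
        rfl
      · rw [dif_neg hj, dif_neg hj]
    have a2 : (fun i => if h : i < D then (!(conf i0 A (q + off z0)).W ⟨i, h⟩ && (conf i0 A (q + off (e1 (.w ⟨i, h⟩)))).W ⟨i, h⟩) else false) =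
        (fun i => if h : i < D then (!A.W ⟨i, h⟩ (w ⟨i, h⟩) && A.W ⟨i, h⟩ (w ⟨i, h⟩ + 1)) else false) := by
      funext i
      by_cases hi : i < D
      · rw [dif_pos hi, dif_pos hi]
        simp [conf, off, z0, e1, hq, mk]
      · rw [dif_neg hi, dif_neg hi]
    have h4 : ρ (fun (ε : ℕ → Bool) j => if h : j < m then (conf i0 A (q + off (ew ε))).R ⟨j, h⟩ else false)
      (fun i => if h : i < D then (!(conf i0 A (q + off z0)).W ⟨i, h⟩ && (conf i0 A (q + off (e1 (.w ⟨i, h⟩)))).W ⟨i, h⟩) else false) := h3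
    rw [a1, a2] at h4
    exact h4
  case fr => intro w u; simpa [conf, off, z0, e1, e2, mk] using (h (mk 0 u 0 0 0 0 w)).fr

end Pool.Agent.Helper605.Sl
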