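import Mathlib
import Pool.Agent.Helper605.SlRule

set_option autoImplicit false
set_option linter.all false

namespace Pool.Agent.Helper605.Sl

open Function

variable {D m : ℕ}

theorem bool_eq_of_iff {a b : Bool} (h : a = true ↔ b = true) : a = b := by
  cases a <;> cases b <;> simp_all

theorem int_up {P : ℤ → Prop} {a : ℤ} (h0 : P a) (hs : ∀ u, a ≤ u → P u → P (u + 1)) : ∀ u, a ≤ u → P u := by
  intro u hu
  obtain ⟨n, rfl⟩ := Int.le.dest hu
  clear hu
  induction n with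
  | zero => simpa using h0
  | succ n ih =>
    have := hs (a + n) (by omega) ih
    push_cast
    rw [← add_assoc]
    exact this

theorem mono_up (F : ℤ → Bool) (h : ∀ u, F u = true → F (u + 1) = true) {a b : ℤ} (hab : a ≤ b) (ha : F a = true) : F b = true :=
  int_up (P := fun u => F u = true) ha (fun u _ => h u) b hab

theorem mono_cases (F : ℤ → Bool) (h : ∀ u, F u = true → F (u + 1) = true) :
    (∀ u, F u = false) ∨ (∀ u, F u = true) ∨ ∃ c, ∀ u, F u = true ↔ c ≤ u := by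
  by_cases h1 : ∀ u, F u = false
  · exact Or.inl h1
  by_cases h2 : ∀ u, F u = true
  · exact Or.inr (Or.inl h2)
  refine Or.inr (Or.inr ?_)
  push Not at h1 h2
  obtain ⟨a, ha⟩ := h1
  obtain ⟨b, hb⟩ := h2
  replace ha : F a = true := by simpa using ha
  obtain ⟨c, hc, hmin⟩ := Int.exists_least_of_bdd (P := fun u => F u = true) ⟨b, fun u hu => by
    by_contra hcon
    exact hb (mono_up F h (le_of_lt (not_le.mp hcon)) hu)⟩ ⟨a, ha⟩
  exact ⟨c, fun u => ⟨fun hu => hmin u hu, fun hu => mono_up F h hu hc⟩⟩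

section
variable {ρ : Rule} {jf : Fin m} {i0 i1 i2 : Fin D} {A : Lay D m}

theorem marks_down (h : Ok ρ jf i0 i1 i2 A) {x u : ℤ} (hU : A.U u = true) (hne : A.gam x (u + 1) ≠ A.gam (x + 1) (u + 1)) :
    A.gam x u ≠ A.gam (x + 1) u ∧ odd4 (A.gam x u) = !odd4 (A.gam x (u + 1)) := by
  have hU' := h.U_mono u hU
  have h1 := h.R1 x (u + 1) hU'
  have h2 := h.R1 x u hU
  have h3 := h.R2 x u hU
  have h4 := h.R2 (x + 1) u hU
  generalize A.gam x (u + 1) = G at *
  generalize A.gam (x + 1) (u + 1) = G' at *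
  generalize A.gam x u = g at *
  generalize A.gam (x + 1) u = g' at *
  revert G G' g g'
  decide

theorem isA_down (h : Ok ρ jf i0 i1 i2 A) {x u : ℤ} (hU : A.U u = true) (hA : isA A x (u + 1) = true) : isA A x u = true := by
  simp only [isA, kA, Bool.and_eq_true, decide_eq_true_eq, beq_iff_eq] at hA ⊢
  obtain ⟨_, h1, h2⟩ := hA
  obtain ⟨h3, h4⟩ := marks_down h hU h1
  refine ⟨hU, h3, ?_⟩
  rw [h4, h2, h.lam u, Bool.not_not]

theorem isB_down (h : Ok ρ jf i0 i1 i2 A) {x u : ℤ} (hU : A.U u = true) (hA : isB A x (u + 1) = true) : isB A x u = true := by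
  simp only [isB, kB, Bool.and_eq_true, decide_eq_true_eq, bne_iff_ne, ne_eq] at hA ⊢
  obtain ⟨_, h1, h2⟩ := hA
  obtain ⟨h3, h4⟩ := marks_down h hU h1
  refine ⟨hU, h3, ?_⟩
  rw [h4]
  intro h5
  apply h2
  rw [h.lam u, ← h5, Bool.not_not]

theorem const_between (f : ℤ → Fin 4) {p q : ℤ} (hpq : p < q) (h : ∀ r, p < r → r < q → f r = f (r + 1)) : f (p + 1) = f q := by
  have : ∀ r, p + 1 ≤ r → (r ≤ q → f (p + 1) = f r) := by
    apply int_up
    · intro _; rfl
    · intro r hr ih hrq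
      rw [ih (by omega)]
      exact h r (by omega) (by omega)
  exact this q (by omega) le_rfl

theorem dec3 : ∀ gp c gq gp' c' gq' gp'' c'' gq'' : Fin 4, (c = gp + 1) → (gq = c + 1) → (c' = gp' + 1) → (gq' = c' + 1) →
    (c'' = gp'' + 1) → (gq'' = c'' + 1) → (odd4 gp = true ↔ gp' = 0) → (odd4 c = true ↔ c' = 0) → (odd4 gq = true ↔ gq' = 0) →
    (odd4 gp' = true ↔ gp'' = 0) → (odd4 c' = true ↔ c'' = 0) → (odd4 gq' = true ↔ gq'' = 0) → False := by
  intro gp c gq gp' c' gq' gp'' c'' gq'' h1 h2 h3 h4 h5 h6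
  subst h1 h2 h3 h4 h5 h6
  revert gp gp' gp''
  decide

theorem gap_absurd (h : Ok ρ jf i0 i1 i2 A) (hU : ∀ u, A.U u = true) : ∀ n : ℕ, ∀ u p : ℤ,
    A.gam p u ≠ A.gam (p + 1) u → A.gam (p + 1 + n) u ≠ A.gam (p + 1 + n + 1) u → False := by
  intro n
  induction n using Nat.strong_induction_on with
  | _ n ih =>
    intro u p hp hq
    set q := p + 1 + (n : ℤ) with hqd
    have hpq : p < q := by omega
    have hd : ∀ v x, A.gam x (v + 1) ≠ A.gam (x + 1) (v + 1) → A.gam x v ≠ A.gam (x + 1) v := fun v x hx => (marks_down h (hU v) hx).1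
    -- no marks strictly between
    have hnb : ∀ v, A.gam p v ≠ A.gam (p + 1) v → ∀ r, p < r → r < q → A.gam r v = A.gam (r + 1) v := by
      intro v hpv r hr1 hr2
      by_contra hcon
      obtain ⟨k, hk⟩ := Int.le.dest (show p + 1 ≤ r by omega)
      refine ih k (by omega) v p hpv ?_
      rw [hk]; exact hcon
    have hR1 : ∀ v x, A.gam x v ≠ A.gam (x + 1) v → A.gam (x + 1) v = A.gam x v + 1 := by
      intro v x hx
      rcases h.R1 x v (hU v) with h1 | h1
      · exact absurd h1.symm hx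
      · exact h1
    obtain ⟨u2, rfl⟩ : ∃ u2, u = u2 + 1 + 1 := ⟨u - 2, by ring⟩
    have hp1 := hd _ _ hp
    have hp2 := hd _ _ hp1
    have hq1 := hd _ _ hq
    have hq2 := hd _ _ hq1
    have c0 := const_between (fun r => A.gam r (u2 + 1 + 1)) hpq (hnb _ hp)
    have c1 := const_between (fun r => A.gam r (u2 + 1)) hpq (hnb _ hp1)
    have c2 := const_between (fun r => A.gam r u2) hpq (hnb _ hp2)
    refine dec3 (A.gam p (u2 + 1 + 1)) (A.gam (p + 1) (u2 + 1 + 1)) (A.gam (q + 1) (u2 + 1 + 1)) (A.gam p (u2 + 1)) (A.gam (p + 1) (u2 + 1))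
      (A.gam (q + 1) (u2 + 1)) (A.gam p u2) (A.gam (p + 1) u2) (A.gam (q + 1) u2) (hR1 _ _ hp) ?_ (hR1 _ _ hp1) ?_ (hR1 _ _ hp2) ?_
      (h.R2 _ _ (hU _)) (h.R2 _ _ (hU _)) (h.R2 _ _ (hU _)) (h.R2 _ _ (hU _)) (h.R2 _ _ (hU _)) (h.R2 _ _ (hU _))
    · rw [c0]; exact hR1 _ _ hq
    · rw [c1]; exact hR1 _ _ hq1
    · rw [c2]; exact hR1 _ _ hq2

theorem nofloor (h : Ok ρ jf i0 i1 i2 A) (hU : ∀ u, A.U u = true) {x u x' u' : ℤ} (hA : isA A x u = true) (hB : isB A x' u' = true) : False := by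
  have key : ∀ v, v ≤ u → v ≤ u' → isA A x v = true ∧ isB A x' v = true := by
    intro v h1 h2
    constructor
    · obtain ⟨n, rfl⟩ := Int.le.dest h1
      clear h1
      induction n with
      | zero => simpa using hA
      | succ n ih =>
        apply ih
        apply isA_down h (hU _)
        rw [show v + (n : ℤ) + 1 = v + ((n + 1 : ℕ) : ℤ) by push_cast; ring]
        exact hA
    · obtain ⟨n, rfl⟩ := Int.le.dest h2
      clear h2
      induction n with
      | zero => simpa using hB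
      | succ n ih =>
        apply ih
        apply isB_down h (hU _)
        rw [show v + (n : ℤ) + 1 = v + ((n + 1 : ℕ) : ℤ) by push_cast; ring]
        exact hB
  obtain ⟨h1, h2⟩ := key (min u u') (min_le_left _ _) (min_le_right _ _)
  set v := min u u' with hv
  simp only [isA, isB, kA, kB, Bool.and_eq_true, decide_eq_true_eq, beq_iff_eq, bne_iff_ne, ne_eq] at h1 h2
  obtain ⟨_, h3, h4⟩ := h1
  obtain ⟨_, h5, h6⟩ := h2
  rcases lt_trichotomy x x' with hx | hx | hx
  · obtain ⟨n, hn⟩ := Int.le.dest (show x + 1 ≤ x' by omega)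
    exact gap_absurd h hU n v x h3 (by rw [hn]; exact h5)
  · subst hx; exact h6 h4
  · obtain ⟨n, hn⟩ := Int.le.dest (show x' + 1 ≤ x by omega)
    exact gap_absurd h hU n v x' h5 (by rw [hn]; exact h3)

/-- the floor -/
theorem floor (h : Ok ρ jf i0 i1 i2 A) (hA : ∃ x u, isA A x u = true) (hB : ∃ x u, isB A x u = true) :
    ∃ u0, ∀ u, A.U u = true ↔ u0 ≤ u := by
  obtain ⟨x, u, hA⟩ := hA
  obtain ⟨x', u', hB⟩ := hB
  rcases mono_cases A.U h.U_mono with h1 | h1 | h1
  · exfalso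
    simp [isA, kA, h1 u] at hA
  · exact (nofloor h h1 hA hB).elim
  · exact h1

end

end Pool.Agent.Helper605.Sl
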