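import Mathlib
import Pool.Agent.Helper605.SlSound

set_option autoImplicit false
set_option linter.all false

namespace Pool.Agent.Helper605.Sl

open Function

variable {D m : ℕ} {ρ : Rule} {jf : Fin m} {i0 i1 i2 : Fin D} {A : Lay D m}

/-- Vertical induction above the floor. -/
theorem up_ind {P : ℤ → Prop} {u0 : ℤ} (h0 : P u0) (hs : ∀ u, u0 ≤ u → P u → P (u + 1)) (hneg : ∀ u, u < u0 → P u) : ∀ u, P u := by
  intro u
  by_cases hu : u0 ≤ u
  · exact int_up h0 hs u hu
  · exact hneg u (not_le.mp hu)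

theorem E_const (h : Ok ρ jf i0 i1 i2 A) {u0 : ℤ} (hU : ∀ u, A.U u = true ↔ u0 ≤ u) {τ : Bool} (hD : ∀ a b, A.Dd a b = τ) :
    ∀ u a a' b, A.E a b u = A.E a' b u := by
  have hUf : ∀ u, u < u0 → A.U u = false := fun u hu => by
    rw [← Bool.not_eq_true, hU]; omega
  refine up_ind (P := fun u => ∀ a a' b, A.E a b u = A.E a' b u) (u0 := u0) ?_ ?_ ?_
  · intro a a' b
    have h1 := hUf (u0 - 1) (by omega)
    have h2 : A.U (u0 - 1 + 1) = true := by rw [hU]; omega
    have h3 := h.Efl a b (u0 - 1) h1 h2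
    have h4 := h.Efl a' b (u0 - 1) h1 h2
    rw [sub_add_cancel] at h3 h4
    rw [h3, h4, hD, hD]
  · intro u hu ih a a' b
    have hUu : A.U u = true := (hU u).mpr hu
    by_cases hg : A.g u = true
    · have hg' := h.gm u hg
      rw [h.Eg a b (u + 1) hg', h.Eg a' b (u + 1) hg', hD, hD]
    · rw [Bool.not_eq_true] at hg
      have h1 := h.Est (a - 1) b u hUu hg
      have h2 := h.Est (a' - 1) b u hUu hg
      rw [sub_add_cancel] at h1 h2
      rw [h1, h2]
      exact ih _ _ _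
  · intro u hu a a' b
    rw [h.E0 a b u (hUf u hu), h.E0 a' b u (hUf u hu)]

/-- rows of the staircase are finite -/
theorem rows (h : Ok ρ jf i0 i1 i2 A) {n k : ℤ} (hn : 0 ≤ n) (hk : 1 ≤ k) (hper : ∀ a b, A.Dd (a + k * n) (b + k) = A.Dd a b)
    (hnc : ¬ ∃ τ : Bool, ∀ a b, A.Dd a b = τ) : ∃ s : ℤ → ℤ, ∀ a b, A.Dd a b = true ↔ s b ≤ a := by
  have hanti : ∀ a (b b' : ℤ), b ≤ b' → A.Dd a b' = true → A.Dd a b = true := by
    intro a b b' hbb
    obtain ⟨j, rfl⟩ := Int.le.dest hbb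
    clear hbb
    induction j with
    | zero => intro h1; simpa using h1
    | succ j ih =>
      intro h1
      apply ih
      apply h.Db
      rw [show b + (j : ℤ) + 1 = b + ((j + 1 : ℕ) : ℤ) by push_cast; ring]
      exact h1
  have hperj : ∀ (j : ℕ) a b, A.Dd (a + j * (k * n)) (b + j * k) = A.Dd a b := by
    intro j
    induction j with
    | zero => intro a b; simp
    | succ j ih =>
      intro a b
      rw [← ih a b, ← hper (a + j * (k * n)) (b + j * k)]
      congr 1 <;> push_cast <;> ring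
  have hex : ∀ b, ∃ c, ∀ a, A.Dd a b = true ↔ c ≤ a := by
    intro b
    rcases mono_cases (fun a => A.Dd a b) (fun a ha => h.Dm a b ha) with h1 | h1 | h1
    · exfalso
      apply hnc
      refine ⟨false, fun a' b' => ?_⟩
      rw [← Bool.not_eq_true]
      intro h2
      obtain ⟨j, hj⟩ : ∃ j : ℕ, b - j * k ≤ b' := by
        refine ⟨(b - b').toNat, ?_⟩
        have := Int.self_le_toNat (b - b')
        nlinarith
      have h3 := hanti a' (b - j * k) b' hj h2
      have h4 := hperj j a' (b - j * k)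
      rw [sub_add_cancel] at h4
      rw [← h4, h1] at h3
      exact Bool.false_ne_true h3
    · exfalso
      apply hnc
      refine ⟨true, fun a' b' => ?_⟩
      obtain ⟨j, hj⟩ : ∃ j : ℕ, b' ≤ b + j * k := by
        refine ⟨(b' - b).toNat, ?_⟩
        have := Int.self_le_toNat (b' - b)
        nlinarith
      apply hanti a' b' (b + j * k) hj
      have h4 := hperj j (a' - j * (k * n)) b
      rw [sub_add_cancel] at h4
      rw [h4]
      exact h1 _
    · exact h1
  choose s hs using hex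
  exact ⟨s, fun a b => hs b a⟩

theorem E_eq (h : Ok ρ jf i0 i1 i2 A) {u0 : ℤ} (hU : ∀ u, A.U u = true ↔ u0 ≤ u) {s : ℤ → ℤ} (hs : ∀ a b, A.Dd a b = true ↔ s b ≤ a) :
    ∀ u, u0 ≤ u → (∀ v, u0 ≤ v → v < u → A.g v = false) → ∀ a b, A.E a b u = true ↔ s b + (u - u0) ≤ a := by
  apply int_up
  · intro _ a b
    have h1 : A.U (u0 - 1) = false := by rw [← Bool.not_eq_true, hU]; omega
    have h2 : A.U (u0 - 1 + 1) = true := by rw [hU]; omega
    have h3 := h.Efl a b (u0 - 1) h1 h2
    rw [sub_add_cancel] at h3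
    rw [h3, hs]
    constructor <;> intro h <;> omega
  · intro u hu ih hg a b
    have h1 := h.Est (a - 1) b u ((hU u).mpr hu) (hg u hu (by omega))
    rw [sub_add_cancel] at h1
    rw [h1, ih (fun v hv1 hv2 => hg v hv1 (by omega))]
    constructor <;> intro h <;> omega

theorem event (h : Ok ρ jf i0 i1 i2 A) {u0 : ℤ} (hU : ∀ u, A.U u = true ↔ u0 ≤ u) {s : ℤ → ℤ} (hs : ∀ a b, A.Dd a b = true ↔ s b ≤ a)
    {n k : ℤ} (hk : 1 ≤ k) (hper : ∀ a b, A.Dd (a + k * n) (b + k) = A.Dd a b) :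
    ∀ u, A.g u = true ↔ u0 + n ≤ u := by
  have hUf : ∀ u, u < u0 → A.U u = false := fun u hu => by
    rw [← Bool.not_eq_true, hU]; omega
  have hsm : ∀ b, s b ≤ s (b + 1) := by
    intro b
    rw [← hs]
    exact h.Db _ _ ((hs _ _).mpr le_rfl)
  rcases mono_cases A.g h.gm with h1 | h1 | ⟨u1, h1⟩
  · exfalso
    have h2 := E_eq h hU hs (u0 + (s 1 - s 0)) (by have := hsm 0; simp at this; omega) (fun v _ _ => h1 v)
    have h3 := h.Ei (s 1 - 1) 0 (u0 + (s 1 - s 0)) ((hU _).mpr (by have := hsm 0; simp at this; omega))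
      (by rw [← Bool.not_eq_true, h2]; omega) (by rw [h2]; omega) (by rw [← Bool.not_eq_true, hs]; simp) (by rw [hs]; simp)
    rw [h1] at h3
    exact Bool.false_ne_true h3
  · exfalso
    have := h.g0 (u0 - 1) (hUf _ (by omega))
    rw [h1] at this
    exact Bool.false_ne_true this.symm
  · have hu01 : u0 ≤ u1 := by
      by_contra hcon
      have h2 := h.g0 u1 (hUf u1 (not_le.mp hcon))
      rw [(h1 u1).mpr le_rfl] at h2
      exact Bool.false_ne_true h2.symm
    have hgf : ∀ v, u0 ≤ v → v < u1 → A.g v = false := by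
      intro v _ hv
      rw [← Bool.not_eq_true, h1]; omega
    have hE := E_eq h hU hs u1 hu01 hgf
    have hss : ∀ b, s (b + 1) = s b + (u1 - u0) := by
      intro b
      have h2 := fun a => h.Eg a b u1 ((h1 u1).mpr le_rfl)
      have h3 : ∀ a, s b + (u1 - u0) ≤ a ↔ s (b + 1) ≤ a := by
        intro a
        rw [← hE a b, ← hs, h2 a]
      have h4 := (h3 (s b + (u1 - u0))).mp le_rfl
      have h5 := (h3 (s (b + 1))).mpr le_rfl
      omega
    have hsk : ∀ (j : ℕ), s (j : ℤ) = s 0 + j * (u1 - u0) := by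
      intro j
      induction j with
      | zero => simp
      | succ j ih => push_cast; rw [hss, ih]; ring
    have hsper : s (0 + k) = s 0 + k * n := by
      have h3 : ∀ a, s (0 + k) ≤ a + k * n ↔ s 0 ≤ a := by
        intro a
        rw [← hs, ← hs, hper]
      have h4 := (h3 (s 0)).mpr le_rfl
      have h5 := (h3 (s (0 + k) - k * n)).mp (by omega)
      omega
    obtain ⟨j, hj⟩ := Int.eq_ofNat_of_zero_le (show 0 ≤ k by omega)
    have h6 := hsk j
    rw [zero_add, hj] at hsper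
    rw [hsper] at h6
    have h7 : u1 - u0 = n := by
      have h8 : (j : ℤ) * n = j * (u1 - u0) := by linarith
      have h9 : (j : ℤ) ≠ 0 := by omega
      exact (mul_left_cancel₀ h9 h8).symm
    intro u
    rw [h1]
    constructor <;> intro h <;> omega

theorem V_const (h : Ok ρ jf i0 i1 i2 A) {u0 : ℤ} (hU : ∀ u, A.U u = true ↔ u0 ≤ u) {i : Fin D} {τ : Bool} (hW : ∀ w, A.W i w = τ) :
    ∀ u w, A.V i w u = false := by
  have hUf : ∀ u, u < u0 → A.U u = false := fun u hu => by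
    rw [← Bool.not_eq_true, hU]; omega
  refine up_ind (P := fun u => ∀ w, A.V i w u = false) (u0 := u0) ?_ ?_ ?_
  · intro w
    have h1 := hUf (u0 - 1) (by omega)
    have h2 : A.U (u0 - 1 + 1) = true := by rw [hU]; omega
    have h3 := h.Vfl i w (u0 - 1) h1 h2
    rw [sub_add_cancel] at h3
    rw [h3, hW, hW]; simp
  · intro u hu ih w
    have h1 := h.Vst i (w - 1) u ((hU u).mpr hu)
    rw [sub_add_cancel] at h1
    rw [h1, ih, ih]; rfl
  · intro u hu w
    exact h.V0 i w u (hUf u hu)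

theorem N_const (h : Ok ρ jf i0 i1 i2 A) {u0 : ℤ} (hU : ∀ u, A.U u = true ↔ u0 ≤ u) {τ : Bool} (hW : ∀ w, A.W i0 w = τ) :
    ∀ u w, A.N w u = false := by
  have hUf : ∀ u, u < u0 → A.U u = false := fun u hu => by
    rw [← Bool.not_eq_true, hU]; omega
  refine up_ind (P := fun u => ∀ w, A.N w u = false) (u0 := u0) ?_ ?_ ?_
  · intro w
    have h1 := hUf (u0 - 1) (by omega)
    have h2 : A.U (u0 - 1 + 1) = true := by rw [hU]; omega
    have h3 := h.Nfl w (u0 - 1) h1 h2
    rw [sub_add_cancel] at h3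
    rw [h3, hW, hW]; simp
  · intro u hu ih w
    by_cases hg : A.g u = true
    · rw [h.Nst' w u ((hU u).mpr hu) hg, ih]
    · rw [Bool.not_eq_true] at hg
      have h1 := h.Nst (w - 1) u ((hU u).mpr hu) hg
      rw [sub_add_cancel] at h1
      rw [h1, ih]
  · intro u hu w
    exact h.N0 w u (hUf u hu)

theorem V_eq (h : Ok ρ jf i0 i1 i2 A) {u0 : ℤ} (hU : ∀ u, A.U u = true ↔ u0 ≤ u) {i : Fin D} {c : ℤ} (hW : ∀ w, A.W i w = true ↔ c + 1 ≤ w) :
    ∀ u, u0 ≤ u → ∀ w, A.V i w u = true ↔ c ≤ w ∧ w ≤ c + (u - u0) := by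
  apply int_up
  · intro w
    have h1 : A.U (u0 - 1) = false := by rw [← Bool.not_eq_true, hU]; omega
    have h2 : A.U (u0 - 1 + 1) = true := by rw [hU]; omega
    have h3 := h.Vfl i w (u0 - 1) h1 h2
    rw [sub_add_cancel] at h3
    rw [h3, Bool.and_eq_true, Bool.not_eq_true', ← Bool.not_eq_true, hW, hW]
    omega
  · intro u hu ih w
    have h1 := h.Vst i (w - 1) u ((hU u).mpr hu)
    rw [sub_add_cancel] at h1
    rw [h1, Bool.or_eq_true, ih, ih]
    omega

theorem N_eq (h : Ok ρ jf i0 i1 i2 A) {u0 n : ℤ} (hn : 0 ≤ n) (hU : ∀ u, A.U u = true ↔ u0 ≤ u) (hg : ∀ u, A.g u = true ↔ u0 + n ≤ u)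
    {c : ℤ} (hW : ∀ w, A.W i0 w = true ↔ c + 1 ≤ w) :
    ∀ u, u0 ≤ u → ∀ w, A.N w u = true ↔ w = c + min (u - u0) n := by
  apply int_up
  · intro w
    have h1 : A.U (u0 - 1) = false := by rw [← Bool.not_eq_true, hU]; omega
    have h2 : A.U (u0 - 1 + 1) = true := by rw [hU]; omega
    have h3 := h.Nfl w (u0 - 1) h1 h2
    rw [sub_add_cancel] at h3
    rw [h3, Bool.and_eq_true, Bool.not_eq_true', ← Bool.not_eq_true, hW, hW]
    omega
  · intro u hu ih w
    by_cases hgu : A.g u = true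
    · rw [h.Nst' w u ((hU u).mpr hu) hgu, ih]
      rw [hg] at hgu
      omega
    · rw [Bool.not_eq_true] at hgu
      have h1 := h.Nst (w - 1) u ((hU u).mpr hu) hgu
      rw [sub_add_cancel] at h1
      rw [h1, ih]
      rw [← Bool.not_eq_true, hg] at hgu
      omega

end Pool.Agent.Helper605.Sl
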