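import Mathlib
import Pool.Agent.Helper605.SlSoundB

set_option autoImplicit false
set_option linter.all false

namespace Pool.Agent.Helper605.Sl

open Function

variable {D m : ℕ} {ρ : Rule} {jf : Fin m} {i0 i1 i2 : Fin D} {A : Lay D m}

def big (D : ℕ) (w : Pt) : ℕ := Finset.univ.sup (fun i : Fin D => w i)

theorem le_big (w : Pt) (i : Fin D) : w i ≤ big D w := Finset.le_sup (f := fun i : Fin D => w i) (Finset.mem_univ i)

theorem big_le {w : Pt} {M : ℕ} (h : ∀ i : Fin D, w i ≤ M) : big D w ≤ M := Finset.sup_le fun i _ => h i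

theorem R_step (h : Ok ρ jf i0 i1 i2 A) {u0 : ℤ} (hU : ∀ u, A.U u = true ↔ u0 ≤ u) {c : Fin D → ℤ}
    (hW : ∀ i w, A.W i w = true ↔ c i + 1 ≤ w) (w : Pt) (M : ℕ) (hM : ∀ i : Fin D, w i ≤ M) (j : Fin m) :
    A.R j (fun i => c i + w i) (u0 + M) = A.R j (fun i => c i + w i) (u0 + big D w) := by
  have hb : big D w ≤ M := big_le hM
  obtain ⟨k, rfl⟩ := Nat.exists_eq_add_of_le hb
  clear hb hM
  induction k with
  | zero => simp
  | succ k ih =>
    rw [← ih]
    have h1 := h.Rc (fun i => c i + w i) (u0 + ((big D w + k : ℕ) : ℤ)) (by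
      intro i
      rw [V_eq h hU (hW i) _ (by omega)]
      have := le_big w i
      push_cast
      omega) j
    rw [← h1]
    congr 1
    push_cast
    ring

theorem R_eq (h : Ok ρ jf i0 i1 i2 A) {u0 : ℤ} (hU : ∀ u, A.U u = true ↔ u0 ≤ u) {c : Fin D → ℤ}
    (hW : ∀ i w, A.W i w = true ↔ c i + 1 ≤ w) {Rg : Fam} (hG : Good D m Rg ρ) (w : Pt) (M : ℕ) (hM : ∀ i : Fin D, w i ≤ M) (j : Fin m) :
    A.R j (fun i => c i + w i) (u0 + M) = Rg j w := by
  set R' : Fam := fun j w => if hj : j < m then A.R ⟨j, hj⟩ (fun i => c i + w i) (u0 + big D w) else false with hR'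
  have h1 : ∀ j, j < m → Dep D (R' j) := by
    intro j hj w w' hw
    have e1 : (fun i : Fin D => c i + (w i : ℤ)) = fun i : Fin D => c i + (w' i : ℤ) := by
      funext i; rw [hw i i.2]
    have e2 : big D w = big D w' := by
      unfold big; congr 1; funext i; exact hw i i.2
    simp only [hR', dif_pos hj, e1, e2]
  have h2 : Sat ρ R' := by
    intro w
    have hR := h.Rr (fun i => c i + w i) (u0 + ((big D w + 1 : ℕ) : ℤ)) (by
      intro i
      rw [V_eq h hU (hW i) _ (by omega)]
      have := le_big w i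
      push_cast
      omega) (by
      intro i
      rw [V_eq h hU (hW i) _ (by omega)]
      have := le_big w i
      push_cast
      omega)
    refine hG.loc _ _ _ _ ?_ ?_ hR
    · intro ε _ j hj
      simp only [hR', dif_pos hj]
      have e1 : (fun i : Fin D => c i + (w i : ℤ) + if ε i = true then 1 else 0) = fun i : Fin D => c i + ((bump w ε i : ℕ) : ℤ) := by
        funext i
        unfold bump
        cases ε i <;> simp [add_assoc]
      rw [e1]
      apply R_step h hU hW (bump w ε)
      intro i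
      have := le_big w i
      unfold bump
      cases ε i <;> simp <;> omega
    · intro i hi
      rw [dif_pos hi]
      have e1 : A.W ⟨i, hi⟩ (c ⟨i, hi⟩ + (w i : ℤ) + 1) = true := by rw [hW]; omega
      have e2 : A.W ⟨i, hi⟩ (c ⟨i, hi⟩ + (w i : ℤ)) = !(w i == 0) := by
        apply bool_eq_of_iff
        rw [hW]
        simp
        omega
      simp only
      rw [e1, e2]
      simp
  have h3 := hG.uniq R' h1 h2 j j.2
  rw [← h3]
  simp only [hR', dif_pos j.2]
  exact R_step h hU hW w M hM j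

/-- the flag layer is computed correctly -/
theorem f_eq (φ : ℕ → ℕ → ℕ) {Rg : Fam} (hG : Good D m Rg ρ) (hRg : ∀ w, Rg jf w = decide (w 2 = φ (w 0) (w 1)))
    (e0 : (i0 : ℕ) = 0) (e1 : (i1 : ℕ) = 1) (e2 : (i2 : ℕ) = 2)
    (h : Ok ρ jf i0 i1 i2 A) {u0 : ℤ} (hU : ∀ u, A.U u = true ↔ u0 ≤ u) {c : Fin D → ℤ}
    (hW : ∀ i w, A.W i w = true ↔ c i + 1 ≤ w) {n : ℕ} (hg : ∀ u, A.g u = true ↔ u0 + n ≤ u) (k : ℕ) (hk : n ≤ k) :
    A.f (u0 + k) = decide (0 = φ n k) := by
  set w : Pt := fun i => if i = 0 then n else if i = 1 then k else 0 with hw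
  have hwi : ∀ i : Fin D, w i ≤ k := by
    intro i; simp only [hw]; split_ifs <;> omega
  have w0 : w i0 = n := by simp [hw, e0]
  have w1 : w i1 = k := by simp [hw, e1]
  have w2 : w i2 = 0 := by simp [hw, e2]
  have h1 := h.fr (fun i => c i + w i) (u0 + k) (by rw [hg]; omega)
    (by
      show A.N (c i0 + w i0) _ = true
      rw [N_eq h (by omega) hU hg (hW i0) _ (by omega), w0]
      omega)
    (by
      intro i
      rw [V_eq h hU (hW i) _ (by omega)]
      have := hwi i
      omega)
    (by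
      show A.V i1 (c i1 + w i1 + 1) _ = false
      rw [← Bool.not_eq_true, V_eq h hU (hW i1) _ (by omega), w1]
      omega)
    (by
      show A.W i2 (c i2 + w i2) = false
      rw [← Bool.not_eq_true, hW, w2]; omega)
    (by
      show A.W i2 (c i2 + w i2 + 1) = true
      rw [hW, w2]; omega)
  rw [h1, R_eq h hU hW hG w k hwi jf, hRg]
  simp [hw]

/-! ### doubling -/

theorem P_flip {F G : ℤ → Bool} {q c : ℤ} (hq : 1 ≤ q) (hF : ∀ y, F y = true ↔ q ∣ y - c) (hG : ∀ y, G (y + 1) = xor (G y) (F (y + 1))) :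
    ∀ y, G (y + q) = !G y := by
  have hper : ∀ y, F (y + q) = F y := by
    intro y
    apply bool_eq_of_iff
    rw [hF, hF, show y + q - c = (y - c) + q by ring]
    exact dvd_add_left (dvd_refl q)
  have h1 : ∀ y, xor (G (y + 1 + q)) (G (y + 1)) = xor (G (y + q)) (G y) := by
    intro y
    have e1 : G (y + 1 + q) = xor (G (y + q)) (F (y + 1)) := by
      rw [show y + 1 + q = y + q + 1 by ring, hG, show y + q + 1 = y + 1 + q by ring, hper]
    rw [e1, hG y]
    cases G (y + q) <;> cases G y <;> cases F (y + 1) <;> rfl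
  have h2 : ∀ y, xor (G (y + q)) (G y) = xor (G (c + q)) (G c) := by
    intro y
    have h3 : ∀ k : ℤ, xor (G (c + k + q)) (G (c + k)) = xor (G (c + q)) (G c) := by
      intro k
      induction k using Int.induction_on with
      | zero => simp
      | succ i ih => rw [← ih, ← add_assoc, h1]
      | pred i ih =>
        rw [← ih, ← h1 (c + (-(i : ℤ) - 1))]
        congr 2 <;> ring_nf
    have h4 := h3 (y - c)
    rw [show c + (y - c) = y by ring] at h4
    exact h4
  have h5 : ∀ k : ℤ, 0 ≤ k → (k < q → G (c + k) = G c) := by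
    apply int_up
    · intro _; simp
    · intro k hk ih hkq
      rw [← ih (by omega), ← add_assoc, hG]
      have : F (c + k + 1) = false := by
        rw [← Bool.not_eq_true, hF]
        intro hdvd
        rw [show c + k + 1 - c = k + 1 by ring] at hdvd
        have := Int.le_of_dvd (by omega) hdvd
        omega
      rw [this]; simp
  have h6 : G (c + q) = !G c := by
    have e1 := hG (c + (q - 1))
    rw [show c + (q - 1) + 1 = c + q by ring] at e1
    rw [e1, h5 (q - 1) (by omega) (by omega)]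
    have : F (c + q) = true := by rw [hF]; simp
    rw [this]; simp
  intro y
  have h7 := h2 y
  rw [h6] at h7
  revert h7
  cases G (y + q) <;> cases G y <;> cases G c <;> simp

theorem double {F G : ℤ → Bool} {q c : ℤ} (hq : 1 ≤ q) (hF : ∀ y, F y = true ↔ q ∣ y - c) (hG : ∀ y, G (y + 1) = xor (G y) (F (y + 1))) :
    ∃ c', ∀ y, (F y && G y) = true ↔ q * 2 ∣ y - c' := by
  have hfl := P_flip hq hF hG
  have hk : ∀ k : ℤ, G (c + q * k) = xor (G c) (decide (¬ (2 : ℤ) ∣ k)) := by
    intro k
    induction k using Int.induction_on with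
    | zero => simp
    | succ i ih =>
      rw [show c + q * ((i : ℤ) + 1) = c + q * i + q by ring, hfl, ih]
      have : decide (¬ (2 : ℤ) ∣ ((i : ℤ) + 1)) = !decide (¬ (2 : ℤ) ∣ (i : ℤ)) := by
        rw [← decide_not]; congr 1; apply propext; omega
      rw [this]
      cases G c <;> simp
    | pred i ih =>
      have e1 := hfl (c + q * (-(i : ℤ) - 1))
      rw [show c + q * (-(i : ℤ) - 1) + q = c + q * (-(i : ℤ)) by ring, ih] at e1
      have : decide (¬ (2 : ℤ) ∣ (-(i : ℤ) - 1)) = !decide (¬ (2 : ℤ) ∣ (-(i : ℤ))) := by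
        rw [← decide_not]; congr 1; apply propext; omega
      rw [this]
      revert e1
      cases G (c + q * (-(i : ℤ) - 1)) <;> cases G c <;> simp
  refine ⟨if G c = true then c else c + q, fun y => ?_⟩
  rw [Bool.and_eq_true, hF]
  constructor
  · rintro ⟨⟨k, hk1⟩, hGy⟩
    have hy : y = c + q * k := by linarith
    subst hy
    rw [hk] at hGy
    split_ifs with hGc
    · rw [hGc] at hGy
      simp at hGy
      obtain ⟨l, rfl⟩ := hGy
      exact ⟨l, by ring⟩
    · rw [Bool.not_eq_true] at hGc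
      rw [hGc] at hGy
      simp at hGy
      obtain ⟨l, hl⟩ : (2 : ℤ) ∣ k - 1 := by omega
      refine ⟨l, ?_⟩
      have : k = 2 * l + 1 := by linarith
      subst this
      ring
  · intro hd
    split_ifs at hd with hGc
    · obtain ⟨l, hl⟩ := hd
      have hy : y = c + q * (2 * l) := by linarith
      subst hy
      refine ⟨⟨2 * l, by ring⟩, ?_⟩
      rw [hk, hGc]; simp
    · rw [Bool.not_eq_true] at hGc
      obtain ⟨l, hl⟩ := hd
      have hy : y = c + q * (2 * l + 1) := by linarith
      subst hy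
      refine ⟨⟨2 * l + 1, by ring⟩, ?_⟩
      rw [hk, hGc]; simp

theorem Y_eq (h : Ok ρ jf i0 i1 i2 A) {u0 : ℤ} (hU : ∀ u, A.U u = true ↔ u0 ≤ u) (x : ℤ) (v : ℕ → ℕ) (hv0 : v 0 = 0)
    (hv : ∀ k : ℕ, v (k + 1) = if A.f (u0 + k) = true then v k + 1 else v k) :
    ∀ k : ℕ, isA A x (u0 + k) = true → ∃ c, ∀ y, A.Y x (u0 + k) y = true ↔ (2 : ℤ) ^ v k ∣ y - c := by
  intro k
  induction k with
  | zero =>
    intro hA
    refine ⟨0, fun y => ?_⟩
    have h1 : A.U (u0 - 1) = false := by rw [← Bool.not_eq_true, hU]; omega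
    have h2 := h.Yfl x (u0 - 1) y h1 (by rw [sub_add_cancel]; simpa using hA)
    rw [sub_add_cancel] at h2
    simp [h2, hv0]
  | succ k ih =>
    intro hA
    have e : u0 + ((k + 1 : ℕ) : ℤ) = u0 + k + 1 := by push_cast; ring
    rw [e] at hA ⊢
    have hUk : A.U (u0 + k) = true := by rw [hU]; omega
    have hA' := isA_down h hUk hA
    obtain ⟨c, hc⟩ := ih hA'
    by_cases hf : A.f (u0 + k) = true
    · obtain ⟨c', hc'⟩ := double (F := fun y => A.Y x (u0 + k) y) (G := fun y => A.P x (u0 + k) y) (q := (2 : ℤ) ^ v k) (c := c)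
        (one_le_pow₀ (by norm_num)) hc (fun y => h.P1 x (u0 + k) y hA')
      refine ⟨c', fun y => ?_⟩
      rw [h.Yst x (u0 + k) y hUk hA, if_pos hf, hv, if_pos hf, pow_succ]
      exact hc' y
    · refine ⟨c, fun y => ?_⟩
      rw [h.Yst x (u0 + k) y hUk hA, if_neg hf, hv, if_neg hf]
      exact hc y

theorem YP_per (h : Ok ρ jf i0 i1 i2 A) {u0 : ℤ} (hU : ∀ u, A.U u = true ↔ u0 ≤ u) {M : ℕ} (hM : ∀ u, u0 + M ≤ u → A.f u = false) :
    ∀ x u y, A.Y x u (y + 2 ^ (M + 1)) = A.Y x u y ∧ A.P x u (y + 2 ^ (M + 1)) = A.P x u y := by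
  intro x u y
  by_cases hA : isA A x u = true
  · have hu : u0 ≤ u := by
      rw [← hU]
      simp only [isA, kA, Bool.and_eq_true] at hA
      exact hA.1
    obtain ⟨k, rfl⟩ := Int.le.dest hu
    set v : ℕ → ℕ := fun k => Nat.rec 0 (fun k r => if A.f (u0 + k) = true then r + 1 else r) k with hv
    have hvs : ∀ k : ℕ, v (k + 1) = if A.f (u0 + k) = true then v k + 1 else v k := fun k => rfl
    have hvM : ∀ k, v k ≤ M ∧ v k ≤ k := by
      intro k
      induction k with
      | zero => simp [hv]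
      | succ k ih =>
        rw [hvs]
        split_ifs with hf
        · have : k < M := by
            by_contra hcon
            rw [hM _ (by omega)] at hf
            exact Bool.false_ne_true hf
          omega
        · omega
    obtain ⟨c, hc⟩ := Y_eq h hU x v rfl hvs k hA
    obtain ⟨t, ht⟩ := Nat.exists_eq_add_of_le (hvM k).1
    have hd : (2 : ℤ) ^ v k ∣ 2 ^ (M + 1) := pow_dvd_pow _ (by omega)
    refine ⟨?_, ?_⟩
    · apply bool_eq_of_iff
      rw [hc, hc, show y + 2 ^ (M + 1) - c = (y - c) + 2 ^ (M + 1) by ring]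
      exact dvd_add_left hd
    · have hfl := P_flip (F := fun y => A.Y x (u0 + k) y) (G := fun y => A.P x (u0 + k) y) (q := (2 : ℤ) ^ v k) (c := c)
        (one_le_pow₀ (by norm_num)) hc (fun y => h.P1 x (u0 + k) y hA)
      have h2 : ∀ (s : ℕ) y, A.P x (u0 + k) (y + 2 ^ v k * 2 * s) = A.P x (u0 + k) y := by
        intro s
        induction s with
        | zero => intro y; simp
        | succ s ih =>
          intro y
          rw [← ih y]
          have e1 := hfl (y + 2 ^ v k * 2 * s)
          have e2 := hfl (y + 2 ^ v k * 2 * s + 2 ^ v k)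
          rw [e1, Bool.not_not] at e2
          rw [← e2]
          congr 1
          push_cast
          ring
      have h3 := h2 (2 ^ t) y
      rw [← h3]
      congr 1
      rw [ht]
      push_cast
      ring
  · rw [Bool.not_eq_true] at hA
    obtain ⟨a1, a2⟩ := h.Y0 x u y hA
    obtain ⟨a3, a4⟩ := h.Y0 x u (y + 2 ^ (M + 1)) hA
    rw [a1, a2, a3, a4]
    exact ⟨rfl, rfl⟩

end Pool.Agent.Helper605.Sl
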