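import Mathlib
import Pool.Agent.Helper605.SlSoundC

set_option autoImplicit false
set_option linter.all false

namespace Pool.Agent.Helper605.Sl

open Function

variable {D m : ℕ} {ρ : Rule} {jf : Fin m} {i0 i1 i2 : Fin D} {A : Lay D m}

def sg (k : Co D) (K : ℤ) : Co D → ℤ := fun k' => if k' = k then K else 0

def vec (D n : ℕ) : Co D → ℤ
  | .a => n
  | .b => 1
  | _ => 0

theorem sound (φ : ℕ → ℕ → ℕ) {Rg : Fam} (hG : Good D m Rg ρ) (hRg : ∀ w, Rg jf w = decide (w 2 = φ (w 0) (w 1)))
    (e0 : (i0 : ℕ) = 0) (e1 : (i1 : ℕ) = 1) (e2 : (i2 : ℕ) = 2)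
    (h : Ok ρ jf i0 i1 i2 A) (n : ℕ)
    (hper : ∃ w : Co D → ℤ, w ≠ 0 ∧ ∀ z, conf i0 A (z + w) = conf i0 A z)
    (hpar : ∀ w : Co D → ℤ, (∀ z, conf i0 A (z + w) = conf i0 A z) → ∃ a b : ℤ, b ≠ 0 ∧ b • w = a • vec D n) :
    ∀ N, ∃ u, N ≤ u ∧ φ n u = 0 := by
  -- no period along a coordinate
  have hno : ∀ (k : Co D) (K : ℤ), k ≠ .b → K ≠ 0 → ¬ (∀ z, conf i0 A (z + sg k K) = conf i0 A z) := by
    intro k K hk hK hp
    obtain ⟨a, b, hb, hab⟩ := hpar _ hp
    have h1 := congrFun hab .b
    have h2 := congrFun hab k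
    simp only [Pi.smul_apply, sg, smul_eq_mul, vec] at h1 h2
    rw [if_neg (Ne.symm hk)] at h1
    rw [if_true] at h2
    have ha : a = 0 := by linarith
    rw [ha, zero_mul] at h2
    rcases mul_eq_zero.mp h2 with h3 | h3
    · exact hb h3
    · exact hK h3
  -- A marks exist
  have hA : ∃ x u, isA A x u = true := by
    by_contra hcon
    push Not at hcon
    apply hno .y 1 (by simp) (by norm_num)
    intro z
    have hY : ∀ x u y, A.Y x u y = false ∧ A.P x u y = false := fun x u y => h.Y0 x u y (by rw [← Bool.not_eq_true]; exact hcon x u)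
    simp [conf, sg, (hY _ _ _).1, (hY _ _ _).2]
  have hB : ∃ x u, isB A x u = true := by
    by_contra hcon
    push Not at hcon
    apply hno .z 1 (by simp) (by norm_num)
    intro z
    have hY : ∀ x u y, A.Z x u y = false := fun x u y => h.Z0 x u y (by rw [← Bool.not_eq_true]; exact hcon x u)
    simp [conf, sg, hY _ _ _]
  obtain ⟨u0, hU⟩ := floor h hA hB
  -- the period
  obtain ⟨w, hw0, hw⟩ := hper
  obtain ⟨a, b, hb, hab⟩ := hpar w hw
  have hwb : b * w .b = a := by
    have h1 := congrFun hab .b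
    simpa [vec] using h1
  have hwk : ∀ k, w k = w .b * vec D n k := by
    intro k
    have h1 := congrFun hab k
    simp only [Pi.smul_apply, smul_eq_mul] at h1
    apply mul_left_cancel₀ hb
    rw [h1, ← hwb]; ring
  have hwb0 : w .b ≠ 0 := by
    intro h1
    apply hw0
    funext k
    rw [hwk k, h1]; simp
  have hDper : ∀ a b, A.Dd (a + w .b * n) (b + w .b) = A.Dd a b := by
    intro a b
    have h1 := congrArg Cell.Dd (hw (mk 0 0 0 0 a b 0))
    simp only [conf, Pi.add_apply, mk] at h1
    rw [hwk .a] at h1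
    simpa [vec] using h1
  obtain ⟨k, hk, hDk⟩ : ∃ k : ℤ, 1 ≤ k ∧ ∀ a b, A.Dd (a + k * n) (b + k) = A.Dd a b := by
    rcases lt_or_gt_of_ne hwb0 with h1 | h1
    · refine ⟨-w .b, by omega, fun a b => ?_⟩
      rw [← hDper (a + -w .b * n) (b + -w .b)]
      congr 1 <;> ring
    · exact ⟨w .b, by omega, hDper⟩
  have hDnc : ¬ ∃ τ : Bool, ∀ a b, A.Dd a b = τ := by
    rintro ⟨τ, hτ⟩
    apply hno .a 1 (by simp) (by norm_num)
    intro z
    have hE := E_const h hU hτ
    simp only [conf, sg, Pi.add_apply]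
    simp [hτ, hE (z .u) (z .a + 1) (z .a)]
  obtain ⟨s, hs⟩ := rows h (Int.natCast_nonneg n) hk hDk hDnc
  have hg := event h hU hs hk hDk
  -- walls
  have hWc : ∀ i, ∃ c, ∀ w, A.W i w = true ↔ c + 1 ≤ w := by
    intro i
    have hconst : ∀ τ : Bool, (∀ w, A.W i w = τ) → False := by
      intro τ hτ
      apply hno (.w i) 1 (by simp) (by norm_num)
      intro z
      have hV := V_const h hU hτ
      have hR : ∀ (w : Fin D → ℤ) u j, A.R j w u = false := by
        intro w u j
        apply h.Rz
        intro h1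
        have := h1 i
        rw [hV] at this
        exact Bool.false_ne_true this
      have e1 : (conf i0 A (z + sg (.w i) 1)).N = (conf i0 A z).N := by
        simp only [conf, sg, Pi.add_apply]
        by_cases hi : i0 = i
        · subst hi
          have hN := N_const h hU hτ
          rw [hN, hN]
        · simp [hi]
      have e2 : (conf i0 A (z + sg (.w i) 1)).W = (conf i0 A z).W := by
        simp only [conf, sg, Pi.add_apply]
        funext i'
        by_cases hi : i' = i
        · subst hi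
          rw [hτ, hτ]
        · simp [hi]
      have e3 : (conf i0 A (z + sg (.w i) 1)).V = (conf i0 A z).V := by
        simp only [conf, sg, Pi.add_apply]
        funext i'
        by_cases hi : i' = i
        · subst hi
          rw [hV, hV]
        · simp [hi]
      have e4 : (conf i0 A (z + sg (.w i) 1)).R = (conf i0 A z).R := by
        simp only [conf]
        funext j
        rw [hR, hR]
      simp only [conf, Cell.mk.injEq] at e1 e2 e3 e4 ⊢
      refine ⟨?_, ?_, ?_, ?_, ?_, ?_, ?_, ?_, ?_, ?_, e1, e2, e3, e4⟩ <;> simp [sg]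
    rcases mono_cases (A.W i) (h.Wm i) with h1 | h1 | ⟨c, h1⟩
    · exact (hconst _ h1).elim
    · exact (hconst _ h1).elim
    · exact ⟨c - 1, fun w => by rw [h1]; omega⟩
  choose c hW using hWc
  have hf := f_eq φ hG hRg e0 e1 e2 h hU hW (n := n) hg
  intro N
  by_contra hcon
  push Not at hcon
  have hYP := YP_per h hU (M := max N n) (by
    intro u hu
    obtain ⟨k, rfl⟩ := Int.le.dest (show u0 ≤ u by omega)
    rw [hf k (by omega)]
    have := hcon k (by omega)
    simp [Ne.symm this])
  apply hno .y (2 ^ (max N n + 1)) (by simp) (by positivity)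
  intro z
  simp only [conf, sg, Pi.add_apply]
  simp [(hYP _ _ _).1, (hYP _ _ _).2]

end Pool.Agent.Helper605.Sl
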