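import Mathlib
import Pool.Agent.Helper605.SlSoundD

set_option autoImplicit false
set_option linter.all false

namespace Pool.Agent.Helper605.Sl

open Function

variable {D m : ℕ} {ρ : Rule} {jf : Fin m} {i0 i1 i2 : Fin D}

def g0 (r : ℤ) : Fin 4 := if r = 0 then 1 else if r = 1 then 2 else if r = 2 then 2 else if r = 3 then 3 else 0

theorem g0A (X X' t : ℤ) (ht : t = 0 ∨ t = 1) (hX : X' = X ∨ X' = X + 1) :
    kA true (decide (t = 1)) (g0 ((X + 4 * t) % 6)) (g0 ((X' + 4 * t) % 6)) = true ↔ X' = X + 1 ∧ X % 3 = 2 := by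
  rcases hX with rfl | rfl
  · constructor
    · intro h; simp [kA] at h
    · rintro ⟨h, _⟩; omega
  · have h6 : X % 6 = 0 ∨ X % 6 = 1 ∨ X % 6 = 2 ∨ X % 6 = 3 ∨ X % 6 = 4 ∨ X % 6 = 5 := by omega
    rcases ht with rfl | rfl
    · rcases h6 with h | h | h | h | h | h
      · rw [show (X + 4 * 0) % 6 = 0 by omega, show (X + 1 + 4 * 0) % 6 = 1 by omega]
        constructor
        · intro hh; exact absurd hh (by decide)
        · intro hh; omega
      · rw [show (X + 4 * 0) % 6 = 1 by omega, show (X + 1 + 4 * 0) % 6 = 2 by omega]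
        constructor
        · intro hh; exact absurd hh (by decide)
        · intro hh; omega
      · rw [show (X + 4 * 0) % 6 = 2 by omega, show (X + 1 + 4 * 0) % 6 = 3 by omega]
        constructor
        · intro hh; omega
        · intro hh; decide
      · rw [show (X + 4 * 0) % 6 = 3 by omega, show (X + 1 + 4 * 0) % 6 = 4 by omega]
        constructor
        · intro hh; exact absurd hh (by decide)
        · intro hh; omega
      · rw [show (X + 4 * 0) % 6 = 4 by omega, show (X + 1 + 4 * 0) % 6 = 5 by omega]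
        constructor
        · intro hh; exact absurd hh (by decide)
        · intro hh; omega
      · rw [show (X + 4 * 0) % 6 = 5 by omega, show (X + 1 + 4 * 0) % 6 = 0 by omega]
        constructor
        · intro hh; omega
        · intro hh; decide
    · rcases h6 with h | h | h | h | h | h
      · rw [show (X + 4 * 1) % 6 = 4 by omega, show (X + 1 + 4 * 1) % 6 = 5 by omega]
        constructor
        · intro hh; exact absurd hh (by decide)
        · intro hh; omega
      · rw [show (X + 4 * 1) % 6 = 5 by omega, show (X + 1 + 4 * 1) % 6 = 0 by omega]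
        constructor
        · intro hh; exact absurd hh (by decide)
        · intro hh; omega
      · rw [show (X + 4 * 1) % 6 = 0 by omega, show (X + 1 + 4 * 1) % 6 = 1 by omega]
        constructor
        · intro hh; omega
        · intro hh; decide
      · rw [show (X + 4 * 1) % 6 = 1 by omega, show (X + 1 + 4 * 1) % 6 = 2 by omega]
        constructor
        · intro hh; exact absurd hh (by decide)
        · intro hh; omega
      · rw [show (X + 4 * 1) % 6 = 2 by omega, show (X + 1 + 4 * 1) % 6 = 3 by omega]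
        constructor
        · intro hh; exact absurd hh (by decide)
        · intro hh; omega
      · rw [show (X + 4 * 1) % 6 = 3 by omega, show (X + 1 + 4 * 1) % 6 = 4 by omega]
        constructor
        · intro hh; omega
        · intro hh; decide

theorem g0R1 (X X' t : ℤ) (hX : X' = X ∨ X' = X + 1) :
    g0 ((X' + 4 * t) % 6) = g0 ((X + 4 * t) % 6) ∨ g0 ((X' + 4 * t) % 6) = g0 ((X + 4 * t) % 6) + 1 := by
  rcases hX with rfl | rfl
  · exact Or.inl rfl
  · rw [show X + 1 + 4 * t = (X + 4 * t) + 1 by ring]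
    generalize X + 4 * t = Y
    have h6 : Y % 6 = 0 ∨ Y % 6 = 1 ∨ Y % 6 = 2 ∨ Y % 6 = 3 ∨ Y % 6 = 4 ∨ Y % 6 = 5 := by omega
    rcases h6 with h | h | h | h | h | h
    · rw [h, show (Y + 1) % 6 = 1 by omega]; decide
    · rw [h, show (Y + 1) % 6 = 2 by omega]; decide
    · rw [h, show (Y + 1) % 6 = 3 by omega]; decide
    · rw [h, show (Y + 1) % 6 = 4 by omega]; decide
    · rw [h, show (Y + 1) % 6 = 5 by omega]; decide
    · rw [h, show (Y + 1) % 6 = 0 by omega]; decide

theorem g0odd (r : ℤ) : odd4 (g0 r) = true ↔ r = 0 ∨ r = 3 := by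
  unfold g0
  split_ifs with h1 h2 h3 h4
  · simp [odd4, h1]
  · simp [h2]; decide
  · simp [h3]; decide
  · simp [h4]; decide
  · simp [h1, h4]; decide

theorem g0zero (r : ℤ) : g0 r = 0 ↔ r ≠ 0 ∧ r ≠ 1 ∧ r ≠ 2 ∧ r ≠ 3 := by
  unfold g0
  split_ifs with h1 h2 h3 h4
  · simp [h1]
  · simp [h2]
  · simp [h3]
  · simp [h4]
  · simp [h1, h2, h3, h4]

theorem g0R2 (X t : ℤ) (ht : t = 0 ∨ t = 1) :
    odd4 (g0 ((X / 2 + 4 * (1 - t)) % 6)) = true ↔ g0 ((X + 4 * t) % 6) = 0 := by
  rw [g0odd, g0zero]
  rcases ht with rfl | rfl <;> omega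

/-- the explicit configuration -/
def A0 (φ : ℕ → ℕ → ℕ) (n : ℕ) (Rg : Fam) : Lay D m where
  U := fun u => decide (0 ≤ u)
  lam := fun u => decide (u % 2 = 1)
  gam := fun x u => if 0 ≤ u then g0 ((x / 2 ^ u.toNat + 4 * (u % 2)) % 6) else 0
  Y := fun x u y => decide (0 ≤ u ∧ 3 * 2 ^ u.toNat ∣ x + 1 ∧ (2 : ℤ) ^ Nat.count (fun k => n ≤ k ∧ φ n k = 0) u.toNat ∣ y)
  P := fun x u y => decide (0 ≤ u ∧ 3 * 2 ^ u.toNat ∣ x + 1 ∧ (y / (2 : ℤ) ^ Nat.count (fun k => n ≤ k ∧ φ n k = 0) u.toNat) % 2 = 0)
  Z := fun x u z => kB (decide (0 ≤ u)) (decide (u % 2 = 1)) (if 0 ≤ u then g0 ((x / 2 ^ u.toNat + 4 * (u % 2)) % 6) else 0)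
    (if 0 ≤ u then g0 (((x + 1) / 2 ^ u.toNat + 4 * (u % 2)) % 6) else 0) && decide (0 ≤ z)
  f := fun u => decide ((n : ℤ) ≤ u ∧ φ n u.toNat = 0)
  g := fun u => decide ((n : ℤ) ≤ u)
  Dd := fun a b => decide (n * b ≤ a)
  E := fun a b u => decide (0 ≤ u ∧ n * b + min u n ≤ a)
  N := fun w u => decide (0 ≤ u ∧ w = min u n)
  W := fun _ w => decide (1 ≤ w)
  V := fun _ w u => decide (0 ≤ w ∧ w ≤ u)
  R := fun j w u => decide (∀ i, 0 ≤ w i ∧ w i ≤ u) && Rg j (fun k => if h : k < D then (w ⟨k, h⟩).toNat else 0)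

theorem isA_A0 (φ : ℕ → ℕ → ℕ) (n : ℕ) (Rg : Fam) (x u : ℤ) :
    isA (A0 φ n Rg : Lay D m) x u = true ↔ 0 ≤ u ∧ 3 * 2 ^ u.toNat ∣ x + 1 := by
  by_cases hu : 0 ≤ u
  · simp only [isA, A0, hu, if_true, decide_true, true_and]
    set q : ℤ := 2 ^ u.toNat with hq
    have hq1 : 0 < q := by positivity
    have hX : (x + 1) / q = x / q ∨ (x + 1) / q = x / q + 1 := by
      have h1 := Int.ediv_le_ediv hq1 (show x ≤ x + 1 by omega)
      have h2 := Int.ediv_le_ediv hq1 (show x + 1 ≤ x + 1 * q by omega)
      rw [Int.add_mul_ediv_right x 1 (by omega)] at h2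
      omega
    rw [g0A (x / q) ((x + 1) / q) (u % 2) (by omega) hX]
    have h3 := Int.mul_ediv_add_emod x q
    have h4 := Int.mul_ediv_add_emod (x + 1) q
    have h5 := Int.emod_nonneg x (ne_of_gt hq1)
    have h6 := Int.emod_lt_of_pos x hq1
    have h7 := Int.emod_nonneg (x + 1) (ne_of_gt hq1)
    constructor
    · rintro ⟨h1, h2⟩
      rw [h1, mul_add, mul_one] at h4
      have h8 : (x + 1) % q = 0 := by omega
      rw [h8] at h4
      obtain ⟨k, hk⟩ : (3 : ℤ) ∣ x / q + 1 := by omega
      refine ⟨k, ?_⟩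
      rw [← h4, show q * (x / q) + q + 0 = q * (x / q + 1) by ring, hk]
      ring
    · rintro ⟨k, hk⟩
      have h8 : x + 1 = q * (3 * k) := by rw [hk]; ring
      have h9 : (x + 1) / q = 3 * k := by rw [h8]; exact Int.mul_ediv_cancel_left _ (ne_of_gt hq1)
      rcases hX with h10 | h10
      · exfalso
        rw [h9] at h10
        rw [← h10] at h3
        omega
      · refine ⟨h10, ?_⟩
        omega
  · simp [isA, A0, kA, hu]

theorem count_succ' (φ : ℕ → ℕ → ℕ) (n k : ℕ) : Nat.count (fun k => n ≤ k ∧ φ n k = 0) (k + 1) =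
    if n ≤ k ∧ φ n k = 0 then Nat.count (fun k => n ≤ k ∧ φ n k = 0) k + 1 else Nat.count (fun k => n ≤ k ∧ φ n k = 0) k := by
  rw [Nat.count_succ]
  split_ifs <;> rfl

theorem ok_A0 (φ : ℕ → ℕ → ℕ) {Rg : Fam} (hG : Good D m Rg ρ) (hRg : ∀ w, Rg jf w = decide (w 2 = φ (w 0) (w 1)))
    (e0 : (i0 : ℕ) = 0) (e1 : (i1 : ℕ) = 1) (e2 : (i2 : ℕ) = 2) (n : ℕ) : Ok ρ jf i0 i1 i2 (A0 φ n Rg) := by
  constructor
  case U_mono => intro u; simp only [A0, decide_eq_true_eq]; omega
  case lam =>
    intro u
    simp only [A0]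
    rw [← decide_not]
    congr 1
    apply propext
    omega
  case gam0 => intro x u; simp only [A0, decide_eq_false_iff_not]; intro h; rw [if_neg h]
  case R1 =>
    intro x u
    simp only [A0, decide_eq_true_eq]
    intro h
    rw [if_pos h, if_pos h]
    apply g0R1
    have hq1 : (0 : ℤ) < 2 ^ u.toNat := by positivity
    have h1 := Int.ediv_le_ediv hq1 (show x ≤ x + 1 by omega)
    have h2 := Int.ediv_le_ediv hq1 (show x + 1 ≤ x + 1 * 2 ^ u.toNat by omega)
    rw [Int.add_mul_ediv_right x 1 (by omega)] at h2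
    omega
  case R2 =>
    intro x u
    simp only [A0, decide_eq_true_eq]
    intro h
    rw [if_pos h, if_pos (by omega : 0 ≤ u + 1)]
    have h1 : (u + 1).toNat = u.toNat + 1 := by omega
    have h2 : x / 2 ^ (u + 1).toNat = x / 2 ^ u.toNat / 2 := by
      rw [h1, pow_succ, ← Int.ediv_ediv_of_nonneg (by positivity)]
    have h3 : (u + 1) % 2 = 1 - u % 2 := by omega
    rw [h2, h3]
    exact g0R2 _ _ (by omega)
  case Y0 =>
    intro x u y h
    rw [← Bool.not_eq_true, isA_A0] at h
    simp only [A0, decide_eq_false_iff_not]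
    tauto
  case P1 =>
    intro x u y h
    rw [isA_A0] at h
    simp only [A0, h.1, h.2, true_and]
    set q : ℤ := (2 : ℤ) ^ Nat.count (fun k => n ≤ k ∧ φ n k = 0) u.toNat with hq
    have hq1 : 0 < q := by positivity
    have h3 := Int.mul_ediv_add_emod y q
    have h4 := Int.mul_ediv_add_emod (y + 1) q
    have h5 := Int.emod_nonneg y (ne_of_gt hq1)
    have h6 := Int.emod_lt_of_pos y hq1
    have h7 := Int.emod_nonneg (y + 1) (ne_of_gt hq1)
    by_cases hd : q ∣ y + 1
    · obtain ⟨k, hk⟩ := hd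
      have h8 : (y + 1) / q = k := by rw [hk]; exact Int.mul_ediv_cancel_left _ (ne_of_gt hq1)
      have h9 : y / q = k - 1 := by
        rw [show y = (q - 1) + (k - 1) * q by linarith, Int.add_mul_ediv_right _ _ (ne_of_gt hq1),
          Int.ediv_eq_zero_of_lt (by omega) (by omega)]
        ring
      rw [h8, h9]
      have h10 : q ∣ y + 1 := ⟨k, hk⟩
      simp only [h10, decide_true, Bool.xor_true]
      rw [← decide_not]
      congr 1
      apply propext
      omega
    · have h8 : (y + 1) / q = y / q := by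
        have h9 : y % q + 1 < q := by
          by_contra hcon
          apply hd
          refine ⟨y / q + 1, ?_⟩
          rw [mul_add, mul_one]
          omega
        exact ((Int.ediv_emod_unique hq1).mpr ⟨by omega, by omega, h9⟩ : (y + 1) / q = y / q ∧ (y + 1) % q = y % q + 1).1
      rw [h8]
      simp [hd]
  case Yfl =>
    intro x u y h1 h2
    rw [isA_A0] at h2
    simp only [A0, decide_eq_false_iff_not] at h1
    have h3 : u + 1 = 0 := by omega
    rw [h3] at h2 ⊢
    simp only [A0, decide_eq_true_eq]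
    refine ⟨le_rfl, h2.2, ?_⟩
    simp
  case Yst =>
    intro x u y h1 h2
    rw [isA_A0] at h2
    simp only [A0, decide_eq_true_eq] at h1
    obtain ⟨k, rfl⟩ := Int.eq_ofNat_of_zero_le h1
    have h3 : ((k : ℤ) + 1).toNat = k + 1 := by omega
    have h4 : ((k : ℤ)).toNat = k := by omega
    have h5 : (3 : ℤ) * 2 ^ k ∣ x + 1 := by
      rw [h3] at h2
      exact dvd_trans (mul_dvd_mul_left 3 (pow_dvd_pow 2 (by omega))) h2.2
    have h6 : (3 : ℤ) * 2 ^ (k + 1) ∣ x + 1 := by rw [h3] at h2; exact h2.2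
    simp only [A0, h3, h4, h5, h6, h1, h2.1, true_and, decide_eq_true_eq, Nat.cast_le]
    rw [count_succ']
    by_cases hf : n ≤ k ∧ φ n k = 0
    · rw [if_pos hf, if_pos hf, ← Bool.decide_and]
      congr 1
      apply propext
      set q : ℤ := (2 : ℤ) ^ Nat.count (fun k => n ≤ k ∧ φ n k = 0) k with hq
      have hq1 : 0 < q := by positivity
      rw [pow_succ, ← hq]
      constructor
      · rintro ⟨l, rfl⟩
        refine ⟨⟨2 * l, by ring⟩, ?_⟩
        rw [mul_assoc, Int.mul_ediv_cancel_left _ (ne_of_gt hq1)]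
        omega
      · rintro ⟨⟨l, rfl⟩, h7⟩
        rw [Int.mul_ediv_cancel_left _ (ne_of_gt hq1)] at h7
        obtain ⟨l', rfl⟩ : (2 : ℤ) ∣ l := by omega
        exact ⟨l', by ring⟩
    · rw [if_neg hf, if_neg hf]
  case Z0 =>
    intro x u z h
    simp only [isB, A0] at h ⊢
    rw [h]; rfl
  case Zm =>
    intro x u z
    simp only [A0, Bool.and_eq_true, decide_eq_true_eq]
    rintro ⟨h1, h2⟩
    exact ⟨h1, by omega⟩
  case f0 => intro u; simp only [A0, decide_eq_false_iff_not]; tauto
  case g0 => intro u; simp only [A0, decide_eq_false_iff_not]; omega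
  case gm => intro u; simp only [A0, decide_eq_true_eq]; omega
  case Dm => intro a b; simp only [A0, decide_eq_true_eq]; omega
  case Db => intro a b; simp only [A0, decide_eq_true_eq]; intro h; rw [mul_add, mul_one] at h; omega
  case E0 => intro a b u; simp only [A0, decide_eq_false_iff_not]; tauto
  case Efl =>
    intro a b u
    simp only [A0, decide_eq_false_iff_not, decide_eq_true_eq]
    intro h1 h2
    congr 1
    apply propext
    have h3 : u + 1 = 0 := by omega
    rw [h3]
    have : min 0 (n : ℤ) = 0 := by omega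
    rw [this]
    simp
  case Est =>
    intro a b u
    simp only [A0, decide_eq_false_iff_not, decide_eq_true_eq]
    intro h1 h2
    congr 1
    apply propext
    omega
  case Eg =>
    intro a b u
    simp only [A0, decide_eq_true_eq]
    intro h1
    congr 1
    apply propext
    rw [mul_add, mul_one, min_eq_right h1]
    constructor
    · exact fun h => h.2
    · exact fun h => ⟨by omega, h⟩
  case Ei =>
    intro a b u
    simp only [A0, decide_eq_false_iff_not, decide_eq_true_eq, mul_add, mul_one]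
    intro h1 h2 h3 h4 h5
    omega
  case N0 => intro w u; simp only [A0, decide_eq_false_iff_not]; tauto
  case Nfl =>
    intro w u
    simp only [A0, decide_eq_false_iff_not, decide_eq_true_eq]
    intro h1 h2
    rw [← decide_not, ← Bool.decide_and]
    congr 1
    apply propext
    omega
  case Nst =>
    intro w u
    simp only [A0, decide_eq_false_iff_not, decide_eq_true_eq]
    intro h1 h2
    congr 1
    apply propext
    omega
  case Nst' =>
    intro w u
    simp only [A0, decide_eq_true_eq]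
    intro h1 h2
    congr 1
    apply propext
    omega
  case Wm => intro i w; simp only [A0, decide_eq_true_eq]; omega
  case V0 => intro i w u; simp only [A0, decide_eq_false_iff_not]; omega
  case Vfl =>
    intro i w u
    simp only [A0, decide_eq_false_iff_not, decide_eq_true_eq]
    intro h1 h2
    rw [← decide_not, ← Bool.decide_and]
    congr 1
    apply propext
    omega
  case Vst =>
    intro i w u
    simp only [A0, decide_eq_true_eq]
    intro h1
    rw [← Bool.decide_or]
    congr 1
    apply propext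
    omega
  case Rz =>
    intro w u
    simp only [A0, decide_eq_true_eq]
    intro h1 j
    rw [decide_eq_false h1]; rfl
  case Rc =>
    intro w u
    simp only [A0, decide_eq_true_eq]
    intro h1 j
    have h2 : ∀ i, 0 ≤ w i ∧ w i ≤ u + 1 := fun i => ⟨(h1 i).1, by have := (h1 i).2; omega⟩
    rw [decide_eq_true h1, decide_eq_true h2]
  case Rr =>
    intro w u
    simp only [A0, decide_eq_true_eq]
    intro h1 h2
    set w' : Pt := fun k => if h : k < D then (w ⟨k, h⟩).toNat else 0 with hw'
    refine hG.loc _ _ _ _ ?_ ?_ (hG.sat w')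
    · intro ε hε j hj
      rw [dif_pos hj]
      have h3 : ∀ i : Fin D, 0 ≤ (w i + if ε i = true then 1 else 0) ∧ (w i + if ε i = true then 1 else 0) ≤ u := by
        intro i
        have := h1 i
        have := h2 i
        split_ifs <;> omega
      rw [decide_eq_true h3, Bool.true_and]
      apply hG.dep j hj
      intro i hi
      simp only [bump, hw', dif_pos hi]
      have := (h1 ⟨i, hi⟩).1
      cases ε i
      · simp
      · simp; omega
    · intro i hi
      rw [dif_pos hi]
      simp only [hw', dif_pos hi]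
      rw [← decide_not, ← Bool.decide_and, Bool.beq_eq_decide_eq]
      congr 1
      apply propext
      have := (h1 ⟨i, hi⟩).1
      omega
  case fr =>
    intro w u
    simp only [A0, decide_eq_true_eq, decide_eq_false_iff_not]
    intro h1 h2 h3 h4 h5 h6
    rw [decide_eq_true h3, Bool.true_and, hRg]
    have hD0 : 0 < D := by have := i0.2; omega
    have hD1 : 1 < D := by have := i1.2; omega
    have hD2 : 2 < D := by have := i2.2; omega
    have f0 : (⟨0, hD0⟩ : Fin D) = i0 := Fin.ext e0.symm
    have f1 : (⟨1, hD1⟩ : Fin D) = i1 := Fin.ext e1.symm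
    have f2 : (⟨2, hD2⟩ : Fin D) = i2 := Fin.ext e2.symm
    rw [dif_pos hD0, dif_pos hD1, dif_pos hD2, f0, f1, f2]
    have g0 : (w i0).toNat = n := by omega
    have g1 : w i1 = u := by have := h3 i1; omega
    have g2 : (w i2).toNat = 0 := by omega
    rw [g0, g1, g2]
    congr 1
    apply propext
    constructor
    · exact fun h => h.2.symm
    · exact fun h => ⟨h1, h.symm⟩

theorem complete (φ : ℕ → ℕ → ℕ) {Rg : Fam} (n : ℕ) (hinf : ∀ N, ∃ u, N ≤ u ∧ φ n u = 0) :
    (∃ w : Co D → ℤ, w ≠ 0 ∧ ∀ z, conf i0 (A0 φ n Rg : Lay D m) (z + w) = conf i0 (A0 φ n Rg) z) ∧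
    (∀ w : Co D → ℤ, (∀ z, conf i0 (A0 φ n Rg : Lay D m) (z + w) = conf i0 (A0 φ n Rg) z) → ∃ a b : ℤ, b ≠ 0 ∧ b • w = a • vec D n) := by
  constructor
  · refine ⟨vec D n, ?_, ?_⟩
    · intro h
      have := congrFun h .b
      simp [vec] at this
    · intro z
      have h1 : ((n : ℤ) * (z .b + 1) ≤ z .a + n) ↔ ((n : ℤ) * z .b ≤ z .a) := by rw [mul_add, mul_one]; omega
      have h2 : ((n : ℤ) * (z .b + 1) + min (z .u) n ≤ z .a + n) ↔ ((n : ℤ) * z .b + min (z .u) n ≤ z .a) := by rw [mul_add, mul_one]; omega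
      simp only [conf, Pi.add_apply, vec, add_zero, A0, h1, h2]
  · intro p hp
    have hu : p .u = 0 := by
      have h1 := congrArg Cell.U (hp 0)
      have h2 := congrArg Cell.U (hp (-p))
      simp only [conf, A0, Pi.add_apply, Pi.zero_apply, Pi.neg_apply, zero_add, neg_add_cancel, le_refl, decide_true] at h1 h2
      rw [decide_eq_true_eq] at h1
      rw [eq_comm, decide_eq_true_eq] at h2
      omega
    have hw : ∀ i, p (.w i) = 0 := by
      intro i
      have h1 := congrArg (fun c => Cell.W c i) (hp (fun _ => 1))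
      have h2 := congrArg (fun c => Cell.W c i) (hp (1 - p))
      simp only [conf, A0, Pi.add_apply, Pi.one_apply, Pi.sub_apply, sub_add_cancel, le_refl, decide_true] at h1 h2
      rw [decide_eq_true_eq] at h1
      rw [eq_comm, decide_eq_true_eq] at h2
      omega
    have hgam : ∀ x u, (A0 φ n Rg : Lay D m).gam (x + p .x) u = (A0 φ n Rg : Lay D m).gam x u := by
      intro x u
      have h1 := congrArg Cell.gam (hp (mk x u 0 0 0 0 0))
      simp only [conf, Pi.add_apply, mk, hu, add_zero] at h1
      exact h1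
    have hisA : ∀ x u, isA (A0 φ n Rg : Lay D m) (x + p .x) u = isA (A0 φ n Rg : Lay D m) x u := by
      intro x u
      unfold isA
      rw [hgam, show x + p .x + 1 = (x + 1) + p .x by ring, hgam]
    have hx : p .x = 0 := by
      have h1 : ∀ k : ℕ, (3 : ℤ) * 2 ^ k ∣ p .x := by
        intro k
        have h2 : isA (A0 φ n Rg : Lay D m) (-1 + p .x) k = true := by
          rw [hisA, isA_A0]
          exact ⟨Int.natCast_nonneg k, by simp⟩
        rw [isA_A0] at h2
        have h3 := h2.2
        rw [Int.toNat_natCast, show -1 + p .x + 1 = p .x by ring] at h3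
        exact h3
      apply Int.eq_zero_of_abs_lt_dvd (h1 (p .x).natAbs)
      have h2 : ((p .x).natAbs : ℤ) < 2 ^ (p .x).natAbs := by exact_mod_cast Nat.lt_two_pow_self
      rw [Int.abs_eq_natAbs]
      linarith
    have hz : p .z = 0 := by
      have hB : kB (decide ((0 : ℤ) ≤ 0)) (decide ((0 : ℤ) % 2 = 1)) (if (0 : ℤ) ≤ 0 then g0 (((0 : ℤ) / 2 ^ (0 : ℤ).toNat + 4 * (0 % 2)) % 6) else 0)
        (if (0 : ℤ) ≤ 0 then g0 ((((0 : ℤ) + 1) / 2 ^ (0 : ℤ).toNat + 4 * (0 % 2)) % 6) else 0) = true := by decide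
      have hZ : ∀ z, (A0 φ n Rg : Lay D m).Z 0 0 z = decide (0 ≤ z) := by
        intro z
        simp only [A0]
        rw [hB, Bool.true_and]
      have h1 : ∀ z, (A0 φ n Rg : Lay D m).Z 0 0 (z + p .z) = (A0 φ n Rg : Lay D m).Z 0 0 z := by
        intro z
        have h1 := congrArg Cell.Z (hp (mk 0 0 0 z 0 0 0))
        simp only [conf, Pi.add_apply, mk, hu, hx, add_zero] at h1
        exact h1
      have h2 := h1 0
      have h3 := h1 (-p .z)
      rw [hZ, hZ] at h2 h3
      simp only [zero_add, neg_add_cancel, le_refl, decide_true, decide_eq_true_eq] at h2 h3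
      rw [eq_comm, decide_eq_true_eq] at h3
      omega
    have hcnt : ∀ M : ℕ, ∃ k, M ≤ Nat.count (fun k => n ≤ k ∧ φ n k = 0) k := by
      intro M
      induction M with
      | zero => exact ⟨0, Nat.zero_le _⟩
      | succ M ih =>
        obtain ⟨k, hk⟩ := ih
        obtain ⟨u, hu1, hu2⟩ := hinf (max k n)
        refine ⟨u + 1, ?_⟩
        rw [count_succ', if_pos ⟨by omega, hu2⟩]
        have := Nat.count_monotone (fun k => n ≤ k ∧ φ n k = 0) (show k ≤ u by omega)
        omega
    have hy : p .y = 0 := by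
      have h1 : ∀ M : ℕ, (2 : ℤ) ^ M ∣ p .y := by
        intro M
        obtain ⟨k, hk⟩ := hcnt M
        have h1 := congrArg Cell.Y (hp (mk (-1) k 0 0 0 0 0))
        simp only [conf, Pi.add_apply, mk, hu, hx, add_zero, zero_add, A0, Int.toNat_natCast, Int.natCast_nonneg, true_and, neg_add_cancel,
          dvd_zero, and_true, decide_true, decide_eq_true_eq] at h1
        exact dvd_trans (pow_dvd_pow 2 hk) h1
      apply Int.eq_zero_of_abs_lt_dvd (h1 (p .y).natAbs)
      rw [Int.abs_eq_natAbs]
      exact_mod_cast Nat.lt_two_pow_self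
    have ha : p .a = n * p .b := by
      have h1 := congrArg Cell.Dd (hp 0)
      have h2 := congrArg Cell.Dd (hp (-p))
      simp only [conf, A0, Pi.add_apply, Pi.zero_apply, Pi.neg_apply, zero_add, neg_add_cancel, mul_zero, le_refl, decide_true] at h1 h2
      rw [decide_eq_true_eq] at h1
      rw [eq_comm, decide_eq_true_eq] at h2
      rw [mul_neg] at h2
      omega
    refine ⟨p .b, 1, one_ne_zero, ?_⟩
    funext k
    cases k <;> simp [vec, hu, hx, hy, hz, hw, ha, mul_comm]

end Pool.Agent.Helper605.Sl
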