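import Mathlib

set_option autoImplicit false
set_option linter.all false

namespace Pool.Agent.Helper605.Sl

open Nat.Partrec Denumerable

/-- code `e` on `(e, a, b.1)` outputs `0` within `b.2` steps. -/
def succT (e a b : ℕ) : Bool :=
  decide (Code.evaln b.unpair.2 (ofNat Code e) (Nat.pair e (Nat.pair a b.unpair.1)) = some 0)

def stp (e : ℕ) (s : ℕ × ℕ) : ℕ × ℕ := if succT e s.1 s.2 = true then (s.1 + 1, 0) else (s.1, s.2 + 1)

def st (e : ℕ) : ℕ → ℕ × ℕ := fun u => Nat.rec (0, 0) (fun _ s => stp e s) u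

theorem st_zero (e : ℕ) : st e 0 = (0, 0) := rfl
theorem st_succ (e u : ℕ) : st e (u + 1) = stp e (st e u) := rfl

def ph (e u : ℕ) : ℕ := if succT e (st e u).1 (st e u).2 = true then 0 else 1

theorem primrec_succT : Primrec fun p : ℕ × ℕ × ℕ => succT p.1 p.2.1 p.2.2 := by
  have h1 : Primrec fun p : ℕ × ℕ × ℕ => Code.evaln p.2.2.unpair.2 (ofNat Code p.1) (Nat.pair p.1 (Nat.pair p.2.1 p.2.2.unpair.1)) :=
    Code.primrec_evaln.comp (Primrec.pair (Primrec.pair (Primrec.snd.comp (Primrec.unpair.comp (Primrec.snd.comp Primrec.snd)))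
      ((Primrec.ofNat Code).comp Primrec.fst)) (Primrec₂.natPair.comp Primrec.fst (Primrec₂.natPair.comp (Primrec.fst.comp Primrec.snd)
        (Primrec.fst.comp (Primrec.unpair.comp (Primrec.snd.comp Primrec.snd))))))
  exact (Primrec.eq.comp h1 (Primrec.const (some 0))).decide

theorem primrec_stp : Primrec fun p : ℕ × ℕ × ℕ => stp p.1 p.2 := by
  have h1 : PrimrecPred fun p : ℕ × ℕ × ℕ => succT p.1 p.2.1 p.2.2 = true :=
    Primrec.eq.comp primrec_succT (Primrec.const true)
  exact Primrec.ite h1 (Primrec.pair (Primrec.succ.comp (Primrec.fst.comp Primrec.snd)) (Primrec.const 0))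
    (Primrec.pair (Primrec.fst.comp Primrec.snd) (Primrec.succ.comp (Primrec.snd.comp Primrec.snd)))

theorem primrec_st : Primrec₂ st := by
  have h1 : Primrec₂ fun (e : ℕ) (p : ℕ × (ℕ × ℕ)) => stp e p.2 :=
    primrec_stp.comp (Primrec.pair Primrec.fst (Primrec.snd.comp Primrec.snd))
  exact Primrec.nat_rec (Primrec.const ((0 : ℕ), (0 : ℕ))) h1

theorem primrec_ph : Primrec₂ ph := by
  have h0 : Primrec fun p : ℕ × ℕ => st p.1 p.2 := primrec_st
  have h1 : PrimrecPred fun p : ℕ × ℕ => succT p.1 (st p.1 p.2).1 (st p.1 p.2).2 = true := by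
    have := primrec_succT.comp (Primrec.pair (Primrec.fst (α := ℕ) (β := ℕ)) h0)
    exact Primrec.eq.comp this (Primrec.const true)
  exact Primrec.ite h1 (Primrec.const 0) (Primrec.const 1)

theorem st_mono (e : ℕ) {u v : ℕ} (h : u ≤ v) : (st e u).1 ≤ (st e v).1 := by
  induction h with
  | refl => exact le_rfl
  | step _ ih =>
    refine ih.trans ?_
    rw [Nat.succ_eq_add_one, st_succ, stp]
    split_ifs
    · exact Nat.le_succ _
    · exact le_rfl

theorem inf_iff (e : ℕ) : (∀ N, ∃ u, N ≤ u ∧ ph e u = 0) ↔ ∀ a, ∃ b, succT e a b = true := by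
  have hph : ∀ u, ph e u = 0 ↔ succT e (st e u).1 (st e u).2 = true := by
    intro u
    rw [ph]
    split_ifs with h
    · simp [h]
    · simp [h]
  constructor
  · intro h a
    by_contra hcon
    push Not at hcon
    have h1 : ∀ u, (st e u).1 ≤ a := by
      intro u
      induction u with
      | zero => exact Nat.zero_le _
      | succ u ih =>
        rw [st_succ, stp]
        split_ifs with hs
        · rcases Nat.eq_or_lt_of_le ih with h2 | h2
          · exfalso
            rw [h2] at hs
            exact hcon _ hs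
          · exact h2
        · exact ih
    have h2 : ∀ k, ∃ u, k ≤ (st e u).1 := by
      intro k
      induction k with
      | zero => exact ⟨0, Nat.zero_le _⟩
      | succ k ih =>
        obtain ⟨u, hu⟩ := ih
        obtain ⟨v, hv1, hv2⟩ := h u
        refine ⟨v + 1, ?_⟩
        rw [st_succ, stp, if_pos ((hph v).mp hv2)]
        have := st_mono e hv1
        simp only
        omega
    obtain ⟨u, hu⟩ := h2 (a + 1)
    have := h1 u
    omega
  · intro h N
    have hinv : ∀ u, ∀ b, b < (st e u).2 → ¬ succT e (st e u).1 b = true := by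
      intro u
      induction u with
      | zero => intro b hb; exact absurd hb (Nat.not_lt_zero _)
      | succ u ih =>
        intro b hb
        rw [st_succ, stp] at hb ⊢
        split_ifs at hb ⊢ with hs
        · exact absurd hb (Nat.not_lt_zero _)
        · rcases Nat.lt_succ_iff_lt_or_eq.mp hb with h1 | h1
          · exact ih b h1
          · rw [h1]; exact hs
    obtain ⟨b, hb⟩ := h (st e N).1
    have hex : ∃ i, succT e (st e N).1 ((st e N).2 + i) = true := by
      refine ⟨b - (st e N).2, ?_⟩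
      have : ¬ b < (st e N).2 := fun h1 => hinv N b h1 hb
      rw [Nat.add_sub_cancel' (by omega)]
      exact hb
    classical
    have hi := Nat.find_spec hex
    have hmin := fun j hj => Nat.find_min hex (m := j) hj
    have hst : ∀ j, j ≤ Nat.find hex → st e (N + j) = ((st e N).1, (st e N).2 + j) := by
      intro j
      induction j with
      | zero => intro _; rfl
      | succ j ih =>
        intro hj
        rw [← Nat.add_assoc, st_succ, ih (by omega), stp, if_neg (by simpa using hmin j (by omega))]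
        rfl
    refine ⟨N + Nat.find hex, by omega, ?_⟩
    rw [hph, hst _ le_rfl]
    exact hi

theorem diag (P : ℕ × ℕ × ℕ → Prop) (hP : ComputablePred P) :
    ∃ e, (∀ a, ∃ b, succT e a b = true) ↔ ¬ ∃ a, ∀ b, P (e, a, b) := by
  obtain ⟨hdec, hcomp⟩ := hP
  have h1 : Computable fun n : ℕ => if decide (P (n.unpair.1, n.unpair.2.unpair.1, n.unpair.2.unpair.2)) = true then 1 else (0 : ℕ) := by
    have h2 : Computable fun n : ℕ => (n.unpair.1, n.unpair.2.unpair.1, n.unpair.2.unpair.2) :=
      (Primrec.pair (Primrec.fst.comp Primrec.unpair) (Primrec.pair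
        (Primrec.fst.comp (Primrec.unpair.comp (Primrec.snd.comp Primrec.unpair)))
        (Primrec.snd.comp (Primrec.unpair.comp (Primrec.snd.comp Primrec.unpair))))).to_comp
    have h3 := hcomp.comp h2
    have h4 := Computable.cond h3 (Computable.const (1 : ℕ)) (Computable.const (0 : ℕ))
    refine h4.of_eq ?_
    intro n
    split_ifs with h5
    · rw [h5]; rfl
    · rw [Bool.not_eq_true] at h5; rw [h5]; rfl
  have h2 : Nat.Partrec (fun n : ℕ => (Part.some (if decide (P (n.unpair.1, n.unpair.2.unpair.1, n.unpair.2.unpair.2)) = true then 1 else (0 : ℕ)))) :=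
    Partrec.nat_iff.mp h1
  obtain ⟨c, hc⟩ := Code.exists_code.mp h2
  refine ⟨Encodable.encode c, ?_⟩
  set e := Encodable.encode c with he
  have hce : ofNat Code e = c := by rw [he]; exact Denumerable.ofNat_encode c
  have key : ∀ a b, (∃ k, Code.evaln k c (Nat.pair e (Nat.pair a b)) = some 0) ↔ ¬ P (e, a, b) := by
    intro a b
    have h3 : (0 : ℕ) ∈ Code.eval c (Nat.pair e (Nat.pair a b)) ↔ ∃ k, (0 : ℕ) ∈ Code.evaln k c (Nat.pair e (Nat.pair a b)) :=
      Code.evaln_complete
    have h4 : (∃ k, Code.evaln k c (Nat.pair e (Nat.pair a b)) = some 0) ↔ ∃ k, (0 : ℕ) ∈ Code.evaln k c (Nat.pair e (Nat.pair a b)) :=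
      Iff.rfl
    rw [h4, ← h3, hc, Part.mem_some_iff]
    simp only [Nat.unpair_pair]
    by_cases hPe : P (e, a, b)
    · simp [hPe]
    · simp [hPe]
  constructor
  · rintro h ⟨a, ha⟩
    obtain ⟨b, hb⟩ := h a
    rw [succT, decide_eq_true_eq, hce] at hb
    exact (key a b.unpair.1).mp ⟨_, hb⟩ (ha _)
  · intro h a
    have h5 : ∃ b, ¬ P (e, a, b) := by
      by_contra hcon
      push Not at hcon
      exact h ⟨a, hcon⟩
    obtain ⟨b, hb⟩ := h5
    obtain ⟨k, hk⟩ := (key a b).mpr hb
    refine ⟨Nat.pair b k, ?_⟩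
    rw [succT, decide_eq_true_eq, hce, Nat.unpair_pair]
    exact hk

end Pool.Agent.Helper605.Sl
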