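import Mathlib
import Pool.Agent.Helper605.SlComp

set_option autoImplicit false
set_option linter.all false

namespace Pool.Agent.Helper605.Sl

open Function

def Stable (P : ℕ → ℕ → Fam → Prop) : Prop := ∀ D m R D' m' R', D ≤ D' → m ≤ m' → (∀ j, j < m → R' j = R j) → P D m R → P D' m' R'

theorem Has.stable (r : Pt → Bool) : Stable (Has r) := by
  rintro D m R D' m' R' hD hm hR ⟨j, hj, hr⟩
  exact ⟨j, by omega, by rw [hR j hj]; exact hr⟩

theorem Ext.and {P Q : ℕ → ℕ → Fam → Prop} (h1 : Ext P) (s1 : Stable P) (h2 : Ext Q) : Ext fun D m R => P D m R ∧ Q D m R := by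
  intro D m R ρ h
  obtain ⟨D1, m1, R1, ρ1, hD1, hm1, hR1, hG1, hP⟩ := h1 D m R ρ h
  obtain ⟨D2, m2, R2, ρ2, hD2, hm2, hR2, hG2, hQ⟩ := h2 D1 m1 R1 ρ1 hG1
  exact ⟨D2, m2, R2, ρ2, by omega, by omega, fun j hj => by rw [hR2 j (by omega), hR1 j hj], hG2,
    s1 _ _ _ _ _ _ hD2 hm2 hR2 hP, hQ⟩

theorem Ext.all {ι : Type} [DecidableEq ι] (s : Finset ι) (P : ι → ℕ → ℕ → Fam → Prop) (h : ∀ i, Ext (P i)) (st : ∀ i, Stable (P i)) :
    Ext fun D m R => ∀ i ∈ s, P i D m R := by
  induction s using Finset.induction_on with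
  | empty =>
    intro D m R ρ hG
    exact ⟨D, m, R, ρ, le_rfl, le_rfl, fun j _ => rfl, hG, by simp⟩
  | insert a s _ ih =>
    have hst : Stable fun D m R => ∀ i ∈ s, P i D m R := by
      intro D m R D' m' R' hD hm hR hP i hi
      exact st i _ _ _ _ _ _ hD hm hR (hP i hi)
    intro D m R ρ hG
    obtain ⟨D', m', R', ρ', h1, h2, h3, h4, h5, h6⟩ := (Ext.and ih hst (h a)) D m R ρ hG
    refine ⟨D', m', R', ρ', h1, h2, h3, h4, ?_⟩
    intro i hi
    rcases Finset.mem_insert.mp hi with rfl | hi
    · exact h6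
    · exact h5 i hi

/-- Graph of a function. -/
def Gr {n : ℕ} (f : List.Vector ℕ n → ℕ) (p : Fin n → ℕ) (q : ℕ) : Pt → Bool :=
  fun w => decide (w q = f (List.Vector.ofFn fun i => w (p i)))

def GP {n : ℕ} (f : List.Vector ℕ n → ℕ) (p : Fin n → ℕ) (q : ℕ) (D m : ℕ) (R : Fam) : Prop :=
  (∀ i, p i < D) ∧ q < D ∧ Has (Gr f p q) D m R

theorem GP.stable {n : ℕ} (f : List.Vector ℕ n → ℕ) (p : Fin n → ℕ) (q : ℕ) : Stable (GP f p q) := by
  rintro D m R D' m' R' hD hm hR ⟨h1, h2, h3⟩
  exact ⟨fun i => (h1 i).trans_le hD, h2.trans_le hD, Has.stable _ _ _ _ _ _ _ hD hm hR h3⟩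

theorem comp_ext {n m0 : ℕ} (f : List.Vector ℕ n → ℕ) (g : Fin n → List.Vector ℕ m0 → ℕ)
    (hf : ∀ (p : Fin n → ℕ) (q : ℕ), Injective p → (∀ i, p i ≠ q) → Ext (GP f p q))
    (hg : ∀ i, ∀ (p : Fin m0 → ℕ) (q : ℕ), Injective p → (∀ i, p i ≠ q) → Ext (GP (g i) p q))
    (p : Fin m0 → ℕ) (q : ℕ) (hp : Injective p) (hq : ∀ i, p i ≠ q) :
    Ext (GP (fun a => f (List.Vector.ofFn fun i => g i a)) p q) := by
  intro D0 m00 R0 ρ0 h0
  set T0 := (∑ i, p i) + q + 1 with hT0
  have hpT : ∀ i, p i < T0 := by
    intro i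
    have := Finset.single_le_sum (f := p) (fun i _ => Nat.zero_le _) (Finset.mem_univ i)
    omega
  set t : Fin n → ℕ := fun i => T0 + i with ht
  have ht_inj : Injective t := by intro i j hij; apply Fin.ext; simp only [ht] at hij; omega
  have htp : ∀ i k, t i ≠ p k := by intro i k; have := hpT k; simp only [ht]; omega
  have htq : ∀ i, t i ≠ q := by intro i; simp only [ht]; omega
  obtain ⟨D, m, R, ρ, hD0, hm0, hR0, h, hGg, hpD, hqD, jf, hjf, hRf⟩ :=
    (Ext.and (Ext.all Finset.univ (fun i => GP (g i) p (t i)) (fun i => hg i p (t i) hp (fun k => (htp i k).symm))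
      (fun i => GP.stable _ _ _)) (by
        intro D m R D' m' R' hD hm hR hP i hi
        exact GP.stable _ _ _ _ _ _ _ _ _ hD hm hR (hP i hi)) (hf t q ht_inj htq)) D0 m00 R0 ρ0 h0
  choose jg hjg using fun i => (hGg i (Finset.mem_univ i)).2.2
  have htD : ∀ i, t i < D := fun i => hpD i
  have hgp : ∀ (i : Fin n) (k : Fin m0), p k < D := fun i => (hGg i (Finset.mem_univ i)).1
  set S : ℕ → Prop := fun i => (∃ k, p k = i) ∨ i = q with hS
  set D' := max D T0 with hD'
  have hSD : ∀ i, S i → i < D' := by
    rintro i (⟨k, rfl⟩ | rfl)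
    · have := hpT k; omega
    · omega
  set H := Gr (fun a => f (List.Vector.ofFn fun i => g i a)) p q with hH
  have hHS : ∀ w w' : Pt, (∀ i, S i → w i = w' i) → H w = H w' := by
    intro w w' hw
    simp only [hH, Gr]
    rw [hw q (Or.inr rfl)]
    have : (fun i => w (p i)) = fun i => w' (p i) := by funext i; exact hw _ (Or.inl ⟨i, rfl⟩)
    rw [this]
  obtain ⟨ρ', hρ'⟩ := add1 h D' (by omega) H (dep_of hSD hHS)
    (fun A β => ((∀ i, A o0 (jg i) = true) → A o0 m = A o0 jf) ∧ cons1 D' S m A β)
    (by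
      rintro A A' β β' hA hβ ⟨h1, h2⟩
      refine ⟨?_, cons1_loc (by omega) A A' β β' hA hβ h2⟩
      rw [← hA o0 (fun k hk => rfl) m (by omega), ← hA o0 (fun k hk => rfl) jf (by omega)]
      intro h3
      apply h1
      intro i
      rw [hA o0 (fun k hk => rfl) (jg i) (by have := (hjg i).1; omega)]
      exact h3 i)
    (by
      intro w
      refine ⟨?_, cons1_sat (by simpa using hHS) w⟩
      simp only [bump_o0, update_self, upd_lt hjf, hRf]
      intro h1
      simp only [hH, Gr]
      have h2 : ∀ i, w (t i) = g i (List.Vector.ofFn fun k => w (p k)) := by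
        intro i
        have h3 := h1 i
        rw [upd_lt (hjg i).1, (hjg i).2] at h3
        simpa [Gr] using h3
      have h4 : (fun i => w (t i)) = fun i => g i (List.Vector.ofFn fun k => w (p k)) := funext h2
      rw [h4])
    (by
      intro r' hr' hs
      funext w
      set a := (List.Vector.ofFn fun k => w (p k) : List.Vector ℕ m0) with ha
      classical
      set w1 : Pt := fun i => if h : ∃ k, t k = i then g h.choose a else w i with hw1
      have hw1t : ∀ k, w1 (t k) = g k a := by
        intro k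
        have hex : ∃ k', t k' = t k := ⟨k, rfl⟩
        rw [hw1]
        simp only [dif_pos hex]
        rw [ht_inj hex.choose_spec]
      have hw1p : ∀ k, w1 (p k) = w (p k) := by
        intro k
        rw [hw1]
        simp only
        rw [dif_neg]
        rintro ⟨k', hk'⟩
        exact htp k' k hk'
      have hw1q : w1 q = w q := by
        rw [hw1]
        simp only
        rw [dif_neg]
        rintro ⟨k', hk'⟩
        exact htq k' hk'
      have e1 : r' w = r' w1 := by
        have := cons1_dep (D := D') (j := m) (S := S) (R := update R m r') (fun w => (hs w).2) (by simpa using hr') w w1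
          (by
            rintro i (⟨k, rfl⟩ | rfl)
            · exact (hw1p k).symm
            · exact hw1q.symm)
        simpa using this
      have e2 := (hs w1).1 (by
        intro i
        simp only [bump_o0]
        rw [upd_lt (hjg i).1, (hjg i).2]
        simp only [Gr, decide_eq_true_eq]
        rw [hw1t]
        congr 1
        rw [ha]
        congr 1
        funext k
        exact (hw1p k).symm)
      simp only [bump_o0, update_self, upd_lt hjf, hRf] at e2
      rw [e1, e2]
      simp only [Gr, hH]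
      rw [hw1q]
      have : (fun i => w1 (t i)) = fun i => g i a := funext hw1t
      rw [this])
  refine ⟨D', m + 1, _, ρ', by omega, by omega, fun j hj => by rw [upd_lt (by omega)]; exact hR0 j hj, hρ', ?_, ?_, m, by omega, ?_⟩
  · intro i; have := hpT i; omega
  · omega
  · show update R m H m = _
    rw [update_self, hH]

theorem prec_ext {n : ℕ} (f : List.Vector ℕ n → ℕ) (g : List.Vector ℕ (n + 2) → ℕ)
    (hf : ∀ (p : Fin n → ℕ) (q : ℕ), Injective p → (∀ i, p i ≠ q) → Ext (GP f p q))
    (hg : ∀ (p : Fin (n + 2) → ℕ) (q : ℕ), Injective p → (∀ i, p i ≠ q) → Ext (GP g p q))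
    (p : Fin (n + 1) → ℕ) (q : ℕ) (hp : Injective p) (hq : ∀ i, p i ≠ q) :
    Ext (GP (fun v : List.Vector ℕ (n + 1) => v.head.rec (f v.tail) fun y IH => g (y ::ᵥ IH ::ᵥ v.tail)) p q) := by
  intro D0 m00 R0 ρ0 h0
  set q' := (∑ i, p i) + q + 1 with hq'
  have hpq' : ∀ i, p i < q' := by
    intro i
    have := Finset.single_le_sum (f := p) (fun i _ => Nat.zero_le _) (Finset.mem_univ i)
    omega
  have hqq' : q < q' := by omega
  set pt : Fin n → ℕ := fun i => p i.succ with hpt
  set pg : Fin (n + 2) → ℕ := Fin.cons (p 0) (Fin.cons q pt) with hpg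
  have hpt_inj : Injective pt := fun i j hij => Fin.succ_injective _ (hp hij)
  have hpg_inj : Injective pg := by
    rw [hpg, Fin.cons_injective_iff]
    refine ⟨?_, ?_⟩
    · rintro ⟨k, hk⟩
      revert hk
      refine Fin.cases ?_ (fun k => ?_) k
      · intro h; exact hq 0 h.symm
      · intro h; exact Fin.succ_ne_zero k (hp h)
    · rw [Fin.cons_injective_iff]
      refine ⟨?_, hpt_inj⟩
      rintro ⟨k, hk⟩
      exact hq _ hk
  have hpgq' : ∀ i, pg i ≠ q' := by
    intro i
    refine Fin.cases ?_ (fun i => Fin.cases ?_ (fun i => ?_) i) i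
    · exact (hpq' 0).ne
    · exact hqq'.ne
    · exact (hpq' _).ne
  have hqq'' : q ≠ q' := hqq'.ne
  obtain ⟨D, m, R, ρ, hD0, hm0, hR0, h, ⟨⟨hptD, hqD, jb, hjb, hRb⟩, hpgD, hq'D, jg, hjg, hRg⟩, _, _, je, hje, hRe⟩ :=
    (Ext.and (Ext.and (hf pt q hpt_inj (fun i => hq _)) (GP.stable _ _ _) (hg pg q' hpg_inj hpgq')) (by
        rintro D m R D' m' R' hD hm hR ⟨h1, h2⟩
        exact ⟨GP.stable _ _ _ _ _ _ _ _ _ hD hm hR h1, GP.stable _ _ _ _ _ _ _ _ _ hD hm hR h2⟩)
        (eq_ext q q' hqq'')) D0 m00 R0 ρ0 h0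
  have hp0D : p 0 < D := hpgD 0
  set av : Pt → List.Vector ℕ n := fun w => List.Vector.ofFn fun i => w (pt i) with hav
  set Rc : ℕ → List.Vector ℕ n → ℕ := fun k a => Nat.rec (f a) (fun y IH => g (y ::ᵥ IH ::ᵥ a)) k with hRc
  have hRc0 : ∀ a, Rc 0 a = f a := fun a => rfl
  have hRcs : ∀ k a, Rc (k + 1) a = g (k ::ᵥ Rc k a ::ᵥ a) := fun k a => rfl
  set S : ℕ → Prop := fun i => (∃ k, p k = i) ∨ i = q with hS
  set S' : ℕ → Prop := fun i => (∃ k, p k = i) ∨ i = q' with hS'
  set F : Pt → Bool := fun w => decide (w q = Rc (w (p 0)) (av w)) with hF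
  set F' : Pt → Bool := fun w => decide (w q' = Rc (w (p 0)) (av w)) with hF'
  have hGF : Gr (fun v : List.Vector ℕ (n + 1) => v.head.rec (f v.tail) fun y IH => g (y ::ᵥ IH ::ᵥ v.tail)) p q = F := by
    funext w
    have e : (fun v : List.Vector ℕ (n + 1) => v.head.rec (motive := fun _ => ℕ) (f v.tail) fun y IH => g (y ::ᵥ IH ::ᵥ v.tail)) (List.Vector.ofFn fun i => w (p i)) =
        Rc (w (p 0)) (av w) := by
      simp only [hRc, hav]
      rw [List.Vector.tail_ofFn, List.Vector.head_ofFn]
    have e2 : ∀ a b : ℕ, a = b → decide (w q = a) = decide (w q = b) := by rintro a _ rfl; rfl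
    exact e2 _ _ e
  have havS : ∀ w w' : Pt, (∀ k, w (p k) = w' (p k)) → av w = av w' := by
    intro w w' hw
    simp only [hav]
    congr 1
    funext i
    exact hw _
  have hFS : ∀ w w' : Pt, (∀ i, S i → w i = w' i) → F w = F w' := by
    intro w w' hw
    simp only [hF]
    rw [hw q (Or.inr rfl), hw (p 0) (Or.inl ⟨0, rfl⟩), havS w w' fun k => hw _ (Or.inl ⟨k, rfl⟩)]
  have hFS' : ∀ w w' : Pt, (∀ i, S' i → w i = w' i) → F' w = F' w' := by
    intro w w' hw
    simp only [hF']
    rw [hw q' (Or.inr rfl), hw (p 0) (Or.inl ⟨0, rfl⟩), havS w w' fun k => hw _ (Or.inl ⟨k, rfl⟩)]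
  set D' := max D (q' + 1) with hD'
  have hSD : ∀ i, S i → i < D' := by
    rintro i (⟨k, rfl⟩ | rfl)
    · have := hpq' k; omega
    · omega
  have hSD' : ∀ i, S' i → i < D' := by
    rintro i (⟨k, rfl⟩ | rfl)
    · have := hpq' k; omega
    · omega
  have hGb : ∀ w, R jb w = decide (w q = f (av w)) := by intro w; rw [hRb]; rfl
  have hGg : ∀ w, R jg w = decide (w q' = g (w (p 0) ::ᵥ w q ::ᵥ av w)) := by
    intro w
    rw [hRg]
    rfl
  set R1 : Fam := update (update R m F) (m + 1) F' with hR1
  have hR1lt : ∀ j, j < m → R1 j = R j := by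
    intro j hj
    rw [hR1, update_of_ne (by omega), update_of_ne (by omega)]
  have hR1m : R1 m = F := by rw [hR1, update_of_ne (by omega), update_self]
  have hR1m' : R1 (m + 1) = F' := by rw [hR1, update_self]
  obtain ⟨ρ', hρ'⟩ := h.extend (D' := D') (m' := m + 2) (by omega) (by omega) R1 hR1lt
    (fun A β => (β (p 0) = true → A o0 m = A o0 jb) ∧ (A o0 je = true → A o0 m = A o0 (m + 1)) ∧
      (A o0 m = true → A (o1 (p 0)) (m + 1) = A o0 jg) ∧ cons1 D' S m A β ∧ cons1 D' S' (m + 1) A β)
    (by
      rintro A A' β β' hA hβ ⟨h1, h2, h3, h4, h5⟩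
      refine ⟨?_, ?_, ?_, cons1_loc (by omega) A A' β β' hA hβ h4, cons1_loc (by omega) A A' β β' hA hβ h5⟩
      · rw [← hA o0 (fun k hk => rfl) m (by omega), ← hA o0 (fun k hk => rfl) jb (by omega), ← hβ (p 0) (by omega)]
        exact h1
      · rw [← hA o0 (fun k hk => rfl) m (by omega), ← hA o0 (fun k hk => rfl) je (by omega), ← hA o0 (fun k hk => rfl) (m + 1) (by omega)]
        exact h2
      · rw [← hA o0 (fun k hk => rfl) m (by omega), ← hA o0 (fun k hk => rfl) jg (by omega),
          ← hA (o1 (p 0)) (fun k hk => by simp [o1]; omega) (m + 1) (by omega)]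
        exact h3)
    (by
      intro j hj
      by_cases h1 : j < m
      · rw [hR1lt j h1]
        intro w w' hw
        exact h.dep j h1 w w' fun i hi => hw i (by omega)
      · by_cases h2 : j = m
        · subst h2; rw [hR1m]; exact dep_of hSD hFS
        · have : j = m + 1 := by omega
          subst this; rw [hR1m']; exact dep_of hSD' hFS')
    (by
      intro w
      refine ⟨?_, ?_, ?_, cons1_sat (by rw [hR1m]; exact hFS) w, cons1_sat (by rw [hR1m']; exact hFS') w⟩
      · intro h1
        simp only [bump_o0, hR1m, hR1lt jb hjb, hGb, hF]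
        simp only [beq_iff_eq] at h1
        rw [h1, hRc0]
      · simp only [bump_o0, hR1m, hR1m', hR1lt je hje, hRe, hF, hF', decide_eq_true_eq]
        intro h1
        rw [h1]
      · simp only [bump_o0, hR1m, hR1m', hR1lt jg hjg, hGg, hF, hF', decide_eq_true_eq, bump_o1]
        intro h1
        rw [update_of_ne (hpq' 0).ne', update_self]
        have e1 : av (update w (p 0) (w (p 0) + 1)) = av w := by
          simp only [hav]
          congr 1
          funext i
          rw [update_of_ne]
          intro h2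
          exact Fin.succ_ne_zero i (hp h2)
        rw [e1, hRcs, ← h1])
    (by
      intro R' hR' hdep hs
      have hcm := fun w w' hw => cons1_dep (D := D') (j := m) (S := S) (R := R') (fun w => (hs w).2.2.2.1) (hdep m (by omega)) w w' hw
      have hcm' := fun w w' hw => cons1_dep (D := D') (j := m + 1) (S := S') (R := R') (fun w => (hs w).2.2.2.2) (hdep (m + 1) (by omega)) w w' hw
      have hE : ∀ w : Pt, w q = w q' → R' m w = R' (m + 1) w := by
        intro w hw
        have := (hs w).2.1
        simp only [bump_o0, hR' je hje, hRe, decide_eq_true_eq] at this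
        exact this hw
      have key : ∀ k, (∀ w : Pt, w (p 0) = k → R' m w = F w) ∧ (∀ w : Pt, w (p 0) = k → R' (m + 1) w = F' w) := by
        intro k
        induction k with
        | zero =>
          have hA : ∀ w : Pt, w (p 0) = 0 → R' m w = F w := by
            intro w hw
            have h1 := (hs w).1
            simp only [bump_o0, hR' jb hjb, hGb] at h1
            rw [h1 (by simp [hw]), hF]
            simp only
            rw [hw, hRc0]
          refine ⟨hA, ?_⟩
          intro w hw
          set w1 := update w q (w q') with hw1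
          have a1 : w1 q = w q' := by rw [hw1, update_self]
          have a2 : w1 q' = w q' := by rw [hw1, update_of_ne (Ne.symm hqq'')]
          have a3 : ∀ k, w1 (p k) = w (p k) := fun k => by rw [hw1, update_of_ne (hq k)]
          have e1 : R' (m + 1) w = R' (m + 1) w1 := by
            apply hcm'
            rintro i (⟨k, rfl⟩ | rfl)
            · exact (a3 k).symm
            · exact a2.symm
          rw [e1, ← hE w1 (by rw [a1, a2]), hA w1 (by rw [a3, hw]), hF, hF']
          simp only
          rw [a1, a3, havS w1 w a3]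
        | succ k ih =>
          obtain ⟨ih1, ih2⟩ := ih
          have hB : ∀ w : Pt, w (p 0) = k + 1 → R' (m + 1) w = F' w := by
            intro w hw
            set w0 : Pt := update w (p 0) k with hw0
            set w1 : Pt := update w0 q (Rc k (av w)) with hw1
            have a1 : w1 q = Rc k (av w) := by rw [hw1, update_self]
            have a0 : w1 (p 0) = k := by rw [hw1, update_of_ne (hq 0), hw0, update_self]
            have a3 : ∀ i : Fin n, w1 (pt i) = w (pt i) := by
              intro i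
              rw [hw1, update_of_ne (hq _), hw0, update_of_ne]
              intro h2
              exact Fin.succ_ne_zero i (hp h2)
            have a4 : av w1 = av w := by
              simp only [hav]
              congr 1
              funext i
              exact a3 i
            have a5 : w1 q' = w q' := by
              rw [hw1, update_of_ne (Ne.symm hqq''), hw0, update_of_ne (hpq' 0).ne']
            have hFt : R' m w1 = true := by
              rw [ih1 w1 a0, hF]
              simp only [decide_eq_true_eq]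
              rw [a1, a0, a4]
            have h1 := (hs w1).2.2.1
            simp only [bump_o0, hR' jg hjg, hGg] at h1
            have h2 := h1 hFt
            have e1 : R' (m + 1) w = R' (m + 1) (bump w1 (o1 (p 0))) := by
              apply hcm'
              rintro i (⟨k', rfl⟩ | rfl)
              · rw [bump_o1]
                by_cases hk' : k' = 0
                · subst hk'; rw [update_self, a0, hw]
                · rw [update_of_ne (fun h => hk' (hp h))]
                  obtain ⟨k'', rfl⟩ := Fin.exists_succ_eq.mpr hk'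
                  exact (a3 k'').symm
              · rw [bump_o1, update_of_ne (hpq' 0).ne', a5]
            rw [e1, h2, hF']
            simp only
            rw [a5, a0, a1, a4, hw, hRcs]
          refine ⟨?_, hB⟩
          intro w hw
          set w1 := update w q' (w q) with hw1
          have a1 : w1 q' = w q := by rw [hw1, update_self]
          have a2 : w1 q = w q := by rw [hw1, update_of_ne hqq'']
          have a3 : ∀ k, w1 (p k) = w (p k) := fun k => by rw [hw1, update_of_ne (hpq' k).ne]
          have e1 : R' m w = R' m w1 := by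
            apply hcm
            rintro i (⟨k, rfl⟩ | rfl)
            · exact (a3 k).symm
            · exact a2.symm
          rw [e1, hE w1 (by rw [a1, a2]), hB w1 (by rw [a3, hw]), hF, hF']
          simp only
          rw [a1, a3, havS w1 w a3]
      intro j hj
      by_cases h1 : j < m
      · rw [hR' j h1, hR1lt j h1]
      · by_cases h2 : j = m
        · subst h2; rw [hR1m]; funext w; exact (key _).1 w rfl
        · have : j = m + 1 := by omega
          subst this; rw [hR1m']; funext w; exact (key _).2 w rfl)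
  refine ⟨D', m + 2, R1, ρ', by omega, by omega, fun j hj => by rw [hR1lt j (by omega)]; exact hR0 j hj, hρ', ?_, ?_, m, by omega, ?_⟩
  · intro i; have := hpq' i; omega
  · omega
  · rw [hR1m, hGF]

theorem prim_ext {n : ℕ} {f : List.Vector ℕ n → ℕ} (hf : Nat.Primrec' f) :
    ∀ (p : Fin n → ℕ) (q : ℕ), Injective p → (∀ i, p i ≠ q) → Ext (GP f p q) := by
  induction hf with
  | zero =>
    intro p q hp hq D m R ρ h
    obtain ⟨D', m', R', ρ', h1, h2, h3, h4, h5, j, hj, hR⟩ := zero_ext q D m R ρ h
    refine ⟨D', m', R', ρ', h1, h2, h3, h4, fun i => i.elim0, h5, j, hj, ?_⟩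
    rw [hR]; rfl
  | succ =>
    intro p q hp hq D m R ρ h
    obtain ⟨D', m', R', ρ', h1, h2, h3, h4, h5, h6, j, hj, hR⟩ := succ_ext (p 0) q (hq 0) D m R ρ h
    refine ⟨D', m', R', ρ', h1, h2, h3, h4, fun i => by rw [Subsingleton.elim i 0]; exact h5, h6, j, hj, ?_⟩
    rw [hR]; funext w; simp [Gr]
  | get i =>
    intro p q hp hq D m R ρ h
    obtain ⟨D', m', R', ρ', h1, h2, h3, h4, h5, h6, j, hj, hR⟩ := eq_ext q (p i) (Ne.symm (hq i)) D m R ρ h
    refine ⟨max D' ((∑ i, p i) + 1), m', R', ?_⟩
    have hpl : ∀ i, p i < max D' ((∑ i, p i) + 1) := by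
      intro i
      have := Finset.single_le_sum (f := p) (fun i _ => Nat.zero_le _) (Finset.mem_univ i)
      omega
    obtain ⟨ρ'', hρ''⟩ := h4.extend (D' := max D' ((∑ i, p i) + 1)) (m' := m') (le_max_left _ _) le_rfl R' (fun _ _ => rfl)
      (fun _ _ => True) (fun _ _ _ _ _ _ _ => trivial)
      (fun j hj w w' hw => h4.dep j hj w w' fun i hi => hw i (hi.trans_le (le_max_left _ _)))
      (fun _ => trivial) (fun R'' hR'' _ _ => hR'')
    refine ⟨ρ'', by omega, h2, h3, hρ'', hpl, by omega, j, hj, ?_⟩
    rw [hR]; funext w; simp [Gr]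
  | comp g hf hg ihf ihg => exact fun p q hp hq => comp_ext _ g ihf ihg p q hp hq
  | prec hf hg ihf ihg => exact fun p q hp hq => prec_ext _ _ ihf ihg p q hp hq

theorem comp_main (φ : ℕ → ℕ → ℕ) (hφ : Primrec₂ φ) : ∃ (D m : ℕ) (R : Fam) (ρ : Rule) (j : ℕ), Good D m R ρ ∧ 3 ≤ D ∧ j < m ∧
    ∀ w : Pt, R j w = decide (w 2 = φ (w 0) (w 1)) := by
  have h0 : Good 0 0 (fun _ _ => false) (fun _ _ => True) :=
    ⟨fun _ _ _ _ _ _ _ => trivial, fun j hj => absurd hj (by omega), fun _ => trivial, fun _ _ _ j hj => absurd hj (by omega)⟩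
  obtain ⟨D, m, R, ρ, _, _, _, hG, hp, hq, j, hj, hR⟩ := prim_ext (Nat.Primrec'.prim_iff₂.mpr hφ) ![0, 1] 2
    (by decide) (by decide) 0 0 _ _ h0
  refine ⟨D, m, R, ρ, j, hG, hq, hj, ?_⟩
  intro w
  rw [hR]
  rfl

end Pool.Agent.Helper605.Sl
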