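import Mathlib
import Pool.Agent.Helper605.SlCompl
import Pool.Agent.Helper605.SlPrim
import Pool.Agent.Helper605.SlDiag

set_option autoImplicit false
set_option linter.all false

namespace Pool.Agent.Helper605.Sl

open Function

theorem primrec_cast : Primrec (fun n : ℕ => ((n : ℕ) : ℤ)) := by
  rw [← Primrec.encode_iff]
  have h : (fun n : ℕ => Encodable.encode ((n : ℕ) : ℤ)) = fun n => 2 * n := by
    funext n
    rfl
  rw [h]
  exact Primrec.nat_mul.comp (Primrec.const 2) Primrec.id

theorem primrec_vec {D d : ℕ} (eC : Co D ≃ Fin d) : Primrec (fun e : ℕ => (fun i : Fin d => vec D (e + 1) (eC.symm i))) := by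
  rw [Primrec.fin_curry]
  have h : ∀ (e : ℕ) (i : Fin d), vec D (e + 1) (eC.symm i) = if i = eC .a then (((e + 1 : ℕ) : ℕ) : ℤ) else if i = eC .b then 1 else 0 := by
    intro e i
    obtain ⟨c, rfl⟩ := eC.surjective i
    rw [eC.symm_apply_apply]
    cases c <;> simp [vec]
  have h2 : Primrec₂ fun (e : ℕ) (i : Fin d) => (if i = eC .a then (((e + 1 : ℕ) : ℕ) : ℤ) else if i = eC .b then 1 else 0) := by
    refine Primrec.ite (Primrec.eq.comp Primrec.snd (Primrec.const _)) (primrec_cast.comp (Primrec.succ.comp Primrec.fst))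
      (Primrec.ite (Primrec.eq.comp Primrec.snd (Primrec.const _)) (Primrec.const _) (Primrec.const _))
  exact h2.of_eq fun e i => (h e i).symm

theorem final
    (H : ∀ (d : ℕ), 3 ≤ d → ∀ (k n : ℕ) (F : Set ((Fin d → Fin n) → Fin k)),
      ∃ R : (Fin d → ℤ) × ℕ × ℕ → Prop, ComputablePred R ∧
        ∀ v : Fin d → ℤ,
          (v ≠ 0 ∧ ∃ x : (Fin d → ℤ) → Fin k,
              (∀ z : Fin d → ℤ,
                (fun i : Fin d → Fin n => x (z + (fun j => ((i j : ℕ) : ℤ)))) ∉ F) ∧
              (∃ w : Fin d → ℤ, w ≠ 0 ∧ ∀ z, x (z + w) = x z) ∧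
              ∀ u : Fin d → ℤ, (∀ z, x (z + u) = x z) →
                ∃ a b : ℤ, b ≠ 0 ∧ b • u = a • v)
          ↔ ∃ a : ℕ, ∀ b : ℕ, R (v, a, b)) : False := by
  obtain ⟨D, m, Rg, ρ, j, hG, hD, hj, hRg⟩ := comp_main (fun n u => ph (n - 1) u)
    (primrec_ph.comp (Primrec.pred.comp Primrec.fst) Primrec.snd)
  set jf : Fin m := ⟨j, hj⟩ with hjf
  set i0 : Fin D := ⟨0, by omega⟩ with hi0
  set i1 : Fin D := ⟨1, by omega⟩ with hi1
  set i2 : Fin D := ⟨2, by omega⟩ with hi2
  set φ : ℕ → ℕ → ℕ := fun n u => ph (n - 1) u with hφ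
  have hRg' : ∀ w, Rg jf w = decide (w 2 = φ (w 0) (w 1)) := hRg
  set d := Fintype.card (Co D) with hd
  set eC : Co D ≃ Fin d := Fintype.equivFin (Co D) with heC
  have hd3 : 3 ≤ d := by
    have h1 : (({.x, .u, .y} : Finset (Co D))).card ≤ d := Finset.card_le_univ _
    have h2 : (({.x, .u, .y} : Finset (Co D))).card = 3 := rfl
    omega
  haveI := Cell.finite D m
  obtain ⟨k, ⟨eA⟩⟩ := Finite.exists_equiv_fin (Cell D m)
  set dec : ((Fin d → Fin 2) → Fin k) → (Co D → Bool) → Cell D m :=
    fun p ε => eA.symm (p (fun i => if ε (eC.symm i) = true then 1 else 0)) with hdec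
  obtain ⟨R, hR, hiff⟩ := H d hd3 k 2 {p | ¬ (Main ρ jf i0 i1 i2 (dec p) ∧ Const (dec p))}
  set v : ℕ → Fin d → ℤ := fun e i => vec D (e + 1) (eC.symm i) with hv
  -- the index
  obtain ⟨e, he⟩ := diag (fun p => R (v p.1, p.2.1, p.2.2)) (by
    obtain ⟨hdec, hcomp⟩ := hR
    refine ⟨fun p => hdec _, ?_⟩
    have h1 : Computable fun p : ℕ × ℕ × ℕ => (v p.1, p.2.1, p.2.2) :=
      (Primrec.pair ((primrec_vec eC).comp Primrec.fst) (Primrec.pair (Primrec.fst.comp Primrec.snd) (Primrec.snd.comp Primrec.snd))).to_comp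
    exact hcomp.comp h1)
  rw [← inf_iff, ← hiff (v e)] at he
  -- windows
  have hwin : ∀ (x : (Fin d → ℤ) → Fin k) (z : Fin d → ℤ),
      dec (fun i : Fin d → Fin 2 => x (z + (fun j => ((i j : ℕ) : ℤ)))) =
        fun ε => (fun q : Co D → ℤ => eA.symm (x (fun i => q (eC.symm i)))) ((fun c => z (eC c)) + off ε) := by
    intro x z
    funext ε
    simp only [hdec]
    congr 2
    funext i
    simp only [Pi.add_apply, off, Equiv.apply_symm_apply]
    split_ifs <;> simp
  have key : (v e ≠ 0 ∧ ∃ x : (Fin d → ℤ) → Fin k,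
              (∀ z : Fin d → ℤ,
                (fun i : Fin d → Fin 2 => x (z + (fun j => ((i j : ℕ) : ℤ)))) ∉ {p | ¬ (Main ρ jf i0 i1 i2 (dec p) ∧ Const (dec p))}) ∧
              (∃ w : Fin d → ℤ, w ≠ 0 ∧ ∀ z, x (z + w) = x z) ∧
              ∀ u : Fin d → ℤ, (∀ z, x (z + u) = x z) →
                ∃ a b : ℤ, b ≠ 0 ∧ b • u = a • v e) ↔ ∀ N, ∃ u, N ≤ u ∧ ph e u = 0 := by
    constructor
    · rintro ⟨_, x, hx, ⟨w, hw0, hw⟩, hpar⟩
      set x' : (Co D → ℤ) → Cell D m := fun q => eA.symm (x (fun i => q (eC.symm i))) with hx'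
      have h1 : ∀ q, Main ρ jf i0 i1 i2 (fun ε => x' (q + off ε)) ∧ Const (fun ε => x' (q + off ε)) := by
        intro q
        have h2 := hx (fun i => q (eC.symm i))
        rw [Set.mem_setOf_eq, not_not, hwin] at h2
        have h3 : (fun c => (fun i => q (eC.symm i)) (eC c)) = q := by funext c; simp
        rw [h3] at h2
        exact h2
      obtain ⟨A, hA⟩ := exists_lay (i0 := i0) rfl x' fun q => (h1 q).2
      have hOk : Ok ρ jf i0 i1 i2 A := ok_of_main (by rw [← hA]; exact fun q => (h1 q).1)
      have hper : ∀ w' : Co D → ℤ, (∀ z, conf i0 A (z + w') = conf i0 A z) ↔ ∀ z, x (z + fun i => w' (eC.symm i)) = x z := by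
        intro w'
        rw [← hA]
        constructor
        · intro h2 z
          have h3 := h2 (fun c => z (eC c))
          simp only [hx'] at h3
          have h4 := eA.symm.injective h3
          have h5 : (fun i => ((fun c => z (eC c)) + w') (eC.symm i)) = z + fun i => w' (eC.symm i) := by
            funext i; simp
          have h6 : (fun i => z (eC (eC.symm i))) = z := by funext i; simp
          rw [h5, h6] at h4
          exact h4
        · intro h2 z
          have h3 := h2 (fun i => z (eC.symm i))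
          simp only [hx']
          congr 1
      have h4 := sound φ hG hRg' rfl rfl rfl hOk (e + 1)
        (by
          refine ⟨fun c => w (eC c), ?_, ?_⟩
          · intro h2
            apply hw0
            funext i
            have h3 := congrFun h2 (eC.symm i)
            simpa using h3
          · rw [hper]
            have : (fun i => w (eC (eC.symm i))) = w := by funext i; simp
            rw [this]
            exact hw)
        (by
          intro w' hw'
          rw [hper] at hw'
          obtain ⟨a, b, hb, hab⟩ := hpar _ hw'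
          refine ⟨a, b, hb, ?_⟩
          funext c
          have h3 := congrFun hab (eC c)
          simpa [hv] using h3)
      intro N
      obtain ⟨u, hu1, hu2⟩ := h4 N
      exact ⟨u, hu1, by simpa [hφ] using hu2⟩
    · intro hinf
      have hOk : Ok ρ jf i0 i1 i2 (A0 φ (e + 1) Rg) := ok_A0 φ hG hRg' rfl rfl rfl (e + 1)
      obtain ⟨⟨w, hw0, hw⟩, hpar⟩ := complete (D := D) (m := m) (i0 := i0) φ (Rg := Rg) (e + 1) (by
        intro N
        obtain ⟨u, hu1, hu2⟩ := hinf N
        exact ⟨u, hu1, by simpa [hφ] using hu2⟩)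
      refine ⟨?_, fun z => eA (conf i0 (A0 φ (e + 1) Rg) (fun c => z (eC c))), ?_, ?_, ?_⟩
      · intro h2
        have h3 := congrFun h2 (eC .b)
        simp [hv, vec] at h3
      · intro z
        rw [Set.mem_setOf_eq, not_not, hwin (fun z : Fin d → ℤ => eA (conf i0 (A0 φ (e + 1) Rg) (fun c => z (eC c)))) z]
        have h3 : (fun q : Co D → ℤ => eA.symm ((fun z : Fin d → ℤ => eA (conf i0 (A0 φ (e + 1) Rg) (fun c => z (eC c)))) (fun i => q (eC.symm i)))) =
            conf i0 (A0 φ (e + 1) Rg) := by
          funext q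
          simp
        rw [h3]
        exact ⟨main_of_ok hOk _, const_of_conf rfl _ _⟩
      · refine ⟨fun i => w (eC.symm i), ?_, ?_⟩
        · intro h2
          apply hw0
          funext c
          have h3 := congrFun h2 (eC c)
          simpa using h3
        · intro z
          simp only
          congr 1
          rw [← hw (fun c => z (eC c))]
          congr 1
          funext c
          simp
      · intro u hu
        obtain ⟨a, b, hb, hab⟩ := hpar (fun c => u (eC c)) (by
          intro z
          have h3 := hu (fun i => z (eC.symm i))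
          simp only at h3
          have h4 := eA.injective h3
          have h5 : (fun c => ((fun i => z (eC.symm i)) + u) (eC c)) = z + fun c => u (eC c) := by funext c; simp
          have h6 : (fun c => z (eC.symm (eC c))) = z := by funext c; simp
          rw [h5, h6] at h4
          exact h4)
        refine ⟨a, b, hb, ?_⟩
        funext i
        have h3 := congrFun hab (eC.symm i)
        simpa [hv] using h3
  rw [key] at he
  tauto

end Pool.Agent.Helper605.Sl
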