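import Mathlib
import Pool.Agent.Helper605.SSEa
import Pool.Agent.Helper605.TraceR

set_option autoImplicit false
set_option linter.all false

namespace Pool.Agent.Helper605

open Matrix Finset Polynomial

theorem rsse_of_hom {R : Type} [CommRing R] (S : Subring ℝ) (f : R →+* ℝ) (hf : ∀ x, f x ∈ S) (X Y : Σ d : ℕ, Matrix (Fin d) (Fin d) R)
    (h : SSE X Y) :
    Relation.ReflTransGen
          (fun X Y : (Σ d : ℕ, Matrix (Fin d) (Fin d) ℝ) =>
            ∃ (R : Matrix (Fin X.1) (Fin Y.1) ℝ) (T : Matrix (Fin Y.1) (Fin X.1) ℝ),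
              (∀ i j, R i j ∈ S) ∧ (∀ i j, T i j ∈ S) ∧ X.2 = R * T ∧ Y.2 = T * R)
          ⟨X.1, X.2.map f⟩ ⟨Y.1, Y.2.map f⟩ := by
  refine Relation.ReflTransGen.lift (r := ESSE) (p := (fun X Y : (Σ d : ℕ, Matrix (Fin d) (Fin d) ℝ) =>
            ∃ (R : Matrix (Fin X.1) (Fin Y.1) ℝ) (T : Matrix (Fin Y.1) (Fin X.1) ℝ),
              (∀ i j, R i j ∈ S) ∧ (∀ i j, T i j ∈ S) ∧ X.2 = R * T ∧ Y.2 = T * R)) (fun Z : (Σ d : ℕ, Matrix (Fin d) (Fin d) R) =>
    (⟨Z.1, Z.2.map f⟩ : Σ d : ℕ, Matrix (Fin d) (Fin d) ℝ)) ?_ X Y h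
  rintro ⟨d, Z⟩ ⟨d', Z'⟩ ⟨P, Q, h1, h2⟩
  refine ⟨P.map f, Q.map f, fun i j => hf _, fun i j => hf _, ?_, ?_⟩
  · change Z.map f = _
    have h1' : Z = P * Q := h1
    rw [h1', Matrix.map_mul]
  · change Z'.map f = _
    have h2' : Z' = Q * P := h2
    rw [h2', Matrix.map_mul]

theorem SSE.trace {R : Type} [CommRing R] {X Y : Σ d : ℕ, Matrix (Fin d) (Fin d) R} (h : SSE X Y) : X.2.trace = Y.2.trace := by
  unfold SSE at h
  induction h with
  | refl => rfl
  | tail _ h1 ih =>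
    rw [ih]
    obtain ⟨P, Q, h2, h3⟩ := h1
    rw [h2, h3, Matrix.trace_mul_comm]

section
variable {n : ℕ} (β : (Fin n → ℤ) →ₗ[ℤ] (Fin n → ℤ))

def Wr (k : ℕ) : Submodule ℤ (Fin n → ℤ) := LinearMap.range (β ^ k)

theorem Wr_step (k : ℕ) (x : Fin n → ℤ) (hx : x ∈ Wr β k) : β x ∈ Wr β (k + 1) := by
  obtain ⟨y, rfl⟩ := hx
  exact ⟨y, by rw [pow_succ']; rfl⟩

theorem Wr_le (k : ℕ) : Wr β (k + 1) ≤ Wr β k := by
  rintro x ⟨y, rfl⟩
  exact ⟨β y, by rw [pow_succ]; rfl⟩

theorem Wr_self (k : ℕ) (x : Fin n → ℤ) (hx : x ∈ Wr β k) : β x ∈ Wr β k := Wr_le β k (Wr_step β k x hx)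

def bk (k : ℕ) : Wr β k →ₗ[ℤ] Wr β k := β.restrict (Wr_self β k)

theorem bk_veq (k : ℕ) : VEq (bk β k) (bk β (k + 1)) := by
  have h := VEq.factor (R := ℤ) (β.restrict (p := Wr β k) (q := Wr β (k + 1)) (Wr_step β k)) (Submodule.inclusion (Wr_le β k))
  have h1 : Submodule.inclusion (Wr_le β k) ∘ₗ (β.restrict (p := Wr β k) (q := Wr β (k + 1)) (Wr_step β k)) = bk β k := by
    ext x
    rfl
  have h2 : (β.restrict (p := Wr β k) (q := Wr β (k + 1)) (Wr_step β k)) ∘ₗ Submodule.inclusion (Wr_le β k) = bk β (k + 1) := by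
    ext x
    rfl
  rw [h1, h2] at h
  exact h

theorem bk_veq0 (k : ℕ) : VEq β (bk β k) := by
  induction k with
  | zero =>
    have hW : Wr β 0 = ⊤ := by
      rw [Wr, pow_zero]
      exact LinearMap.range_id
    refine VEq.iso (LinearEquiv.ofTop _ hW).symm β (bk β 0) ?_
    intro x
    rfl
  | succ k ih => exact ih.trans (bk_veq β k)

end

theorem triv_int (n : ℕ) (A : Matrix (Fin n) (Fin n) ℤ) (N : ℕ) (h : A ^ (N + 1) = A ^ N) (ht : A.trace = 1) :
    SSE (R := ℤ) ⟨n, A⟩ ⟨1, 1⟩ := by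
  have h1 := bk_veq0 (Matrix.toLin' A) N
  have h2 : bk (Matrix.toLin' A) N = LinearMap.id := by
    apply LinearMap.ext
    rintro ⟨x, y, rfl⟩
    apply Subtype.ext
    change Matrix.toLin' A ((Matrix.toLin' A ^ N) y) = (Matrix.toLin' A ^ N) y
    have h3 : (Matrix.toLin' A) ^ (N + 1) = (Matrix.toLin' A) ^ N := by
      rw [← Matrix.toLin'_pow, ← Matrix.toLin'_pow, h]
    calc Matrix.toLin' A ((Matrix.toLin' A ^ N) y) = ((Matrix.toLin' A) ^ (N + 1)) y := by rw [pow_succ']; rfl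
      _ = _ := by rw [h3]
  rw [h2] at h1
  have h4 : Rep (Matrix.toLin' A) ⟨n, A⟩ := ⟨Pi.basisFun ℤ (Fin n), by simp [LinearMap.toMatrix_eq_toMatrix']⟩
  set m := Module.finrank ℤ (Wr (Matrix.toLin' A) N) with hm
  have h5 : Rep (LinearMap.id : Wr (Matrix.toLin' A) N →ₗ[ℤ] Wr (Matrix.toLin' A) N) ⟨m, 1⟩ :=
    ⟨Module.finBasis ℤ (Wr (Matrix.toLin' A) N), LinearMap.toMatrix_id _⟩
  have h6 := h1.sse h4 h5
  have h7 := h6.trace
  have h8 : m = 1 := by
    have : A.trace = (1 : Matrix (Fin m) (Fin m) ℤ).trace := h7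
    rw [ht, Matrix.trace_one, Fintype.card_fin] at this
    exact_mod_cast this.symm
  rw [h8] at h6
  exact h6

theorem pow_sum_bound (s : Multiset ℂ) (R : ℝ) (hR : 0 ≤ R) (hs : ∀ z ∈ s, ‖z‖ ≤ R) (k : ℕ) :
    ‖(s.map fun z => z ^ k).sum‖ ≤ (Multiset.card s : ℝ) * R ^ k := by
  induction s using Multiset.induction_on with
  | empty => simp
  | cons a t ih =>
    rw [Multiset.map_cons, Multiset.sum_cons, Multiset.card_cons]
    have h4 := ih (fun z hz => hs z (Multiset.mem_cons_of_mem hz))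
    have h5 : ‖a ^ k‖ ≤ R ^ k := by
      rw [norm_pow]
      exact pow_le_pow_left₀ (norm_nonneg _) (hs a (Multiset.mem_cons_self a t)) k
    refine (norm_add_le _ _).trans ?_
    push_cast
    linarith

theorem zero_of_pow_sums (s : Multiset ℂ) (K : ℕ) (hK : 1 ≤ K) (h : ∀ k, K ≤ k → (s.map fun z => z ^ k).sum = 0) :
    ∀ z ∈ s, z = 0 := by
  set t := s.map fun z => z ^ K with ht
  have h1 := isLD_multiset t
  have h2 : (PowerSeries.mk fun k => if k = 0 then 0 else (t.map fun z => z ^ k).sum) = (0 : PowerSeries ℂ) := by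
    ext k
    rw [PowerSeries.coeff_mk, map_zero]
    split_ifs with hk
    · rfl
    · rw [ht, Multiset.map_map]
      have h3 := h (K * k) (Nat.le_mul_of_pos_right K (Nat.pos_of_ne_zero hk))
      rw [← h3]
      congr 1
      apply Multiset.map_congr rfl
      intro z _
      simp only [Function.comp]
      rw [pow_mul]
  rw [h2] at h1
  have h4 : ((t.map fun z => (1 - PowerSeries.C z * PowerSeries.X : PowerSeries ℂ)).prod) = 1 := by
    refine IsLD.unique h1 IsLD.one (map_zero _) ?_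
    have : ∀ u : Multiset ℂ, PowerSeries.coeff 0 ((u.map fun z => (1 - PowerSeries.C z * PowerSeries.X : PowerSeries ℂ)).prod) = 1 := by
      intro u
      induction u using Multiset.induction_on with
      | empty => simp
      | cons a u ih =>
        rw [Multiset.map_cons, Multiset.prod_cons, PowerSeries.coeff_mul, Finset.Nat.antidiagonal_zero, Finset.sum_singleton, ih]
        simp
    rw [this]; simp
  have h5 : ((t.map fun z => (1 - Polynomial.C z * Polynomial.X : Polynomial ℂ)).prod) = 1 := by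
    have h6 : ∀ u : Multiset ℂ,
        (((u.map fun z => (1 - Polynomial.C z * Polynomial.X : Polynomial ℂ)).prod : Polynomial ℂ) : PowerSeries ℂ) =
        (u.map fun z => (1 - PowerSeries.C z * PowerSeries.X : PowerSeries ℂ)).prod := by
      intro u
      induction u using Multiset.induction_on with
      | empty => simp
      | cons a t ih =>
        rw [Multiset.map_cons, Multiset.prod_cons, Multiset.map_cons, Multiset.prod_cons, Polynomial.coe_mul, ih]
        simp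
    apply Polynomial.coe_injective ℂ
    rw [h6, h4]; simp
  intro z hz
  by_contra hz0
  have hw : z ^ K ∈ t := by rw [ht]; exact Multiset.mem_map_of_mem _ hz
  have hw0 : z ^ K ≠ 0 := pow_ne_zero _ hz0
  have h7 := congrArg (Polynomial.eval (z ^ K)⁻¹) h5
  rw [Polynomial.eval_multiset_prod, Multiset.map_map, Polynomial.eval_one] at h7
  have h8 : (0 : ℂ) ∈ t.map (Polynomial.eval (z ^ K)⁻¹ ∘ fun z => (1 - Polynomial.C z * Polynomial.X : Polynomial ℂ)) := by
    rw [Multiset.mem_map]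
    refine ⟨z ^ K, hw, ?_⟩
    simp [mul_inv_cancel₀ hw0]
  rw [Multiset.prod_eq_zero h8] at h7
  exact zero_ne_one h7

theorem triv_case (n : ℕ) (A : Matrix (Fin (n + 1)) (Fin (n + 1)) ℝ) (hA : ∀ i j, A i j ∈ (⊥ : Subring ℝ))
    (r : ℝ) (hr : 0 < r) (hr1 : r ≤ 1)
    (s : Multiset ℂ) (hs : (A.map (algebraMap ℝ ℂ)).charpoly.roots = (r : ℂ) ::ₘ s) (hsr : ∀ z ∈ s, ‖z‖ < r) :
    ∃ (p : ℕ) (B : Matrix (Fin p) (Fin p) ℝ),
        0 < p ∧ (∀ i j, B i j ∈ (⊥ : Subring ℝ)) ∧ (∀ i j, 0 ≤ B i j) ∧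
        (∃ k : ℕ, 0 < k ∧ ∀ i j, 0 < (B ^ k) i j) ∧
        Relation.ReflTransGen
          (fun X Y : (Σ d : ℕ, Matrix (Fin d) (Fin d) ℝ) =>
            ∃ (R : Matrix (Fin X.1) (Fin Y.1) ℝ) (T : Matrix (Fin Y.1) (Fin X.1) ℝ),
              (∀ i j, R i j ∈ (⊥ : Subring ℝ)) ∧ (∀ i j, T i j ∈ (⊥ : Subring ℝ)) ∧ X.2 = R * T ∧ Y.2 = T * R)
          ⟨n + 1, A⟩ ⟨p, B⟩ := by
  have hex : ∀ i j, ∃ z : ℤ, (z : ℝ) = A i j := fun i j => Subring.mem_bot.mp (hA i j)
  choose AZ hAZ using hex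
  set AZ' : Matrix (Fin (n + 1)) (Fin (n + 1)) ℤ := Matrix.of AZ with hAZ'
  have hmap : AZ'.map (Int.castRingHom ℝ) = A := by ext i j; exact hAZ i j
  set AC := A.map (algebraMap ℝ ℂ) with hAC
  have hmapC : AZ'.map (Int.castRingHom ℂ) = AC := by
    ext i j
    rw [hAC, Matrix.map_apply, Matrix.map_apply, ← hAZ]
    simp [hAZ']
  have htr : ∀ k, (((AZ' ^ k).trace : ℤ) : ℂ) = (r : ℂ) ^ k + (s.map fun z => z ^ k).sum := by
    intro k
    have h1 := trace_pow_roots (n + 1) AC k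
    rw [hs, Multiset.map_cons, Multiset.sum_cons] at h1
    rw [← h1, ← hmapC]
    have h2 : (AZ'.map (Int.castRingHom ℂ)) ^ k = (AZ' ^ k).map (Int.castRingHom ℂ) :=
      (map_pow (RingHom.mapMatrix (Int.castRingHom ℂ)) AZ' k).symm
    rw [h2, Matrix.trace, Matrix.trace]
    push_cast
    rfl
  obtain ⟨θ, hθ0, hθ1, hθs⟩ := exists_theta s r hr hsr
  set c : ℝ := (Multiset.card s : ℝ) with hc
  have hc0 : 0 ≤ c := by positivity
  have hb : ∀ k, ‖(s.map fun z => z ^ k).sum‖ ≤ c * (θ * r) ^ k := fun k =>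
    pow_sum_bound s (θ * r) (by positivity) hθs k
  have htθ : Filter.Tendsto (fun k : ℕ => c * θ ^ k) Filter.atTop (nhds (c * 0)) :=
    (tendsto_pow_atTop_nhds_zero_of_lt_one hθ0.le hθ1).const_mul c
  rw [mul_zero] at htθ
  have hevθ := htθ.eventually (gt_mem_nhds (show (0 : ℝ) < 1 by norm_num))
  have hr1' : r = 1 := by
    by_contra hne
    have hlt : r < 1 := lt_of_le_of_ne hr1 hne
    have h1 : Filter.Tendsto (fun k : ℕ => (1 + c) * r ^ k) Filter.atTop (nhds ((1 + c) * 0)) :=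
      (tendsto_pow_atTop_nhds_zero_of_lt_one hr.le hlt).const_mul (1 + c)
    rw [mul_zero] at h1
    obtain ⟨k, hk1, hk2⟩ := ((h1.eventually (gt_mem_nhds (show (0 : ℝ) < 1 by norm_num))).and hevθ).exists
    have h2 : (θ * r) ^ k ≤ r ^ k := pow_le_pow_left₀ (by positivity) (by nlinarith) k
    have h3 : ‖(((AZ' ^ k).trace : ℤ) : ℂ)‖ < 1 := by
      rw [htr]
      calc ‖(r : ℂ) ^ k + (s.map fun z => z ^ k).sum‖ ≤ ‖(r : ℂ) ^ k‖ + ‖(s.map fun z => z ^ k).sum‖ := norm_add_le _ _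
        _ ≤ r ^ k + c * (θ * r) ^ k := by
            have : ‖(r : ℂ) ^ k‖ = r ^ k := by rw [norm_pow, Complex.norm_real, Real.norm_of_nonneg hr.le]
            rw [this]
            linarith [hb k]
        _ ≤ (1 + c) * r ^ k := by nlinarith
        _ < 1 := hk1
    have h4 : (AZ' ^ k).trace = 0 := by
      rw [Complex.norm_intCast] at h3
      have : |(AZ' ^ k).trace| < 1 := by exact_mod_cast h3
      exact Int.abs_lt_one_iff.mp this
    have h5 := htr k
    rw [h4, Int.cast_zero] at h5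
    have h6 : ‖(r : ℂ) ^ k‖ = ‖(s.map fun z => z ^ k).sum‖ := by
      have : (r : ℂ) ^ k = - (s.map fun z => z ^ k).sum := by linear_combination -h5
      rw [this, norm_neg]
    rw [norm_pow, Complex.norm_real, Real.norm_of_nonneg hr.le] at h6
    have h7 := hb k
    rw [← h6, mul_pow] at h7
    have h8 : 0 < r ^ k := by positivity
    nlinarith
  subst hr1'
  obtain ⟨K', hK'⟩ := Filter.eventually_atTop.mp hevθ
  have hzero := zero_of_pow_sums s (max K' 1) (le_max_right _ _) (by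
    intro k hk
    have h1 := hb k
    rw [mul_one] at h1
    have h2 := hK' k ((le_max_left _ _).trans hk)
    have h3 := htr k
    rw [Complex.ofReal_one, one_pow] at h3
    have h4 : (s.map fun z => z ^ k).sum = (((AZ' ^ k).trace - 1 : ℤ) : ℂ) := by
      push_cast; linear_combination -h3
    rw [h4] at h1 ⊢
    rw [Complex.norm_intCast] at h1
    have h5 : |((AZ' ^ k).trace - 1)| < 1 := by
      have : |(((AZ' ^ k).trace - 1 : ℤ) : ℝ)| < 1 := lt_of_le_of_lt h1 h2
      exact_mod_cast this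
    rw [Int.abs_lt_one_iff.mp h5, Int.cast_zero])
  have hsz : s = Multiset.replicate (Multiset.card s) 0 := Multiset.eq_replicate_card.mpr hzero
  set N := Multiset.card s with hN
  have hch : AC.charpoly = (Polynomial.X - Polynomial.C 1) * Polynomial.X ^ N := by
    have h1 := (IsAlgClosed.splits AC.charpoly).eq_prod_roots
    rw [(Matrix.charpoly_monic AC).leadingCoeff, C_1, one_mul, hs, Multiset.map_cons, Multiset.prod_cons, hsz,
      Multiset.map_replicate, Multiset.prod_replicate, Polynomial.C_0, sub_zero, Complex.ofReal_one] at h1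
    exact h1
  have hCH : AC ^ (N + 1) = AC ^ N := by
    have h1 := Matrix.aeval_self_charpoly AC
    rw [hch, map_mul, map_pow, map_sub, Polynomial.aeval_X, Polynomial.aeval_C, map_one, sub_mul, one_mul, sub_eq_zero,
      ← pow_succ'] at h1
    exact h1
  have hCHZ : AZ' ^ (N + 1) = AZ' ^ N := by
    have hinj : Function.Injective (RingHom.mapMatrix (m := Fin (n + 1)) (Int.castRingHom ℂ)) := by
      intro x y hxy
      ext i j
      have := congrFun (congrFun hxy i) j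
      simpa using this
    apply hinj
    rw [map_pow, map_pow]
    have : RingHom.mapMatrix (Int.castRingHom ℂ) AZ' = AC := hmapC
    rw [this, hCH]
  have htr1 : AZ'.trace = 1 := by
    have h1 := htr 1
    rw [pow_one, pow_one, Complex.ofReal_one] at h1
    have h2 : (s.map fun z => z ^ 1).sum = 0 := by
      apply Multiset.sum_eq_zero
      intro x hx
      rw [Multiset.mem_map] at hx
      obtain ⟨z, hz, rfl⟩ := hx
      rw [hzero z hz, pow_one]
    rw [h2, add_zero] at h1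
    exact_mod_cast h1
  have hsse := rsse_of_hom (⊥ : Subring ℝ) (Int.castRingHom ℝ) (fun x => Subring.mem_bot.mpr ⟨x, rfl⟩) _ _
    (triv_int (n + 1) AZ' N hCHZ htr1)
  simp only [hmap] at hsse
  refine ⟨1, (1 : Matrix (Fin 1) (Fin 1) ℤ).map (Int.castRingHom ℝ), one_pos, fun i j => Subring.mem_bot.mpr ⟨_, rfl⟩, ?_,
    ⟨1, one_pos, ?_⟩, hsse⟩
  · intro i j
    rw [Matrix.map_apply, Subsingleton.elim i j, Matrix.one_apply_eq]
    simp
  · intro i j
    rw [pow_one, Matrix.map_apply, Subsingleton.elim i j, Matrix.one_apply_eq]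
    simp

end Pool.Agent.Helper605
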